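import Pool.Agent.MNG.T1a

/-!
# MNG-A1: rounding of the 8-grid, snapping: definitions and coordinatewise lemmas

Doubled coordinates of the 8-grid, `z = 16 m + t`. `rd1`: `t ≤ 6 ↦ 2 m`, `7 ↦ 2 m + 1`,
`t ≥ 8 ↦ 2 m + 2` (a cube map). `sm1`: the smallest snap. `mu1`: the meet over the vertices
`v` of the cell of (lattice point if `v` is at distance `≤ 3`, free if `v` is at distance 4).
-/

set_option autoImplicit false

noncomputable section

namespace MNG

open AGM (Ei Bl Sp)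
open Set Topology

variable {J V : Type}

/-- rounding of a coordinate of the 8-grid -/
def rd1 (z : ℤ) : ℤ :=
  if z % 16 ≤ 6 then 2 * (z / 16) else if z % 16 = 7 then 2 * (z / 16) + 1 else 2 * (z / 16) + 2

/-- rounding of the 8-grid -/
def rd (c : Cl J) : Cl J := fun j => rd1 (c j)

/-- the smallest snap of a coordinate -/
def sm1 (z : ℤ) : ℤ :=
  if z % 16 ≤ 1 then 2 * (z / 16) else if z % 16 = 15 then 2 * (z / 16) + 2 else 2 * (z / 16) + 1

/-- the smallest snap of a cell -/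
def sm (c : Cl J) : Cl J := fun j => sm1 (c j)

def mu1 (z : ℤ) : ℤ :=
  if z % 16 ≤ 7 then 2 * (z / 16) else if z % 16 = 8 then 2 * (z / 16) + 1 else 2 * (z / 16) + 2

def mu (c : Cl J) : Cl J := fun j => mu1 (c j)

theorem ca1_eq (z : ℤ) : ca1 8 z = if z % 16 = 0 then 2 * (z / 16) else 2 * (z / 16) + 1 := by
  unfold ca1
  push_cast
  split_ifs <;> omega

theorem rd1_ca1 (z : ℤ) : fc (rd1 z) (ca1 8 z) := by
  rw [ca1_eq]
  unfold fc rd1
  split_ifs <;> omega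

theorem rd1_fc {a b : ℤ} (h : fc a b) : fc (rd1 a) (rd1 b) := by
  unfold fc rd1 at *
  split_ifs <;> omega

theorem rd1_even {a : ℤ} (h : a % 2 = 0) : rd1 a % 2 = 0 := by
  unfold rd1
  split_ifs <;> omega

theorem ca1_fc8 {a b : ℤ} (h : fc a b) : fc (ca1 8 a) (ca1 8 b) := by
  rw [ca1_eq, ca1_eq]
  unfold fc at *
  split_ifs <;> omega

theorem rd1_sm1 (z : ℤ) : fc (rd1 z) (sm1 z) := by
  unfold fc rd1 sm1
  split_ifs <;> omega

theorem sm1_ca1 (z : ℤ) : fc (sm1 z) (ca1 8 z) := by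
  rw [ca1_eq]
  unfold fc sm1
  split_ifs <;> omega

theorem sm1_anti {a b : ℤ} (h : fc a b) : fc (sm1 b) (sm1 a) := by
  unfold fc sm1 at *
  split_ifs <;> omega

theorem sm1_ne {a : ℤ} (h : sm1 a ≠ ca1 8 a) : a % 2 = 1 ∧ rd1 a % 2 = 0 := by
  rw [ca1_eq] at h
  unfold sm1 at h
  unfold rd1
  split_ifs at h ⊢ <;> omega

theorem mu1_anti {a b : ℤ} (h : fc a b) : fc (mu1 b) (mu1 a) := by
  unfold fc mu1 at *
  split_ifs <;> omega

theorem mu1_ca1 (z : ℤ) : fc (mu1 z) (ca1 8 z) := by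
  rw [ca1_eq]
  unfold fc mu1
  split_ifs <;> omega

theorem fc_even {a b : ℤ} (h : fc a b) (hb : b % 2 = 0) : a = b := by
  unfold fc at h
  omega

theorem rd_ca (c : Cl J) : Fa (rd c) (ca 8 c) := fun j => rd1_ca1 (c j)

theorem rd_fa {c d : Cl J} (h : Fa c d) : Fa (rd c) (rd d) := fun j => rd1_fc (h j)

theorem ca8_fa {c d : Cl J} (h : Fa c d) : Fa (ca 8 c) (ca 8 d) := fun j => ca1_fc8 (h j)

theorem rd_sm (c : Cl J) : Fa (rd c) (sm c) := fun j => rd1_sm1 (c j)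

theorem sm_ca (c : Cl J) : Fa (sm c) (ca 8 c) := fun j => sm1_ca1 (c j)

theorem sm_anti {c d : Cl J} (h : Fa c d) : Fa (sm d) (sm c) := fun j => sm1_anti (h j)

theorem mu_anti {c d : Cl J} (h : Fa c d) : Fa (mu d) (mu c) := fun j => mu1_anti (h j)

theorem mu_ca (c : Cl J) : Fa (mu c) (ca 8 c) := fun j => mu1_ca1 (c j)

theorem dm_rd [Fintype J] (c : Cl J) : dm (rd c) ≤ dm c := by
  unfold dm
  apply Finset.card_le_card
  intro j hj
  rw [Finset.mem_filter] at hj ⊢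
  refine ⟨Finset.mem_univ _, ?_⟩
  by_contra h
  have h1 := rd1_even (a := c j) (by omega)
  have h2 : rd1 (c j) % 2 = 1 := hj.2
  omega

theorem dm_rd_lt [Fintype J] {c : Cl J} (h : sm c ≠ ca 8 c) : dm (rd c) + 1 ≤ dm c := by
  obtain ⟨i, hi⟩ := Function.ne_iff.1 h
  have h1 := sm1_ne hi
  unfold dm
  apply Finset.card_lt_card
  rw [Finset.ssubset_iff_of_subset]
  · refine ⟨i, ?_, ?_⟩
    · rw [Finset.mem_filter]
      exact ⟨Finset.mem_univ _, h1.1⟩
    · rw [Finset.mem_filter]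
      rintro ⟨-, h2⟩
      have h3 : rd1 (c i) % 2 = 1 := h2
      omega
  · intro j hj
    rw [Finset.mem_filter] at hj ⊢
    refine ⟨Finset.mem_univ _, ?_⟩
    by_contra h
    have h1 := rd1_even (a := c j) (by omega)
    have h2 : rd1 (c j) % 2 = 1 := hj.2
    omega

theorem cub_rd [Fintype J] {K : Set (Cl J)} (hK : Clo K) : Cub (Gr 8 K) K rd where
  map := fun c hc => hK _ hc _ (rd_ca c)
  mono := fun _ _ _ hd => rd_fa hd
  dim := fun c _ => dm_rd c

theorem clo_gr8 {K : Set (Cl J)} (hK : Clo K) : Clo (Gr 8 K) :=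
  fun _ hc _ hd => hK _ hc _ (ca8_fa hd)

end MNG
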