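import Pool.Agent.MNG.Defs

/-!
# MNG-T1: basic properties of `Cs`

`cs_hom`: deformation into a subset; glue `φ` on the sphere with the homotopy on the collar `1/2 ≤ |x| ≤ 1` and the extension of `H 1 ∘ φ` on the ball of radius `1/2`. `cs_dom`: `B` is dominated by `A` (`f ∘ g = id` on `B`). `cs_convex`: radial formula.
-/

set_option autoImplicit false

noncomputable section

namespace MNG

open AGM (Ei Bl Sp)
open Set Topology

private theorem T1_unit {i : ℕ} {x : Ei i} (hx : ‖x‖ ≠ 0) : ‖x‖⁻¹ • x ∈ Sp i := by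
  show ‖x‖⁻¹ • x ∈ Metric.sphere (0 : Ei i) 1
  rw [mem_sphere_zero_iff_norm, norm_smul, norm_inv, norm_norm, inv_mul_cancel₀ hx]

theorem cs_le {X : Type} [TopologicalSpace X] {k l : ℕ} (hl : l ≤ k) {B : Set X} (h : Cs k B) :
    Cs l B := by
  exact ⟨h.1, fun i hi hil φ hφ hm => h.2 i hi (hil.trans hl) φ hφ hm⟩

theorem cs_hom {X : Type} [TopologicalSpace X] {k : ℕ} (B B' : Set X) (hs : B' ⊆ B)
    (H : ℝ → X → X) (hc : ContinuousOn (fun z : ℝ × X => H z.1 z.2) (Icc (0 : ℝ) 1 ×ˢ B))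
    (h0 : ∀ x ∈ B, H 0 x = x) (h1 : ∀ x ∈ B, H 1 x ∈ B')
    (hm : ∀ t ∈ Icc (0 : ℝ) 1, ∀ x ∈ B, H t x ∈ B) (h : Cs k B') : Cs k B := by
  obtain ⟨b, hb⟩ := h.1
  refine ⟨⟨b, hs hb⟩, fun i hi hik φ hφ hφm => ?_⟩
  have hHφ : ContinuousOn (fun x => H 1 (φ x)) (Sp i) := by
    have e1 : ContinuousOn (fun x : Ei i => ((1 : ℝ), φ x)) (Sp i) :=
      continuousOn_const.prodMk hφ
    exact hc.comp e1 fun x hx => ⟨⟨zero_le_one, le_rfl⟩, hφm hx⟩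
  obtain ⟨Ψ, hΨ, hΨm, hΨe⟩ := h.2 i hi hik (fun x => H 1 (φ x)) hHφ
    fun x hx => h1 _ (hφm hx)
  have hA : ContinuousOn (fun x : Ei i => Ψ ((2 : ℝ) • x)) {x | ‖x‖ ≤ 1 / 2} := by
    refine hΨ.comp (by fun_prop) fun x hx => ?_
    have hx' : ‖x‖ ≤ 1 / 2 := hx
    show (2 : ℝ) • x ∈ Metric.closedBall (0 : Ei i) 1
    rw [mem_closedBall_zero_iff, norm_smul, Real.norm_eq_abs, abs_of_pos (by norm_num : (0:ℝ) < 2)]
    linarith
  have hB : ContinuousOn (fun x : Ei i => H (2 - 2 * ‖x‖) (φ (‖x‖⁻¹ • x)))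
      {x | 1 / 2 ≤ ‖x‖ ∧ ‖x‖ ≤ 1} := by
    have e0 : ∀ x : Ei i, x ∈ {x : Ei i | 1 / 2 ≤ ‖x‖ ∧ ‖x‖ ≤ 1} → ‖x‖ ≠ 0 := by
      intro x hx
      have hx' : 1 / 2 ≤ ‖x‖ := hx.1
      linarith
    have e2 : ContinuousOn (fun x : Ei i => ‖x‖⁻¹ • x) {x | 1 / 2 ≤ ‖x‖ ∧ ‖x‖ ≤ 1} :=
      (continuous_norm.continuousOn.inv₀ e0).smul continuousOn_id
    have e3 : ContinuousOn (fun x : Ei i => φ (‖x‖⁻¹ • x)) {x | 1 / 2 ≤ ‖x‖ ∧ ‖x‖ ≤ 1} :=
      hφ.comp e2 fun x hx => T1_unit (e0 x hx)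
    have e4 : ContinuousOn (fun x : Ei i => (2 - 2 * ‖x‖, φ (‖x‖⁻¹ • x)))
        {x | 1 / 2 ≤ ‖x‖ ∧ ‖x‖ ≤ 1} :=
      ContinuousOn.prodMk (by fun_prop) e3
    refine hc.comp e4 fun x hx => ⟨⟨?_, ?_⟩, hφm (T1_unit (e0 x hx))⟩
    · have hx' : ‖x‖ ≤ 1 := hx.2
      show 0 ≤ 2 - 2 * ‖x‖
      linarith
    · have hx' : 1 / 2 ≤ ‖x‖ := hx.1
      show 2 - 2 * ‖x‖ ≤ 1
      linarith
  have hag : ∀ x : Ei i, ‖x‖ = 1 / 2 →
      Ψ ((2 : ℝ) • x) = H (2 - 2 * ‖x‖) (φ (‖x‖⁻¹ • x)) := by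
    intro x hx
    have e1 : (2 : ℝ) • x ∈ Sp i := by
      show (2 : ℝ) • x ∈ Metric.sphere (0 : Ei i) 1
      rw [mem_sphere_zero_iff_norm, norm_smul, Real.norm_eq_abs,
        abs_of_pos (by norm_num : (0:ℝ) < 2), hx]
      norm_num
    have e2 : (2 : ℝ) - 2 * (1 / 2) = 1 := by norm_num
    have e3 : (1 / 2 : ℝ)⁻¹ = 2 := by norm_num
    rw [hΨe e1, hx, e2, e3]
  refine ⟨fun x => if ‖x‖ ≤ 1 / 2 then Ψ ((2 : ℝ) • x) else H (2 - 2 * ‖x‖) (φ (‖x‖⁻¹ • x)),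
    ?_, ?_, ?_⟩
  · have hun : Bl i = {x : Ei i | ‖x‖ ≤ 1 / 2} ∪ {x | 1 / 2 ≤ ‖x‖ ∧ ‖x‖ ≤ 1} := by
      ext x
      show x ∈ Metric.closedBall (0 : Ei i) 1 ↔ _
      rw [mem_closedBall_zero_iff]
      constructor
      · intro hx
        rcases le_total ‖x‖ (1 / 2) with h2 | h2
        · exact Or.inl h2
        · exact Or.inr ⟨h2, hx⟩
      · rintro (h2 | h2)
        · have h3 : ‖x‖ ≤ 1 / 2 := h2
          linarith
        · exact h2.2
    rw [hun]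
    refine ContinuousOn.union_of_isClosed ?_ ?_ ?_ ?_
    · refine hA.congr fun x hx => ?_
      have hx' : ‖x‖ ≤ 1 / 2 := hx
      show (if ‖x‖ ≤ 1 / 2 then _ else _) = _
      rw [if_pos hx']
    · refine hB.congr fun x hx => ?_
      show (if ‖x‖ ≤ 1 / 2 then _ else _) = _
      by_cases h2 : ‖x‖ ≤ 1 / 2
      · rw [if_pos h2]
        exact hag x (le_antisymm h2 hx.1)
      · rw [if_neg h2]
    · exact isClosed_le continuous_norm continuous_const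
    · exact (isClosed_le continuous_const continuous_norm).inter
        (isClosed_le continuous_norm continuous_const)
  · intro x hx
    have hx1 : ‖x‖ ≤ 1 := by
      have : x ∈ Metric.closedBall (0 : Ei i) 1 := hx
      rwa [mem_closedBall_zero_iff] at this
    show (if ‖x‖ ≤ 1 / 2 then _ else _) ∈ B
    by_cases h2 : ‖x‖ ≤ 1 / 2
    · rw [if_pos h2]
      refine hs (hΨm ?_)
      show (2 : ℝ) • x ∈ Metric.closedBall (0 : Ei i) 1
      rw [mem_closedBall_zero_iff, norm_smul, Real.norm_eq_abs,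
        abs_of_pos (by norm_num : (0:ℝ) < 2)]
      linarith
    · rw [if_neg h2]
      have h3 : 1 / 2 < ‖x‖ := not_le.1 h2
      exact hm _ ⟨by linarith, by linarith⟩ _ (hφm (T1_unit (by linarith)))
  · intro x hx
    have hx1 : ‖x‖ = 1 := by
      have : x ∈ Metric.sphere (0 : Ei i) 1 := hx
      rwa [mem_sphere_zero_iff_norm] at this
    show (if ‖x‖ ≤ 1 / 2 then _ else _) = φ x
    rw [if_neg (by rw [hx1]; norm_num), hx1]
    have e2 : (2 : ℝ) - 2 * 1 = 0 := by norm_num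
    rw [e2, inv_one, one_smul]
    exact h0 _ (hφm hx)

theorem cs_dom {X Y : Type} [TopologicalSpace X] [TopologicalSpace Y] {k : ℕ} (A : Set X)
    (B : Set Y) (f : X → Y) (g : Y → X) (hf : ContinuousOn f A) (hg : ContinuousOn g B)
    (hfm : MapsTo f A B) (hgm : MapsTo g B A) (hfg : ∀ b ∈ B, f (g b) = b) (h : Cs k A) :
    Cs k B := by
  obtain ⟨a, ha⟩ := h.1
  refine ⟨⟨f a, hfm ha⟩, fun i hi hik φ hφ hφm => ?_⟩
  obtain ⟨Ψ, hΨ, hΨm, hΨe⟩ := h.2 i hi hik (fun x => g (φ x)) (hg.comp hφ hφm)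
    fun x hx => hgm (hφm hx)
  refine ⟨fun x => f (Ψ x), hf.comp hΨ hΨm, fun x hx => hfm (hΨm hx), fun x hx => ?_⟩
  show f (Ψ x) = φ x
  rw [hΨe hx]
  exact hfg _ (hφm hx)

theorem cs_convex {J : Type} [Fintype J] {k : ℕ} (B : Set (J → ℝ)) (hB : Convex ℝ B)
    (hn : B.Nonempty) : Cs k B := by
  refine ⟨hn, fun i hi _ φ hφ hφm => ?_⟩
  obtain ⟨b, hb⟩ := hn
  obtain ⟨M, hM⟩ := (isCompact_sphere (0 : Ei i) 1).exists_bound_of_continuousOn
    (f := fun x => φ x - b) (hφ.sub continuousOn_const)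
  have hcv : ∀ x : Ei i, ‖x‖ ≤ 1 → ‖x‖ ≠ 0 → b + ‖x‖ • (φ (‖x‖⁻¹ • x) - b) ∈ B := by
    intro x hx hx0
    have h1 : φ (‖x‖⁻¹ • x) ∈ B := hφm (T1_unit hx0)
    have h2 := hB hb h1 (sub_nonneg.2 hx) (norm_nonneg x) (by ring)
    have h3 : b + ‖x‖ • (φ (‖x‖⁻¹ • x) - b) = (1 - ‖x‖) • b + ‖x‖ • φ (‖x‖⁻¹ • x) := by
      rw [smul_sub, sub_smul, one_smul]
      abel
    rw [h3]
    exact h2
  refine ⟨fun x => b + ‖x‖ • (φ (‖x‖⁻¹ • x) - b), ?_, ?_, ?_⟩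
  · intro x hx
    by_cases hx0 : ‖x‖ = 0
    · have hx' : x = 0 := norm_eq_zero.1 hx0
      subst hx'
      have h4 : Filter.Tendsto (fun x : Ei i => ‖x‖ • (φ (‖x‖⁻¹ • x) - b)) (𝓝[Bl i] 0)
          (𝓝 0) := by
        rw [tendsto_zero_iff_norm_tendsto_zero]
        have h5 : Filter.Tendsto (fun x : Ei i => ‖x‖ * M) (𝓝[Bl i] 0) (𝓝 0) := by
          have h6 : Continuous (fun x : Ei i => ‖x‖ * M) := by fun_prop
          have h7 := (h6.tendsto 0).mono_left (nhdsWithin_le_nhds (s := Bl i))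
          simpa using h7
        refine squeeze_zero (fun _ => norm_nonneg _) (fun x => ?_) h5
        rw [norm_smul, norm_norm]
        by_cases hx0 : ‖x‖ = 0
        · rw [hx0, zero_mul, zero_mul]
        · exact mul_le_mul_of_nonneg_left (hM _ (T1_unit hx0)) (norm_nonneg _)
      show Filter.Tendsto _ _ (𝓝 (b + ‖(0 : Ei i)‖ • (φ (‖(0 : Ei i)‖⁻¹ • (0 : Ei i)) - b)))
      rw [norm_zero, zero_smul]
      exact tendsto_const_nhds.add h4
    · have e1 : ContinuousWithinAt (fun x : Ei i => ‖x‖⁻¹ • x) (Bl i ∩ {x | ‖x‖ ≠ 0}) x :=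
        ((continuous_norm.continuousWithinAt).inv₀ hx0).smul continuousWithinAt_id
      have e2 : ContinuousWithinAt (fun x : Ei i => φ (‖x‖⁻¹ • x)) (Bl i ∩ {x | ‖x‖ ≠ 0}) x :=
        ContinuousWithinAt.comp (t := Sp i) (hφ _ (T1_unit hx0)) e1
          fun y hy => T1_unit hy.2
      have e3 : ContinuousWithinAt (fun x : Ei i => b + ‖x‖ • (φ (‖x‖⁻¹ • x) - b))
          (Bl i ∩ {x | ‖x‖ ≠ 0}) x :=
        continuousWithinAt_const.add
          (continuous_norm.continuousWithinAt.smul (e2.sub continuousWithinAt_const))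
      refine (continuousWithinAt_inter ?_).1 e3
      exact (isOpen_ne_fun continuous_norm continuous_const).mem_nhds hx0
  · intro x hx
    have hx1 : ‖x‖ ≤ 1 := by
      have : x ∈ Metric.closedBall (0 : Ei i) 1 := hx
      rwa [mem_closedBall_zero_iff] at this
    by_cases hx0 : ‖x‖ = 0
    · show b + ‖x‖ • (φ (‖x‖⁻¹ • x) - b) ∈ B
      rw [hx0, zero_smul, add_zero]
      exact hb
    · exact hcv x hx1 hx0
  · intro x hx
    have hx1 : ‖x‖ = 1 := by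
      have : x ∈ Metric.sphere (0 : Ei i) 1 := hx
      rwa [mem_sphere_zero_iff_norm] at this
    show b + ‖x‖ • (φ (‖x‖⁻¹ • x) - b) = φ x
    rw [hx1, inv_one, one_smul, one_smul]
    abel

theorem cs_prod {X Y : Type} [TopologicalSpace X] [TopologicalSpace Y] {k : ℕ} (A : Set X)
    (B : Set Y) (hA : Cs k A) (hB : Cs k B) : Cs k (A ×ˢ B) := by
  obtain ⟨a, ha⟩ := hA.1
  obtain ⟨b, hb⟩ := hB.1
  refine ⟨⟨(a, b), ha, hb⟩, fun i hi hik φ hφ hφm => ?_⟩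
  obtain ⟨Φ, h1, h2, h3⟩ := hA.2 i hi hik (fun x => (φ x).1) (continuous_fst.comp_continuousOn hφ)
    fun x hx => (hφm hx).1
  obtain ⟨Ψ, h4, h5, h6⟩ := hB.2 i hi hik (fun x => (φ x).2) (continuous_snd.comp_continuousOn hφ)
    fun x hx => (hφm hx).2
  exact ⟨fun x => (Φ x, Ψ x), h1.prodMk h4, fun x hx => ⟨h2 hx, h5 hx⟩,
    fun x hx => Prod.ext (h3 hx) (h6 hx)⟩

end MNG
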