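import Pool.Agent.MNG.A9
import Pool.Agent.MNG.T1

/-!
# MNG-A10: the map of the C-move is soft

Let `S ∈ W \\ {r, t}`, `o = 2 t_i - r_i`.
If not `fc o (S i)`: the fibre is `{(c, 0) | c ≤ S}` (for `(c, 2)` the image has `i`-coordinate `o`; for
`(c, 1)` with `c_i = o` the same; otherwise `t_i ≤ S_i`, so `S_i = t_i` and `fc o (S i)`).
If `fc o (S i)`: the fibre is `{(c, 0) | c ≤ S} ∪ {(c, 1) | c ≤ t, c ≤ S} ∪
{(c, 2) | c ≤ t, c_l ≤ S_l for all l ≠ i}`
(if `S_i = t_i` then `c_i ≤ S_i` for all `c ≤ t`; if `S_i` is `o` or the other edge at `o` then `c ≤ t`,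
`c ≤ S` imply `c_i = o`). Its body: `bo S × 0 ∪ (bo t ∩ bo S) × [0,1] ∪ {(x, 1) | x ∈ bo t, x_l ∈ S_l, l ≠ i}`.
`cs_hom` twice: first `x_i ↦ (1 - τ u) x_i + τ u o / 2` (at `u = 1`, `τ = 1` the point is
in `bo t ∩ bo S`), then `u ↦ (1 - τ) u`. The end is `bo S × 0 = bo (mk S 0)` (`cs_one`, `Bo_fc`).
-/

set_option autoImplicit false

noncomputable section

namespace MNG

open AGM (Ei Bl Sp)
open Set Topology

variable {V : Type} [Fintype V] {k : ℕ}

private theorem a10_cv {a b c r l : ℝ} (h0 : 0 ≤ l) (h1 : l ≤ 1) (ha : |2 * a - c| ≤ r)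
    (hb : |2 * b - c| ≤ r) : |2 * ((1 - l) * a + l * b) - c| ≤ r := by
  rw [abs_le] at ha hb ⊢
  have h2 : 0 ≤ 1 - l := by linarith
  have e1 := mul_le_mul_of_nonneg_left ha.1 h2
  have e2 := mul_le_mul_of_nonneg_left ha.2 h2
  have e3 := mul_le_mul_of_nonneg_left hb.1 h0
  have e4 := mul_le_mul_of_nonneg_left hb.2 h0
  constructor <;> nlinarith

private theorem a10_fc {a b : ℤ} (h : fc a b) :
    |2 * ((a : ℝ) / 2) - (b : ℝ)| ≤ ((b % 2 : ℤ) : ℝ) := by
  have e : 2 * ((a : ℝ) / 2) = a := by ring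
  rw [e]
  rcases h with h | ⟨h, h' | h'⟩
  · rw [h, sub_self, abs_zero]
    exact_mod_cast Int.emod_nonneg _ (by norm_num)
  · rw [h', h]
    push_cast
    rw [abs_le]
    constructor <;> linarith
  · rw [h', h]
    push_cast
    rw [abs_le]
    constructor <;> linarith

private theorem a10_u0 {u : ℝ} : |2 * u - ((0 : ℤ) : ℝ)| ≤ (((0 : ℤ) % 2 : ℤ) : ℝ) ↔ u = 0 := by
  rw [show ((0 : ℤ) % 2 : ℤ) = 0 from rfl, Int.cast_zero, abs_nonpos_iff]
  constructor
  · intro h
    linarith
  · intro h
    rw [h]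
    ring

private theorem a10_u1 {u : ℝ} :
    |2 * u - ((1 : ℤ) : ℝ)| ≤ (((1 : ℤ) % 2 : ℤ) : ℝ) ↔ 0 ≤ u ∧ u ≤ 1 := by
  rw [show ((1 : ℤ) % 2 : ℤ) = 1 from rfl, Int.cast_one, abs_le]
  constructor
  · rintro ⟨h1, h2⟩
    constructor <;> linarith
  · rintro ⟨h1, h2⟩
    constructor <;> linarith

private theorem a10_u2 {u : ℝ} : |2 * u - ((2 : ℤ) : ℝ)| ≤ (((2 : ℤ) % 2 : ℤ) : ℝ) ↔ u = 1 := by
  rw [show ((2 : ℤ) % 2 : ℤ) = 0 from rfl, Int.cast_zero, abs_nonpos_iff]
  push_cast
  constructor
  · intro h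
    linarith
  · intro h
    rw [h]
    ring

/-- the body of the model -/
private theorem a10_bo {S t : Cl V} {i : V} (x : V ⊕ Unit → ℝ) :
    x ∈ Bo {z : Cl (V ⊕ Unit) | (Fa (fs z) S ∧ sn z () = 0) ∨
      (Fa (fs z) t ∧ Fa (fs z) S ∧ sn z () = 1) ∨
      (Fa (fs z) t ∧ (∀ l, l ≠ i → fc (fs z l) (S l)) ∧ sn z () = 2)} ↔
    (x (Sum.inr ()) = 0 ∧ (fun j => x (Sum.inl j)) ∈ bo S) ∨
    ((0 ≤ x (Sum.inr ()) ∧ x (Sum.inr ()) ≤ 1) ∧ (fun j => x (Sum.inl j)) ∈ bo t ∧
      (fun j => x (Sum.inl j)) ∈ bo S) ∨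
    (x (Sum.inr ()) = 1 ∧ (fun j => x (Sum.inl j)) ∈ bo t ∧
      ∀ l, l ≠ i → |2 * x (Sum.inl l) - (S l : ℝ)| ≤ ((S l % 2 : ℤ) : ℝ)) := by
  classical
  constructor
  · rintro ⟨z, hz, hx⟩
    have hy : (fun j => x (Sum.inl j)) ∈ bo (fs z) := fun j => hx (Sum.inl j)
    have hu : |2 * x (Sum.inr ()) - ((sn z () : ℤ) : ℝ)| ≤ ((sn z () % 2 : ℤ) : ℝ) :=
      hx (Sum.inr ())
    rcases hz with ⟨h1, h2⟩ | ⟨h1, h2, h3⟩ | ⟨h1, h2, h3⟩
    · rw [h2] at hu
      exact Or.inl ⟨a10_u0.1 hu, bo_mono h1 hy⟩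
    · rw [h3] at hu
      exact Or.inr (Or.inl ⟨a10_u1.1 hu, bo_mono h1 hy, bo_mono h2 hy⟩)
    · rw [h3] at hu
      refine Or.inr (Or.inr ⟨a10_u2.1 hu, bo_mono h1 hy, fun l hl => ?_⟩)
      have h4 : Fa (fs z) (Function.update S i (fs z i)) := by
        intro j
        by_cases hj : j = i
        · rw [hj, Function.update_self]
          exact Or.inl rfl
        · rw [Function.update_of_ne hj]
          exact h2 j hj
      have h5 := bo_mono h4 hy l
      rw [Function.update_of_ne hl] at h5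
      exact h5
  · rintro (⟨h1, h2⟩ | ⟨h1, h2, h3⟩ | ⟨h1, h2, h3⟩)
    · refine ⟨mk S (fun _ => 0), Or.inl ⟨fa_refl S, rfl⟩, fun j => ?_⟩
      rcases j with j | j
      · exact h2 j
      · exact a10_u0.2 h1
    · refine ⟨mk (cr fun j => x (Sum.inl j)) (fun _ => 1),
        Or.inr (Or.inl ⟨cr_min h2, cr_min h3, rfl⟩), fun j => ?_⟩
      rcases j with j | j
      · exact cr_bo (fun j => x (Sum.inl j)) j
      · exact a10_u1.2 h1
    · refine ⟨mk (cr fun j => x (Sum.inl j)) (fun _ => 2),
        Or.inr (Or.inr ⟨cr_min h2, fun l hl => ?_, rfl⟩), fun j => ?_⟩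
      · have h4 : (fun j => x (Sum.inl j)) ∈ bo (Function.update S i (t i)) := by
          intro j
          by_cases hj : j = i
          · rw [hj, Function.update_self]
            exact h2 i
          · rw [Function.update_of_ne hj]
            exact h3 j hj
        have h5 := cr_min h4 l
        rw [Function.update_of_ne hl] at h5
        exact h5
      · rcases j with j | j
        · exact cr_bo (fun j => x (Sum.inl j)) j
        · exact a10_u2.2 h1

/-- the model of the fibres of the C-move -/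
theorem cs_cmove {S t : Cl V} {i : V} {o : ℤ} (hi : t i % 2 = 1) (ho : o = t i - 1 ∨ o = t i + 1)
    (hoS : fc o (S i)) :
    Cs k (Bo {z : Cl (V ⊕ Unit) | (Fa (fs z) S ∧ sn z () = 0) ∨
      (Fa (fs z) t ∧ Fa (fs z) S ∧ sn z () = 1) ∨
      (Fa (fs z) t ∧ (∀ l, l ≠ i → fc (fs z l) (S l)) ∧ sn z () = 2)}) := by
  classical
  have hot : fc o (t i) := Or.inr ⟨hi, ho⟩
  have hS := a10_fc hoS
  have ht := a10_fc hot
  -- the last set
  let B2 : Set (V ⊕ Unit → ℝ) := {x | x (Sum.inr ()) = 0 ∧ (fun j => x (Sum.inl j)) ∈ bo S}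
  have hB2 : B2 = Bo (Fc (mk S (fun _ : Unit => (0 : ℤ)))) := by
    rw [Bo_fc]
    ext x
    constructor
    · rintro ⟨h1, h2⟩ j
      rcases j with j | j
      · exact h2 j
      · exact a10_u0.2 h1
    · intro h
      exact ⟨a10_u0.1 (h (Sum.inr ())), fun j => h (Sum.inl j)⟩
  have hC2 : Cs k B2 := by
    rw [hB2]
    exact cs_fc k _
  -- the middle set
  let B1 : Set (V ⊕ Unit → ℝ) := {x | (x (Sum.inr ()) = 0 ∧ (fun j => x (Sum.inl j)) ∈ bo S) ∨
    ((0 ≤ x (Sum.inr ()) ∧ x (Sum.inr ()) ≤ 1) ∧ (fun j => x (Sum.inl j)) ∈ bo t ∧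
      (fun j => x (Sum.inl j)) ∈ bo S)}
  have hC1 : Cs k B1 := by
    refine cs_hom B1 B2 (fun x hx => Or.inl hx)
      (fun τ x => Function.update x (Sum.inr ()) ((1 - τ) * x (Sum.inr ()))) ?_ ?_ ?_ ?_ hC2
    · apply Continuous.continuousOn
      exact continuous_snd.update _ ((continuous_const.sub continuous_fst).mul
        ((continuous_apply _).comp continuous_snd))
    · intro x _
      show Function.update x (Sum.inr ()) ((1 - 0) * x (Sum.inr ())) = x
      rw [sub_zero, one_mul, Function.update_eq_self]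
    · intro x hx
      refine ⟨?_, ?_⟩
      · show Function.update x (Sum.inr ()) ((1 - 1) * x (Sum.inr ())) (Sum.inr ()) = 0
        rw [Function.update_self, sub_self, zero_mul]
      · have e : (fun j => Function.update x (Sum.inr ()) ((1 - 1) * x (Sum.inr ()))
            (Sum.inl j)) = fun j => x (Sum.inl j) := by
          funext j
          rw [Function.update_of_ne (by simp)]
        show (fun j => Function.update x (Sum.inr ()) ((1 - 1) * x (Sum.inr ()))
            (Sum.inl j)) ∈ bo S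
        rw [e]
        rcases hx with hx | hx
        · exact hx.2
        · exact hx.2.2
    · intro τ hτ x hx
      have e : (fun j => Function.update x (Sum.inr ()) ((1 - τ) * x (Sum.inr ()))
          (Sum.inl j)) = fun j => x (Sum.inl j) := by
        funext j
        rw [Function.update_of_ne (by simp)]
      have e' : Function.update x (Sum.inr ()) ((1 - τ) * x (Sum.inr ())) (Sum.inr ()) =
          (1 - τ) * x (Sum.inr ()) := Function.update_self _ _ _
      show (Function.update x (Sum.inr ()) ((1 - τ) * x (Sum.inr ())) (Sum.inr ()) = 0 ∧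
          (fun j => Function.update x (Sum.inr ()) ((1 - τ) * x (Sum.inr ()))
            (Sum.inl j)) ∈ bo S) ∨
        ((0 ≤ Function.update x (Sum.inr ()) ((1 - τ) * x (Sum.inr ())) (Sum.inr ()) ∧
          Function.update x (Sum.inr ()) ((1 - τ) * x (Sum.inr ())) (Sum.inr ()) ≤ 1) ∧
          (fun j => Function.update x (Sum.inr ()) ((1 - τ) * x (Sum.inr ()))
            (Sum.inl j)) ∈ bo t ∧
          (fun j => Function.update x (Sum.inr ()) ((1 - τ) * x (Sum.inr ()))
            (Sum.inl j)) ∈ bo S)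
      rw [e, e']
      obtain ⟨h1, h2⟩ := hτ
      rcases hx with hx | hx
      · left
        rw [hx.1, mul_zero]
        exact ⟨rfl, hx.2⟩
      · right
        obtain ⟨⟨h3, h4⟩, h5⟩ := hx
        refine ⟨⟨mul_nonneg (by linarith) h3, ?_⟩, h5⟩
        nlinarith
  refine cs_hom _ B1 ?_ (fun τ x => Function.update x (Sum.inl i)
    ((1 - τ * x (Sum.inr ())) * x (Sum.inl i) + τ * x (Sum.inr ()) * ((o : ℝ) / 2)))
    ?_ ?_ ?_ ?_ hC1
  · intro x hx
    rw [a10_bo]
    rcases hx with hx | hx
    · exact Or.inl hx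
    · exact Or.inr (Or.inl hx)
  · apply Continuous.continuousOn
    have c1 : Continuous fun z : ℝ × (V ⊕ Unit → ℝ) => z.2 (Sum.inr ()) :=
      (continuous_apply _).comp continuous_snd
    have c2 : Continuous fun z : ℝ × (V ⊕ Unit → ℝ) => z.2 (Sum.inl i) :=
      (continuous_apply _).comp continuous_snd
    exact continuous_snd.update _ (((continuous_const.sub (continuous_fst.mul c1)).mul c2).add
      ((continuous_fst.mul c1).mul continuous_const))
  · intro x _
    show Function.update x (Sum.inl i)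
      ((1 - 0 * x (Sum.inr ())) * x (Sum.inl i) + 0 * x (Sum.inr ()) * ((o : ℝ) / 2)) = x
    rw [zero_mul, zero_mul, sub_zero, one_mul, add_zero, Function.update_eq_self]
  · intro x hx
    rw [a10_bo] at hx
    set w : ℝ := (1 - 1 * x (Sum.inr ())) * x (Sum.inl i) + 1 * x (Sum.inr ()) * ((o : ℝ) / 2)
      with hw
    have e' : Function.update x (Sum.inl i) w (Sum.inr ()) = x (Sum.inr ()) :=
      Function.update_of_ne (by simp) _ _
    have ej : ∀ j, j ≠ i → Function.update x (Sum.inl i) w (Sum.inl j) = x (Sum.inl j) := by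
      intro j hj
      exact Function.update_of_ne (fun h => hj (Sum.inl.inj h)) _ _
    have ei : Function.update x (Sum.inl i) w (Sum.inl i) = w := Function.update_self _ _ _
    show (Function.update x (Sum.inl i) w (Sum.inr ()) = 0 ∧
        (fun j => Function.update x (Sum.inl i) w (Sum.inl j)) ∈ bo S) ∨
      ((0 ≤ Function.update x (Sum.inl i) w (Sum.inr ()) ∧
        Function.update x (Sum.inl i) w (Sum.inr ()) ≤ 1) ∧
        (fun j => Function.update x (Sum.inl i) w (Sum.inl j)) ∈ bo t ∧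
        (fun j => Function.update x (Sum.inl i) w (Sum.inl j)) ∈ bo S)
    rw [e']
    rcases hx with ⟨h1, h2⟩ | ⟨⟨h1, h1'⟩, h2, h3⟩ | ⟨h1, h2, h3⟩
    · left
      refine ⟨h1, fun j => ?_⟩
      by_cases hj : j = i
      · rw [hj]
        show |2 * Function.update x (Sum.inl i) w (Sum.inl i) - (S i : ℝ)| ≤ _
        rw [ei, hw, h1]
        have h4 := h2 i
        have h5 : (1 - 1 * 0) * x (Sum.inl i) + 1 * 0 * ((o : ℝ) / 2) = x (Sum.inl i) := by ring
        rw [h5]
        exact h4
      · show |2 * Function.update x (Sum.inl i) w (Sum.inl j) - (S j : ℝ)| ≤ _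
        rw [ej j hj]
        exact h2 j
    · right
      rw [one_mul] at hw
      refine ⟨⟨h1, h1'⟩, fun j => ?_, fun j => ?_⟩
      · by_cases hj : j = i
        · rw [hj]
          show |2 * Function.update x (Sum.inl i) w (Sum.inl i) - (t i : ℝ)| ≤ _
          rw [ei, hw]
          exact a10_cv h1 h1' (h2 i) ht
        · show |2 * Function.update x (Sum.inl i) w (Sum.inl j) - (t j : ℝ)| ≤ _
          rw [ej j hj]
          exact h2 j
      · by_cases hj : j = i
        · rw [hj]
          show |2 * Function.update x (Sum.inl i) w (Sum.inl i) - (S i : ℝ)| ≤ _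
          rw [ei, hw]
          exact a10_cv h1 h1' (h3 i) hS
        · show |2 * Function.update x (Sum.inl i) w (Sum.inl j) - (S j : ℝ)| ≤ _
          rw [ej j hj]
          exact h3 j
    · right
      have hw' : w = (o : ℝ) / 2 := by
        rw [hw, h1]
        ring
      refine ⟨⟨by rw [h1]; norm_num, by rw [h1]⟩, fun j => ?_, fun j => ?_⟩
      · by_cases hj : j = i
        · rw [hj]
          show |2 * Function.update x (Sum.inl i) w (Sum.inl i) - (t i : ℝ)| ≤ _
          rw [ei, hw']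
          exact ht
        · show |2 * Function.update x (Sum.inl i) w (Sum.inl j) - (t j : ℝ)| ≤ _
          rw [ej j hj]
          exact h2 j
      · by_cases hj : j = i
        · rw [hj]
          show |2 * Function.update x (Sum.inl i) w (Sum.inl i) - (S i : ℝ)| ≤ _
          rw [ei, hw']
          exact hS
        · show |2 * Function.update x (Sum.inl i) w (Sum.inl j) - (S j : ℝ)| ≤ _
          rw [ej j hj]
          exact h3 j hj
  · intro τ hτ x hx
    obtain ⟨hτ0, hτ1⟩ := hτ
    rw [a10_bo] at hx ⊢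
    set w : ℝ := (1 - τ * x (Sum.inr ())) * x (Sum.inl i) + τ * x (Sum.inr ()) * ((o : ℝ) / 2)
      with hw
    have e' : Function.update x (Sum.inl i) w (Sum.inr ()) = x (Sum.inr ()) :=
      Function.update_of_ne (by simp) _ _
    have ej : ∀ j, j ≠ i → Function.update x (Sum.inl i) w (Sum.inl j) = x (Sum.inl j) := by
      intro j hj
      exact Function.update_of_ne (fun h => hj (Sum.inl.inj h)) _ _
    have ei : Function.update x (Sum.inl i) w (Sum.inl i) = w := Function.update_self _ _ _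
    show (Function.update x (Sum.inl i) w (Sum.inr ()) = 0 ∧
        (fun j => Function.update x (Sum.inl i) w (Sum.inl j)) ∈ bo S) ∨
      ((0 ≤ Function.update x (Sum.inl i) w (Sum.inr ()) ∧
        Function.update x (Sum.inl i) w (Sum.inr ()) ≤ 1) ∧
        (fun j => Function.update x (Sum.inl i) w (Sum.inl j)) ∈ bo t ∧
        (fun j => Function.update x (Sum.inl i) w (Sum.inl j)) ∈ bo S) ∨
      (Function.update x (Sum.inl i) w (Sum.inr ()) = 1 ∧
        (fun j => Function.update x (Sum.inl i) w (Sum.inl j)) ∈ bo t ∧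
        ∀ l, l ≠ i → |2 * Function.update x (Sum.inl i) w (Sum.inl l) - (S l : ℝ)| ≤
          ((S l % 2 : ℤ) : ℝ))
    rw [e']
    have key : ∀ c : Cl V, (fun j => x (Sum.inl j)) ∈ bo c → 0 ≤ x (Sum.inr ()) →
        x (Sum.inr ()) ≤ 1 → |2 * ((o : ℝ) / 2) - (c i : ℝ)| ≤ ((c i % 2 : ℤ) : ℝ) →
        (fun j => Function.update x (Sum.inl i) w (Sum.inl j)) ∈ bo c := by
      intro c hc hu0 hu1 hoc j
      by_cases hj : j = i
      · rw [hj]
        show |2 * Function.update x (Sum.inl i) w (Sum.inl i) - (c i : ℝ)| ≤ _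
        rw [ei, hw]
        exact a10_cv (mul_nonneg hτ0 hu0) (by nlinarith) (hc i) hoc
      · show |2 * Function.update x (Sum.inl i) w (Sum.inl j) - (c j : ℝ)| ≤ _
        rw [ej j hj]
        exact hc j
    rcases hx with ⟨h1, h2⟩ | ⟨⟨h1, h1'⟩, h2, h3⟩ | ⟨h1, h2, h3⟩
    · exact Or.inl ⟨h1, key S h2 (by rw [h1]) (by rw [h1]; norm_num) hS⟩
    · exact Or.inr (Or.inl ⟨⟨h1, h1'⟩, key t h2 h1 h1' ht, key S h3 h1 h1' hS⟩)
    · refine Or.inr (Or.inr ⟨h1, key t h2 (by rw [h1]; norm_num) (by rw [h1]) ht, ?_⟩)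
      intro l hl
      rw [ej l hl]
      exact h3 l hl

private theorem a10_mk {S : Cl V} {z : Cl (V ⊕ Unit)} :
    z ∈ Fc (mk S (fun _ : Unit => (0 : ℤ))) ↔ Fa (fs z) S ∧ sn z () = 0 := by
  constructor
  · intro h
    refine ⟨fun j => h (Sum.inl j), ?_⟩
    have h1 : fc (sn z ()) 0 := h (Sum.inr ())
    exact fc_even h1 rfl
  · rintro ⟨h1, h2⟩ j
    rcases j with j | j
    · exact h1 j
    · exact Or.inl h2

theorem soft_cmove {W : Set (Cl V)} (hW : Clo W) {r t : Cl V} {i : V} (ht : t ∈ W)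
    (hi : t i % 2 = 1) (hr : r i = t i - 1 ∨ r i = t i + 1) (hrj : ∀ j, j ≠ i → r j = t j)
    (hc : Clo (W \ {r, t})) :
    Soft k (cutW (W \ {r, t}) (Fc t)) (W \ {r, t}) (cmH t i (2 * t i - r i)) := by
  classical
  intro S hS
  set o : ℤ := 2 * t i - r i with ho
  have ho' : o = t i - 1 ∨ o = t i + 1 := by omega
  have hcm1 : ∀ z : Cl (V ⊕ Unit), sn z () = 1 → cmH t i o z =
      if fs z i = o then fs z else Function.update (fs z) i (t i) := by
    intro z hz
    unfold cmH
    rw [if_neg (by rw [hz]; norm_num), if_neg (by rw [hz]; norm_num)]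
  have hcm2 : ∀ z : Cl (V ⊕ Unit), sn z () = 2 → cmH t i o z = Function.update (fs z) i o := by
    intro z hz
    unfold cmH
    rw [if_neg (by rw [hz]; norm_num), if_pos hz]
  have hcm0 : ∀ z : Cl (V ⊕ Unit), sn z () = 0 → cmH t i o z = fs z := by
    intro z hz
    unfold cmH
    rw [if_pos hz]
  by_cases hoS : fc o (S i)
  · have hfib : Fb (cmH t i o) (cutW (W \ {r, t}) (Fc t)) S =
        {z : Cl (V ⊕ Unit) | (Fa (fs z) S ∧ sn z () = 0) ∨
          (Fa (fs z) t ∧ Fa (fs z) S ∧ sn z () = 1) ∨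
          (Fa (fs z) t ∧ (∀ l, l ≠ i → fc (fs z l) (S l)) ∧ sn z () = 2)} := by
      ext z
      constructor
      · rintro ⟨hz, hf⟩
        rcases hz with ⟨h1, h2⟩ | ⟨h1, h2⟩ | ⟨h1, h2, h3⟩
        · rw [hcm0 z h2] at hf
          exact Or.inl ⟨hf, h2⟩
        · rw [hcm2 z h2] at hf
          refine Or.inr (Or.inr ⟨h1, fun l hl => ?_, h2⟩)
          have h4 := hf l
          rw [Function.update_of_ne hl] at h4
          exact h4
        · rw [hcm1 z h3] at hf
          refine Or.inr (Or.inl ⟨h2, ?_, h3⟩)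
          by_cases h4 : fs z i = o
          · rw [if_pos h4] at hf
            exact hf
          · rw [if_neg h4] at hf
            intro j
            by_cases hj : j = i
            · have h5 := hf i
              rw [Function.update_self] at h5
              have h6 : fc (fs z i) (t i) := h2 i
              rw [hj]
              unfold fc at h5 h6 ⊢
              omega
            · have h5 := hf j
              rw [Function.update_of_ne hj] at h5
              exact h5
      · rintro (⟨h1, h2⟩ | ⟨h1, h2, h3⟩ | ⟨h1, h2, h3⟩)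
        · refine ⟨Or.inl ⟨hc S hS _ h1, h2⟩, ?_⟩
          rw [hcm0 z h2]
          exact h1
        · refine ⟨Or.inr (Or.inr ⟨hc S hS _ h2, h1, h3⟩), ?_⟩
          rw [hcm1 z h3]
          by_cases h4 : fs z i = o
          · rw [if_pos h4]
            exact h2
          · rw [if_neg h4]
            intro j
            by_cases hj : j = i
            · rw [hj, Function.update_self]
              have h5 : fc (fs z i) (t i) := h1 i
              have h6 : fc (fs z i) (S i) := h2 i
              unfold fc at h5 h6 hoS ⊢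
              omega
            · rw [Function.update_of_ne hj]
              exact h2 j
        · refine ⟨Or.inr (Or.inl ⟨h1, h3⟩), ?_⟩
          rw [hcm2 z h3]
          intro j
          by_cases hj : j = i
          · rw [hj, Function.update_self]
            exact hoS
          · rw [Function.update_of_ne hj]
            exact h2 j hj
    rw [hfib]
    exact cs_cmove hi ho' hoS
  · refine cs_one (S := mk S (fun _ : Unit => (0 : ℤ))) ?_
    ext z
    rw [a10_mk]
    constructor
    · rintro ⟨hz, hf⟩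
      rcases hz with ⟨h1, h2⟩ | ⟨h1, h2⟩ | ⟨h1, h2, h3⟩
      · rw [hcm0 z h2] at hf
        exact ⟨hf, h2⟩
      · exfalso
        rw [hcm2 z h2] at hf
        have h4 := hf i
        rw [Function.update_self] at h4
        exact hoS h4
      · exfalso
        rw [hcm1 z h3] at hf
        by_cases h4 : fs z i = o
        · rw [if_pos h4] at hf
          have h5 := hf i
          rw [h4] at h5
          exact hoS h5
        · rw [if_neg h4] at hf
          have h5 := hf i
          rw [Function.update_self] at h5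
          apply hoS
          unfold fc at h5 ⊢
          omega
    · rintro ⟨h1, h2⟩
      refine ⟨Or.inl ⟨hc S hS _ h1, h2⟩, ?_⟩
      rw [hcm0 z h2]
      exact h1

end MNG
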