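import Pool.Agent.MNG.A8
import Pool.Agent.MNG.A10

/-!
# MNG-A11: C-moves, and expansions over a cell

`ab_cmove`: the C-move of a pair, by the cut of `W = (W \ {r, t}) ∪ Fc t`.
`ab_ex`: induction on the expansion; pairs are removed with `ab_cmove`, cells of dimension at least
`k + 1` do not matter.
-/

set_option autoImplicit false

noncomputable section

namespace MNG

open AGM (Ei Bl Sp)
open Set Topology

variable {k : ℕ} {T : Tw k} {b : ℕ} {V V' : Type} [Fintype V] [Fintype V']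

private theorem a11_sn {A B : Type} [DecidableEq (A ⊕ B)] (c : Cl (A ⊕ B)) (i : A) (e : ℤ) :
    sn (Function.update c (Sum.inl i) e) = sn c := by
  funext v
  exact Function.update_of_ne (fun h => Sum.inr_ne_inl h) _ _

open Classical in
private theorem a11_one (t : Cl V) (i : V) (o : ℤ) (z : Cl (V ⊕ Unit)) (h : sn z () = 1) :
    cmH t i o z = fs z ∨ cmH t i o z = Function.update (fs z) i (t i) := by
  unfold cmH
  rw [if_neg (by rw [h]; norm_num), if_neg (by rw [h]; norm_num)]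
  split_ifs
  · exact Or.inl rfl
  · exact Or.inr rfl

private theorem a11_cx {y : Cl V'} {N : Set (Cl (V ⊕ V'))} {K' K K₂ : Set (Cl V)} (hK : Clo K)
    (hs' : K' ⊆ K) (hs : K ⊆ K₂) (hC : Cx (N ∪ (fun c => mk c y) '' K₂))
    (hN : ∀ z ∈ N, ∀ c ∈ K₂, c ∉ K' → ¬ Fa (mk c y) z) : Cx (N ∪ (fun c => mk c y) '' K) := by
  refine ⟨hC.fin.subset (Set.union_subset_union_right N (Set.image_mono hs)), ?_⟩
  intro z hz w hw
  have hz2 : z ∈ N ∪ (fun c => mk c y) '' K₂ :=
    Or.imp_right (fun ⟨c, hc, he⟩ => ⟨c, hs hc, he⟩) hz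
  rcases hC.clo z hz2 w hw with h1 | ⟨c, hc, rfl⟩
  · exact Or.inl h1
  · by_cases hcK : c ∈ K
    · exact Or.inr ⟨c, hcK, rfl⟩
    · exfalso
      rcases hz with h2 | ⟨c', hc', rfl⟩
      · exact hN z h2 c hc (fun h => hcK (hs' h)) hw
      · exact hcK (hK c' hc' c (fun j => hw (Sum.inl j)))

open Classical in
theorem ab_cmove {W : Set (Cl V)} (hW : Cx W) {r t : Cl V} {i : V} (ht : t ∈ W)
    (hi : t i % 2 = 1) (hr : r i = t i - 1 ∨ r i = t i + 1) (hrj : ∀ j, j ≠ i → r j = t j)
    (hc : Clo (W \ {r, t})) {κ : Cl V → Cl (T.J b)}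
    (hκ : ∀ c, Fa c t → ∀ e, fc e (t i) → κ (Function.update c i e) = κ c) (h : Ab T b W κ) :
    Ab T b (W \ {r, t}) κ := by
  have hrt : Fa r t := by
    intro j
    by_cases hj : j = i
    · rw [hj]
      exact Or.inr ⟨hi, hr⟩
    · exact Or.inl (hrj j hj)
  have hu : (W \ {r, t}) ∪ Fc t = W := by
    ext c
    constructor
    · rintro (hc1 | hc1)
      · exact hc1.1
      · exact hW.clo t ht c hc1
    · intro hc1
      by_cases h1 : c = r ∨ c = t
      · right
        rcases h1 with h1 | h1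
        · rw [h1]
          exact hrt
        · rw [h1]
          exact fa_refl t
      · exact Or.inl ⟨hc1, h1⟩
  have hm : Cx (W \ {r, t}) := ⟨hW.fin.subset fun c hc1 => hc1.1, hc⟩
  have hp : Cx (Fc t) := cx_fc t
  rw [← hu] at h
  refine ab_soft' (cx_cut hm hp) (ab_cut hm hp h) (cmH t i (2 * t i - r i))
    (cub_cmove hW.clo ht hi hr hrj hc) (soft_cmove hW.clo ht hi hr hrj hc) ?_
  rintro z (⟨_, h2⟩ | ⟨h1, h2⟩ | ⟨_, h1, h2⟩)
  · rw [cmH_zero _ _ _ _ h2]
    exact fa_refl _
  · rw [cmH_two _ _ _ _ h2]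
    have ho : fc (2 * t i - r i) (t i) := by
      refine Or.inr ⟨hi, ?_⟩
      rcases hr with hr | hr
      · right
        omega
      · left
        omega
    have h3 := hκ (fs z) h1 (2 * t i - r i) ho
    rw [h3]
    exact fa_refl _
  · rcases a11_one t i (2 * t i - r i) z h2 with h3 | h3
    · rw [h3]
      exact fa_refl _
    · have h4 := hκ (fs z) h1 (t i) (Or.inl rfl)
      rw [h3, h4]
      exact fa_refl _

theorem ab_ex {y : Cl V'} {N : Set (Cl (V ⊕ V'))} {K' K : Set (Cl V)} (hK' : Clo K')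
    (h : Ex (k + 1) K' K) (hC : Cx (N ∪ (fun c => mk c y) '' K))
    (hN : ∀ z ∈ N, ∀ c ∈ K, c ∉ K' → ¬ Fa (mk c y) z) {κ : Cl V' → Cl (T.J b)}
    (ha : Ab T b (N ∪ (fun c => mk c y) '' K) (fun z => κ (sn z))) :
    Ab T b (N ∪ (fun c => mk c y) '' K') (fun z => κ (sn z)) := by
  induction h with
  | refl => exact ha
  | pair K r t hK hr ht hft hclo ih =>
    obtain ⟨hKc, hKs⟩ := ex_clo hK hK'
    have hs : K ⊆ insert r (insert t K) := fun c hc => Or.inr (Or.inr hc)
    have hCK := a11_cx hKc hKs hs hC hN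
    refine ih hCK (fun z hz c hc => hN z hz c (hs hc)) ?_
    obtain ⟨i, h1, h2, h3⟩ := hft
    have hrN : mk r y ∉ N := fun h => hN _ h r (Or.inl rfl) (fun h' => hr (hKs h')) (fa_refl _)
    have htN : mk t y ∉ N := fun h =>
      hN _ h t (Or.inr (Or.inl rfl)) (fun h' => ht (hKs h')) (fa_refl _)
    have hinj : ∀ c d : Cl V, mk c y = mk d y → c = d := fun c d h =>
      funext fun j => congrFun h (Sum.inl j)
    have hd : (N ∪ (fun c => mk c y) '' insert r (insert t K)) \ {mk r y, mk t y} =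
        N ∪ (fun c => mk c y) '' K := by
      ext z
      constructor
      · rintro ⟨h | ⟨c, hc, rfl⟩, hz⟩
        · exact Or.inl h
        · rcases hc with hc | hc | hc
          · exact absurd (Or.inl (by rw [hc])) hz
          · exact absurd (Or.inr (by rw [hc]; rfl)) hz
          · exact Or.inr ⟨c, hc, rfl⟩
      · intro hz
        refine ⟨Or.imp_right (fun ⟨c, hc, he⟩ => ⟨c, hs hc, he⟩) hz, ?_⟩
        rintro (h | h)
        · rcases hz with hz | ⟨c, hc, hcz⟩
          · exact hrN (h ▸ hz)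
          · exact hr (hinj _ _ (hcz.trans h) ▸ hc)
        · have h' : z = mk t y := h
          rcases hz with hz | ⟨c, hc, hcz⟩
          · exact htN (h' ▸ hz)
          · exact ht (hinj _ _ (hcz.trans h') ▸ hc)
    rw [← hd]
    refine ab_cmove (i := Sum.inl i) hC (Or.inr ⟨t, Or.inr (Or.inl rfl), rfl⟩) h1 h2 ?_ ?_ ?_ ha
    · intro j hj
      rcases j with j | j
      · exact h3 j fun h => hj (by rw [h])
      · rfl
    · rw [hd]
      exact hCK.clo
    · intro c _ e _
      exact congrArg κ (@a11_sn _ _ (fun a b => Classical.propDecidable (a = b)) c i e)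
  | cell K c hK hcK hj hclo ih =>
    obtain ⟨hKc, hKs⟩ := ex_clo hK hK'
    have hs : K ⊆ insert c K := fun d hd => Or.inr hd
    refine ih (a11_cx hKc hKs hs hC hN) (fun z hz d hd => hN z hz d (hs hd)) (ab_sk ?_ ha)
    ext z
    constructor
    · rintro ⟨h | ⟨d, hd, rfl⟩, hz⟩
      · exact ⟨Or.inl h, hz⟩
      · rcases hd with hd | hd
        · exfalso
          rw [hd] at hz
          have h1 : dm (mk c y) = dm c + dm y := dm_px (mk c y)
          have h2 : dm (mk c y) ≤ k := hz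
          omega
        · exact ⟨Or.inr ⟨d, hd, rfl⟩, hz⟩
    · rintro ⟨h | ⟨d, hd, rfl⟩, hz⟩
      · exact ⟨Or.inl h, hz⟩
      · exact ⟨Or.inr ⟨d, hs hd, rfl⟩, hz⟩

end MNG
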