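import Pool.Agent.MNG.A8

/-!
# MNG-A12: products with boxes

`box_pt`: the isomorphism `c ↦ mk (2 a₀) c`. `box_step`: the cut of `Px (Bx a₀ b₀) W` along its
cells with the coordinate `v` of the first part equal to `2 b₀ v` is isomorphic to the enlarged
product: the coordinate `v` is increased by the last coordinate. `ab_box`: induction on the sum
of `b₀ v - a₀ v`.
-/

set_option autoImplicit false

noncomputable section

namespace MNG

open AGM (Ei Bl Sp)
open Set Topology

variable {k : ℕ} {T : Tw k} {b : ℕ} {V V' : Type} [Fintype V] [Fintype V'] {κ : Cl V → Cl (T.J b)}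
  {W : Set (Cl V)}

private theorem a12_dm0 (a₀ : V' → ℤ) : dm (fun j => 2 * a₀ j : Cl V') = 0 := by
  unfold dm
  rw [Finset.card_eq_zero, Finset.filter_eq_empty_iff]
  intro j _ h
  have h1 : (2 * a₀ j) % 2 = 1 := h
  omega

private theorem a12_bx (a₀ : V' → ℤ) {c : Cl V'} (h : c ∈ Bx a₀ a₀) : c = fun j => 2 * a₀ j := by
  funext j
  exact le_antisymm (h j).2 (h j).1

theorem box_pt (hW : Cx W) (h : Ab T b W κ) (a₀ : V' → ℤ) :
    Ab T b (Px (Bx a₀ a₀) W) (fun z : Cl (V' ⊕ V) => κ (sn z)) := by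
  have hmap : ∀ c ∈ W, (mk (fun j => 2 * a₀ j) c : Cl (V' ⊕ V)) ∈ Px (Bx a₀ a₀) W :=
    fun c hc => ⟨fun j => ⟨le_rfl, le_rfl⟩, hc⟩
  have hmono : ∀ c ∈ W, ∀ d, Fa d c →
      Fa (mk (fun j => 2 * a₀ j) d : Cl (V' ⊕ V)) (mk (fun j => 2 * a₀ j) c) :=
    fun c _ d hd => fa_px.2 ⟨fa_refl _, hd⟩
  refine ab_soft' hW h (fun c => mk (fun j => 2 * a₀ j) c) ⟨⟨hmap, hmono⟩, fun c _ => ?_⟩
    (soft_iso (g := sn) ⟨hmap, hmono⟩ ⟨fun z hz => hz.2, fun z _ z' hz' => (fa_px.1 hz').2⟩
      (fun c _ => rfl) (fun z hz => ?_)) (fun c _ => fa_refl _)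
  · rw [dm_px]
    have h1 : dm (fs (mk (fun j => 2 * a₀ j) c : Cl (V' ⊕ V))) = 0 := a12_dm0 a₀
    have h2 : sn (mk (fun j => 2 * a₀ j) c : Cl (V' ⊕ V)) = c := rfl
    rw [h1, h2, zero_add]
  · have h1 : fs z = fun j => 2 * a₀ j := a12_bx a₀ hz.1
    rw [← h1]
    exact mk_eta z

/-- the last cells of the box in the direction `v` -/
private def a12Wp (a₀ b₀ : V' → ℤ) (v : V') (W : Set (Cl V)) : Set (Cl (V' ⊕ V)) :=
  {z | z ∈ Px (Bx a₀ b₀) W ∧ fs z v = 2 * b₀ v}

private theorem a12_cx (hW : Cx W) (a₀ b₀ : V' → ℤ) (v : V') : Cx (a12Wp a₀ b₀ v W) := by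
  have h1 : Cx (Px (Bx a₀ b₀) W) := cx_px (cx_bx a₀ b₀) hW
  refine ⟨h1.fin.subset fun z hz => hz.1, ?_⟩
  rintro z ⟨hz, hzv⟩ d hd
  refine ⟨h1.clo z hz d hd, ?_⟩
  have h2 : fc (fs d v) (fs z v) := (fa_px.1 hd).1 v
  rw [hzv] at h2
  unfold fc at h2
  omega

open Classical in
/-- the map to the enlarged product -/
private def a12f (v : V') (y : Cl ((V' ⊕ V) ⊕ Unit)) : Cl (V' ⊕ V) :=
  mk (Function.update (fs (fs y)) v (fs (fs y) v + sn y ())) (sn (fs y))

open Classical in
/-- the inverse map -/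
private def a12g (b₀ : V' → ℤ) (v : V') (w : Cl (V' ⊕ V)) : Cl ((V' ⊕ V) ⊕ Unit) :=
  mk (mk (Function.update (fs w) v (min (fs w v) (2 * b₀ v))) (sn w))
    (fun _ => fs w v - min (fs w v) (2 * b₀ v))

private theorem a12_cases {a₀ b₀ : V' → ℤ} {v : V'} {y : Cl ((V' ⊕ V) ⊕ Unit)}
    (hy : y ∈ cutW (Px (Bx a₀ b₀) W) (a12Wp a₀ b₀ v W)) :
    fs y ∈ Px (Bx a₀ b₀) W ∧ (sn y () = 0 ∨
      ((sn y () = 1 ∨ sn y () = 2) ∧ fs (fs y) v = 2 * b₀ v)) := by
  rcases hy with ⟨h1, h2⟩ | ⟨h1, h2⟩ | ⟨h1, h2, h3⟩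
  · exact ⟨h1, Or.inl h2⟩
  · exact ⟨h1.1, Or.inr ⟨Or.inr h2, h1.2⟩⟩
  · exact ⟨h1, Or.inr ⟨Or.inl h3, h2.2⟩⟩

open Classical in
private theorem a12_fmon {a₀ b₀ : V' → ℤ} (hab : ∀ v, a₀ v ≤ b₀ v) (v : V') :
    Mon (cutW (Px (Bx a₀ b₀) W) (a12Wp a₀ b₀ v W))
      (Px (Bx a₀ (Function.update b₀ v (b₀ v + 1))) W) (a12f v) := by
  constructor
  · intro y hy
    obtain ⟨h1, h2⟩ := a12_cases hy
    refine ⟨fun j => ?_, h1.2⟩
    have h3 := h1.1 j
    have h4 : fs (a12f v y) j = Function.update (fs (fs y)) v (fs (fs y) v + sn y ()) j := rfl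
    rw [h4]
    by_cases hj : j = v
    · subst hj
      rw [Function.update_self, Function.update_self]
      omega
    · rw [Function.update_of_ne hj, Function.update_of_ne hj]
      exact h3
  · intro y hy d hd
    obtain ⟨h1, h2⟩ := a12_cases hy
    obtain ⟨h3, h4⟩ := fa_px.1 hd
    obtain ⟨h5, h6⟩ := fa_px.1 h3
    have h7 : fc (sn d ()) (sn y ()) := h4 ()
    refine fa_px.2 ⟨fun j => ?_, h6⟩
    have h8 : fs (a12f v y) j = Function.update (fs (fs y)) v (fs (fs y) v + sn y ()) j := rfl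
    have h9 : fs (a12f v d) j = Function.update (fs (fs d)) v (fs (fs d) v + sn d ()) j := rfl
    rw [h8, h9]
    by_cases hj : j = v
    · subst hj
      rw [Function.update_self, Function.update_self]
      have h10 := h5 j
      unfold fc at h7 h10 ⊢
      omega
    · rw [Function.update_of_ne hj, Function.update_of_ne hj]
      exact h5 j

open Classical in
private theorem a12_gmon {a₀ b₀ : V' → ℤ} (hab : ∀ v, a₀ v ≤ b₀ v) (v : V') :
    Mon (Px (Bx a₀ (Function.update b₀ v (b₀ v + 1))) W)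
      (cutW (Px (Bx a₀ b₀) W) (a12Wp a₀ b₀ v W)) (a12g b₀ v) := by
  constructor
  · intro w hw
    have hv := hw.1 v
    rw [Function.update_self] at hv
    have hm : fs (a12g b₀ v w) ∈ Px (Bx a₀ b₀) W := by
      refine ⟨fun j => ?_, hw.2⟩
      have h4 : fs (fs (a12g b₀ v w)) j =
        Function.update (fs w) v (min (fs w v) (2 * b₀ v)) j := rfl
      rw [h4]
      by_cases hj : j = v
      · subst hj
        rw [Function.update_self]
        have := hab j
        omega
      · rw [Function.update_of_ne hj]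
        have h5 := hw.1 j
        rw [Function.update_of_ne hj] at h5
        exact h5
    have hu : sn (a12g b₀ v w) () = fs w v - min (fs w v) (2 * b₀ v) := rfl
    have hfv : fs (fs (a12g b₀ v w)) v = min (fs w v) (2 * b₀ v) := by
      have h4 : fs (fs (a12g b₀ v w)) v =
        Function.update (fs w) v (min (fs w v) (2 * b₀ v)) v := rfl
      rw [h4, Function.update_self]
    by_cases h1 : fs w v ≤ 2 * b₀ v
    · left
      refine ⟨hm, ?_⟩
      rw [hu]
      omega
    · have hp : fs (a12g b₀ v w) ∈ a12Wp a₀ b₀ v W := by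
        refine ⟨hm, ?_⟩
        rw [hfv]
        omega
      by_cases h2 : fs w v = 2 * b₀ v + 1
      · right
        right
        refine ⟨hm, hp, ?_⟩
        rw [hu]
        omega
      · right
        left
        refine ⟨hp, ?_⟩
        rw [hu]
        omega
  · intro w _ d hd
    obtain ⟨h5, h6⟩ := fa_px.1 hd
    have hv := h5 v
    refine fa_px.2 ⟨fa_px.2 ⟨fun j => ?_, h6⟩, fun j => ?_⟩
    · have h8 : fs (fs (a12g b₀ v w)) j =
        Function.update (fs w) v (min (fs w v) (2 * b₀ v)) j := rfl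
      have h9 : fs (fs (a12g b₀ v d)) j =
        Function.update (fs d) v (min (fs d v) (2 * b₀ v)) j := rfl
      rw [h8, h9]
      by_cases hj : j = v
      · subst hj
        rw [Function.update_self, Function.update_self]
        unfold fc at hv ⊢
        omega
      · rw [Function.update_of_ne hj, Function.update_of_ne hj]
        exact h5 j
    · have h8 : sn (a12g b₀ v w) j = fs w v - min (fs w v) (2 * b₀ v) := rfl
      have h9 : sn (a12g b₀ v d) j = fs d v - min (fs d v) (2 * b₀ v) := rfl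
      rw [h8, h9]
      unfold fc at hv ⊢
      omega

open Classical in
private theorem a12_gf {a₀ b₀ : V' → ℤ} (v : V') {y : Cl ((V' ⊕ V) ⊕ Unit)}
    (hy : y ∈ cutW (Px (Bx a₀ b₀) W) (a12Wp a₀ b₀ v W)) : a12g b₀ v (a12f v y) = y := by
  obtain ⟨h1, h2⟩ := a12_cases hy
  have h3 := h1.1 v
  have hv : fs (a12f v y) v = fs (fs y) v + sn y () := by
    have h4 : fs (a12f v y) v = Function.update (fs (fs y)) v (fs (fs y) v + sn y ()) v := rfl
    rw [h4, Function.update_self]
  funext j
  rcases j with (j | j) | j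
  · have h4 : a12g b₀ v (a12f v y) (Sum.inl (Sum.inl j)) =
      Function.update (fs (a12f v y)) v (min (fs (a12f v y) v) (2 * b₀ v)) j := rfl
    rw [h4, hv]
    by_cases hj : j = v
    · subst hj
      rw [Function.update_self]
      have h5 : y (Sum.inl (Sum.inl j)) = fs (fs y) j := rfl
      rw [h5]
      omega
    · rw [Function.update_of_ne hj]
      have h4 : fs (a12f v y) j = Function.update (fs (fs y)) v (fs (fs y) v + sn y ()) j := rfl
      rw [h4, Function.update_of_ne hj]
      rfl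
  · rfl
  · have h4 : a12g b₀ v (a12f v y) (Sum.inr j) =
      fs (a12f v y) v - min (fs (a12f v y) v) (2 * b₀ v) := rfl
    have h5 : y (Sum.inr j) = sn y () := rfl
    rw [h4, hv, h5]
    omega

open Classical in
private theorem a12_fg (b₀ : V' → ℤ) (v : V') (w : Cl (V' ⊕ V)) :
    a12f v (a12g b₀ v w) = w := by
  have hv : fs (fs (a12g b₀ v w)) v = min (fs w v) (2 * b₀ v) := by
    have h4 : fs (fs (a12g b₀ v w)) v =
      Function.update (fs w) v (min (fs w v) (2 * b₀ v)) v := rfl
    rw [h4, Function.update_self]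
  have hu : sn (a12g b₀ v w) () = fs w v - min (fs w v) (2 * b₀ v) := rfl
  funext j
  rcases j with j | j
  · have h4 : a12f v (a12g b₀ v w) (Sum.inl j) = Function.update (fs (fs (a12g b₀ v w))) v
      (fs (fs (a12g b₀ v w)) v + sn (a12g b₀ v w) ()) j := rfl
    rw [h4, hv, hu]
    by_cases hj : j = v
    · subst hj
      rw [Function.update_self]
      have h5 : w (Sum.inl j) = fs w j := rfl
      rw [h5]
      omega
    · rw [Function.update_of_ne hj]
      have h6 : fs (fs (a12g b₀ v w)) j =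
        Function.update (fs w) v (min (fs w v) (2 * b₀ v)) j := rfl
      rw [h6, Function.update_of_ne hj]
      rfl
  · rfl

open Classical in
private theorem a12_dm (v : V') (z : Cl V') (u : ℤ) :
    dm (Function.update z v (z v + u)) ≤ dm z + if u % 2 = 1 then 1 else 0 := by
  unfold dm
  by_cases hu : u % 2 = 1
  · rw [if_pos hu]
    refine (Finset.card_le_card (t := insert v (Finset.univ.filter fun j => z j % 2 = 1))
      fun j hj => ?_).trans (Finset.card_insert_le _ _)
    by_cases hjv : j = v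
    · rw [hjv]
      exact Finset.mem_insert_self _ _
    · rw [Finset.mem_filter, Function.update_of_ne hjv] at hj
      exact Finset.mem_insert_of_mem (Finset.mem_filter.2 hj)
  · rw [if_neg hu, add_zero]
    refine Finset.card_le_card fun j hj => ?_
    rw [Finset.mem_filter] at hj ⊢
    refine ⟨hj.1, ?_⟩
    by_cases hjv : j = v
    · subst hjv
      rw [Function.update_self] at hj
      have := hj.2
      omega
    · rw [Function.update_of_ne hjv] at hj
      exact hj.2

open Classical in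
theorem box_step (hW : Cx W) {a₀ b₀ : V' → ℤ} (hab : ∀ v, a₀ v ≤ b₀ v) (v : V')
    (h : Ab T b (Px (Bx a₀ b₀) W) (fun z : Cl (V' ⊕ V) => κ (sn z))) :
    Ab T b (Px (Bx a₀ (Function.update b₀ v (b₀ v + 1))) W)
      (fun z : Cl (V' ⊕ V) => κ (sn z)) := by
  have hm : Cx (Px (Bx a₀ b₀) W) := cx_px (cx_bx a₀ b₀) hW
  have hp : Cx (a12Wp a₀ b₀ v W) := a12_cx hW a₀ b₀ v
  have hu : Px (Bx a₀ b₀) W ∪ a12Wp a₀ b₀ v W = Px (Bx a₀ b₀) W :=
    union_eq_left.2 fun z hz => hz.1
  have h1 : Ab T b (cutW (Px (Bx a₀ b₀) W) (a12Wp a₀ b₀ v W)) (fun z => κ (sn (fs z))) := by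
    refine ab_cut (κ := fun z : Cl (V' ⊕ V) => κ (sn z)) hm hp ?_
    rw [hu]
    exact h
  refine ab_soft' (cx_cut hm hp) h1 (a12f v) ⟨a12_fmon hab v, fun y _ => ?_⟩
    (soft_iso (a12_fmon hab v) (a12_gmon hab v) (fun y hy => a12_gf v hy)
      (fun w _ => a12_fg b₀ v w)) (fun y _ => fa_refl _)
  have h2 : dm (a12f v y) = dm (Function.update (fs (fs y)) v (fs (fs y) v + sn y ())) +
      dm (sn (fs y)) := dm_px _
  have h3 := a12_dm v (fs (fs y)) (sn y ())
  have h4 : dm y = dm (fs y) + dm (sn y) := dm_px y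
  have h5 : dm (fs y) = dm (fs (fs y)) + dm (sn (fs y)) := dm_px (fs y)
  have h6 := dm_unit (sn y)
  rw [h2, h4, h5, h6]
  omega

theorem ab_box (hW : Cx W) (h : Ab T b W κ) (a₀ b₀ : V' → ℤ) (hab : ∀ v, a₀ v ≤ b₀ v) :
    Ab T b (Px (Bx a₀ b₀) W) (fun z : Cl (V' ⊕ V) => κ (sn z)) := by
  classical
  have main : ∀ n : ℕ, ∀ b₀ : V' → ℤ, (∀ v, a₀ v ≤ b₀ v) →
      ∑ v, (b₀ v - a₀ v).toNat < n →
      Ab T b (Px (Bx a₀ b₀) W) (fun z : Cl (V' ⊕ V) => κ (sn z)) := by
    intro n
    induction n with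
    | zero =>
      intro b₀ _ hn
      exact absurd hn (Nat.not_lt_zero _)
    | succ n ih =>
      intro b₀ hab hn
      by_cases hall : ∀ v, b₀ v = a₀ v
      · have e : b₀ = a₀ := funext hall
        rw [e]
        exact box_pt hW h a₀
      · push Not at hall
        obtain ⟨v, hv⟩ := hall
        have hlt : a₀ v < b₀ v := lt_of_le_of_ne (hab v) hv.symm
        have hab' : ∀ w, a₀ w ≤ Function.update b₀ v (b₀ v - 1) w := by
          intro w
          by_cases hw : w = v
          · subst hw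
            rw [Function.update_self]
            omega
          · rw [Function.update_of_ne hw]
            exact hab w
        have hsum : ∑ w, (Function.update b₀ v (b₀ v - 1) w - a₀ w).toNat <
            ∑ w, (b₀ w - a₀ w).toNat := by
          refine Finset.sum_lt_sum (fun w _ => ?_) ⟨v, Finset.mem_univ v, ?_⟩
          · by_cases hw : w = v
            · subst hw
              rw [Function.update_self]
              omega
            · rw [Function.update_of_ne hw]
          · rw [Function.update_self]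
            omega
        have h1 := ih (Function.update b₀ v (b₀ v - 1)) hab' (by omega)
        have h2 := box_step hW hab' v h1
        have e : Function.update (Function.update b₀ v (b₀ v - 1)) v
            (Function.update b₀ v (b₀ v - 1) v + 1) = b₀ := by
          funext w
          by_cases hw : w = v
          · subst hw
            rw [Function.update_self, Function.update_self]
            omega
          · rw [Function.update_of_ne hw, Function.update_of_ne hw]
        rw [e] at h2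
        exact h2
  exact main _ b₀ hab (Nat.lt_succ_self _)

end MNG
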