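import Pool.Agent.MNG.C1

/-!
# MNG-C2: adding pairs; fibrewise expansions; products

`ex_pairs`: induction on the number of cells of `A \ A'`, a cell of maximal dimension is removed.
`c2_fib` is the common form of `ex_fib1` and `ex_fib2`: induction on the number of base cells over
which the fibres differ, the last fibre is added with `ex_map`.
-/

set_option autoImplicit false

noncomputable section

namespace MNG

open Set

variable {J V W : Type} [Fintype J] [Fintype V] [Fintype W]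

/-- the cell `c × d` -/
def mk {J V : Type} (c : Cl J) (d : Cl V) : Cl (J ⊕ V) := Sum.elim c d

private lemma c2_max {A' A : Set (Cl J)} (hA' : Clo A') (hA : Clo A) {c : Cl J} (hc : c ∈ A \ A')
    (hmax : ∀ d ∈ A \ A', dm d ≤ dm c) : Clo (A \ {c}) := by
  intro d hd e he
  refine ⟨hA d hd.1 e he, fun hec => ?_⟩
  have hec' : e = c := hec
  subst hec'
  have hne : e ≠ d := fun h => hd.2 h.symm
  have hdA' : d ∉ A' := fun h => hc.2 (hA' d h e he)
  exact absurd (hmax d ⟨hd.1, hdA'⟩) (not_le.2 (dm_lt he hne))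

theorem ex_pairs {i : ℕ} {A' A : Set (Cl J)} (hA' : Clo A') (hA : Clo A) (hs : A' ⊆ A)
    (hf : (A \ A').Finite) (E₁ E₂ : Cl J → Cl V) (N : Set (Cl V)) (hN : Clo N)
    (i1 : ∀ c ∈ A, ∀ d ∈ A, E₁ c = E₁ d → c = d) (i2 : ∀ c ∈ A, ∀ d ∈ A, E₂ c = E₂ d → c = d)
    (i3 : ∀ c ∈ A, ∀ d ∈ A, E₁ c ≠ E₂ d)
    (f1 : ∀ c ∈ A, ∀ d, Fa d (E₁ c) → d ∈ N ∨ ∃ c', Fa c' c ∧ d = E₁ c')
    (f2 : ∀ c ∈ A, ∀ d, Fa d (E₂ c) → d ∈ N ∨ ∃ c', Fa c' c ∧ (d = E₁ c' ∨ d = E₂ c'))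
    (hft : ∀ c ∈ A, Ft (E₁ c) (E₂ c)) (h0 : ∀ c ∈ A', E₁ c ∈ N ∧ E₂ c ∈ N)
    (h1 : ∀ c ∈ A, c ∉ A' → E₁ c ∉ N ∧ E₂ c ∉ N) : Ex i N (N ∪ E₁ '' A ∪ E₂ '' A) := by
  obtain ⟨n, hn⟩ : ∃ n, (A \ A').ncard = n := ⟨_, rfl⟩
  induction n generalizing A with
  | zero =>
    have hE : A \ A' = ∅ := (Set.ncard_eq_zero hf).1 hn
    have hAA : A ⊆ A' := Set.sdiff_eq_empty.1 hE
    have h2 : N ∪ E₁ '' A ∪ E₂ '' A = N := by
      refine Set.Subset.antisymm ?_ fun x hx => Or.inl (Or.inl hx)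
      rintro x ((hx | ⟨c, hc, rfl⟩) | ⟨c, hc, rfl⟩)
      · exact hx
      · exact (h0 c (hAA hc)).1
      · exact (h0 c (hAA hc)).2
    rw [h2]
    exact Ex.refl
  | succ n ih =>
    have hne : (A \ A').Nonempty := by
      rw [← Set.ncard_pos hf, hn]
      exact Nat.succ_pos n
    obtain ⟨c, hc, hmax⟩ := Set.exists_max_image (A \ A') dm hf hne
    have hA₁ : Clo (A \ {c}) := c2_max hA' hA hc hmax
    have hs₁ : A' ⊆ A \ {c} := fun x hx => ⟨hs hx, fun h => hc.2 ((show x = c from h) ▸ hx)⟩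
    have hd : (A \ {c}) \ A' = (A \ A') \ {c} := by
      ext x
      simp only [Set.mem_sdiff, Set.mem_singleton_iff]
      tauto
    have hf₁ : ((A \ {c}) \ A').Finite := by
      rw [hd]
      exact hf.subset Set.sdiff_subset
    have hn₁ : ((A \ {c}) \ A').ncard = n := by
      rw [hd, Set.ncard_sdiff_singleton_of_mem hc, hn]
      rfl
    have hK := ih hA₁ hs₁ hf₁ (fun a ha b hb => i1 a ha.1 b hb.1)
      (fun a ha b hb => i2 a ha.1 b hb.1) (fun a ha b hb => i3 a ha.1 b hb.1)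
      (fun a ha => f1 a ha.1) (fun a ha => f2 a ha.1) (fun a ha => hft a ha.1)
      (fun a ha => h1 a ha.1) hn₁
    obtain ⟨K, hKe⟩ : ∃ K, K = N ∪ E₁ '' (A \ {c}) ∪ E₂ '' (A \ {c}) := ⟨_, rfl⟩
    rw [← hKe] at hK
    have hKc : Clo K := (ex_clo hK hN).1
    have m0 : ∀ x ∈ N, x ∈ K := fun x hx => by
      rw [hKe]
      exact Or.inl (Or.inl hx)
    have m1 : ∀ a ∈ A, a ≠ c → E₁ a ∈ K := fun a ha hac => by
      rw [hKe]
      exact Or.inl (Or.inr ⟨a, ⟨ha, hac⟩, rfl⟩)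
    have m2 : ∀ a ∈ A, a ≠ c → E₂ a ∈ K := fun a ha hac => by
      rw [hKe]
      exact Or.inr ⟨a, ⟨ha, hac⟩, rfl⟩
    have hu : N ∪ E₁ '' A ∪ E₂ '' A = insert (E₁ c) (insert (E₂ c) K) := by
      ext x
      constructor
      · rintro ((hx | ⟨a, ha, rfl⟩) | ⟨a, ha, rfl⟩)
        · exact Or.inr (Or.inr (m0 x hx))
        · by_cases hac : a = c
          · rw [hac]
            exact Or.inl rfl
          · exact Or.inr (Or.inr (m1 a ha hac))
        · by_cases hac : a = c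
          · rw [hac]
            exact Or.inr (Or.inl rfl)
          · exact Or.inr (Or.inr (m2 a ha hac))
      · rintro (hx | hx | hx)
        · rw [hx]
          exact Or.inl (Or.inr ⟨c, hc.1, rfl⟩)
        · rw [hx]
          exact Or.inr ⟨c, hc.1, rfl⟩
        · rw [hKe] at hx
          rcases hx with (hx | ⟨a, ha, rfl⟩) | ⟨a, ha, rfl⟩
          · exact Or.inl (Or.inl hx)
          · exact Or.inl (Or.inr ⟨a, ha.1, rfl⟩)
          · exact Or.inr ⟨a, ha.1, rfl⟩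
    rw [hu]
    refine Ex.pair K (E₁ c) (E₂ c) hK ?_ ?_ (hft c hc.1) ?_
    · rw [hKe]
      rintro ((h | ⟨a, ha, h⟩) | ⟨a, ha, h⟩)
      · exact (h1 c hc.1 hc.2).1 h
      · exact ha.2 (i1 a ha.1 c hc.1 h)
      · exact i3 c hc.1 a ha.1 h.symm
    · rw [hKe]
      rintro ((h | ⟨a, ha, h⟩) | ⟨a, ha, h⟩)
      · exact (h1 c hc.1 hc.2).2 h
      · exact i3 a ha.1 c hc.1 h
      · exact ha.2 (i2 a ha.1 c hc.1 h)
    · rintro x (hx | hx | hx) d hd
      · rw [hx] at hd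
        rcases f1 c hc.1 d hd with h | ⟨c', hc', rfl⟩
        · exact Or.inr (Or.inr (m0 d h))
        · by_cases hcc : c' = c
          · rw [hcc]
            exact Or.inl rfl
          · exact Or.inr (Or.inr (m1 c' (hA c hc.1 c' hc') hcc))
      · rw [hx] at hd
        rcases f2 c hc.1 d hd with h | ⟨c', hc', rfl | rfl⟩
        · exact Or.inr (Or.inr (m0 d h))
        · by_cases hcc : c' = c
          · rw [hcc]
            exact Or.inl rfl
          · exact Or.inr (Or.inr (m1 c' (hA c hc.1 c' hc') hcc))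
        · by_cases hcc : c' = c
          · rw [hcc]
            exact Or.inr (Or.inl rfl)
          · exact Or.inr (Or.inr (m2 c' (hA c hc.1 c' hc') hcc))
      · exact Or.inr (Or.inr (hKc x hx d hd))

/-- products, abstractly -/
private structure c2_P {J V U : Type} [Fintype J] [Fintype V] [Fintype U] (β : Cl U → Cl J)
    (σ : Cl U → Cl V) (ι : Cl J → Cl V → Cl U) : Prop where
  b : ∀ q P, β (ι q P) = q
  s : ∀ q P, σ (ι q P) = P
  e : ∀ c, ι (β c) (σ c) = c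
  fa : ∀ c d, Fa d c ↔ Fa (β d) (β c) ∧ Fa (σ d) (σ c)
  ft : ∀ q r t, Ft r t → Ft (ι q r) (ι q t)
  dm : ∀ q P, dm (ι q P) = dm q + dm P

private theorem c2_fib {U : Type} [Fintype U] {β : Cl U → Cl J} {σ : Cl U → Cl V}
    {ι : Cl J → Cl V → Cl U} (hP : c2_P β σ ι) {i : ℕ} {R' R : Set (Cl U)} (hR' : Clo R')
    (hR : Clo R) (hs : R' ⊆ R) (hf : (R \ R').Finite)
    (h : ∀ q : Cl J, Ex (i - dm q) {P : Cl V | ι q P ∈ R'} {P : Cl V | ι q P ∈ R}) :
    Ex i R' R := by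
  have hfQ : (β '' (R \ R')).Finite := hf.image β
  obtain ⟨n, hn⟩ : ∃ n, (β '' (R \ R')).ncard = n := ⟨_, rfl⟩
  induction n generalizing R with
  | zero =>
    have hE : β '' (R \ R') = ∅ := (Set.ncard_eq_zero hfQ).1 hn
    have hE' : R \ R' = ∅ := Set.image_eq_empty.1 hE
    have hRR : R = R' := Set.Subset.antisymm (Set.sdiff_eq_empty.1 hE') hs
    rw [hRR]
    exact Ex.refl
  | succ n ih =>
    have hne : (β '' (R \ R')).Nonempty := by
      rw [← Set.ncard_pos hfQ, hn]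
      exact Nat.succ_pos n
    obtain ⟨q, hq, hmax⟩ := Set.exists_max_image (β '' (R \ R')) dm hfQ hne
    obtain ⟨R₁, hR₁⟩ : ∃ R₁ : Set (Cl U), R₁ = {c | c ∈ R ∧ (c ∈ R' ∨ β c ≠ q)} := ⟨_, rfl⟩
    have mR : ∀ c, c ∈ R₁ ↔ c ∈ R ∧ (c ∈ R' ∨ β c ≠ q) := fun c => by
      rw [hR₁]
      rfl
    have hs₁ : R' ⊆ R₁ := fun c hc => (mR c).2 ⟨hs hc, Or.inl hc⟩
    have hC₁ : Clo R₁ := by
      intro c hc d hd
      obtain ⟨hcR, hc2⟩ := (mR c).1 hc
      refine (mR d).2 ⟨hR c hcR d hd, ?_⟩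
      by_cases hcR' : c ∈ R'
      · exact Or.inl (hR' c hcR' d hd)
      · right
        intro hdq
        have h1 : Fa (β d) (β c) := ((hP.fa c d).1 hd).1
        have h2 : β c ≠ q := hc2.resolve_left hcR'
        have h3 : dm (β c) ≤ dm q := hmax (β c) ⟨c, ⟨hcR, hcR'⟩, rfl⟩
        rw [hdq] at h1
        exact absurd h3 (not_le.2 (dm_lt h1 h2.symm))
    have hd : β '' (R₁ \ R') = β '' (R \ R') \ {q} := by
      ext x
      constructor
      · rintro ⟨c, ⟨hc, hc'⟩, rfl⟩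
        obtain ⟨hcR, hc2⟩ := (mR c).1 hc
        exact ⟨⟨c, ⟨hcR, hc'⟩, rfl⟩, hc2.resolve_left hc'⟩
      · rintro ⟨⟨c, ⟨hc, hc'⟩, rfl⟩, hq'⟩
        exact ⟨c, ⟨(mR c).2 ⟨hc, Or.inr hq'⟩, hc'⟩, rfl⟩
    have hf₁ : (R₁ \ R').Finite := hf.subset fun c hc => ⟨((mR c).1 hc.1).1, hc.2⟩
    have hn₁ : (β '' (R₁ \ R')).ncard = n := by
      rw [hd, Set.ncard_sdiff_singleton_of_mem hq, hn]
      rfl
    have h₁ : ∀ q' : Cl J, Ex (i - dm q') {P : Cl V | ι q' P ∈ R'} {P : Cl V | ι q' P ∈ R₁} := by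
      intro q'
      by_cases hqq : q' = q
      · have h2 : {P : Cl V | ι q' P ∈ R₁} = {P : Cl V | ι q' P ∈ R'} := by
          ext P
          constructor
          · intro hp
            rcases ((mR _).1 hp).2 with h3 | h3
            · exact h3
            · exact absurd (hP.b q' P) (hqq ▸ h3)
          · intro hp
            exact hs₁ hp
        rw [h2]
        exact Ex.refl
      · have h2 : {P : Cl V | ι q' P ∈ R₁} = {P : Cl V | ι q' P ∈ R} := by
          ext P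
          constructor
          · intro hp
            exact ((mR _).1 hp).1
          · intro hp
            refine (mR _).2 ⟨hp, Or.inr ?_⟩
            rw [hP.b]
            exact hqq
        rw [h2]
        exact h q'
    have hK := ih hC₁ hs₁ hf₁ h₁ (hf₁.image β) hn₁
    have hcl : Clo {P : Cl V | ι q P ∈ R'} := by
      intro P hp d hd
      refine hR' _ hp _ ((hP.fa _ _).2 ⟨?_, ?_⟩)
      · rw [hP.b, hP.b]
        exact fa_refl q
      · rw [hP.s, hP.s]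
        exact hd
    have hfin := ex_map (h q) hcl (i := i) (ι q) R₁ hC₁
      (fun c _ d _ hcd => by rw [← hP.s q c, hcd, hP.s])
      (fun c hc d hd => by
        have h1 := (hP.fa _ _).1 hd
        rw [hP.b, hP.s] at h1
        by_cases hdq : β d = q
        · right
          refine ⟨σ d, h1.2, ?_⟩
          rw [← hdq]
          exact (hP.e d).symm
        · left
          exact (mR d).2 ⟨hR _ hc d hd, Or.inr hdq⟩)
      (fun r _ t _ hrt => hP.ft q r t hrt)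
      (fun c _ hc => by
        rw [hP.dm]
        omega)
      (fun c hc => hs₁ hc)
      (fun c _ hc' hc => by
        rcases ((mR _).1 hc).2 with h3 | h3
        · exact hc' h3
        · exact h3 (hP.b q c))
    have hu : R₁ ∪ ι q '' {P : Cl V | ι q P ∈ R} = R := by
      ext c
      constructor
      · rintro (hc | ⟨P, hp, rfl⟩)
        · exact ((mR c).1 hc).1
        · exact hp
      · intro hc
        by_cases hcq : β c = q
        · right
          refine ⟨σ c, ?_, ?_⟩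
          · show ι q (σ c) ∈ R
            rw [← hcq, hP.e]
            exact hc
          · rw [← hcq, hP.e]
        · exact Or.inl ((mR c).2 ⟨hc, Or.inr hcq⟩)
    rw [hu] at hfin
    exact ex_trans hK hfin

private lemma c2_e (c : Cl (J ⊕ V)) : mk (fs c) (sn c) = c := by
  funext j
  rcases j with j | j
  · rfl
  · rfl

private lemma c2_fa (c d : Cl (J ⊕ V)) : Fa d c ↔ Fa (fs d) (fs c) ∧ Fa (sn d) (sn c) :=
  ⟨fun h => ⟨fun j => h (Sum.inl j), fun j => h (Sum.inr j)⟩, fun h j => by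
    rcases j with j | j
    · exact h.1 j
    · exact h.2 j⟩

private lemma c2_dm (q : Cl J) (P : Cl V) : dm (mk q P) = dm q + dm P := by
  unfold dm
  rw [Finset.card_filter, Finset.card_filter, Finset.card_filter, Fintype.sum_sum_type]
  rfl

private lemma c2_ft1 (q : Cl J) (r t : Cl V) (h : Ft r t) : Ft (mk q r) (mk q t) := by
  obtain ⟨i, h1, h2, h3⟩ := h
  refine ⟨Sum.inr i, h1, h2, fun j hj => ?_⟩
  rcases j with j | j
  · rfl
  · exact h3 j fun h => hj (by rw [h])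

private lemma c2_ft2 (P : Cl V) (r t : Cl J) (h : Ft r t) : Ft (mk r P) (mk t P) := by
  obtain ⟨i, h1, h2, h3⟩ := h
  refine ⟨Sum.inl i, h1, h2, fun j hj => ?_⟩
  rcases j with j | j
  · exact h3 j fun h => hj (by rw [h])
  · rfl

private lemma c2_fin {K' K : Set (Cl J)} (hf : (K \ K').Finite) {Z : Set (Cl V)} (hZ : Z.Finite) :
    (Px K Z \ Px K' Z).Finite ∧ (Px Z K \ Px Z K').Finite := by
  constructor
  · refine ((hf.prod hZ).image fun x => mk x.1 x.2).subset ?_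
    rintro c ⟨hc, hc'⟩
    exact ⟨(fs c, sn c), ⟨⟨hc.1, fun h => hc' ⟨h, hc.2⟩⟩, hc.2⟩, c2_e c⟩
  · refine ((hZ.prod hf).image fun x => mk x.1 x.2).subset ?_
    rintro c ⟨hc, hc'⟩
    exact ⟨(fs c, sn c), ⟨hc.1, ⟨hc.2, fun h => hc' ⟨hc.1, h⟩⟩⟩, c2_e c⟩

private lemma c2_clo {K : Set (Cl J)} (hK : Clo K) {Z : Set (Cl V)} (hZ : Clo Z) :
    Clo (Px K Z) := by
  intro c hc d hd
  obtain ⟨h1, h2⟩ := (c2_fa c d).1 hd
  exact ⟨hK _ hc.1 _ h1, hZ _ hc.2 _ h2⟩

theorem ex_fib1 {i : ℕ} {R' R : Set (Cl (J ⊕ V))} (hR' : Clo R') (hR : Clo R) (hs : R' ⊆ R)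
    (hf : (R \ R').Finite)
    (h : ∀ q : Cl J, Ex (i - dm q) {P : Cl V | mk q P ∈ R'} {P : Cl V | mk q P ∈ R}) :
    Ex i R' R := by
  exact c2_fib (β := fs) (σ := sn) (ι := mk)
    ⟨fun _ _ => rfl, fun _ _ => rfl, c2_e, c2_fa, c2_ft1, c2_dm⟩ hR' hR hs hf h

theorem ex_fib2 {i : ℕ} {R' R : Set (Cl (J ⊕ V))} (hR' : Clo R') (hR : Clo R) (hs : R' ⊆ R)
    (hf : (R \ R').Finite)
    (h : ∀ P : Cl V, Ex (i - dm P) {q : Cl J | mk q P ∈ R'} {q : Cl J | mk q P ∈ R}) :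
    Ex i R' R := by
  exact c2_fib (β := sn) (σ := fs) (ι := fun P q => mk q P)
    ⟨fun _ _ => rfl, fun _ _ => rfl, c2_e, fun c d => (c2_fa c d).trans and_comm, c2_ft2,
      fun P q => (c2_dm q P).trans (Nat.add_comm _ _)⟩ hR' hR hs hf h

theorem ex_px_l {i : ℕ} {K' K : Set (Cl J)} (hK' : Clo K') (h : Ex i K' K) {Z : Set (Cl V)}
    (hZ : Cx Z) : Ex i (Px K' Z) (Px K Z) := by
  refine ex_fib2 (c2_clo hK' hZ.clo) (c2_clo (ex_clo h hK').1 hZ.clo)
    (fun c hc => ⟨(ex_clo h hK').2 hc.1, hc.2⟩) (c2_fin (ex_fin h) hZ.fin).1 fun P => ?_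
  by_cases hP : P ∈ Z
  · have e : ∀ L : Set (Cl J), {q : Cl J | mk q P ∈ Px L Z} = L := fun L => by
      ext q
      exact ⟨fun h => h.1, fun h => ⟨h, hP⟩⟩
    rw [e, e]
    exact ex_le (Nat.sub_le _ _) h
  · have e : ∀ L : Set (Cl J), {q : Cl J | mk q P ∈ Px L Z} = ∅ := fun L => by
      ext q
      exact ⟨fun h => hP h.2, fun h => h.elim⟩
    rw [e, e]
    exact Ex.refl

theorem ex_px_r {i : ℕ} {K' K : Set (Cl J)} (hK' : Clo K') (h : Ex i K' K) {Z : Set (Cl V)}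
    (hZ : Cx Z) : Ex i (Px Z K') (Px Z K) := by
  refine ex_fib1 (c2_clo hZ.clo hK') (c2_clo hZ.clo (ex_clo h hK').1)
    (fun c hc => ⟨hc.1, (ex_clo h hK').2 hc.2⟩) (c2_fin (ex_fin h) hZ.fin).2 fun q => ?_
  by_cases hq : q ∈ Z
  · have e : ∀ L : Set (Cl J), {P : Cl J | mk q P ∈ Px Z L} = L := fun L => by
      ext P
      exact ⟨fun h => h.2, fun h => ⟨hq, h⟩⟩
    rw [e, e]
    exact ex_le (Nat.sub_le _ _) h
  · have e : ∀ L : Set (Cl J), {P : Cl J | mk q P ∈ Px Z L} = ∅ := fun L => by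
      ext P
      exact ⟨fun h => hq h.1, fun h => h.elim⟩
    rw [e, e]
    exact Ex.refl

end MNG
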