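import Pool.Agent.MNG.Defs

/-!
# MNG-T1a: faces, dimension, finite complexes

Elementary facts about `Fa`, `dm`, `Cx` (all coordinatewise; parity of integers: `omega`).
-/

set_option autoImplicit false

noncomputable section

namespace MNG

open AGM (Ei Bl Sp)
open Set Topology

theorem fa_refl {J : Type} (c : Cl J) : Fa c c := fun _ => Or.inl rfl

theorem fa_trans {J : Type} {a b c : Cl J} (h : Fa a b) (h' : Fa b c) : Fa a c := by
  intro j
  have h1 := h j
  have h2 := h' j
  unfold fc at *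
  omega

theorem fa_antisymm {J : Type} {a b : Cl J} (h : Fa a b) (h' : Fa b a) : a = b := by
  funext j
  have h1 := h j
  have h2 := h' j
  unfold fc at *
  omega

theorem dm_mono {J : Type} [Fintype J] {a b : Cl J} (h : Fa a b) : dm a ≤ dm b := by
  unfold dm
  apply Finset.card_le_card
  intro j hj
  rw [Finset.mem_filter] at hj ⊢
  refine ⟨Finset.mem_univ _, ?_⟩
  have h1 := h j
  have h2 := hj.2
  unfold fc at h1
  omega

theorem dm_lt {J : Type} [Fintype J] {a b : Cl J} (h : Fa a b) (hne : a ≠ b) : dm a < dm b := by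
  obtain ⟨j, hj⟩ := Function.ne_iff.1 hne
  have h1 := h j
  unfold dm
  apply Finset.card_lt_card
  rw [Finset.ssubset_iff_of_subset]
  · refine ⟨j, ?_, ?_⟩
    · rw [Finset.mem_filter]
      refine ⟨Finset.mem_univ _, ?_⟩
      unfold fc at h1
      omega
    · rw [Finset.mem_filter]
      rintro ⟨-, h2⟩
      unfold fc at h1
      omega
  · intro i hi
    rw [Finset.mem_filter] at hi ⊢
    refine ⟨Finset.mem_univ _, ?_⟩
    have h3 := h i
    have h2 := hi.2
    unfold fc at h3
    omega

theorem fc_finite {J : Type} [Fintype J] (c : Cl J) : (Fc c).Finite := by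
  classical
  apply (Set.finite_Icc (fun j => c j - 1) (fun j => c j + 1)).subset
  intro d hd
  rw [Set.mem_Icc, Pi.le_def, Pi.le_def]
  refine ⟨fun j => ?_, fun j => ?_⟩
  · have h1 := hd j
    unfold fc at h1
    omega
  · have h1 := hd j
    unfold fc at h1
    omega

theorem cx_fc {J : Type} [Fintype J] (c : Cl J) : Cx (Fc c) :=
  ⟨fc_finite c, fun _ hd _ he => fa_trans he hd⟩

theorem cx_sk {J : Type} [Fintype J] {k : ℕ} {K : Set (Cl J)} (hK : Cx K) : Cx (sk k K) :=
  ⟨hK.fin.subset fun _ hc => hc.1, fun c hc d hd => ⟨hK.clo c hc.1 d hd, (dm_mono hd).trans hc.2⟩⟩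

theorem cx_fb {J V : Type} {K : Set (Cl J)} {T : Set (Cl V)} {f : Cl J → Cl V} (hK : Cx K)
    (hf : Mon K T f) (S : Cl V) : Cx (Fb f K S) :=
  ⟨hK.fin.subset fun _ hc => hc.1,
    fun c hc d hd => ⟨hK.clo c hc.1 d hd, fa_trans (hf.mono c hc.1 d hd) hc.2⟩⟩

theorem cx_px {J V : Type} {K : Set (Cl J)} {L : Set (Cl V)} (hK : Cx K) (hL : Cx L) :
    Cx (Px K L) := by
  constructor
  · have h1 : (Px K L) = (fun c : Cl (J ⊕ V) => (fs c, sn c)) ⁻¹' (K ×ˢ L) := rfl
    rw [h1]
    apply Set.Finite.preimage _ (hK.fin.prod hL.fin)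
    intro c _ d _ h
    have h2 : fs c = fs d := congrArg Prod.fst h
    have h3 : sn c = sn d := congrArg Prod.snd h
    funext x
    rcases x with j | v
    · exact congrFun h2 j
    · exact congrFun h3 v
  · rintro c ⟨h1, h2⟩ d hd
    exact ⟨hK.clo _ h1 _ fun j => hd (Sum.inl j), hL.clo _ h2 _ fun v => hd (Sum.inr v)⟩

theorem cx_bx {J : Type} [Fintype J] (a b : J → ℤ) : Cx (Bx a b) := by
  classical
  constructor
  · apply (Set.finite_Icc (fun j => 2 * a j) (fun j => 2 * b j)).subset
    intro c hc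
    rw [Set.mem_Icc, Pi.le_def, Pi.le_def]
    exact ⟨fun j => (hc j).1, fun j => (hc j).2⟩
  · intro c hc d hd j
    have h1 := hc j
    have h2 := hd j
    unfold fc at h2
    omega

theorem cx_in (N : ℕ) : Cx (In N) := by
  have h : In N = Bx (fun _ => 0) (fun _ => (N : ℤ)) := by
    ext c
    constructor
    · rintro ⟨h1, h2⟩ j
      rw [mul_zero]
      exact ⟨h1, h2⟩
    · intro h
      have h1 := h ()
      rw [mul_zero] at h1
      exact h1
  rw [h]
  exact cx_bx _ _

end MNG
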