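import Pool.Agent.MNG.T1
import Pool.Agent.MNG.T1a

/-!
# MNG-T1b: bodies, carriers

Elementary facts about `bo`, `Bo`, `cr`. `2 * round x = 2 * x` if `x` is an integer. `Bo (Fc c) = bo c` is convex and nonempty (it contains `c / 2`).
-/

set_option autoImplicit false

noncomputable section

namespace MNG

open AGM (Ei Bl Sp)
open Set Topology

private theorem t1b_eq {J : Type} (c : Cl J) :
    bo c = Set.pi univ (fun j => Icc (((c j : ℝ) - ((c j % 2 : ℤ) : ℝ)) / 2)
      (((c j : ℝ) + ((c j % 2 : ℤ) : ℝ)) / 2)) := by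
  ext x
  simp only [bo, Set.mem_ofPred_eq, Set.mem_pi, Set.mem_univ, true_implies, Set.mem_Icc]
  refine forall_congr' fun j => ?_
  rw [abs_le]
  constructor
  · rintro ⟨h1, h2⟩
    constructor <;> linarith
  · rintro ⟨h1, h2⟩
    constructor <;> linarith

private theorem t1b_one {t : ℝ} {c : ℤ} :
    |2 * t - (c : ℝ)| ≤ ((c % 2 : ℤ) : ℝ) ↔
      (∃ m : ℤ, c = 2 * m ∧ t = m) ∨ ∃ m : ℤ, c = 2 * m + 1 ∧ (m : ℝ) ≤ t ∧ t ≤ m + 1 := by
  rcases Int.emod_two_eq_zero_or_one c with h | h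
  · obtain ⟨m, hm⟩ : ∃ m : ℤ, c = 2 * m := ⟨c / 2, by omega⟩
    rw [h, Int.cast_zero, abs_nonpos_iff, hm]
    constructor
    · intro h1
      left
      refine ⟨m, rfl, ?_⟩
      push_cast at h1
      linarith
    · rintro (⟨m', h1, h2⟩ | ⟨m', h1, _⟩)
      · have h3 : m' = m := by omega
        rw [h2, h3]
        push_cast
        ring
      · omega
  · obtain ⟨m, hm⟩ : ∃ m : ℤ, c = 2 * m + 1 := ⟨c / 2, by omega⟩
    rw [h, Int.cast_one, abs_le, hm]
    constructor
    · rintro ⟨h1, h2⟩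
      right
      refine ⟨m, rfl, ?_, ?_⟩
      · push_cast at h1
        linarith
      · push_cast at h2
        linarith
    · rintro (⟨m', h1, _⟩ | ⟨m', h1, h2, h3⟩)
      · omega
      · have h4 : m' = m := by omega
        rw [h4] at h2 h3
        push_cast
        constructor <;> linarith

private theorem t1b_cr {J : Type} (x : J → ℝ) (j : J) :
    (∃ m : ℤ, x j = m ∧ cr x j = 2 * m) ∨
      ∃ m : ℤ, (m : ℝ) < x j ∧ x j < m + 1 ∧ cr x j = 2 * m + 1 := by
  have e : cr x j = if |x j - round (x j)| ≤ 0 / 2 then 2 * round (x j) else 2 * ⌊x j⌋ + 1 := rfl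
  by_cases h : |x j - round (x j)| ≤ 0 / 2
  · left
    refine ⟨round (x j), ?_, ?_⟩
    · rw [zero_div, abs_nonpos_iff, sub_eq_zero] at h
      exact h
    · rw [e, if_pos h]
  · right
    refine ⟨⌊x j⌋, ?_, Int.lt_floor_add_one (x j), ?_⟩
    · rcases lt_or_eq_of_le (Int.floor_le (x j)) with h1 | h1
      · exact h1
      · exfalso
        apply h
        rw [zero_div, abs_nonpos_iff, sub_eq_zero]
        have h2 : round (x j) = ⌊x j⌋ := by
          conv_lhs => rw [← h1]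
          exact round_intCast _
        rw [h2, h1]
    · rw [e, if_neg h]

theorem bo_mono {J : Type} {a b : Cl J} (h : Fa a b) : bo a ⊆ bo b := by
  intro x hx j
  have h1 : |2 * x j - (a j : ℝ)| ≤ ((a j % 2 : ℤ) : ℝ) := hx j
  have h2 := h j
  rcases h2 with h2 | ⟨h2, h3⟩
  · rw [← h2]
    exact h1
  · refine t1b_one.2 ?_
    rcases t1b_one.1 h1 with ⟨m, h4, h5⟩ | ⟨m, h4, _⟩
    · right
      rcases h3 with h3 | h3
      · refine ⟨m, by omega, by rw [h5], by rw [h5]; linarith⟩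
      · refine ⟨m - 1, by omega, ?_, ?_⟩
        · rw [h5]
          push_cast
          linarith
        · rw [h5]
          push_cast
          linarith
    · omega

theorem bo_convex {J : Type} (c : Cl J) : Convex ℝ (bo c) := by
  rw [t1b_eq]
  exact convex_pi fun j _ => convex_Icc _ _

theorem bo_closed {J : Type} (c : Cl J) : IsClosed (bo c) := by
  rw [t1b_eq]
  exact isClosed_set_pi fun j _ => isClosed_Icc

theorem bo_compact {J : Type} (c : Cl J) : IsCompact (bo c) := by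
  rw [t1b_eq]
  exact isCompact_univ_pi fun j => isCompact_Icc

theorem bo_center {J : Type} (c : Cl J) : (fun j => (c j : ℝ) / 2) ∈ bo c := by
  intro j
  have h1 : 2 * ((c j : ℝ) / 2) - (c j : ℝ) = 0 := by ring
  show |2 * ((c j : ℝ) / 2) - (c j : ℝ)| ≤ ((c j % 2 : ℤ) : ℝ)
  rw [h1, abs_zero]
  exact_mod_cast Int.emod_nonneg _ (by norm_num)

theorem Bo_compact {J : Type} {K : Set (Cl J)} (hK : K.Finite) : IsCompact (Bo K) := by
  have e : Bo K = ⋃ c ∈ K, bo c := by
    ext x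
    simp only [Bo, Set.mem_ofPred_eq, Set.mem_iUnion, exists_prop]
  rw [e]
  exact hK.isCompact_biUnion fun c _ => bo_compact c

theorem Bo_fc {J : Type} (c : Cl J) : Bo (Fc c) = bo c := by
  ext x
  constructor
  · rintro ⟨d, hd, hx⟩
    exact bo_mono hd hx
  · intro hx
    exact ⟨c, fa_refl c, hx⟩

theorem cs_fc {J : Type} [Fintype J] (k : ℕ) (c : Cl J) : Cs k (Bo (Fc c)) := by
  rw [Bo_fc]
  exact cs_convex _ (bo_convex c) ⟨_, bo_center c⟩

theorem cr_bo {J : Type} (x : J → ℝ) : x ∈ bo (cr x) := by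
  intro j
  refine t1b_one.2 ?_
  rcases t1b_cr x j with ⟨m, h1, h2⟩ | ⟨m, h1, h2, h3⟩
  · exact Or.inl ⟨m, h2, h1⟩
  · exact Or.inr ⟨m, h3, h1.le, h2.le⟩

theorem cr_min {J : Type} {x : J → ℝ} {c : Cl J} (hx : x ∈ bo c) : Fa (cr x) c := by
  intro j
  have h0 : |2 * x j - (c j : ℝ)| ≤ ((c j % 2 : ℤ) : ℝ) := hx j
  rcases t1b_one.1 h0 with ⟨m, h1, h2⟩ | ⟨m, h1, h2, h3⟩
  · rcases t1b_cr x j with ⟨n, h4, h5⟩ | ⟨n, h4, h5, h6⟩
    · have h7 : m = n := by
        rw [h2] at h4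
        exact_mod_cast h4
      left
      rw [h5, h1, h7]
    · exfalso
      rw [h2] at h4 h5
      have h7 : n < m := by exact_mod_cast h4
      have h8 : m < n + 1 := by exact_mod_cast h5
      omega
  · rcases t1b_cr x j with ⟨n, h4, h5⟩ | ⟨n, h4, h5, h6⟩
    · rw [h4] at h2 h3
      have h7 : m ≤ n := by exact_mod_cast h2
      have h8 : n ≤ m + 1 := by exact_mod_cast h3
      right
      refine ⟨by omega, ?_⟩
      have h9 : n = m ∨ n = m + 1 := by omega
      rcases h9 with h9 | h9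
      · left
        omega
      · right
        omega
    · left
      have h7 : (m : ℝ) < n + 1 := lt_of_le_of_lt h2 h5
      have h8 : (n : ℝ) < m + 1 := lt_of_lt_of_le h4 h3
      have h9 : m < n + 1 := by exact_mod_cast h7
      have h10 : n < m + 1 := by exact_mod_cast h8
      omega

theorem cr_iff {J : Type} {x : J → ℝ} {c : Cl J} : x ∈ bo c ↔ Fa (cr x) c :=
  ⟨cr_min, fun h => bo_mono h (cr_bo x)⟩

theorem cr_mem {J : Type} {K : Set (Cl J)} (hK : Clo K) {x : J → ℝ} (hx : x ∈ Bo K) :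
    cr x ∈ K := by
  obtain ⟨c, hc, hx⟩ := hx
  exact hK c hc _ (cr_min hx)

/-- the body of a product -/
theorem mem_Bo_px {J V : Type} {K : Set (Cl J)} {L : Set (Cl V)} (x : J ⊕ V → ℝ) :
    x ∈ Bo (Px K L) ↔ (fun j => x (Sum.inl j)) ∈ Bo K ∧ (fun v => x (Sum.inr v)) ∈ Bo L := by
  constructor
  · rintro ⟨c, ⟨h1, h2⟩, hx⟩
    exact ⟨⟨fs c, h1, fun j => hx (Sum.inl j)⟩, ⟨sn c, h2, fun v => hx (Sum.inr v)⟩⟩
  · rintro ⟨⟨c, hc, hx⟩, ⟨d, hd, hy⟩⟩
    refine ⟨Sum.elim c d, ⟨hc, hd⟩, fun j => ?_⟩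
    cases j with
    | inl j => exact hx j
    | inr v => exact hy v

theorem cs_px {J V : Type} {k : ℕ} {K : Set (Cl J)} {L : Set (Cl V)} (hK : Cs k (Bo K))
    (hL : Cs k (Bo L)) : Cs k (Bo (Px K L)) := by
  refine cs_dom (Bo K ×ˢ Bo L) (Bo (Px K L))
    (fun z : (J → ℝ) × (V → ℝ) => (Sum.elim z.1 z.2 : J ⊕ V → ℝ))
    (fun x : J ⊕ V → ℝ => ((fun j => x (Sum.inl j)), (fun v => x (Sum.inr v)))) ?_ ?_ ?_ ?_ ?_
    (cs_prod _ _ hK hL)
  · apply Continuous.continuousOn
    refine continuous_pi fun j => ?_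
    cases j with
    | inl j => exact (continuous_apply j).comp continuous_fst
    | inr v => exact (continuous_apply v).comp continuous_snd
  · apply Continuous.continuousOn
    exact (continuous_pi fun j => continuous_apply (Sum.inl j)).prodMk
      (continuous_pi fun v => continuous_apply (Sum.inr v))
  · rintro z ⟨h1, h2⟩
    exact (mem_Bo_px _).2 ⟨h1, h2⟩
  · intro x hx
    exact (mem_Bo_px x).1 hx
  · intro x _
    funext j
    cases j with
    | inl j => rfl
    | inr v => rfl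

theorem Bo_bx {J : Type} (a b : J → ℤ) (h : ∀ j, a j ≤ b j) :
    Bo (Bx a b) = {x | ∀ j, (a j : ℝ) ≤ x j ∧ x j ≤ (b j : ℝ)} := by
  ext x
  constructor
  · rintro ⟨c, hc, hx⟩ j
    have h1 : 2 * a j ≤ c j ∧ c j ≤ 2 * b j := hc j
    have h0 : |2 * x j - (c j : ℝ)| ≤ ((c j % 2 : ℤ) : ℝ) := hx j
    rcases t1b_one.1 h0 with ⟨m, h2, h3⟩ | ⟨m, h2, h3, h4⟩
    · have h5 : a j ≤ m := by omega
      have h6 : m ≤ b j := by omega
      rw [h3]
      exact ⟨by exact_mod_cast h5, by exact_mod_cast h6⟩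
    · have h5 : a j ≤ m := by omega
      have h6 : m + 1 ≤ b j := by omega
      have h7 : (a j : ℝ) ≤ m := by exact_mod_cast h5
      have h8 : (m : ℝ) + 1 ≤ b j := by exact_mod_cast h6
      exact ⟨h7.trans h3, h4.trans h8⟩
  · intro hx
    refine ⟨cr x, fun j => ?_, cr_bo x⟩
    obtain ⟨h1, h2⟩ := hx j
    rcases t1b_cr x j with ⟨m, h3, h4⟩ | ⟨m, h3, h4, h5⟩
    · rw [h3] at h1 h2
      have h5 : a j ≤ m := by exact_mod_cast h1
      have h6 : m ≤ b j := by exact_mod_cast h2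
      rw [h4]
      constructor <;> omega
    · have h6 : (a j : ℝ) < m + 1 := lt_of_le_of_lt h1 h4
      have h7 : (m : ℝ) < b j := lt_of_lt_of_le h3 h2
      have h8 : a j < m + 1 := by exact_mod_cast h6
      have h9 : m < b j := by exact_mod_cast h7
      rw [h5]
      constructor <;> omega

end MNG
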