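import Pool.Agent.MNG.T1b

/-!
# MNG-T3: the realization of a monotone map

`Fx s x` is a face of `cr x = Fx 0 x`, decreasing in `s`. For `x, x'` with `|x_j - x'_j| ≤ δ` the faces `Fx s x`, `Fx s x'` agree outside a set of `s` of measure `≤ 2 δ * card J * (constant)`: in one coordinate the value changes only at `s = 2 |x_j - round x_j|` (at most) and the value above is `2 round x_j`, the value below `2 ⌊x_j⌋ + 1`.
-/

set_option autoImplicit false

noncomputable section

namespace MNG

open AGM (Ei Bl Sp)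
open Set Topology

private theorem t3_rd (x : ℝ) : round x = ⌊x⌋ ∨ round x = ⌊x⌋ + 1 := by
  have h1 := abs_le.1 (abs_sub_round x)
  have h2 := Int.floor_le x
  have h3 := Int.lt_floor_add_one x
  have h4 : ((⌊x⌋ : ℤ) : ℝ) - 1 < ((round x : ℤ) : ℝ) := by linarith [h1.2]
  have h5 : ((round x : ℤ) : ℝ) < ((⌊x⌋ : ℤ) : ℝ) + 2 := by linarith [h1.1]
  have h6 : ⌊x⌋ - 1 < round x := by exact_mod_cast h4
  have h7 : round x < ⌊x⌋ + 2 := by exact_mod_cast h5
  omega

private theorem t3_fa {J : Type} {s : ℝ} (hs : 0 ≤ s) (x : J → ℝ) : Fa (Fx s x) (cr x) := by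
  intro j
  show fc (if |x j - round (x j)| ≤ s / 2 then 2 * round (x j) else 2 * ⌊x j⌋ + 1)
    (if |x j - round (x j)| ≤ 0 / 2 then 2 * round (x j) else 2 * ⌊x j⌋ + 1)
  by_cases h0 : |x j - round (x j)| ≤ 0 / 2
  · have h1 : |x j - round (x j)| ≤ s / 2 := by linarith
    rw [if_pos h0, if_pos h1]
    exact Or.inl rfl
  · rw [if_neg h0]
    by_cases h1 : |x j - round (x j)| ≤ s / 2
    · rw [if_pos h1]
      right
      refine ⟨by omega, ?_⟩
      rcases t3_rd (x j) with h | h
      · left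
        rw [h]
        omega
      · right
        rw [h]
        omega
    · rw [if_neg h1]
      exact Or.inl rfl

private theorem t3_K {J : Type} {K : Set (Cl J)} (hK : Clo K) {x : J → ℝ} (hx : x ∈ Bo K)
    {s : ℝ} (hs : 0 ≤ s) : Fx s x ∈ K :=
  hK _ (cr_mem hK hx) _ (t3_fa hs x)

private theorem t3_meas {J V : Type} [Fintype J] (f : Cl J → Cl V) (v : V) (x : J → ℝ) :
    Measurable (fun s : ℝ => ((f (Fx s x) v : ℤ) : ℝ)) := by
  have h1 : Measurable (fun s : ℝ => Fx s x) := by
    refine measurable_pi_iff.2 fun j => ?_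
    exact Measurable.ite (measurableSet_le measurable_const (measurable_id.div_const 2))
      measurable_const measurable_const
  have h2 : Measurable (fun c : Cl J => ((f c v : ℤ) : ℝ)) := Measurable.of_discrete
  exact h2.comp h1

private theorem t3_bd {J V : Type} {K : Set (Cl J)} (hK : Cx K) (f : Cl J → Cl V) (v : V) :
    ∃ C : ℝ, ∀ x ∈ Bo K, ∀ s : ℝ, 0 ≤ s → ‖((f (Fx s x) v : ℤ) : ℝ)‖ ≤ C := by
  obtain ⟨C, hC⟩ := (hK.fin.image (fun c => ‖((f c v : ℤ) : ℝ)‖)).bddAbove
  refine ⟨C, fun x hx s hs => hC ?_⟩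
  exact ⟨Fx s x, t3_K hK.clo hx hs, rfl⟩

private theorem t3_int {J V : Type} [Fintype J] {K : Set (Cl J)} (hK : Cx K) (f : Cl J → Cl V)
    (v : V) {x : J → ℝ} (hx : x ∈ Bo K) {a b : ℝ} (ha : 0 ≤ a) (hab : a ≤ b) :
    IntervalIntegrable (fun s : ℝ => ((f (Fx s x) v : ℤ) : ℝ)) MeasureTheory.volume a b := by
  obtain ⟨C, hC⟩ := t3_bd hK f v
  rw [intervalIntegrable_iff_integrableOn_Ioc_of_le hab]
  refine MeasureTheory.Measure.integrableOn_of_bounded (M := C) ?_
    (t3_meas f v x).aestronglyMeasurable ?_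
  · exact measure_Ioc_lt_top.ne
  · refine (MeasureTheory.ae_restrict_iff' measurableSet_Ioc).2 (Filter.Eventually.of_forall ?_)
    intro s hs
    exact hC x hx s (le_trans ha hs.1.le)

private theorem t3_abs {a b : ℤ} (h : fc a b) : |(a : ℝ) - (b : ℝ)| ≤ ((b % 2 : ℤ) : ℝ) := by
  rcases h with h | ⟨h2, h | h⟩
  · rw [h, sub_self, abs_zero]
    exact_mod_cast Int.emod_nonneg b two_ne_zero
  · rw [h2, h]
    push_cast
    rw [show (b : ℝ) - 1 - b = -1 by ring, abs_neg, abs_one]
  · rw [h2, h]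
    push_cast
    rw [show (b : ℝ) + 1 - b = 1 by ring, abs_one]

private theorem t3_sub {J V : Type} [Fintype J] {K : Set (Cl J)} (hK : Cx K) (f : Cl J → Cl V)
    (v : V) {x : J → ℝ} (hx : x ∈ Bo K) (c : ℝ) :
    2 * rl f x v - c = ∫ s in (0 : ℝ)..1, (((f (Fx s x) v : ℤ) : ℝ) - c) := by
  rw [intervalIntegral.integral_sub (t3_int hK f v hx le_rfl zero_le_one)
    intervalIntegrable_const, intervalIntegral.integral_const]
  unfold rl
  rw [sub_zero, one_smul]
  ring

theorem rl_mem {J V : Type} [Fintype J] [Fintype V] {K : Set (Cl J)} {T : Set (Cl V)}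
    {f : Cl J → Cl V} (hK : Cx K) (hf : Mon K T f) {x : J → ℝ} (hx : x ∈ Bo K) :
    rl f x ∈ bo (f (cr x)) := by
  intro v
  rw [t3_sub hK f v hx, ← Real.norm_eq_abs]
  have h1 := intervalIntegral.norm_integral_le_of_norm_le_const (a := (0 : ℝ)) (b := 1)
    (f := fun s : ℝ => ((f (Fx s x) v : ℤ) : ℝ) - ((f (cr x) v : ℤ) : ℝ))
    (C := ((f (cr x) v % 2 : ℤ) : ℝ)) ?_
  · rw [sub_zero, abs_one, mul_one] at h1
    exact h1
  · intro s hs
    rw [uIoc_of_le zero_le_one] at hs
    rw [Real.norm_eq_abs]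
    exact t3_abs (hf.mono _ (cr_mem hK.clo hx) _ (t3_fa hs.1.le x) v)

private theorem t3_loc {J : Type} [Fintype J] (x : J → ℝ) :
    ∃ e : ℝ, 0 < e ∧ e ≤ 1 ∧ ∀ s : ℝ, 0 ≤ s → s ≤ e → Fx s x = cr x := by
  have h1 : ∀ᶠ s in 𝓝 (0 : ℝ), ∀ j, 0 ≤ s → Fx s x j = cr x j := by
    refine Filter.eventually_all.2 fun j => ?_
    by_cases h0 : |x j - round (x j)| ≤ 0 / 2
    · refine Filter.Eventually.of_forall fun s hs => ?_
      show (if |x j - round (x j)| ≤ s / 2 then 2 * round (x j) else 2 * ⌊x j⌋ + 1) =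
        (if |x j - round (x j)| ≤ 0 / 2 then 2 * round (x j) else 2 * ⌊x j⌋ + 1)
      rw [if_pos h0, if_pos (by linarith)]
    · have h2 : (0 : ℝ) < 2 * |x j - round (x j)| := by
        rw [zero_div, not_le] at h0
        linarith
      filter_upwards [Iio_mem_nhds h2] with s hs _
      show (if |x j - round (x j)| ≤ s / 2 then 2 * round (x j) else 2 * ⌊x j⌋ + 1) =
        (if |x j - round (x j)| ≤ 0 / 2 then 2 * round (x j) else 2 * ⌊x j⌋ + 1)
      rw [mem_Iio] at hs
      rw [if_neg h0, if_neg (by linarith)]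
  obtain ⟨e, he, h⟩ := Metric.eventually_nhds_iff.1 h1
  refine ⟨min (e / 2) 1, lt_min (by linarith) one_pos, min_le_right _ _, fun s hs hse => ?_⟩
  funext j
  refine h ?_ j hs
  rw [Real.dist_eq, sub_zero, abs_of_nonneg hs]
  linarith [le_trans hse (min_le_left _ _)]

private theorem t3_lt {J V : Type} [Fintype J] {K : Set (Cl J)} {T : Set (Cl V)}
    {f : Cl J → Cl V} (hK : Cx K) (hf : Mon K T f) {x : J → ℝ} (hx : x ∈ Bo K) (v : V) :
    |2 * rl f x v - ((f (cr x) v : ℤ) : ℝ)| < 1 := by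
  obtain ⟨e, he0, he1, he⟩ := t3_loc x
  have hi : ∀ a b : ℝ, 0 ≤ a → a ≤ b → IntervalIntegrable
      (fun s : ℝ => ((f (Fx s x) v : ℤ) : ℝ) - ((f (cr x) v : ℤ) : ℝ))
      MeasureTheory.volume a b :=
    fun a b ha hab => (t3_int hK f v hx ha hab).sub intervalIntegrable_const
  rw [t3_sub hK f v hx, ← intervalIntegral.integral_add_adjacent_intervals
    (hi 0 e le_rfl he0.le) (hi e 1 he0.le he1)]
  have h1 : ∫ s in (0 : ℝ)..e, (((f (Fx s x) v : ℤ) : ℝ) - ((f (cr x) v : ℤ) : ℝ)) = 0 := by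
    rw [intervalIntegral.integral_congr (g := fun _ => (0 : ℝ)), intervalIntegral.integral_zero]
    intro s hs
    rw [uIcc_of_le he0.le] at hs
    show ((f (Fx s x) v : ℤ) : ℝ) - ((f (cr x) v : ℤ) : ℝ) = 0
    rw [he s hs.1 hs.2, sub_self]
  have h2 := intervalIntegral.norm_integral_le_of_norm_le_const (a := e) (b := 1)
    (f := fun s : ℝ => ((f (Fx s x) v : ℤ) : ℝ) - ((f (cr x) v : ℤ) : ℝ))
    (C := 1) ?_
  · rw [h1, zero_add, ← Real.norm_eq_abs]
    refine lt_of_le_of_lt h2 ?_
    rw [one_mul, abs_of_nonneg (by linarith)]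
    linarith
  · intro s hs
    rw [uIoc_of_le he1] at hs
    rw [Real.norm_eq_abs]
    refine le_trans (t3_abs (hf.mono _ (cr_mem hK.clo hx) _
      (t3_fa (le_trans he0.le hs.1.le) x) v)) ?_
    have h3 : f (cr x) v % 2 ≤ 1 := by omega
    exact_mod_cast h3

theorem rl_iff {J V : Type} [Fintype J] [Fintype V] {K : Set (Cl J)} {T : Set (Cl V)}
    {f : Cl J → Cl V} (hK : Cx K) (hf : Mon K T f) {x : J → ℝ} (hx : x ∈ Bo K) (S : Cl V) :
    rl f x ∈ bo S ↔ Fa (f (cr x)) S := by
  refine ⟨fun h v => ?_, fun h => bo_mono h (rl_mem hK hf hx)⟩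
  have h1 := h v
  have h2 := rl_mem hK hf hx v
  have h3 := t3_lt hK hf hx v
  generalize hr : 2 * rl f x v = r at h1 h2 h3
  generalize hc : f (cr x) v = c at h2 h3 ⊢
  rcases Int.emod_two_eq_zero_or_one c with hc2 | hc2
  · -- even
    rw [hc2, Int.cast_zero] at h2
    have h4 : r = (c : ℝ) := by
      have := abs_nonpos_iff.1 h2
      linarith
    rw [h4] at h1
    have h5 : |c - S v| ≤ S v % 2 := by exact_mod_cast h1
    rcases Int.emod_two_eq_zero_or_one (S v) with hs | hs
    · rw [hs] at h5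
      left
      have := abs_nonpos_iff.1 h5
      omega
    · rw [hs] at h5
      right
      have h6 := abs_le.1 h5
      exact ⟨hs, by omega⟩
  · left
    have h3' := abs_lt.1 h3
    rcases Int.emod_two_eq_zero_or_one (S v) with hs | hs
    · exfalso
      rw [hs, Int.cast_zero] at h1
      have h4 : r = ((S v : ℤ) : ℝ) := by
        have := abs_nonpos_iff.1 h1
        linarith
      rw [h4] at h3'
      have h5 : -1 < S v - c := by exact_mod_cast h3'.1
      have h6 : S v - c < 1 := by exact_mod_cast h3'.2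
      omega
    · rw [hs, Int.cast_one] at h1
      have h1' := abs_le.1 h1
      have h5 : ((c : ℤ) : ℝ) < ((S v : ℤ) : ℝ) + 2 := by linarith [h1'.2, h3'.1]
      have h6 : ((S v : ℤ) : ℝ) < ((c : ℤ) : ℝ) + 2 := by linarith [h1'.1, h3'.2]
      have h7 : c < S v + 2 := by exact_mod_cast h5
      have h8 : S v < c + 2 := by exact_mod_cast h6
      omega

private theorem t3_ev {t s : ℝ} (hs : 0 < s) (hs1 : s < 1) (hne : |t - round t| ≠ s / 2) :
    ∀ᶠ u : ℝ in 𝓝 t, (if |u - round u| ≤ s / 2 then 2 * round u else 2 * ⌊u⌋ + 1) =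
      (if |t - round t| ≤ s / 2 then 2 * round t else 2 * ⌊t⌋ + 1) := by
  rcases lt_or_gt_of_ne hne with h | h
  · -- near the lattice
    have h1 : ∀ᶠ u : ℝ in 𝓝 t, |u - round t| < s / 2 := by
      have hc : Continuous (fun u : ℝ => |u - round t|) := by fun_prop
      exact hc.continuousAt.eventually_lt continuousAt_const h
    filter_upwards [h1] with u hu
    have h2 : round u = round t := by
      have h3 := abs_lt.1 hu
      have h4 := abs_le.1 (abs_sub_round u)
      have h5 : ((round u : ℤ) : ℝ) < ((round t : ℤ) : ℝ) + 1 := by linarith [h4.1, h3.2]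
      have h6 : ((round t : ℤ) : ℝ) < ((round u : ℤ) : ℝ) + 1 := by linarith [h4.2, h3.1]
      have h7 : round u < round t + 1 := by exact_mod_cast h5
      have h8 : round t < round u + 1 := by exact_mod_cast h6
      omega
    rw [h2, if_pos hu.le, if_pos h.le]
  · -- away from the lattice
    have hdist : ∀ (u : ℝ) (n : ℤ), |u - round u| ≤ |u - n| := fun u n => round_le u n
    have hf1 : ((⌊t⌋ : ℤ) : ℝ) + s / 2 < t := by
      have h2 := lt_of_lt_of_le h (hdist t ⌊t⌋)
      rw [abs_of_nonneg (by linarith [Int.floor_le t])] at h2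
      linarith
    have hf2 : t < ((⌊t⌋ : ℤ) : ℝ) + 1 - s / 2 := by
      have h2 := lt_of_lt_of_le h (hdist t (⌊t⌋ + 1))
      push_cast at h2
      rw [abs_of_nonpos (by linarith [Int.lt_floor_add_one t])] at h2
      linarith
    filter_upwards [Ioo_mem_nhds hf1 hf2] with u hu
    have h2 : ⌊u⌋ = ⌊t⌋ := by
      rw [Int.floor_eq_iff]
      exact ⟨by linarith [hu.1], by linarith [hu.2]⟩
    have h3 : ¬ |u - round u| ≤ s / 2 := by
      intro h4
      rcases t3_rd u with h5 | h5
      · rw [h5, h2] at h4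
        linarith [(abs_le.1 h4).2, hu.1]
      · rw [h5, h2] at h4
        push_cast at h4
        linarith [(abs_le.1 h4).1, hu.2]
    rw [if_neg h3, if_neg (not_le.2 h), h2]

theorem rl_cont {J V : Type} [Fintype J] [Fintype V] {K : Set (Cl J)} {T : Set (Cl V)}
    {f : Cl J → Cl V} (hK : Cx K) (hf : Mon K T f) : ContinuousOn (rl f) (Bo K) := by
  refine continuousOn_pi.2 fun v => ?_
  intro x hx
  have hc : ContinuousWithinAt (fun y : J → ℝ => ∫ s in (0 : ℝ)..1, ((f (Fx s y) v : ℤ) : ℝ))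
      (Bo K) x := by
    obtain ⟨C, hC⟩ := t3_bd hK f v
    refine intervalIntegral.continuousWithinAt_of_dominated_interval (bound := fun _ => C)
      ?_ ?_ intervalIntegrable_const ?_
    · exact Filter.Eventually.of_forall fun y => (t3_meas f v y).aestronglyMeasurable
    · filter_upwards [self_mem_nhdsWithin] with y hy
      refine Filter.Eventually.of_forall fun s hs => ?_
      rw [uIoc_of_le zero_le_one] at hs
      exact hC y hy s hs.1.le
    · have hfin : (insert (1 : ℝ) (range fun j : J => 2 * |x j - round (x j)|)).Finite :=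
        (finite_range _).insert 1
      have hae : ∀ᵐ s : ℝ, s ∉ insert (1 : ℝ) (range fun j : J => 2 * |x j - round (x j)|) :=
        MeasureTheory.measure_eq_zero_iff_ae_notMem.1 (hfin.measure_zero MeasureTheory.volume)
      filter_upwards [hae] with s hs hs1
      rw [uIoc_of_le zero_le_one] at hs1
      have hs2 : s ≠ 1 := fun h => hs (by rw [h]; exact mem_insert _ _)
      have hs3 : s < 1 := lt_of_le_of_ne hs1.2 hs2
      have h1 : ∀ᶠ y in 𝓝 x, ∀ j, Fx s y j = Fx s x j := by
        refine Filter.eventually_all.2 fun j => ?_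
        have hne : |x j - round (x j)| ≠ s / 2 := by
          intro h
          refine hs (mem_insert_of_mem _ ⟨j, ?_⟩)
          show 2 * |x j - round (x j)| = s
          rw [h]
          ring
        exact (continuous_apply j).continuousAt.eventually (t3_ev hs1.1 hs3 hne)
      have h2 : (fun y : J → ℝ => ((f (Fx s y) v : ℤ) : ℝ)) =ᶠ[𝓝 x]
          fun _ => ((f (Fx s x) v : ℤ) : ℝ) := by
        filter_upwards [h1] with y hy
        rw [show Fx s y = Fx s x from funext hy]
      exact (continuousAt_const.congr h2.symm).continuousWithinAt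
  exact hc.div_const 2

end MNG
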