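import Pool.Agent.MNG.T2
import Pool.Agent.MNG.T3

/-!
# MNG-T4: lifting, the fibre lemma, composition of soft maps

`lift_fam`: define `Φ` over `u ⁻¹ (|sk d L|)` by induction on `d`; step: for a cell `σ` of dimension `d + 1` extend from the closed subset (preimage of the boundary, and the sphere) of the compact set `u ⁻¹ |σ|` by `ae`; different cells of dimension `d + 1` meet in `|sk d L|`.
`qf`: `u` on the sphere is `rl f ∘ φ`, extend it to the ball in `Bo L`, apply `lift_fam` to `K σ = Fb f K σ` (`rl_iff`, `cr_mem`).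
-/

set_option autoImplicit false

noncomputable section

namespace MNG

open AGM (Ei Bl Sp)
open Set Topology

private theorem t4_clo {J : Type} [Fintype J] {P T : Set (Cl J)} (hP : Cx P) (hT : Cx T)
    {e : Cl J} (he : e ∈ T) (hm : ∀ d ∈ T \ P, dm e ≤ dm d) : Clo (insert e P) := by
  intro c hc d hd
  rcases hc with rfl | hc
  · by_cases hdc : d = c
    · exact Or.inl hdc
    · right
      by_contra hdP
      have h1 := hm d ⟨hT.clo c he d hd, hdP⟩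
      have h2 := dm_lt hd hdc
      omega
  · exact Or.inr (hP.clo c hc d hd)

theorem lift_fam {J V : Type} [Fintype J] [Fintype V] {k : ℕ} {L : Set (Cl J)} (hL : Cx L)
    (K : Cl J → Set (Cl V)) (hK : ∀ σ ∈ L, Cx (K σ)) (hm : ∀ σ ∈ L, ∀ τ, Fa τ σ → K τ ⊆ K σ)
    (hc : ∀ σ ∈ L, Cs k (Bo (K σ))) {i : ℕ} (hi : i ≤ k) (u : Ei i → J → ℝ)
    (hu : ContinuousOn u (Bl i)) (hum : MapsTo u (Bl i) (Bo L)) (φ : Ei i → V → ℝ)
    (hφ : ContinuousOn φ (Sp i)) (hφm : ∀ x ∈ Sp i, ∀ σ ∈ L, u x ∈ bo σ → φ x ∈ Bo (K σ)) :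
    ∃ Φ : Ei i → V → ℝ, ContinuousOn Φ (Bl i) ∧
      (∀ x ∈ Bl i, ∀ σ ∈ L, u x ∈ bo σ → Φ x ∈ Bo (K σ)) ∧ EqOn Φ φ (Sp i) := by
  classical
  have key : ∀ n : ℕ, ∀ P : Set (Cl J), Cx P → P ⊆ L → (L \ P).ncard = n →
      ∀ Φ₀ : Ei i → V → ℝ, ContinuousOn Φ₀ (Sp i ∪ (Bl i ∩ u ⁻¹' Bo P)) →
      (∀ x ∈ Sp i ∪ (Bl i ∩ u ⁻¹' Bo P), ∀ σ ∈ L, u x ∈ bo σ → Φ₀ x ∈ Bo (K σ)) →
      EqOn Φ₀ φ (Sp i) →
      ∃ Φ : Ei i → V → ℝ, ContinuousOn Φ (Bl i) ∧
        (∀ x ∈ Bl i, ∀ σ ∈ L, u x ∈ bo σ → Φ x ∈ Bo (K σ)) ∧ EqOn Φ φ (Sp i) := by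
    intro n
    induction n with
    | zero =>
      intro P hP hPL hn Φ₀ h0 h1 h2
      have h3 : L \ P = ∅ := (Set.ncard_eq_zero (hL.fin.subset Set.diff_subset)).1 hn
      have h4 : P = L := Set.Subset.antisymm hPL (Set.diff_eq_empty.1 h3)
      subst h4
      have h5 : Bl i ⊆ Sp i ∪ (Bl i ∩ u ⁻¹' Bo P) := fun x hx => Or.inr ⟨hx, hum hx⟩
      exact ⟨Φ₀, h0.mono h5, fun x hx => h1 x (h5 hx), h2⟩
    | succ n ih =>
      intro P hP hPL hn Φ₀ h0 h1 h2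
      have hfin : (L \ P).Finite := hL.fin.subset Set.diff_subset
      have hne : (L \ P).Nonempty := by
        rw [Set.nonempty_iff_ne_empty]
        intro h3
        rw [h3, Set.ncard_empty] at hn
        omega
      obtain ⟨e, he, hmin⟩ := Set.exists_min_image (L \ P) dm hfin hne
      have hcl : Clo (insert e P) := t4_clo hP hL he.1 hmin
      have hP' : Cx (insert e P) := ⟨hP.fin.insert e, hcl⟩
      have hP'L : insert e P ⊆ L := Set.insert_subset he.1 hPL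
      have hn' : (L \ insert e P).ncard = n := by
        have h3 : L \ insert e P = (L \ P) \ {e} := by
          ext c
          simp only [Set.mem_diff, Set.mem_insert_iff, Set.mem_singleton_iff, not_or]
          tauto
        rw [h3, Set.ncard_diff_singleton_of_mem he, hn]
        rfl
      have hBl : IsClosed (Bl i) := Metric.isClosed_closedBall
      have hSp : IsClosed (Sp i) := Metric.isClosed_sphere
      have hZc : IsClosed (Bl i ∩ u ⁻¹' bo e) :=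
        hu.preimage_isClosed_of_isClosed hBl (bo_closed e)
      have hZ : IsCompact (Bl i ∩ u ⁻¹' bo e) :=
        (isCompact_closedBall (0 : Ei i) 1).of_isClosed_subset hZc Set.inter_subset_left
      have hZP : IsClosed (Sp i ∪ (Bl i ∩ u ⁻¹' Bo P)) :=
        hSp.union (hu.preimage_isClosed_of_isClosed hBl (Bo_compact hP.fin).isClosed)
      obtain ⟨Ψ, hΨ, hΨm, hΨe⟩ := ae (hK e he.1) (hc e he.1) hi (Bl i ∩ u ⁻¹' bo e)
        ((Bl i ∩ u ⁻¹' bo e) ∩ (Sp i ∪ (Bl i ∩ u ⁻¹' Bo P))) hZ (hZc.inter hZP)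
        Set.inter_subset_left Φ₀ (h0.mono Set.inter_subset_right)
        (fun x hx => h1 x hx.2 e he.1 hx.1.2)
      obtain ⟨Φ', hΦ'⟩ : ∃ Φ' : Ei i → V → ℝ, Φ' = fun x =>
        if x ∈ Sp i ∪ (Bl i ∩ u ⁻¹' Bo P) then Φ₀ x else Ψ x := ⟨_, rfl⟩
      have hA : EqOn Φ' Φ₀ (Sp i ∪ (Bl i ∩ u ⁻¹' Bo P)) := by
        intro x hx
        rw [hΦ']
        exact if_pos hx
      have hB : EqOn Φ' Ψ (Bl i ∩ u ⁻¹' bo e) := by
        intro x hx
        by_cases hx' : x ∈ Sp i ∪ (Bl i ∩ u ⁻¹' Bo P)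
        · rw [hA hx', hΨe ⟨hx, hx'⟩]
        · rw [hΦ']
          exact if_neg hx'
      have hsub : Sp i ∪ (Bl i ∩ u ⁻¹' Bo (insert e P)) ⊆
          (Sp i ∪ (Bl i ∩ u ⁻¹' Bo P)) ∪ (Bl i ∩ u ⁻¹' bo e) := by
        rintro x (hx | ⟨hx, c, hc', hxc⟩)
        · exact Or.inl (Or.inl hx)
        · rcases hc' with rfl | hc'
          · exact Or.inr ⟨hx, hxc⟩
          · exact Or.inl (Or.inr ⟨hx, c, hc', hxc⟩)
      refine ih (insert e P) hP' hP'L hn' Φ' ?_ ?_ ?_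
      · exact ((h0.congr hA).union_of_isClosed (hΨ.congr hB) hZP hZc).mono hsub
      · intro x hx σ hσ hxσ
        by_cases hx' : x ∈ Sp i ∪ (Bl i ∩ u ⁻¹' Bo P)
        · rw [hA hx']
          exact h1 x hx' σ hσ hxσ
        · have hxe : x ∈ Bl i ∩ u ⁻¹' bo e := by
            rcases hsub hx with h3 | h3
            · exact absurd h3 hx'
            · exact h3
          rw [hB hxe]
          have h4 : cr (u x) = e := by
            have h5 : cr (u x) ∈ insert e P := hcl e (Set.mem_insert _ _) _ (cr_min hxe.2)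
            rcases h5 with h5 | h5
            · exact h5
            · exact absurd (Or.inr ⟨hxe.1, cr (u x), h5, cr_bo (u x)⟩) hx'
          have h6 : Fa e σ := by
            rw [← h4]
            exact cr_min hxσ
          obtain ⟨c, hc', hxc⟩ := hΨm hxe
          exact ⟨c, hm σ hσ e h6 hc', hxc⟩
      · intro x hx
        rw [hA (Or.inl hx)]
        exact h2 hx
  have hcx : Cx (∅ : Set (Cl J)) := ⟨Set.finite_empty, fun c hc' => absurd hc' (Set.notMem_empty c)⟩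
  have hB0 : Sp i ∪ (Bl i ∩ u ⁻¹' Bo (∅ : Set (Cl J))) ⊆ Sp i := by
    rintro x (hx | ⟨_, c, hc', _⟩)
    · exact hx
    · exact absurd hc' (Set.notMem_empty c)
  exact key _ ∅ hcx (Set.empty_subset L) rfl φ (hφ.mono hB0)
    (fun x hx => hφm x (hB0 hx)) (fun x _ => rfl)

theorem qf {J V : Type} [Fintype J] [Fintype V] {k : ℕ} {K : Set (Cl J)} {L : Set (Cl V)}
    (hK : Cx K) (hL : Cx L) {f : Cl J → Cl V} (hf : Mon K L f)
    (hs : ∀ S ∈ L, Cs k (Bo (Fb f K S))) (h : Cs k (Bo L)) : Cs k (Bo K) := by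
  constructor
  · obtain ⟨y, c, hcL, _⟩ := h.1
    obtain ⟨x, d, hd, hx⟩ := (hs c hcL).1
    exact ⟨x, d, hd.1, hx⟩
  · intro i hi1 hik φ hφ hφm
    obtain ⟨u, hu, hum, hue⟩ := h.2 i hi1 hik (fun x => rl f (φ x))
      ((rl_cont hK hf).comp hφ hφm)
      (fun x hx => ⟨f (cr (φ x)), hf.map _ (cr_mem hK.clo (hφm hx)), rl_mem hK hf (hφm hx)⟩)
    obtain ⟨Φ, h1, h2, h3⟩ := lift_fam hL (fun σ => Fb f K σ) (fun σ _ => cx_fb hK hf σ)
      (fun σ _ τ hτ c hc => ⟨hc.1, fa_trans hc.2 hτ⟩) hs hik u hu hum φ hφ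
      (fun x hx σ _ hxσ => by
        have h5 : u x = rl f (φ x) := hue hx
        have h4 : rl f (φ x) ∈ bo σ := by
          rw [← h5]
          exact hxσ
        exact ⟨cr (φ x), ⟨cr_mem hK.clo (hφm hx), (rl_iff hK hf (hφm hx) σ).1 h4⟩, cr_bo (φ x)⟩)
    refine ⟨Φ, h1, ?_, h3⟩
    intro x hx
    obtain ⟨σ, hσ, hxσ⟩ := hum hx
    obtain ⟨c, hc, hxc⟩ := h2 x hx σ hσ hxσ
    exact ⟨c, hc.1, hxc⟩

theorem soft_pre {J V : Type} [Fintype J] [Fintype V] {k : ℕ} {K : Set (Cl J)} {L : Set (Cl V)}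
    (hK : Cx K) (hL : Cx L) {f : Cl J → Cl V} (hf : Mon K L f) (hs : Soft k K L f)
    (A : Set (Cl V)) (hA : Clo A) (hAL : A ⊆ L) (h : Cs k (Bo A)) :
    Cs k (Bo {c | c ∈ K ∧ f c ∈ A}) := by
  have hK' : Cx {c | c ∈ K ∧ f c ∈ A} :=
    ⟨hK.fin.subset fun _ hc => hc.1, fun c hc d hd =>
      ⟨hK.clo c hc.1 d hd, hA _ hc.2 _ (hf.mono c hc.1 d hd)⟩⟩
  have hA' : Cx A := ⟨hL.fin.subset hAL, hA⟩
  have hf' : Mon {c | c ∈ K ∧ f c ∈ A} A f :=
    ⟨fun c hc => hc.2, fun c hc d hd => hf.mono c hc.1 d hd⟩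
  refine qf hK' hA' hf' ?_ h
  intro S hS
  have h1 : Fb f {c | c ∈ K ∧ f c ∈ A} S = Fb f K S := by
    ext c
    constructor
    · rintro ⟨⟨h2, _⟩, h3⟩
      exact ⟨h2, h3⟩
    · rintro ⟨h2, h3⟩
      exact ⟨⟨h2, hA S hS _ h3⟩, h3⟩
  rw [h1]
  exact hs S (hAL hS)

theorem soft_comp {J V W : Type} [Fintype J] [Fintype V] [Fintype W] {k : ℕ} {K : Set (Cl J)}
    {L : Set (Cl V)} {M : Set (Cl W)} (hK : Cx K) (hL : Cx L) {f : Cl J → Cl V}
    {g : Cl V → Cl W} (hf : Mon K L f) (hg : Mon L M g) (hs : Soft k K L f)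
    (ht : Soft k L M g) : Soft k K M (fun c => g (f c)) := by
  intro S hS
  have h1 : Fb (fun c => g (f c)) K S = {c | c ∈ K ∧ f c ∈ Fb g L S} := by
    ext c
    constructor
    · rintro ⟨h2, h3⟩
      exact ⟨h2, hf.map c h2, h3⟩
    · rintro ⟨h2, _, h3⟩
      exact ⟨h2, h3⟩
  rw [h1]
  exact soft_pre hK hL hf hs (Fb g L S) (cx_fb hL hg S).clo (fun c hc => hc.1) (ht S hS)

end MNG
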