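import Pool.Agent.MNG.T1b
import Pool.Agent.AGM.TP3
import Pool.Agent.AGE.FT1

/-!
# MNG-T5: the `k`-skeleton of a finite complex

`AGM.pushT` for the complex of elementary cubes with the same body (a cell `c` corresponds to the cube with `lo j = c j / 2` and `fr = {j | c j % 2 = 1}`, `J` with any linear order). From left to right: the ball of dimension `i ≤ k` extends in `Bo K`, push into the cells of dimension `≤ k` (values on the sphere do not change). From right to left: push the map of the sphere into the cells of dimension `≤ i`, the straight homotopy stays in the cells, extend in the skeleton.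
-/

set_option autoImplicit false

noncomputable section

namespace MNG

open AGM (Ei Bl Sp)
open Set Topology

private def t5q {J : Type} [Fintype J] (c : Cl J) : AGE.Cube J :=
  ⟨fun j => c j / 2, Finset.univ.filter (fun j => c j % 2 = 1)⟩

private theorem t5_hi {J : Type} [Fintype J] [LinearOrder J] (c : Cl J) (j : J) :
    (t5q c).hi j = c j / 2 + c j % 2 := by
  unfold AGE.Cube.hi
  by_cases h : c j % 2 = 1
  · rw [if_pos (by simp [t5q, h])]
    change c j / 2 + 1 = _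
    rw [h]
  · rw [if_neg (by simp [t5q, h])]
    change c j / 2 = _
    omega

private theorem t5_body {J : Type} [Fintype J] [LinearOrder J] (c : Cl J) :
    (t5q c).body = bo c := by
  ext x
  refine forall_congr' fun j => ?_
  rw [t5_hi]
  change (((c j / 2 : ℤ) : ℝ) ≤ x j ∧ x j ≤ ((c j / 2 + c j % 2 : ℤ) : ℝ)) ↔
    |2 * x j - (c j : ℝ)| ≤ ((c j % 2 : ℤ) : ℝ)
  have h1 : (c j : ℝ) = 2 * ((c j / 2 : ℤ) : ℝ) + ((c j % 2 : ℤ) : ℝ) := by
    exact_mod_cast (Int.mul_ediv_add_emod (c j) 2).symm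
  rw [abs_le, h1]
  push_cast
  constructor
  · rintro ⟨h2, h3⟩
    constructor <;> linarith
  · rintro ⟨h2, h3⟩
    constructor <;> linarith

private theorem t5_le {J : Type} [Fintype J] [LinearOrder J] (c d : Cl J) :
    (t5q c).Le (t5q d) ↔ Fa c d := by
  refine forall_congr' fun j => ?_
  rw [t5_hi, t5_hi]
  change (d j / 2 ≤ c j / 2 ∧ c j / 2 + c j % 2 ≤ d j / 2 + d j % 2) ↔
    (c j = d j ∨ (d j % 2 = 1 ∧ (c j = d j - 1 ∨ c j = d j + 1)))
  omega

private theorem t5_surj {J : Type} [Fintype J] [LinearOrder J] (Q : AGE.Cube J) :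
    ∃ c : Cl J, t5q c = Q := by
  refine ⟨fun j => 2 * Q.lo j + (if j ∈ Q.fr then 1 else 0), ?_⟩
  apply AGE.Cube.ext
  · funext j
    change (2 * Q.lo j + (if j ∈ Q.fr then 1 else 0)) / 2 = Q.lo j
    split_ifs <;> omega
  · ext j
    simp only [t5q, Finset.mem_filter, Finset.mem_univ, true_and]
    by_cases h : j ∈ Q.fr
    · simp only [h, if_true]
      constructor
      · intro _
        trivial
      · intro _
        omega
    · simp only [h, if_false]
      constructor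
      · intro h2
        omega
      · intro h2
        exact h2.elim

private theorem t5_Body {J : Type} [Fintype J] [LinearOrder J] (K : Set (Cl J)) :
    AGE.Body (t5q '' K) = Bo K := by
  ext x
  constructor
  · rintro ⟨Q, ⟨c, hc, rfl⟩, hx⟩
    exact ⟨c, hc, by rw [← t5_body]; exact hx⟩
  · rintro ⟨c, hc, hx⟩
    exact ⟨t5q c, ⟨c, hc, rfl⟩, by rw [t5_body]; exact hx⟩

private theorem t5_Closed {J : Type} [Fintype J] [LinearOrder J] {K : Set (Cl J)} (hK : Clo K) :
    AGE.Closed (t5q '' K) := by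
  rintro P ⟨c, hc, rfl⟩ Q hQ
  obtain ⟨d, rfl⟩ := t5_surj Q
  exact ⟨d, hK c hc d ((t5_le d c).1 hQ), rfl⟩

private theorem t5_push {J : Type} [Fintype J] {k : ℕ} {K : Set (Cl J)} (hK : Cx K) {i : ℕ}
    (hi : i ≤ k) (Z : Set (Ei i)) (hZ : IsCompact Z) (Φ : Ei i → J → ℝ) (hΦ : ContinuousOn Φ Z)
    (hm : MapsTo Φ Z (Bo K)) :
    ∃ Φ' : Ei i → J → ℝ, ContinuousOn Φ' Z ∧ MapsTo Φ' Z (Bo (sk k K)) ∧
      (∀ z ∈ Z, Φ z ∈ Bo (sk k K) → Φ' z = Φ z) ∧
      ∀ z ∈ Z, ∀ c ∈ K, Φ z ∈ bo c → Φ' z ∈ bo c := by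
  let _ : LinearOrder J := LinearOrder.lift' (Fintype.equivFin J) (Fintype.equivFin J).injective
  have hs : Clo (sk k K) := (cx_sk hK).clo
  obtain ⟨Φ', h1, h2, h3, h4⟩ := AGM.pushT i Z hZ (t5q '' K) (t5q '' (sk k K)) (hK.fin.image _)
    (t5_Closed hK.clo) (t5_Closed hs) (image_mono fun c hc => hc.1)
    (by
      rintro Q ⟨c, hc, rfl⟩ hd
      exact ⟨c, ⟨hc, le_trans hd hi⟩, rfl⟩) Φ hΦ (by rw [t5_Body]; exact hm)
  rw [t5_Body] at h2
  refine ⟨Φ', h1, h2, fun z hz hb => h3 z hz (by rw [t5_Body]; exact hb), fun z hz c hc hb => ?_⟩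
  have h5 := h4 z hz (t5q c) ⟨c, hc, rfl⟩ (by rw [t5_body]; exact hb)
  rw [t5_body] at h5
  exact h5

private theorem t5_sub {J : Type} [Fintype J] {k : ℕ} {K : Set (Cl J)} :
    Bo (sk k K) ⊆ Bo K := by
  rintro x ⟨c, hc, hx⟩
  exact ⟨c, hc.1, hx⟩

theorem skel {J : Type} [Fintype J] {k : ℕ} {K : Set (Cl J)} (hK : Cx K) :
    Cs k (Bo K) ↔ Cs k (Bo (sk k K)) := by
  constructor
  · rintro ⟨⟨x, c, hc, hx⟩, h⟩
    refine ⟨?_, ?_⟩
    · refine ⟨_, fun j => 2 * (c j / 2), ⟨hK.clo c hc _ fun j => ?_, ?_⟩, bo_center _⟩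
      · change 2 * (c j / 2) = c j ∨ (c j % 2 = 1 ∧ (2 * (c j / 2) = c j - 1 ∨
          2 * (c j / 2) = c j + 1))
        omega
      · have h0 : dm (fun j => 2 * (c j / 2)) = 0 := by
          unfold dm
          rw [Finset.card_eq_zero, Finset.filter_eq_empty_iff]
          intro j _ h1
          have h2 : (2 * (c j / 2)) % 2 = 1 := h1
          omega
        rw [h0]
        exact Nat.zero_le k
    · intro i hi hik φ hφ hm
      obtain ⟨Φ, c1, c2, c3⟩ := h i hi hik φ hφ (fun z hz => t5_sub (hm hz))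
      obtain ⟨Φ', d1, d2, d3, -⟩ := t5_push hK hik (Bl i) (isCompact_closedBall 0 1) Φ c1 c2
      refine ⟨Φ', d1, d2, fun z hz => ?_⟩
      have hz' : z ∈ Bl i := Metric.sphere_subset_closedBall hz
      rw [d3 z hz' (by rw [c3 hz]; exact hm hz), c3 hz]
  · rintro ⟨hn, h⟩
    refine ⟨hn.mono t5_sub, ?_⟩
    intro i hi hik φ hφ hm
    obtain ⟨φ', d1, d2, -, d4⟩ := t5_push hK hik (Sp i) (isCompact_sphere 0 1) φ hφ hm
    obtain ⟨Φ, c1, c2, c3⟩ := h i hi hik φ' d1 d2
    have hH : ContinuousOn (fun q : ℝ × Ei i => (1 - q.1) • φ q.2 + q.1 • φ' q.2)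
        (Icc (0 : ℝ) 1 ×ˢ Metric.sphere (0 : Ei i) 1) := by
      have hm2 : MapsTo (fun q : ℝ × Ei i => q.2) (Icc (0 : ℝ) 1 ×ˢ Metric.sphere (0 : Ei i) 1)
          (Sp i) := fun q hq => hq.2
      exact ((continuousOn_const.sub continuous_fst.continuousOn).smul
        (hφ.comp continuous_snd.continuousOn hm2)).add
        (continuous_fst.continuousOn.smul (d1.comp continuous_snd.continuousOn hm2))
    obtain ⟨U, u1, u2, u3⟩ := AGE.hep (Bo K) (0 : Ei i) 1 one_pos
      (fun s z => (1 - s) • φ z + s • φ' z) hH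
      (fun s hs z hz => by
        obtain ⟨c, hc, hzc⟩ := hm hz
        exact ⟨c, hc, bo_convex c hzc (d4 z hz c hc hzc) (by linarith [hs.2]) hs.1 (by ring)⟩)
      Φ c1 (fun x hx => t5_sub (c2 hx))
      (fun x hx => by
        rw [c3 hx]
        simp)
    refine ⟨U, u1, fun x hx => u2 x hx, fun x hx => ?_⟩
    rw [u3 x hx]
    simp

/-- the restriction of a soft map to the skeleta -/
theorem soft_sk {J V : Type} [Fintype J] [Fintype V] {k : ℕ} {K : Set (Cl J)} {T : Set (Cl V)}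
    (hK : Cx K) {f : Cl J → Cl V} (hf : Cub K T f) (hs : Soft k K T f) :
    Cub (sk k K) (sk k T) f ∧ Soft k (sk k K) (sk k T) f := by
  refine ⟨⟨⟨fun c hc => ⟨hf.map c hc.1, le_trans (hf.dim c hc.1) hc.2⟩,
    fun c hc d hd => hf.mono c hc.1 d hd⟩, fun c hc => hf.dim c hc.1⟩, fun S hS => ?_⟩
  have h1 : Fb f (sk k K) S = sk k (Fb f K S) := by
    ext c
    constructor
    · rintro ⟨⟨h2, h3⟩, h4⟩
      exact ⟨⟨h2, h4⟩, h3⟩
    · rintro ⟨⟨h2, h4⟩, h3⟩
      exact ⟨⟨h2, h3⟩, h4⟩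
  rw [h1]
  exact (skel (cx_fb hK hf.toMon S)).1 (hs S hS.1)

end MNG
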