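import Pool.Agent.MNG.A1
import Pool.Agent.MNG.C2
import Pool.Agent.MNG.T1b
import Pool.Agent.MNG.T4
import Pool.Agent.MNG.T5

/-!
# MNG-A2: products, isomorphisms, soft maps: elementary lemmas

`mk c d = Sum.elim c d` (file C2). `Fb fs (Px K L) S = Px (Fc S) L`; the fibre of a product map
over `S` is `Px (Fb f K (fs S)) (Fb g L (sn S))`; the fibre of an isomorphism over `S` is
`Fc (g S)` (`cs_fc`). `cs_in`: `In N = Bx 0 N` is an interval (`Bo_bx`, `cs_convex`).
-/

set_option autoImplicit false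

noncomputable section

namespace MNG

open AGM (Ei Bl Sp)
open Set Topology

variable {J V W U : Type} [Fintype J] [Fintype V] [Fintype W] [Fintype U] {k : ℕ}

theorem mk_eta (z : Cl (J ⊕ V)) : mk (fs z) (sn z) = z := by
  funext j
  rcases j with j | j
  · rfl
  · rfl

theorem fa_px {z z' : Cl (J ⊕ V)} : Fa z z' ↔ Fa (fs z) (fs z') ∧ Fa (sn z) (sn z') :=
  ⟨fun h => ⟨fun j => h (Sum.inl j), fun j => h (Sum.inr j)⟩, fun h j => by
    rcases j with j | j
    · exact h.1 j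
    · exact h.2 j⟩

theorem fa_unit {c d : Cl Unit} : Fa c d ↔ fc (c ()) (d ()) :=
  ⟨fun h => h (), fun h j => by
    cases j
    exact h⟩

theorem dm_px (z : Cl (J ⊕ V)) : dm z = dm (fs z) + dm (sn z) := by
  unfold dm
  rw [Finset.card_filter, Finset.card_filter, Finset.card_filter, Fintype.sum_sum_type]
  rfl

theorem dm_unit (c : Cl Unit) : dm c = if c () % 2 = 1 then 1 else 0 := by
  unfold dm
  split_ifs with h
  · rw [Finset.filter_true_of_mem (fun x _ => by cases x; exact h)]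
    rfl
  · rw [Finset.filter_false_of_mem (fun x _ => by cases x; exact h)]
    rfl

theorem mon_comp {K : Set (Cl J)} {L : Set (Cl V)} {M : Set (Cl W)} {f : Cl J → Cl V}
    {g : Cl V → Cl W} (hf : Mon K L f) (hg : Mon L M g) : Mon K M (fun c => g (f c)) :=
  ⟨fun c hc => hg.map _ (hf.map c hc),
    fun c hc d hd => hg.mono _ (hf.map c hc) _ (hf.mono c hc d hd)⟩

theorem cub_comp {K : Set (Cl J)} {L : Set (Cl V)} {M : Set (Cl W)} {f : Cl J → Cl V}
    {g : Cl V → Cl W} (hf : Cub K L f) (hg : Cub L M g) : Cub K M (fun c => g (f c)) :=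
  ⟨⟨fun c hc => hg.map _ (hf.map c hc),
    fun c hc d hd => hg.mono _ (hf.map c hc) _ (hf.mono c hc d hd)⟩,
    fun c hc => (hg.dim _ (hf.map c hc)).trans (hf.dim c hc)⟩

theorem cub_fs (K : Set (Cl J)) (L : Set (Cl V)) : Cub (Px K L) K fs :=
  ⟨⟨fun _ hc => hc.1, fun _ _ _ hd => (fa_px.1 hd).1⟩, fun c _ => by
    rw [dm_px c]
    exact Nat.le_add_right _ _⟩

theorem cs_in (N : ℕ) : Cs k (Bo (In N)) := by
  have e : (In N : Set (Cl Unit)) = Bx (fun _ => 0) (fun _ => (N : ℤ)) := by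
    ext c
    constructor
    · rintro ⟨h1, h2⟩ j
      cases j
      exact ⟨by simpa using h1, h2⟩
    · intro h
      exact ⟨by simpa using (h ()).1, (h ()).2⟩
  rw [e, Bo_bx _ _ (fun _ => Int.natCast_nonneg N)]
  apply cs_convex
  · intro x hx y hy a b ha hb hab j
    have h1 := hx j
    have h2 := hy j
    have h3 : (a • x + b • y) j = a * x j + b * y j := rfl
    rw [h3]
    constructor
    · have h4 : a * (((0 : ℤ) : ℝ)) + b * (((0 : ℤ) : ℝ)) = ((0 : ℤ) : ℝ) := by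
        rw [← add_mul, hab, one_mul]
      rw [← h4]
      exact add_le_add (mul_le_mul_of_nonneg_left h1.1 ha) (mul_le_mul_of_nonneg_left h2.1 hb)
    · have h4 : a * (((N : ℤ) : ℝ)) + b * (((N : ℤ) : ℝ)) = ((N : ℤ) : ℝ) := by
        rw [← add_mul, hab, one_mul]
      rw [← h4]
      exact add_le_add (mul_le_mul_of_nonneg_left h1.2 ha) (mul_le_mul_of_nonneg_left h2.2 hb)
  · refine ⟨fun _ => 0, fun j => ⟨?_, ?_⟩⟩
    · simp
    · simp

theorem soft_fs {K : Set (Cl J)} {L : Set (Cl V)} (hK : Clo K) (hL : Cs k (Bo L)) :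
    Soft k (Px K L) K fs := by
  intro S hS
  have e : Fb fs (Px K L) S = Px (Fc S) L := by
    ext c
    constructor
    · rintro ⟨h1, h2⟩
      exact ⟨h2, h1.2⟩
    · rintro ⟨h1, h2⟩
      exact ⟨⟨hK S hS _ h1, h2⟩, h1⟩
  rw [e]
  exact cs_px (cs_fc k S) hL

theorem soft_prod {K : Set (Cl J)} {L : Set (Cl V)} {K' : Set (Cl W)} {L' : Set (Cl U)}
    {f : Cl J → Cl W} {g : Cl V → Cl U} (hf : Cub K K' f) (hg : Cub L L' g)
    (sf : Soft k K K' f) (sg : Soft k L L' g) :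
    Cub (Px K L) (Px K' L') (fun z => mk (f (fs z)) (g (sn z))) ∧
      Soft k (Px K L) (Px K' L') (fun z => mk (f (fs z)) (g (sn z))) := by
  refine ⟨⟨⟨fun c hc => ⟨hf.map _ hc.1, hg.map _ hc.2⟩, fun c hc d hd => ?_⟩, fun c hc => ?_⟩,
    fun S hS => ?_⟩
  · have h := fa_px.1 hd
    exact fa_px.2 ⟨hf.mono _ hc.1 _ h.1, hg.mono _ hc.2 _ h.2⟩
  · have h1 : dm (mk (f (fs c)) (g (sn c))) = dm (f (fs c)) + dm (g (sn c)) := dm_px _
    have h2 := hf.dim _ hc.1
    have h3 := hg.dim _ hc.2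
    have h4 := dm_px c
    show dm (mk (f (fs c)) (g (sn c))) ≤ dm c
    omega
  · have e : Fb (fun z => mk (f (fs z)) (g (sn z))) (Px K L) S =
        Px (Fb f K (fs S)) (Fb g L (sn S)) := by
      ext c
      constructor
      · rintro ⟨h1, h2⟩
        have h3 := fa_px.1 h2
        exact ⟨⟨h1.1, h3.1⟩, ⟨h1.2, h3.2⟩⟩
      · rintro ⟨h1, h2⟩
        exact ⟨⟨h1.1, h2.1⟩, fa_px.2 ⟨h1.2, h2.2⟩⟩
    rw [e]
    exact cs_px (sf _ hS.1) (sg _ hS.2)

theorem soft_iso {K : Set (Cl J)} {L : Set (Cl V)} {f : Cl J → Cl V} {g : Cl V → Cl J}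
    (hf : Mon K L f) (hg : Mon L K g) (hgf : ∀ c ∈ K, g (f c) = c) (hfg : ∀ d ∈ L, f (g d) = d) :
    Soft k K L f := by
  intro S hS
  have e : Bo (Fb f K S) = Bo (Fc (g S)) := by
    rw [Bo_fc]
    ext x
    constructor
    · rintro ⟨c, ⟨h1, h2⟩, h3⟩
      have h4 := hg.mono S hS _ h2
      rw [hgf c h1] at h4
      exact bo_mono h4 h3
    · intro hx
      refine ⟨g S, ⟨hg.map S hS, ?_⟩, hx⟩
      rw [hfg S hS]
      exact fa_refl S
  rw [e]
  exact cs_fc k (g S)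

/-- the faces of a cell are a cell up to isomorphism; a Clo set of cells whose body is convex -/
theorem cs_one {K : Set (Cl J)} {S : Cl J} (h : K = Fc S) : Cs k (Bo K) := by
  rw [h]
  exact cs_fc k S

end MNG
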