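import Pool.Agent.MNG.A1
import Pool.Agent.MNG.T1b

/-!
# MNG-A3: carriers of points, coordinatewise

`cr x j = ⌊x j⌋ + ⌈x j⌉`; the continuous rounding `st` of the 8-grid and the coordinatewise homotopy `sh` from the
identity to `8 st`; it does not leave the closed cells given by `rd` and `ca 8`.
-/

set_option autoImplicit false

noncomputable section

namespace MNG

open AGM (Ei Bl Sp)
open Set Topology

variable {J V : Type}

theorem cr_fl (x : J → ℝ) (j : J) : cr x j = ⌊x j⌋ + ⌈x j⌉ := by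
  have e : cr x j = if |x j - round (x j)| ≤ 0 / 2 then 2 * round (x j) else 2 * ⌊x j⌋ + 1 := rfl
  rw [e]
  by_cases h : |x j - round (x j)| ≤ 0 / 2
  · rw [if_pos h]
    rw [zero_div, abs_nonpos_iff, sub_eq_zero] at h
    have h1 : ⌊x j⌋ = round (x j) := by
      conv_lhs => rw [h]
      exact Int.floor_intCast _
    have h2 : ⌈x j⌉ = round (x j) := by
      conv_lhs => rw [h]
      exact Int.ceil_intCast _
    rw [h1, h2]
    ring
  · rw [if_neg h]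
    have h1 : ((⌊x j⌋ : ℤ) : ℝ) < x j := by
      rcases lt_or_eq_of_le (Int.floor_le (x j)) with h1 | h1
      · exact h1
      · exfalso
        apply h
        rw [zero_div, abs_nonpos_iff, sub_eq_zero]
        have h2 : round (x j) = ⌊x j⌋ := by
          conv_lhs => rw [← h1]
          exact round_intCast _
        rw [h2, h1]
    have h3 : ⌈x j⌉ = ⌊x j⌋ + 1 := by
      rw [Int.ceil_eq_iff]
      push_cast
      exact ⟨by linarith, (Int.lt_floor_add_one (x j)).le⟩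
    rw [h3]
    ring

private theorem a3_le (x : ℝ) (n : ℤ) : 2 * n ≤ ⌊x⌋ + ⌈x⌉ ↔ (n : ℝ) ≤ x := by
  constructor
  · intro h
    by_contra hc
    have h1 : ⌊x⌋ < n := Int.floor_lt.2 (not_le.1 hc)
    have h2 : ⌈x⌉ ≤ n := Int.ceil_le.2 (not_le.1 hc).le
    omega
  · intro h
    have h1 : n ≤ ⌊x⌋ := Int.le_floor.2 h
    have h2 := Int.floor_le_ceil x
    omega

private theorem a3_ge (x : ℝ) (n : ℤ) : ⌊x⌋ + ⌈x⌉ ≤ 2 * n ↔ x ≤ (n : ℝ) := by
  constructor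
  · intro h
    by_contra hc
    have h1 : n < ⌈x⌉ := Int.lt_ceil.2 (not_le.1 hc)
    have h2 : n ≤ ⌊x⌋ := Int.le_floor.2 (not_le.1 hc).le
    omega
  · intro h
    have h1 : ⌈x⌉ ≤ n := Int.ceil_le.2 h
    have h2 := Int.floor_le_ceil x
    omega

theorem le_cr (x : J → ℝ) (j : J) (n : ℤ) : 2 * n ≤ cr x j ↔ (n : ℝ) ≤ x j := by
  rw [cr_fl]
  exact a3_le _ _

theorem cr_le (x : J → ℝ) (j : J) (n : ℤ) : cr x j ≤ 2 * n ↔ x j ≤ (n : ℝ) := by
  rw [cr_fl]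
  exact a3_ge _ _

/-- the continuous rounding -/
def st (x : ℝ) : ℝ := (⌊x / 8⌋ : ℝ) + max 0 (min 1 (x - 8 * (⌊x / 8⌋ : ℝ) - 3))

theorem st_cont : Continuous st := by
  have h1 : ContinuousOn (fun s : ℝ => max 0 (min 1 (8 * s - 3)) - s) (Icc 0 1) := by
    apply Continuous.continuousOn
    fun_prop
  have h2 := (ContinuousOn.comp_fract'' h1 (by norm_num)).comp (continuous_id.div_const (8 : ℝ))
  have h3 := h2.add (continuous_id.div_const (8 : ℝ))
  have h4 : st = fun x : ℝ => ((fun s : ℝ => max 0 (min 1 (8 * s - 3)) - s) ∘ Int.fract)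
      (x / 8) + x / 8 := by
    funext x
    change (⌊x / 8⌋ : ℝ) + max 0 (min 1 (x - 8 * (⌊x / 8⌋ : ℝ) - 3)) =
      max 0 (min 1 (8 * Int.fract (x / 8) - 3)) - Int.fract (x / 8) + x / 8
    have h5 : Int.fract (x / 8) = x / 8 - ⌊x / 8⌋ := rfl
    have h6 : 8 * Int.fract (x / 8) - 3 = x - 8 * (⌊x / 8⌋ : ℝ) - 3 := by
      rw [h5]
      ring
    rw [h6, h5]
    ring
  rw [h4]
  exact h3

private theorem a3_cases (x : ℝ) : ∃ m : ℤ, (8 * (m : ℝ) ≤ x ∧ x ≤ 8 * m + 3 ∧ st x = m) ∨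
    (8 * (m : ℝ) + 3 < x ∧ x < 8 * m + 4 ∧ st x = x - 7 * m - 3) ∨
    (8 * (m : ℝ) + 4 ≤ x ∧ x < 8 * m + 8 ∧ st x = m + 1) := by
  refine ⟨⌊x / 8⌋, ?_⟩
  have h1 := Int.floor_le (x / 8)
  have h2 := Int.lt_floor_add_one (x / 8)
  have h3 : st x = (⌊x / 8⌋ : ℝ) + max 0 (min 1 (x - 8 * (⌊x / 8⌋ : ℝ) - 3)) := rfl
  rcases le_or_gt x (8 * (⌊x / 8⌋ : ℝ) + 3) with h4 | h4
  · left
    refine ⟨by linarith, h4, ?_⟩
    rw [h3, max_eq_left ((min_le_right _ _).trans (by linarith)), add_zero]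
  · right
    rcases lt_or_ge x (8 * (⌊x / 8⌋ : ℝ) + 4) with h5 | h5
    · left
      refine ⟨h4, h5, ?_⟩
      rw [h3, min_eq_right (by linarith), max_eq_right (by linarith)]
      ring
    · right
      refine ⟨h5, by linarith, ?_⟩
      rw [h3, min_eq_left (by linarith), max_eq_right zero_le_one]

/-- the coordinatewise homotopy -/
def sh (t : ℝ) (x : J → ℝ) : J → ℝ := fun j => (1 - t) * x j + t * (8 * st (x j))

theorem sh_cont : Continuous (fun z : ℝ × (J → ℝ) => sh z.1 z.2) := by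
  refine continuous_pi fun j => ?_
  change Continuous fun z : ℝ × (J → ℝ) => (1 - z.1) * z.2 j + z.1 * (8 * st (z.2 j))
  have h1 : Continuous fun z : ℝ × (J → ℝ) => z.2 j := (continuous_apply j).comp continuous_snd
  have h2 : Continuous fun z : ℝ × (J → ℝ) => st (z.2 j) := st_cont.comp h1
  exact ((continuous_const.sub continuous_fst).mul h1).add
    (continuous_fst.mul (continuous_const.mul h2))

private theorem a3_sh {t : ℝ} (h0 : 0 ≤ t) (h1 : t ≤ 1) (x : ℝ) :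
    fc (rd1 (⌊(1 - t) * x + t * (8 * st x)⌋ + ⌈(1 - t) * x + t * (8 * st x)⌉))
      (rd1 (⌊x⌋ + ⌈x⌉)) ∧
    fc (ca1 8 (⌊(1 - t) * x + t * (8 * st x)⌋ + ⌈(1 - t) * x + t * (8 * st x)⌉))
      (ca1 8 (⌊x⌋ + ⌈x⌉)) := by
  obtain ⟨m, h | h | h⟩ := a3_cases x
  · obtain ⟨h2, h3, h4⟩ := h
    rw [h4]
    have h5 : ((8 * m : ℤ) : ℝ) ≤ (1 - t) * x + t * (8 * m) := by
      push_cast
      nlinarith
    have h6 : (1 - t) * x + t * (8 * m) ≤ x := by nlinarith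
    have a1 := (a3_le x (8 * m)).2 (by push_cast; exact h2)
    have a2 := (a3_ge x (8 * m + 3)).2 (by push_cast; exact h3)
    have b1 := (a3_le ((1 - t) * x + t * (8 * m)) (8 * m)).2 h5
    have b2 := (a3_ge ((1 - t) * x + t * (8 * m)) (8 * m + 3)).2 (by push_cast; linarith)
    have c1 : ⌊(1 - t) * x + t * (8 * m)⌋ + ⌈(1 - t) * x + t * (8 * m)⌉ ≤ ⌊x⌋ + ⌈x⌉ :=
      add_le_add (Int.floor_le_floor h6) (Int.ceil_le_ceil h6)
    rw [ca1_eq, ca1_eq]
    unfold fc rd1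
    constructor
    · split_ifs <;> omega
    · split_ifs <;> omega
  · obtain ⟨h2, h3, h4⟩ := h
    rw [h4]
    have h5 : 8 * (m : ℝ) < (1 - t) * x + t * (8 * (x - 7 * m - 3)) := by
      nlinarith
    have h6 : (1 - t) * x + t * (8 * (x - 7 * m - 3)) < 8 * m + 8 := by nlinarith
    have a1 : ¬ ⌊x⌋ + ⌈x⌉ ≤ 2 * (8 * m + 3) := by
      rw [a3_ge]
      push_cast
      exact not_le.2 h2
    have a2 : ¬ 2 * (8 * m + 4) ≤ ⌊x⌋ + ⌈x⌉ := by
      rw [a3_le]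
      push_cast
      exact not_le.2 h3
    have b1 : ¬ ⌊(1 - t) * x + t * (8 * (x - 7 * m - 3))⌋ +
        ⌈(1 - t) * x + t * (8 * (x - 7 * m - 3))⌉ ≤ 2 * (8 * m) := by
      rw [a3_ge]
      push_cast
      exact not_le.2 h5
    have b2 : ¬ 2 * (8 * m + 8) ≤ ⌊(1 - t) * x + t * (8 * (x - 7 * m - 3))⌋ +
        ⌈(1 - t) * x + t * (8 * (x - 7 * m - 3))⌉ := by
      rw [a3_le]
      push_cast
      exact not_le.2 h6
    rw [ca1_eq, ca1_eq]
    unfold fc rd1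
    constructor
    · split_ifs <;> omega
    · split_ifs <;> omega
  · obtain ⟨h2, h3, h4⟩ := h
    rw [h4]
    have h5 : x ≤ (1 - t) * x + t * (8 * (m + 1)) := by
      nlinarith
    have h6 : (1 - t) * x + t * (8 * (m + 1)) ≤ 8 * m + 8 := by nlinarith
    have a1 := (a3_le x (8 * m + 4)).2 (by push_cast; exact h2)
    have a2 : ¬ 2 * (8 * m + 8) ≤ ⌊x⌋ + ⌈x⌉ := by
      rw [a3_le]
      push_cast
      exact not_le.2 h3
    have b2 := (a3_ge ((1 - t) * x + t * (8 * (m + 1))) (8 * m + 8)).2 (by push_cast; exact h6)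
    have c1 : ⌊x⌋ + ⌈x⌉ ≤ ⌊(1 - t) * x + t * (8 * (m + 1))⌋ + ⌈(1 - t) * x + t * (8 * (m + 1))⌉ :=
      add_le_add (Int.floor_le_floor h5) (Int.ceil_le_ceil h5)
    rw [ca1_eq, ca1_eq]
    unfold fc rd1
    constructor
    · split_ifs <;> omega
    · split_ifs <;> omega

theorem sh_rd {t : ℝ} (h0 : 0 ≤ t) (h1 : t ≤ 1) (x : J → ℝ) : Fa (rd (cr (sh t x))) (rd (cr x)) := by
  intro j
  have h := (a3_sh h0 h1 (x j)).1
  rw [rd, rd, cr_fl, cr_fl]
  exact h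

theorem sh_ca {t : ℝ} (h0 : 0 ≤ t) (h1 : t ≤ 1) (x : J → ℝ) :
    Fa (ca 8 (cr (sh t x))) (ca 8 (cr x)) := by
  intro j
  have h := (a3_sh h0 h1 (x j)).2
  rw [ca, ca, cr_fl, cr_fl]
  exact h

/-- the carrier of the end -/
theorem st_cr (x : J → ℝ) : cr (fun j => st (x j)) = rd (cr x) := by
  funext j
  rw [rd, cr_fl, cr_fl]
  obtain ⟨m, h | h | h⟩ := a3_cases (x j)
  · obtain ⟨h2, h3, h4⟩ := h
    rw [h4, Int.floor_intCast, Int.ceil_intCast]
    have a1 := (a3_le (x j) (8 * m)).2 (by push_cast; exact h2)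
    have a2 := (a3_ge (x j) (8 * m + 3)).2 (by push_cast; exact h3)
    unfold rd1
    split_ifs <;> omega
  · obtain ⟨h2, h3, h4⟩ := h
    have a1 : ¬ ⌊x j⌋ + ⌈x j⌉ ≤ 2 * (8 * m + 3) := by
      rw [a3_ge]
      push_cast
      exact not_le.2 h2
    have a2 : ¬ 2 * (8 * m + 4) ≤ ⌊x j⌋ + ⌈x j⌉ := by
      rw [a3_le]
      push_cast
      exact not_le.2 h3
    have b1 : ¬ ⌊st (x j)⌋ + ⌈st (x j)⌉ ≤ 2 * m := by
      rw [a3_ge, h4]
      exact not_le.2 (by linarith)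
    have b2 : ¬ 2 * (m + 1) ≤ ⌊st (x j)⌋ + ⌈st (x j)⌉ := by
      rw [a3_le, h4]
      push_cast
      exact not_le.2 (by linarith)
    unfold rd1
    split_ifs <;> omega
  · obtain ⟨h2, h3, h4⟩ := h
    have h5 : ((m : ℝ) + 1) = ((m + 1 : ℤ) : ℝ) := by push_cast; rfl
    rw [h4, h5, Int.floor_intCast, Int.ceil_intCast]
    have a1 := (a3_le (x j) (8 * m + 4)).2 (by push_cast; exact h2)
    have a2 : ¬ 2 * (8 * m + 8) ≤ ⌊x j⌋ + ⌈x j⌉ := by
      rw [a3_le]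
      push_cast
      exact not_le.2 h3
    unfold rd1
    split_ifs <;> omega

end MNG
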