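import Pool.Agent.MNG.C2

/-!
# MNG-C4: subdivision of expansions

First the subdivision of ONE coordinate `i` (`c4_g`): every constructor of `Ex` is subdivided with `ex_map` or
`ex_pairs`, the parameter running through the fine cells of a coarse cell of the line (`c4_one`, `c4_all`: the
expansions of the line). Then `Gr R K` is obtained by subdividing all coordinates one after the other.
-/

set_option autoImplicit false

noncomputable section

namespace MNG

open Set

variable {J V W : Type} [Fintype J] [Fintype V] [Fintype W]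

/-! ## one coordinate -/

private theorem c4_lt {R : ℕ} (hR : 1 ≤ R) {a b : ℤ} (h : 2 * (R : ℤ) * a < 2 * (R : ℤ) * b) : a < b := by
  have h0 : (0 : ℤ) < 2 * (R : ℤ) := by
    have : (1 : ℤ) ≤ (R : ℤ) := by exact_mod_cast hR
    linarith
  exact lt_of_mul_lt_mul_left h h0.le

private theorem c4_le {R : ℕ} {a b : ℤ} (h : a ≤ b) : 2 * (R : ℤ) * a ≤ 2 * (R : ℤ) * b :=
  mul_le_mul_of_nonneg_left h (by positivity)

private theorem c4_even {R : ℕ} (hR : 1 ≤ R) (k : ℤ) : ca1 R (2 * (R : ℤ) * k) = 2 * k := by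
  have h0 : (R : ℤ) ≠ 0 := by
    have : (1 : ℤ) ≤ (R : ℤ) := by exact_mod_cast hR
    linarith
  unfold ca1
  rw [if_pos (dvd_mul_right _ _)]
  have h1 : 2 * (R : ℤ) * k = (R : ℤ) * (2 * k) := by ring
  rw [h1, Int.mul_ediv_cancel_left _ h0]

private theorem c4_odd {R : ℕ} (hR : 1 ≤ R) {z n : ℤ} (h : 2 * (R : ℤ) * n < z)
    (h' : z < 2 * (R : ℤ) * (n + 1)) : ca1 R z = 2 * n + 1 := by
  have hR' : (1 : ℤ) ≤ (R : ℤ) := by exact_mod_cast hR
  have h0 : (0 : ℤ) < 2 * (R : ℤ) := by linarith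
  unfold ca1
  rw [if_neg]
  · have h1 : z / (2 * (R : ℤ)) = n := by
      refine le_antisymm ?_ ?_
      · exact Int.lt_add_one_iff.1 (Int.ediv_lt_of_lt_mul h0 (by linarith [mul_comm (n + 1) (2 * (R : ℤ))]))
      · exact Int.le_ediv_of_mul_le h0 (by linarith [mul_comm n (2 * (R : ℤ))])
    rw [h1]
  · rintro ⟨k, hk⟩
    rw [hk] at h h'
    have h1 := c4_lt hR h
    have h2 := c4_lt hR h'
    omega

private theorem c4_cases {R : ℕ} (hR : 1 ≤ R) (z : ℤ) :
    (∃ k, z = 2 * (R : ℤ) * k ∧ ca1 R z = 2 * k) ∨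
      ∃ n, 2 * (R : ℤ) * n < z ∧ z < 2 * (R : ℤ) * (n + 1) ∧ ca1 R z = 2 * n + 1 := by
  have hR' : (1 : ℤ) ≤ (R : ℤ) := by exact_mod_cast hR
  have h0 : (0 : ℤ) < 2 * (R : ℤ) := by linarith
  by_cases h : 2 * (R : ℤ) ∣ z
  · obtain ⟨k, rfl⟩ := h
    exact Or.inl ⟨k, rfl, c4_even hR k⟩
  · right
    have h1 := Int.emod_add_mul_ediv z (2 * (R : ℤ))
    have h2 := Int.emod_nonneg z h0.ne'
    have h3 := Int.emod_lt_of_pos z h0
    have h4 : z % (2 * (R : ℤ)) ≠ 0 := fun h5 => h (Int.dvd_of_emod_eq_zero h5)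
    have h5 : 0 < z % (2 * (R : ℤ)) := lt_of_le_of_ne h2 (Ne.symm h4)
    have h6 : 2 * (R : ℤ) * (z / (2 * (R : ℤ))) < z := by linarith
    have h7 : z < 2 * (R : ℤ) * (z / (2 * (R : ℤ)) + 1) := by
      rw [mul_add, mul_one]
      linarith
    exact ⟨_, h6, h7, c4_odd hR h6 h7⟩

theorem ca1_fc {R : ℕ} (hR : 1 ≤ R) {a b : ℤ} (h : fc a b) : fc (ca1 R a) (ca1 R b) := by
  rcases h with rfl | ⟨hb, h⟩
  · exact Or.inl rfl
  rcases c4_cases hR b with ⟨k, hk, -⟩ | ⟨n, h1, h2, h3⟩
  · rw [mul_assoc] at hk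
    omega
  · rw [h3]
    rcases h with rfl | rfl
    · rcases eq_or_lt_of_le (show 2 * (R : ℤ) * n ≤ b - 1 by omega) with h4 | h4
      · rw [← h4, c4_even hR]
        right
        omega
      · left
        exact c4_odd hR h4 (by omega)
    · rcases eq_or_lt_of_le (show b + 1 ≤ 2 * (R : ℤ) * (n + 1) by omega) with h4 | h4
      · rw [h4, c4_even hR]
        right
        omega
      · left
        exact c4_odd hR (by omega) h4

theorem ca_fa {R : ℕ} (hR : 1 ≤ R) {a b : Cl J} (h : Fa a b) : Fa (ca R a) (ca R b) :=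
  fun j => ca1_fc hR (h j)

private theorem c4_bd {R : ℕ} (hR : 1 ≤ R) (z : ℤ) :
    (R : ℤ) * (ca1 R z - 1) ≤ z ∧ z ≤ (R : ℤ) * (ca1 R z + 1) := by
  have hR' : (1 : ℤ) ≤ (R : ℤ) := by exact_mod_cast hR
  rcases c4_cases hR z with ⟨k, h1, h2⟩ | ⟨n, h1, h2, h3⟩
  · rw [h2]
    constructor
    · have : (R : ℤ) * (2 * k - 1) = 2 * (R : ℤ) * k - R := by ring
      rw [this]
      linarith
    · have : (R : ℤ) * (2 * k + 1) = 2 * (R : ℤ) * k + R := by ring
      rw [this]
      linarith
  · rw [h3]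
    constructor
    · have : (R : ℤ) * (2 * n + 1 - 1) = 2 * (R : ℤ) * n := by ring
      rw [this]
      linarith
    · have : (R : ℤ) * (2 * n + 1 + 1) = 2 * (R : ℤ) * (n + 1) := by ring
      rw [this]
      linarith

theorem cx_gr {R : ℕ} (hR : 1 ≤ R) {K : Set (Cl J)} (hK : Cx K) : Cx (Gr R K) := by
  classical
  refine ⟨?_, fun c hc d hd => hK.clo (ca R c) hc (ca R d) (ca_fa hR hd)⟩
  have h1 : (⋃ w ∈ K, Set.Icc (fun j => (R : ℤ) * (w j - 1)) (fun j => (R : ℤ) * (w j + 1))).Finite :=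
    hK.fin.biUnion fun w _ => Set.finite_Icc _ _
  refine h1.subset fun c hc => ?_
  rw [Set.mem_iUnion₂]
  refine ⟨ca R c, hc, ?_⟩
  rw [Set.mem_Icc, Pi.le_def, Pi.le_def]
  exact ⟨fun j => (c4_bd hR (c j)).1, fun j => (c4_bd hR (c j)).2⟩

theorem clo_gr {R : ℕ} (hR : 1 ≤ R) {K : Set (Cl J)} (hK : Clo K) : Clo (Gr R K) :=
  fun c hc d hd => hK (ca R c) hc (ca R d) (ca_fa hR hd)

private theorem c4_lo {R : ℕ} (hR : 1 ≤ R) (a z : ℤ) : 2 * a ≤ ca1 R z ↔ 2 * ((R : ℤ) * a) ≤ z := by
  have e : 2 * ((R : ℤ) * a) = 2 * (R : ℤ) * a := by ring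
  rw [e]
  rcases c4_cases hR z with ⟨k, h1, h2⟩ | ⟨n, h1, h2, h3⟩
  · rw [h2, h1]
    constructor
    · intro h
      exact c4_le (by omega)
    · intro h
      by_contra h3
      rw [not_le] at h3
      have h4 : k < a := by omega
      have h5 : a = k := by
        by_contra h6
        have h7 : k + 1 ≤ a := by omega
        have h8 := c4_le (R := R) h7
        have hR' : (1 : ℤ) ≤ (R : ℤ) := by exact_mod_cast hR
        rw [mul_add, mul_one] at h8
        linarith
      omega
  · rw [h3]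
    constructor
    · intro h
      have h4 := c4_le (R := R) (show a ≤ n by omega)
      linarith
    · intro h
      have h4 : a < n + 1 := c4_lt hR (lt_of_le_of_lt h h2)
      omega

private theorem c4_hi {R : ℕ} (hR : 1 ≤ R) (b z : ℤ) : ca1 R z ≤ 2 * b ↔ z ≤ 2 * ((R : ℤ) * b) := by
  have e : 2 * ((R : ℤ) * b) = 2 * (R : ℤ) * b := by ring
  rw [e]
  rcases c4_cases hR z with ⟨k, h1, h2⟩ | ⟨n, h1, h2, h3⟩
  · rw [h2, h1]
    constructor
    · intro h
      exact c4_le (by omega)
    · intro h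
      by_contra h3
      rw [not_le] at h3
      have h7 : b + 1 ≤ k := by omega
      have h8 := c4_le (R := R) h7
      have hR' : (1 : ℤ) ≤ (R : ℤ) := by exact_mod_cast hR
      rw [mul_add, mul_one] at h8
      linarith
  · rw [h3]
    constructor
    · intro h
      have h4 := c4_le (R := R) (show n + 1 ≤ b by omega)
      linarith
    · intro h
      have h4 : n < b := c4_lt hR (lt_of_lt_of_le h1 h)
      omega

theorem gr_bx {R : ℕ} (hR : 1 ≤ R) (a b : J → ℤ) :
    Gr R (Bx a b) = Bx (fun j => R * a j) (fun j => R * b j) := by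
  ext c
  constructor
  · intro h j
    exact ⟨(c4_lo hR _ _).1 (h j).1, (c4_hi hR _ _).1 (h j).2⟩
  · intro h j
    exact ⟨(c4_lo hR _ _).2 (h j).1, (c4_hi hR _ _).2 (h j).2⟩

/-! ## expansions of the line -/

/-- the cell `z` of the line -/
private def c4_u (z : ℤ) : Cl Unit := fun _ => z

private theorem c4_ue (u : Cl Unit) : c4_u (u ()) = u := rfl

private theorem c4_inj {a b : ℤ} (h : c4_u a = c4_u b) : a = b := congrFun h ()

private theorem c4_ft {a b : ℤ} (hb : b % 2 = 1) (h : a = b - 1 ∨ a = b + 1) : Ft (c4_u a) (c4_u b) :=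
  ⟨(), hb, h, fun _ hj => absurd rfl hj⟩

private theorem c4_dm (z : ℤ) (h : z % 2 = 1) : dm (c4_u z) = 1 := by
  unfold dm c4_u
  simp [h]

/-- the interval -/
private def c4_I (a b : ℤ) : Set (Cl Unit) := {u | 2 * a ≤ u () ∧ u () ≤ 2 * b}

private theorem c4_Iclo (a b : ℤ) : Clo (c4_I a b) := by
  intro c hc d hd
  have h1 := hd ()
  have h2 : 2 * a ≤ c () ∧ c () ≤ 2 * b := hc
  show 2 * a ≤ d () ∧ d () ≤ 2 * b
  unfold fc at h1
  omega

/-- the interval is obtained from its left end by adding pairs -/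
private theorem c4_left (j : ℕ) (a : ℤ) (k : ℕ) : Ex j (c4_I a a) (c4_I a (a + k)) := by
  induction k with
  | zero =>
    rw [Nat.cast_zero, add_zero]
    exact Ex.refl
  | succ k ih =>
    have e : c4_I a (a + ((k + 1 : ℕ) : ℤ)) =
        insert (c4_u (2 * (a + k) + 2)) (insert (c4_u (2 * (a + k) + 1)) (c4_I a (a + k))) := by
      ext u
      rw [Set.mem_insert_iff, Set.mem_insert_iff]
      constructor
      · intro hu
        have h1 : 2 * a ≤ u () ∧ u () ≤ 2 * (a + ((k + 1 : ℕ) : ℤ)) := hu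
        push_cast at h1
        rcases (show u () = 2 * (a + k) + 2 ∨ u () = 2 * (a + k) + 1 ∨ u () ≤ 2 * (a + k) by omega) with h2 | h2 | h2
        · left
          rw [← h2]
          rfl
        · right
          left
          rw [← h2]
          rfl
        · right
          right
          exact ⟨h1.1, h2⟩
      · rintro (rfl | rfl | hu)
        · show 2 * a ≤ 2 * (a + k) + 2 ∧ 2 * (a + k) + 2 ≤ 2 * (a + ((k + 1 : ℕ) : ℤ))
          push_cast
          omega
        · show 2 * a ≤ 2 * (a + k) + 1 ∧ 2 * (a + k) + 1 ≤ 2 * (a + ((k + 1 : ℕ) : ℤ))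
          push_cast
          omega
        · have h1 : 2 * a ≤ u () ∧ u () ≤ 2 * (a + k) := hu
          show 2 * a ≤ u () ∧ u () ≤ 2 * (a + ((k + 1 : ℕ) : ℤ))
          push_cast
          omega
    have hc := c4_Iclo a (a + ((k + 1 : ℕ) : ℤ))
    rw [e] at hc ⊢
    refine Ex.pair _ _ _ ih ?_ ?_ (c4_ft (by omega) (by omega)) hc
    · rintro ⟨-, h1⟩
      have h2 : 2 * (a + k) + 2 ≤ 2 * (a + k) := h1
      omega
    · rintro ⟨-, h1⟩
      have h2 : 2 * (a + k) + 1 ≤ 2 * (a + k) := h1
      omega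

/-- the interval is obtained from its right end by adding pairs -/
private theorem c4_right (j : ℕ) (b : ℤ) (k : ℕ) : Ex j (c4_I b b) (c4_I (b - k) b) := by
  induction k with
  | zero =>
    rw [Nat.cast_zero, sub_zero]
    exact Ex.refl
  | succ k ih =>
    have e : c4_I (b - ((k + 1 : ℕ) : ℤ)) b =
        insert (c4_u (2 * (b - k) - 2)) (insert (c4_u (2 * (b - k) - 1)) (c4_I (b - k) b)) := by
      ext u
      rw [Set.mem_insert_iff, Set.mem_insert_iff]
      constructor
      · intro hu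
        have h1 : 2 * (b - ((k + 1 : ℕ) : ℤ)) ≤ u () ∧ u () ≤ 2 * b := hu
        push_cast at h1
        rcases (show u () = 2 * (b - k) - 2 ∨ u () = 2 * (b - k) - 1 ∨ 2 * (b - k) ≤ u () by omega) with h2 | h2 | h2
        · left
          rw [← h2]
          rfl
        · right
          left
          rw [← h2]
          rfl
        · right
          right
          exact ⟨h2, h1.2⟩
      · rintro (rfl | rfl | hu)
        · show 2 * (b - ((k + 1 : ℕ) : ℤ)) ≤ 2 * (b - k) - 2 ∧ 2 * (b - k) - 2 ≤ 2 * b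
          push_cast
          omega
        · show 2 * (b - ((k + 1 : ℕ) : ℤ)) ≤ 2 * (b - k) - 1 ∧ 2 * (b - k) - 1 ≤ 2 * b
          push_cast
          omega
        · have h1 : 2 * (b - k) ≤ u () ∧ u () ≤ 2 * b := hu
          show 2 * (b - ((k + 1 : ℕ) : ℤ)) ≤ u () ∧ u () ≤ 2 * b
          push_cast
          omega
    have hc := c4_Iclo (b - ((k + 1 : ℕ) : ℤ)) b
    rw [e] at hc ⊢
    refine Ex.pair _ _ _ ih ?_ ?_ (c4_ft (by omega) (by omega)) hc
    · rintro ⟨h1, -⟩
      have h2 : 2 * (b - k) ≤ 2 * (b - k) - 2 := h1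
      omega
    · rintro ⟨h1, -⟩
      have h2 : 2 * (b - k) ≤ 2 * (b - k) - 1 := h1
      omega

/-- the interval is obtained from its ends by adding pairs and one edge -/
private theorem c4_ends (a : ℤ) (k : ℕ) :
    Ex 1 (c4_I a a ∪ c4_I (a + (k + 1)) (a + (k + 1))) (c4_I a (a + (k + 1))) := by
  have h1 := c4_right 1 (a + (k + 1)) k
  have e1 : a + ((k : ℤ) + 1) - k = a + 1 := by ring
  rw [e1] at h1
  have hN : Clo (c4_I a a ∪ c4_I (a + (k + 1)) (a + (k + 1))) := by
    rintro c (hc | hc) d hd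
    · exact Or.inl (c4_Iclo _ _ c hc d hd)
    · exact Or.inr (c4_Iclo _ _ c hc d hd)
  have h2 := ex_exc h1 hN (c4_Iclo _ _) (by
    ext u
    constructor
    · rintro ⟨hu | hu, hu'⟩
      · have h3 : 2 * a ≤ u () ∧ u () ≤ 2 * a := hu
        have h4 : 2 * (a + 1) ≤ u () ∧ u () ≤ 2 * (a + (k + 1)) := hu'
        omega
      · exact hu
    · intro hu
      refine ⟨Or.inr hu, ?_⟩
      have h3 : 2 * (a + ((k : ℤ) + 1)) ≤ u () ∧ u () ≤ 2 * (a + (k + 1)) := hu
      show 2 * (a + 1) ≤ u () ∧ u () ≤ 2 * (a + (k + 1))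
      omega)
  have e2 : c4_I a (a + (k + 1)) = insert (c4_u (2 * a + 1))
      (c4_I a a ∪ c4_I (a + (k + 1)) (a + (k + 1)) ∪ c4_I (a + 1) (a + (k + 1))) := by
    ext u
    rw [Set.mem_insert_iff]
    constructor
    · intro hu
      have h3 : 2 * a ≤ u () ∧ u () ≤ 2 * (a + ((k : ℤ) + 1)) := hu
      rcases (show u () = 2 * a + 1 ∨ u () = 2 * a ∨ 2 * (a + 1) ≤ u () by omega) with h4 | h4 | h4
      · left
        rw [← h4]
        rfl
      · right
        left
        left
        show 2 * a ≤ u () ∧ u () ≤ 2 * a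
        omega
      · right
        right
        exact ⟨h4, h3.2⟩
    · rintro (rfl | (hu | hu) | hu)
      · show 2 * a ≤ 2 * a + 1 ∧ 2 * a + 1 ≤ 2 * (a + ((k : ℤ) + 1))
        omega
      · have h3 : 2 * a ≤ u () ∧ u () ≤ 2 * a := hu
        show 2 * a ≤ u () ∧ u () ≤ 2 * (a + ((k : ℤ) + 1))
        omega
      · have h3 : 2 * (a + ((k : ℤ) + 1)) ≤ u () ∧ u () ≤ 2 * (a + (k + 1)) := hu
        show 2 * a ≤ u () ∧ u () ≤ 2 * (a + ((k : ℤ) + 1))
        omega
      · have h3 : 2 * (a + 1) ≤ u () ∧ u () ≤ 2 * (a + ((k : ℤ) + 1)) := hu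
        show 2 * a ≤ u () ∧ u () ≤ 2 * (a + ((k : ℤ) + 1))
        omega
  have hc := c4_Iclo a (a + (k + 1))
  rw [e2] at hc ⊢
  refine Ex.cell _ _ h2 ?_ (by rw [c4_dm _ (by omega)]) hc
  rintro ((h | h) | h)
  · have h3 : 2 * a ≤ 2 * a + 1 ∧ 2 * a + 1 ≤ 2 * a := h
    omega
  · have h3 : 2 * (a + ((k : ℤ) + 1)) ≤ 2 * a + 1 ∧ 2 * a + 1 ≤ 2 * (a + (k + 1)) := h
    omega
  · have h3 : 2 * (a + 1) ≤ 2 * a + 1 ∧ 2 * a + 1 ≤ 2 * (a + ((k : ℤ) + 1)) := h
    omega

/-- the fine cells of the closed cell `y` of the line -/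
private def c4_A (R : ℕ) (y : ℤ) : Set (Cl Unit) := {u | fc (ca1 R (u ())) y}

private theorem c4_memI {R : ℕ} (hR : 1 ≤ R) (a b : ℤ) (u : Cl Unit) :
    u ∈ c4_I (R * a) (R * b) ↔ 2 * a ≤ ca1 R (u ()) ∧ ca1 R (u ()) ≤ 2 * b := by
  rw [c4_lo hR, c4_hi hR]
  exact Iff.rfl

private theorem c4_Aodd {R : ℕ} (hR : 1 ≤ R) (n : ℤ) :
    c4_A R (2 * n + 1) = c4_I (R * n) (R * n + R) := by
  have e : (R : ℤ) * n + R = R * (n + 1) := by ring
  rw [e]
  ext u
  rw [c4_memI hR]
  show fc (ca1 R (u ())) (2 * n + 1) ↔ _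
  unfold fc
  omega

private theorem c4_Aeven {R : ℕ} (hR : 1 ≤ R) (n : ℤ) :
    c4_A R (2 * n) = c4_I (R * n) (R * n) := by
  ext u
  rw [c4_memI hR]
  show fc (ca1 R (u ())) (2 * n) ↔ _
  unfold fc
  omega

private theorem c4_Aclo {R : ℕ} (hR : 1 ≤ R) (y : ℤ) : Clo (c4_A R y) := by
  rcases Int.even_or_odd' y with ⟨n, rfl | rfl⟩
  · rw [c4_Aeven hR]
    exact c4_Iclo _ _
  · rw [c4_Aodd hR]
    exact c4_Iclo _ _

private theorem c4_Ifin (a b : ℤ) : (c4_I a b).Finite := by
  refine ((Set.finite_Icc (2 * a) (2 * b)).image c4_u).subset ?_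
  intro u hu
  exact ⟨u (), ⟨hu.1, hu.2⟩, c4_ue u⟩

private theorem c4_Afin {R : ℕ} (hR : 1 ≤ R) (y : ℤ) : (c4_A R y).Finite := by
  rcases Int.even_or_odd' y with ⟨n, rfl | rfl⟩
  · rw [c4_Aeven hR]
    exact c4_Ifin _ _
  · rw [c4_Aodd hR]
    exact c4_Ifin _ _

/-- the fine cells of the boundary of the cell `y` of the line -/
private def c4_B (R : ℕ) (y : ℤ) : Set (Cl Unit) := {u | fc (ca1 R (u ())) y ∧ ca1 R (u ()) ≠ y}

private theorem c4_Bodd {R : ℕ} (hR : 1 ≤ R) (n : ℤ) :
    c4_B R (2 * n + 1) = c4_I (R * n) (R * n) ∪ c4_I (R * n + R) (R * n + R) := by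
  have e : (R : ℤ) * n + R = R * (n + 1) := by ring
  rw [e]
  ext u
  rw [Set.mem_union, c4_memI hR, c4_memI hR]
  show (fc (ca1 R (u ())) (2 * n + 1) ∧ ca1 R (u ()) ≠ 2 * n + 1) ↔ _
  unfold fc
  omega

private theorem c4_Beven {R : ℕ} (n : ℤ) : c4_B R (2 * n) = ∅ := by
  ext u
  rw [Set.mem_empty_iff_false, iff_false]
  rintro ⟨h1, h2⟩
  unfold fc at h1
  omega

private theorem c4_Bclo {R : ℕ} (hR : 1 ≤ R) (y : ℤ) : Clo (c4_B R y) := by
  rcases Int.even_or_odd' y with ⟨n, rfl | rfl⟩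
  · rw [c4_Beven]
    exact fun c hc => absurd hc (Set.notMem_empty c)
  · rw [c4_Bodd hR]
    rintro c (hc | hc) d hd
    · exact Or.inl (c4_Iclo _ _ c hc d hd)
    · exact Or.inr (c4_Iclo _ _ c hc d hd)

private theorem c4_L1 {R : ℕ} (hR : 1 ≤ R) (y : ℤ) : Ex (dm (c4_u y)) (c4_B R y) (c4_A R y) := by
  rcases Int.even_or_odd' y with ⟨n, rfl | rfl⟩
  · rw [c4_Beven, c4_Aeven hR]
    have e : c4_I (R * n) (R * n) = insert (c4_u (2 * (R * n))) ∅ := by
      ext u
      rw [Set.mem_insert_iff, Set.mem_empty_iff_false, or_false]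
      constructor
      · intro hu
        have h3 : 2 * ((R : ℤ) * n) ≤ u () ∧ u () ≤ 2 * (R * n) := hu
        rw [← c4_ue u, le_antisymm h3.2 h3.1]
      · rintro rfl
        exact ⟨le_refl _, le_refl _⟩
    have hc := c4_Iclo (R * n) (R * n)
    rw [e] at hc ⊢
    refine Ex.cell _ _ Ex.refl (Set.notMem_empty _) ?_ hc
    have h1 : dm (c4_u (2 * n)) = 0 := by
      unfold dm c4_u
      simp
    rw [h1]
    exact Nat.zero_le _
  · rw [c4_Bodd hR, c4_Aodd hR, c4_dm _ (by omega)]
    have h1 := c4_ends (R * n) (R - 1)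
    have e : (R : ℤ) * n + (((R - 1 : ℕ) : ℤ) + 1) = R * n + R := by
      rw [Nat.cast_sub hR]
      push_cast
      ring
    rw [e] at h1
    exact h1

private theorem c4_L2 {R : ℕ} (hR : 1 ≤ R) {y w : ℤ} (hy : y % 2 = 1) (hw : w = y - 1 ∨ w = y + 1) :
    Ex 2 {u | fc (ca1 R (u ())) y ∧ ca1 R (u ()) ≠ y ∧ ca1 R (u ()) ≠ w} (c4_A R y) := by
  obtain ⟨n, rfl⟩ : ∃ n, y = 2 * n + 1 := ⟨y / 2, by omega⟩
  rw [c4_Aodd hR]
  rcases hw with rfl | rfl
  · have h1 := c4_right 2 (R * n + R) R
    have e1 : (R : ℤ) * n + R - R = R * n := by ring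
    rw [e1] at h1
    have e : {u : Cl Unit | fc (ca1 R (u ())) (2 * n + 1) ∧ ca1 R (u ()) ≠ 2 * n + 1 ∧
        ca1 R (u ()) ≠ 2 * n + 1 - 1} = c4_I (R * n + R) (R * n + R) := by
      have e2 : (R : ℤ) * n + R = R * (n + 1) := by ring
      rw [e2]
      ext u
      rw [c4_memI hR]
      show (fc (ca1 R (u ())) (2 * n + 1) ∧ ca1 R (u ()) ≠ 2 * n + 1 ∧
        ca1 R (u ()) ≠ 2 * n + 1 - 1) ↔ _
      unfold fc
      omega
    rw [e]
    exact h1
  · have h1 := c4_left 2 (R * n) R
    have e : {u : Cl Unit | fc (ca1 R (u ())) (2 * n + 1) ∧ ca1 R (u ()) ≠ 2 * n + 1 ∧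
        ca1 R (u ()) ≠ 2 * n + 1 + 1} = c4_I (R * n) (R * n) := by
      ext u
      rw [c4_memI hR]
      show (fc (ca1 R (u ())) (2 * n + 1) ∧ ca1 R (u ()) ≠ 2 * n + 1 ∧
        ca1 R (u ()) ≠ 2 * n + 1 + 1) ↔ _
      unfold fc
      omega
    rw [e]
    exact h1

private theorem c4_dm2 (u : Cl Unit) : dm u ≤ 1 := by
  unfold dm
  exact (Finset.card_le_univ _).trans (by simp)

private theorem c4_dm1 {u : Cl Unit} (h : 1 ≤ dm u) : u () % 2 = 1 := by
  by_contra h1
  have h2 : dm u = 0 := by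
    unfold dm
    rw [Finset.card_eq_zero, Finset.filter_eq_empty_iff]
    intro j _
    exact h1
  omega

/-! ## subdivision of one coordinate -/

open Classical in
/-- the cell `c` with the `i`-th coordinate `z` -/
private def c4_up {J : Type} (i : J) (z : ℤ) (c : Cl J) : Cl J := fun j => if j = i then z else c j

omit [Fintype J] in
private theorem c4_up_i (i : J) (z : ℤ) (c : Cl J) : c4_up i z c i = z := if_pos rfl

omit [Fintype J] in
private theorem c4_up_ne {i j : J} (h : j ≠ i) (z : ℤ) (c : Cl J) : c4_up i z c j = c j := if_neg h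

omit [Fintype J] in
private theorem c4_up_eq {i : J} {c d : Cl J} (h : ∀ j, j ≠ i → d j = c j) : d = c4_up i (d i) c := by
  funext j
  by_cases hj : j = i
  · rw [hj, c4_up_i]
  · rw [c4_up_ne hj, h j hj]

omit [Fintype J] in
private theorem c4_up_fa {i : J} {c d : Cl J} (h : Fa d c) {x y : ℤ} (hx : fc x y) :
    Fa (c4_up i x d) (c4_up i y c) := by
  intro j
  by_cases hj : j = i
  · rw [hj, c4_up_i, c4_up_i]
    exact hx
  · rw [c4_up_ne hj, c4_up_ne hj]
    exact h j

private theorem c4_up_dm {i : J} {c : Cl J} {z : ℤ} (h : z % 2 = 1 ↔ c i % 2 = 1) :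
    dm (c4_up i z c) = dm c := by
  unfold dm
  congr 1
  ext j
  rw [Finset.mem_filter, Finset.mem_filter]
  by_cases hj : j = i
  · rw [hj, c4_up_i, h]
  · rw [c4_up_ne hj]

/-- subdivision of the coordinate `i` -/
private def c4_g {J : Type} (i : J) (R : ℕ) (K : Set (Cl J)) : Set (Cl J) :=
  {c | c4_up i (ca1 R (c i)) c ∈ K}

omit [Fintype J] in
private theorem c4_gclo {R : ℕ} (hR : 1 ≤ R) (i : J) {K : Set (Cl J)} (hK : Clo K) :
    Clo (c4_g i R K) :=
  fun _ hc _ hd => hK _ hc _ (c4_up_fa hd (ca1_fc hR (hd i)))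

omit [Fintype J] in
private theorem c4_gmem {R : ℕ} {i : J} {K : Set (Cl J)} {z : ℤ} {c : Cl J} :
    c4_up i z c ∈ c4_g i R K ↔ c4_up i (ca1 R z) c ∈ K := by
  have h : c4_up i (ca1 R (c4_up i z c i)) (c4_up i z c) = c4_up i (ca1 R z) c := by
    funext j
    by_cases hj : j = i
    · rw [hj, c4_up_i, c4_up_i, c4_up_i]
    · rw [c4_up_ne hj, c4_up_ne hj, c4_up_ne hj]
  show c4_up i (ca1 R (c4_up i z c i)) (c4_up i z c) ∈ K ↔ _
  rw [h]

omit [Fintype J] in
private theorem c4_self {i : J} (c : Cl J) : c4_up i (c i) c = c := (c4_up_eq fun _ _ => rfl).symm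

omit [Fintype J] in
/-- a face of a fine cell lies over a face of the coarse cell -/
private theorem c4_face {R : ℕ} (hR : 1 ≤ R) {i : J} {c d : Cl J} {u : Cl Unit}
    (hu : fc (ca1 R (u ())) (c i)) (hd : Fa d (c4_up i (u ()) c)) :
    Fa (c4_up i (ca1 R (d i)) d) c := by
  have h1 : fc (d i) (u ()) := by
    have := hd i
    rwa [c4_up_i] at this
  have h2 : Fa (c4_up i (ca1 R (d i)) d) (c4_up i (ca1 R (u ())) c) := by
    intro j
    by_cases hj : j = i
    · rw [hj, c4_up_i, c4_up_i]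
      exact ca1_fc hR h1
    · have := hd j
      rw [c4_up_ne hj] at this
      rw [c4_up_ne hj, c4_up_ne hj]
      exact this
  have h3 := c4_up_fa (i := i) (fa_refl c) hu
  rw [c4_self] at h3
  exact fa_trans h2 h3

omit [Fintype J] in
/-- a face of a fine cell which lies over `t` -/
private theorem c4_face2 {R : ℕ} {i : J} {c d t : Cl J} {u : Cl Unit} (ht : ∀ j, j ≠ i → t j = c j)
    (hd : Fa d (c4_up i (u ()) c)) (h : c4_up i (ca1 R (d i)) d = t) :
    Fa (c4_u (d i)) u ∧ d = c4_up i (c4_u (d i) ()) c := by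
  refine ⟨fun _ => ?_, ?_⟩
  · have := hd i
    rwa [c4_up_i] at this
  · refine c4_up_eq fun j hj => ?_
    rw [← ht j hj, ← h, c4_up_ne hj]

private theorem c4_cell {R : ℕ} (hR : 1 ≤ R) (i : J) {j : ℕ} {K : Set (Cl J)} {c : Cl J}
    (hK : Clo K) (hc : c ∉ K) (hj : j ≤ dm c) (hcl : Clo (insert c K)) :
    Ex j (c4_g i R K) (c4_g i R (insert c K)) := by
  have h := ex_map (i := j) (c4_L1 hR (c i)) (c4_Bclo hR (c i)) (fun u => c4_up i (u ()) c)
    (c4_g i R K) (c4_gclo hR i hK)
    (fun u _ v _ huv => by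
      have h1 := congrFun huv i
      simp only [c4_up_i] at h1
      funext x
      exact h1)
    (fun u hu d hd => by
      have h1 := c4_face hR hu hd
      rcases hcl c (mem_insert c K) _ h1 with h2 | h2
      · exact Or.inr ⟨c4_u (d i), c4_face2 (fun _ _ => rfl) hd h2⟩
      · exact Or.inl h2)
    (fun r _ t _ hrt => by
      obtain ⟨x, h1, h2, -⟩ := hrt
      refine ⟨i, ?_, ?_, fun l hl => ?_⟩
      · rw [c4_up_i]
        exact h1
      · rw [c4_up_i, c4_up_i]
        exact h2
      · rw [c4_up_ne hl, c4_up_ne hl])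
    (fun u hu hdu => by
      refine hj.trans (le_of_eq (c4_up_dm ?_).symm)
      rcases Int.even_or_odd' (c i) with ⟨n, hn | hn⟩
      · have h1 : u ∈ c4_A R (c i) := hu
        rw [hn, c4_Aeven hR] at h1
        have h2 : 2 * ((R : ℤ) * n) ≤ u () ∧ u () ≤ 2 * (R * n) := h1
        omega
      · rw [hn, c4_dm _ (by omega)] at hdu
        have h1 := c4_dm1 hdu
        omega)
    (fun u hu => by
      refine c4_gmem.2 ?_
      have h1 := c4_up_fa (i := i) (fa_refl c) hu.1
      rw [c4_self] at h1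
      rcases hcl c (mem_insert c K) _ h1 with h2 | h2
      · exfalso
        apply hu.2
        have := congrFun h2 i
        rwa [c4_up_i] at this
      · exact h2)
    (fun u hu hu' h2 => by
      have h1 : ca1 R (u ()) = c i := by
        by_contra h3
        exact hu' ⟨hu, h3⟩
      rw [c4_gmem, h1, c4_self] at h2
      exact hc h2)
  have e : c4_g i R K ∪ (fun u : Cl Unit => c4_up i (u ()) c) '' c4_A R (c i) =
      c4_g i R (insert c K) := by
    ext x
    constructor
    · rintro (hx | ⟨u, hu, rfl⟩)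
      · exact Or.inr hx
      · refine c4_gmem.2 ?_
        have h1 := c4_up_fa (i := i) (fa_refl c) hu
        rw [c4_self] at h1
        exact hcl c (mem_insert c K) _ h1
    · rintro (hx | hx)
      · right
        refine ⟨c4_u (x i), ?_, ?_⟩
        · have h1 : ca1 R (x i) = c i := by
            have := congrFun hx i
            rwa [c4_up_i] at this
          exact Or.inl h1
        · refine (c4_up_eq fun l hl => ?_).symm
          rw [← hx, c4_up_ne hl]
      · exact Or.inl hx
  rw [e] at h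
  exact h

private theorem c4_pair1 {R : ℕ} (hR : 1 ≤ R) {i l : J} (hli : l ≠ i) {j : ℕ} {K : Set (Cl J)}
    {r t : Cl J} (hK : Clo K) (hr : r ∉ K) (ht : t ∉ K) (h1 : t l % 2 = 1)
    (h2 : r l = t l - 1 ∨ r l = t l + 1) (h3 : ∀ j, j ≠ l → r j = t j)
    (hcl : Clo (insert r (insert t K))) :
    Ex j (c4_g i R K) (c4_g i R (insert r (insert t K))) := by
  have hrt : r i = t i := h3 i hli.symm
  have hft : Ft r t := ⟨l, h1, h2, h3⟩
  have hfa := ft_fa hft
  have hrm : r ∈ insert r (insert t K) := mem_insert r _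
  have htm : t ∈ insert r (insert t K) := mem_insert_of_mem r (mem_insert t K)
  have hntr : ¬ Fa t r := fun h => hfa.2.1 (fa_antisymm hfa.1 h)
  have h := ex_pairs (i := j) (c4_Bclo hR (t i)) (c4_Aclo hR (t i)) (fun u hu => hu.1)
    ((c4_Afin hR (t i)).subset Set.sdiff_subset) (fun u => c4_up i (u ()) r)
    (fun u => c4_up i (u ()) t) (c4_g i R K) (c4_gclo hR i hK)
    (fun u _ v _ huv => by
      have h4 := congrFun huv i
      simp only [c4_up_i] at h4
      funext x
      exact h4)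
    (fun u _ v _ huv => by
      have h4 := congrFun huv i
      simp only [c4_up_i] at h4
      funext x
      exact h4)
    (fun u _ v _ huv => by
      have h4 := congrFun huv l
      simp only [c4_up_ne hli] at h4
      omega)
    (fun u hu d hd => by
      have hu' : fc (ca1 R (u ())) (r i) := hrt ▸ hu
      have h4 := c4_face hR hu' hd
      rcases hcl r hrm _ h4 with h5 | h5 | h5
      · exact Or.inr ⟨c4_u (d i), c4_face2 (fun _ _ => rfl) hd h5⟩
      · rw [h5] at h4
        exact absurd h4 hntr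
      · exact Or.inl h5)
    (fun u hu d hd => by
      have h4 := c4_face hR hu hd
      rcases hcl t htm _ h4 with h5 | h5 | h5
      · right
        refine ⟨c4_u (d i), fun _ => ?_, Or.inl ?_⟩
        · have := hd i
          rwa [c4_up_i] at this
        · refine c4_up_eq fun m hm => ?_
          rw [← h5, c4_up_ne hm]
      · right
        obtain ⟨h6, h7⟩ := c4_face2 (fun _ _ => rfl) hd h5
        exact ⟨c4_u (d i), h6, Or.inr h7⟩
      · exact Or.inl h5)
    (fun u _ => by
      refine ⟨l, ?_, ?_, fun m hm => ?_⟩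
      · rw [c4_up_ne hli]
        exact h1
      · rw [c4_up_ne hli, c4_up_ne hli]
        exact h2
      · by_cases hmi : m = i
        · rw [hmi, c4_up_i, c4_up_i]
        · rw [c4_up_ne hmi, c4_up_ne hmi]
          exact h3 m hm)
    (fun u hu => by
      constructor
      · refine c4_gmem.2 ?_
        have h4 : Fa (c4_up i (ca1 R (u ())) r) r := by
          have h5 := c4_up_fa (i := i) (fa_refl r) (hrt ▸ hu.1)
          rwa [c4_self] at h5
        rcases hcl r hrm _ h4 with h5 | h5 | h5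
        · exfalso
          apply hu.2
          have := congrFun h5 i
          rw [c4_up_i, hrt] at this
          exact this
        · rw [h5] at h4
          exact absurd h4 hntr
        · exact h5
      · refine c4_gmem.2 ?_
        have h4 : Fa (c4_up i (ca1 R (u ())) t) t := by
          have h5 := c4_up_fa (i := i) (fa_refl t) hu.1
          rwa [c4_self] at h5
        rcases hcl t htm _ h4 with h5 | h5 | h5
        · exfalso
          apply hu.2
          have := congrFun h5 i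
          rw [c4_up_i, hrt] at this
          exact this
        · exfalso
          apply hu.2
          have := congrFun h5 i
          rw [c4_up_i] at this
          exact this
        · exact h5)
    (fun u hu hu' => by
      have h4 : ca1 R (u ()) = t i := by
        by_contra h5
        exact hu' ⟨hu, h5⟩
      constructor
      · intro h5
        rw [c4_gmem, h4, ← hrt, c4_self] at h5
        exact hr h5
      · intro h5
        rw [c4_gmem, h4, c4_self] at h5
        exact ht h5)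
  have e : c4_g i R K ∪ (fun u : Cl Unit => c4_up i (u ()) r) '' c4_A R (t i) ∪
      (fun u : Cl Unit => c4_up i (u ()) t) '' c4_A R (t i) = c4_g i R (insert r (insert t K)) := by
    ext x
    constructor
    · rintro ((hx | ⟨u, hu, rfl⟩) | ⟨u, hu, rfl⟩)
      · exact Or.inr (Or.inr hx)
      · refine c4_gmem.2 ?_
        have h5 := c4_up_fa (i := i) (fa_refl r) (hrt ▸ hu : fc (ca1 R (u ())) (r i))
        rw [c4_self] at h5
        exact hcl r hrm _ h5
      · refine c4_gmem.2 ?_
        have h5 := c4_up_fa (i := i) (fa_refl t) hu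
        rw [c4_self] at h5
        exact hcl t htm _ h5
    · rintro (hx | hx | hx)
      · left
        right
        refine ⟨c4_u (x i), ?_, ?_⟩
        · have h4 : ca1 R (x i) = t i := by
            have := congrFun hx i
            rwa [c4_up_i, hrt] at this
          exact Or.inl h4
        · refine (c4_up_eq fun m hm => ?_).symm
          rw [← hx, c4_up_ne hm]
      · right
        refine ⟨c4_u (x i), ?_, ?_⟩
        · have h4 : ca1 R (x i) = t i := by
            have := congrFun hx i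
            rwa [c4_up_i] at this
          exact Or.inl h4
        · refine (c4_up_eq fun m hm => ?_).symm
          rw [← hx, c4_up_ne hm]
      · exact Or.inl (Or.inl hx)
  rw [e] at h
  exact h

private theorem c4_pair2 {R : ℕ} (hR : 1 ≤ R) {i : J} {j : ℕ} {K : Set (Cl J)}
    {r t : Cl J} (hK : Clo K) (hr : r ∉ K) (ht : t ∉ K) (h1 : t i % 2 = 1)
    (h2 : r i = t i - 1 ∨ r i = t i + 1) (h3 : ∀ j, j ≠ i → r j = t j)
    (hcl : Clo (insert r (insert t K))) :
    Ex j (c4_g i R K) (c4_g i R (insert r (insert t K))) := by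
  have htm : t ∈ insert r (insert t K) := mem_insert_of_mem r (mem_insert t K)
  have hru : r = c4_up i (r i) t := c4_up_eq h3
  have hB : Clo {u : Cl Unit | fc (ca1 R (u ())) (t i) ∧ ca1 R (u ()) ≠ t i ∧ ca1 R (u ()) ≠ r i} := by
    rintro u ⟨hu, hu1, hu2⟩ d hd
    have h4 := ca1_fc hR (hd ())
    have h5 : ca1 R (d ()) = ca1 R (u ()) := by
      unfold fc at hu h4
      omega
    show fc (ca1 R (d ())) (t i) ∧ ca1 R (d ()) ≠ t i ∧ ca1 R (d ()) ≠ r i
    rw [h5]
    exact ⟨hu, hu1, hu2⟩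
  have h := ex_map (i := j) (c4_L2 hR h1 h2) hB (fun u => c4_up i (u ()) t)
    (c4_g i R K) (c4_gclo hR i hK)
    (fun u _ v _ huv => by
      have h1 := congrFun huv i
      simp only [c4_up_i] at h1
      funext x
      exact h1)
    (fun u hu d hd => by
      have h4 := c4_face hR hu hd
      rcases hcl t htm _ h4 with h5 | h5 | h5
      · exact Or.inr ⟨c4_u (d i), c4_face2 h3 hd h5⟩
      · exact Or.inr ⟨c4_u (d i), c4_face2 (fun _ _ => rfl) hd h5⟩
      · exact Or.inl h5)
    (fun a _ b _ hrt => by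
      obtain ⟨x, h1, h2, -⟩ := hrt
      refine ⟨i, ?_, ?_, fun l hl => ?_⟩
      · rw [c4_up_i]
        exact h1
      · rw [c4_up_i, c4_up_i]
        exact h2
      · rw [c4_up_ne hl, c4_up_ne hl])
    (fun u _ hdu => by
      have := c4_dm2 u
      omega)
    (fun u hu => by
      refine c4_gmem.2 ?_
      have h4 := c4_up_fa (i := i) (fa_refl t) hu.1
      rw [c4_self] at h4
      rcases hcl t htm _ h4 with h5 | h5 | h5
      · exfalso
        apply hu.2.2
        have := congrFun h5 i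
        rwa [c4_up_i] at this
      · exfalso
        apply hu.2.1
        have := congrFun h5 i
        rwa [c4_up_i] at this
      · exact h5)
    (fun u hu hu' h5 => by
      rw [c4_gmem] at h5
      by_cases h6 : ca1 R (u ()) = t i
      · rw [h6, c4_self] at h5
        exact ht h5
      · by_cases h7 : ca1 R (u ()) = r i
        · rw [h7, ← hru] at h5
          exact hr h5
        · exact hu' ⟨hu, h6, h7⟩)
  have e : c4_g i R K ∪ (fun u : Cl Unit => c4_up i (u ()) t) '' c4_A R (t i) =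
      c4_g i R (insert r (insert t K)) := by
    ext x
    constructor
    · rintro (hx | ⟨u, hu, rfl⟩)
      · exact Or.inr (Or.inr hx)
      · refine c4_gmem.2 ?_
        have h4 := c4_up_fa (i := i) (fa_refl t) hu
        rw [c4_self] at h4
        exact hcl t htm _ h4
    · rintro (hx | hx | hx)
      · right
        refine ⟨c4_u (x i), ?_, ?_⟩
        · have h4 : ca1 R (x i) = r i := by
            have := congrFun hx i
            rwa [c4_up_i] at this
          exact Or.inr ⟨h1, h4 ▸ h2⟩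
        · refine (c4_up_eq fun m hm => ?_).symm
          rw [← h3 m hm, ← hx, c4_up_ne hm]
      · right
        refine ⟨c4_u (x i), ?_, ?_⟩
        · have h4 : ca1 R (x i) = t i := by
            have := congrFun hx i
            rwa [c4_up_i] at this
          exact Or.inl h4
        · refine (c4_up_eq fun m hm => ?_).symm
          rw [← hx, c4_up_ne hm]
      · exact Or.inl hx
  rw [e] at h
  exact h

private theorem c4_one {R : ℕ} (hR : 1 ≤ R) (i : J) {j : ℕ} {K' K : Set (Cl J)} (hK' : Clo K')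
    (h : Ex j K' K) : Ex j (c4_g i R K') (c4_g i R K) := by
  induction h with
  | refl => exact Ex.refl
  | pair K r t hK hr ht hft hc ih =>
    have hKc := (ex_clo hK hK').1
    refine ex_trans ih ?_
    obtain ⟨l, h1, h2, h3⟩ := hft
    by_cases hli : l = i
    · subst hli
      exact c4_pair2 hR hKc hr ht h1 h2 h3 hc
    · exact c4_pair1 hR hli hKc hr ht h1 h2 h3 hc
  | cell K c hK hc hj hcl ih =>
    exact ex_trans ih (c4_cell hR i (ex_clo hK hK').1 hc hj hcl)

open Classical in
/-- subdivision of the coordinates in `s` -/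
private def c4_gs {J : Type} (s : Finset J) (R : ℕ) (K : Set (Cl J)) : Set (Cl J) :=
  {c | (fun j => if j ∈ s then ca1 R (c j) else c j) ∈ K}

omit [Fintype J] in
private theorem c4_gsclo {R : ℕ} (hR : 1 ≤ R) (s : Finset J) {K : Set (Cl J)} (hK : Clo K) :
    Clo (c4_gs s R K) := by
  intro c hc d hd
  refine hK _ hc _ fun j => ?_
  by_cases hj : j ∈ s
  · simp only [hj, if_true]
    exact ca1_fc hR (hd j)
  · simp only [hj, if_false]
    exact hd j

private theorem c4_all {R : ℕ} (hR : 1 ≤ R) {j : ℕ} {K' K : Set (Cl J)} (hK' : Clo K')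
    (h : Ex j K' K) (s : Finset J) : Ex j (c4_gs s R K') (c4_gs s R K) := by
  classical
  induction s using Finset.induction_on with
  | empty =>
    have e : ∀ L : Set (Cl J), c4_gs ∅ R L = L := by
      intro L
      ext c
      show (fun j => if j ∈ (∅ : Finset J) then ca1 R (c j) else c j) ∈ L ↔ c ∈ L
      have h1 : (fun j => if j ∈ (∅ : Finset J) then ca1 R (c j) else c j) = c := by
        funext j
        exact if_neg (Finset.notMem_empty j)
      rw [h1]
    rw [e, e]
    exact h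
  | insert i s hi ih =>
    have e : ∀ L : Set (Cl J), c4_gs (insert i s) R L = c4_g i R (c4_gs s R L) := by
      intro L
      ext c
      show (fun j => if j ∈ insert i s then ca1 R (c j) else c j) ∈ L ↔
        (fun j => if j ∈ s then ca1 R (c4_up i (ca1 R (c i)) c j) else
          c4_up i (ca1 R (c i)) c j) ∈ L
      have h1 : (fun j => if j ∈ insert i s then ca1 R (c j) else c j) =
          (fun j => if j ∈ s then ca1 R (c4_up i (ca1 R (c i)) c j) else
          c4_up i (ca1 R (c i)) c j) := by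
        funext j
        by_cases hj : j = i
        · rw [hj, if_pos (Finset.mem_insert_self i s), if_neg hi, c4_up_i]
        · rw [c4_up_ne hj]
          by_cases hjs : j ∈ s
          · rw [if_pos (Finset.mem_insert_of_mem hjs), if_pos hjs]
          · rw [if_neg hjs, if_neg]
            intro h2
            rcases Finset.mem_insert.1 h2 with h3 | h3
            · exact hj h3
            · exact hjs h3
      rw [h1]
    rw [e, e]
    exact c4_one hR i (c4_gsclo hR s hK') ih

theorem ex_gr {R : ℕ} (hR : 1 ≤ R) {j : ℕ} {K' K : Set (Cl J)} (hK' : Clo K')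
    (h : Ex j K' K) : Ex j (Gr R K') (Gr R K) := by
  classical
  have e : ∀ L : Set (Cl J), c4_gs Finset.univ R L = Gr R L := by
    intro L
    ext c
    show (fun j => if j ∈ (Finset.univ : Finset J) then ca1 R (c j) else c j) ∈ L ↔ ca R c ∈ L
    have h1 : (fun j => if j ∈ (Finset.univ : Finset J) then ca1 R (c j) else c j) = ca R c := by
      funext j
      exact if_pos (Finset.mem_univ j)
    rw [h1]
  have h1 := c4_all hR hK' h Finset.univ
  rw [e, e] at h1
  exact h1

/-! ## carriers of points -/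

/-- the carrier of a real number -/
private def c4_c (t : ℝ) : ℤ := if |t - round t| ≤ 0 / 2 then 2 * round t else 2 * ⌊t⌋ + 1

private theorem c4_c_int (m : ℤ) : c4_c m = 2 * m := by
  unfold c4_c
  rw [round_intCast, sub_self, abs_zero, zero_div, if_pos (le_refl _)]

private theorem c4_c_mid {t : ℝ} {m : ℤ} (h : (m : ℝ) < t) (h' : t < m + 1) : c4_c t = 2 * m + 1 := by
  unfold c4_c
  rw [if_neg]
  · have h1 : ⌊t⌋ = m := Int.floor_eq_iff.2 ⟨h.le, h'⟩
    rw [h1]
  · intro h1
    rw [zero_div] at h1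
    have h2 : t = round t := by
      have := abs_nonpos_iff.1 h1
      linarith
    rw [h2] at h h'
    have h3 : m < round t := by exact_mod_cast h
    have h4 : round t < m + 1 := by exact_mod_cast h'
    omega

private theorem c4_c_cases (t : ℝ) : (∃ m : ℤ, t = m) ∨ ∃ m : ℤ, (m : ℝ) < t ∧ t < m + 1 := by
  by_cases h : t = ⌊t⌋
  · exact Or.inl ⟨_, h⟩
  · exact Or.inr ⟨⌊t⌋, lt_of_le_of_ne (Int.floor_le t) (Ne.symm h), Int.lt_floor_add_one t⟩

private theorem c4_ca_cr {R : ℕ} (hR : 1 ≤ R) (x : J → ℝ) : ca R (cr x) = cr (fun j => x j / R) := by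
  funext j
  show ca1 R (c4_c (x j)) = c4_c (x j / R)
  have hR0 : (0 : ℝ) < R := by
    have : 0 < R := by omega
    exact_mod_cast this
  obtain ⟨t, ht⟩ : ∃ t, t = x j := ⟨_, rfl⟩
  rw [← ht]
  rcases c4_c_cases t with ⟨m, rfl⟩ | ⟨m, h1, h2⟩
  · rw [c4_c_int]
    rcases c4_cases hR (2 * m) with ⟨k, h3, h4⟩ | ⟨n, h3, h4, h5⟩
    · rw [h4]
      have h5 : m = R * k := by
        rw [mul_assoc] at h3
        omega
      have h6 : (m : ℝ) / R = k := by
        rw [h5]
        push_cast
        field_simp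
      rw [h6, c4_c_int]
    · rw [h5]
      rw [mul_assoc] at h3 h4
      have h6 : (R : ℤ) * n < m := by omega
      have h7 : m < (R : ℤ) * (n + 1) := by omega
      refine (c4_c_mid ?_ ?_).symm
      · rw [lt_div_iff₀ hR0]
        have : ((R : ℝ) * n) < m := by exact_mod_cast h6
        linarith
      · rw [div_lt_iff₀ hR0]
        have : (m : ℝ) < (R : ℝ) * (n + 1) := by exact_mod_cast h7
        linarith
  · rw [c4_c_mid h1 h2]
    rcases c4_cases hR (2 * m + 1) with ⟨k, h3, h4⟩ | ⟨n, h3, h4, h5⟩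
    · rw [mul_assoc] at h3
      omega
    · rw [h5]
      rw [mul_assoc] at h3 h4
      have h6 : (R : ℤ) * n ≤ m := by omega
      have h7 : m + 1 ≤ (R : ℤ) * (n + 1) := by omega
      refine (c4_c_mid ?_ ?_).symm
      · rw [lt_div_iff₀ hR0]
        have : ((R : ℝ) * n) ≤ m := by exact_mod_cast h6
        linarith
      · rw [div_lt_iff₀ hR0]
        have : (m : ℝ) + 1 ≤ (R : ℝ) * (n + 1) := by exact_mod_cast h7
        linarith

private theorem c4_mem (x : J → ℝ) : x ∈ bo (cr x) := by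
  intro j
  show |2 * x j - ((c4_c (x j) : ℤ) : ℝ)| ≤ ((c4_c (x j) % 2 : ℤ) : ℝ)
  rcases c4_c_cases (x j) with ⟨m, hm⟩ | ⟨m, h1, h2⟩
  · rw [hm, c4_c_int]
    have h3 : (2 * m) % 2 = 0 := by omega
    rw [h3]
    push_cast
    rw [sub_self, abs_zero]
  · rw [c4_c_mid h1 h2]
    have h3 : (2 * m + 1) % 2 = 1 := by omega
    rw [h3, abs_le]
    push_cast
    constructor <;> linarith

private theorem c4_min {x : J → ℝ} {c : Cl J} (h : x ∈ bo c) : Fa (cr x) c := by
  intro j
  have h1 := h j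
  show fc (c4_c (x j)) (c j)
  rcases Int.even_or_odd' (c j) with ⟨n, hn | hn⟩
  · rw [hn] at h1 ⊢
    have h3 : (2 * n) % 2 = 0 := by omega
    rw [h3] at h1
    push_cast at h1
    have h4 : x j = n := by
      have := abs_nonpos_iff.1 h1
      linarith
    rw [h4, c4_c_int]
    exact Or.inl rfl
  · rw [hn] at h1 ⊢
    have h3 : (2 * n + 1) % 2 = 1 := by omega
    rw [h3, abs_le] at h1
    push_cast at h1
    rcases eq_or_lt_of_le (show (n : ℝ) ≤ x j by linarith [h1.1]) with h4 | h4
    · rw [← h4, c4_c_int]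
      right
      omega
    · rcases eq_or_lt_of_le (show x j ≤ (n : ℝ) + 1 by linarith [h1.2]) with h5 | h5
      · have h6 : x j = ((n + 1 : ℤ) : ℝ) := by
          rw [h5]
          push_cast
          ring
        rw [h6, c4_c_int]
        right
        omega
      · rw [c4_c_mid h4 h5]
        exact Or.inl rfl

private theorem c4_Bo {K : Set (Cl J)} (hK : Clo K) (x : J → ℝ) : x ∈ Bo K ↔ cr x ∈ K := by
  constructor
  · rintro ⟨c, hc, hx⟩
    exact hK c hc _ (c4_min hx)
  · intro h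
    exact ⟨cr x, h, c4_mem x⟩

/-- the body of the subdivision -/
theorem Bo_gr {R : ℕ} (hR : 1 ≤ R) {K : Set (Cl J)} (hK : Clo K) (x : J → ℝ) :
    x ∈ Bo (Gr R K) ↔ (fun j => x j / R) ∈ Bo K := by
  rw [c4_Bo (clo_gr hR hK), c4_Bo hK, ← c4_ca_cr hR x]
  exact Iff.rfl

/-- the carrier of a point of the subdivision -/
theorem ca_cr {R : ℕ} (hR : 1 ≤ R) (x : J → ℝ) : ca R (cr x) = cr (fun j => x j / R) :=
  c4_ca_cr hR x

end MNG
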