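import Pool.Agent.MNG.A3
import Pool.Agent.MNG.C4
import Pool.Agent.MNG.T1

/-!
# MNG-A4: the homotopy lemma for the rounding of the 8-grid

`cs_hom` with `H = sh` and `B' = Bo (Gr 8 A)`: `H t x ∈ Bo E` by `h1` (carriers: `cr_mem`; `E` is
closed under faces by `h1` and `rd_fa`, `ca8_fa`; `x ∈ Bo E` gives `cr x ∈ E`), and
`H 1 x = 8 st x` with `cr (st x) = rd (cr x) ∈ A`, so `H 1 x ∈ Bo (Gr 8 A)` (`Bo_gr`, `cr_bo`).
`Cs k (Bo (Gr 8 A))` by `cs_dom` with `x ↦ 8 x`, `x ↦ x / 8` (`Bo_gr`).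
-/

set_option autoImplicit false

noncomputable section

namespace MNG

open AGM (Ei Bl Sp)
open Set Topology

variable {J : Type} [Fintype J] {k : ℕ}

theorem cs_gr8 {A : Set (Cl J)} (hA : Clo A) (h : Cs k (Bo A)) : Cs k (Bo (Gr 8 A)) := by
  refine cs_dom (Bo A) (Bo (Gr 8 A)) (fun x j => 8 * x j) (fun x j => x j / 8) ?_ ?_ ?_ ?_ ?_ h
  · exact (continuous_pi fun j => continuous_const.mul (continuous_apply j)).continuousOn
  · exact (continuous_pi fun j => (continuous_apply j).div_const 8).continuousOn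
  · intro x hx
    rw [Bo_gr (by norm_num) hA]
    have e : (fun j => (8 * x j) / ((8 : ℕ) : ℝ)) = x := by
      funext j
      push_cast
      ring
    rw [e]
    exact hx
  · intro x hx
    rw [Bo_gr (by norm_num) hA] at hx
    exact hx
  · intro x _
    funext j
    ring

theorem rdh (A E : Set (Cl J)) (hA : Clo A)
    (h1 : ∀ c ∈ E, ∀ c', Fa (rd c') (rd c) → Fa (ca 8 c') (ca 8 c) → c' ∈ E)
    (h2 : ∀ c ∈ E, rd c ∈ A) (h3 : Gr 8 A ⊆ E) (h : Cs k (Bo A)) : Cs k (Bo E) := by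
  have hE : Clo E := fun c hc d hd => h1 c hc d (rd_fa hd) (ca8_fa hd)
  refine cs_hom (Bo E) (Bo (Gr 8 A)) ?_ (fun t x => sh t x) sh_cont.continuousOn ?_ ?_ ?_
    (cs_gr8 hA h)
  · rintro x ⟨c, hc, hx⟩
    exact ⟨c, h3 hc, hx⟩
  · intro x _
    funext j
    show (1 - 0) * x j + 0 * (8 * st (x j)) = x j
    ring
  · intro x hx
    rw [Bo_gr (by norm_num) hA]
    have e : (fun j => sh 1 x j / ((8 : ℕ) : ℝ)) = fun j => st (x j) := by
      funext j
      show ((1 - 1) * x j + 1 * (8 * st (x j))) / ((8 : ℕ) : ℝ) = st (x j)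
      push_cast
      ring
    rw [e]
    refine ⟨rd (cr x), h2 _ (cr_mem hE hx), ?_⟩
    rw [← st_cr]
    exact cr_bo _
  · intro t ht x hx
    exact ⟨cr (sh t x), h1 _ (cr_mem hE hx) _ (sh_rd ht.1 ht.2 x) (sh_ca ht.1 ht.2 x), cr_bo _⟩

/-- rounding is soft: the fibre over `S` is `{c | rd c ≤ S, ca c ∈ K}`; `rdh` with `A = Fc S` -/
theorem soft_rd {K : Set (Cl J)} (hK : Clo K) : Soft k (Gr 8 K) K rd := by
  intro S hS
  refine rdh (Fc S) _ (fun c hc d hd => fa_trans hd hc) ?_ (fun c hc => hc.2) ?_ (cs_fc k S)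
  · rintro c ⟨hc, hcS⟩ c' h1 h2
    exact ⟨hK _ hc _ h2, fa_trans h1 hcS⟩
  · intro c hc
    exact ⟨hK _ hS _ hc, fa_trans (rd_ca c) hc⟩

end MNG
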