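import Pool.Agent.MNG.A2
import Pool.Agent.MNG.A4

/-!
# MNG-A5: complexes dominated by a tower: composition lemmas

`kk_mon`: induction on `n` (`T.kam`). `ab_cyl`: compose `T.g (b + n)` with `Q` restricted to the
skeleta (`soft_sk`, `soft_comp`, `T.gm`, `T.gs`, `T.gk`; `T.J (b + (n + 1))` is `T.J (b + n + 1)`
by definition). `ab_pos`: `ab_cyl` with `Q z = f (rd (fs z))` (`soft_fs`, `cs_in`, `soft_rd`,
`soft_comp`; `f (rd (fs z))` is carried by `kk b n (rd (fs z)) ≤ kk b n (ca 8 (fs z))`).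
`ab_gr`: `ab_cyl` with `n = 0`, `Q = fs`.
-/

set_option autoImplicit false

noncomputable section

namespace MNG

open AGM (Ei Bl Sp)
open Set Topology

variable {k : ℕ} (T : Tw k)

theorem cx_X (b : ℕ) : Cx (T.X b) := cx_sk (T.cx b)

private theorem a5_sksk {J : Type} [Fintype J] (k : ℕ) (W : Set (Cl J)) :
    sk k (sk k W) = sk k W := by
  ext c
  exact ⟨fun h => h.1, fun h => ⟨h, h.2⟩⟩

theorem kk_mon (b n : ℕ) : Mon (T.M (b + n)) (T.M b) (T.kk b n) := by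
  induction n with
  | zero => exact ⟨fun c hc => hc, fun c _ d hd => hd⟩
  | succ n ih =>
    have h : Mon (T.M (b + n + 1)) (T.M b) (fun c => T.kk b n (T.ka (b + n) c)) :=
      mon_comp (T.kam (b + n)) ih
    exact h

theorem kk_fa (b n : ℕ) {c d : Cl (T.J (b + n))} (hc : c ∈ T.X (b + n)) (h : Fa d c) :
    Fa (T.kk b n d) (T.kk b n c) := by
  exact (kk_mon T b n).mono c hc.1 d h

variable {T} {b : ℕ} {V V' : Type} [Fintype V] [Fintype V'] {W : Set (Cl V)} {W' : Set (Cl V')}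
  {κ : Cl V → Cl (T.J b)} {κ' : Cl V' → Cl (T.J b)}

theorem ab_soft (hW : Cx W) (h : Ab T b W κ) (f : Cl V → Cl V')
    (hf : Cub (sk k W) (sk k W') f) (hs : Soft k (sk k W) (sk k W') f)
    (hκ : ∀ c ∈ sk k W, Fa (κ' (f c)) (κ c)) : Ab T b W' κ' := by
  obtain ⟨n, f₀, h1, h2, h3⟩ := h
  exact ⟨n, fun c => f (f₀ c), cub_comp h1 hf,
    soft_comp (cx_X T (b + n)) (cx_sk hW) h1.toMon hf.toMon h2 hs,
    fun c hc => fa_trans (hκ _ (h1.map c hc)) (h3 c hc)⟩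

theorem ab_soft' (hW : Cx W) (h : Ab T b W κ) (f : Cl V → Cl V') (hf : Cub W W' f)
    (hs : Soft k W W' f) (hκ : ∀ c ∈ W, Fa (κ' (f c)) (κ c)) : Ab T b W' κ' := by
  have h1 := soft_sk hW hf hs
  exact ab_soft hW h f h1.1 h1.2 fun c hc => hκ c hc.1

theorem ab_sk {W₁ W₂ : Set (Cl V)} (h : sk k W₁ = sk k W₂) (ha : Ab T b W₁ κ) :
    Ab T b W₂ κ := by
  obtain ⟨n, f, h1, h2, h3⟩ := ha
  rw [h] at h1 h2
  exact ⟨n, f, h1, h2, h3⟩

/-- a soft image of the cylinder over the subdivision of a complex of the tower -/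
theorem ab_cyl {n : ℕ} (Q : Cl (T.J (b + n) ⊕ Unit) → Cl V)
    (hQ : Cub (Px (Gr 8 (T.X (b + n))) (In 1)) W Q)
    (hs : Soft k (Px (Gr 8 (T.X (b + n))) (In 1)) W Q)
    (hκ : ∀ z ∈ Px (Gr 8 (T.X (b + n))) (In 1), Fa (κ (Q z)) (T.kk b n (ca 8 (fs z)))) :
    ∃ f : Cl (T.J (b + (n + 1))) → Cl V, Cub (T.X (b + (n + 1))) (sk k W) f ∧
      Soft k (T.X (b + (n + 1))) (sk k W) f ∧
      ∀ c ∈ T.X (b + (n + 1)), Fa (κ (f c)) (T.kk b (n + 1) c) := by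
  have hP : Cx (Px (Gr 8 (T.X (b + n))) (In 1)) := cx_px (cx_gr (by norm_num) (cx_X T (b + n)))
    (cx_in 1)
  have h1 := soft_sk hP hQ hs
  have hg : Cub (T.X (b + (n + 1))) (sk k (Px (Gr 8 (T.X (b + n))) (In 1))) (T.g (b + n)) :=
    T.gm (b + n)
  have hgs : Soft k (T.X (b + (n + 1))) (sk k (Px (Gr 8 (T.X (b + n))) (In 1))) (T.g (b + n)) :=
    T.gs (b + n)
  refine ⟨fun c => Q (T.g (b + n) c), cub_comp hg h1.1,
    soft_comp (cx_X T (b + (n + 1))) (cx_sk hP) hg.toMon h1.1.toMon hgs h1.2, fun c hc => ?_⟩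
  have h2 : Fa (ca 8 (fs (T.g (b + n) c))) (T.ka (b + n) c) := T.gk (b + n) c hc
  have h3 : T.ka (b + n) c ∈ T.M (b + n) := (T.kam (b + n)).map c hc.1
  exact fa_trans (hκ _ (hg.map c hc).1) ((kk_mon T b n).mono _ h3 _ h2)

theorem ab_pos (hW : Cx W) (h : Ab T b W κ) : ∃ n : ℕ, 1 ≤ n ∧
    ∃ f : Cl (T.J (b + n)) → Cl V, Cub (T.X (b + n)) (sk k W) f ∧
      Soft k (T.X (b + n)) (sk k W) f ∧ ∀ c ∈ T.X (b + n), Fa (κ (f c)) (T.kk b n c) := by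
  obtain ⟨n, f, h1, h2, h3⟩ := h
  have hX : Cx (T.X (b + n)) := cx_X T (b + n)
  have hG : Cx (Gr 8 (T.X (b + n))) := cx_gr (by norm_num) hX
  have hP : Cx (Px (Gr 8 (T.X (b + n))) (In 1)) := cx_px hG (cx_in 1)
  have c1 : Cub (Px (Gr 8 (T.X (b + n))) (In 1)) (Gr 8 (T.X (b + n))) fs := cub_fs _ _
  have s1 : Soft k (Px (Gr 8 (T.X (b + n))) (In 1)) (Gr 8 (T.X (b + n))) fs :=
    soft_fs hG.clo (cs_in 1)
  have c2 : Cub (Gr 8 (T.X (b + n))) (T.X (b + n)) rd := cub_rd hX.clo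
  have s2 : Soft k (Gr 8 (T.X (b + n))) (T.X (b + n)) rd := soft_rd hX.clo
  have c3 : Cub (Gr 8 (T.X (b + n))) (sk k W) (fun c => f (rd c)) := cub_comp c2 h1
  have s3 : Soft k (Gr 8 (T.X (b + n))) (sk k W) (fun c => f (rd c)) :=
    soft_comp hG hX c2.toMon h1.toMon s2 h2
  have c4 : Cub (Px (Gr 8 (T.X (b + n))) (In 1)) (sk k W) (fun z => f (rd (fs z))) :=
    cub_comp (g := fun c => f (rd c)) c1 c3
  have s4 : Soft k (Px (Gr 8 (T.X (b + n))) (In 1)) (sk k W) (fun z => f (rd (fs z))) :=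
    soft_comp (g := fun c => f (rd c)) hP hG c1.toMon c3.toMon s1 s3
  obtain ⟨f', g1, g2, g3⟩ := ab_cyl (κ := κ) (fun z => f (rd (fs z))) c4 s4 fun z hz =>
    fa_trans (h3 _ (c2.map _ hz.1)) (kk_fa T b n (show ca 8 (fs z) ∈ T.X (b + n) from hz.1)
      (rd_ca (fs z)))
  rw [a5_sksk] at g1 g2
  exact ⟨n + 1, Nat.le_add_left 1 n, f', g1, g2, g3⟩

theorem ab_gr (T : Tw k) (b : ℕ) : Ab T b (Gr 8 (T.X b)) (ca 8) := by
  have hX : Cx (T.X b) := cx_X T b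
  have hG : Cx (Gr 8 (T.X b)) := cx_gr (by norm_num) hX
  obtain ⟨f, h1, h2, h3⟩ := ab_cyl (T := T) (b := b) (n := 0) (W := Gr 8 (T.X b)) (κ := ca 8)
    fs (cub_fs _ _) (soft_fs hG.clo (cs_in 1)) fun z _ => fa_refl _
  exact ⟨0 + 1, f, h1, h2, h3⟩

end MNG
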