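import Pool.Agent.MNG.A2

/-!
# MNG-A6: the cut of a complex: definitions, cube map

`f : X → Wm ∪ Wp`. On the cylinder over `Gr 8 X` the map `cutF` is `f ∘ rd` in the first
factor; `ze` is the second coordinate. `sm` is antitone, `ca 8` is monotone, `rd c ≤ sm c ≤ ca 8 c`.

`cub_cut`, monotone: let `(c', u') ≤ (c, u)`. If `f (ca c)` is in `Wm ∩ Wp`, so is `f (ca c')` and
the values are `u'`, `u`. If `f (ca c)` is in `Wm`, not in `Wp`: if `f (sm c) ∉ Wp` then
`f (sm c') ∉ Wp` and `f (ca c') ∉ Wp` (because `sm c ≤ sm c' ≤ ca c'`), both values are 0; if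
`f (sm c) ∈ Wp` the value is 0 for `u = 0` (then `u' = 0` and the value at `(c', u')` is 0) and
1 otherwise (everything is a face of 1). Symmetric for `Wp`. The image: value 0 gives `f (ca c) ∈ Wm`,
value 2 gives `f (ca c) ∈ Wp`; value 1 gives `f (ca c) ∈ Wm ∩ Wp` or `f (sm c) ∈ Wm ∩ Wp`;
`f (rd c)` is a face of both. Dimension: if the value is 1 and `u ≠ 1` then `sm c ≠ ca 8 c`
and `dm (rd c) + 1 ≤ dm c` (`dm_rd_lt`).
-/

set_option autoImplicit false

noncomputable section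

namespace MNG

open AGM (Ei Bl Sp)
open Set Topology

variable {J V : Type} [Fintype J] [Fintype V] {k : ℕ}

/-- the complex `Wm ∪ Wp` cut along `Wm ∩ Wp` -/
def cutW (Wm Wp : Set (Cl V)) : Set (Cl (V ⊕ Unit)) :=
  {z | (fs z ∈ Wm ∧ sn z () = 0) ∨ (fs z ∈ Wp ∧ sn z () = 2) ∨
    (fs z ∈ Wm ∧ fs z ∈ Wp ∧ sn z () = 1)}

open Classical in
/-- the second coordinate of the map to the cut complex -/
def ze (f : Cl J → Cl V) (Wm Wp : Set (Cl V)) (c : Cl J) (u : ℤ) : ℤ :=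
  if f (ca 8 c) ∈ Wm then
    (if f (ca 8 c) ∈ Wp then u else if f (sm c) ∈ Wp then min u 1 else 0)
  else (if f (sm c) ∈ Wm then max u 1 else 2)

/-- the map to the cut complex -/
def cutF (f : Cl J → Cl V) (Wm Wp : Set (Cl V)) (z : Cl (J ⊕ Unit)) : Cl (V ⊕ Unit) :=
  mk (f (rd (fs z))) (fun _ => ze f Wm Wp (fs z) (sn z ()))

private theorem A6_dmf (z : Cl (V ⊕ Unit)) : dm (fs z) ≤ dm z := by
  rw [dm_px]
  exact Nat.le_add_right _ _

theorem cx_cut {Wm Wp : Set (Cl V)} (hm : Cx Wm) (hp : Cx Wp) : Cx (cutW Wm Wp) := by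
  have hU : Cx (Wm ∪ Wp) := by
    refine ⟨hm.fin.union hp.fin, ?_⟩
    rintro c (hc | hc) d hd
    · exact Or.inl (hm.clo c hc d hd)
    · exact Or.inr (hp.clo c hc d hd)
  constructor
  · refine (cx_px hU (cx_in 1)).fin.subset ?_
    rintro z (⟨h1, h2⟩ | ⟨h1, h2⟩ | ⟨h1, _, h2⟩)
    · refine ⟨Or.inl h1, ?_⟩
      show 0 ≤ sn z () ∧ sn z () ≤ 2 * ((1 : ℕ) : ℤ)
      omega
    · refine ⟨Or.inr h1, ?_⟩
      show 0 ≤ sn z () ∧ sn z () ≤ 2 * ((1 : ℕ) : ℤ)
      omega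
    · refine ⟨Or.inl h1, ?_⟩
      show 0 ≤ sn z () ∧ sn z () ≤ 2 * ((1 : ℕ) : ℤ)
      omega
  · rintro z hz d hd
    obtain ⟨h1, h2⟩ := fa_px.1 hd
    have h3 : fc (sn d ()) (sn z ()) := h2 ()
    rcases hz with ⟨h4, h5⟩ | ⟨h4, h5⟩ | ⟨h4, h6, h5⟩
    · rw [h5] at h3
      exact Or.inl ⟨hm.clo _ h4 _ h1, fc_even h3 (by norm_num)⟩
    · rw [h5] at h3
      exact Or.inr (Or.inl ⟨hp.clo _ h4 _ h1, fc_even h3 (by norm_num)⟩)
    · rw [h5] at h3
      have h7 := hm.clo _ h4 _ h1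
      have h8 := hp.clo _ h6 _ h1
      unfold fc at h3
      have h9 : sn d () = 0 ∨ sn d () = 2 ∨ sn d () = 1 := by omega
      rcases h9 with h9 | h9 | h9
      · exact Or.inl ⟨h7, h9⟩
      · exact Or.inr (Or.inl ⟨h8, h9⟩)
      · exact Or.inr (Or.inr ⟨h7, h8, h9⟩)

theorem sk_cut (Wm Wp : Set (Cl V)) :
    sk k (cutW (sk k Wm) (sk k Wp)) = sk k (cutW Wm Wp) := by
  ext z
  constructor
  · rintro ⟨⟨h1, h2⟩ | ⟨h1, h2⟩ | ⟨h1, h3, h2⟩, hk⟩
    · exact ⟨Or.inl ⟨h1.1, h2⟩, hk⟩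
    · exact ⟨Or.inr (Or.inl ⟨h1.1, h2⟩), hk⟩
    · exact ⟨Or.inr (Or.inr ⟨h1.1, h3.1, h2⟩), hk⟩
  · rintro ⟨hz, hk⟩
    have h0 : dm (fs z) ≤ k := (A6_dmf z).trans hk
    rcases hz with ⟨h1, h2⟩ | ⟨h1, h2⟩ | ⟨h1, h3, h2⟩
    · exact ⟨Or.inl ⟨⟨h1, h0⟩, h2⟩, hk⟩
    · exact ⟨Or.inr (Or.inl ⟨⟨h1, h0⟩, h2⟩), hk⟩
    · exact ⟨Or.inr (Or.inr ⟨⟨h1, h0⟩, ⟨h3, h0⟩, h2⟩), hk⟩

/-- membership facts for one cell -/
private theorem A6_facts {X : Set (Cl J)} {Wm Wp : Set (Cl V)} (hX : Clo X) (hm : Clo Wm)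
    (hp : Clo Wp) {f : Cl J → Cl V} (hf : Cub X (Wm ∪ Wp) f) {c : Cl J} (hc : c ∈ Gr 8 X) :
    (f (ca 8 c) ∈ Wm ∨ f (ca 8 c) ∈ Wp) ∧ (f (ca 8 c) ∈ Wm → f (sm c) ∈ Wm) ∧
      (f (ca 8 c) ∈ Wp → f (sm c) ∈ Wp) ∧ (f (sm c) ∈ Wm → f (rd c) ∈ Wm) ∧
      (f (sm c) ∈ Wp → f (rd c) ∈ Wp) ∧ rd c ∈ X ∧ sm c ∈ X := by
  have hcX : ca 8 c ∈ X := hc
  have h1 : sm c ∈ X := hX _ hcX _ (sm_ca c)
  have h2 : rd c ∈ X := hX _ hcX _ (rd_ca c)
  have h3 := hf.mono _ hcX _ (sm_ca c)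
  have h4 := hf.mono _ h1 _ (rd_sm c)
  exact ⟨hf.map _ hcX, fun h => hm _ h _ h3, fun h => hp _ h _ h3, fun h => hm _ h _ h4,
    fun h => hp _ h _ h4, h2, h1⟩

theorem cub_cut {X : Set (Cl J)} {Wm Wp : Set (Cl V)} (hX : Clo X) (hm : Clo Wm) (hp : Clo Wp)
    {f : Cl J → Cl V} (hf : Cub X (Wm ∪ Wp) f) :
    Cub (Px (Gr 8 X) (In 1)) (cutW Wm Wp) (cutF f Wm Wp) := by
  classical
  constructor
  · constructor
    · rintro z ⟨hz, hu⟩
      obtain ⟨f1, f2, f3, f4, f5, -, -⟩ := A6_facts hX hm hp hf hz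
      have hu' : 0 ≤ sn z () ∧ sn z () ≤ 2 * ((1 : ℕ) : ℤ) := hu
      show mk (f (rd (fs z))) (fun _ => ze f Wm Wp (fs z) (sn z ())) ∈ cutW Wm Wp
      have key : (f (rd (fs z)) ∈ Wm ∧ ze f Wm Wp (fs z) (sn z ()) = 0) ∨
          (f (rd (fs z)) ∈ Wp ∧ ze f Wm Wp (fs z) (sn z ()) = 2) ∨
          (f (rd (fs z)) ∈ Wm ∧ f (rd (fs z)) ∈ Wp ∧ ze f Wm Wp (fs z) (sn z ()) = 1) := by
        unfold ze
        by_cases ha : f (ca 8 (fs z)) ∈ Wm
        · rw [if_pos ha]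
          have hs := f2 ha
          have hrm := f4 hs
          by_cases hb : f (ca 8 (fs z)) ∈ Wp
          · rw [if_pos hb]
            have hrp := f5 (f3 hb)
            have h9 : sn z () = 0 ∨ sn z () = 2 ∨ sn z () = 1 := by omega
            rcases h9 with h9 | h9 | h9
            · exact Or.inl ⟨hrm, h9⟩
            · exact Or.inr (Or.inl ⟨hrp, h9⟩)
            · exact Or.inr (Or.inr ⟨hrm, hrp, h9⟩)
          · rw [if_neg hb]
            by_cases ht : f (sm (fs z)) ∈ Wp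
            · rw [if_pos ht]
              have hrp := f5 ht
              have h9 : min (sn z ()) 1 = 0 ∨ min (sn z ()) 1 = 1 := by omega
              rcases h9 with h9 | h9
              · exact Or.inl ⟨hrm, h9⟩
              · exact Or.inr (Or.inr ⟨hrm, hrp, h9⟩)
            · rw [if_neg ht]
              exact Or.inl ⟨hrm, rfl⟩
        · rw [if_neg ha]
          have hb : f (ca 8 (fs z)) ∈ Wp := f1.resolve_left ha
          have hrp := f5 (f3 hb)
          by_cases hs : f (sm (fs z)) ∈ Wm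
          · rw [if_pos hs]
            have hrm := f4 hs
            have h9 : max (sn z ()) 1 = 2 ∨ max (sn z ()) 1 = 1 := by omega
            rcases h9 with h9 | h9
            · exact Or.inr (Or.inl ⟨hrp, h9⟩)
            · exact Or.inr (Or.inr ⟨hrm, hrp, h9⟩)
          · rw [if_neg hs]
            exact Or.inr (Or.inl ⟨hrp, rfl⟩)
      exact key
    · rintro z ⟨hz, hu⟩ d hd
      obtain ⟨f1, f2, f3, f4, f5, f6, f7⟩ := A6_facts hX hm hp hf hz
      have hu' : 0 ≤ sn z () ∧ sn z () ≤ 2 * ((1 : ℕ) : ℤ) := hu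
      obtain ⟨h1, h2⟩ := fa_px.1 hd
      have h3 : fc (sn d ()) (sn z ()) := h2 ()
      have hdX : fs d ∈ Gr 8 X := clo_gr8 hX _ hz _ h1
      obtain ⟨g1, g2, g3, g4, g5, g6, g7⟩ := A6_facts hX hm hp hf hdX
      have hca := hf.mono _ hz _ (ca8_fa h1)
      have hsm := hf.mono _ g7 _ (sm_anti h1)
      have ka : f (ca 8 (fs z)) ∈ Wm → f (ca 8 (fs d)) ∈ Wm := fun h => hm _ h _ hca
      have kb : f (ca 8 (fs z)) ∈ Wp → f (ca 8 (fs d)) ∈ Wp := fun h => hp _ h _ hca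
      have ks : f (sm (fs d)) ∈ Wm → f (sm (fs z)) ∈ Wm := fun h => hm _ h _ hsm
      have kt : f (sm (fs d)) ∈ Wp → f (sm (fs z)) ∈ Wp := fun h => hp _ h _ hsm
      have hfst : Fa (f (rd (fs d))) (f (rd (fs z))) := hf.mono _ f6 _ (rd_fa h1)
      have hsnd : fc (ze f Wm Wp (fs d) (sn d ())) (ze f Wm Wp (fs z) (sn z ())) := by
        unfold fc at h3 ⊢
        unfold ze
        by_cases ha : f (ca 8 (fs z)) ∈ Wm
        · have ha' := ka ha
          rw [if_pos ha, if_pos ha']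
          by_cases hb : f (ca 8 (fs z)) ∈ Wp
          · rw [if_pos hb, if_pos (kb hb)]
            exact h3
          · rw [if_neg hb]
            by_cases ht : f (sm (fs z)) ∈ Wp
            · rw [if_pos ht]
              by_cases hb' : f (ca 8 (fs d)) ∈ Wp
              · rw [if_pos hb']
                omega
              · rw [if_neg hb']
                by_cases ht' : f (sm (fs d)) ∈ Wp
                · rw [if_pos ht']
                  omega
                · rw [if_neg ht']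
                  omega
            · rw [if_neg ht]
              have ht' : f (sm (fs d)) ∉ Wp := fun h => ht (kt h)
              have hb' : f (ca 8 (fs d)) ∉ Wp := fun h => ht' (g3 h)
              rw [if_neg hb', if_neg ht']
              omega
        · rw [if_neg ha]
          have hb : f (ca 8 (fs z)) ∈ Wp := f1.resolve_left ha
          have hb' := kb hb
          by_cases hs : f (sm (fs z)) ∈ Wm
          · rw [if_pos hs]
            by_cases ha' : f (ca 8 (fs d)) ∈ Wm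
            · rw [if_pos ha', if_pos hb']
              omega
            · rw [if_neg ha']
              by_cases hs' : f (sm (fs d)) ∈ Wm
              · rw [if_pos hs']
                omega
              · rw [if_neg hs']
                omega
          · rw [if_neg hs]
            have hs' : f (sm (fs d)) ∉ Wm := fun h => hs (ks h)
            have ha' : f (ca 8 (fs d)) ∉ Wm := fun h => hs' (g2 h)
            rw [if_neg ha', if_neg hs']
            omega
      intro x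
      cases x with
      | inl j => exact hfst j
      | inr j => exact hsnd
  · rintro z ⟨hz, hu⟩
    obtain ⟨f1, f2, f3, f4, f5, f6, f7⟩ := A6_facts hX hm hp hf hz
    have hu' : 0 ≤ sn z () ∧ sn z () ≤ 2 * ((1 : ℕ) : ℤ) := hu
    have e1 : dm (cutF f Wm Wp z) = dm (f (rd (fs z))) +
        if ze f Wm Wp (fs z) (sn z ()) % 2 = 1 then 1 else 0 := by
      rw [dm_px]
      show dm (f (rd (fs z))) + dm (fun _ : Unit => ze f Wm Wp (fs z) (sn z ())) = _
      rw [dm_unit]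
    have e2 : dm z = dm (fs z) + if sn z () % 2 = 1 then 1 else 0 := by
      rw [dm_px, dm_unit]
    have h1 : dm (f (rd (fs z))) ≤ dm (rd (fs z)) := hf.dim _ f6
    have h2 : dm (rd (fs z)) ≤ dm (fs z) := dm_rd _
    rw [e1, e2]
    by_cases h3 : ze f Wm Wp (fs z) (sn z ()) % 2 = 1
    · by_cases h4 : sn z () % 2 = 1
      · rw [if_pos h3, if_pos h4]
        omega
      · rw [if_pos h3, if_neg h4]
        have h5 : sm (fs z) ≠ ca 8 (fs z) := by
          intro heq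
          unfold ze at h3
          by_cases ha : f (ca 8 (fs z)) ∈ Wm
          · rw [if_pos ha] at h3
            by_cases hb : f (ca 8 (fs z)) ∈ Wp
            · rw [if_pos hb] at h3
              exact h4 h3
            · rw [if_neg hb, if_neg (by rw [heq]; exact hb)] at h3
              omega
          · rw [if_neg ha, if_neg (by rw [heq]; exact ha)] at h3
            omega
        have h6 := dm_rd_lt h5
        omega
    · rw [if_neg h3]
      omega

/-- where the second coordinate is 0 -/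
theorem ze_zero {X : Set (Cl J)} {Wm Wp : Set (Cl V)} (hX : Clo X) (hm : Clo Wm) (hp : Clo Wp)
    {f : Cl J → Cl V} (hf : Cub X (Wm ∪ Wp) f) {c : Cl J} (hc : c ∈ Gr 8 X) {u : ℤ}
    (h0 : 0 ≤ u) (h2 : u ≤ 2) :
    ze f Wm Wp c u = 0 ↔ f (ca 8 c) ∈ Wm ∧ (u = 0 ∨ f (sm c) ∉ Wp) := by
  classical
  obtain ⟨f1, f2, f3, -, -, -, -⟩ := A6_facts hX hm hp hf hc
  unfold ze
  by_cases ha : f (ca 8 c) ∈ Wm
  · rw [if_pos ha]
    by_cases hb : f (ca 8 c) ∈ Wp
    · rw [if_pos hb]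
      exact ⟨fun h => ⟨ha, Or.inl h⟩, fun h => h.2.resolve_right fun h' => h' (f3 hb)⟩
    · rw [if_neg hb]
      by_cases ht : f (sm c) ∈ Wp
      · rw [if_pos ht]
        refine ⟨fun h => ⟨ha, Or.inl (by omega)⟩, fun h => ?_⟩
        have h' := h.2.resolve_right fun h' => h' ht
        omega
      · rw [if_neg ht]
        exact ⟨fun _ => ⟨ha, Or.inr ht⟩, fun _ => rfl⟩
  · rw [if_neg ha]
    refine ⟨fun h => ?_, fun h => absurd h.1 ha⟩
    exfalso
    by_cases hs : f (sm c) ∈ Wm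
    · rw [if_pos hs] at h
      omega
    · rw [if_neg hs] at h
      omega

/-- where the second coordinate is 2 -/
theorem ze_two {X : Set (Cl J)} {Wm Wp : Set (Cl V)} (hX : Clo X) (hm : Clo Wm) (hp : Clo Wp)
    {f : Cl J → Cl V} (hf : Cub X (Wm ∪ Wp) f) {c : Cl J} (hc : c ∈ Gr 8 X) {u : ℤ}
    (h0 : 0 ≤ u) (h2 : u ≤ 2) :
    ze f Wm Wp c u = 2 ↔ f (ca 8 c) ∈ Wp ∧ (u = 2 ∨ f (sm c) ∉ Wm) := by
  classical
  obtain ⟨f1, f2, f3, -, -, -, -⟩ := A6_facts hX hm hp hf hc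
  unfold ze
  by_cases ha : f (ca 8 c) ∈ Wm
  · rw [if_pos ha]
    by_cases hb : f (ca 8 c) ∈ Wp
    · rw [if_pos hb]
      exact ⟨fun h => ⟨hb, Or.inl h⟩, fun h => h.2.resolve_right fun h' => h' (f2 ha)⟩
    · rw [if_neg hb]
      refine ⟨fun h => ?_, fun h => absurd h.1 hb⟩
      exfalso
      by_cases ht : f (sm c) ∈ Wp
      · rw [if_pos ht] at h
        omega
      · rw [if_neg ht] at h
        omega
  · rw [if_neg ha]
    have hb : f (ca 8 c) ∈ Wp := f1.resolve_left ha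
    by_cases hs : f (sm c) ∈ Wm
    · rw [if_pos hs]
      refine ⟨fun h => ⟨hb, Or.inl (by omega)⟩, fun h => ?_⟩
      have h' := h.2.resolve_right fun h' => h' hs
      omega
    · rw [if_neg hs]
      exact ⟨fun _ => ⟨hb, Or.inr hs⟩, fun _ => rfl⟩

end MNG
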