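import Pool.Agent.MNG.A6
import Pool.Agent.MNG.A4

/-!
# MNG-A7: the map to the cut complex is soft

`cut_con`: the last coordinate moves linearly to the real number `e / 2`. `cs_cutE`: the homotopy lemma `rdh` of the
rounding. `soft_cut`: the fibres over the cells `(S, 0)`, `(S, 1)`, `(S, 2)`.
-/

set_option autoImplicit false

noncomputable section

namespace MNG

open AGM (Ei Bl Sp)
open Set Topology

variable {J V : Type} [Fintype J] [Fintype V] {k : ℕ}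

omit [Fintype J] in
private theorem a7_body {E E' : Set (Cl J)} {e : ℤ} (he : e = 0 ∨ e = 2) (w : J ⊕ Unit → ℝ) :
    w ∈ Bo {z : Cl (J ⊕ Unit) | (fs z ∈ E ∧ sn z () = e) ∨ (fs z ∈ E' ∧ 0 ≤ sn z () ∧ sn z () ≤ 2)} ↔
    ((fun j => w (Sum.inl j)) ∈ Bo E ∧ w (Sum.inr ()) = (e : ℝ) / 2) ∨
      ((fun j => w (Sum.inl j)) ∈ Bo E' ∧ 0 ≤ w (Sum.inr ()) ∧ w (Sum.inr ()) ≤ 1) := by
  constructor
  · rintro ⟨z, hz, hw⟩
    have h1 : (fun j => w (Sum.inl j)) ∈ bo (fs z) := fun j => hw (Sum.inl j)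
    have h2 : |2 * w (Sum.inr ()) - (sn z () : ℝ)| ≤ ((sn z () % 2 : ℤ) : ℝ) := hw (Sum.inr ())
    rcases hz with ⟨h3, h4⟩ | ⟨h3, h4, h5⟩
    · left
      refine ⟨⟨fs z, h3, h1⟩, ?_⟩
      have h6 : sn z () % 2 = 0 := by omega
      rw [h6, h4, Int.cast_zero, abs_nonpos_iff] at h2
      linarith
    · right
      refine ⟨⟨fs z, h3, h1⟩, ?_⟩
      have h6 : sn z () = 0 ∨ sn z () = 1 ∨ sn z () = 2 := by omega
      have h7 := abs_le.1 h2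
      rcases h6 with h6 | h6 | h6
      · rw [h6] at h7
        norm_num at h7
        exact ⟨by linarith [h7.1, h7.2], by linarith [h7.1, h7.2]⟩
      · rw [h6] at h7
        norm_num at h7
        exact ⟨by linarith [h7.1, h7.2], by linarith [h7.1, h7.2]⟩
      · rw [h6] at h7
        norm_num at h7
        exact ⟨by linarith [h7.1, h7.2], by linarith [h7.1, h7.2]⟩
  · rintro (⟨⟨c, hc, hw⟩, h2⟩ | ⟨⟨c, hc, hw⟩, h2, h3⟩)
    · refine ⟨mk c (fun _ => e), Or.inl ⟨hc, rfl⟩, ?_⟩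
      rintro (j | u)
      · exact hw j
      · change |2 * w (Sum.inr ()) - (e : ℝ)| ≤ ((e % 2 : ℤ) : ℝ)
        have h6 : e % 2 = 0 := by omega
        rw [h6, h2, Int.cast_zero, abs_nonpos_iff]
        ring
    · refine ⟨mk c (fun _ => 1), Or.inr ⟨hc, zero_le_one, one_le_two⟩, ?_⟩
      rintro (j | u)
      · exact hw j
      · change |2 * w (Sum.inr ()) - ((1 : ℤ) : ℝ)| ≤ (((1 : ℤ) % 2 : ℤ) : ℝ)
        rw [abs_le]
        norm_num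
        constructor <;> linarith

theorem cut_con {E E' : Set (Cl J)} (hE : Clo E) (hE' : Clo E') (hs : E' ⊆ E) {e : ℤ}
    (he : e = 0 ∨ e = 2) (h : Cs k (Bo E)) :
    Cs k (Bo {z : Cl (J ⊕ Unit) | (fs z ∈ E ∧ sn z () = e) ∨
      (fs z ∈ E' ∧ 0 ≤ sn z () ∧ sn z () ≤ 2)}) := by
  have hEE : Bo E' ⊆ Bo E := fun x ⟨c, hc, hx⟩ => ⟨c, hs hc, hx⟩
  have he0 : 0 ≤ (e : ℝ) / 2 ∧ (e : ℝ) / 2 ≤ 1 := by
    rcases he with rfl | rfl <;> norm_num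
  have hB' : Cs k {w : J ⊕ Unit → ℝ | (fun j => w (Sum.inl j)) ∈ Bo E ∧
      w (Sum.inr ()) = (e : ℝ) / 2} := by
    refine cs_dom (Bo E) _ (fun x : J → ℝ => (Sum.elim x (fun _ => (e : ℝ) / 2) : J ⊕ Unit → ℝ))
      (fun w j => w (Sum.inl j)) ?_ ?_ (fun x hx => ⟨hx, rfl⟩) (fun w hw => hw.1) ?_ h
    · apply Continuous.continuousOn
      refine continuous_pi fun j => ?_
      cases j with
      | inl j => exact continuous_apply j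
      | inr v => exact continuous_const
    · apply Continuous.continuousOn
      exact continuous_pi fun j => continuous_apply (Sum.inl j)
    · intro w hw
      funext j
      rcases j with j | u
      · rfl
      · exact hw.2.symm
  refine cs_hom _ {w : J ⊕ Unit → ℝ | (fun j => w (Sum.inl j)) ∈ Bo E ∧
      w (Sum.inr ()) = (e : ℝ) / 2} ?_
    (fun t w => (Sum.elim (fun j => w (Sum.inl j))
      (fun _ => (1 - t) * w (Sum.inr ()) + t * ((e : ℝ) / 2)) : J ⊕ Unit → ℝ)) ?_ ?_ ?_ ?_ hB'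
  · intro w hw
    exact (a7_body he w).2 (Or.inl hw)
  · apply Continuous.continuousOn
    refine continuous_pi fun j => ?_
    cases j with
    | inl j =>
      change Continuous fun z : ℝ × (J ⊕ Unit → ℝ) => z.2 (Sum.inl j)
      fun_prop
    | inr v =>
      change Continuous fun z : ℝ × (J ⊕ Unit → ℝ) =>
        (1 - z.1) * z.2 (Sum.inr ()) + z.1 * ((e : ℝ) / 2)
      fun_prop
  · intro w _
    funext j
    rcases j with j | u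
    · rfl
    · change (1 - 0) * w (Sum.inr ()) + 0 * ((e : ℝ) / 2) = w (Sum.inr ())
      ring
  · intro w hw
    refine ⟨?_, ?_⟩
    · change (fun j => w (Sum.inl j)) ∈ Bo E
      rcases (a7_body he w).1 hw with h1 | h1
      · exact h1.1
      · exact hEE h1.1
    · change (1 - 1) * w (Sum.inr ()) + 1 * ((e : ℝ) / 2) = (e : ℝ) / 2
      ring
  · intro t ht w hw
    rw [a7_body he]
    change ((fun j => w (Sum.inl j)) ∈ Bo E ∧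
      (1 - t) * w (Sum.inr ()) + t * ((e : ℝ) / 2) = (e : ℝ) / 2) ∨
      ((fun j => w (Sum.inl j)) ∈ Bo E' ∧
      0 ≤ (1 - t) * w (Sum.inr ()) + t * ((e : ℝ) / 2) ∧
      (1 - t) * w (Sum.inr ()) + t * ((e : ℝ) / 2) ≤ 1)
    have ht0 := ht.1
    have ht1 := ht.2
    rcases (a7_body he w).1 hw with ⟨h1, h2⟩ | ⟨h1, h2, h3⟩
    · left
      refine ⟨h1, ?_⟩
      rw [h2]
      ring
    · right
      refine ⟨h1, ?_, ?_⟩
      · have h4 := mul_nonneg (sub_nonneg.2 ht1) h2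
        have h5 := mul_nonneg ht0 he0.1
        linarith
      · have h4 := mul_le_mul_of_nonneg_left h3 (sub_nonneg.2 ht1)
        have h5 := mul_le_mul_of_nonneg_left he0.2 ht0
        linarith

theorem cs_cutE {X : Set (Cl J)} {W : Set (Cl V)} (hX : Clo X) {f : Cl J → Cl V}
    (hf : Mon X W f) (P : Set (Cl V)) (hP : Clo P) {S : Cl V} (hS : S ∈ P)
    (h : Cs k (Bo (Fb f X S))) :
    Cs k (Bo {c | c ∈ Gr 8 X ∧ Fa (f (rd c)) S ∧ f (ca 8 c) ∈ P}) := by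
  refine rdh (Fb f X S) _ ?_ ?_ ?_ ?_ h
  · intro c hc d hd
    exact ⟨hX c hc.1 d hd, fa_trans (hf.mono c hc.1 d hd) hc.2⟩
  · rintro c ⟨h1, h2, h3⟩ c' h4 h5
    have h6 : ca 8 c ∈ X := h1
    exact ⟨hX _ h6 _ h5, fa_trans (hf.mono _ (hX _ h6 _ (rd_ca c)) _ h4) h2,
      hP _ h3 _ (hf.mono _ h6 _ h5)⟩
  · rintro c ⟨h1, h2, -⟩
    exact ⟨hX _ h1 _ (rd_ca c), h2⟩
  · rintro c ⟨h1, h2⟩
    exact ⟨h1, fa_trans (hf.mono _ h1 _ (rd_ca c)) h2, hP _ hS _ h2⟩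

theorem soft_cut {X : Set (Cl J)} {Wm Wp : Set (Cl V)} (hX : Clo X) (hm : Clo Wm) (hp : Clo Wp)
    {f : Cl J → Cl V} (hf : Cub X (Wm ∪ Wp) f) (hs : Soft k X (Wm ∪ Wp) f) :
    Soft k (Px (Gr 8 X) (In 1)) (cutW Wm Wp) (cutF f Wm Wp) := by
  classical
  have hmono : Mon X (Wm ∪ Wp) f := hf.toMon
  have hcl : ∀ (P : Set (Cl V)) (S : Cl V), Clo P →
      Clo {c | c ∈ Gr 8 X ∧ Fa (f (rd c)) S ∧ f (ca 8 c) ∈ P} := by
    rintro P S hP c ⟨h1, h2, h3⟩ d hd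
    have h6 : ca 8 c ∈ X := h1
    exact ⟨hX _ h6 _ (ca8_fa hd), fa_trans (hmono.mono _ (hX _ h6 _ (rd_ca c)) _ (rd_fa hd)) h2,
      hP _ h3 _ (hmono.mono _ h6 _ (ca8_fa hd))⟩
  have hcl' : ∀ (P Q : Set (Cl V)) (S : Cl V), Clo P → Clo Q →
      Clo {c | c ∈ {c | c ∈ Gr 8 X ∧ Fa (f (rd c)) S ∧ f (ca 8 c) ∈ P} ∧ f (sm c) ∉ Q} := by
    rintro P Q S hP hQ c ⟨h1, h2⟩ d hd
    refine ⟨hcl P S hP c h1 d hd, fun h3 => h2 ?_⟩
    have h4 : ca 8 c ∈ X := h1.1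
    have h5 : sm d ∈ X := hX _ (hX _ h4 _ (ca8_fa hd)) _ (sm_ca d)
    exact hQ _ h3 _ (hmono.mono _ h5 _ (sm_anti hd))
  rintro S hS
  have hfb : ∀ z, z ∈ Fb (cutF f Wm Wp) (Px (Gr 8 X) (In 1)) S ↔
      (fs z ∈ Gr 8 X ∧ 0 ≤ sn z () ∧ sn z () ≤ 2) ∧ Fa (f (rd (fs z))) (fs S) ∧
        fc (ze f Wm Wp (fs z) (sn z ())) (sn S ()) := by
    intro z
    have h1 : z ∈ Fb (cutF f Wm Wp) (Px (Gr 8 X) (In 1)) S ↔
      (fs z ∈ Gr 8 X ∧ 0 ≤ sn z () ∧ sn z () ≤ 2 * ((1 : ℕ) : ℤ)) ∧ Fa (cutF f Wm Wp z) S := Iff.rfl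
    rw [h1, fa_px, fa_unit, Nat.cast_one, mul_one]
    rfl
  rcases hS with ⟨h1, h2⟩ | ⟨h1, h2⟩ | ⟨h1, h2, h3⟩
  · have h4 : Fb (cutF f Wm Wp) (Px (Gr 8 X) (In 1)) S =
        {z : Cl (J ⊕ Unit) | (fs z ∈ {c | c ∈ Gr 8 X ∧ Fa (f (rd c)) (fs S) ∧ f (ca 8 c) ∈ Wm} ∧
          sn z () = 0) ∨ (fs z ∈ {c | c ∈ {c | c ∈ Gr 8 X ∧ Fa (f (rd c)) (fs S) ∧
            f (ca 8 c) ∈ Wm} ∧ f (sm c) ∉ Wp} ∧ 0 ≤ sn z () ∧ sn z () ≤ 2)} := by
      ext z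
      rw [hfb, h2]
      constructor
      · rintro ⟨⟨a1, a2, a3⟩, a4, a5⟩
        have a6 := (ze_zero hX hm hp hf a1 a2 a3).1 (fc_even a5 (by norm_num))
        rcases a6.2 with a7 | a7
        · exact Or.inl ⟨⟨a1, a4, a6.1⟩, a7⟩
        · exact Or.inr ⟨⟨⟨a1, a4, a6.1⟩, a7⟩, a2, a3⟩
      · rintro (⟨⟨a1, a4, a6⟩, a7⟩ | ⟨⟨⟨a1, a4, a6⟩, a7⟩, a2, a3⟩)
        · refine ⟨⟨a1, by omega, by omega⟩, a4, Or.inl ?_⟩
          exact (ze_zero hX hm hp hf a1 (by omega) (by omega)).2 ⟨a6, Or.inl a7⟩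
        · refine ⟨⟨a1, a2, a3⟩, a4, Or.inl ?_⟩
          exact (ze_zero hX hm hp hf a1 a2 a3).2 ⟨a6, Or.inr a7⟩
    rw [h4]
    exact cut_con (hcl Wm (fs S) hm) (hcl' Wm Wp (fs S) hm hp) (fun c hc => hc.1) (Or.inl rfl)
      (cs_cutE hX hmono Wm hm h1 (hs _ (Or.inl h1)))
  · have h4 : Fb (cutF f Wm Wp) (Px (Gr 8 X) (In 1)) S =
        {z : Cl (J ⊕ Unit) | (fs z ∈ {c | c ∈ Gr 8 X ∧ Fa (f (rd c)) (fs S) ∧ f (ca 8 c) ∈ Wp} ∧
          sn z () = 2) ∨ (fs z ∈ {c | c ∈ {c | c ∈ Gr 8 X ∧ Fa (f (rd c)) (fs S) ∧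
            f (ca 8 c) ∈ Wp} ∧ f (sm c) ∉ Wm} ∧ 0 ≤ sn z () ∧ sn z () ≤ 2)} := by
      ext z
      rw [hfb, h2]
      constructor
      · rintro ⟨⟨a1, a2, a3⟩, a4, a5⟩
        have a6 := (ze_two hX hm hp hf a1 a2 a3).1 (fc_even a5 (by norm_num))
        rcases a6.2 with a7 | a7
        · exact Or.inl ⟨⟨a1, a4, a6.1⟩, a7⟩
        · exact Or.inr ⟨⟨⟨a1, a4, a6.1⟩, a7⟩, a2, a3⟩
      · rintro (⟨⟨a1, a4, a6⟩, a7⟩ | ⟨⟨⟨a1, a4, a6⟩, a7⟩, a2, a3⟩)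
        · refine ⟨⟨a1, by omega, by omega⟩, a4, Or.inl ?_⟩
          exact (ze_two hX hm hp hf a1 (by omega) (by omega)).2 ⟨a6, Or.inl a7⟩
        · refine ⟨⟨a1, a2, a3⟩, a4, Or.inl ?_⟩
          exact (ze_two hX hm hp hf a1 a2 a3).2 ⟨a6, Or.inr a7⟩
    rw [h4]
    exact cut_con (hcl Wp (fs S) hp) (hcl' Wp Wm (fs S) hp hm) (fun c hc => hc.1) (Or.inr rfl)
      (cs_cutE hX hmono Wp hp h1 (hs _ (Or.inr h1)))
  · have h4 : Fb (cutF f Wm Wp) (Px (Gr 8 X) (In 1)) S =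
        Px {c | c ∈ Gr 8 X ∧ Fa (f (rd c)) (fs S) ∧ f (ca 8 c) ∈ (Set.univ : Set (Cl V))}
          (In 1) := by
      ext z
      rw [hfb, h3]
      constructor
      · rintro ⟨⟨a1, a2, a3⟩, a4, -⟩
        refine ⟨⟨a1, a4, trivial⟩, a2, ?_⟩
        rw [Nat.cast_one, mul_one]
        exact a3
      · rintro ⟨⟨a1, a4, -⟩, a2, a3⟩
        rw [Nat.cast_one, mul_one] at a3
        refine ⟨⟨a1, a2, a3⟩, a4, ?_⟩
        have h5 : 0 ≤ ze f Wm Wp (fs z) (sn z ()) ∧ ze f Wm Wp (fs z) (sn z ()) ≤ 2 := by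
          unfold ze
          split_ifs <;> omega
        unfold fc
        omega
    rw [h4]
    exact cs_px (cs_cutE hX hmono Set.univ (fun _ _ _ _ => trivial) trivial (hs _ (Or.inl h1)))
      (cs_in 1)

end MNG
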