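import Pool.Agent.MNG.A5
import Pool.Agent.MNG.A7

/-!
# MNG-A8: the cut of a dominated complex is dominated

`f : T.X (b + n) → sk k (Wm ∪ Wp) = sk k Wm ∪ sk k Wp`: `ab_cyl` with
`Q = cutF f (sk k Wm) (sk k Wp)` (`cub_cut`, `soft_cut`), then `sk_cut`. The carrier of `Q z` is
`κ (f (rd (fs z)))`, a face of `kk b n (rd (fs z))` and so of `kk b n (ca 8 (fs z))` (`kk_fa`, `rd_ca`).
`ab_prism`: `Wm = Wp = W`, then `ab_soft'` with the identity (or rewrite the set: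
`cutW W W = Px W (In 1)`).
-/

set_option autoImplicit false

noncomputable section

namespace MNG

open AGM (Ei Bl Sp)
open Set Topology

variable {k : ℕ} {T : Tw k} {b : ℕ} {V : Type} [Fintype V] {κ : Cl V → Cl (T.J b)}

theorem ab_cut {Wm Wp : Set (Cl V)} (hm : Cx Wm) (hp : Cx Wp) (h : Ab T b (Wm ∪ Wp) κ) :
    Ab T b (cutW Wm Wp) (fun z => κ (fs z)) := by
  obtain ⟨n, f, hf, hs, hk⟩ := h
  have hu : sk k (Wm ∪ Wp) = sk k Wm ∪ sk k Wp := by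
    ext c
    constructor
    · rintro ⟨hc | hc, hd⟩
      · exact Or.inl ⟨hc, hd⟩
      · exact Or.inr ⟨hc, hd⟩
    · rintro (⟨hc, hd⟩ | ⟨hc, hd⟩)
      · exact ⟨Or.inl hc, hd⟩
      · exact ⟨Or.inr hc, hd⟩
  rw [hu] at hf hs
  have hX : Clo (T.X (b + n)) := (cx_X T (b + n)).clo
  have hm' : Clo (sk k Wm) := (cx_sk hm).clo
  have hp' : Clo (sk k Wp) := (cx_sk hp).clo
  obtain ⟨f', h1, h2, h3⟩ := ab_cyl (W := cutW (sk k Wm) (sk k Wp)) (κ := fun z => κ (fs z))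
    (cutF f (sk k Wm) (sk k Wp)) (cub_cut hX hm' hp' hf) (soft_cut hX hm' hp' hf hs) (by
      intro z hz
      have hz1 : ca 8 (fs z) ∈ T.X (b + n) := hz.1
      have h4 := hk _ (hX _ hz1 _ (rd_ca (fs z)))
      exact fa_trans h4 (kk_fa T b n hz1 (rd_ca (fs z))))
  rw [sk_cut] at h1 h2
  exact ⟨n + 1, f', h1, h2, h3⟩

theorem ab_prism {W : Set (Cl V)} (hW : Cx W) (h : Ab T b W κ) :
    Ab T b (Px W (In 1)) (fun z => κ (fs z)) := by
  have h1 : Ab T b (cutW W W) (fun z => κ (fs z)) := by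
    refine ab_cut hW hW ?_
    rwa [union_self]
  have h2 : cutW W W = Px W (In 1) := by
    ext z
    constructor
    · rintro (⟨ha, hb⟩ | ⟨ha, hb⟩ | ⟨ha, -, hb⟩)
      · exact ⟨ha, show 0 ≤ sn z () ∧ sn z () ≤ 2 * ((1 : ℕ) : ℤ) by omega⟩
      · exact ⟨ha, show 0 ≤ sn z () ∧ sn z () ≤ 2 * ((1 : ℕ) : ℤ) by omega⟩
      · exact ⟨ha, show 0 ≤ sn z () ∧ sn z () ≤ 2 * ((1 : ℕ) : ℤ) by omega⟩
    · rintro ⟨ha, hb⟩
      have hb' : 0 ≤ sn z () ∧ sn z () ≤ 2 * ((1 : ℕ) : ℤ) := hb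
      have hb2 : sn z () = 0 ∨ sn z () = 2 ∨ sn z () = 1 := by omega
      rcases hb2 with h | h | h
      · exact Or.inl ⟨ha, h⟩
      · exact Or.inr (Or.inl ⟨ha, h⟩)
      · exact Or.inr (Or.inr ⟨ha, ha, h⟩)
  rw [← h2]
  exact h1

end MNG
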