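import Pool.Agent.MNG.A6

/-!
# MNG-A9: the map of the C-move is a cube map

`t` a cell of `W`, `r` its facet in direction `i`, `o = 2 t_i - r_i` the other end, `W \\ {r, t}` closed.
Domain: the cut of `W = (W \\ {r, t}) ∪ Fc t`, `D = Fc t \\ {r, t}`. Map: `(c, 0) ↦ c`;
`(c, 2) ↦` `c` with `i`-coordinate `o`; `(c, 1) ↦ c` if `c_i = o`, otherwise `c` with `i`-coordinate
`t_i`. Image: `c` with `i`-coordinate `o` is a face of `t`, not `r`, not `t`. For `(c, 1)`, `c ∈ D`,
`c_i ≠ o`: `c` with `i`-coordinate `t_i` is not `r`, and it is `t` only if `c ∈ {r, t}`.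
Monotone: all faces `(c', u')` of `(c, 1)` go to faces: if `c_i = o` then `c'_i = o`; otherwise the
value is `≥ c` and has `i`-coordinate `t_i ≥ o`. Dimension: clear.
-/

set_option autoImplicit false

noncomputable section

namespace MNG

open AGM (Ei Bl Sp)
open Set Topology

variable {V : Type} [Fintype V] {k : ℕ}

open Classical in
/-- the map of the C-move -/
def cmH (t : Cl V) (i : V) (o : ℤ) (z : Cl (V ⊕ Unit)) : Cl V :=
  if sn z () = 0 then fs z
  else if sn z () = 2 then Function.update (fs z) i o
  else if fs z i = o then fs z else Function.update (fs z) i (t i)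

theorem cmH_zero (t : Cl V) (i : V) (o : ℤ) (z : Cl (V ⊕ Unit)) (h : sn z () = 0) :
    cmH t i o z = fs z := by
  unfold cmH
  rw [if_pos h]

open Classical in
theorem cmH_two (t : Cl V) (i : V) (o : ℤ) (z : Cl (V ⊕ Unit)) (h : sn z () = 2) :
    cmH t i o z = Function.update (fs z) i o := by
  unfold cmH
  rw [if_neg (by omega), if_pos h]

private theorem A9_one_pos (t : Cl V) (i : V) (o : ℤ) (z : Cl (V ⊕ Unit)) (h : sn z () = 1)
    (h' : fs z i = o) : cmH t i o z = fs z := by
  unfold cmH
  rw [if_neg (by omega), if_neg (by omega), if_pos h']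

open Classical in
private theorem A9_one_neg (t : Cl V) (i : V) (o : ℤ) (z : Cl (V ⊕ Unit)) (h : sn z () = 1)
    (h' : fs z i ≠ o) : cmH t i o z = Function.update (fs z) i (t i) := by
  unfold cmH
  rw [if_neg (by omega), if_neg (by omega), if_neg h']

open Classical in
private theorem A9_up {c d : Cl V} {i : V} {a b : ℤ} (h : ∀ j, j ≠ i → fc (c j) (d j))
    (hab : fc a b) : Fa (Function.update c i a) (Function.update d i b) := by
  intro j
  by_cases hj : j = i
  · subst hj
    rw [Function.update_self, Function.update_self]
    exact hab
  · rw [Function.update_of_ne hj, Function.update_of_ne hj]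
    exact h j hj

open Classical in
private theorem A9_up_l {c d : Cl V} {i : V} {a : ℤ} (h : ∀ j, j ≠ i → fc (c j) (d j))
    (hab : fc a (d i)) : Fa (Function.update c i a) d := by
  intro j
  by_cases hj : j = i
  · subst hj
    rw [Function.update_self]
    exact hab
  · rw [Function.update_of_ne hj]
    exact h j hj

open Classical in
private theorem A9_up_r {c d : Cl V} {i : V} {b : ℤ} (h : ∀ j, j ≠ i → fc (c j) (d j))
    (hab : fc (c i) b) : Fa c (Function.update d i b) := by
  intro j
  by_cases hj : j = i
  · subst hj
    rw [Function.update_self]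
    exact hab
  · rw [Function.update_of_ne hj]
    exact h j hj

open Classical in
private theorem A9_dm_even (c : Cl V) (i : V) {a : ℤ} (ha : a % 2 = 0) :
    dm (Function.update c i a) ≤ dm c := by
  unfold dm
  apply Finset.card_le_card
  intro j hj
  rw [Finset.mem_filter] at hj ⊢
  refine ⟨Finset.mem_univ _, ?_⟩
  by_cases hji : j = i
  · subst hji
    have := hj.2
    rw [Function.update_self] at this
    omega
  · have := hj.2
    rwa [Function.update_of_ne hji] at this

open Classical in
private theorem A9_dm_any (c : Cl V) (i : V) (a : ℤ) :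
    dm (Function.update c i a) ≤ dm c + 1 := by
  unfold dm
  have h : (Finset.univ.filter (fun j => Function.update c i a j % 2 = 1)) ⊆
      insert i (Finset.univ.filter (fun j => c j % 2 = 1)) := by
    intro j hj
    rw [Finset.mem_filter] at hj
    rw [Finset.mem_insert, Finset.mem_filter]
    by_cases hji : j = i
    · exact Or.inl hji
    · right
      refine ⟨Finset.mem_univ _, ?_⟩
      have := hj.2
      rwa [Function.update_of_ne hji] at this
  exact (Finset.card_le_card h).trans (Finset.card_insert_le _ _)

theorem cub_cmove {W : Set (Cl V)} (hW : Clo W) {r t : Cl V} {i : V} (ht : t ∈ W)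
    (hi : t i % 2 = 1) (hr : r i = t i - 1 ∨ r i = t i + 1) (hrj : ∀ j, j ≠ i → r j = t j)
    (hc : Clo (W \ {r, t})) :
    Cub (cutW (W \ {r, t}) (Fc t)) (W \ {r, t}) (cmH t i (2 * t i - r i)) := by
  classical
  have ho : fc (2 * t i - r i) (t i) := by
    unfold fc
    omega
  have ho2 : (2 * t i - r i) % 2 = 0 := by omega
  have hor : (2 * t i - r i) ≠ r i := by omega
  have hrt : ∀ c : Cl V, c ∈ W → c ≠ r → c ≠ t → c ∈ W \ {r, t} := by
    intro c h1 h2 h3
    refine ⟨h1, ?_⟩
    rintro (h | h)
    · exact h2 h
    · exact h3 h
  constructor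
  · constructor
    · rintro z (⟨h1, h2⟩ | ⟨h1, h2⟩ | ⟨h1, h3, h2⟩)
      · rw [cmH_zero _ _ _ _ h2]
        exact h1
      · rw [cmH_two _ _ _ _ h2]
        have h4 : Fa (Function.update (fs z) i (2 * t i - r i)) t :=
          A9_up_l (fun j _ => h1 j) ho
        apply hrt _ (hW _ ht _ h4)
        · intro h5
          have h6 := congrFun h5 i
          rw [Function.update_self] at h6
          exact hor h6
        · intro h5
          have h6 := congrFun h5 i
          rw [Function.update_self] at h6
          omega
      · by_cases h5 : fs z i = 2 * t i - r i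
        · rw [A9_one_pos _ _ _ _ h2 h5]
          exact h1
        · rw [A9_one_neg _ _ _ _ h2 h5]
          have h4 : Fa (Function.update (fs z) i (t i)) t :=
            A9_up_l (fun j _ => h3 j) (Or.inl rfl)
          apply hrt _ (hW _ ht _ h4)
          · intro h6
            have h7 := congrFun h6 i
            rw [Function.update_self] at h7
            omega
          · intro h6
            have h7 : ∀ j, j ≠ i → fs z j = t j := by
              intro j hj
              have h8 := congrFun h6 j
              rwa [Function.update_of_ne hj] at h8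
            have h9 : fc (fs z i) (t i) := h3 i
            have h10 : fs z i = t i ∨ fs z i = r i := by
              unfold fc at h9
              omega
            apply h1.2
            rcases h10 with h10 | h10
            · right
              show fs z = t
              funext j
              by_cases hj : j = i
              · rw [hj, h10]
              · exact h7 j hj
            · left
              funext j
              by_cases hj : j = i
              · rw [hj, h10]
              · rw [h7 j hj, hrj j hj]
    · rintro z (⟨h1, h2⟩ | ⟨h1, h2⟩ | ⟨h1, h3, h2⟩) d hd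
      · obtain ⟨h4, h5⟩ := fa_px.1 hd
        have h6 : fc (sn d ()) (sn z ()) := h5 ()
        have h7 : sn d () = 0 := by
          unfold fc at h6
          omega
        rw [cmH_zero _ _ _ _ h2, cmH_zero _ _ _ _ h7]
        exact h4
      · obtain ⟨h4, h5⟩ := fa_px.1 hd
        have h6 : fc (sn d ()) (sn z ()) := h5 ()
        have h7 : sn d () = 2 := by
          unfold fc at h6
          omega
        rw [cmH_two _ _ _ _ h2, cmH_two _ _ _ _ h7]
        exact A9_up (fun j _ => h4 j) (Or.inl rfl)
      · obtain ⟨h4, h5⟩ := fa_px.1 hd
        have h6 : fc (sn d ()) (sn z ()) := h5 ()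
        have h7 : sn d () = 0 ∨ sn d () = 2 ∨ sn d () = 1 := by
          unfold fc at h6
          omega
        by_cases h8 : fs z i = 2 * t i - r i
        · have h9 : fs d i = 2 * t i - r i := by
            have h10 : fc (fs d i) (fs z i) := h4 i
            unfold fc at h10
            omega
          rw [A9_one_pos _ _ _ _ h2 h8]
          rcases h7 with h7 | h7 | h7
          · rw [cmH_zero _ _ _ _ h7]
            exact h4
          · rw [cmH_two _ _ _ _ h7, ← h9, Function.update_eq_self]
            exact h4
          · rw [A9_one_pos _ _ _ _ h7 h9]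
            exact h4
        · rw [A9_one_neg _ _ _ _ h2 h8]
          have h11 : Fa (fs d) (Function.update (fs z) i (t i)) :=
            A9_up_r (fun j _ => h4 j) (fa_trans h4 h3 i)
          rcases h7 with h7 | h7 | h7
          · rw [cmH_zero _ _ _ _ h7]
            exact h11
          · rw [cmH_two _ _ _ _ h7]
            exact A9_up (fun j _ => h4 j) ho
          · by_cases h9 : fs d i = 2 * t i - r i
            · rw [A9_one_pos _ _ _ _ h7 h9]
              exact h11
            · rw [A9_one_neg _ _ _ _ h7 h9]
              exact A9_up (fun j _ => h4 j) (Or.inl rfl)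
  · rintro z (⟨h1, h2⟩ | ⟨h1, h2⟩ | ⟨h1, h3, h2⟩)
    · rw [cmH_zero _ _ _ _ h2, dm_px z]
      exact Nat.le_add_right _ _
    · rw [cmH_two _ _ _ _ h2, dm_px z]
      exact (A9_dm_even _ _ ho2).trans (Nat.le_add_right _ _)
    · by_cases h5 : fs z i = 2 * t i - r i
      · rw [A9_one_pos _ _ _ _ h2 h5, dm_px z]
        exact Nat.le_add_right _ _
      · rw [A9_one_neg _ _ _ _ h2 h5, dm_px z, dm_unit (sn z), if_pos (by omega)]
        exact A9_dm_any _ _ _

end MNG
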