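import Pool.Agent.MNG.AGD
import Pool.Agent.MNG.T1a
import Pool.Agent.MNG.C4

/-!
# MNG-AG1: integers: rounding, carrier, join parameter
-/

set_option autoImplicit false

noncomputable section

namespace MNG

open Set

theorem rd1_odd {z : ℤ} (h : rd1 z % 2 = 1) : z % 2 = 1 := by
  unfold rd1 at h
  split_ifs at h <;> omega

theorem rd1_ca (z : ℤ) : fc (rd1 z) (ca1 8 z) := by
  unfold fc rd1 ca1
  push_cast
  split_ifs <;> omega

theorem ca1_odd {z : ℤ} (h : z % 2 = 1) : ca1 8 z % 2 = 1 := by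
  unfold ca1
  push_cast
  split_ifs <;> omega

theorem tc1_fc (s : ℤ) : fc (tc1 s) s := by
  unfold fc tc1
  split_ifs <;> omega

theorem tc1_tc1 (s : ℤ) : tc1 (tc1 s) = tc1 s := by
  unfold tc1
  split_ifs <;> omega

/-- if `s` does not touch the coarse lattice, all its faces have the same carrier -/
theorem tc1_ca {s z : ℤ} (hs : tc1 s = s) (h : fc z s) : ca1 8 z = ca1 8 s := by
  unfold tc1 at hs
  unfold fc at h
  unfold ca1
  push_cast
  split_ifs at hs ⊢ <;> omega

theorem ca1_rng {z : ℤ} (h : 0 ≤ ca1 8 z ∧ ca1 8 z ≤ 2) : 0 ≤ z ∧ z ≤ 16 := by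
  unfold ca1 at h
  push_cast at h
  split_ifs at h <;> omega

theorem ca1_two {z : ℤ} : ca1 8 z = 2 ↔ z = 16 := by
  unfold ca1
  push_cast
  split_ifs <;> omega

theorem ca1_zero {z : ℤ} : ca1 8 z = 0 ↔ z = 0 := by
  unfold ca1
  push_cast
  split_ifs <;> omega

variable {N M : ℕ}

theorem la_rng (m : ℕ) (e : Cl (ZMod N × Fin M)) : la m e = 0 ∨ la m e = 1 ∨ la m e = 2 := by
  unfold la
  split_ifs <;> simp

theorem la_one {m : ℕ} {e : Cl (ZMod N × Fin M)} (h : la m e = 1) :
    ∃ a : ZMod N × Fin M, m ≤ a.2.val ∧ e a = 15 := by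
  unfold la at h
  split_ifs at h with h1 h2
  · omega
  · exact h2
  · omega

theorem la_two {m : ℕ} {e : Cl (ZMod N × Fin M)} :
    la m e = 2 ↔ ∃ a : ZMod N × Fin M, m ≤ a.2.val ∧ e a = 16 := by
  unfold la
  split_ifs with h1 h2
  · exact ⟨fun _ => h1, fun _ => rfl⟩
  · exact ⟨fun h => by omega, fun h => absurd h h1⟩
  · exact ⟨fun h => by omega, fun h => absurd h h1⟩

theorem la_zero {m : ℕ} {e : Cl (ZMod N × Fin M)} (he : ∀ a, 0 ≤ e a ∧ e a ≤ 16) :
    la m e = 0 ↔ ∀ a : ZMod N × Fin M, m ≤ a.2.val → e a ≤ 14 := by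
  unfold la
  split_ifs with h1 h2
  · obtain ⟨a, ha, h16⟩ := h1
    refine ⟨fun h => by omega, fun h => ?_⟩
    have := h a ha
    omega
  · obtain ⟨a, ha, h15⟩ := h2
    refine ⟨fun h => by omega, fun h => ?_⟩
    have := h a ha
    omega
  · refine ⟨fun _ a ha => ?_, fun _ => rfl⟩
    have h3 := (he a).2
    have h4 : e a ≠ 16 := fun h => h1 ⟨a, ha, h⟩
    have h5 : e a ≠ 15 := fun h => h2 ⟨a, ha, h⟩
    omega

theorem la_mono {m : ℕ} {d e : Cl (ZMod N × Fin M)} (he : ∀ a, 0 ≤ e a ∧ e a ≤ 16)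
    (h : Fa d e) : fc (la m d) (la m e) := by
  by_cases h2 : la m e = 2
  · obtain ⟨a, ha, h16⟩ := la_two.1 h2
    have hd : la m d = 2 := by
      refine la_two.2 ⟨a, ha, ?_⟩
      have h3 := h a
      unfold fc at h3
      omega
    left
    rw [hd, h2]
  · by_cases h0 : la m e = 0
    · have h3 := (la_zero he).1 h0
      have hd : la m d = 0 := by
        have hnd : ∀ a : ZMod N × Fin M, m ≤ a.2.val → d a ≤ 14 := by
          intro a ha
          have h4 := h3 a ha
          have h5 := h a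
          unfold fc at h5
          omega
        rcases la_rng m d with h6 | h6 | h6
        · exact h6
        · obtain ⟨a, ha, h7⟩ := la_one h6
          have := hnd a ha
          omega
        · obtain ⟨a, ha, h7⟩ := la_two.1 h6
          have := hnd a ha
          omega
      left
      rw [hd, h0]
    · have h1 : la m e = 1 := by
        rcases la_rng m e with h6 | h6 | h6
        · exact absurd h6 h0
        · exact h6
        · exact absurd h6 h2
      unfold fc
      rw [h1]
      rcases la_rng m d with h6 | h6 | h6 <;> omega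

end MNG
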