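import Pool.Agent.MNG.AG3
import Pool.Agent.MNG.T1b

/-!
# MNG-AG6: contraction of the second group of columns

For `z = 1` and `z = 2` the two sets of cells are equal; for `z = 0` the coordinates of the second
group of columns are contracted linearly to `0`.
-/

set_option autoImplicit false

noncomputable section

namespace MNG

open AGM (Ei Bl Sp)
open Set Topology

variable {V G : Type} [Fintype V] [Fintype G] {N M : ℕ} [NeZero N]

private theorem ag6_cr {J : Type} (x : J → ℝ) (j : J) :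
    (∃ m : ℤ, x j = m ∧ cr x j = 2 * m) ∨
      ∃ m : ℤ, (m : ℝ) < x j ∧ x j < m + 1 ∧ cr x j = 2 * m + 1 := by
  have e : cr x j = if |x j - round (x j)| ≤ 0 / 2 then 2 * round (x j) else 2 * ⌊x j⌋ + 1 := rfl
  by_cases h : |x j - round (x j)| ≤ 0 / 2
  · left
    refine ⟨round (x j), ?_, ?_⟩
    · rw [zero_div, abs_nonpos_iff, sub_eq_zero] at h
      exact h
    · rw [e, if_pos h]
  · right
    refine ⟨⌊x j⌋, ?_, Int.lt_floor_add_one _, ?_⟩
    · refine lt_of_le_of_ne (Int.floor_le _) fun h1 => h ?_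
      rw [← h1, round_intCast, sub_self, abs_zero, zero_div]
    · rw [e, if_neg h]

private theorem ag6_eq {J : Type} {x y : J → ℝ} {j : J} (h : x j = y j) : cr x j = cr y j := by
  have e : ∀ z : J → ℝ, cr z j =
      if |z j - round (z j)| ≤ 0 / 2 then 2 * round (z j) else 2 * ⌊z j⌋ + 1 := fun _ => rfl
  rw [e, e, h]

/-- scaling of a coordinate -/
private theorem ag6_sc {J : Type} {x y : J → ℝ} {j : J} {t : ℝ} (ht : 0 ≤ t) (ht1 : t ≤ 1)
    (h : y j = (1 - t) * x j) (h0 : 0 ≤ cr x j) (h1 : cr x j ≤ 14) :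
    0 ≤ cr y j ∧ cr y j ≤ 14 ∧ (cr x j = 0 → cr y j = 0) ∧ (t = 1 → cr y j = 0) := by
  have hx : 0 ≤ x j ∧ x j ≤ 7 ∧ (cr x j = 0 → x j = 0) := by
    rcases ag6_cr x j with ⟨m, h2, h3⟩ | ⟨m, h2, h3, h4⟩
    · have h4 : 0 ≤ m := by omega
      have h5 : m ≤ 7 := by omega
      rw [h2]
      refine ⟨by exact_mod_cast h4, by exact_mod_cast h5, fun h6 => ?_⟩
      have h7 : m = 0 := by omega
      rw [h7, Int.cast_zero]
    · have h5 : 0 ≤ m := by omega
      have h6 : m + 1 ≤ 7 := by omega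
      have h5' : (0 : ℝ) ≤ m := by exact_mod_cast h5
      have h6' : (m : ℝ) + 1 ≤ 7 := by exact_mod_cast h6
      exact ⟨by linarith, by linarith, fun h7 => by omega⟩
  have hy : 0 ≤ y j ∧ y j ≤ 7 := by
    rw [h]
    constructor
    · exact mul_nonneg (by linarith) hx.1
    · have h2 : (1 - t) * x j ≤ 1 * x j := mul_le_mul_of_nonneg_right (by linarith) hx.1
      linarith [hx.2.1]
  have hy0 : y j = 0 → cr y j = 0 := by
    intro h2
    rcases ag6_cr y j with ⟨m, h3, h4⟩ | ⟨m, h3, h4, h5⟩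
    · rw [h2] at h3
      have h5 : m = 0 := by exact_mod_cast h3.symm
      omega
    · rw [h2] at h3 h4
      have h6 : m < 0 := by exact_mod_cast h3
      have h7 : 0 < m + 1 := by exact_mod_cast h4
      omega
  refine ⟨?_, ?_, fun h2 => hy0 ?_, fun h2 => hy0 ?_⟩
  · rcases ag6_cr y j with ⟨m, h3, h4⟩ | ⟨m, h3, h4, h5⟩
    · have h5 : (0 : ℝ) ≤ m := by linarith
      have h6 : 0 ≤ m := by exact_mod_cast h5
      omega
    · have h6 : (0 : ℝ) < m + 1 := by linarith
      have h7 : 0 < m + 1 := by exact_mod_cast h6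
      omega
  · rcases ag6_cr y j with ⟨m, h3, h4⟩ | ⟨m, h3, h4, h5⟩
    · have h5 : (m : ℝ) ≤ 7 := by linarith
      have h6 : m ≤ 7 := by exact_mod_cast h5
      omega
    · have h6 : (m : ℝ) < 7 := by linarith
      have h7 : m < 7 := by exact_mod_cast h6
      omega
  · rw [h, hx.2.2 h2, mul_zero]
  · rw [h, h2, sub_self, zero_mul]

private theorem ag6_fc {a b : ℤ} (h0 : 0 ≤ a) (h1 : a ≤ 14) (h2 : 0 ≤ b) (h3 : b ≤ 14)
    (h : a = 0 → b = 0) : fc (ca1 8 b) (ca1 8 a) := by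
  have e : ∀ z : ℤ, ca1 8 z = if 2 * ((8 : ℕ) : ℤ) ∣ z then z / ((8 : ℕ) : ℤ) else
      2 * (z / (2 * ((8 : ℕ) : ℤ))) + 1 := fun _ => rfl
  rw [e, e]
  unfold fc
  split_ifs with c1 c2 c2
  · left
    omega
  · right
    omega
  · exfalso
    omega
  · left
    omega

open Classical in
/-- the homotopy -/
private def ag6_H {V G : Type} {N M : ℕ} (m : ℕ) (t : ℝ) (x : IX G V N M → ℝ) :
    IX G V N M → ℝ :=
  fun j => Sum.elim (fun v => x (Sum.inl v)) (Sum.elim (fun p => x (Sum.inr (Sum.inl p)))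
    (fun a => if m ≤ a.2.val then (1 - t) * x (Sum.inr (Sum.inr a))
      else x (Sum.inr (Sum.inr a)))) j

private theorem ag6_cont {V G : Type} {N M : ℕ} (m : ℕ) :
    Continuous (fun z : ℝ × (IX G V N M → ℝ) => ag6_H m z.1 z.2) := by
  refine continuous_pi fun j => ?_
  rcases j with v | p | a
  · show Continuous fun z : ℝ × (IX G V N M → ℝ) => z.2 (Sum.inl v)
    exact (continuous_apply (Sum.inl v)).comp continuous_snd
  · show Continuous fun z : ℝ × (IX G V N M → ℝ) => z.2 (Sum.inr (Sum.inl p))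
    exact (continuous_apply (Sum.inr (Sum.inl p))).comp continuous_snd
  · have hx : Continuous fun z : ℝ × (IX G V N M → ℝ) => z.2 (Sum.inr (Sum.inr a)) :=
      (continuous_apply (Sum.inr (Sum.inr a))).comp continuous_snd
    by_cases h : m ≤ a.2.val
    · have e : (fun z : ℝ × (IX G V N M → ℝ) => ag6_H m z.1 z.2 (Sum.inr (Sum.inr a))) =
          fun z => (1 - z.1) * z.2 (Sum.inr (Sum.inr a)) := by
        funext z
        exact if_pos h
      rw [e]
      exact (continuous_const.sub continuous_fst).mul hx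
    · have e : (fun z : ℝ × (IX G V N M → ℝ) => ag6_H m z.1 z.2 (Sum.inr (Sum.inr a))) =
          fun z => z.2 (Sum.inr (Sum.inr a)) := by
        funext z
        exact if_neg h
      rw [e]
      exact hx

private theorem ag6_main {n D m : ℕ} {K : Set (Cl V)} (hK : Cx K) (S : Cl V) {t : ℝ}
    (ht : 0 ≤ t) (ht1 : t ≤ 1) {x : IX G V N M → ℝ}
    (hx : cr x ∈ (HH n D m K S 0 : Set (Cl (IX G V N M)))) :
    cr (ag6_H m t x) ∈ (HH n D m K S 0 : Set (Cl (IX G V N M))) ∧
      (t = 1 → cr (ag6_H m t x) ∈ (HHc n D K S (Ez N M m 0) : Set (Cl (IX G V N M)))) := by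
  obtain ⟨h1, h2, h3⟩ := hx
  have hr := ag_rng h1
  have hla : la m (ep (cr x)) = 0 := by
    rcases h3 with h3 | ⟨h3, -⟩
    · exact h3
    · exact absurd h3 (by norm_num)
  have h14 := (la_zero hr).1 hla
  have hs : ∀ a : ZMod N × Fin M, m ≤ a.2.val →
      0 ≤ ep (cr (ag6_H m t x)) a ∧ ep (cr (ag6_H m t x)) a ≤ 14 ∧
      (ep (cr x) a = 0 → ep (cr (ag6_H m t x)) a = 0) ∧
      (t = 1 → ep (cr (ag6_H m t x)) a = 0) := fun a ha =>
    ag6_sc (x := x) (y := ag6_H m t x) (j := Sum.inr (Sum.inr a)) ht ht1 (if_pos ha)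
      (hr a).1 (h14 a ha)
  have hd : cr (ag6_H m t x) ∈ (Gr 8 (PG n D K) : Set (Cl (IX G V N M))) := by
    refine (pg_cx n D hK).clo _ h1 _ fun j => ?_
    rcases j with v | p | a
    · exact Or.inl (congrArg (ca1 8) (ag6_eq rfl))
    · exact Or.inl (congrArg (ca1 8) (ag6_eq rfl))
    · by_cases ha : m ≤ a.2.val
      · exact ag6_fc (hr a).1 (h14 a ha) (hs a ha).1 (hs a ha).2.1 (hs a ha).2.2.1
      · exact Or.inl (congrArg (ca1 8) (ag6_eq (if_neg ha)))
  have hb : b0 (cr (ag6_H m t x)) = b0 (cr x) := by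
    funext v
    exact ag6_eq rfl
  refine ⟨⟨hd, ?_, ?_⟩, fun h => ⟨hd, ?_, ?_, ?_, ?_⟩⟩
  · rw [hb]
    exact h2
  · left
    exact (la_zero (ag_rng hd)).2 fun a ha => (hs a ha).2.1
  · rw [hb]
    exact h2
  · obtain ⟨_, _, _, h5, _⟩ := hd
    exact h5
  · intro _ a ha
    exact ca1_zero.2 ((hs a ha).2.2.2 h)
  · intro h5
    exact absurd h5 (by norm_num)

theorem hh_red {n D m k : ℕ} {K : Set (Cl V)} (hK : Cx K) (S : Cl V) {z : ℤ}
    (hz : z = 0 ∨ z = 1 ∨ z = 2)
    (h : Cs k (Bo (HHc n D K S (Ez N M m z) : Set (Cl (IX G V N M))))) :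
    Cs k (Bo (HH n D m K S z : Set (Cl (IX G V N M)))) := by
  rcases hz with rfl | rfl | rfl
  · refine cs_hom (Bo (HH n D m K S 0)) (Bo (HHc n D K S (Ez N M m 0))) ?_ (ag6_H m)
      (ag6_cont m).continuousOn ?_ ?_ ?_ h
    · rintro x ⟨c, ⟨h1, h2, h3⟩, hx⟩
      refine ⟨c, ⟨h1, h2, Or.inl ?_⟩, hx⟩
      refine (la_zero (ag_rng h1)).2 fun a ha => ?_
      have h4 : ep c a = 0 := ca1_zero.1 (h3.2.1 rfl a ha)
      rw [h4]
      norm_num
    · intro x _
      funext j
      rcases j with v | p | a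
      · rfl
      · rfl
      · by_cases ha : m ≤ a.2.val
        · have e : ag6_H m 0 x (Sum.inr (Sum.inr a)) = (1 - 0) * x (Sum.inr (Sum.inr a)) :=
            if_pos ha
          rw [e, sub_zero, one_mul]
        · exact if_neg ha
    · intro x hx
      exact ⟨_, (ag6_main hK S zero_le_one le_rfl (cr_mem (hh_cx hK S 0).clo hx)).2 rfl, cr_bo _⟩
    · intro t ht x hx
      exact ⟨_, (ag6_main hK S ht.1 ht.2 (cr_mem (hh_cx hK S 0).clo hx)).1, cr_bo _⟩
  · have e : (HH n D m K S 1 : Set (Cl (IX G V N M))) = HHc n D K S (Ez N M m 1) := by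
      ext c
      constructor
      · rintro ⟨h1, h2, h3⟩
        have h1' := h1
        obtain ⟨_, _, _, h5, _⟩ := h1'
        exact ⟨h1, h2, h5, fun h6 => absurd h6 (by norm_num), fun h6 => absurd h6 (by norm_num)⟩
      · rintro ⟨h1, h2, h3⟩
        refine ⟨h1, h2, ?_⟩
        rcases la_rng m (ep c) with h4 | h4 | h4
        · rw [h4]
          exact Or.inr ⟨by norm_num, Or.inl (by norm_num)⟩
        · rw [h4]
          exact Or.inl rfl
        · rw [h4]
          exact Or.inr ⟨by norm_num, Or.inr (by norm_num)⟩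
    rw [e]
    exact h
  · have e : (HH n D m K S 2 : Set (Cl (IX G V N M))) = HHc n D K S (Ez N M m 2) := by
      ext c
      constructor
      · rintro ⟨h1, h2, h3⟩
        have h4 : la m (ep c) = 2 := by
          rcases h3 with h3 | ⟨h3, -⟩
          · exact h3
          · exact absurd h3 (by norm_num)
        obtain ⟨a, ha, h6⟩ := la_two.1 h4
        have h1' := h1
        obtain ⟨_, _, _, h5, _⟩ := h1'
        exact ⟨h1, h2, h5, fun h6 => absurd h6 (by norm_num), fun _ => ⟨a, ha, ca1_two.2 h6⟩⟩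
      · rintro ⟨h1, h2, h3, -, h4⟩
        obtain ⟨a, ha, h5⟩ := h4 rfl
        exact ⟨h1, h2, Or.inl (la_two.2 ⟨a, ha, ca1_two.1 h5⟩)⟩
    rw [e]
    exact h

end MNG
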