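import Pool.Agent.MNG.AG3
import Pool.Agent.MNG.T1b

/-!
# MNG-AG7: contraction of the coordinates of block `0` which touch the coarse lattice

`cs_hom` with `H t x = (1 - t) * x + t * (tc1 (S v) / 2)` in the coordinates `v` of block `0` with `tc1 (S v) ≠ S v`, `x` in the other
coordinates. If `S v = 16 q + 1` (`tc1 (S v) = 16 q`) then `8 q ≤ x v ≤ 8 q + 1` and the point moves to `8 q`; if `S v = 16 q + 15`
(`tc1 (S v) = 16 q + 16`) then `8 q + 7 ≤ x v ≤ 8 q + 8` and it moves to `8 q + 8`. With `c = cr x`, `d = cr (H t x)`: `d v` is a face of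
`S v` (convexity of `bo S`, `cr_min`) and `ca1 8 (d v)` is a face of `ca1 8 (c v)` (if `c v` is the lattice point nothing moves,
otherwise `ca1 8 (c v)` is the odd number and `d v` is between `16 q` and `16 q + 16`). So `ca 8 d` is a face of `ca 8 c`.
-/

set_option autoImplicit false

noncomputable section

namespace MNG

open AGM (Ei Bl Sp)
open Set Topology

variable {V G : Type} [Fintype V] [Fintype G] {N M : ℕ} [NeZero N]

private def AG7_c (a : ℝ) : ℤ := cr (fun _ : Unit => a) ()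

private theorem AG7_iff (a : ℝ) (s : ℤ) :
    |2 * a - (s : ℝ)| ≤ ((s % 2 : ℤ) : ℝ) ↔ fc (AG7_c a) s := by
  have h := cr_iff (x := fun _ : Unit => a) (c := fun _ : Unit => s)
  constructor
  · intro h1
    exact (h.1 (fun _ => h1)) ()
  · intro h1
    exact (h.2 (fun _ => h1)) ()

private theorem AG7_eq {a : ℝ} {q : ℤ} (h : AG7_c a = 2 * q) : a = q := by
  have h1 := (AG7_iff a (2 * q)).2 (Or.inl h)
  have e : (2 * q) % 2 = 0 := by omega
  rw [e, Int.cast_zero, abs_nonpos_iff] at h1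
  push_cast at h1
  linarith

private theorem AG7_one {a t : ℝ} {s : ℤ} (ht : t ∈ Icc (0 : ℝ) 1) (hs : tc1 s ≠ s)
    (h : fc (AG7_c a) s) :
    fc (AG7_c ((1 - t) * a + t * ((tc1 s : ℝ) / 2))) s ∧
      fc (ca1 8 (AG7_c ((1 - t) * a + t * ((tc1 s : ℝ) / 2)))) (ca1 8 (AG7_c a)) := by
  have hs' : s % 16 = 1 ∨ s % 16 = 15 := by
    unfold tc1 at hs
    split_ifs at hs <;> omega
  obtain ⟨t0, t1⟩ := ht
  rcases hs' with h16 | h16
  · obtain ⟨q, rfl⟩ : ∃ q, s = 16 * q + 1 := ⟨s / 16, by omega⟩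
    have e1 : tc1 (16 * q + 1) = 16 * q := by
      unfold tc1
      split_ifs <;> omega
    have e2 : (16 * q + 1) % 2 = 1 := by omega
    rw [e1]
    have h1 := (AG7_iff a _).2 h
    rw [e2, abs_le] at h1
    push_cast at h1 ⊢
    obtain ⟨h2, h3⟩ := h1
    have h4 : (8 : ℝ) * q ≤ (1 - t) * a + t * (16 * q / 2) := by nlinarith
    have h5 : (1 - t) * a + t * (16 * q / 2) ≤ 8 * q + 1 := by nlinarith
    have h6 : fc (AG7_c ((1 - t) * a + t * (16 * (q : ℝ) / 2))) (16 * q + 1) := by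
      refine (AG7_iff _ _).1 ?_
      rw [e2, abs_le]
      push_cast
      constructor <;> linarith
    refine ⟨h6, ?_⟩
    by_cases ha : AG7_c a = 2 * (8 * q)
    · have h7 := AG7_eq ha
      push_cast at h7
      have h8 : (1 - t) * a + t * (16 * q / 2) = a := by
        rw [h7]
        ring
      rw [h8]
      exact Or.inl rfl
    · generalize AG7_c ((1 - t) * a + t * (16 * (q : ℝ) / 2)) = c' at h6 ⊢
      generalize AG7_c a = c at h ha ⊢
      unfold fc at h h6 ⊢
      unfold ca1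
      push_cast
      split_ifs <;> omega
  · obtain ⟨q, rfl⟩ : ∃ q, s = 16 * q + 15 := ⟨s / 16, by omega⟩
    have e1 : tc1 (16 * q + 15) = 16 * q + 16 := by
      unfold tc1
      split_ifs <;> omega
    have e2 : (16 * q + 15) % 2 = 1 := by omega
    rw [e1]
    have h1 := (AG7_iff a _).2 h
    rw [e2, abs_le] at h1
    push_cast at h1 ⊢
    obtain ⟨h2, h3⟩ := h1
    have h4 : (8 : ℝ) * q + 7 ≤ (1 - t) * a + t * ((16 * q + 16) / 2) := by nlinarith
    have h5 : (1 - t) * a + t * ((16 * q + 16) / 2) ≤ 8 * q + 8 := by nlinarith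
    have h6 : fc (AG7_c ((1 - t) * a + t * ((16 * (q : ℝ) + 16) / 2))) (16 * q + 15) := by
      refine (AG7_iff _ _).1 ?_
      rw [e2, abs_le]
      push_cast
      constructor <;> linarith
    refine ⟨h6, ?_⟩
    by_cases ha : AG7_c a = 2 * (8 * q + 8)
    · have h7 := AG7_eq ha
      push_cast at h7
      have h8 : (1 - t) * a + t * ((16 * q + 16) / 2) = a := by
        rw [h7]
        ring
      rw [h8]
      exact Or.inl rfl
    · generalize AG7_c ((1 - t) * a + t * ((16 * (q : ℝ) + 16) / 2)) = c' at h6 ⊢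
      generalize AG7_c a = c at h ha ⊢
      unfold fc at h h6 ⊢
      unfold ca1
      push_cast
      split_ifs <;> omega

open Classical in
private def AG7_H {V G : Type} {N M : ℕ} (S : Cl V) (t : ℝ) (x : IX G V N M → ℝ) :
    IX G V N M → ℝ :=
  Sum.elim (fun v => if tc1 (S v) = S v then x (Sum.inl v) else
    (1 - t) * x (Sum.inl v) + t * ((tc1 (S v) : ℝ) / 2)) (fun u => x (Sum.inr u))

private theorem AG7_key {n D : ℕ} {K : Set (Cl V)} (hK : Cx K) (S : Cl V)
    {E : Set (Cl (ZMod N × Fin M))} (hE : Cx E) {t : ℝ} (ht : t ∈ Icc (0 : ℝ) 1)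
    {x : IX G V N M → ℝ} (hx : x ∈ Bo (HHc n D K S E : Set (Cl (IX G V N M)))) :
    cr (AG7_H S t x) ∈ Gr 8 (PG n D K : Set (Cl (IX G V N M))) ∧
      (∀ v, fc (AG7_c (AG7_H S t x (Sum.inl v))) (S v)) ∧
      ca 8 (ep (cr (AG7_H S t x))) ∈ E := by
  classical
  have hclo : Clo (HHc n D K S E : Set (Cl (IX G V N M))) := (hhc_cx hK S hE).clo
  have hpg : Clo (PG n D K : Set (Cl (IX G V N M))) := (pg_cx n D hK).clo
  obtain ⟨hc1, hc2, hc3⟩ := cr_mem hclo hx
  refine ⟨?_, ?_, hc3⟩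
  · refine hpg (ca 8 (cr x)) hc1 (ca 8 (cr (AG7_H S t x))) ?_
    rintro (v | u)
    · show fc (ca1 8 (AG7_c (AG7_H S t x (Sum.inl v)))) (ca1 8 (AG7_c (x (Sum.inl v))))
      by_cases h : tc1 (S v) = S v
      · have e : AG7_H S t x (Sum.inl v) = x (Sum.inl v) := if_pos h
        rw [e]
        exact Or.inl rfl
      · have e : AG7_H S t x (Sum.inl v) =
          (1 - t) * x (Sum.inl v) + t * ((tc1 (S v) : ℝ) / 2) := if_neg h
        rw [e]
        exact (AG7_one ht h (hc2 v)).2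
    · exact Or.inl rfl
  · intro v
    by_cases h : tc1 (S v) = S v
    · have e : AG7_H S t x (Sum.inl v) = x (Sum.inl v) := if_pos h
      rw [e]
      exact hc2 v
    · have e : AG7_H S t x (Sum.inl v) =
        (1 - t) * x (Sum.inl v) + t * ((tc1 (S v) : ℝ) / 2) := if_neg h
      rw [e]
      exact (AG7_one ht h (hc2 v)).1

theorem hhc_red {n D k : ℕ} {K : Set (Cl V)} (hK : Cx K) (S : Cl V)
    {E : Set (Cl (ZMod N × Fin M))} (hE : Cx E)
    (h : Cs k (Bo (HHc n D K (fun v => tc1 (S v)) E : Set (Cl (IX G V N M))))) :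
    Cs k (Bo (HHc n D K S E : Set (Cl (IX G V N M)))) := by
  classical
  refine cs_hom _ _ ?_ (AG7_H S) ?_ ?_ ?_ ?_ h
  · rintro x ⟨c, ⟨h1, h2, h3⟩, hx⟩
    exact ⟨c, ⟨h1, fun v => (fa_trans (a := b0 c) (b := fun v => tc1 (S v)) (c := S) h2
      fun v => tc1_fc (S v)) v, h3⟩, hx⟩
  · apply Continuous.continuousOn
    refine continuous_pi fun i => ?_
    rcases i with v | u
    · by_cases hv : tc1 (S v) = S v
      · have e : (fun z : ℝ × (IX G V N M → ℝ) => AG7_H S z.1 z.2 (Sum.inl v)) =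
            fun z => z.2 (Sum.inl v) := by
          funext z
          exact if_pos hv
        rw [e]
        fun_prop
      · have e : (fun z : ℝ × (IX G V N M → ℝ) => AG7_H S z.1 z.2 (Sum.inl v)) =
            fun z => (1 - z.1) * z.2 (Sum.inl v) + z.1 * ((tc1 (S v) : ℝ) / 2) := by
          funext z
          exact if_neg hv
        rw [e]
        fun_prop
    · show Continuous fun z : ℝ × (IX G V N M → ℝ) => z.2 (Sum.inr u)
      fun_prop
  · intro x _
    funext i
    rcases i with v | u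
    · by_cases hv : tc1 (S v) = S v
      · exact if_pos hv
      · have e : AG7_H S 0 x (Sum.inl v) =
          (1 - 0) * x (Sum.inl v) + 0 * ((tc1 (S v) : ℝ) / 2) := if_neg hv
        rw [e]
        ring
    · rfl
  · intro x hx
    obtain ⟨h1, h2, h3⟩ := AG7_key hK S hE (t := 1) ⟨zero_le_one, le_rfl⟩ hx
    refine ⟨_, ⟨h1, fun v => ?_, h3⟩, cr_bo _⟩
    show fc (AG7_c (AG7_H S 1 x (Sum.inl v))) (tc1 (S v))
    by_cases hv : tc1 (S v) = S v
    · rw [hv]
      exact h2 v
    · have e : AG7_H S 1 x (Sum.inl v) =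
        (1 - 1) * x (Sum.inl v) + 1 * ((tc1 (S v) : ℝ) / 2) := if_neg hv
      rw [e]
      refine (AG7_iff _ _).1 ?_
      have e2 : 2 * ((1 - 1) * x (Sum.inl v) + 1 * ((tc1 (S v) : ℝ) / 2)) - (tc1 (S v) : ℝ) = 0 := by
        ring
      rw [e2, abs_zero]
      exact_mod_cast Int.emod_nonneg _ (by norm_num)
  · intro t ht x hx
    obtain ⟨h1, h2, h3⟩ := AG7_key hK S hE ht hx
    exact ⟨_, ⟨h1, h2, h3⟩, cr_bo _⟩

end MNG
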