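import Pool.Agent.MNG.AG3
import Pool.Agent.MNG.T1b

/-!
# MNG-AG8: the fibre over a cell which does not touch the coarse lattice is a product

If `Fa (b0 c) S` then `ca 8 (b0 c) = ca 8 S` (`tc1_ca` in every coordinate), so `c ∈ HHc n D K S E` iff `Fa (b0 c) S` and the rest of
`ca 8 c` (`fun x => ca 8 c (Sum.inr x)`) is in `UU n D K (ca 8 S) E` (`dm (ca 8 c)` is the sum of the dimensions of block `0` and of the
rest; `E ⊆ EC`). Points: `x ∈ Bo HHc ↔ cr x ∈ HHc` (closed), so `x ∈ Bo HHc` iff `x ∘ inl ∈ bo S` and `(x ∘ inr) / 8 ∈ Bo UU`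
(`ca_cr`). `Cs`: `cs_dom` from `Bo (Px (Fc S) UU)` (`cs_px`, `cs_fc`), maps: multiply resp. divide the coordinates `inr` by `8`.
-/

set_option autoImplicit false

noncomputable section

namespace MNG

open AGM (Ei Bl Sp)
open Set Topology

variable {V G : Type} [Fintype V] [Fintype G] {N M : ℕ} [NeZero N]

private theorem ag8_dm {J W : Type} [Fintype J] [Fintype W] (c : Cl (J ⊕ W)) :
    dm c = dm (fun j => c (Sum.inl j)) + dm (sn c) := by
  unfold dm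
  rw [Finset.card_filter, Finset.card_filter, Finset.card_filter, Fintype.sum_sum_type]
  rfl

private theorem ag8_eq {n D : ℕ} {K : Set (Cl V)} {S : Cl V}
    (hS : ∀ v, tc1 (S v) = S v) (ha : dm (ca 8 S) ≤ n)
    {E : Set (Cl (ZMod N × Fin M))} (hEC : E ⊆ EC N (Fin M)) :
    (HHc n D K S E : Set (Cl (IX G V N M))) = Px (Fc S) (Gr 8 (UU n D K (ca 8 S) E)) := by
  ext c
  have hb : Fa (b0 c) S → ca 8 (b0 c) = ca 8 S := fun h => funext fun v => tc1_ca (hS v) (h v)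
  have hd : dm (ca 8 c) = dm (ca 8 (b0 c)) + dm (ca 8 (sn c)) := ag8_dm (ca 8 c)
  constructor
  · rintro ⟨⟨⟨t, ht, h1, h2⟩, h3, h4, h5, h6⟩, h7, h8⟩
    have e := hb h7
    refine ⟨h7, ⟨t, ht, ?_, h2⟩, h4, h8, ?_⟩
    · rw [← e]
      exact h1
    · rw [← e, ← hd]
      exact h6
  · rintro ⟨h7, ⟨⟨t, ht, h1, h2⟩, h4, h8, h6⟩⟩
    have e := hb h7
    refine ⟨⟨⟨t, ht, ?_, h2⟩, ?_, h4, hEC h8, ?_⟩, h7, h8⟩
    · show Fa (ca 8 (b0 c)) t
      rw [e]
      exact h1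
    · show dm (ca 8 (b0 c)) ≤ n
      rw [e]
      exact ha
    · rw [hd, e]
      exact h6

theorem hhc_prod {n D k : ℕ} {K : Set (Cl V)} (hK : Cx K) {S : Cl V}
    (hS : ∀ v, tc1 (S v) = S v) (ha : dm (ca 8 S) ≤ n)
    {E : Set (Cl (ZMod N × Fin M))} (hE : Cx E) (hEC : E ⊆ EC N (Fin M))
    (h : Cs k (Bo (UU n D K (ca 8 S) E : Set (Cl ((G × V) ⊕ (ZMod N × Fin M)))))) :
    Cs k (Bo (HHc n D K S E : Set (Cl (IX G V N M)))) := by
  rw [ag8_eq hS ha hEC]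
  refine cs_px (cs_fc k S) ?_
  have hU : Cx (UU n D K (ca 8 S) E : Set (Cl ((G × V) ⊕ (ZMod N × Fin M)))) :=
    uu_cx n D hK (ca 8 S) hE
  have h8 : ∀ x : ((G × V) ⊕ (ZMod N × Fin M)) → ℝ, x ∈ Bo (Gr 8 (UU n D K (ca 8 S) E)) ↔
      (fun j => x j / ((8 : ℕ) : ℝ)) ∈ Bo (UU n D K (ca 8 S) E) :=
    fun x => Bo_gr (by norm_num) hU.clo x
  have hne : ((8 : ℕ) : ℝ) ≠ 0 := by norm_num
  refine cs_dom _ _ (fun x j => x j * ((8 : ℕ) : ℝ)) (fun x j => x j / ((8 : ℕ) : ℝ))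
    ?_ ?_ ?_ ?_ ?_ h
  · exact (continuous_pi fun j => (continuous_apply j).mul continuous_const).continuousOn
  · exact (continuous_pi fun j => (continuous_apply j).div_const _).continuousOn
  · intro x hx
    refine (h8 _).2 ?_
    have e : (fun j => x j * ((8 : ℕ) : ℝ) / ((8 : ℕ) : ℝ)) = x :=
      funext fun j => mul_div_cancel_right₀ _ hne
    show (fun j => x j * ((8 : ℕ) : ℝ) / ((8 : ℕ) : ℝ)) ∈ Bo (UU n D K (ca 8 S) E)
    rw [e]
    exact hx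
  · intro x hx
    exact (h8 x).1 hx
  · intro x _
    exact funext fun j => div_mul_cancel₀ _ hne

end MNG
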