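import Pool.Agent.MNG.AG2
import Pool.Agent.MNG.T1b
import Pool.Agent.MNG.T5

/-!
# MNG-AG9: the blocks over a star

`skel`: the `n`-skeletons of `UU n D K a E` and of `Px (VV G K a) E` are equal: if `dm u ≤ n` then all blocks have dimension at most `n`
and `dm a + dm u ≤ 2 n ≤ D`. `Bo (VV G K a)` is star-shaped: it is the union of the convex sets `∏_g bo t`, `t ∈ K`, `Fa a t`,
which all contain the point `p (g, v) = a v / 2` (`bo_center`, `bo_mono`): `cs_hom` with `H t x = (1 - t) * x + t * p`, `B' = {p}`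
(`cs_convex`). Then `cs_px`.
-/

set_option autoImplicit false

noncomputable section

namespace MNG

open AGM (Ei Bl Sp)
open Set Topology

variable {V G : Type} [Fintype V] [Fintype G] {N M : ℕ} [NeZero N]

omit [Fintype V] [Fintype G] in
private theorem AG9_mem {K : Set (Cl V)} {a : Cl V} (x : G × V → ℝ) :
    x ∈ Bo (VV G K a) ↔ ∃ t ∈ K, Fa a t ∧ ∀ g, (fun v => x (g, v)) ∈ bo t := by
  constructor
  · rintro ⟨u, ⟨t, ht, hat, hu⟩, hx⟩
    exact ⟨t, ht, hat, fun g => bo_mono (hu g) fun v => hx (g, v)⟩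
  · rintro ⟨t, ht, hat, hx⟩
    exact ⟨fun y => t y.2, ⟨t, ht, hat, fun g => fa_refl t⟩, fun y => hx y.1 y.2⟩

theorem vv_cs (k : ℕ) {K : Set (Cl V)} (hK : Cx K) {a : Cl V} (ha : a ∈ K) :
    Cs k (Bo (VV G K a)) := by
  obtain ⟨p, hp⟩ : ∃ p : G × V → ℝ, p = fun y => (a y.2 : ℝ) / 2 := ⟨_, rfl⟩
  have hpa : ∀ g : G, (fun v => p (g, v)) ∈ bo a := by
    intro g
    rw [hp]
    exact bo_center a
  refine cs_hom (Bo (VV G K a)) {p} ?_ (fun t x => (1 - t) • x + t • p) ?_ ?_ ?_ ?_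
    (cs_convex {p} (convex_singleton p) ⟨p, rfl⟩)
  · rintro x rfl
    exact (AG9_mem _).2 ⟨a, ha, fa_refl a, hpa⟩
  · apply Continuous.continuousOn
    fun_prop
  · intro x _
    simp
  · intro x _
    simp
  · intro t ht x hx
    obtain ⟨t0, h1, h2, h3⟩ := (AG9_mem x).1 hx
    refine (AG9_mem _).2 ⟨t0, h1, h2, fun g => ?_⟩
    exact bo_convex t0 (h3 g) (bo_mono h2 (hpa g)) (sub_nonneg.2 ht.2) ht.1 (by ring)

private theorem AG9_dm {E : Type} [Fintype E] (u : Cl ((G × V) ⊕ E)) (g : G) :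
    dm (fun v => u (Sum.inl (g, v))) ≤ dm u := by
  unfold dm
  apply Finset.card_le_card_of_injOn (fun v : V => (Sum.inl (g, v) : (G × V) ⊕ E))
  · intro v hv
    have hv' : v ∈ Finset.univ.filter (fun v => u (Sum.inl (g, v)) % 2 = 1) := hv
    rw [Finset.mem_filter] at hv'
    show Sum.inl (g, v) ∈ Finset.univ.filter (fun j => u j % 2 = 1)
    rw [Finset.mem_filter]
    exact ⟨Finset.mem_univ _, hv'.2⟩
  · intro v _ v' _ h
    have h1 : (g, v) = (g, v') := Sum.inl_injective h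
    exact congrArg Prod.snd h1

theorem uu_cs {n D : ℕ} (hD : 2 * n ≤ D) {K : Set (Cl V)} (hK : Cx K) {a : Cl V} (ha : a ∈ K)
    (had : dm a ≤ n) {E : Set (Cl (ZMod N × Fin M))} (hE : Cx E) (h : Cs n (Bo E)) :
    Cs n (Bo (UU n D K a E : Set (Cl ((G × V) ⊕ (ZMod N × Fin M))))) := by
  have heq : sk n (UU n D K a E : Set (Cl ((G × V) ⊕ (ZMod N × Fin M)))) =
      sk n (Px (VV G K a) E) := by
    ext u
    constructor
    · rintro ⟨⟨h1, -, h3, -⟩, h5⟩
      exact ⟨⟨h1, h3⟩, h5⟩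
    · rintro ⟨⟨h1, h3⟩, h5⟩
      refine ⟨⟨h1, fun g => (AG9_dm u g).trans h5, h3, ?_⟩, h5⟩
      omega
  rw [skel (uu_cx n D hK a hE), heq, ← skel (cx_px (vv_cx hK a) hE)]
  exact cs_px (vv_cs n hK ha) h

end MNG
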