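import Pool.Agent.MNG.AG5
import Pool.Agent.MNG.AG6
import Pool.Agent.MNG.AG7
import Pool.Agent.MNG.AG8
import Pool.Agent.MNG.AG9

/-!
# MNG-AG10: property (B) for the towers of AGM

`T ∈ sk n (Px (Gr 8 (sk n (sk n K))) (In 1))`: `S = fs T`, `z = sn T () ∈ {0, 1, 2}`. The fibre
`Fb (gg m) (sk n (sk n (Gr 8 (PG n D K)))) T` is `sk n (HH n D m K S z)` (`Fa (gg m c) T ↔ Fa (b0 c) S ∧ fc (la m (ep c)) z`). `skel`
(`hh_cx`), `hh_red`, `hhc_red`, `hhc_prod` with `S' = fun v => tc1 (S v)` (`tc1_tc1`), `a = ca 8 S'` is a face of `ca 8 S ∈ sk n K` (`tc1_fc`,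
`ca_fa`), `uu_cs`, `ez_cx`, `ez_cs`.
-/

set_option autoImplicit false

noncomputable section

namespace MNG

open AGM (Ei Bl Sp)
open Set Topology

variable {V G : Type} [Fintype V] [Fintype G] {N M : ℕ} [NeZero N]

theorem ag_soft {n D m : ℕ} {K : Set (Cl V)} (hK : Cx K) (hD : 2 * n ≤ D) (h1 : n + 2 ≤ m)
    (h2 : m + n + 2 ≤ M) :
    Soft n (sk n (sk n (Gr 8 (PG n D K : Set (Cl (IX G V N M))))))
      (sk n (Px (Gr 8 (sk n (sk n K))) (In 1))) (gg m) := by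
  intro T hT
  have hT1 : fs T ∈ Gr 8 (sk n (sk n K)) := hT.1.1
  have hT2 : sn T ∈ In 1 := hT.1.2
  have hK1 : ca 8 (fs T) ∈ K := hT1.1.1
  have hK2 : dm (ca 8 (fs T)) ≤ n := hT1.2
  have hz : sn T () = 0 ∨ sn T () = 1 ∨ sn T () = 2 := by
    have h := hT2
    have h3 : 0 ≤ sn T () ∧ sn T () ≤ 2 * ((1 : ℕ) : ℤ) := h
    push_cast at h3
    omega
  have hfb : Fb (gg m) (sk n (sk n (Gr 8 (PG n D K : Set (Cl (IX G V N M)))))) T =
      sk n (HH n D m K (fs T) (sn T ()) : Set (Cl (IX G V N M))) := by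
    ext c
    constructor
    · rintro ⟨⟨⟨h3, _⟩, h4⟩, h5⟩
      exact ⟨⟨h3, fun v => h5 (Sum.inl v), h5 (Sum.inr ())⟩, h4⟩
    · rintro ⟨⟨h3, h4, h5⟩, h6⟩
      refine ⟨⟨⟨h3, h6⟩, h6⟩, fun x => ?_⟩
      cases x with
      | inl v => exact h4 v
      | inr u => exact h5
  rw [hfb]
  refine (skel (hh_cx hK (fs T) (sn T ()))).1 (hh_red hK (fs T) hz
    (hhc_red hK (fs T) (ez_cx m (sn T ())) ?_))
  have hfa : Fa (fun v => tc1 (fs T v)) (fs T) := fun v => tc1_fc (fs T v)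
  have hca : Fa (ca 8 (fun v => tc1 (fs T v))) (ca 8 (fs T)) := ca_fa (by norm_num) hfa
  have ha1 : ca 8 (fun v => tc1 (fs T v)) ∈ K := hK.clo _ hK1 _ hca
  have ha2 : dm (ca 8 (fun v => tc1 (fs T v))) ≤ n := (dm_mono hca).trans hK2
  exact hhc_prod hK (fun v => tc1_tc1 (fs T v)) ha2 (ez_cx m (sn T ())) (fun e he => he.1)
    (uu_cs hD hK ha1 ha2 (ez_cx m (sn T ())) (ez_cs h1 h2 hz))

end MNG
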