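import Pool.Agent.MNG.AGD
import Pool.Agent.MNG.C4
import Pool.Agent.MNG.T1b

/-!
# MNG-AX1: the complexes of the towers of `AGD` are finite and closed; the limit is compact metrizable
-/

set_option autoImplicit false

noncomputable section

namespace MNG

open AGM (Ei Bl Sp)
open Set Topology

variable {V G : Type} {N M : ℕ}

theorem ax_ec_clo {C : Type} {e d : Cl (ZMod N × C)} (he : e ∈ EC N C) (hd : Fa d e) :
    d ∈ EC N C := by
  obtain ⟨h1, ⟨a, h2⟩, h3⟩ := he
  refine ⟨fun a => ?_, ⟨a, ?_⟩, fun k g g' hg => ?_⟩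
  · have h4 := h1 a
    have h5 := hd a
    unfold fc at h5
    omega
  · have h5 := hd a
    unfold fc at h5
    omega
  · have h5 := hd (g, k)
    have h6 := hd (g', k)
    unfold fc at h5 h6
    rcases h3 k g g' hg with h | h
    · left
      omega
    · right
      omega

theorem ax_pg_cx [Fintype V] [Fintype G] [NeZero N] (n D : ℕ) {K : Set (Cl V)} (hK : Cx K) :
    Cx (PG (G := G) (N := N) (M := M) n D K) := by
  classical
  constructor
  · have h1 : Set.Finite (K ×ˢ (({f | ∀ g, f g ∈ K} : Set (G → Cl V)) ×ˢ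
        (Set.Icc (fun _ => 0) (fun _ => 2) : Set (Cl (ZMod N × Fin M))))) :=
      hK.fin.prod ((Set.Finite.pi' fun _ => hK.fin).prod (Set.finite_Icc _ _))
    refine (Set.Finite.preimage (f := fun c : Cl (IX G V N M) => (b0 c, (fun g => bg g c), ep c))
      ?_ h1).subset ?_
    · intro c _ d _ h
      have e1 := congrArg Prod.fst h
      have e2 := congrArg (fun z => z.2.1) h
      have e3 := congrArg (fun z => z.2.2) h
      funext i
      rcases i with v | ⟨g, v⟩ | a
      · exact congrFun e1 v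
      · exact congrFun (congrFun e2 g) v
      · exact congrFun e3 a
    · rintro c ⟨⟨t, ht, h2, h3⟩, -, -, h4, -⟩
      refine ⟨hK.clo t ht _ h2, fun g => hK.clo t ht _ (h3 g), ?_, ?_⟩
      · exact fun a => (h4.1 a).1
      · exact fun a => (h4.1 a).2
  · rintro c ⟨⟨t, ht, h2, h3⟩, h4, h5, h6, h7⟩ d hd
    have e0 : Fa (b0 d) (b0 c) := fun v => hd _
    have eg : ∀ g, Fa (bg g d) (bg g c) := fun g v => hd _
    have ee : Fa (ep d) (ep c) := fun a => hd _
    exact ⟨⟨t, ht, fa_trans e0 h2, fun g => fa_trans (eg g) (h3 g)⟩, (dm_mono e0).trans h4,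
      fun g => (dm_mono (eg g)).trans (h5 g), ax_ec_clo h6 ee, (dm_mono hd).trans h7⟩

theorem ax_cx {n : ℕ} (A : Dta n) (b : ℕ) : Cx (A.K b) := by
  induction b with
  | zero =>
    refine ⟨?_, fun _ _ _ _ => Set.mem_univ _⟩
    have h : Subsingleton (Empty → ℤ) := ⟨fun f g => funext fun x => x.elim⟩
    exact (Set.subsingleton_of_subsingleton (s := (Set.univ : Set (Empty → ℤ)))).finite
  | succ b ih => exact cx_gr (by norm_num) (ax_pg_cx n A.D ih)

/-- membership in the next complex -/
theorem ax_mem {n : ℕ} (A : Dta n) (b : ℕ) (c : Cl (A.I (b + 1))) : c ∈ A.K (b + 1) ↔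
    ca 8 (c : Cl (IX (A.G b) (A.I b) (A.N b) (A.M b))) ∈
      PG (G := A.G b) (N := A.N b) (M := A.M b) n A.D (A.K b) := Iff.rfl

theorem ax_pr_cont {n : ℕ} (A : Dta n) (b : ℕ) : Continuous (A.pr b) := by
  refine continuous_pi fun v => ?_
  exact (continuous_apply (A.i0 b v)).div_const _

theorem ax_closed {n : ℕ} (A : Dta n) : IsClosed A.Lim := by
  have h : A.Lim = ⋂ b, ({x : ∀ b, A.I b → ℝ | x b ∈ Bo (A.K b)} ∩
      {x | A.pr b (x (b + 1)) = x b}) := by
    ext x
    rw [Set.mem_iInter]
    exact Iff.rfl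
  rw [h]
  refine isClosed_iInter fun b => IsClosed.inter ?_ ?_
  · exact (Bo_compact (ax_cx A b).fin).isClosed.preimage (continuous_apply b)
  · exact isClosed_eq ((ax_pr_cont A b).comp (continuous_apply (b + 1))) (continuous_apply b)

theorem ax_compact {n : ℕ} (A : Dta n) : CompactSpace A.Lim := by
  rw [← isCompact_iff_compactSpace]
  refine (isCompact_univ_pi fun b => Bo_compact (ax_cx A b).fin).of_isClosed_subset
    (ax_closed A) ?_
  exact fun x hx b _ => (hx b).1

theorem ax_metrizable {n : ℕ} (A : Dta n) : TopologicalSpace.MetrizableSpace A.Lim := by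
  have : TopologicalSpace.MetrizableSpace (∀ b, A.I b → ℝ) := UniformSpace.metrizableSpace
  infer_instance

end MNG
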