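import Pool.Agent.MNG.AG10
import Pool.Agent.MNG.AX1

/-!
# MNG-AG11: the tower of a datum
-/

set_option autoImplicit false

noncomputable section

namespace MNG

open AGM (Ei Bl Sp)
open Set Topology

variable {n : ℕ}

theorem dta_cx (A : Dta n) (b : ℕ) : Cx (A.K b) ∧ (A.K b).Nonempty := by
  refine ⟨ax_cx A b, ?_⟩
  induction b with
  | zero => exact ⟨fun _ => 0, Set.mem_univ _⟩
  | succ b ih =>
    obtain ⟨c, hc⟩ := pg_ne (G := A.G b) (N := A.N b) (M := A.M b) n A.D (ax_cx A b) ih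
      (by have := A.hM b; omega)
    have h1 : (fun j => (8 * ((c j : ℝ) / 2)) : IX (A.G b) (A.I b) (A.N b) (A.M b) → ℝ) ∈
        Bo (Gr 8 (PG (G := A.G b) (N := A.N b) (M := A.M b) n A.D (A.K b))) := by
      rw [Bo_gr (by norm_num) (ax_pg_cx n A.D (ax_cx A b)).clo]
      refine ⟨c, hc, ?_⟩
      have h2 := bo_center c
      have h3 : (fun j => (8 * ((c j : ℝ) / 2)) / ((8 : ℕ) : ℝ)) = fun j => (c j : ℝ) / 2 := by
        funext j
        push_cast
        ring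
      rw [h3]
      exact h2
    obtain ⟨d, hd, -⟩ := h1
    exact ⟨d, hd⟩

theorem tw_prL (A : Dta n) (b : ℕ) (x y : A.I (b + 1) → ℝ) :
    dist (A.pr b x) (A.pr b y) ≤ dist x y / 2 := by
  rw [dist_pi_le_iff (by positivity)]
  intro v
  have h1 := dist_le_pi_dist x y (A.i0 b v)
  have h2 : A.pr b x v = x (A.i0 b v) / 8 := rfl
  have h3 : A.pr b y v = y (A.i0 b v) / 8 := rfl
  rw [h2, h3, Real.dist_eq, ← sub_div, abs_div, abs_of_pos (by norm_num : (0:ℝ) < 8)]
  rw [Real.dist_eq] at h1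
  have h4 : (0 : ℝ) ≤ dist x y := dist_nonneg
  rw [div_le_div_iff₀ (by norm_num) (by norm_num)]
  nlinarith

theorem tw_prk (A : Dta n) (b : ℕ) (c : Cl (A.I (b + 1))) (x : A.I (b + 1) → ℝ) (hx : x ∈ bo c) :
    A.pr b x ∈ bo (ca 8 (b0 (G := A.G b) (V := A.I b) (N := A.N b) (M := A.M b) c)) := by
  have h1 : Fa (cr x) c := cr_min hx
  have h2 : A.pr b x = fun v => x (A.i0 b v) / ((8 : ℕ) : ℝ) := by
    funext v
    show x (A.i0 b v) / 8 = _
    push_cast
    rfl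
  rw [h2, cr_iff]
  have h3 := ca_cr (R := 8) (by norm_num) (fun v => x (A.i0 b v))
  rw [← h3]
  refine ca_fa (by norm_num) fun v => ?_
  exact h1 (A.i0 b v)

private theorem sk_ne11 {J : Type} [Fintype J] {k : ℕ} {K : Set (Cl J)} (hK : Cx K) (h : K.Nonempty) :
    (sk k K).Nonempty := by
  obtain ⟨c, hc⟩ := h
  refine ⟨fun j => 2 * (c j / 2), hK.clo c hc _ fun j => ?_, ?_⟩
  · unfold fc
    show 2 * (c j / 2) = c j ∨ _
    omega
  · have h1 : dm (fun j => 2 * (c j / 2) : Cl J) = 0 := by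
      unfold dm
      rw [Finset.card_eq_zero, Finset.filter_eq_empty_iff]
      intro j _
      show ¬ (2 * (c j / 2)) % 2 = 1
      omega
    rw [h1]
    exact Nat.zero_le _

/-- the tower -/
def Dta.tw (A : Dta n) : Tw n where
  J b := A.I b
  M b := sk n (A.K b)
  cx b := cx_sk (dta_cx A b).1
  ne b := sk_ne11 (dta_cx A b).1 (dta_cx A b).2
  D := n
  dmM b c hc := hc.2
  ka b c := ca 8 (b0 (G := A.G b) (V := A.I b) (N := A.N b) (M := A.M b) c)
  kam b := ag_ka (dta_cx A b).1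
  pr b := A.pr b
  prL b := tw_prL A b
  prk b c _ x hx := tw_prk A b c x hx
  r b c v := rd1 (b0 (G := A.G b) (V := A.I b) (N := A.N b) (M := A.M b) c v)
  rm b := ag_r (dta_cx A b).1
  rk b c _ v := rd1_ca _
  g b := gg (G := A.G b) (V := A.I b) (N := A.N b) (M := A.M b) (n + 2)
  gm b := ag_g (n + 2) (dta_cx A b).1
  gs b := ag_soft (dta_cx A b).1 A.hD le_rfl (by have := A.hM b; omega)
  gk b c _ := fa_refl _

theorem tw_zero (A : Dta n) : ∃ v, A.tw.M 0 = {v} := by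
  refine ⟨fun x => (x : Empty).elim, ?_⟩
  ext c
  rw [Set.mem_singleton_iff]
  constructor
  · intro _
    funext x
    exact (x : Empty).elim
  · intro h
    obtain ⟨d, hd⟩ := A.tw.ne 0
    have h1 : c = d := by
      funext x
      exact (x : Empty).elim
    rw [h1]
    exact hd

theorem tw_lim (A : Dta n) : A.tw.Lim = A.Lim := by
  ext x
  constructor
  · intro h b
    obtain ⟨⟨c, hc, hx⟩, h2⟩ := h b
    exact ⟨⟨c, hc.1, hx⟩, h2⟩
  · intro h b
    refine ⟨?_, (h b).2⟩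
    have h1 : cr (x (b + 1)) ∈ A.K (b + 1) := cr_mem (ax_cx A (b + 1)).clo (h (b + 1)).1
    have h2 := (ax_mem A b (cr (x (b + 1)))).1 h1
    have h3 := tw_prk A b (cr (x (b + 1))) (x (b + 1)) (cr_bo _)
    rw [(h b).2] at h3
    obtain ⟨t, ht, h4, -⟩ := h2.1
    exact ⟨_, ⟨(ax_cx A b).clo t ht _ h4, h2.2.1⟩, h3⟩

end MNG
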