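import Pool.Agent.MNG.AG1

/-!
# MNG-AG2: the complexes `EC`, `ECs`, `Ez`, `PG`, `UU`, `VV`

Faces: coordinatewise (`fc d e` with `0 ≤ e ≤ 2`: `e = 0` gives `d = 0`, `e = 2` gives `d = 2`). Finiteness: `EC` is a set of functions
between `0` and `2` on a finite type; `PG`, `UU`, `VV`: the blocks are faces of cells of the finite complex `K`. Nonempty: a vertex of `t`
in every block and one column coordinate `2`.
-/

set_option autoImplicit false

noncomputable section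

namespace MNG

open Set

variable {V G : Type} [Fintype V] [Fintype G] {N M : ℕ} [NeZero N]

private theorem ag2_rng {a b : ℤ} (h : fc a b) (hb : 0 ≤ b ∧ b ≤ 2) : 0 ≤ a ∧ a ≤ 2 := by
  unfold fc at h
  omega

private theorem ag2_two {a b : ℤ} (h : fc a b) (hb : b = 2) : a = 2 := by
  unfold fc at h
  omega

private theorem ag2_zero {a b : ℤ} (h : fc a b) (hb : b = 0) : a = 0 := by
  unfold fc at h
  omega

private theorem ag2_ec (C : Type) [Fintype C] : Cx (EC N C) := by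
  constructor
  · refine (Set.Finite.pi' (t := fun _ : ZMod N × C => Set.Icc (0 : ℤ) 2)
      (fun _ => Set.finite_Icc 0 2)).subset ?_
    intro e he a
    exact he.1 a
  · intro c hc d hd
    obtain ⟨h1, ⟨a, h2⟩, h3⟩ := hc
    refine ⟨fun b => ag2_rng (hd b) (h1 b), ⟨a, ag2_two (hd a) h2⟩, fun k g g' hg => ?_⟩
    rcases h3 k g g' hg with h | h
    · exact Or.inl (ag2_zero (hd _) h)
    · exact Or.inr (ag2_zero (hd _) h)

theorem ec_cx (C : Type) [Fintype C] : Cx (EC N C) := ag2_ec C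

theorem ecs_cx {C : Type} [Fintype C] (A : Set C) : Cx (ECs N A) := by
  constructor
  · exact (ag2_ec C).fin.subset fun e he => he.1
  · intro c hc d hd
    exact ⟨(ag2_ec C).clo c hc.1 d hd, fun a ha => ag2_zero (hd a) (hc.2 a ha)⟩

theorem ez_cx (m : ℕ) (z : ℤ) : Cx (Ez N M m z) := by
  constructor
  · exact (ag2_ec (Fin M)).fin.subset fun e he => he.1
  · intro c hc d hd
    refine ⟨(ag2_ec (Fin M)).clo c hc.1 d hd, fun hz a ha => ag2_zero (hd a) (hc.2.1 hz a ha),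
      fun hz => ?_⟩
    obtain ⟨a, ha, h1⟩ := hc.2.2 hz
    exact ⟨a, ha, ag2_two (hd a) h1⟩

omit [Fintype V] [Fintype G] in
private theorem ag2_fin [Finite G] {K : Set (Cl V)} (hK : K.Finite) :
    {f : G → Cl V | ∀ g, f g ∈ K}.Finite := Set.Finite.pi' fun _ => hK

theorem pg_cx (n D : ℕ) {K : Set (Cl V)} (hK : Cx K) :
    Cx (PG n D K : Set (Cl (IX G V N M))) := by
  constructor
  · have hf : (K ×ˢ ({f : G → Cl V | ∀ g, f g ∈ K} ×ˢ EC N (Fin M))).Finite :=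
      hK.fin.prod ((ag2_fin hK.fin).prod (ag2_ec (Fin M)).fin)
    refine (hf.image (fun p : Cl V × ((G → Cl V) × Cl (ZMod N × Fin M)) =>
      (Sum.elim p.1 (Sum.elim (fun q => p.2.1 q.1 q.2) p.2.2) : Cl (IX G V N M)))).subset ?_
    rintro c ⟨⟨t, ht, h1, h2⟩, -, -, h3, -⟩
    refine ⟨(b0 c, fun g => bg g c, ep c), ⟨hK.clo t ht _ h1, fun g => hK.clo t ht _ (h2 g), h3⟩, ?_⟩
    funext j
    rcases j with v | (⟨g, v⟩ | a) <;> rfl
  · rintro c ⟨⟨t, ht, h1, h2⟩, h3, h4, h5, h6⟩ d hd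
    have e1 : Fa (b0 d) (b0 c) := fun v => hd (Sum.inl v)
    have e2 : ∀ g, Fa (bg g d) (bg g c) := fun g v => hd (Sum.inr (Sum.inl (g, v)))
    have e3 : Fa (ep d) (ep c) := fun a => hd (Sum.inr (Sum.inr a))
    exact ⟨⟨t, ht, fa_trans e1 h1, fun g => fa_trans (e2 g) (h2 g)⟩, (dm_mono e1).trans h3,
      fun g => (dm_mono (e2 g)).trans (h4 g), (ag2_ec (Fin M)).clo _ h5 _ e3,
      (dm_mono hd).trans h6⟩

private theorem ag2_dm {J : Type} [Fintype J] {c : Cl J} (h : ∀ j, c j % 2 = 0) : dm c = 0 := by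
  unfold dm
  rw [Finset.card_eq_zero, Finset.filter_eq_empty_iff]
  intro j _ h1
  have h2 := h j
  omega

theorem pg_ne (n D : ℕ) {K : Set (Cl V)} (hK : Cx K) (hne : K.Nonempty) (hM : 1 ≤ M) :
    (PG n D K : Set (Cl (IX G V N M))).Nonempty := by
  classical
  obtain ⟨t, ht⟩ := hne
  have hv : Fa (fun v => 2 * (t v / 2)) t := by
    intro v
    show fc (2 * (t v / 2)) (t v)
    unfold fc
    omega
  have hd : dm (fun v => 2 * (t v / 2)) = 0 := ag2_dm fun v => by omega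
  refine ⟨(Sum.elim (fun v => 2 * (t v / 2)) (Sum.elim (fun q : G × V => 2 * (t q.2 / 2))
    (fun a : ZMod N × Fin M => if a = (0, ⟨0, hM⟩) then 2 else 0)) : Cl (IX G V N M)),
    ⟨t, ht, hv, fun _ => hv⟩, hd.le.trans (Nat.zero_le n), fun _ => hd.le.trans (Nat.zero_le n),
    ⟨?_, ?_, ?_⟩, ?_⟩
  · intro a
    show 0 ≤ (if a = (0, ⟨0, hM⟩) then (2 : ℤ) else 0) ∧
      (if a = (0, ⟨0, hM⟩) then (2 : ℤ) else 0) ≤ 2
    split_ifs <;> norm_num
  · refine ⟨(0, ⟨0, hM⟩), ?_⟩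
    show (if ((0, ⟨0, hM⟩) : ZMod N × Fin M) = (0, ⟨0, hM⟩) then (2 : ℤ) else 0) = 2
    rw [if_pos rfl]
  · intro k g g' hg
    by_cases h1 : g = 0
    · right
      show (if ((g', k) : ZMod N × Fin M) = (0, ⟨0, hM⟩) then (2 : ℤ) else 0) = 0
      rw [if_neg]
      intro h2
      exact hg (h1.trans (congrArg Prod.fst h2).symm)
    · left
      show (if ((g, k) : ZMod N × Fin M) = (0, ⟨0, hM⟩) then (2 : ℤ) else 0) = 0
      rw [if_neg]
      intro h2
      exact h1 (congrArg Prod.fst h2)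
  · refine (ag2_dm ?_).le.trans (Nat.zero_le D)
    intro j
    rcases j with v | (⟨g, v⟩ | a)
    · show 2 * (t v / 2) % 2 = 0
      omega
    · show 2 * (t v / 2) % 2 = 0
      omega
    · show (if a = (0, ⟨0, hM⟩) then (2 : ℤ) else 0) % 2 = 0
      split_ifs <;> norm_num

theorem uu_cx (n D : ℕ) {K : Set (Cl V)} (hK : Cx K) (a : Cl V)
    {E : Set (Cl (ZMod N × Fin M))} (hE : Cx E) :
    Cx (UU n D K a E : Set (Cl ((G × V) ⊕ (ZMod N × Fin M)))) := by
  constructor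
  · have hf : (({f : G → Cl V | ∀ g, f g ∈ K} ×ˢ E)).Finite := (ag2_fin hK.fin).prod hE.fin
    refine (hf.image (fun p : (G → Cl V) × Cl (ZMod N × Fin M) =>
      (Sum.elim (fun q => p.1 q.1 q.2) p.2 : Cl ((G × V) ⊕ (ZMod N × Fin M))))).subset ?_
    rintro c ⟨⟨t, ht, -, h2⟩, -, h3, -⟩
    refine ⟨(fun g v => c (Sum.inl (g, v)), sn c), ⟨fun g => hK.clo t ht _ (h2 g), h3⟩, ?_⟩
    funext j
    rcases j with ⟨g, v⟩ | a <;> rfl
  · rintro c ⟨⟨t, ht, h1, h2⟩, h3, h4, h5⟩ d hd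
    have e2 : ∀ g, Fa (fun v => d (Sum.inl (g, v))) (fun v => c (Sum.inl (g, v))) :=
      fun g v => hd (Sum.inl (g, v))
    have e3 : Fa (sn d) (sn c) := fun b => hd (Sum.inr b)
    have e4 := dm_mono hd
    exact ⟨⟨t, ht, h1, fun g => fa_trans (e2 g) (h2 g)⟩,
      fun g => (dm_mono (e2 g)).trans (h3 g), hE.clo _ h4 _ e3, by omega⟩

theorem vv_cx {K : Set (Cl V)} (hK : Cx K) (a : Cl V) : Cx (VV G K a) := by
  constructor
  · have hf : ({f : G → Cl V | ∀ g, f g ∈ K}).Finite := ag2_fin hK.fin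
    refine (hf.image (fun p : (G → Cl V) => (fun q => p q.1 q.2 : Cl (G × V)))).subset ?_
    rintro c ⟨t, ht, -, h2⟩
    exact ⟨fun g v => c (g, v), fun g => hK.clo t ht _ (h2 g), rfl⟩
  · rintro c ⟨t, ht, h1, h2⟩ d hd
    exact ⟨t, ht, h1, fun g => fa_trans (fun v => hd (g, v)) (h2 g)⟩

end MNG
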