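import Pool.Agent.MNG.AG2

/-!
# MNG-AG3: the maps of the tower

`ca 8 (b0 c) = b0 (ca 8 c)`, `ca 8 (ep c) = ep (ca 8 c)`; `ca 8 c ∈ PG n D K`, so `b0 (ca 8 c)` is a face of a cell of `K` of dimension
at most `n`. `ag_g`: `dm (gg m c) ≤ dm c`: the odd coordinates of `gg m c` are those of block `0` and possibly the last one, in this
case `la_one` gives a column coordinate `15` (an injection of the finite sets of odd coordinates).
-/

set_option autoImplicit false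

noncomputable section

namespace MNG

open Set

variable {V G : Type} [Fintype V] [Fintype G] {N M : ℕ} [NeZero N]

theorem ag_rng {n D : ℕ} {K : Set (Cl V)} {c : Cl (IX G V N M)} (hc : c ∈ Gr 8 (PG n D K)) :
    ∀ a, 0 ≤ ep c a ∧ ep c a ≤ 16 := by
  intro a
  have h : ep (ca 8 c) ∈ EC N (Fin M) := hc.2.2.2.1
  exact ca1_rng (h.1 a)

private theorem ag3_fctrans {a b c : ℤ} (h : fc a b) (h' : fc b c) : fc a c := by
  unfold fc at *
  omega

private theorem ag3_b0K {n D : ℕ} {K : Set (Cl V)} (hK : Cx K) {c : Cl (IX G V N M)}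
    (hc : c ∈ Gr 8 (PG n D K)) : ca 8 (b0 c) ∈ sk n K := by
  obtain ⟨⟨t, ht, h1, -⟩, h2, -⟩ := hc
  exact ⟨hK.clo t ht _ h1, h2⟩

private theorem ag3_b0fa {c d : Cl (IX G V N M)} (h : Fa d c) : Fa (b0 d) (b0 c) :=
  fun v => h (Sum.inl v)

private theorem ag3_epfa {c d : Cl (IX G V N M)} (h : Fa d c) : Fa (ep d) (ep c) :=
  fun a => h (Sum.inr (Sum.inr a))

private theorem ag3_dmb0 (c : Cl (IX G V N M)) (f : ℤ → ℤ) (hf : ∀ z, f z % 2 = 1 → z % 2 = 1) :
    dm (fun v => f (b0 c v)) ≤ dm c := by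
  unfold dm
  refine Finset.card_le_card_of_injOn (fun v => (Sum.inl v : IX G V N M)) ?_ ?_
  · intro v hv
    have h2 := (Finset.mem_filter.1 (Finset.mem_coe.1 hv)).2
    exact Finset.mem_coe.2 (Finset.mem_filter.2 ⟨Finset.mem_univ _, hf _ h2⟩)
  · intro v _ w _ h
    exact Sum.inl_injective h

theorem ag_ka {n D : ℕ} {K : Set (Cl V)} (hK : Cx K) :
    Mon (sk n (Gr 8 (PG n D K : Set (Cl (IX G V N M))))) (sk n K) (fun c => ca 8 (b0 c)) :=
  ⟨fun _ hc => ag3_b0K hK hc.1, fun _ _ _ hd => ca_fa (by norm_num) (ag3_b0fa hd)⟩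

theorem ag_r {n D : ℕ} {K : Set (Cl V)} (hK : Cx K) :
    Cub (sk n (Gr 8 (PG n D K : Set (Cl (IX G V N M))))) (sk n (sk n K))
      (fun c v => rd1 (b0 c v)) := by
  have key : ∀ c ∈ sk n (Gr 8 (PG n D K : Set (Cl (IX G V N M)))),
      (fun v => rd1 (b0 c v)) ∈ sk n K := fun c hc =>
    (cx_sk hK).clo _ (ag3_b0K hK hc.1) _ fun v => rd1_ca _
  refine ⟨⟨fun c hc => ⟨key c hc, (key c hc).2⟩, fun c _ d hd v => rd1_fc (hd (Sum.inl v))⟩, ?_⟩
  intro c _
  exact ag3_dmb0 c rd1 fun z hz => rd1_odd hz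

private theorem ag3_dmgg (m : ℕ) (c : Cl (IX G V N M)) : dm (gg m c) ≤ dm c := by
  classical
  unfold dm
  by_cases h1 : la m (ep c) = 1
  · obtain ⟨a, -, ha⟩ := la_one h1
    refine Finset.card_le_card_of_injOn
      (fun x => Sum.elim (fun v => (Sum.inl v : IX G V N M)) (fun _ => Sum.inr (Sum.inr a)) x)
      ?_ ?_
    · intro x hx
      have h2 := (Finset.mem_filter.1 (Finset.mem_coe.1 hx)).2
      refine Finset.mem_coe.2 (Finset.mem_filter.2 ⟨Finset.mem_univ _, ?_⟩)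
      rcases x with v | u
      · exact h2
      · show ep c a % 2 = 1
        rw [ha]
        norm_num
    · intro x _ y _ h
      rcases x with v | u <;> rcases y with w | u'
      · exact congrArg Sum.inl (Sum.inl_injective h)
      · exact absurd h (by simp)
      · exact absurd h (by simp)
      · rfl
  · have h2 : (Finset.univ.filter fun x : V ⊕ Unit => gg m c x % 2 = 1) ⊆
        (Finset.univ.filter fun v : V => b0 c v % 2 = 1).image Sum.inl := by
      intro x hx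
      have h3 := (Finset.mem_filter.1 hx).2
      rcases x with v | u
      · exact Finset.mem_image.2 ⟨v, Finset.mem_filter.2 ⟨Finset.mem_univ _, h3⟩, rfl⟩
      · exfalso
        have h4 : la m (ep c) % 2 = 1 := h3
        rcases la_rng m (ep c) with h | h | h <;> rw [h] at h4 h1 <;> omega
    exact ((Finset.card_le_card h2).trans Finset.card_image_le).trans
      (ag3_dmb0 c (fun z => z) fun z hz => hz)

theorem ag_g {n D : ℕ} (m : ℕ) {K : Set (Cl V)} (hK : Cx K) :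
    Cub (sk n (sk n (Gr 8 (PG n D K : Set (Cl (IX G V N M))))))
      (sk n (Px (Gr 8 (sk n (sk n K))) (In 1))) (gg m) := by
  refine ⟨⟨fun c hc => ⟨⟨?_, ?_⟩, (ag3_dmgg m c).trans hc.2⟩, fun c hc d hd x => ?_⟩,
    fun c _ => ag3_dmgg m c⟩
  · exact ⟨ag3_b0K hK hc.1.1, (ag3_b0K hK hc.1.1).2⟩
  · show 0 ≤ la m (ep c) ∧ la m (ep c) ≤ 2 * ((1 : ℕ) : ℤ)
    rcases la_rng m (ep c) with h | h | h <;> rw [h] <;> norm_num
  · rcases x with v | u
    · exact hd (Sum.inl v)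
    · exact la_mono (ag_rng hc.1.1) (ag3_epfa hd)

theorem hh_cx {n D m : ℕ} {K : Set (Cl V)} (hK : Cx K) (S : Cl V) (z : ℤ) :
    Cx (HH n D m K S z : Set (Cl (IX G V N M))) := by
  have h8 : Cx (Gr 8 (PG n D K : Set (Cl (IX G V N M)))) := cx_gr (by norm_num) (pg_cx n D hK)
  refine ⟨h8.fin.subset fun c hc => hc.1, ?_⟩
  rintro c ⟨h1, h2, h3⟩ d hd
  exact ⟨h8.clo c h1 d hd, fa_trans (ag3_b0fa hd) h2,
    ag3_fctrans (la_mono (ag_rng h1) (ag3_epfa hd)) h3⟩

theorem hhc_cx {n D : ℕ} {K : Set (Cl V)} (hK : Cx K) (S : Cl V)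
    {E : Set (Cl (ZMod N × Fin M))} (hE : Cx E) :
    Cx (HHc n D K S E : Set (Cl (IX G V N M))) := by
  have h8 : Cx (Gr 8 (PG n D K : Set (Cl (IX G V N M)))) := cx_gr (by norm_num) (pg_cx n D hK)
  refine ⟨h8.fin.subset fun c hc => hc.1, ?_⟩
  rintro c ⟨h1, h2, h3⟩ d hd
  exact ⟨h8.clo c h1 d hd, fa_trans (ag3_b0fa hd) h2,
    hE.clo _ h3 _ (ca_fa (by norm_num) (ag3_epfa hd))⟩

end MNG
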