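import Pool.Agent.MNG.AG2
import Pool.Agent.MNG.T1b
import Pool.Agent.AGM.TOP

/-!
# MNG-AG4: the join is highly connected

`mem_Bo_ec`: `x ∈ Bo K ↔ cr x ∈ K` for closed `K` (`cr_mem`, `cr_bo`), and `cr x a` is `0` iff `x a = 0`, `2` iff `x a = 1`, between
`0` and `2` iff `0 ≤ x a ≤ 1`.
`ecs_cs`: `A` has `M' ≥ k + 2` elements, choose a bijection `β : A → Fin M'`. `Bo (ECs N A)` is homeomorphic to `AGM.EM N M'`
(`x ↦ fun a => x (a.1, β⁻¹ a.2)` for `a.2 < M'`, `0` otherwise; back: `y ↦ fun a => y (a.1, β a.2)` if `a.2 ∈ A`, `0` otherwise), and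
`AGM.em_ext N i M'` extends maps of the sphere `Sp i`, `i + 2 ≤ M'`. Use `cs_dom`.
-/

set_option autoImplicit false

noncomputable section

namespace MNG

open AGM (Ei Bl Sp)
open Set Topology

variable {N : ℕ} [NeZero N]

/-- the minimal cell of a point with coordinates in the unit interval -/
private def ag4c {J : Type} (x : J → ℝ) : Cl J := open Classical in
  fun a => if x a = 0 then 0 else if x a = 1 then 2 else 1

private theorem ag4c_bo {J : Type} (x : J → ℝ) (h : ∀ a, 0 ≤ x a ∧ x a ≤ 1) : x ∈ bo (ag4c x) := by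
  intro a
  obtain ⟨h1, h2⟩ := h a
  unfold ag4c
  by_cases h3 : x a = 0
  · simp [h3]
  · by_cases h4 : x a = 1
    · simp [h4]
    · simp only [h3, h4, if_false]
      norm_num
      rw [abs_le]
      constructor <;> linarith

private theorem ag4_zero {J : Type} {x : J → ℝ} {c : Cl J} (hx : x ∈ bo c) {a : J}
    (h : c a = 0) : x a = 0 := by
  have h1 : |2 * x a - (c a : ℝ)| ≤ ((c a % 2 : ℤ) : ℝ) := hx a
  rw [h] at h1
  norm_num at h1
  have h2 := abs_nonneg (x a)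
  exact abs_eq_zero.1 (le_antisymm (by linarith) h2)

private theorem ag4_two {J : Type} {x : J → ℝ} {c : Cl J} (hx : x ∈ bo c) {a : J}
    (h : c a = 2) : x a = 1 := by
  have h1 : |2 * x a - (c a : ℝ)| ≤ ((c a % 2 : ℤ) : ℝ) := hx a
  rw [h] at h1
  norm_num at h1
  linarith

private theorem ag4_unit {J : Type} {x : J → ℝ} {c : Cl J} (hx : x ∈ bo c) {a : J}
    (h : 0 ≤ c a ∧ c a ≤ 2) : 0 ≤ x a ∧ x a ≤ 1 := by
  have h2 : c a = 0 ∨ c a = 1 ∨ c a = 2 := by omega
  rcases h2 with h2 | h2 | h2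
  · rw [ag4_zero hx h2]
    norm_num
  · have h1 : |2 * x a - (c a : ℝ)| ≤ ((c a % 2 : ℤ) : ℝ) := hx a
    rw [h2] at h1
    norm_num at h1
    rw [abs_le] at h1
    constructor <;> linarith [h1.1, h1.2]
  · rw [ag4_two hx h2]
    norm_num

private theorem ag4c_ec {C : Type} [Fintype C] (x : ZMod N × C → ℝ)
    (h2 : ∃ a, x a = 1)
    (h3 : ∀ (k : C) (g g' : ZMod N), g ≠ g' → x (g, k) = 0 ∨ x (g', k) = 0) :
    ag4c x ∈ EC N C := by
  refine ⟨fun a => ?_, ?_, fun k g g' hg => ?_⟩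
  · unfold ag4c
    split_ifs <;> omega
  · obtain ⟨a, ha⟩ := h2
    refine ⟨a, ?_⟩
    unfold ag4c
    simp [ha]
  · rcases h3 k g g' hg with h | h
    · left
      simp [ag4c, h]
    · right
      simp [ag4c, h]

theorem mem_Bo_ec {C : Type} [Fintype C] (x : ZMod N × C → ℝ) :
    x ∈ Bo (EC N C) ↔ (∀ a, 0 ≤ x a ∧ x a ≤ 1) ∧ (∃ a, x a = 1) ∧
      ∀ (k : C) (g g' : ZMod N), g ≠ g' → x (g, k) = 0 ∨ x (g', k) = 0 := by
  constructor
  · rintro ⟨c, ⟨h1, ⟨a, h2⟩, h3⟩, hx⟩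
    refine ⟨fun a => ag4_unit hx (h1 a), ⟨a, ag4_two hx h2⟩, fun k g g' hg => ?_⟩
    rcases h3 k g g' hg with h | h
    · exact Or.inl (ag4_zero hx h)
    · exact Or.inr (ag4_zero hx h)
  · rintro ⟨h1, h2, h3⟩
    exact ⟨ag4c x, ag4c_ec x h2 h3, ag4c_bo x h1⟩

theorem mem_Bo_ecs {C : Type} [Fintype C] (A : Set C) (x : ZMod N × C → ℝ) :
    x ∈ Bo (ECs N A) ↔ x ∈ Bo (EC N C) ∧ ∀ a, a.2 ∉ A → x a = 0 := by
  constructor
  · rintro ⟨c, ⟨h1, h2⟩, hx⟩
    exact ⟨⟨c, h1, hx⟩, fun a ha => ag4_zero hx (h2 a ha)⟩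
  · rintro ⟨h, h4⟩
    obtain ⟨h1, h2, h3⟩ := (mem_Bo_ec x).1 h
    refine ⟨ag4c x, ⟨ag4c_ec x h2 h3, fun a ha => ?_⟩, ag4c_bo x h1⟩
    simp [ag4c, h4 a ha]

private theorem ag4_em (M' k : ℕ) (hM : k + 2 ≤ M') : Cs k (AGM.EM N M') := by
  classical
  refine ⟨⟨fun a => if a = ((0 : ZMod N), (0 : ℕ)) then 1 else 0, fun a => ?_,
    ⟨((0 : ZMod N), (0 : ℕ)), if_pos rfl⟩, fun k g g' hg => ?_, fun a ha => ?_⟩, ?_⟩
  · dsimp only
    split_ifs <;> norm_num
  · by_cases h : g = 0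
    · right
      refine if_neg fun h1 => hg ?_
      rw [h, (Prod.mk.inj h1).1]
    · left
      exact if_neg fun h1 => h (Prod.mk.inj h1).1
  · refine if_neg fun h1 => ?_
    rw [h1] at ha
    dsimp only at ha
    omega
  · intro i _ hi φ hφ hm
    exact AGM.em_ext N i M' (by omega) φ hφ hm

theorem ecs_cs {C : Type} [Fintype C] (A : Set C) (k : ℕ) (hA : k + 2 ≤ A.ncard) :
    Cs k (Bo (ECs N A)) := by
  classical
  have e : Nonempty (A ≃ Fin A.ncard) := by
    refine ⟨Finite.equivFinOfCardEq ?_⟩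
    exact (Nat.card_coe_set_eq A)
  obtain ⟨β⟩ := e
  refine cs_dom (AGM.EM N A.ncard) (Bo (ECs N A))
    (fun y a => if h : a.2 ∈ A then y (a.1, (β ⟨a.2, h⟩ : ℕ)) else 0)
    (fun x a => if h : a.2 < A.ncard then x (a.1, (β.symm ⟨a.2, h⟩ : C)) else 0)
    ?_ ?_ ?_ ?_ ?_ (ag4_em A.ncard k hA)
  · apply Continuous.continuousOn
    refine continuous_pi fun a => ?_
    by_cases h : a.2 ∈ A
    · simp only [h, dif_pos]
      exact continuous_apply _
    · simp only [h, dif_neg, not_false_eq_true]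
      exact continuous_const
  · apply Continuous.continuousOn
    refine continuous_pi fun a => ?_
    by_cases h : a.2 < A.ncard
    · simp only [h, dif_pos]
      exact continuous_apply _
    · simp only [h, dif_neg, not_false_eq_true]
      exact continuous_const
  · rintro y ⟨h1, ⟨a, h2⟩, h3, h4⟩
    rw [mem_Bo_ecs, mem_Bo_ec]
    have ha : a.2 < A.ncard := by
      by_contra h
      have h5 := h4 a (not_lt.1 h)
      rw [h2] at h5
      norm_num at h5
    refine ⟨⟨fun b => ?_, ⟨(a.1, (β.symm ⟨a.2, ha⟩ : C)), ?_⟩, fun c g g' hg => ?_⟩,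
      fun b hb => dif_neg hb⟩
    · dsimp only
      split_ifs with h
      · exact h1 _
      · norm_num
    · dsimp only
      rw [dif_pos (β.symm ⟨a.2, ha⟩).2]
      simp only [Subtype.coe_eta, Equiv.apply_symm_apply, Prod.mk.eta]
      exact h2
    · dsimp only
      by_cases h : c ∈ A
      · simp only [h, dif_pos]
        exact h3 _ g g' hg
      · left
        simp only [h, dif_neg, not_false_eq_true]
  · intro x hx
    rw [mem_Bo_ecs, mem_Bo_ec] at hx
    obtain ⟨⟨h1, ⟨a, h2⟩, h3⟩, h4⟩ := hx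
    have ha : a.2 ∈ A := by
      by_contra h
      have h5 := h4 a h
      rw [h2] at h5
      norm_num at h5
    refine ⟨fun b => ?_, ⟨(a.1, (β ⟨a.2, ha⟩ : ℕ)), ?_⟩, fun c g g' hg => ?_,
      fun b hb => dif_neg (not_lt.2 hb)⟩
    · dsimp only
      split_ifs with h
      · exact h1 _
      · norm_num
    · dsimp only
      rw [dif_pos (β ⟨a.2, ha⟩).2]
      simp only [Fin.eta, Equiv.symm_apply_apply, Prod.mk.eta]
      exact h2
    · dsimp only
      by_cases h : c < A.ncard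
      · simp only [h, dif_pos]
        exact h3 _ g g' hg
      · left
        simp only [h, dif_neg, not_false_eq_true]
  · intro x hx
    rw [mem_Bo_ecs] at hx
    funext a
    dsimp only
    by_cases h : a.2 ∈ A
    · rw [dif_pos h, dif_pos (β ⟨a.2, h⟩).2]
      simp only [Fin.eta, Equiv.symm_apply_apply, Prod.mk.eta]
    · rw [dif_neg h]
      exact (hx.2 a h).symm

end MNG
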