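import Pool.Agent.MNG.AG4

/-!
# MNG-AG5: the fibres of the join parameter

`z = 0`: `Ez` is `ECs N {k | k < m}`. `z = 1`: `Ez` is `ECs N univ`. `z = 2`: `Bo (Ez N M m 2)` is the set of the points of `Bo (EC N (Fin M))`
with some coordinate `1` in the second group of columns (`m ≤ k`); the homotopy `H t x = (1 - t) * x` in the columns `k < m`, `x` in the
other columns ends in `Bo (ECs N {k | m ≤ k})`, which has at least `k + 2` columns: `cs_hom` and `ecs_cs`.
-/

set_option autoImplicit false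

noncomputable section

namespace MNG

open AGM (Ei Bl Sp)
open Set Topology

variable {N M : ℕ} [NeZero N]

omit [NeZero N] in
private theorem ag5_card {c : ℕ} (A : Set (Fin M)) (f : Fin c → Fin M)
    (hf : Function.Injective f) (h : ∀ i, f i ∈ A) : c ≤ A.ncard := by
  have h1 : (f '' Set.univ).ncard = c := by
    rw [Set.ncard_image_of_injective _ hf, Set.ncard_univ, Nat.card_eq_fintype_card,
      Fintype.card_fin]
  calc c = (f '' Set.univ).ncard := h1.symm
    _ ≤ A.ncard := by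
      apply Set.ncard_le_ncard _ (Set.toFinite _)
      rintro _ ⟨i, _, rfl⟩
      exact h i

private theorem ag5_zero {k m : ℕ} (h1 : k + 2 ≤ m) (h2 : m + k + 2 ≤ M) :
    Cs k (Bo (Ez N M m 0)) := by
  have e : Ez N M m 0 = ECs N {k : Fin M | k.val < m} := by
    ext c
    constructor
    · rintro ⟨h3, h4, _⟩
      refine ⟨h3, fun a ha => h4 rfl a ?_⟩
      exact not_lt.1 ha
    · rintro ⟨h3, h4⟩
      refine ⟨h3, fun _ a ha => h4 a (not_lt.2 ha), fun h => ?_⟩
      exact absurd h (by norm_num)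
  rw [e]
  apply ecs_cs
  exact h1.trans (ag5_card _ (fun i : Fin m => (⟨i.val, by omega⟩ : Fin M))
    (fun i j hij => Fin.ext (congrArg (fun z : Fin M => z.val) hij)) (fun i => i.isLt))

private theorem ag5_one {k m : ℕ} (h2 : m + k + 2 ≤ M) : Cs k (Bo (Ez N M m 1)) := by
  have e : Ez N M m 1 = ECs N (Set.univ : Set (Fin M)) := by
    ext c
    constructor
    · rintro ⟨h3, _, _⟩
      exact ⟨h3, fun a ha => absurd (Set.mem_univ _) ha⟩
    · rintro ⟨h3, _⟩
      exact ⟨h3, fun h => absurd h (by norm_num), fun h => absurd h (by norm_num)⟩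
  rw [e]
  apply ecs_cs
  rw [Set.ncard_univ, Nat.card_eq_fintype_card, Fintype.card_fin]
  omega

private theorem ag5_mem {m : ℕ} (x : ZMod N × Fin M → ℝ) :
    x ∈ Bo (Ez N M m 2) ↔ x ∈ Bo (EC N (Fin M)) ∧ ∃ a, m ≤ a.2.val ∧ x a = 1 := by
  constructor
  · rintro ⟨c, ⟨h3, _, h5⟩, hx⟩
    refine ⟨⟨c, h3, hx⟩, ?_⟩
    obtain ⟨a, ha, hc⟩ := h5 rfl
    refine ⟨a, ha, ?_⟩
    have h6 : |2 * x a - (c a : ℝ)| ≤ ((c a % 2 : ℤ) : ℝ) := hx a
    rw [hc] at h6
    have h7 : ((2 % 2 : ℤ) : ℝ) = 0 := by norm_num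
    rw [h7, abs_nonpos_iff] at h6
    push_cast at h6
    linarith
  · rintro ⟨h3, a, ha, hxa⟩
    refine ⟨cr x, ⟨cr_mem (ec_cx (N := N) (Fin M)).clo h3, fun h => absurd h (by norm_num),
      fun _ => ⟨a, ha, ?_⟩⟩, cr_bo x⟩
    show (if |x a - round (x a)| ≤ 0 / 2 then 2 * round (x a) else 2 * ⌊x a⌋ + 1) = 2
    rw [hxa]
    have h4 : round (1 : ℝ) = 1 := round_one
    rw [h4]
    simp

open Classical in
private theorem ag5_two {k m : ℕ} (h2 : m + k + 2 ≤ M) :
    Cs k (Bo (Ez N M m 2)) := by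
  have hH : ∀ t ∈ Icc (0 : ℝ) 1, ∀ x ∈ Bo (Ez N M m 2),
      (fun a : ZMod N × Fin M => if a.2.val < m then (1 - t) * x a else x a) ∈
        Bo (Ez N M m 2) := by
    intro t ht x hx
    obtain ⟨h3, a, ha, hxa⟩ := (ag5_mem x).1 hx
    obtain ⟨h4, _, h6⟩ := (mem_Bo_ec x).1 h3
    refine (ag5_mem _).2 ⟨(mem_Bo_ec _).2 ⟨fun b => ?_, ⟨a, ?_⟩, fun c g g' hg => ?_⟩, a, ha, ?_⟩
    · show 0 ≤ (if b.2.val < m then (1 - t) * x b else x b) ∧
        (if b.2.val < m then (1 - t) * x b else x b) ≤ 1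
      obtain ⟨h7, h8⟩ := h4 b
      split_ifs
      · constructor
        · exact mul_nonneg (by linarith [ht.2]) h7
        · calc (1 - t) * x b ≤ 1 * x b :=
                mul_le_mul_of_nonneg_right (by linarith [ht.1]) h7
            _ ≤ 1 := by rw [one_mul]; exact h8
      · exact ⟨h7, h8⟩
    · show (if a.2.val < m then (1 - t) * x a else x a) = 1
      rw [if_neg (not_lt.2 ha), hxa]
    · show (if c.val < m then (1 - t) * x (g, c) else x (g, c)) = 0 ∨
        (if c.val < m then (1 - t) * x (g', c) else x (g', c)) = 0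
      rcases h6 c g g' hg with h7 | h7
      · left
        rw [h7, mul_zero, ite_self]
      · right
        rw [h7, mul_zero, ite_self]
    · show (if a.2.val < m then (1 - t) * x a else x a) = 1
      rw [if_neg (not_lt.2 ha), hxa]
  refine cs_hom (Bo (Ez N M m 2)) (Bo (ECs N {k : Fin M | m ≤ k.val})) ?_
    (fun t x a => if a.2.val < m then (1 - t) * x a else x a) ?_ ?_ ?_ hH ?_
  · intro x hx
    obtain ⟨h3, h4⟩ := (mem_Bo_ecs _ x).1 hx
    obtain ⟨_, ⟨a, ha⟩, _⟩ := (mem_Bo_ec x).1 h3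
    refine (ag5_mem x).2 ⟨h3, a, ?_, ha⟩
    by_contra h7
    rw [h4 a h7] at ha
    exact zero_ne_one ha
  · apply Continuous.continuousOn
    refine continuous_pi fun a => ?_
    by_cases h : a.2.val < m
    · simp only [h, if_true]
      fun_prop
    · simp only [h, if_false]
      fun_prop
  · intro x _
    funext a
    show (if a.2.val < m then (1 - 0) * x a else x a) = x a
    rw [sub_zero, one_mul, ite_self]
  · intro x hx
    refine (mem_Bo_ecs _ _).2 ⟨((ag5_mem _).1 (hH 1 ⟨zero_le_one, le_rfl⟩ x hx)).1, fun a ha => ?_⟩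
    show (if a.2.val < m then (1 - 1) * x a else x a) = 0
    have ha' : a.2.val < m := not_le.1 ha
    rw [if_pos ha', sub_self, zero_mul]
  · apply ecs_cs
    have h3 : k + 2 ≤ M - m := by omega
    exact h3.trans (ag5_card _ (fun i : Fin (M - m) => (⟨m + i.val, by omega⟩ : Fin M))
      (fun i j hij => by
        have h4 : m + i.val = m + j.val := congrArg (fun z : Fin M => z.val) hij
        exact Fin.ext (by omega)) (fun i => Nat.le_add_right m i.val))

theorem ez_cs {k m : ℕ} (h1 : k + 2 ≤ m) (h2 : m + k + 2 ≤ M) {z : ℤ}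
    (hz : z = 0 ∨ z = 1 ∨ z = 2) : Cs k (Bo (Ez N M m z)) := by
  rcases hz with rfl | rfl | rfl
  · exact ag5_zero h1 h2
  · exact ag5_one h2
  · exact ag5_two h2

end MNG
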