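import Pool.Agent.MNG.A1

/-!
# MNG-AGD: the towers of AGM, definitions (helper29)

Both towers (target `Y` and source `X`) are given by one formula. The index type of the next complex
is `IX G V N M`: block `0` (a copy of `V`), the blocks `g : G` (copies of `V`), and the columns
`ZMod N × Fin M`. For `Y`: `G = {g : ZMod N // g ≠ 0}`; for `X`: `G = Empty`.
`PG n D K` is the complex over `K`, the next complex is `Gr 8 (PG n D K)`.
-/

set_option autoImplicit false

noncomputable section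

namespace MNG

open AGM (Ei Bl Sp)
open Set Topology

variable {V G : Type} {N M : ℕ}

/-- the coordinates of the next complex: block `0`, the blocks `g : G`, the columns -/
abbrev IX (G V : Type) (N M : ℕ) : Type := V ⊕ ((G × V) ⊕ (ZMod N × Fin M))

/-- block `0` -/
def b0 (c : Cl (IX G V N M)) : Cl V := fun v => c (Sum.inl v)

/-- block `g` -/
def bg (g : G) (c : Cl (IX G V N M)) : Cl V := fun v => c (Sum.inr (Sum.inl (g, v)))

/-- the join part -/
def ep (c : Cl (IX G V N M)) : Cl (ZMod N × Fin M) := fun a => c (Sum.inr (Sum.inr a))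

/-- the cubical join of the sets `ZMod N × {k}`, `k : C` -/
def EC (N : ℕ) (C : Type) : Set (Cl (ZMod N × C)) :=
  {e | (∀ a, 0 ≤ e a ∧ e a ≤ 2) ∧ (∃ a, e a = 2) ∧
    ∀ (k : C) (g g' : ZMod N), g ≠ g' → e (g, k) = 0 ∨ e (g', k) = 0}

/-- the complex over `K` -/
def PG [Fintype V] [Fintype G] [NeZero N] (n D : ℕ) (K : Set (Cl V)) :
    Set (Cl (IX G V N M)) :=
  {c | (∃ t ∈ K, Fa (b0 c) t ∧ ∀ g, Fa (bg g c) t) ∧ dm (b0 c) ≤ n ∧ (∀ g, dm (bg g c) ≤ n) ∧
    ep c ∈ EC N (Fin M) ∧ dm c ≤ D}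

open Classical in
/-- the join parameter of a cell of the `8`-grid (a cell of the interval `[0, 1]` in doubled
coordinates): the vertices with a coordinate `8` in the second group of columns (`m ≤ k`) have the
value `1`, the other vertices the value `0` -/
def la (m : ℕ) (e : Cl (ZMod N × Fin M)) : ℤ :=
  if ∃ a : ZMod N × Fin M, m ≤ a.2.val ∧ e a = 16 then 2
  else if ∃ a : ZMod N × Fin M, m ≤ a.2.val ∧ e a = 15 then 1 else 0

/-- the map of property (B) -/
def gg (m : ℕ) (c : Cl (IX G V N M)) : Cl (V ⊕ Unit) := Sum.elim (b0 c) (fun _ => la m (ep c))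

/-- the fibre of `gg` in the unbounded complex -/
def HH [Fintype V] [Fintype G] [NeZero N] (n D m : ℕ) (K : Set (Cl V)) (S : Cl V) (z : ℤ) :
    Set (Cl (IX G V N M)) :=
  {c | c ∈ Gr 8 (PG n D K) ∧ Fa (b0 c) S ∧ fc (la m (ep c)) z}

/-- the fibre with a coarse condition on the join part -/
def HHc [Fintype V] [Fintype G] [NeZero N] (n D : ℕ) (K : Set (Cl V)) (S : Cl V)
    (E : Set (Cl (ZMod N × Fin M))) : Set (Cl (IX G V N M)) :=
  {c | c ∈ Gr 8 (PG n D K) ∧ Fa (b0 c) S ∧ ca 8 (ep c) ∈ E}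

/-- the columns of `A` -/
def ECs (N : ℕ) {C : Type} (A : Set C) : Set (Cl (ZMod N × C)) :=
  {e | e ∈ EC N C ∧ ∀ a, a.2 ∉ A → e a = 0}

/-- the fibres of the join parameter: first group of columns, everything, or some coordinate `1` in
the second group -/
def Ez (N M m : ℕ) (z : ℤ) : Set (Cl (ZMod N × Fin M)) :=
  {e | e ∈ EC N (Fin M) ∧ (z = 0 → ∀ a, m ≤ a.2.val → e a = 0) ∧
    (z = 2 → ∃ a, m ≤ a.2.val ∧ e a = 2)}

/-- contraction of a coordinate of the `8`-grid which touches the coarse lattice -/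
def tc1 (s : ℤ) : ℤ := if s % 16 = 1 then s - 1 else if s % 16 = 15 then s + 1 else s

/-- the fibre over the cell `a` of `K`, without block `0` -/
def UU [Fintype V] [Fintype G] [NeZero N] (n D : ℕ) (K : Set (Cl V)) (a : Cl V)
    (E : Set (Cl (ZMod N × Fin M))) : Set (Cl ((G × V) ⊕ (ZMod N × Fin M))) :=
  {u | (∃ t ∈ K, Fa a t ∧ ∀ g, Fa (fun v => u (Sum.inl (g, v))) t) ∧
    (∀ g : G, dm (fun v => u (Sum.inl (g, v))) ≤ n) ∧ sn u ∈ E ∧ dm a + dm u ≤ D}

/-- the blocks over the star of `a` -/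
def VV (G : Type) (K : Set (Cl V)) (a : Cl V) : Set (Cl (G × V)) :=
  {u | ∃ t ∈ K, Fa a t ∧ ∀ g, Fa (fun v => u (g, v)) t}

/-! ## the towers -/

/-- a stage -/
structure Stg where
  I : Type
  fI : Fintype I
  K : Set (Cl I)

/-- the data of a tower -/
structure Dta (n : ℕ) where
  D : ℕ
  N : ℕ → ℕ
  G : ℕ → Type
  M : ℕ → ℕ
  hN : ∀ b, NeZero (N b)
  fG : ∀ b, Fintype (G b)
  hM : ∀ b, 2 * n + 4 ≤ M b
  hD : 2 * n ≤ D

/-- the next stage -/
def nxS {n : ℕ} (A : Dta n) (b : ℕ) (S : Stg) : Stg :=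
  haveI := S.fI
  haveI := A.fG b
  haveI := A.hN b
  ⟨IX (A.G b) S.I (A.N b) (A.M b), inferInstance, Gr 8 (PG n A.D S.K)⟩

/-- the sequence of stages -/
def stg {n : ℕ} (A : Dta n) : ℕ → Stg
  | 0 => ⟨Empty, inferInstance, Set.univ⟩
  | b + 1 => nxS A b (stg A b)

/-- the index types -/
abbrev Dta.I {n : ℕ} (A : Dta n) (b : ℕ) : Type := (stg A b).I

instance {n : ℕ} (A : Dta n) (b : ℕ) : Fintype (A.I b) := (stg A b).fI

instance {n : ℕ} (A : Dta n) (b : ℕ) : NeZero (A.N b) := A.hN b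

instance {n : ℕ} (A : Dta n) (b : ℕ) : Fintype (A.G b) := A.fG b

/-- the complexes -/
def Dta.K {n : ℕ} (A : Dta n) (b : ℕ) : Set (Cl (A.I b)) := (stg A b).K

/-- the inclusion of block `0` -/
def Dta.i0 {n : ℕ} (A : Dta n) (b : ℕ) (v : A.I b) : A.I (b + 1) :=
  (Sum.inl v : IX (A.G b) (A.I b) (A.N b) (A.M b))

/-- the projections -/
def Dta.pr {n : ℕ} (A : Dta n) (b : ℕ) (x : A.I (b + 1) → ℝ) : A.I b → ℝ := fun v => x (A.i0 b v) / 8

/-- the inverse limit -/
def Dta.Lim {n : ℕ} (A : Dta n) : Set (∀ b, A.I b → ℝ) :=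
  {x | ∀ b, x b ∈ Bo (A.K b) ∧ A.pr b (x (b + 1)) = x b}

/-! ## the dictionary between elementary cubes and cells -/

/-- the cell (doubled coordinates) of an elementary cube -/
def clQ {J : Type} (Q : AGE.Cube J) : Cl J := open Classical in
  fun j => 2 * Q.lo j + if j ∈ Q.fr then 1 else 0

/-- `T` is the set of the cubes which are zero outside the range of `ι` and whose restriction is a
cell of `K` -/
def Rep {J : Type} (ι : V → J) (T : Set (AGE.Cube J)) (K : Set (Cl V)) : Prop :=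
  ∀ Q : AGE.Cube J, Q ∈ T ↔ (∀ j, j ∉ Set.range ι → Q.lo j = 0 ∧ j ∉ Q.fr) ∧
    (fun v => clQ Q (ι v)) ∈ K

/-- the next complex of the target tower of AGM (up to a bijection of the coordinates) -/
def Nxt {J J' : Type} [LinearOrder J] [LinearOrder J'] (n : ℕ) (T : Set (AGE.Cube J))
    (T' : Set (AGE.Cube J')) (e : J → J') : Prop :=
  ∃ (N : ℕ) (_ : NeZero N) (M : ℕ) (φ : J' ≃ AGE.JJ N J), 2 * n + 4 ≤ M ∧
    (∀ j, φ (e j) = AGE.JJ.a 0 j) ∧
    ∀ Q : AGE.Cube J', Q ∈ T' ↔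
      (⟨fun x => Q.lo (φ.symm x), Q.fr.map φ.toEmbedding⟩ : AGE.Cube (AGE.JJ N J)) ∈
        AGE.Grd 8 (AGM.PPf (N := N) M n T)

end MNG
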