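import Pool.Agent.MNG.AX2

/-!
# MNG-AX: the source: a free action of the `p`-adic integers on the limit of the tower `XD`, with orbit
space of dimension at most `m`
-/

set_option autoImplicit false

noncomputable section

namespace MNG

open AGM (Ei Bl Sp)
open AGE (actP lim3a)
open Set Topology

private theorem ax_coord {J : Type} (x : J → ℝ) (j : J) (h : cr x j % 2 ≠ 1) :
    ∃ w : ℤ, x j = w := by
  have e : cr x j = if |x j - round (x j)| ≤ 0 / 2 then 2 * round (x j) else 2 * ⌊x j⌋ + 1 := rfl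
  by_cases h1 : |x j - round (x j)| ≤ 0 / 2
  · rw [zero_div, abs_nonpos_iff, sub_eq_zero] at h1
    exact ⟨_, h1⟩
  · rw [e, if_neg h1] at h
    omega

private theorem ax_bo_int {J : Type} {c : Cl J} {x : J → ℝ} (hx : x ∈ bo c) (j : J) (m : ℤ)
    (h : c j = 2 * m) : x j = m := by
  have h1 : |2 * x j - (c j : ℝ)| ≤ ((c j % 2 : ℤ) : ℝ) := hx j
  have h2 : c j % 2 = 0 := by omega
  rw [h2, Int.cast_zero, abs_nonpos_iff, h] at h1
  push_cast at h1
  linarith

/-- points of the limit have at most `n` coordinates which are not integral -/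
theorem ax_integral {n : ℕ} (A : Dta n) (x : A.Lim) (b : ℕ) :
    ∃ s : Finset (A.I b), s.card ≤ n ∧ ∀ j, j ∉ s → ∃ w : ℤ, x.1 b j = w := by
  classical
  refine ⟨Finset.univ.filter (fun j => cr (x.1 b) j % 2 = 1), ?_, fun j hj => ?_⟩
  · have h1 : cr (x.1 (b + 1)) ∈ A.K (b + 1) := cr_mem (ax_cx A (b + 1)).clo (x.2 (b + 1)).1
    have h2 := (ax_mem A b (cr (x.1 (b + 1)))).1 h1
    have h3 := h2.2.1
    have h4 : b0 (ca 8 (cr (x.1 (b + 1)) : Cl (IX (A.G b) (A.I b) (A.N b) (A.M b)))) =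
        cr (x.1 b) := by
      have h5 : ca 8 (cr (x.1 (b + 1)) : Cl (IX (A.G b) (A.I b) (A.N b) (A.M b))) =
          cr (fun j => x.1 (b + 1) j / ((8 : ℕ) : ℝ)) := ca_cr (by norm_num) _
      rw [h5]
      have h6 : x.1 b = fun v => x.1 (b + 1) (A.i0 b v) / 8 := ((x.2 b).2).symm
      rw [h6]
      push_cast
      rfl
    exact ((congrArg dm h4).symm.le).trans h3
  · refine ax_coord _ j fun h => hj ?_
    rw [Finset.mem_filter]
    exact ⟨Finset.mem_univ _, h⟩

/-- separation -/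
theorem ax_sep (p m : ℕ) [Fact p.Prime] (b : ℕ) (a : ℕ) (ha : ¬ p ^ (b + 1) ∣ a)
    (z : (XD p m).I (b + 1) → ℝ) (hz : z ∈ Bo ((XD p m).K (b + 1))) :
    actP (axp p m (b + 1) ^ a) z ≠ z := by
  intro heq
  obtain ⟨c, hc, hx⟩ := hz
  have hc' := (ax_mem (XD p m) b c).1 hc
  obtain ⟨-, ⟨⟨g, k⟩, h2⟩, h3⟩ := hc'.2.2.2.1
  have e1 : ∀ u : ℤ, ca1 8 u = 2 → u = 16 := by
    intro u hu
    unfold ca1 at hu
    push_cast at hu
    split_ifs at hu <;> omega
  have e2 : ∀ u : ℤ, ca1 8 u = 0 → u = 0 := by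
    intro u hu
    unfold ca1 at hu
    push_cast at hu
    split_ifs at hu <;> omega
  let I' := IX ((XD p m).G b) ((XD p m).I b) ((XD p m).N b) ((XD p m).M b)
  have h4 : (c : Cl I') (Sum.inr (Sum.inr (g, k))) = 2 * 8 := e1 _ h2
  have h5 : z (Sum.inr (Sum.inr (g, k)) : I') = ((8 : ℤ) : ℝ) := ax_bo_int hx _ 8 h4
  have hne : g ≠ g + (a : ZMod ((XD p m).N b)) := by
    intro h
    apply ha
    have h6 : ((a : ℕ) : ZMod ((XD p m).N b)) = 0 := by
      have h7 := h.symm
      rwa [add_eq_left] at h7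
    exact (ZMod.natCast_eq_zero_iff a _).1 h6
  have h6 : ep (ca 8 (c : Cl I')) (g + (a : ZMod ((XD p m).N b)), k) = 0 := by
    rcases h3 k g (g + (a : ZMod ((XD p m).N b))) hne with h | h
    · rw [h] at h2
      omega
    · exact h
  have h7 : (c : Cl I') (Sum.inr (Sum.inr (g + (a : ZMod ((XD p m).N b)), k))) = 2 * 0 := by
    rw [mul_zero]
    exact e2 _ h6
  have h8 : z (Sum.inr (Sum.inr (g + (a : ZMod ((XD p m).N b)), k)) : I') = ((0 : ℤ) : ℝ) :=
    ax_bo_int hx _ 0 h7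
  have h9 := congrFun heq (Sum.inr (Sum.inr (g + (a : ZMod ((XD p m).N b)), k)) : I')
  have h10 : (axp p m (b + 1) ^ a).symm
      (Sum.inr (Sum.inr (g + (a : ZMod ((XD p m).N b)), k)) : I') =
      (Sum.inr (Sum.inr (g, k)) : I') := by
    rw [Equiv.symm_apply_eq]
    exact (axs_pow_ep (axp p m b) a (g, k)).symm
  have h11 : actP (axp p m (b + 1) ^ a) z
      (Sum.inr (Sum.inr (g + (a : ZMod ((XD p m).N b)), k)) : I') =
      z (Sum.inr (Sum.inr (g, k)) : I') := congrArg z h10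
  rw [h11, h5, h8] at h9
  norm_num at h9

theorem x_act (p m : ℕ) [Fact p.Prime] :
    CompactSpace (XD p m).Lim ∧ TopologicalSpace.MetrizableSpace (XD p m).Lim ∧
      ∃ (_ : MulAction (Multiplicative ℤ_[p]) (XD p m).Lim)
        (_ : ContinuousSMul (Multiplicative ℤ_[p]) (XD p m).Lim),
        (∀ (g : Multiplicative ℤ_[p]) (x : (XD p m).Lim), g • x = x → g = 1) ∧
        AGE.CovDimLE (Quotient (MulAction.orbitRel (Multiplicative ℤ_[p]) (XD p m).Lim)) m := by
  have hC := ax_compact (XD p m)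
  obtain ⟨A, hA, hsp⟩ := AGM.pac p (fun b => (XD p m).I b) (axp p m) (fun b => b) (axp_order p m)
    (XD p m).Lim (ax_closed (XD p m)) (ax_lim_inv p m)
  have hact : ∀ k (g : Multiplicative ℤ_[p]), ∃ σ : Equiv.Perm ((XD p m).I k),
      ∀ y : (XD p m).Lim, (g • y).1 k = actP σ (y.1 k) := by
    intro k g
    obtain ⟨a, w, haw⟩ := lim3a p k (Multiplicative.toAdd g)
    refine ⟨axp p m k ^ a, fun y => ?_⟩
    have h4 := hsp k a w y
    rw [← haw] at h4
    exact h4
  refine ⟨hC, ax_metrizable (XD p m), A, hA, ?_, ?_⟩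
  · intro g x hgx
    by_contra hne
    have hz0 : Multiplicative.toAdd g ≠ 0 := fun h => hne (by
      rw [← ofAdd_toAdd g, h, ofAdd_zero])
    obtain ⟨k, hk⟩ : ∃ k : ℕ, PadicInt.toZModPow k (Multiplicative.toAdd g) ≠ 0 := by
      by_contra hcon
      push Not at hcon
      apply hz0
      rw [← PadicInt.ext_of_toZModPow]
      intro n
      rw [hcon n, map_zero]
    obtain ⟨a, w, haw⟩ := lim3a p (k + 1) (Multiplicative.toAdd g)
    have hna : ¬ p ^ (k + 1) ∣ a := by
      rintro ⟨b, hb⟩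
      apply hk
      rw [← RingHom.mem_ker, PadicInt.ker_toZModPow, Ideal.mem_span_singleton, haw, hb]
      push_cast
      rw [← mul_add, pow_succ, mul_assoc]
      exact dvd_mul_right _ _
    have h4 := hsp (k + 1) a w x
    rw [← haw, ofAdd_toAdd, hgx] at h4
    exact ax_sep p m k a hna _ (x.2 (k + 1)).1 h4.symm
  · refine AGM.covdim_quot m (fun g => continuous_const_smul g) (fun b => (XD p m).I b)
      (fun b => (XD p m).i0 b) (fun k y => y.1 k) ?_ ?_ ?_ ?_ ?_ hact
    · exact fun k => (continuous_apply k).comp continuous_subtype_val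
    · exact fun y y' h => Subtype.ext (funext h)
    · intro k y j
      exact (congrFun (y.2 k).2 j).symm
    · exact fun k => ⟨Finset.univ, fun y j hj => absurd (Finset.mem_univ j) hj⟩
    · exact fun k y => ax_integral (XD p m) y k

end MNG
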