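import Pool.Agent.MNG.LD2

/-!
# Project MNG, layer LADDER, part 3: subsampling of towers, the ladder of two generic towers
-/

set_option autoImplicit false

noncomputable section

namespace MNG.LD

open MNG
open Set Topology Filter

variable {k : ℕ}

/-! ## the tower with rounding maps of a tower -/

/-- forgetting the maps of property (B) -/
def ofTw (S : Tw k) : To k where
  J := S.J
  M := S.M
  cx := S.cx
  D := S.D
  dmM := S.dmM
  ka := S.ka
  kam := S.kam
  pr := S.pr
  prL := S.prL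
  prk := S.prk
  r := S.r
  rm := fun b => (S.rm b).toMon
  rk := S.rk

theorem kk_eq (S : Tw k) (b : ℕ) : ∀ (n : ℕ) (c : Cl (S.J (b + n))),
    S.kk b n c = (ofTw S).C (b + n) c b := by
  intro n
  induction n with
  | zero =>
    intro c
    exact (dn_self (A := fun b => Cl (S.J b)) S.ka b c).symm
  | succ n ih =>
    intro c
    have h1 : (ofTw S).C (b + (n + 1)) c b = (ofTw S).C (b + n) (S.ka (b + n) c) b :=
      dn_succ (A := fun b => Cl (S.J b)) S.ka (b + n) c (Nat.le_add_right b n)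
    rw [h1, ← ih]
    rfl

/-! ## subsampling -/

/-- the subtower -/
def To.sub (S : To k) (a : ℕ → ℕ) (ha : StrictMono a) : To k where
  J := fun i => S.J (a i)
  M := fun i => S.M (a i)
  cx := fun i => S.cx (a i)
  D := S.D
  dmM := fun i => S.dmM (a i)
  ka := fun i c => S.C (a (i + 1)) c (a i)
  kam := fun i => ⟨fun c hc => S.C_mem hc (ha (Nat.lt_succ_self i)).le,
    fun c hc d hd => S.C_mono hc hd (ha (Nat.lt_succ_self i)).le⟩
  pr := fun i z => S.P (a (i + 1)) z (a i)
  prL := fun i x y => by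
    refine (S.P_dist x y (ha (Nat.lt_succ_self i)).le).trans ?_
    apply div_le_div_of_nonneg_left dist_nonneg (by norm_num)
    have h1 : 1 ≤ a (i + 1) - a i := by
      have := ha (Nat.lt_succ_self i)
      simp only [Nat.succ_eq_add_one] at this
      omega
    calc (2 : ℝ) = 2 ^ 1 := by norm_num
      _ ≤ 2 ^ (a (i + 1) - a i) := pow_le_pow_right₀ (by norm_num) h1
  prk := fun i c hc x hx => S.P_bo hc hx (ha (Nat.lt_succ_self i)).le
  r := fun i c => S.r (a i) (S.C (a (i + 1)) c (a i + 1))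
  rm := fun i => ⟨fun c hc => (S.rm (a i)).map _ (S.C_mem hc (ha (Nat.lt_succ_self i))),
    fun c hc d hd => (S.rm (a i)).mono _ (S.C_mem hc (ha (Nat.lt_succ_self i))) _
      (S.C_mono hc hd (ha (Nat.lt_succ_self i)))⟩
  rk := fun i c hc => by
    have h1 := S.rk (a i) _ (S.C_mem hc (ha (Nat.lt_succ_self i)))
    rwa [show S.ka (a i) (S.C (a (i + 1)) c (a i + 1)) = S.C (a (i + 1)) c (a i) from
      dn_step (A := fun b => Cl (S.J b)) S.ka (a (i + 1)) c (a i) (ha (Nat.lt_succ_self i))] at h1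

theorem To.sub_P (S : To k) (a : ℕ → ℕ) (ha : StrictMono a) {z : ∀ i, S.J (a i) → ℝ}
    (hz : z ∈ (S.sub a ha).Lim) (i : ℕ) : ∀ n : ℕ, S.P (a (i + n)) (z (i + n)) (a i) = z i := by
  intro n
  induction n with
  | zero => exact dn_self (A := fun b => S.J b → ℝ) S.pr (a i) (z i)
  | succ n ih =>
    rw [← ih]
    have h1 : S.P (a (i + n + 1)) (z (i + n + 1)) (a (i + n)) = z (i + n) := (hz (i + n)).2
    rw [← h1]
    exact (dn_trans (A := fun b => S.J b → ℝ) S.pr (a (i + n + 1)) (z (i + n + 1)) (a (i + n)) (a i)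
      (ha.monotone (Nat.le_add_right i n)) (ha (Nat.lt_succ_self (i + n))).le).symm

/-- restriction to the subtower is a homeomorphism of the limits -/
def To.subH (S : To k) (a : ℕ → ℕ) (ha : StrictMono a) : S.Lim ≃ₜ (S.sub a ha).Lim where
  toFun := fun x => ⟨fun i => x.1 (a i), fun i => ⟨(x.2 (a i)).1,
    S.P_thread x.2 (ha (Nat.lt_succ_self i)).le⟩⟩
  invFun := fun z => ⟨fun b => S.P (a b) (z.1 b) b, fun b => ⟨S.P_Bo (z.2 b).1 (ha.le_apply), by
    have h1 : S.pr b (S.P (a (b + 1)) (z.1 (b + 1)) (b + 1)) = S.P (a (b + 1)) (z.1 (b + 1)) b :=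
      dn_step (A := fun b => S.J b → ℝ) S.pr (a (b + 1)) (z.1 (b + 1)) b
        (lt_of_lt_of_le (Nat.lt_succ_self b) ha.le_apply)
    have h2 : S.P (a (b + 1)) (z.1 (b + 1)) (a b) = z.1 b := (z.2 b).2
    have h3 : S.P (a b) (S.P (a (b + 1)) (z.1 (b + 1)) (a b)) b = S.P (a (b + 1)) (z.1 (b + 1)) b :=
      dn_trans (A := fun b => S.J b → ℝ) S.pr (a (b + 1)) (z.1 (b + 1)) (a b) b
        ha.le_apply (ha (Nat.lt_succ_self b)).le
    exact h1.trans (h3.symm.trans (congrArg (fun w => S.P (a b) w b) h2))⟩⟩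
  left_inv := by
    intro x
    apply Subtype.ext
    funext b
    exact S.P_thread x.2 ha.le_apply
  right_inv := by
    intro z
    apply Subtype.ext
    funext i
    have h1 : i ≤ a i := ha.le_apply
    obtain ⟨n, hn⟩ := Nat.exists_eq_add_of_le h1
    have h2 := S.sub_P a ha z.2 i n
    rw [← hn] at h2
    exact h2
  continuous_toFun := by
    apply Continuous.subtype_mk
    apply continuous_pi
    intro i
    exact (continuous_apply (a i)).comp continuous_subtype_val
  continuous_invFun := by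
    apply Continuous.subtype_mk
    apply continuous_pi
    intro b
    exact (S.P_cont (a b) (ha.le_apply)).comp
      ((continuous_apply b).comp continuous_subtype_val)

/-! ## the ladder of two generic towers -/

/-- the states of the construction -/
structure St (S T : Tw k) where
  a : ℕ
  b : ℕ
  f : Cl (S.J a) → Cl (T.J b)
  fC : Cub (S.X a) (T.X b) f
  fS : Soft k (S.X a) (T.X b) f

theorem step {S T : Tw k} (hS : Gen S) (hT : Gen T) (s : St S T) :
    ∃ s' : St S T, s.a < s'.a ∧ s.b < s'.b ∧ ∃ g : Cl (T.J s'.b) → Cl (S.J s.a),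
      Mon (T.X s'.b) (S.X s.a) g ∧
      (∀ d ∈ T.X s'.b, Fa (s.f (g d)) ((ofTw T).C s'.b d s.b)) ∧
      ∀ c ∈ S.X s'.a, Fa (g (s'.f c)) ((ofTw S).C s'.a c s.a) := by
  obtain ⟨n, hn, g, hg1, hg2, hg3⟩ := hT s.b (S.J s.a) (S.X s.a) s.f (sk_Cx (S.cx s.a))
    (fun c hc => hc.2) s.fC s.fS
  obtain ⟨m, hm, f', hf1, hf2, hf3⟩ := hS s.a (T.J (s.b + n)) (T.X (s.b + n)) g
    (sk_Cx (T.cx (s.b + n))) (fun c hc => hc.2) hg1 hg2
  refine ⟨⟨s.a + m, s.b + n, f', hf1, hf2⟩, ?_, ?_, g, hg1.toMon, ?_, ?_⟩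
  · show s.a < s.a + m
    omega
  · show s.b < s.b + n
    omega
  · intro d hd
    have h1 := hg3 d hd
    rwa [kk_eq] at h1
  · intro c hc
    have h1 := hf3 c hc
    rwa [kk_eq] at h1

theorem start {S T : Tw k} (h0 : Cs k (Bo (S.X 0))) (p : Cl (T.J 0)) (hp : T.M 0 = {p}) :
    Nonempty (St S T) := by
  have h1 : dm p = 0 := by
    have h2 : vt p ∈ T.M 0 := (T.cx 0).clo p (by rw [hp]; rfl) _ (vt_Fa p)
    rw [hp] at h2
    have h3 : vt p = p := h2
    rw [← h3]
    exact dm_vt p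
  have hpX : p ∈ T.X 0 := ⟨by rw [hp]; rfl, by rw [h1]; exact Nat.zero_le k⟩
  refine ⟨⟨0, 0, fun _ => p, ⟨⟨fun _ _ => hpX, fun _ _ _ _ => Fa_refl p⟩, fun c _ => ?_⟩, ?_⟩⟩
  · rw [h1]; exact Nat.zero_le _
  · intro s hs
    have h2 : s ∈ T.M 0 := hs.1
    rw [hp] at h2
    have h3 : s = p := h2
    have h4 : Fb (fun _ : Cl (S.J 0) => p) (S.X 0) s = S.X 0 := by
      ext c
      constructor
      · intro h; exact h.1
      · intro h; exact ⟨h, by rw [h3]; exact Fa_refl p⟩
    rw [h4]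
    exact h0

/-- **Ladder**: generic towers with the same starting data have homeomorphic limits -/
theorem ladder {k : ℕ} (hk : 1 ≤ k) (S T : Tw k) (hS : Gen S) (hT : Gen T)
    (h0 : Cs k (Bo (S.X 0))) (p : Cl (T.J 0)) (hp : T.M 0 = {p}) :
    Nonempty (S.Lim ≃ₜ T.Lim) := by
  obtain ⟨s0⟩ := start h0 p hp
  choose nx h1 h2 g h3 h4 h5 using fun s => step hS hT s
  let st : ℕ → St S T := fun i => Nat.rec s0 (fun _ s => nx s) i
  have ha : StrictMono (fun i => (st i).a) := strictMono_nat_of_lt_succ (fun i => h1 (st i))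
  have hb : StrictMono (fun i => (st i).b) := strictMono_nat_of_lt_succ (fun i => h2 (st i))
  let L : Lad ((ofTw S).sub (fun i => (st i).a) ha) ((ofTw T).sub (fun i => (st i).b) hb) :=
    { f := fun i => (st i).f
      g := fun i => g (st i)
      fC := fun i => (st i).fC.toMon
      gC := fun i => h3 (st i)
      fg := fun i d hd => h4 (st i) d hd
      gf := fun i c hc => h5 (st i) c hc }
  exact ⟨(((ofTw S).subH _ ha).trans (L.homeo hk)).trans ((ofTw T).subH _ hb).symm⟩

end MNG.LD
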