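import Pool.Agent.MNG.SP7

/-!
# MNG-SP9: the fibres of the map `(th, La)` in coordinates

`sp_th_fib`: by `s % 16` (omega): `s = 16 m`: `l = 24 m - 8, u = 24 m + 8`; `s = 16 m + 1`: `l = 24 m - 8, u = 24 m + 9`; `s = 16 m - 1`: `l = 24 m - 9, u = 24 m + 8`;
`s = 16 i + a` with `2 ≤ a ≤ 14`: `l = 24 i + 8 + a / 2`, `u = 24 i + 8 + (a + 1) / 2`.
`sp_sf`: choose; `j ∉ D` implies that `ca1 8 (s j)` is odd, and `dm (ca 8 s) ≤ k`.
`sp_fib_pt`: `sp_Bo_cr` (the fibre is closed: `cx_fb`), `c = cr x`; `c ∈ Gr 8 (Nn k (b + 1))` iff `ca 3 (ca 8 c) = ca 24 c = cr (x / 24) ∈ Nn k b` (`sp_ca_comp`, `sp_cr_div`) and at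
most `k` coordinates have `ca1 8 (c j) % 6 = 3`; the last condition follows from `Fa (thc c) s`: if `ca1 8 (c j) % 6 = 3` then `ca1 8 (th1 (c j)) = rh1 (ca1 8 (c j))` is odd, so the
same holds for `ca1 8 (s j)` (`sp_th_ca`), and `dm (ca 8 s) ≤ k`. `Fa (thc c) s` iff `2 l j ≤ c j ≤ 2 u j` iff `l j ≤ x j ≤ u j`. `lac k c = 0` iff at most `k` coordinates have `7 ≤ c j % 48 ≤ 41`, i.e. (`sp_cr_le` etc.) `j ∉ D` or
`|x j - 24 m j| > 3`; `lac k c = 2` iff at least `k + 1` coordinates have `8 ≤ c j % 48 ≤ 40`, i.e. at most `k` coordinates have `j ∈ D` and `|x j - 24 m j| < 4`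
(`2 k + 1` coordinates).
-/

set_option autoImplicit false

noncomputable section

namespace MNG

open AGM (Ei Bl Sp)
open Set Topology

theorem sp_th_fib (s : ℤ) :
    (∃ m l u : ℤ, 24 * m - 9 ≤ l ∧ l ≤ 24 * m - 8 ∧ 24 * m + 8 ≤ u ∧ u ≤ 24 * m + 9 ∧
      (∀ z : ℤ, fc (th1 z) s ↔ 2 * l ≤ z ∧ z ≤ 2 * u) ∧ 2 * m - 1 ≤ ca1 8 s ∧
      ca1 8 s ≤ 2 * m + 1) ∨
    (∃ m l u : ℤ, 24 * m + 9 ≤ l ∧ l ≤ u ∧ u ≤ 24 * m + 15 ∧
      (∀ z : ℤ, fc (th1 z) s ↔ 2 * l ≤ z ∧ z ≤ 2 * u) ∧ ca1 8 s = 2 * m + 1) := by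
  have hs := Int.emod_add_mul_ediv s 16
  have h0 : 0 ≤ s % 16 := Int.emod_nonneg _ (by norm_num)
  have h1 : s % 16 < 16 := Int.emod_lt_of_pos _ (by norm_num)
  rcases (show s % 16 = 0 ∨ s % 16 = 1 ∨ s % 16 = 15 ∨ (2 ≤ s % 16 ∧ s % 16 ≤ 14) by omega) with
    h | h | h | h
  · left
    refine ⟨s / 16, 24 * (s / 16) - 8, 24 * (s / 16) + 8, by omega, by omega, by omega, by omega,
      fun z => ?_, ?_, ?_⟩
    · unfold fc th1
      split_ifs <;> omega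
    · unfold ca1
      push_cast
      split_ifs <;> omega
    · unfold ca1
      push_cast
      split_ifs <;> omega
  · left
    refine ⟨s / 16, 24 * (s / 16) - 8, 24 * (s / 16) + 9, by omega, by omega, by omega, by omega,
      fun z => ?_, ?_, ?_⟩
    · unfold fc th1
      split_ifs <;> omega
    · unfold ca1
      push_cast
      split_ifs <;> omega
    · unfold ca1
      push_cast
      split_ifs <;> omega
  · left
    refine ⟨s / 16 + 1, 24 * (s / 16 + 1) - 9, 24 * (s / 16 + 1) + 8, by omega, by omega, by omega,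
      by omega, fun z => ?_, ?_, ?_⟩
    · unfold fc th1
      split_ifs <;> omega
    · unfold ca1
      push_cast
      split_ifs <;> omega
    · unfold ca1
      push_cast
      split_ifs <;> omega
  · right
    refine ⟨s / 16, 24 * (s / 16) + 8 + (s % 16) / 2, 24 * (s / 16) + 8 + (s % 16 + 1) / 2,
      by omega, by omega, by omega, fun z => ?_, ?_⟩
    · unfold fc th1
      split_ifs <;> omega
    · unfold ca1
      push_cast
      split_ifs <;> omega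

/-- the data of the fibre over `s`: `D` = the coordinates near the lattice `24 ℤ` (near `24 m j`) -/
structure SF (k : ℕ) (s : Cl (Fin (2 * k + 1))) (D : Finset (Fin (2 * k + 1)))
    (m l u : Fin (2 * k + 1) → ℤ) : Prop where
  hD : ∀ j ∈ D, 24 * m j - 9 ≤ l j ∧ l j ≤ 24 * m j - 8 ∧ 24 * m j + 8 ≤ u j ∧
    u j ≤ 24 * m j + 9
  hI : ∀ j, j ∉ D → 24 * m j + 9 ≤ l j ∧ l j ≤ u j ∧ u j ≤ 24 * m j + 15
  hf : ∀ j z, fc (th1 z) (s j) ↔ 2 * l j ≤ z ∧ z ≤ 2 * u j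
  cD : ∀ j ∈ D, 2 * m j - 1 ≤ ca1 8 (s j) ∧ ca1 8 (s j) ≤ 2 * m j + 1
  cI : ∀ j, j ∉ D → ca1 8 (s j) = 2 * m j + 1
  card : (Finset.univ.filter (fun j => j ∉ D)).card ≤ k

theorem sp_sf (k b : ℕ) (s : Cl (Fin (2 * k + 1))) (hs : s ∈ Gr 8 (sk k (Nn k b))) :
    ∃ D m l u, SF k s D m l u := by
  classical
  have hex : ∀ j, ∃ (P : Prop) (m l u : ℤ), (∀ z : ℤ, fc (th1 z) (s j) ↔ 2 * l ≤ z ∧ z ≤ 2 * u) ∧
      (P → 24 * m - 9 ≤ l ∧ l ≤ 24 * m - 8 ∧ 24 * m + 8 ≤ u ∧ u ≤ 24 * m + 9 ∧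
        2 * m - 1 ≤ ca1 8 (s j) ∧ ca1 8 (s j) ≤ 2 * m + 1) ∧
      (¬ P → 24 * m + 9 ≤ l ∧ l ≤ u ∧ u ≤ 24 * m + 15 ∧ ca1 8 (s j) = 2 * m + 1) := by
    intro j
    rcases sp_th_fib (s j) with ⟨m, l, u, h1, h2, h3, h4, h5, h6, h7⟩ | ⟨m, l, u, h1, h2, h3, h5, h6⟩
    · exact ⟨True, m, l, u, h5, fun _ => ⟨h1, h2, h3, h4, h6, h7⟩, fun h => absurd trivial h⟩
    · exact ⟨False, m, l, u, h5, fun h => absurd h id, fun _ => ⟨h1, h2, h3, h6⟩⟩
  choose P m l u hf hP hN using hex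
  refine ⟨Finset.univ.filter (fun j => P j), m, l, u, ?_, ?_, hf, ?_, ?_, ?_⟩
  · intro j hj
    have h := hP j (Finset.mem_filter.1 hj).2
    exact ⟨h.1, h.2.1, h.2.2.1, h.2.2.2.1⟩
  · intro j hj
    have h := hN j (fun h => hj (Finset.mem_filter.2 ⟨Finset.mem_univ _, h⟩))
    exact ⟨h.1, h.2.1, h.2.2.1⟩
  · intro j hj
    have h := hP j (Finset.mem_filter.1 hj).2
    exact ⟨h.2.2.2.2.1, h.2.2.2.2.2⟩
  · intro j hj
    exact (hN j (fun h => hj (Finset.mem_filter.2 ⟨Finset.mem_univ _, h⟩))).2.2.2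
  · refine le_trans (Finset.card_le_card ?_) hs.2
    intro j hj
    have hj := (Finset.mem_filter.1 hj).2
    have h := (hN j (fun h => hj (Finset.mem_filter.2 ⟨Finset.mem_univ _, h⟩))).2.2.2
    refine Finset.mem_filter.2 ⟨Finset.mem_univ _, ?_⟩
    show ca1 8 (s j) % 2 = 1
    omega

private theorem SP9_mod_D {m c : ℤ} (h1 : 48 * m - 18 ≤ c) (h2 : c ≤ 48 * m + 18) :
    ((7 ≤ c % 48 ∧ c % 48 ≤ 41) ↔ (c ≤ 48 * m - 7 ∨ 48 * m + 7 ≤ c)) ∧
    ((8 ≤ c % 48 ∧ c % 48 ≤ 40) ↔ (c ≤ 48 * m - 8 ∨ 48 * m + 8 ≤ c)) := by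
  omega

private theorem SP9_mod_I {m c : ℤ} (h1 : 48 * m + 18 ≤ c) (h2 : c ≤ 48 * m + 30) :
    (7 ≤ c % 48 ∧ c % 48 ≤ 41) ∧ (8 ≤ c % 48 ∧ c % 48 ≤ 40) := by
  omega

/-- the filters which occur in `lac` -/
private theorem SP9_filter {k : ℕ} {s : Cl (Fin (2 * k + 1))} {D : Finset (Fin (2 * k + 1))}
    {m l u : Fin (2 * k + 1) → ℤ} (h : SF k s D m l u) {x : Fin (2 * k + 1) → ℝ}
    (hx : ∀ j, (l j : ℝ) ≤ x j ∧ x j ≤ (u j : ℝ)) (j : Fin (2 * k + 1)) :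
    ((7 ≤ cr x j % 48 ∧ cr x j % 48 ≤ 41) ↔ (j ∉ D ∨ 3 < |x j - 24 * (m j : ℝ)|)) ∧
    ((8 ≤ cr x j % 48 ∧ cr x j % 48 ≤ 40) ↔ ¬ (j ∈ D ∧ |x j - 24 * (m j : ℝ)| < 4)) := by
  have hc1 : 2 * l j ≤ cr x j := (sp_le_cr x j (l j)).2 (hx j).1
  have hc2 : cr x j ≤ 2 * u j := (sp_cr_le x j (u j)).2 (hx j).2
  by_cases hj : j ∈ D
  · obtain ⟨a1, a2, a3, a4⟩ := h.hD j hj
    obtain ⟨e1, e2⟩ := SP9_mod_D (m := m j) (c := cr x j) (by omega) (by omega)
    constructor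
    · rw [e1]
      have f1 : cr x j ≤ 48 * m j - 7 ↔ ¬ 2 * (24 * m j - 3) ≤ cr x j := by omega
      have f2 : 48 * m j + 7 ≤ cr x j ↔ ¬ cr x j ≤ 2 * (24 * m j + 3) := by omega
      rw [f1, f2, sp_le_cr, sp_cr_le, lt_abs]
      push_cast
      constructor
      · rintro (h1 | h1)
        · right; right; linarith
        · right; left; linarith
      · rintro (h1 | h1 | h1)
        · exact absurd hj h1
        · right; linarith
        · left; linarith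
    · rw [e2]
      have f1 : cr x j ≤ 48 * m j - 8 ↔ cr x j ≤ 2 * (24 * m j - 4) := by
        rw [show (2 : ℤ) * (24 * m j - 4) = 48 * m j - 8 from by ring]
      have f2 : 48 * m j + 8 ≤ cr x j ↔ 2 * (24 * m j + 4) ≤ cr x j := by
        rw [show (2 : ℤ) * (24 * m j + 4) = 48 * m j + 8 from by ring]
      rw [f1, f2, sp_le_cr, sp_cr_le, abs_lt]
      push_cast
      constructor
      · rintro (h1 | h1) ⟨-, h2, h3⟩
        · linarith
        · linarith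
      · intro h1
        by_contra h2
        rw [not_or] at h2
        exact h1 ⟨hj, by linarith [not_le.1 h2.1], by linarith [not_le.1 h2.2]⟩
  · obtain ⟨a1, a2, a3⟩ := h.hI j hj
    obtain ⟨e1, e2⟩ := SP9_mod_I (m := m j) (c := cr x j) (by omega) (by omega)
    exact ⟨iff_of_true e1 (Or.inl hj), iff_of_true e2 (fun h1 => hj h1.1)⟩

theorem sp_fib_pt (k b : ℕ) (S : Cl (Fin (2 * k + 1) ⊕ Unit))
    (hS : S ∈ Px (Gr 8 (sk k (Nn k b))) (In 1)) (D : Finset (Fin (2 * k + 1)))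
    (m l u : Fin (2 * k + 1) → ℤ) (h : SF k (fs S) D m l u) (x : Fin (2 * k + 1) → ℝ) :
    x ∈ Bo (Fb (tl k) (Gr 8 (Nn k (b + 1))) S) ↔
      (∀ j, (l j : ℝ) ≤ x j ∧ x j ≤ (u j : ℝ)) ∧ cr (fun j => x j / 24) ∈ Nn k b ∧
      (S (Sum.inr ()) = 0 →
        (Finset.univ.filter (fun j => j ∉ D ∨ 3 < |x j - 24 * (m j : ℝ)|)).card ≤ k) ∧
      (S (Sum.inr ()) = 2 →
        (Finset.univ.filter (fun j => j ∈ D ∧ |x j - 24 * (m j : ℝ)| < 4)).card ≤ k) := by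
  have hcub := sp_tl_cub k b
  have hfb := cx_fb (sp_cx_gr 8 (by norm_num) (sp_nn_cx k (b + 1))) hcub.toMon S
  rw [sp_Bo_cr hfb.clo]
  have hSk : fs S ∈ Gr 8 (sk k (Nn k b)) := hS.1
  have hS0 : 0 ≤ S (Sum.inr ()) ∧ S (Sum.inr ()) ≤ 2 := by
    have h1 := hS.2
    have h2 : S (Sum.inr ()) ≤ 2 * ((1 : ℕ) : ℤ) := h1.2
    exact ⟨h1.1, by omega⟩
  have hca : ca 3 (ca 8 (cr x)) = cr (fun j => x j / 24) := by
    rw [sp_ca_comp 3 8 (by norm_num) (by norm_num)]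
    have h1 := sp_cr_div 24 (by norm_num) x
    rw [Nat.cast_ofNat] at h1
    exact h1.symm
  have hbox : (∀ j, fc (th1 (cr x j)) (fs S j)) ↔ ∀ j, (l j : ℝ) ≤ x j ∧ x j ≤ (u j : ℝ) := by
    refine forall_congr' fun j => ?_
    rw [h.hf, sp_le_cr, sp_cr_le]
  have hfa : Fa (tl k (cr x)) S ↔ (∀ j, fc (th1 (cr x j)) (fs S j)) ∧
      fc (lac k (cr x)) (S (Sum.inr ())) := by
    constructor
    · intro h1
      exact ⟨fun j => h1 (Sum.inl j), h1 (Sum.inr ())⟩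
    · rintro ⟨h1, h2⟩ (j | ⟨⟩)
      · exact h1 j
      · exact h2
  have hmem : cr x ∈ Fb (tl k) (Gr 8 (Nn k (b + 1))) S ↔
      (cr (fun j => x j / 24) ∈ Nn k b ∧
        (Finset.univ.filter (fun j => (ca 8 (cr x)) j % 6 = 3)).card ≤ k) ∧
      (∀ j, fc (th1 (cr x j)) (fs S j)) ∧ fc (lac k (cr x)) (S (Sum.inr ())) := by
    rw [← hfa, ← hca]
    rfl
  rw [hmem]
  -- the number of middle thirds
  have hmid : (∀ j, fc (th1 (cr x j)) (fs S j)) →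
      (Finset.univ.filter (fun j => (ca 8 (cr x)) j % 6 = 3)).card ≤ k := by
    intro h1
    refine le_trans (Finset.card_le_card ?_) hSk.2
    intro j hj
    have hj : ca1 8 (cr x j) % 6 = 3 := (Finset.mem_filter.1 hj).2
    refine Finset.mem_filter.2 ⟨Finset.mem_univ _, ?_⟩
    have h2 : Fa (ca 8 (thc (cr x))) (ca 8 (fs S)) := sp_fa_ca 8 (by norm_num) h1
    rw [sp_th_ca] at h2
    have h3 : fc (rh1 (ca1 8 (cr x j))) (ca 8 (fs S) j) := h2 j
    unfold fc rh1 at h3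
    rw [if_neg (by omega), if_pos hj] at h3
    omega
  -- the last coordinate
  have hlac : (∀ j, (l j : ℝ) ≤ x j ∧ x j ≤ (u j : ℝ)) → (fc (lac k (cr x)) (S (Sum.inr ())) ↔
      ((S (Sum.inr ()) = 0 →
        (Finset.univ.filter (fun j => j ∉ D ∨ 3 < |x j - 24 * (m j : ℝ)|)).card ≤ k) ∧
      (S (Sum.inr ()) = 2 →
        (Finset.univ.filter (fun j => j ∈ D ∧ |x j - 24 * (m j : ℝ)| < 4)).card ≤ k))) := by
    intro hx
    have hF1 : (Finset.univ.filter (fun j => 7 ≤ cr x j % 48 ∧ cr x j % 48 ≤ 41)) =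
        Finset.univ.filter (fun j => j ∉ D ∨ 3 < |x j - 24 * (m j : ℝ)|) :=
      Finset.filter_congr fun j _ => (SP9_filter h hx j).1
    have hF2 : (Finset.univ.filter (fun j => 8 ≤ cr x j % 48 ∧ cr x j % 48 ≤ 40)) =
        Finset.univ.filter (fun j => ¬ (j ∈ D ∧ |x j - 24 * (m j : ℝ)| < 4)) :=
      Finset.filter_congr fun j _ => (SP9_filter h hx j).2
    have hcard : (Finset.univ.filter (fun j => j ∈ D ∧ |x j - 24 * (m j : ℝ)| < 4)).card +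
        (Finset.univ.filter (fun j => ¬ (j ∈ D ∧ |x j - 24 * (m j : ℝ)| < 4))).card = 2 * k + 1 := by
      rw [Finset.card_filter_add_card_filter_not, Finset.card_univ, Fintype.card_fin]
    have hle : (Finset.univ.filter (fun j => 8 ≤ cr x j % 48 ∧ cr x j % 48 ≤ 40)).card ≤
        (Finset.univ.filter (fun j => 7 ≤ cr x j % 48 ∧ cr x j % 48 ≤ 41)).card := by
      refine Finset.card_le_card fun j hj => ?_
      have hj := (Finset.mem_filter.1 hj).2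
      exact Finset.mem_filter.2 ⟨Finset.mem_univ _, by omega⟩
    rw [← hF1]
    rw [← hF2] at hcard
    have hl0 : lac k (cr x) = 0 ↔
        (Finset.univ.filter (fun j => 7 ≤ cr x j % 48 ∧ cr x j % 48 ≤ 41)).card ≤ k := by
      unfold lac
      split_ifs <;> constructor <;> intro _ <;> omega
    have hl2 : lac k (cr x) = 2 ↔
        (Finset.univ.filter (fun j => j ∈ D ∧ |x j - 24 * (m j : ℝ)| < 4)).card ≤ k := by
      unfold lac
      split_ifs <;> constructor <;> intro _ <;> omega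
    rw [← hl0, ← hl2]
    rcases (show S (Sum.inr ()) = 0 ∨ S (Sum.inr ()) = 1 ∨ S (Sum.inr ()) = 2 by omega) with
      h0 | h0 | h0
    · rw [h0]
      unfold fc
      constructor
      · rintro (h1 | h1)
        · exact ⟨fun _ => h1, fun h2 => absurd h2 (by norm_num)⟩
        · omega
      · intro h1
        exact Or.inl (h1.1 rfl)
    · rw [h0]
      refine iff_of_true ?_ ⟨fun h2 => absurd h2 (by norm_num), fun h2 => absurd h2 (by norm_num)⟩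
      unfold fc
      rcases sp_la_range k (cr x) with h1 | h1 | h1 <;> omega
    · rw [h0]
      unfold fc
      constructor
      · rintro (h1 | h1)
        · exact ⟨fun h2 => absurd h2 (by norm_num), fun _ => h1⟩
        · omega
      · intro h1
        exact Or.inl (h1.2 rfl)
  constructor
  · rintro ⟨⟨h1, -⟩, h3, h4⟩
    have hx := hbox.1 h3
    exact ⟨hx, h1, (hlac hx).1 h4⟩
  · rintro ⟨hx, h1, h2⟩
    have h3 := hbox.2 hx
    exact ⟨⟨h1, hmid h3⟩, h3, (hlac hx).2 h2⟩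

end MNG
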