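import Pool.Agent.MNG.SP5
import Pool.Agent.MNG.SP9

/-!
# MNG-SP10: the fibres over `(S, 0)` and `(S, I)`

`sp_cs_box` with the constants `ψ j = 24 m j` (`j ∈ D`), `ψ j = l j` (`j ∉ D`), `B' = {p}`, `sp_cs_pt`.
`p ∈ B`: `cr (p / 24) j = 2 m j` (`j ∈ D`), `2 m j + 1` (`j ∉ D`) is a face of `ca 8 (fs S) ∈ Nn k b` (`cD`, `cI`); the only coordinates with `j ∉ D` or
`|p j - 24 m j| > 3` are those outside `D`: at most `k`.
If `y j` is between `x j` and `ψ j` then `cr (y / 24)` is a face of `cr (x / 24)` (`j ∈ D`, `x j > 24 m j`: `cr (x / 24) j = 2 m j + 1` and `24 m j ≤ y j ≤ x j < 24 m j + 24`; similarly below; `j ∉ D`: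
both are `2 m j + 1`), and `|y j - 24 m j| ≤ |x j - 24 m j|`.
-/

set_option autoImplicit false

noncomputable section

namespace MNG

open AGM (Ei Bl Sp)
open Set Topology

private theorem SP10_fc {a b t : ℝ} {m : ℤ} {ca cb : ℤ}
    (ha : (∀ n : ℤ, ca = 2 * n ↔ a = n) ∧ ∀ n : ℤ, ca = 2 * n + 1 ↔ (n : ℝ) < a ∧ a < n + 1)
    (hb : (∀ n : ℤ, cb = 2 * n ↔ b = n) ∧ ∀ n : ℤ, cb = 2 * n + 1 ↔ (n : ℝ) < b ∧ b < n + 1)
    (ht : t = (m : ℝ)) (h1 : (m : ℝ) - 1 < b) (h2 : b < m + 1) (h : a ∈ Set.uIcc b t) :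
    fc ca cb := by
  rw [Set.mem_uIcc] at h
  rcases lt_trichotomy b (m : ℝ) with h3 | h3 | h3
  · have e1 : cb = 2 * (m - 1) + 1 := by
      rw [hb.2]
      push_cast
      constructor <;> linarith
    have h4 : b ≤ a ∧ a ≤ m := by
      rcases h with h | h
      · rw [ht] at h
        exact h
      · rw [ht] at h
        exact absurd (h.1.trans h.2) (not_le.2 h3)
    rcases lt_or_eq_of_le h4.2 with h5 | h5
    · have e2 : ca = 2 * (m - 1) + 1 := by
        rw [ha.2]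
        push_cast
        constructor <;> linarith
      left
      rw [e1, e2]
    · have e2 : ca = 2 * m := (ha.1 m).2 h5
      right
      omega
  · have h4 : a = m := by
      rw [h3, ht] at h
      rcases h with h | h <;> exact le_antisymm h.2 h.1
    left
    rw [(ha.1 m).2 h4, (hb.1 m).2 h3]
  · have e1 : cb = 2 * m + 1 := by
      rw [hb.2]
      constructor <;> linarith
    have h4 : (m : ℝ) ≤ a ∧ a ≤ b := by
      rcases h with h | h
      · rw [ht] at h
        exact absurd (h.1.trans h.2) (not_le.2 h3)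
      · rw [ht] at h
        exact h
    rcases lt_or_eq_of_le h4.1 with h5 | h5
    · have e2 : ca = 2 * m + 1 := by
        rw [ha.2]
        constructor <;> linarith
      left
      rw [e1, e2]
    · have e2 : ca = 2 * m := (ha.1 m).2 h5.symm
      right
      omega

private theorem SP10_div {a b t : ℝ} (h : a ∈ Set.uIcc b t) : a / 24 ∈ Set.uIcc (b / 24) (t / 24) := by
  rw [Set.mem_uIcc] at h ⊢
  rcases h with h | h
  · left
    constructor <;> linarith [h.1, h.2]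
  · right
    constructor <;> linarith [h.1, h.2]

private theorem SP10_abs {a b t : ℝ} (h : a ∈ Set.uIcc b t) : |a - t| ≤ |b - t| := by
  rw [Set.mem_uIcc] at h
  rcases h with h | h
  · rw [abs_of_nonpos (by linarith [h.2]), abs_of_nonpos (by linarith [h.1, h.2])]
    linarith [h.1]
  · rw [abs_of_nonneg (by linarith [h.1]), abs_of_nonneg (by linarith [h.1, h.2])]
    linarith [h.2]

theorem sp_fib_low (k b : ℕ) (S : Cl (Fin (2 * k + 1) ⊕ Unit))
    (hS : S ∈ Px (Gr 8 (sk k (Nn k b))) (In 1)) (he : S (Sum.inr ()) ≠ 2) :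
    Cs k (Bo (Fb (tl k) (Gr 8 (Nn k (b + 1))) S)) := by
  classical
  obtain ⟨D, m, l, u, hF⟩ := sp_sf k b (fs S) hS.1
  set p : Fin (2 * k + 1) → ℝ := fun j => if j ∈ D then 24 * (m j : ℝ) else (l j : ℝ) with hp
  have pD : ∀ j ∈ D, p j = 24 * (m j : ℝ) := fun j hj => by
    simp only [hp, hj, if_true]
  have pI : ∀ j, j ∉ D → p j = (l j : ℝ) := fun j hj => by
    simp only [hp, hj, if_false]
  have bD : ∀ j ∈ D, 24 * (m j : ℝ) - 9 ≤ (l j : ℝ) ∧ (l j : ℝ) ≤ 24 * (m j : ℝ) - 8 ∧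
      24 * (m j : ℝ) + 8 ≤ (u j : ℝ) ∧ (u j : ℝ) ≤ 24 * (m j : ℝ) + 9 := by
    intro j hj
    obtain ⟨h1, h2, h3, h4⟩ := hF.hD j hj
    refine ⟨?_, ?_, ?_, ?_⟩ <;> exact_mod_cast (by assumption)
  have bI : ∀ j, j ∉ D → 24 * (m j : ℝ) + 9 ≤ (l j : ℝ) ∧ (l j : ℝ) ≤ (u j : ℝ) ∧
      (u j : ℝ) ≤ 24 * (m j : ℝ) + 15 := by
    intro j hj
    obtain ⟨h1, h2, h3⟩ := hF.hI j hj
    refine ⟨?_, ?_, ?_⟩ <;> exact_mod_cast (by assumption)
  have hcr : ∀ (x : Fin (2 * k + 1) → ℝ) (j : Fin (2 * k + 1)),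
      (∀ n : ℤ, cr x j = 2 * n ↔ x j = n) ∧
      ∀ n : ℤ, cr x j = 2 * n + 1 ↔ (n : ℝ) < x j ∧ x j < n + 1 := fun x j =>
    ⟨fun n => sp_cr_even x j n, fun n => sp_cr_odd x j n⟩
  have hcI : ∀ (x : Fin (2 * k + 1) → ℝ) (j : Fin (2 * k + 1)), j ∉ D → (l j : ℝ) ≤ x j →
      x j ≤ (u j : ℝ) → cr (fun j => x j / 24) j = 2 * m j + 1 := by
    intro x j hj h1 h2
    obtain ⟨h3, h4, h5⟩ := bI j hj
    rw [sp_cr_odd]
    constructor <;> linarith
  have hpB : p ∈ Bo (Fb (tl k) (Gr 8 (Nn k (b + 1))) S) := by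
    rw [sp_fib_pt k b S hS D m l u hF]
    refine ⟨fun j => ?_, ?_, fun _ => ?_, fun h2 => absurd h2 he⟩
    · by_cases hj : j ∈ D
      · obtain ⟨h1, h2, h3, h4⟩ := bD j hj
        rw [pD j hj]
        constructor <;> linarith
      · obtain ⟨h1, h2, h3⟩ := bI j hj
        rw [pI j hj]
        exact ⟨le_rfl, h2⟩
    · refine (sp_nn_cx k b).clo (ca 8 (fs S)) hS.1.1 _ fun j => ?_
      by_cases hj : j ∈ D
      · have e1 : cr (fun j => p j / 24) j = 2 * m j := by
          rw [sp_cr_even, pD j hj]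
          ring
        obtain ⟨h1, h2⟩ := hF.cD j hj
        have h3 : ca 8 (fs S) j = ca1 8 (fs S j) := rfl
        rw [e1, h3]
        unfold fc
        omega
      · have h3 : ca 8 (fs S) j = ca1 8 (fs S j) := rfl
        rw [hcI p j hj (by rw [pI j hj]) (by rw [pI j hj]; exact (bI j hj).2.1), h3, hF.cI j hj]
        exact Or.inl rfl
    · refine le_trans (Finset.card_le_card ?_) hF.card
      intro j hj
      rw [Finset.mem_filter] at hj ⊢
      refine ⟨hj.1, fun hjD => ?_⟩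
      rcases hj.2 with h1 | h1
      · exact h1 hjD
      · rw [pD j hjD, sub_self, abs_zero] at h1
        linarith
  refine sp_cs_box _ {p} (fun j _ => p j) (fun j => continuous_const) ?_ ?_ ?_ (sp_cs_pt k p)
  · intro x hx y hy
    rw [sp_fib_pt k b S hS D m l u hF] at hx hpB ⊢
    obtain ⟨hx1, hx2, hx3, -⟩ := hx
    have hy1 : ∀ j, (l j : ℝ) ≤ y j ∧ y j ≤ (u j : ℝ) := fun j =>
      (Set.uIcc_subset_Icc (hx1 j) (hpB.1 j)) (hy j)
    refine ⟨hy1, ?_, fun h0 => ?_, fun h2 => absurd h2 he⟩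
    · refine (sp_nn_cx k b).clo _ hx2 _ fun j => ?_
      by_cases hj : j ∈ D
      · obtain ⟨h1, h2, h3, h4⟩ := bD j hj
        have h5 := SP10_div (hy j)
        rw [pD j hj] at h5
        exact SP10_fc (hcr (fun j => y j / 24) j) (hcr (fun j => x j / 24) j)
          (m := m j) (t := 24 * (m j : ℝ) / 24) (by ring)
          (by linarith [(hx1 j).1]) (by linarith [(hx1 j).2]) h5
      · rw [hcI y j hj (hy1 j).1 (hy1 j).2, hcI x j hj (hx1 j).1 (hx1 j).2]
        exact Or.inl rfl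
    · refine le_trans (Finset.card_le_card ?_) (hx3 h0)
      intro j hj
      rw [Finset.mem_filter] at hj ⊢
      refine ⟨hj.1, ?_⟩
      by_cases hjD : j ∈ D
      · right
        rcases hj.2 with h1 | h1
        · exact absurd hjD h1
        · have h5 := SP10_abs (hy j)
          rw [pD j hjD] at h5
          exact lt_of_lt_of_le h1 h5
      · exact Or.inl hjD
  · intro x _
    exact Set.mem_singleton p
  · intro x hx
    rw [Set.mem_singleton_iff] at hx
    rw [hx]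
    exact hpB

end MNG
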