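import Pool.Agent.MNG.SP2

/-!
# MNG-SP8: the good side of a lattice point

Induction over the stages of the sponge; several coordinates are changed one after the other.
-/

set_option autoImplicit false

noncomputable section

namespace MNG

open AGM (Ei Bl Sp)
open Set Topology

private lemma SP8_card (k : ℕ) (c : Cl (Fin (2 * k + 1))) (j : Fin (2 * k + 1)) (v : ℤ)
    (hv : v % 6 ≠ 3) (h : (Finset.univ.filter (fun j => c j % 6 = 3)).card ≤ k) :
    (Finset.univ.filter (fun i => Function.update c j v i % 6 = 3)).card ≤ k := by
  refine le_trans (Finset.card_le_card ?_) h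
  intro i hi
  rw [Finset.mem_filter] at hi ⊢
  refine ⟨hi.1, ?_⟩
  by_cases hij : i = j
  · exfalso
    rw [hij, Function.update_self] at hi
    exact hv hi.2
  · have h2 := hi.2
    rwa [Function.update_of_ne hij] at h2

private lemma SP8_ca {J : Type} [DecidableEq J] (c : Cl J) (j : J) (v : ℤ) :
    ca 3 (Function.update c j v) = Function.update (ca 3 c) j (ca1 3 v) := by
  funext i
  by_cases hij : i = j
  · subst hij
    rw [Function.update_self]
    show ca1 3 (Function.update c i v i) = _
    rw [Function.update_self]
  · rw [Function.update_of_ne hij]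
    show ca1 3 (Function.update c j v i) = ca1 3 (c i)
    rw [Function.update_of_ne hij]

private lemma SP8_ca1 (z : ℤ) :
    ca1 3 z = if z % 6 = 0 then 2 * (z / 6) else 2 * (z / 6) + 1 := by
  unfold ca1
  by_cases h : (2 * ((3 : ℕ) : ℤ)) ∣ z
  · rw [if_pos h]
    obtain ⟨q, hq⟩ := h
    push_cast at hq ⊢
    rw [if_pos (by omega)]
    omega
  · rw [if_neg h]
    have h2 : ¬ z % 6 = 0 := by
      intro h3
      apply h
      exact ⟨z / 6, by push_cast; omega⟩
    rw [if_neg h2]
    push_cast
    omega

theorem sp_stab (k b : ℕ) (m : ℤ) : ∃ g : ℤ, (g = 1 ∨ g = -1) ∧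
    ∀ c ∈ Nn k b, ∀ j, 2 * m - 1 ≤ c j → c j ≤ 2 * m + 1 →
      Function.update c j (2 * m + g) ∈ Nn k b := by
  induction b generalizing m with
  | zero =>
    refine ⟨if m = 1 then -1 else 1, by split_ifs <;> simp, ?_⟩
    intro c hc j h1 h2 i
    have hcj := hc j
    by_cases hij : i = j
    · subst hij
      rw [Function.update_self]
      split_ifs with hm
      · omega
      · omega
    · rw [Function.update_of_ne hij]; exact hc i
  | succ b ih =>
    have key : ∀ (g : ℤ), (2 * m + g) % 6 ≠ 3 → ∀ c ∈ Nn k (b + 1), ∀ j,
        Function.update (ca 3 c) j (ca1 3 (2 * m + g)) ∈ Nn k b →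
        Function.update c j (2 * m + g) ∈ Nn k (b + 1) := by
      intro g hg c hc j h
      refine ⟨?_, SP8_card k c j _ hg hc.2⟩
      rw [SP8_ca]; exact h
    have hm : m % 3 = 0 ∨ m % 3 = 1 ∨ m % 3 = 2 := by omega
    rcases hm with hm | hm | hm
    · obtain ⟨g, hg, hG⟩ := ih (m / 3)
      refine ⟨g, hg, ?_⟩
      intro c hc j h1 h2
      apply key g (by omega) c hc j
      have e1 : ca1 3 (2 * m + g) = 2 * (m / 3) + g := by
        rw [SP8_ca1]; split_ifs <;> omega
      rw [e1]
      apply hG _ hc.1 j
      · show 2 * (m / 3) - 1 ≤ ca1 3 (c j)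
        rw [SP8_ca1]; split_ifs <;> omega
      · show ca1 3 (c j) ≤ 2 * (m / 3) + 1
        rw [SP8_ca1]; split_ifs <;> omega
    · refine ⟨-1, Or.inr rfl, ?_⟩
      intro c hc j h1 h2
      apply key (-1) (by omega) c hc j
      have e1 : ca1 3 (2 * m + -1) = ca 3 c j := by
        show _ = ca1 3 (c j)
        rw [SP8_ca1, SP8_ca1]; split_ifs <;> omega
      rw [e1, Function.update_eq_self]
      exact hc.1
    · refine ⟨1, Or.inl rfl, ?_⟩
      intro c hc j h1 h2
      apply key 1 (by omega) c hc j
      have e1 : ca1 3 (2 * m + 1) = ca 3 c j := by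
        show _ = ca1 3 (c j)
        rw [SP8_ca1, SP8_ca1]; split_ifs <;> omega
      rw [e1, Function.update_eq_self]
      exact hc.1

theorem sp_stabm (k b : ℕ) : ∃ G : ℤ → ℤ, (∀ m, G m = 1 ∨ G m = -1) ∧
    ∀ c ∈ Nn k b, ∀ d : Cl (Fin (2 * k + 1)),
      (∀ j, d j = c j ∨ ∃ m : ℤ, 2 * m - 1 ≤ c j ∧ c j ≤ 2 * m + 1 ∧
        (d j = 2 * m + G m ∨ d j = 2 * m)) → d ∈ Nn k b := by
  choose G hG1 hG2 using fun m : ℤ => sp_stab k b m
  refine ⟨G, hG1, ?_⟩
  intro c hc d hd
  have hcx := sp_nn_cx k b
  have main : ∀ s : Finset (Fin (2 * k + 1)), (fun j => if j ∈ s then d j else c j) ∈ Nn k b := by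
    intro s
    induction s using Finset.induction_on with
    | empty => simpa using hc
    | insert a s ha ih =>
      have e1 : (fun j => if j ∈ insert a s then d j else c j) =
          Function.update (fun j => if j ∈ s then d j else c j) a (d a) := by
        funext i
        by_cases hi : i = a
        · subst hi
          rw [Function.update_self, if_pos (Finset.mem_insert_self _ _)]
        · rw [Function.update_of_ne hi]
          simp only [Finset.mem_insert, hi, false_or]
      have e2 : (fun j => if j ∈ s then d j else c j) a = c a := by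
        show (if a ∈ s then d a else c a) = c a
        rw [if_neg ha]
      rw [e1]
      rcases hd a with h | ⟨m, h1, h2, h3⟩
      · rw [h, ← e2, Function.update_eq_self]
        exact ih
      · have h4 := hG2 m _ ih a (h1.trans_eq e2.symm) (e2.trans_le h2)
        rcases h3 with h3 | h3
        · rw [h3]; exact h4
        · rw [h3]
          refine hcx.clo _ h4 _ ?_
          intro i
          by_cases hi : i = a
          · subst hi
            rw [Function.update_self, Function.update_self]
            right
            rcases hG1 m with h5 | h5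
            · rw [h5]; omega
            · rw [h5]; omega
          · rw [Function.update_of_ne hi, Function.update_of_ne hi]
            exact Or.inl rfl
  have h := main Finset.univ
  simpa using h

end MNG
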