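import Pool.Agent.MNG.SP5
import Pool.Agent.MNG.SP8

/-!
# MNG-SP11: the complex of patterns

`pat D m g q j`: good side (`2 m j + g j`) if `q j = 2`, bad side (`2 m j - g j`) if `q j = 0, 1`, `2 m j + 1` for
`j ∉ D`. The complex of the cells with pattern in `K` is closed under faces, and its body is star-shaped in every
coordinate with respect to the good corner.
-/

set_option autoImplicit false

noncomputable section

namespace MNG

open AGM (Ei Bl Sp)
open Set Topology

/-- the pattern of a cell `q` -/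
def pat {J : Type} [DecidableEq J] (D : Finset J) (m g : J → ℤ) (q : Cl J) : Cl J :=
  fun j => if j ∈ D then (if q j = 2 then 2 * m j + g j else 2 * m j - g j) else 2 * m j + 1

/-- the complex of the cells with pattern in `K` -/
def PQ {J : Type} [DecidableEq J] (K : Set (Cl J)) (D : Finset J) (m g : J → ℤ) : Set (Cl J) :=
  {q | (∀ j ∈ D, 0 ≤ q j ∧ q j ≤ 2) ∧ (∀ j, j ∉ D → q j = 0) ∧ pat D m g q ∈ K}

variable {J : Type} [Fintype J] [DecidableEq J] {K : Set (Cl J)} {D : Finset J} {m g : J → ℤ}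

/-- cells whose pattern is obtained by replacing bad sides by good sides -/
private theorem sp11_step (hg : ∀ j, g j = 1 ∨ g j = -1)
    (hst : ∀ c ∈ K, ∀ d : Cl J, (∀ j, d j = c j ∨ (j ∈ D ∧ 2 * m j - 1 ≤ c j ∧
      c j ≤ 2 * m j + 1 ∧ (d j = 2 * m j + g j ∨ d j = 2 * m j))) → d ∈ K)
    {q r : Cl J} (hq : pat D m g q ∈ K) (h : ∀ j ∈ D, q j = 2 → r j = 2) :
    pat D m g r ∈ K := by
  refine hst _ hq _ fun j => ?_
  unfold pat
  by_cases hj : j ∈ D
  · rw [if_pos hj, if_pos hj]
    by_cases h1 : q j = 2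
    · rw [if_pos h1, if_pos (h j hj h1)]
      exact Or.inl rfl
    · rw [if_neg h1]
      by_cases h2 : r j = 2
      · rw [if_pos h2]
        right
        rcases hg j with h3 | h3
        · rw [h3]
          exact ⟨hj, by omega, by omega, Or.inl rfl⟩
        · rw [h3]
          exact ⟨hj, by omega, by omega, Or.inl rfl⟩
      · rw [if_neg h2]
        exact Or.inl rfl
  · rw [if_neg hj, if_neg hj]
    exact Or.inl rfl

theorem sp_pq_cx (hg : ∀ j, g j = 1 ∨ g j = -1)
    (hst : ∀ c ∈ K, ∀ d : Cl J, (∀ j, d j = c j ∨ (j ∈ D ∧ 2 * m j - 1 ≤ c j ∧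
      c j ≤ 2 * m j + 1 ∧ (d j = 2 * m j + g j ∨ d j = 2 * m j))) → d ∈ K) : Cx (PQ K D m g) := by
  constructor
  · apply (Set.finite_Icc (fun _ => (0 : ℤ)) (fun _ => (2 : ℤ))).subset
    rintro q ⟨h1, h2, -⟩
    rw [Set.mem_Icc, Pi.le_def, Pi.le_def]
    refine ⟨fun j => ?_, fun j => ?_⟩
    · by_cases hj : j ∈ D
      · exact (h1 j hj).1
      · exact (h2 j hj).ge
    · by_cases hj : j ∈ D
      · exact (h1 j hj).2
      · rw [h2 j hj]
        norm_num
  · rintro q ⟨h1, h2, h3⟩ r hr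
    refine ⟨fun j hj => ?_, fun j hj => ?_, sp11_step hg hst h3 fun j hj hqj => ?_⟩
    · have h4 := h1 j hj
      have h5 := hr j
      unfold fc at h5
      omega
    · have h4 := h2 j hj
      have h5 := hr j
      unfold fc at h5
      omega
    · have h5 := hr j
      unfold fc at h5
      omega

theorem sp_pq_cs (k : ℕ) (hg : ∀ j, g j = 1 ∨ g j = -1)
    (hst : ∀ c ∈ K, ∀ d : Cl J, (∀ j, d j = c j ∨ (j ∈ D ∧ 2 * m j - 1 ≤ c j ∧
      c j ≤ 2 * m j + 1 ∧ (d j = 2 * m j + g j ∨ d j = 2 * m j))) → d ∈ K)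
    (hn : (PQ K D m g).Nonempty) : Cs k (Bo (sk k (PQ K D m g))) := by
  have hcx := sp_pq_cx hg hst
  rw [← skel hcx]
  have hB : ∀ x ∈ Bo (PQ K D m g), ∀ y : J → ℝ,
      (∀ j, y j ∈ Set.uIcc (x j) (if j ∈ D then (1 : ℝ) else 0)) → y ∈ Bo (PQ K D m g) := by
    intro x hx y hy
    rw [sp_Bo_cr hcx.clo] at hx ⊢
    obtain ⟨h1, h2, h3⟩ := hx
    have hD : ∀ j ∈ D, 0 ≤ x j ∧ x j ≤ 1 ∧ x j ≤ y j ∧ y j ≤ 1 := by
      intro j hj
      have h4 : (0 : ℝ) ≤ x j := by
        have h5 : (2 : ℤ) * 0 ≤ cr x j := by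
          rw [mul_zero]
          exact (h1 j hj).1
        have h6 := (sp_le_cr x j 0).1 h5
        exact_mod_cast h6
      have h5 : x j ≤ 1 := by
        have h6 : cr x j ≤ (2 : ℤ) * 1 := by
          rw [mul_one]
          exact (h1 j hj).2
        have h7 := (sp_cr_le x j 1).1 h6
        exact_mod_cast h7
      have h6 := hy j
      rw [if_pos hj, Set.uIcc_of_le h5] at h6
      exact ⟨h4, h5, h6.1, h6.2⟩
    refine ⟨fun j hj => ?_, fun j hj => ?_, sp11_step hg hst h3 fun j hj hqj => ?_⟩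
    · obtain ⟨h4, h5, h6, h7⟩ := hD j hj
      constructor
      · have h8 : (2 : ℤ) * 0 ≤ cr y j := (sp_le_cr y j 0).2 (by push_cast; linarith)
        rw [mul_zero] at h8
        exact h8
      · have h8 : cr y j ≤ (2 : ℤ) * 1 := (sp_cr_le y j 1).2 (by push_cast; exact h7)
        rw [mul_one] at h8
        exact h8
    · have h4 : x j = 0 := by
        have h5 : cr x j = 2 * 0 := by
          rw [mul_zero]
          exact h2 j hj
        have h6 := (sp_cr_even x j 0).1 h5
        exact_mod_cast h6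
      have h5 := hy j
      rw [if_neg hj, h4, Set.uIcc_self, Set.mem_singleton_iff] at h5
      have h6 : cr y j = 2 * 0 := (sp_cr_even y j 0).2 (by rw [h5]; norm_num)
      rw [mul_zero] at h6
      exact h6
    · obtain ⟨h4, h5, h6, h7⟩ := hD j hj
      have h8 : cr x j = 2 * 1 := by
        rw [mul_one]
        exact hqj
      have h9 := (sp_cr_even x j 1).1 h8
      rw [Int.cast_one] at h9
      have h10 : y j = 1 := by linarith
      have h11 : cr y j = 2 * 1 := (sp_cr_even y j 1).2 (by rw [h10]; norm_num)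
      rw [mul_one] at h11
      exact h11
  refine sp_cs_box (Bo (PQ K D m g)) {fun j => if j ∈ D then (1 : ℝ) else 0}
    (fun j _ => if j ∈ D then (1 : ℝ) else 0) (fun j => continuous_const) hB
    (fun x _ => Set.mem_singleton _) ?_ (sp_cs_pt k _)
  rintro _ rfl
  obtain ⟨q, hq⟩ := hn
  exact hB _ ⟨q, hq, bo_center q⟩ _ fun j => Set.right_mem_uIcc

end MNG
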