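import Pool.Agent.MNG.SP9
import Pool.Agent.MNG.SP11

/-!
# MNG-SP12: the fibre over `(S, 1)`

`G` from `sp_stabm`, `g j = G (m j)`, signed coordinate `ξ j = g j * (x j - 24 m j)` (good side positive), `K = Nn k b`, `Q = PQ K D m g`.
`B` = the body of the fibre (`sp_fib_pt`, last condition only). `ψ j x = 24 m j + g j * (8 * clamp (g j * (x - 24 m j) + 4) - 4)` for `j ∈ D` (`clamp` to `[0,1]`), `ψ j = l j` (constant) for `j ∉ D`.
`B' = {y | (∀ j ∉ D, y j = l j) ∧ (fun j => if j ∈ D then (g j * (y j - 24 m j) + 4) / 8 else 0) ∈ Bo (sk k Q)}`; `Cs k B'` by `cs_dom` from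
`sp_pq_cs` (`hst` of `sp_stabm`). `Q` is not empty: `q j = 2` (`j ∈ D`), `0` (`j ∉ D`) has the pattern of `ca 8 (fs S) ∈ Nn k b` with good sides (`cD`, `cI`).
(1) `x ∈ B`, `y j` between `x j` and `ψ j (x j)` implies `y ∈ B`: if `|ξ| ≥ 4` it stays so (`ξ ≥ 4` moves to `4`, `ξ ≤ -4` to `-4`); `cr (y / 24) j` is `cr (x / 24) j` or `2 m j` or `2 m j + g j` (the sign of
`ξ` changes at most from negative to positive): `sp_stabm`; range: `[24 m j - 4, 24 m j + 4] ⊆ [l j, u j]`.
(2) `x ∈ B` implies `ψ x ∈ B'`: `z j = clamp (ξ j + 4)`; if `z j < 1` then `ξ j < -3`: `cr (x / 24) j = 2 m j - g j` is the bad side; so the pattern of `cr z` is `cr (x / 24)` with some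
coordinates replaced by the good side; `0 < z j < 1` implies `|ξ j| < 4`: at most `k` coordinates, so `dm (cr z) ≤ k`.
(3) `B' ⊆ B`: `|y j - 24 m j| < 4` iff `0 < z j < 1`; `cr (y / 24) j` is the pattern of `cr z` or (`z j = 1/2`) `2 m j` or (`z j > 1/2`) `2 m j + g j`.
-/

set_option autoImplicit false

noncomputable section

namespace MNG

open AGM (Ei Bl Sp)
open Set Topology

/-- clamp to `[0, 1]` -/
private def SP12_cl (t : ℝ) : ℝ := max 0 (min 1 t)

private theorem SP12_cl_cases (t : ℝ) :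
    (t ≤ 0 ∧ SP12_cl t = 0) ∨ (0 < t ∧ t < 1 ∧ SP12_cl t = t) ∨ (1 ≤ t ∧ SP12_cl t = 1) := by
  unfold SP12_cl
  rcases le_or_gt t 0 with h | h
  · left
    refine ⟨h, ?_⟩
    rw [min_eq_right (h.trans zero_le_one), max_eq_left h]
  · rcases lt_or_ge t 1 with h1 | h1
    · right
      left
      refine ⟨h, h1, ?_⟩
      rw [min_eq_right h1.le, max_eq_right h.le]
    · right
      right
      refine ⟨h1, ?_⟩
      rw [min_eq_left h1, max_eq_right zero_le_one]

private theorem SP12_cl_cont : Continuous SP12_cl := by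
  unfold SP12_cl
  fun_prop

private theorem SP12_abs {g : ℤ} (hg : g = 1 ∨ g = -1) (t : ℝ) : |(g : ℝ) * t| = |t| := by
  rcases hg with h | h
  · rw [h]
    push_cast
    rw [one_mul]
  · rw [h]
    push_cast
    rw [neg_one_mul, abs_neg]

private theorem SP12_btw {g : ℤ} (hg : g = 1 ∨ g = -1) (M x y s : ℝ)
    (hy : y ∈ Set.uIcc x (M + (g : ℝ) * s)) :
    ((g : ℝ) * (x - M) ≤ (g : ℝ) * (y - M) ∧ (g : ℝ) * (y - M) ≤ s) ∨
      (s ≤ (g : ℝ) * (y - M) ∧ (g : ℝ) * (y - M) ≤ (g : ℝ) * (x - M)) := by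
  rw [Set.mem_uIcc] at hy
  rcases hg with h | h
  · rw [h] at hy ⊢
    push_cast at hy ⊢
    rcases hy with ⟨h1, h2⟩ | ⟨h1, h2⟩
    · left
      constructor <;> linarith
    · right
      constructor <;> linarith
  · rw [h] at hy ⊢
    push_cast at hy ⊢
    rcases hy with ⟨h1, h2⟩ | ⟨h1, h2⟩
    · right
      constructor <;> linarith
    · left
      constructor <;> linarith

private theorem SP12_cr {J : Type} (x : J → ℝ) (j : J) (m : ℤ) (h1 : 24 * (m : ℝ) - 9 ≤ x j)
    (h2 : x j ≤ 24 * (m : ℝ) + 9) :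
    (x j < 24 * (m : ℝ) ∧ cr (fun j => x j / 24) j = 2 * m - 1) ∨
      (x j = 24 * (m : ℝ) ∧ cr (fun j => x j / 24) j = 2 * m) ∨
      (24 * (m : ℝ) < x j ∧ cr (fun j => x j / 24) j = 2 * m + 1) := by
  rcases lt_trichotomy (x j) (24 * (m : ℝ)) with h | h | h
  · left
    refine ⟨h, ?_⟩
    have h3 : cr (fun j => x j / 24) j = 2 * (m - 1) + 1 := by
      rw [sp_cr_odd]
      push_cast
      constructor <;> linarith
    rw [h3]
    ring
  · right
    left
    refine ⟨h, ?_⟩
    rw [sp_cr_even]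
    show x j / 24 = (m : ℝ)
    linarith
  · right
    right
    refine ⟨h, ?_⟩
    rw [sp_cr_odd]
    constructor <;> linarith

private theorem SP12_cr2 {J : Type} (x : J → ℝ) (j : J) (m : ℤ) (h1 : 24 * (m : ℝ) + 9 ≤ x j)
    (h2 : x j ≤ 24 * (m : ℝ) + 15) : cr (fun j => x j / 24) j = 2 * m + 1 := by
  rw [sp_cr_odd]
  constructor <;> linarith

private theorem SP12_sg {J : Type} (x : J → ℝ) (j : J) (m g : ℤ) (hg : g = 1 ∨ g = -1)
    (h1 : 24 * (m : ℝ) - 9 ≤ x j) (h2 : x j ≤ 24 * (m : ℝ) + 9) :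
    ((g : ℝ) * (x j - 24 * (m : ℝ)) < 0 ∧ cr (fun j => x j / 24) j = 2 * m - g) ∨
      ((g : ℝ) * (x j - 24 * (m : ℝ)) = 0 ∧ cr (fun j => x j / 24) j = 2 * m) ∨
      (0 < (g : ℝ) * (x j - 24 * (m : ℝ)) ∧ cr (fun j => x j / 24) j = 2 * m + g) := by
  rcases SP12_cr x j m h1 h2 with ⟨h3, h4⟩ | ⟨h3, h4⟩ | ⟨h3, h4⟩
  · rcases hg with h | h
    · left
      rw [h, h4]
      push_cast
      exact ⟨by linarith, rfl⟩
    · right
      right
      rw [h, h4]
      push_cast
      exact ⟨by linarith, by ring⟩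
  · right
    left
    rw [h4, h3, sub_self, mul_zero]
    exact ⟨rfl, rfl⟩
  · rcases hg with h | h
    · right
      right
      rw [h, h4]
      push_cast
      exact ⟨by linarith, rfl⟩
    · left
      rw [h, h4]
      push_cast
      exact ⟨by linarith, by ring⟩

private theorem SP12_Q {J : Type} [Fintype J] [DecidableEq J] {K : Set (Cl J)} {D : Finset J}
    {m g : J → ℤ} (k : ℕ) (hQ : Cx (PQ K D m g)) (z : J → ℝ) :
    z ∈ Bo (sk k (PQ K D m g)) ↔ (∀ j ∈ D, 0 ≤ z j ∧ z j ≤ 1) ∧ (∀ j, j ∉ D → z j = 0) ∧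
      (∃ d ∈ K, (∀ j ∈ D, z j = 1 → d j = 2 * m j + g j) ∧
        (∀ j ∈ D, z j ≠ 1 → d j = 2 * m j - g j) ∧ ∀ j, j ∉ D → d j = 2 * m j + 1) ∧
      ∀ T : Finset J, (∀ j ∈ T, 0 < z j ∧ z j < 1) → T.card ≤ k := by
  have e0 : ∀ j, cr z j = 0 ↔ z j = 0 := by
    intro j
    have h := sp_cr_even z j 0
    rw [mul_zero, Int.cast_zero] at h
    exact h
  have e1 : ∀ j, cr z j = 1 ↔ 0 < z j ∧ z j < 1 := by
    intro j
    have h := sp_cr_odd z j 0
    rw [mul_zero, Int.cast_zero, zero_add, zero_add] at h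
    exact h
  have e2 : ∀ j, cr z j = 2 ↔ z j = 1 := by
    intro j
    have h := sp_cr_even z j 1
    rw [mul_one, Int.cast_one] at h
    exact h
  have l0 : ∀ j, 0 ≤ cr z j ↔ 0 ≤ z j := by
    intro j
    have h := sp_le_cr z j 0
    rw [mul_zero, Int.cast_zero] at h
    exact h
  have l1 : ∀ j, cr z j ≤ 2 ↔ z j ≤ 1 := by
    intro j
    have h := sp_cr_le z j 1
    rw [mul_one, Int.cast_one] at h
    exact h
  rw [sp_Bo_cr (cx_sk hQ).clo]
  constructor
  · rintro ⟨⟨h1, h2, h3⟩, h4⟩
    refine ⟨fun j hj => ⟨(l0 j).1 (h1 j hj).1, (l1 j).1 (h1 j hj).2⟩,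
      fun j hj => (e0 j).1 (h2 j hj), ⟨pat D m g (cr z), h3, ?_, ?_, ?_⟩, ?_⟩
    · intro j hj hz
      show (if j ∈ D then (if cr z j = 2 then 2 * m j + g j else 2 * m j - g j) else 2 * m j + 1)
        = _
      rw [if_pos hj, if_pos ((e2 j).2 hz)]
    · intro j hj hz
      show (if j ∈ D then (if cr z j = 2 then 2 * m j + g j else 2 * m j - g j) else 2 * m j + 1)
        = _
      rw [if_pos hj, if_neg fun h => hz ((e2 j).1 h)]
    · intro j hj
      show (if j ∈ D then (if cr z j = 2 then 2 * m j + g j else 2 * m j - g j) else 2 * m j + 1)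
        = _
      rw [if_neg hj]
    · intro T hT
      refine le_trans ?_ h4
      unfold dm
      apply Finset.card_le_card
      intro j hj
      rw [Finset.mem_filter]
      refine ⟨Finset.mem_univ _, ?_⟩
      rw [(e1 j).2 (hT j hj)]
      norm_num
  · rintro ⟨h1, h2, ⟨d, hd, h3, h4, h5⟩, h6⟩
    refine ⟨⟨fun j hj => ⟨(l0 j).2 (h1 j hj).1, (l1 j).2 (h1 j hj).2⟩,
      fun j hj => (e0 j).2 (h2 j hj), ?_⟩, ?_⟩
    · have h7 : pat D m g (cr z) = d := by
        funext j
        show (if j ∈ D then (if cr z j = 2 then 2 * m j + g j else 2 * m j - g j)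
          else 2 * m j + 1) = _
        by_cases hj : j ∈ D
        · rw [if_pos hj]
          by_cases hz : z j = 1
          · rw [if_pos ((e2 j).2 hz), h3 j hj hz]
          · rw [if_neg fun h => hz ((e2 j).1 h), h4 j hj hz]
        · rw [if_neg hj, h5 j hj]
      rw [h7]
      exact hd
    · unfold dm
      apply h6
      intro j hj
      rw [Finset.mem_filter] at hj
      have h7 := hj.2
      rw [← e1]
      by_cases hD : j ∈ D
      · have h8 := (l0 j).2 (h1 j hD).1
        have h9 := (l1 j).2 (h1 j hD).2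
        omega
      · exfalso
        rw [(e0 j).2 (h2 j hD)] at h7
        norm_num at h7

theorem sp_fib_high (k b : ℕ) (S : Cl (Fin (2 * k + 1) ⊕ Unit))
    (hS : S ∈ Px (Gr 8 (sk k (Nn k b))) (In 1)) (he : S (Sum.inr ()) = 2) :
    Cs k (Bo (Fb (tl k) (Gr 8 (Nn k (b + 1))) S)) := by
  obtain ⟨D, m, l, u, h⟩ := sp_sf k b (fs S) hS.1
  obtain ⟨G, hG, hst⟩ := sp_stabm k b
  set g : Fin (2 * k + 1) → ℤ := fun j => G (m j) with hgd
  have hg : ∀ j, g j = 1 ∨ g j = -1 := fun j => hG (m j)
  have hst2 : ∀ c ∈ Nn k b, ∀ d : Cl (Fin (2 * k + 1)), (∀ j, d j = c j ∨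
      (j ∈ D ∧ 2 * m j - 1 ≤ c j ∧ c j ≤ 2 * m j + 1 ∧
        (d j = 2 * m j + g j ∨ d j = 2 * m j))) → d ∈ Nn k b := by
    intro c hc d hd
    apply hst c hc d
    intro j
    rcases hd j with h1 | ⟨_, h1, h2, h3⟩
    · exact Or.inl h1
    · exact Or.inr ⟨m j, h1, h2, h3⟩
  have hQ : Cx (PQ (Nn k b) D m g) := sp_pq_cx hg hst2
  have hDr : ∀ j ∈ D, 24 * (m j : ℝ) - 9 ≤ l j ∧ (l j : ℝ) ≤ 24 * (m j : ℝ) - 8 ∧
      24 * (m j : ℝ) + 8 ≤ u j ∧ (u j : ℝ) ≤ 24 * (m j : ℝ) + 9 := by
    intro j hj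
    obtain ⟨h1, h2, h3, h4⟩ := h.hD j hj
    exact ⟨by exact_mod_cast h1, by exact_mod_cast h2, by exact_mod_cast h3,
      by exact_mod_cast h4⟩
  have hIr : ∀ j, j ∉ D → 24 * (m j : ℝ) + 9 ≤ l j ∧ (l j : ℝ) ≤ u j ∧
      (u j : ℝ) ≤ 24 * (m j : ℝ) + 15 := by
    intro j hj
    obtain ⟨h1, h2, h3⟩ := h.hI j hj
    exact ⟨by exact_mod_cast h1, by exact_mod_cast h2, by exact_mod_cast h3⟩
  have hmem : ∀ x : Fin (2 * k + 1) → ℝ, x ∈ Bo (Fb (tl k) (Gr 8 (Nn k (b + 1))) S) ↔
      (∀ j, (l j : ℝ) ≤ x j ∧ x j ≤ (u j : ℝ)) ∧ cr (fun j => x j / 24) ∈ Nn k b ∧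
      (Finset.univ.filter (fun j => j ∈ D ∧ |x j - 24 * (m j : ℝ)| < 4)).card ≤ k := by
    intro x
    rw [sp_fib_pt k b S hS D m l u h x]
    constructor
    · rintro ⟨h1, h2, _, h3⟩
      exact ⟨h1, h2, h3 he⟩
    · rintro ⟨h1, h2, h3⟩
      refine ⟨h1, h2, fun h4 => ?_, fun _ => h3⟩
      rw [he] at h4
      omega
  have hg2 : ∀ j, (g j : ℝ) * (g j : ℝ) = 1 := by
    intro j
    rcases hg j with h1 | h1
    · rw [h1]
      norm_num
    · rw [h1]
      norm_num
  -- the homotopy
  set ψ : Fin (2 * k + 1) → ℝ → ℝ := fun j t => if j ∈ D then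
    24 * (m j : ℝ) + (g j : ℝ) * (8 * SP12_cl ((g j : ℝ) * (t - 24 * (m j : ℝ)) + 4) - 4)
    else (l j : ℝ) with hψd
  set Bp : Set (Fin (2 * k + 1) → ℝ) := {y | (∀ j, j ∉ D → y j = (l j : ℝ)) ∧
    (fun j => if j ∈ D then ((g j : ℝ) * (y j - 24 * (m j : ℝ)) + 4) / 8 else 0) ∈
      Bo (sk k (PQ (Nn k b) D m g))} with hBp
  -- continuity
  have hψ : ∀ j, Continuous (ψ j) := by
    intro j
    by_cases hj : j ∈ D
    · have h1 : ψ j = fun t => 24 * (m j : ℝ) + (g j : ℝ) *
          (8 * SP12_cl ((g j : ℝ) * (t - 24 * (m j : ℝ)) + 4) - 4) := by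
        funext t
        rw [hψd]
        exact if_pos hj
      rw [h1]
      have h2 : Continuous fun t : ℝ => SP12_cl ((g j : ℝ) * (t - 24 * (m j : ℝ)) + 4) :=
        SP12_cl_cont.comp (by fun_prop)
      exact continuous_const.add (continuous_const.mul ((continuous_const.mul h2).sub
        continuous_const))
    · have h1 : ψ j = fun _ => (l j : ℝ) := by
        funext t
        rw [hψd]
        exact if_neg hj
      rw [h1]
      exact continuous_const
  have hψD : ∀ j ∈ D, ∀ t, ψ j t = 24 * (m j : ℝ) + (g j : ℝ) *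
      (8 * SP12_cl ((g j : ℝ) * (t - 24 * (m j : ℝ)) + 4) - 4) := by
    intro j hj t
    rw [hψd]
    exact if_pos hj
  have hψI : ∀ j, j ∉ D → ∀ t, ψ j t = (l j : ℝ) := by
    intro j hj t
    rw [hψd]
    exact if_neg hj
  -- (1)
  have p1 : ∀ x ∈ Bo (Fb (tl k) (Gr 8 (Nn k (b + 1))) S), ∀ y : Fin (2 * k + 1) → ℝ,
      (∀ j, y j ∈ Set.uIcc (x j) (ψ j (x j))) → y ∈ Bo (Fb (tl k) (Gr 8 (Nn k (b + 1))) S) := by
    intro x hx y hy
    rw [hmem] at hx ⊢
    obtain ⟨hx1, hx2, hx3⟩ := hx
    -- signed coordinates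
    have hb : ∀ j ∈ D, ((g j : ℝ) * (x j - 24 * (m j : ℝ)) ≤ (g j : ℝ) * (y j - 24 * (m j : ℝ)) ∧
        (g j : ℝ) * (y j - 24 * (m j : ℝ)) ≤
          8 * SP12_cl ((g j : ℝ) * (x j - 24 * (m j : ℝ)) + 4) - 4) ∨
        (8 * SP12_cl ((g j : ℝ) * (x j - 24 * (m j : ℝ)) + 4) - 4 ≤
          (g j : ℝ) * (y j - 24 * (m j : ℝ)) ∧
          (g j : ℝ) * (y j - 24 * (m j : ℝ)) ≤ (g j : ℝ) * (x j - 24 * (m j : ℝ))) := by
      intro j hj
      have h1 := hy j
      rw [hψD j hj] at h1
      exact SP12_btw (hg j) _ _ _ _ h1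
    have hyr : ∀ j, (l j : ℝ) ≤ y j ∧ y j ≤ (u j : ℝ) := by
      intro j
      have h1 := hy j
      rw [Set.mem_uIcc] at h1
      have h2 := hx1 j
      by_cases hj : j ∈ D
      · have h3 := hDr j hj
        have h4 : 24 * (m j : ℝ) - 4 ≤ ψ j (x j) ∧ ψ j (x j) ≤ 24 * (m j : ℝ) + 4 := by
          rw [hψD j hj]
          have h5 : 0 ≤ SP12_cl ((g j : ℝ) * (x j - 24 * (m j : ℝ)) + 4) ∧
              SP12_cl ((g j : ℝ) * (x j - 24 * (m j : ℝ)) + 4) ≤ 1 := by
            rcases SP12_cl_cases ((g j : ℝ) * (x j - 24 * (m j : ℝ)) + 4) with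
              ⟨h6, h7⟩ | ⟨h6, h7, h8⟩ | ⟨h6, h7⟩
            · rw [h7]
              norm_num
            · rw [h8]
              exact ⟨h6.le, h7.le⟩
            · rw [h7]
              norm_num
          rcases hg j with h6 | h6
          · rw [h6] at h5 ⊢
            push_cast at h5 ⊢
            constructor <;> linarith
          · rw [h6] at h5 ⊢
            push_cast at h5 ⊢
            constructor <;> linarith
        rcases h1 with ⟨h5, h6⟩ | ⟨h5, h6⟩
        · constructor <;> linarith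
        · constructor <;> linarith
      · have h3 := hIr j hj
        rw [hψI j hj] at h1
        rcases h1 with ⟨h5, h6⟩ | ⟨h5, h6⟩
        · constructor <;> linarith
        · constructor <;> linarith
    refine ⟨hyr, ?_, ?_⟩
    · apply hst2 _ hx2
      intro j
      by_cases hj : j ∈ D
      · have h3 := hDr j hj
        have h4 := hx1 j
        have h5 := hyr j
        rcases SP12_sg x j (m j) (g j) (hg j) (by linarith) (by linarith) with
          ⟨h6, h7⟩ | ⟨h6, h7⟩ | ⟨h6, h7⟩
        · rcases SP12_sg y j (m j) (g j) (hg j) (by linarith) (by linarith) with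
            ⟨h8, h9⟩ | ⟨h8, h9⟩ | ⟨h8, h9⟩
          · left
            rw [h7, h9]
          · right
            have h10 := hg j
            refine ⟨hj, ?_, ?_, Or.inr h9⟩
            · rw [h7]
              omega
            · rw [h7]
              omega
          · right
            have h10 := hg j
            refine ⟨hj, ?_, ?_, Or.inl h9⟩
            · rw [h7]
              omega
            · rw [h7]
              omega
        · rcases SP12_sg y j (m j) (g j) (hg j) (by linarith) (by linarith) with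
            ⟨h8, h9⟩ | ⟨h8, h9⟩ | ⟨h8, h9⟩
          · exfalso
            have h10 := hb j hj
            rcases SP12_cl_cases ((g j : ℝ) * (x j - 24 * (m j : ℝ)) + 4) with
              ⟨h11, h12⟩ | ⟨h11, h12, h13⟩ | ⟨h11, h12⟩
            · linarith
            · linarith
            · rw [h12] at h10
              rcases h10 with h10 | h10
              · linarith [h10.1]
              · linarith [h10.1]
          · right
            have h10 := hg j
            refine ⟨hj, ?_, ?_, Or.inr h9⟩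
            · rw [h7]
              omega
            · rw [h7]
              omega
          · right
            have h10 := hg j
            refine ⟨hj, ?_, ?_, Or.inl h9⟩
            · rw [h7]
              omega
            · rw [h7]
              omega
        · rcases SP12_sg y j (m j) (g j) (hg j) (by linarith) (by linarith) with
            ⟨h8, h9⟩ | ⟨h8, h9⟩ | ⟨h8, h9⟩
          · exfalso
            have h10 := hb j hj
            rcases SP12_cl_cases ((g j : ℝ) * (x j - 24 * (m j : ℝ)) + 4) with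
              ⟨h11, h12⟩ | ⟨h11, h12, h13⟩ | ⟨h11, h12⟩
            · linarith
            · linarith
            · rw [h12] at h10
              rcases h10 with h10 | h10
              · linarith [h10.1]
              · linarith [h10.1]
          · right
            have h10 := hg j
            refine ⟨hj, ?_, ?_, Or.inr h9⟩
            · rw [h7]
              omega
            · rw [h7]
              omega
          · right
            have h10 := hg j
            refine ⟨hj, ?_, ?_, Or.inl h9⟩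
            · rw [h7]
              omega
            · rw [h7]
              omega
      · left
        have h3 := hIr j hj
        have h4 := hx1 j
        have h5 := hyr j
        rw [SP12_cr2 x j (m j) (by linarith) (by linarith),
          SP12_cr2 y j (m j) (by linarith) (by linarith)]
    · refine le_trans (Finset.card_le_card ?_) hx3
      intro j hj
      rw [Finset.mem_filter] at hj ⊢
      obtain ⟨-, h1, h2⟩ := hj
      refine ⟨Finset.mem_univ _, h1, ?_⟩
      rw [← SP12_abs (hg j)] at h2 ⊢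
      rw [abs_lt] at h2 ⊢
      have h10 := hb j h1
      rcases SP12_cl_cases ((g j : ℝ) * (x j - 24 * (m j : ℝ)) + 4) with
        ⟨h11, h12⟩ | ⟨h11, h12, h13⟩ | ⟨h11, h12⟩
      · exfalso
        rw [h12] at h10
        rcases h10 with h10 | h10
        · linarith [h10.2, h2.1]
        · linarith [h10.2, h2.1]
      · constructor <;> linarith
      · rw [h12] at h10
        refine ⟨by linarith, ?_⟩
        by_contra h14
        rw [not_lt] at h14
        rcases h10 with h10 | h10
        · linarith [h10.1, h2.2]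
        · linarith [h10.1, h2.2]
  -- (2)
  have p2 : ∀ x ∈ Bo (Fb (tl k) (Gr 8 (Nn k (b + 1))) S), (fun j => ψ j (x j)) ∈ Bp := by
    intro x hx
    rw [hmem] at hx
    obtain ⟨hx1, hx2, hx3⟩ := hx
    have hz : ∀ j ∈ D, ((g j : ℝ) * (ψ j (x j) - 24 * (m j : ℝ)) + 4) / 8 =
        SP12_cl ((g j : ℝ) * (x j - 24 * (m j : ℝ)) + 4) := by
      intro j hj
      rw [hψD j hj]
      have h1 : (g j : ℝ) * (24 * (m j : ℝ) + (g j : ℝ) *
          (8 * SP12_cl ((g j : ℝ) * (x j - 24 * (m j : ℝ)) + 4) - 4) - 24 * (m j : ℝ)) =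
          ((g j : ℝ) * (g j : ℝ)) *
            (8 * SP12_cl ((g j : ℝ) * (x j - 24 * (m j : ℝ)) + 4) - 4) := by ring
      rw [h1, hg2]
      ring
    refine ⟨fun j hj => hψI j hj _, ?_⟩
    rw [SP12_Q k hQ]
    refine ⟨?_, ?_, ?_, ?_⟩
    · intro j hj
      show 0 ≤ (if j ∈ D then ((g j : ℝ) * (ψ j (x j) - 24 * (m j : ℝ)) + 4) / 8 else 0) ∧
        (if j ∈ D then ((g j : ℝ) * (ψ j (x j) - 24 * (m j : ℝ)) + 4) / 8 else 0) ≤ 1
      rw [if_pos hj, hz j hj]
      rcases SP12_cl_cases ((g j : ℝ) * (x j - 24 * (m j : ℝ)) + 4) with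
        ⟨h6, h7⟩ | ⟨h6, h7, h8⟩ | ⟨h6, h7⟩
      · rw [h7]
        norm_num
      · rw [h8]
        exact ⟨h6.le, h7.le⟩
      · rw [h7]
        norm_num
    · intro j hj
      exact if_neg hj
    · refine ⟨fun j => if j ∈ D then (if SP12_cl ((g j : ℝ) * (x j - 24 * (m j : ℝ)) + 4) = 1
        then 2 * m j + g j else 2 * m j - g j) else 2 * m j + 1, ?_, ?_, ?_, ?_⟩
      · apply hst2 _ hx2
        intro j
        by_cases hj : j ∈ D
        · have h3 := hDr j hj
          have h4 := hx1 j
          have h10 := hg j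
          by_cases h5 : SP12_cl ((g j : ℝ) * (x j - 24 * (m j : ℝ)) + 4) = 1
          · right
            rw [if_pos hj, if_pos h5]
            rcases SP12_sg x j (m j) (g j) (hg j) (by linarith) (by linarith) with
              ⟨h6, h7⟩ | ⟨h6, h7⟩ | ⟨h6, h7⟩
            · refine ⟨hj, ?_, ?_, Or.inl rfl⟩
              · rw [h7]
                omega
              · rw [h7]
                omega
            · refine ⟨hj, ?_, ?_, Or.inl rfl⟩
              · rw [h7]
                omega
              · rw [h7]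
                omega
            · refine ⟨hj, ?_, ?_, Or.inl rfl⟩
              · rw [h7]
                omega
              · rw [h7]
                omega
          · left
            rw [if_pos hj, if_neg h5]
            rcases SP12_sg x j (m j) (g j) (hg j) (by linarith) (by linarith) with
              ⟨h6, h7⟩ | ⟨h6, h7⟩ | ⟨h6, h7⟩
            · exact h7.symm
            · exfalso
              rcases SP12_cl_cases ((g j : ℝ) * (x j - 24 * (m j : ℝ)) + 4) with
                ⟨h11, h12⟩ | ⟨h11, h12, h13⟩ | ⟨h11, h12⟩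
              · linarith
              · linarith
              · exact h5 h12
            · exfalso
              rcases SP12_cl_cases ((g j : ℝ) * (x j - 24 * (m j : ℝ)) + 4) with
                ⟨h11, h12⟩ | ⟨h11, h12, h13⟩ | ⟨h11, h12⟩
              · linarith
              · linarith
              · exact h5 h12
        · left
          have h3 := hIr j hj
          have h4 := hx1 j
          rw [if_neg hj, SP12_cr2 x j (m j) (by linarith) (by linarith)]
      · intro j hj h1
        have h2 : (if j ∈ D then ((g j : ℝ) * (ψ j (x j) - 24 * (m j : ℝ)) + 4) / 8 else 0) = 1 :=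
          h1
        rw [if_pos hj, hz j hj] at h2
        show (if j ∈ D then (if SP12_cl ((g j : ℝ) * (x j - 24 * (m j : ℝ)) + 4) = 1
          then 2 * m j + g j else 2 * m j - g j) else 2 * m j + 1) = _
        rw [if_pos hj, if_pos h2]
      · intro j hj h1
        have h2 : (if j ∈ D then ((g j : ℝ) * (ψ j (x j) - 24 * (m j : ℝ)) + 4) / 8 else 0) ≠ 1 :=
          h1
        rw [if_pos hj, hz j hj] at h2
        show (if j ∈ D then (if SP12_cl ((g j : ℝ) * (x j - 24 * (m j : ℝ)) + 4) = 1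
          then 2 * m j + g j else 2 * m j - g j) else 2 * m j + 1) = _
        rw [if_pos hj, if_neg h2]
      · intro j hj
        exact if_neg hj
    · intro T hT
      refine le_trans (Finset.card_le_card ?_) hx3
      intro j hj
      have h1 : 0 < (if j ∈ D then ((g j : ℝ) * (ψ j (x j) - 24 * (m j : ℝ)) + 4) / 8 else 0) ∧
        (if j ∈ D then ((g j : ℝ) * (ψ j (x j) - 24 * (m j : ℝ)) + 4) / 8 else 0) < 1 := hT j hj
      rw [Finset.mem_filter]
      by_cases hjD : j ∈ D
      · refine ⟨Finset.mem_univ _, hjD, ?_⟩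
        rw [if_pos hjD, hz j hjD] at h1
        rw [← SP12_abs (hg j), abs_lt]
        rcases SP12_cl_cases ((g j : ℝ) * (x j - 24 * (m j : ℝ)) + 4) with
          ⟨h11, h12⟩ | ⟨h11, h12, h13⟩ | ⟨h11, h12⟩
        · exfalso
          rw [h12] at h1
          exact lt_irrefl _ h1.1
        · constructor <;> linarith
        · exfalso
          rw [h12] at h1
          exact lt_irrefl _ h1.2
      · exfalso
        rw [if_neg hjD] at h1
        exact lt_irrefl _ h1.1
  -- (3)
  have p3 : Bp ⊆ Bo (Fb (tl k) (Gr 8 (Nn k (b + 1))) S) := by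
    rintro y ⟨hy1, hy2⟩
    rw [SP12_Q k hQ] at hy2
    obtain ⟨h1, h2, ⟨d, hd, h3, h4, h5⟩, h6⟩ := hy2
    have hz : ∀ j ∈ D, 0 ≤ ((g j : ℝ) * (y j - 24 * (m j : ℝ)) + 4) / 8 ∧
        ((g j : ℝ) * (y j - 24 * (m j : ℝ)) + 4) / 8 ≤ 1 := by
      intro j hj
      have h7 : 0 ≤ (if j ∈ D then ((g j : ℝ) * (y j - 24 * (m j : ℝ)) + 4) / 8 else 0) ∧
        (if j ∈ D then ((g j : ℝ) * (y j - 24 * (m j : ℝ)) + 4) / 8 else 0) ≤ 1 := h1 j hj
      rw [if_pos hj] at h7
      exact h7
    have hyr : ∀ j, (l j : ℝ) ≤ y j ∧ y j ≤ (u j : ℝ) := by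
      intro j
      by_cases hj : j ∈ D
      · have h7 := hDr j hj
        have h8 := hz j hj
        rcases hg j with h9 | h9
        · rw [h9] at h8
          push_cast at h8
          constructor <;> linarith [h8.1, h8.2]
        · rw [h9] at h8
          push_cast at h8
          constructor <;> linarith [h8.1, h8.2]
      · rw [hy1 j hj]
        exact ⟨le_rfl, (hIr j hj).2.1⟩
    rw [hmem]
    refine ⟨hyr, ?_, ?_⟩
    · apply hst2 _ hd
      intro j
      by_cases hj : j ∈ D
      · have h7 := hDr j hj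
        have h8 := hyr j
        have h10 := hg j
        have h11 : d j = 2 * m j + g j ∨ d j = 2 * m j - g j := by
          by_cases h12 : ((g j : ℝ) * (y j - 24 * (m j : ℝ)) + 4) / 8 = 1
          · left
            apply h3 j hj
            show (if j ∈ D then ((g j : ℝ) * (y j - 24 * (m j : ℝ)) + 4) / 8 else 0) = 1
            rw [if_pos hj]
            exact h12
          · right
            apply h4 j hj
            show (if j ∈ D then ((g j : ℝ) * (y j - 24 * (m j : ℝ)) + 4) / 8 else 0) ≠ 1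
            rw [if_pos hj]
            exact h12
        rcases SP12_sg y j (m j) (g j) (hg j) (by linarith) (by linarith) with
          ⟨h12, h13⟩ | ⟨h12, h13⟩ | ⟨h12, h13⟩
        · left
          rw [h13]
          symm
          apply h4 j hj
          show (if j ∈ D then ((g j : ℝ) * (y j - 24 * (m j : ℝ)) + 4) / 8 else 0) ≠ 1
          rw [if_pos hj]
          intro h14
          linarith
        · right
          exact ⟨hj, by omega, by omega, Or.inr h13⟩
        · right
          exact ⟨hj, by omega, by omega, Or.inl h13⟩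
      · left
        have h7 := hIr j hj
        have h8 := hyr j
        rw [h5 j hj, SP12_cr2 y j (m j) (by linarith) (by linarith)]
    · apply h6
      intro j hj
      rw [Finset.mem_filter] at hj
      obtain ⟨-, h7, h8⟩ := hj
      show 0 < (if j ∈ D then ((g j : ℝ) * (y j - 24 * (m j : ℝ)) + 4) / 8 else 0) ∧
        (if j ∈ D then ((g j : ℝ) * (y j - 24 * (m j : ℝ)) + 4) / 8 else 0) < 1
      rw [if_pos h7]
      rw [← SP12_abs (hg j), abs_lt] at h8
      constructor <;> linarith [h8.1, h8.2]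
  -- (4)
  have hne : (PQ (Nn k b) D m g).Nonempty := by
    refine ⟨fun j => if j ∈ D then 2 else 0, ?_, ?_, ?_⟩
    · intro j hj
      show 0 ≤ (if j ∈ D then (2 : ℤ) else 0) ∧ (if j ∈ D then (2 : ℤ) else 0) ≤ 2
      rw [if_pos hj]
      norm_num
    · intro j hj
      exact if_neg hj
    · have h1 : ca 8 (fs S) ∈ Nn k b := hS.1.1
      apply hst2 _ h1
      intro j
      show (if j ∈ D then (if (if j ∈ D then (2 : ℤ) else 0) = 2 then 2 * m j + g j
        else 2 * m j - g j) else 2 * m j + 1) = ca 8 (fs S) j ∨ _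
      by_cases hj : j ∈ D
      · right
        refine ⟨hj, (h.cD j hj).1, (h.cD j hj).2, Or.inl ?_⟩
        show (if j ∈ D then (if (if j ∈ D then (2 : ℤ) else 0) = 2 then 2 * m j + g j
          else 2 * m j - g j) else 2 * m j + 1) = _
        rw [if_pos hj, if_pos hj, if_pos rfl]
      · left
        rw [if_neg hj]
        exact (h.cI j hj).symm
  have p4 : Cs k Bp := by
    refine cs_dom (Bo (sk k (PQ (Nn k b) D m g))) Bp
      (fun z j => if j ∈ D then 24 * (m j : ℝ) + (g j : ℝ) * (8 * z j - 4) else (l j : ℝ))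
      (fun y j => if j ∈ D then ((g j : ℝ) * (y j - 24 * (m j : ℝ)) + 4) / 8 else 0)
      ?_ ?_ ?_ ?_ ?_ (sp_pq_cs k hg hst2 hne)
    · apply Continuous.continuousOn
      refine continuous_pi fun j => ?_
      by_cases hj : j ∈ D
      · simp only [if_pos hj]
        fun_prop
      · simp only [if_neg hj]
        fun_prop
    · apply Continuous.continuousOn
      refine continuous_pi fun j => ?_
      by_cases hj : j ∈ D
      · simp only [if_pos hj]
        fun_prop
      · simp only [if_neg hj]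
        fun_prop
    · intro z hz
      refine ⟨fun j hj => if_neg hj, ?_⟩
      have h2 := ((SP12_Q k hQ z).1 hz).2.1
      have h3 : (fun j => if j ∈ D then ((g j : ℝ) * ((if j ∈ D then 24 * (m j : ℝ) +
          (g j : ℝ) * (8 * z j - 4) else (l j : ℝ)) - 24 * (m j : ℝ)) + 4) / 8 else 0) = z := by
        funext j
        by_cases hj : j ∈ D
        · rw [if_pos hj, if_pos hj]
          have h4 : (g j : ℝ) * (24 * (m j : ℝ) + (g j : ℝ) * (8 * z j - 4) -
              24 * (m j : ℝ)) = ((g j : ℝ) * (g j : ℝ)) * (8 * z j - 4) := by ring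
          rw [h4, hg2]
          ring
        · rw [if_neg hj, h2 j hj]
      show (fun j => if j ∈ D then ((g j : ℝ) * ((if j ∈ D then 24 * (m j : ℝ) +
          (g j : ℝ) * (8 * z j - 4) else (l j : ℝ)) - 24 * (m j : ℝ)) + 4) / 8 else 0) ∈ _
      rw [h3]
      exact hz
    · rintro y ⟨-, hy2⟩
      exact hy2
    · rintro y ⟨hy1, -⟩
      funext j
      show (if j ∈ D then 24 * (m j : ℝ) + (g j : ℝ) * (8 * (if j ∈ D then
        ((g j : ℝ) * (y j - 24 * (m j : ℝ)) + 4) / 8 else 0) - 4) else (l j : ℝ)) = y j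
      by_cases hj : j ∈ D
      · rw [if_pos hj, if_pos hj]
        have h4 : (g j : ℝ) * (8 * (((g j : ℝ) * (y j - 24 * (m j : ℝ)) + 4) / 8) - 4) =
            ((g j : ℝ) * (g j : ℝ)) * (y j - 24 * (m j : ℝ)) := by ring
        rw [h4, hg2]
        ring
      · rw [if_neg hj, hy1 j hj]
  exact sp_cs_box _ Bp ψ hψ p1 p2 p3 p4

end MNG
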