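import Pool.Agent.MNG.SP6
import Pool.Agent.MNG.SP10
import Pool.Agent.MNG.SP12
import Pool.Agent.MNG.T4

/-!
# MNG-SP13: the map of property (B) for the sponge

`spg k = tl k ∘ Ct 4 ∘ Ct 2 ∘ Ct 1 : Nn k (b + 4) → Gr 2 (Nn k (b + 3)) → Gr 4 (Nn k (b + 2)) → Gr 8 (Nn k (b + 1)) → Px (Gr 8 (sk k (Nn k b))) (In 1)`
(`Gr 1 K = K`: `ca1 1 z = z`). Cube maps and soft maps compose (`soft_comp`), then `soft_sk`. `In 1`: the second coordinate of `S` is `2` or not: `sp_fib_high`, `sp_fib_low`.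
Carriers: `ca 24 (Ct 4 c) = ca 3 (ca 8 (Ct 4 c)) = ca 3 (ca 12 c) = ca 36 c`, `ca 36 (Ct 2 c) = ca 9 (ca 4 (Ct 2 c)) = ca 54 c`,
`ca 54 (Ct 1 c) = ca 27 (ca 2 (Ct 1 c)) = ca 81 c` (`sp_ca_comp`, `sp_Ct_ca`).
-/

set_option autoImplicit false

noncomputable section

namespace MNG

open AGM (Ei Bl Sp)
open Set Topology

private theorem SP13_comp {J V W : Type} [Fintype J] [Fintype V] [Fintype W] {K : Set (Cl J)} {L : Set (Cl V)}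
    {M : Set (Cl W)} {f : Cl J → Cl V} {g : Cl V → Cl W} (hf : Cub K L f) (hg : Cub L M g) :
    Cub K M (fun c => g (f c)) where
  map c hc := hg.map _ (hf.map c hc)
  mono c hc d hd := hg.mono _ (hf.map c hc) _ (hf.mono c hc d hd)
  dim c hc := (hg.dim _ (hf.map c hc)).trans (hf.dim c hc)

private theorem SP13_one {J : Type} (K : Set (Cl J)) : Gr 1 K = K := by
  have h : ∀ c : Cl J, ca 1 c = c := by
    intro c
    funext j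
    show ca1 1 (c j) = c j
    unfold ca1
    push_cast
    split_ifs with h
    · exact Int.ediv_one _
    · omega
  ext c
  show ca 1 c ∈ K ↔ c ∈ K
  rw [h c]

private theorem SP13_c1 (k b : ℕ) : Cub (Nn k (b + 4)) (Gr 2 (Nn k (b + 3))) (Ct 1) := by
  have h := sp_Ct_cub k (b + 3) 1 (Or.inl rfl)
  rw [SP13_one] at h
  exact h

private theorem SP13_c2 (k b : ℕ) : Cub (Gr 2 (Nn k (b + 3))) (Gr 4 (Nn k (b + 2))) (Ct 2) :=
  sp_Ct_cub k (b + 2) 2 (Or.inr (Or.inl rfl))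

private theorem SP13_c4 (k b : ℕ) : Cub (Gr 4 (Nn k (b + 2))) (Gr 8 (Nn k (b + 1))) (Ct 4) :=
  sp_Ct_cub k (b + 1) 4 (Or.inr (Or.inr rfl))

private theorem SP13_s1 (k b : ℕ) : Soft k (Nn k (b + 4)) (Gr 2 (Nn k (b + 3))) (Ct 1) := by
  have h := sp_Ct_soft k (b + 3) 1 (Or.inl rfl)
  rw [SP13_one] at h
  exact h

private theorem SP13_s2 (k b : ℕ) : Soft k (Gr 2 (Nn k (b + 3))) (Gr 4 (Nn k (b + 2))) (Ct 2) :=
  sp_Ct_soft k (b + 2) 2 (Or.inr (Or.inl rfl))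

private theorem SP13_s4 (k b : ℕ) : Soft k (Gr 4 (Nn k (b + 2))) (Gr 8 (Nn k (b + 1))) (Ct 4) :=
  sp_Ct_soft k (b + 1) 4 (Or.inr (Or.inr rfl))

theorem sp_tl_soft (k b : ℕ) :
    Soft k (Gr 8 (Nn k (b + 1))) (Px (Gr 8 (sk k (Nn k b))) (In 1)) (tl k) := by
  intro S hS
  by_cases he : S (Sum.inr ()) = 2
  · exact sp_fib_high k b S hS he
  · exact sp_fib_low k b S hS he

theorem sp_spg_cub (k b : ℕ) : Cub (Nn k (b + 4)) (Px (Gr 8 (sk k (Nn k b))) (In 1)) (spg k) := by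
  have h := SP13_comp (SP13_comp (SP13_comp (SP13_c1 k b) (SP13_c2 k b)) (SP13_c4 k b)) (sp_tl_cub k b)
  exact h

theorem sp_spg_soft (k b : ℕ) :
    Soft k (Nn k (b + 4)) (Px (Gr 8 (sk k (Nn k b))) (In 1)) (spg k) := by
  have g2 : Cx (Gr 2 (Nn k (b + 3))) := sp_cx_gr 2 (by norm_num) (sp_nn_cx k (b + 3))
  have g4 : Cx (Gr 4 (Nn k (b + 2))) := sp_cx_gr 4 (by norm_num) (sp_nn_cx k (b + 2))
  have g8 : Cx (Gr 8 (Nn k (b + 1))) := sp_cx_gr 8 (by norm_num) (sp_nn_cx k (b + 1))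
  have h0 := sp_nn_cx k (b + 4)
  have h1 := soft_comp h0 g2 (SP13_c1 k b).toMon (SP13_c2 k b).toMon (SP13_s1 k b) (SP13_s2 k b)
  have h2 := soft_comp h0 g4 (SP13_comp (SP13_c1 k b) (SP13_c2 k b)).toMon (SP13_c4 k b).toMon h1 (SP13_s4 k b)
  have h3 := soft_comp h0 g8 (SP13_comp (SP13_comp (SP13_c1 k b) (SP13_c2 k b)) (SP13_c4 k b)).toMon
    (sp_tl_cub k b).toMon h2 (sp_tl_soft k b)
  exact h3

theorem sp_spg_sk (k b : ℕ) :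
    Cub (sk k (Nn k (b + 4))) (sk k (Px (Gr 8 (sk k (Nn k b))) (In 1))) (spg k) ∧
      Soft k (sk k (Nn k (b + 4))) (sk k (Px (Gr 8 (sk k (Nn k b))) (In 1))) (spg k) :=
  soft_sk (sp_nn_cx k (b + 4)) (sp_spg_cub k b) (sp_spg_soft k b)

theorem sp_spg_ca (k : ℕ) (c : Cl (Fin (2 * k + 1))) : Fa (ca 8 (fs (spg k c))) (ca 81 c) := by
  have h := sp_tl_ca k (Ct 4 (Ct 2 (Ct 1 c)))
  have e1 : ca 24 (Ct 4 (Ct 2 (Ct 1 c))) = ca 36 (Ct 2 (Ct 1 c)) := by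
    have a1 : ca 3 (ca 8 (Ct 4 (Ct 2 (Ct 1 c)))) = ca 24 (Ct 4 (Ct 2 (Ct 1 c))) :=
      sp_ca_comp 3 8 (by norm_num) (by norm_num) _
    have a2 : ca 8 (Ct 4 (Ct 2 (Ct 1 c))) = ca 12 (Ct 2 (Ct 1 c)) := sp_Ct_ca 4 (Or.inr (Or.inr rfl)) _
    have a3 : ca 3 (ca 12 (Ct 2 (Ct 1 c))) = ca 36 (Ct 2 (Ct 1 c)) :=
      sp_ca_comp 3 12 (by norm_num) (by norm_num) _
    rw [← a1, a2, a3]
  have e2 : ca 36 (Ct 2 (Ct 1 c)) = ca 54 (Ct 1 c) := by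
    have a1 : ca 9 (ca 4 (Ct 2 (Ct 1 c))) = ca 36 (Ct 2 (Ct 1 c)) :=
      sp_ca_comp 9 4 (by norm_num) (by norm_num) _
    have a2 : ca 4 (Ct 2 (Ct 1 c)) = ca 6 (Ct 1 c) := sp_Ct_ca 2 (Or.inr (Or.inl rfl)) _
    have a3 : ca 9 (ca 6 (Ct 1 c)) = ca 54 (Ct 1 c) := sp_ca_comp 9 6 (by norm_num) (by norm_num) _
    rw [← a1, a2, a3]
  have e3 : ca 54 (Ct 1 c) = ca 81 c := by
    have a1 : ca 27 (ca 2 (Ct 1 c)) = ca 54 (Ct 1 c) := sp_ca_comp 27 2 (by norm_num) (by norm_num) _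
    have a2 : ca 2 (Ct 1 c) = ca 3 c := sp_Ct_ca 1 (Or.inl rfl) _
    have a3 : ca 27 (ca 3 c) = ca 81 c := sp_ca_comp 27 3 (by norm_num) (by norm_num) _
    rw [← a1, a2, a3]
  rw [e1, e2, e3] at h
  exact h

end MNG
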