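import Pool.Agent.MNG.SP3
import Pool.Agent.MNG.SP13

/-!
# MNG-SPO: the sponge as a tower

`J b = Fin (2 k + 1)`, `M b = Nn k (4 b)`, `ka b = ca 81`, `pr b x = x / 81`, `r b c = rh (rh (rh (rh c)))`, `g b = spg k`, `D = 2 k + 1`.
`4 * (b + 1) = 4 * b + 4` definitionally. `prk`: `x ∈ bo c → x / 81 ∈ bo (ca 81 c)` (`cr_iff`, `sp_cr_div`, `sp_fa_ca`).
`Cs k (Bo (X 0))`: `skel` and `sp_nn_start`. Limit: `sp_lim`.
-/

set_option autoImplicit false

noncomputable section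

namespace MNG

open AGM (Ei Bl Sp)
open Set Topology

private def SPO_tw (k : ℕ) : Tw k where
  J _ := Fin (2 * k + 1)
  fJ _ := inferInstance
  M b := Nn k (4 * b)
  cx b := sp_nn_cx k (4 * b)
  ne b := ⟨_, sp_nn_zero k (4 * b)⟩
  D := 2 * k + 1
  dmM _ c _ := sp_dm_le k c
  ka _ := ca 81
  kam b := sp_nn_ka4 k (4 * b)
  pr _ x j := x j / 81
  prL _ x y := by
    rw [dist_pi_le_iff (by positivity)]
    intro j
    have h := dist_le_pi_dist x y j
    rw [Real.dist_eq] at h ⊢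
    have h2 : x j / 81 - y j / 81 = (x j - y j) / 81 := by ring
    rw [h2, abs_div, abs_of_pos (by norm_num : (0 : ℝ) < 81)]
    have h3 : 0 ≤ |x j - y j| := abs_nonneg _
    linarith
  prk _ c _ x hx := by
    have h := sp_fa_ca 81 (by norm_num) (cr_min hx)
    have h2 := sp_cr_div 81 (by norm_num) x
    rw [← h2] at h
    have h3 := cr_iff.2 h
    exact_mod_cast h3
  r _ c := rh (rh (rh (rh c)))
  rm b := sp_nn_rh4 k (4 * b)
  rk _ c _ := sp_rh4_ca c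
  g _ := spg k
  gm b := (sp_spg_sk k (4 * b)).1
  gs b := (sp_spg_sk k (4 * b)).2
  gk _ c _ := sp_spg_ca k c

theorem sponge (k : ℕ) (hk : 1 ≤ k) :
    ∃ T : Tw k, Cs k (Bo (T.X 0)) ∧ Nonempty (T.Lim ≃ₜ AGM.MC k) := by
  refine ⟨SPO_tw k, ?_, sp_lim k⟩
  obtain ⟨h1, h2, h3⟩ := sp_nn_start k
  exact (skel h1).1 (cs_convex _ h2 h3)

end MNG
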