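import Pool.Agent.MNG.AG11
import Pool.Agent.MNG.AX
import Pool.Agent.MNG.SPO
import Pool.Agent.MNG.LD3
import Pool.Agent.AGM.BST

/-!
# MNG-AGT: the end

The limits of the towers of the data are Menger compacta; transport of the actions and of the map.
-/

set_option autoImplicit false

noncomputable section

namespace MNG

open AGM (Ei Bl Sp)
open Set Topology

/-- the limit of the tower of a datum is the Menger compactum -/
theorem dta_mc {n : ℕ} (hn : 1 ≤ n) (hgen : ∀ T : Tw n, Gen T) (A : Dta n) :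
    Nonempty (A.Lim ≃ₜ AGM.MC n) := by
  obtain ⟨S, h1, ⟨h⟩⟩ := sponge n hn
  obtain ⟨v, hv⟩ := tw_zero A
  obtain ⟨e⟩ := LD.ladder hn S A.tw (hgen _) (hgen _) h1 v hv
  exact ⟨((Homeomorph.setCongr (tw_lim A)).symm.trans e.symm).trans h⟩

/-- the target, in the form of a limit of a tower of a datum -/
def YSp (p : ℕ) [Fact p.Prime] : Prop :=
  ∀ (X : Type) [TopologicalSpace X] [CompactSpace X] [TopologicalSpace.MetrizableSpace X]
    [MulAction (Multiplicative ℤ_[p]) X] [ContinuousSMul (Multiplicative ℤ_[p]) X],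
    (∀ (g : Multiplicative ℤ_[p]) (x : X), g • x = x → g = 1) →
    AGE.CovDimLE (Quotient (MulAction.orbitRel (Multiplicative ℤ_[p]) X)) 3 →
    ∃ (A : Dta 2) (Y : Type) (_ : TopologicalSpace Y) (_ : MulAction (Multiplicative ℤ_[p]) Y)
      (_ : ContinuousSMul (Multiplicative ℤ_[p]) Y),
      Nonempty (Y ≃ₜ A.Lim) ∧ (∀ (g : Multiplicative ℤ_[p]) (y : Y), g • y = y → g = 1) ∧
      ∃ f : X → Y, Continuous f ∧
        ∀ (g : Multiplicative ℤ_[p]) (x : X), f (g • x) = g • f x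

theorem agt (p : ℕ) [Fact p.Prime] (h2 : ∀ T : Tw 2, Gen T) (h3 : ∀ T : Tw 3, Gen T)
    (hY : YSp p) :
    ∃ (_ : MulAction (Multiplicative ℤ_[p]) (AGM.MC 3))
      (_ : MulAction (Multiplicative ℤ_[p]) (AGM.MC 2)),
      ContinuousSMul (Multiplicative ℤ_[p]) (AGM.MC 3) ∧
      ContinuousSMul (Multiplicative ℤ_[p]) (AGM.MC 2) ∧
      (∀ (g : Multiplicative ℤ_[p]) (x : AGM.MC 3), g • x = x → g = 1) ∧
      (∀ (g : Multiplicative ℤ_[p]) (y : AGM.MC 2), g • y = y → g = 1) ∧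
      ∃ f : AGM.MC 3 → AGM.MC 2, Continuous f ∧
        ∀ (g : Multiplicative ℤ_[p]) (x : AGM.MC 3), f (g • x) = g • f x := by
  obtain ⟨a1, a2, a3, a4, hfX, hqX⟩ := x_act p 3
  obtain ⟨A, Y, b1, b2, b3, ⟨j⟩, hfY, f, hf, hfe⟩ := hY (XD p 3).Lim hfX hqX
  obtain ⟨h⟩ := dta_mc (by norm_num) h3 (XD p 3)
  obtain ⟨k'⟩ := dta_mc (by norm_num) h2 A
  obtain ⟨k, -⟩ : ∃ k : Y ≃ₜ AGM.MC 2, k = j.trans k' := ⟨_, rfl⟩
  obtain ⟨A, hA, hA'⟩ := AGM.act_homeo (Multiplicative ℤ_[p]) h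
  obtain ⟨B, hB, hB'⟩ := AGM.act_homeo (Multiplicative ℤ_[p]) k
  refine ⟨A, B, hA, hB, fun g x hx => ?_, fun g y hy => ?_, fun x => k (f (h.symm x)),
    k.continuous.comp (hf.comp h.symm.continuous), fun g x => ?_⟩
  · rw [hA'] at hx
    exact hfX g (h.symm x) (h.injective (by rw [hx, h.apply_symm_apply]))
  · rw [hB'] at hy
    exact hfY g (k.symm y) (k.injective (by rw [hy, k.apply_symm_apply]))
  · show k (f (h.symm (g • x))) = g • k (f (h.symm x))
    rw [hA', hB', h.symm_apply_apply, hfe, k.symm_apply_apply]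

/-- the negation of the conjecture -/
theorem agt_neg (h2 : ∀ T : Tw 2, Gen T) (h3 : ∀ T : Tw 3, Gen T) (hY : YSp 2) :
    ¬ (∀ (m n : ℕ), 0 < m → 0 < n →
    ∀ (G : Type) [Group G] [TopologicalSpace G] [IsTopologicalGroup G] [CompactSpace G]
      [TopologicalSpace.MetrizableSpace G] [TotallyDisconnectedSpace G] [Nontrivial G]
      [A : MulAction G (AGM.MC (m + n))] [B : MulAction G (AGM.MC n)],
      ContinuousSMul G (AGM.MC (m + n)) → ContinuousSMul G (AGM.MC n) →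
      (∀ (g : G) (x : AGM.MC (m + n)), g • x = x → g = 1) →
      (∀ (g : G) (y : AGM.MC n), g • y = y → g = 1) →
      ¬ ∃ f : AGM.MC (m + n) → AGM.MC n, Continuous f ∧
        ∀ (g : G) x, f (g • x) = g • f x) := by
  intro hcon
  haveI : Fact (Nat.Prime 2) := ⟨Nat.prime_two⟩
  obtain ⟨A, B, hA, hB, hfA, hfB, f, hf, hfe⟩ := agt 2 h2 h3 hY
  exact hcon 1 2 (by norm_num) (by norm_num) (Multiplicative ℤ_[2]) (A := A) (B := B) hA hB hfA hfB
    ⟨f, hf, hfe⟩

end MNG
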