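import Pool.Agent.MNG.AX1
import Pool.Agent.AGM.PAC
import Pool.Agent.AGM.QD1

/-!
# MNG-AX2: the source tower `XD`, the permutations
-/

set_option autoImplicit false

noncomputable section

namespace MNG

open AGM (Ei Bl Sp)
open AGE (actP)
open Set Topology

/-- the data of the source tower -/
def XD (p m : ℕ) [Fact p.Prime] : Dta m where
  D := 2 * m
  N := fun b => p ^ (b + 1)
  G := fun _ => Empty
  M := fun _ => 2 * m + 4
  hN := fun b => ⟨pow_ne_zero _ (Fact.out : p.Prime).ne_zero⟩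
  fG := fun _ => inferInstance
  hM := fun _ => le_rfl
  hD := le_rfl

section Step

variable {V : Type} {N M : ℕ}

/-- the permutation of the next stage -/
def axs (N M : ℕ) (τ : Equiv.Perm V) : Equiv.Perm (IX Empty V N M) :=
  Equiv.sumCongr τ (Equiv.sumCongr (Equiv.refl _)
    (Equiv.prodCongr (Equiv.addRight (1 : ZMod N)) (Equiv.refl _)))

theorem axs_inl (τ : Equiv.Perm V) (v : V) :
    (axs N M τ) (Sum.inl v) = Sum.inl (τ v) := rfl

theorem axs_ep (τ : Equiv.Perm V) (a : ZMod N × Fin M) :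
    (axs N M τ) (Sum.inr (Sum.inr a)) = Sum.inr (Sum.inr (a.1 + 1, a.2)) := rfl

theorem axs_pow_inl (τ : Equiv.Perm V) (k : ℕ) (v : V) :
    (axs N M τ ^ k) (Sum.inl v) = Sum.inl ((τ ^ k) v) := by
  induction k with
  | zero => rfl
  | succ k ih => rw [pow_succ', pow_succ', Equiv.Perm.mul_apply, Equiv.Perm.mul_apply, ih, axs_inl]

theorem axs_pow_ep (τ : Equiv.Perm V) (k : ℕ) (a : ZMod N × Fin M) :
    (axs N M τ ^ k) (Sum.inr (Sum.inr a)) = Sum.inr (Sum.inr (a.1 + k, a.2)) := by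
  induction k with
  | zero =>
    rw [pow_zero, Nat.cast_zero, add_zero]
    rfl
  | succ k ih =>
    rw [pow_succ', Equiv.Perm.mul_apply, ih, axs_ep]
    push_cast
    rw [add_assoc]

theorem axs_order (τ : Equiv.Perm V) (hN : τ ^ N = 1) : axs N M τ ^ N = 1 := by
  ext i
  rcases i with v | ⟨g, v⟩ | a
  · rw [axs_pow_inl, hN]
    rfl
  · exact g.elim
  · rw [axs_pow_ep, ZMod.natCast_self, add_zero]
    rfl

/-- a permutation does not change the dimension -/
theorem ax_dm_act {J : Type} [Fintype J] (τ : Equiv.Perm J) (c : Cl J) : dm (actP τ c) = dm c := by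
  unfold dm
  refine Finset.card_bij (fun j _ => τ.symm j) ?_ ?_ ?_
  · intro j hj
    rw [Finset.mem_filter] at hj ⊢
    exact ⟨Finset.mem_univ _, hj.2⟩
  · intro j _ j' _ h
    exact τ.symm.injective h
  · intro j hj
    rw [Finset.mem_filter] at hj
    refine ⟨τ j, ?_, τ.symm_apply_apply j⟩
    rw [Finset.mem_filter]
    refine ⟨Finset.mem_univ _, ?_⟩
    show c (τ.symm (τ j)) % 2 = 1
    rw [τ.symm_apply_apply]
    exact hj.2

theorem ax_fa_act {J : Type} (τ : Equiv.Perm J) {c d : Cl J} (h : Fa c d) :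
    Fa (actP τ c) (actP τ d) := fun j => h (τ.symm j)

theorem ax_ep_act (τ : Equiv.Perm V) (c : Cl (IX Empty V N M)) (a : ZMod N × Fin M) :
    ep (actP (axs N M τ) c) a = ep c (a.1 - 1, a.2) := by
  rw [sub_eq_add_neg]
  rfl

/-- invariance of the next complex -/
theorem ax_inv_step [Fintype V] [NeZero N] (n D : ℕ) {K : Set (Cl V)} (τ : Equiv.Perm V)
    (hK : ∀ c ∈ K, actP τ c ∈ K) (c : Cl (IX Empty V N M))
    (hc : c ∈ PG (G := Empty) (N := N) (M := M) n D K) :
    actP (axs N M τ) c ∈ PG (G := Empty) (N := N) (M := M) n D K := by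
  obtain ⟨⟨t, ht, h1, h2⟩, h3, h4, ⟨h5, ⟨a, h6⟩, h7⟩, h8⟩ := hc
  have e0 : b0 (actP (axs N M τ) c) = actP τ (b0 c) := rfl
  refine ⟨⟨actP τ t, hK t ht, ?_, fun g => g.elim⟩, ?_, fun g => g.elim, ⟨?_, ?_, ?_⟩, ?_⟩
  · rw [e0]
    exact ax_fa_act τ h1
  · rw [e0, ax_dm_act]
    exact h3
  · intro a
    rw [ax_ep_act]
    exact h5 (a.1 - 1, a.2)
  · refine ⟨(a.1 + 1, a.2), ?_⟩
    rw [ax_ep_act]
    dsimp only
    rw [add_sub_cancel_right]
    exact h6
  · intro k g g' hg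
    rw [ax_ep_act, ax_ep_act]
    exact h7 k (g - 1) (g' - 1) (fun h => hg (sub_left_injective h))
  · rw [ax_dm_act]
    exact h8

end Step

variable (p m : ℕ) [Fact p.Prime]

/-- the permutations of the coordinates -/
def axp : ∀ b, Equiv.Perm ((XD p m).I b)
  | 0 => 1
  | b + 1 => axs ((XD p m).N b) ((XD p m).M b) (axp b)

theorem axp_order : ∀ b, axp p m b ^ (p ^ b) = 1
  | 0 => by
    show (1 : Equiv.Perm Empty) ^ (p ^ 0) = 1
    rw [one_pow]
  | b + 1 => by
    refine axs_order (axp p m b) ?_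
    show axp p m b ^ (p ^ (b + 1)) = 1
    rw [pow_succ, pow_mul, axp_order b, one_pow]

theorem axp_inv : ∀ b, ∀ c ∈ (XD p m).K b, actP (axp p m b) c ∈ (XD p m).K b
  | 0 => fun _ _ => Set.mem_univ _
  | b + 1 => fun c hc => ax_inv_step m (2 * m) (axp p m b) (axp_inv b) (ca 8 c) hc

theorem axp_i0 (b : ℕ) (v : (XD p m).I b) :
    (axp p m (b + 1)).symm ((XD p m).i0 b v) = (XD p m).i0 b ((axp p m b).symm v) := by
  rw [Equiv.symm_apply_eq]
  show (XD p m).i0 b v = (XD p m).i0 b ((axp p m b) ((axp p m b).symm v))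
  rw [Equiv.apply_symm_apply]

/-- bodies -/
theorem ax_bo_act {J : Type} (τ : Equiv.Perm J) {c : Cl J} {x : J → ℝ} (h : x ∈ bo c) :
    actP τ x ∈ bo (actP τ c) := fun j => h (τ.symm j)

theorem ax_lim_inv : ∀ z ∈ (XD p m).Lim, (fun k => actP (axp p m k) (z k)) ∈ (XD p m).Lim := by
  intro z hz k
  refine ⟨?_, ?_⟩
  · obtain ⟨c, hc, hx⟩ := (hz k).1
    exact ⟨actP (axp p m k) c, axp_inv p m k c hc, ax_bo_act _ hx⟩
  · funext v
    show z (k + 1) ((axp p m (k + 1)).symm ((XD p m).i0 k v)) / 8 = z k ((axp p m k).symm v)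
    rw [axp_i0, ← (hz k).2]
    rfl

end MNG
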