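import Pool.Agent.MNG.AY1

/-!
# MNG-AY6: the limits are homeomorphic

`x ∈ A.Lim ↦ y`, `y k j = x k v` if `j = ι k v`, and `0` if `j` is not in the range of `ι k`
(`Function.extend (ι k) (x k) 0`); inverse `y ↦ (fun k v => y k (ι k v))`. `rep_body` for the bodies;
`y (k + 1) (e k j) = 8 y k j`: for `j = ι k v` by `A.pr`, otherwise both sides are `0` (`h4`). Continuity:
coordinatewise.
-/

set_option autoImplicit false

noncomputable section

namespace MNG

open AGE (Cube Closed Grd Body JJ blk PP EE)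
open AGM (PPf Clm Yx)
open Set Topology

theorem ay_homeo {n : ℕ} {J : ℕ → Type} [∀ k, LinearOrder (J k)]
    {T : ∀ k, Set (Cube (J k))} {e : ∀ k, J k → J (k + 1)} (A : Dta n) (ι : ∀ k, A.I k → J k)
    (h1 : ∀ k, Function.Injective (ι k)) (h2 : ∀ k, Rep (ι k) (T k) (A.K k))
    (h3 : ∀ k v, ι (k + 1) (A.i0 k v) = e k (ι k v))
    (h4 : ∀ k j, e k j ∈ range (ι (k + 1)) → j ∈ range (ι k)) :
    Nonempty (A.Lim ≃ₜ Yx J T e) := by
  have he : ∀ (x : ∀ k, A.I k → ℝ) k v,
      Function.extend (ι k) (x k) (0 : J k → ℝ) (ι k v) = x k v := fun x k v =>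
    (h1 k).extend_apply _ _ v
  have he' : ∀ (x : ∀ k, A.I k → ℝ) k j, j ∉ range (ι k) →
      Function.extend (ι k) (x k) (0 : J k → ℝ) j = 0 := fun x k j hj =>
    Function.extend_apply' _ _ j (fun ⟨v, hv⟩ => hj ⟨v, hv⟩)
  have hto : ∀ x : A.Lim, (fun k => Function.extend (ι k) (x.1 k) (0 : J k → ℝ)) ∈ Yx J T e := by
    intro x k
    refine ⟨(rep_body (h1 k) (h2 k) _).2 ⟨he' x.1 k, ?_⟩, ?_⟩
    · have h5 : (fun v => Function.extend (ι k) (x.1 k) (0 : J k → ℝ) (ι k v)) = x.1 k := by
        funext v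
        exact he x.1 k v
      rw [h5]
      exact (x.2 k).1
    · intro j
      show Function.extend (ι (k + 1)) (x.1 (k + 1)) (0 : J (k + 1) → ℝ) (e k j) =
        8 * Function.extend (ι k) (x.1 k) (0 : J k → ℝ) j
      by_cases hj : j ∈ range (ι k)
      · obtain ⟨v, rfl⟩ := hj
        rw [← h3, he, he]
        have h5 : A.pr k (x.1 (k + 1)) v = x.1 k v := by rw [(x.2 k).2]
        have h6 : x.1 (k + 1) (A.i0 k v) / 8 = x.1 k v := h5
        linarith
      · have h5 : e k j ∉ range (ι (k + 1)) := fun h => hj (h4 k j h)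
        rw [he' _ _ _ hj, he' _ _ _ h5, mul_zero]
  have hinv : ∀ y : Yx J T e, (fun k v => y.1 k (ι k v)) ∈ A.Lim := by
    intro y k
    refine ⟨((rep_body (h1 k) (h2 k) _).1 (y.2 k).1).2, ?_⟩
    funext v
    show y.1 (k + 1) (ι (k + 1) (A.i0 k v)) / 8 = y.1 k (ι k v)
    rw [h3, (y.2 k).2]
    ring
  refine ⟨{ toFun := fun x => ⟨_, hto x⟩
            invFun := fun y => ⟨_, hinv y⟩
            left_inv := ?_
            right_inv := ?_
            continuous_toFun := ?_
            continuous_invFun := ?_ }⟩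
  · intro x
    refine Subtype.ext ?_
    funext k v
    exact he x.1 k v
  · intro y
    refine Subtype.ext ?_
    funext k j
    show Function.extend (ι k) (fun v => y.1 k (ι k v)) (0 : J k → ℝ) j = y.1 k j
    by_cases hj : j ∈ range (ι k)
    · obtain ⟨v, rfl⟩ := hj
      exact (h1 k).extend_apply _ _ v
    · rw [Function.extend_apply' _ _ j (fun ⟨v, hv⟩ => hj ⟨v, hv⟩),
        ((rep_body (h1 k) (h2 k) _).1 (y.2 k).1).1 j hj]
      rfl
  · refine Continuous.subtype_mk ?_ _
    refine continuous_pi fun k => continuous_pi fun j => ?_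
    by_cases hj : j ∈ range (ι k)
    · obtain ⟨v, rfl⟩ := hj
      have h5 : (fun x : A.Lim => Function.extend (ι k) (x.1 k) (0 : J k → ℝ) (ι k v)) =
          fun x : A.Lim => x.1 k v := by
        funext x
        exact he x.1 k v
      rw [h5]
      exact (continuous_apply v).comp ((continuous_apply k).comp continuous_subtype_val)
    · have h5 : (fun x : A.Lim => Function.extend (ι k) (x.1 k) (0 : J k → ℝ) j) =
          fun _ => 0 := by
        funext x
        exact he' x.1 k j hj
      rw [h5]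
      exact continuous_const
  · refine Continuous.subtype_mk ?_ _
    refine continuous_pi fun k => continuous_pi fun v => ?_
    exact (continuous_apply (ι k v)).comp ((continuous_apply k).comp continuous_subtype_val)

end MNG
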