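import Pool.Agent.MNG.AY5
import Pool.Agent.MNG.AY6

/-!
# MNG-AY: the target space of AGM is the limit of the tower of a datum
-/

set_option autoImplicit false

noncomputable section

namespace MNG

open AGE (Cube)
open AGM (Yx)
open Set Topology

theorem ay {n : ℕ} (hn : n ≤ 2) {J : ℕ → Type} [∀ k, LinearOrder (J k)]
    {T : ∀ k, Set (Cube (J k))} {e : ∀ k, J k → J (k + 1)} (h0 : IsEmpty (J 0))
    (hT : ∀ Q : Cube (J 0), Q ∈ T 0) (hN : ∀ k, Nxt n (T k) (T (k + 1)) (e k)) :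
    ∃ A : Dta n, Nonempty (A.Lim ≃ₜ Yx J T e) := by
  obtain ⟨A, ι, h1, h2, h3, h4⟩ := ay_seq hn h0 hT hN
  exact ⟨A, ay_homeo A ι h1 h2 h3 h4⟩

theorem y_dict {n : ℕ} (hn : n ≤ 2) {J : ℕ → Type} [∀ k, LinearOrder (J k)]
    {T : ∀ k, Set (AGE.Cube (J k))} {e : ∀ k, J k → J (k + 1)} (h0 : IsEmpty (J 0))
    (hT0 : T 0 = {AGE.pt fun _ => 0}) (hx : ∀ k, Nxt n (T k) (T (k + 1)) (e k)) :
    ∃ A : Dta n, Nonempty (A.Lim ≃ₜ AGM.Yx J T e) := by
  refine ay hn h0 (fun Q => ?_) hx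
  rw [hT0, Set.mem_singleton_iff]
  cases Q with
  | mk lo fr =>
    have h1 : lo = fun _ => 0 := funext fun j => (h0.false j).elim
    have h2 : fr = ∅ := Finset.eq_empty_of_isEmpty fr
    rw [h1, h2]
    rfl

end MNG
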