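import Pool.Agent.MNG.AGD
import Pool.Agent.MNG.T1b

/-!
# MNG-AY1: the dictionary between elementary cubes and cells

`clQ Q j = 2 lo j (+ 1 if j is free)`. Everything is coordinatewise. `clq_ex`: the cube with
`lo (ι v) = c v / 2`, `ι v` free iff `c v` is odd, zero outside of the range of `ι`
(`V` is finite, so the set of the free coordinates is a finset).
`rep_body`: a point `x` of the body of `Q ∈ T` is zero outside of the range; conversely take the
cube `Q` of the carrier cell with `clq_ex`.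
-/

set_option autoImplicit false

noncomputable section

namespace MNG

open AGE (Cube Closed Grd Body JJ blk PP EE)
open AGM (PPf Clm Yx)
open Set Topology

variable {J V : Type} [LinearOrder J]

private theorem ay1_cases (Q : Cube J) (j : J) :
    (j ∈ Q.fr ∧ clQ Q j = 2 * Q.lo j + 1 ∧ Q.hi j = Q.lo j + 1) ∨
      (j ∉ Q.fr ∧ clQ Q j = 2 * Q.lo j ∧ Q.hi j = Q.lo j) := by
  by_cases h : j ∈ Q.fr
  · left
    refine ⟨h, ?_, ?_⟩
    · simp only [clQ, h, if_true]
    · simp only [Cube.hi, h, if_true]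
  · right
    refine ⟨h, ?_, ?_⟩
    · simp only [clQ, h, if_false, add_zero]
    · simp only [Cube.hi, h, if_false]

theorem clq_le {Q P : Cube J} : Q.Le P ↔ Fa (clQ Q) (clQ P) := by
  refine forall_congr' fun j => ?_
  unfold fc
  rcases ay1_cases Q j with ⟨-, h1, h2⟩ | ⟨-, h1, h2⟩ <;>
    rcases ay1_cases P j with ⟨-, h3, h4⟩ | ⟨-, h3, h4⟩ <;>
    rw [h1, h2, h3, h4] <;> omega

theorem clq_body {Q : Cube J} {x : J → ℝ} : x ∈ Q.body ↔ x ∈ bo (clQ Q) := by
  refine forall_congr' fun j => ?_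
  rcases ay1_cases Q j with ⟨-, h1, h2⟩ | ⟨-, h1, h2⟩
  · have e : (2 * Q.lo j + 1) % 2 = 1 := by omega
    rw [h1, h2, e, abs_le]
    push_cast
    constructor
    · rintro ⟨h3, h4⟩
      constructor <;> linarith
    · rintro ⟨h3, h4⟩
      constructor <;> linarith
  · have e : (2 * Q.lo j) % 2 = 0 := by omega
    rw [h1, h2, e, Int.cast_zero, abs_le]
    push_cast
    constructor
    · rintro ⟨h3, h4⟩
      constructor <;> linarith
    · rintro ⟨h3, h4⟩
      constructor <;> linarith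

theorem clq_inj {Q P : Cube J} (h : clQ Q = clQ P) : Q = P := by
  apply AGE.Cube.ext
  · funext j
    have h1 := congrFun h j
    rcases ay1_cases Q j with ⟨-, h2, -⟩ | ⟨-, h2, -⟩ <;>
      rcases ay1_cases P j with ⟨-, h3, -⟩ | ⟨-, h3, -⟩ <;>
      rw [h2, h3] at h1 <;> omega
  · ext j
    have h1 := congrFun h j
    rcases ay1_cases Q j with ⟨h4, h2, -⟩ | ⟨h4, h2, -⟩ <;>
      rcases ay1_cases P j with ⟨h5, h3, -⟩ | ⟨h5, h3, -⟩
    · exact ⟨fun _ => h5, fun _ => h4⟩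
    · rw [h2, h3] at h1
      omega
    · rw [h2, h3] at h1
      omega
    · exact ⟨fun h6 => absurd h6 h4, fun h6 => absurd h6 h5⟩

theorem clq_zero {Q : Cube J} {j : J} : clQ Q j = 0 ↔ Q.lo j = 0 ∧ j ∉ Q.fr := by
  rcases ay1_cases Q j with ⟨h1, h2, -⟩ | ⟨h1, h2, -⟩
  · rw [h2]
    constructor
    · intro h3
      omega
    · rintro ⟨-, h3⟩
      exact absurd h1 h3
  · rw [h2]
    constructor
    · intro h3
      exact ⟨by omega, h1⟩
    · rintro ⟨h3, -⟩
      omega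

theorem clq_lo (Q : Cube J) (j : J) : Q.lo j = clQ Q j / 2 := by
  rcases ay1_cases Q j with ⟨-, h2, -⟩ | ⟨-, h2, -⟩ <;> rw [h2] <;> omega

theorem clq_hi (Q : Cube J) (j : J) : Q.hi j = (clQ Q j + 1) / 2 := by
  rcases ay1_cases Q j with ⟨-, h2, h3⟩ | ⟨-, h2, h3⟩ <;> rw [h2, h3] <;> omega

theorem clq_fr (Q : Cube J) (j : J) : j ∈ Q.fr ↔ clQ Q j % 2 = 1 := by
  rcases ay1_cases Q j with ⟨h1, h2, -⟩ | ⟨h1, h2, -⟩
  · rw [h2]
    exact ⟨fun _ => by omega, fun _ => h1⟩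
  · rw [h2]
    exact ⟨fun h3 => absurd h3 h1, fun h3 => by omega⟩

theorem clq_dim [Fintype V] {ι : V → J} (hι : Function.Injective ι) {Q : Cube J}
    (h : ∀ j, j ∉ range ι → j ∉ Q.fr) : dm (fun v => clQ Q (ι v)) = Q.dim := by
  have e : (Finset.univ.filter (fun v => clQ Q (ι v) % 2 = 1)).image ι = Q.fr := by
    ext j
    rw [Finset.mem_image]
    constructor
    · rintro ⟨v, hv, rfl⟩
      exact (clq_fr Q (ι v)).2 (Finset.mem_filter.1 hv).2
    · intro hj
      by_cases hr : j ∈ range ι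
      · obtain ⟨v, rfl⟩ := hr
        exact ⟨v, Finset.mem_filter.2 ⟨Finset.mem_univ _, (clq_fr Q (ι v)).1 hj⟩, rfl⟩
      · exact absurd hj (h j hr)
  show (Finset.univ.filter (fun v => clQ Q (ι v) % 2 = 1)).card = Q.fr.card
  rw [← e, Finset.card_image_of_injective _ hι]

theorem clq_ex [Fintype V] {ι : V → J} (hι : Function.Injective ι) (c : Cl V) :
    ∃ Q : Cube J, (∀ j, j ∉ range ι → Q.lo j = 0 ∧ j ∉ Q.fr) ∧ (fun v => clQ Q (ι v)) = c := by
  classical
  refine ⟨⟨fun j => if h : ∃ v, ι v = j then c h.choose / 2 else 0,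
    (Finset.univ.filter (fun v => c v % 2 = 1)).image ι⟩, ?_, ?_⟩
  · intro j hj
    have h1 : ¬ ∃ v, ι v = j := hj
    refine ⟨dif_neg h1, fun h2 => ?_⟩
    obtain ⟨v, -, hv⟩ := Finset.mem_image.1 h2
    exact hj ⟨v, hv⟩
  · funext v
    have h1 : ∃ w, ι w = ι v := ⟨v, rfl⟩
    have h2 : h1.choose = v := hι h1.choose_spec
    have h3 : (if h : ∃ w, ι w = ι v then c h.choose / 2 else 0) = c v / 2 := by
      rw [dif_pos h1, h2]
    have h4 : ι v ∈ (Finset.univ.filter (fun v => c v % 2 = 1)).image ι ↔ c v % 2 = 1 := by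
      rw [Finset.mem_image]
      constructor
      · rintro ⟨w, hw, hwv⟩
        rw [hι hwv] at hw
        exact (Finset.mem_filter.1 hw).2
      · intro h5
        exact ⟨v, Finset.mem_filter.2 ⟨Finset.mem_univ _, h5⟩, rfl⟩
    rcases ay1_cases (⟨fun j => if h : ∃ v, ι v = j then c h.choose / 2 else 0,
      (Finset.univ.filter (fun v => c v % 2 = 1)).image ι⟩ : Cube J) (ι v) with
      ⟨h5, h6, -⟩ | ⟨h5, h6, -⟩
    · rw [h6]
      have h7 := h4.1 h5
      show 2 * (if h : ∃ w, ι w = ι v then c h.choose / 2 else 0) + 1 = c v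
      rw [h3]
      omega
    · rw [h6]
      have h7 : ¬ c v % 2 = 1 := fun h8 => h5 (h4.2 h8)
      show 2 * (if h : ∃ w, ι w = ι v then c h.choose / 2 else 0) = c v
      rw [h3]
      omega

theorem rep_body [Fintype V] {ι : V → J} (hι : Function.Injective ι) {T : Set (Cube J)}
    {K : Set (Cl V)} (h : Rep ι T K) (x : J → ℝ) :
    x ∈ Body T ↔ (∀ j, j ∉ range ι → x j = 0) ∧ (fun v => x (ι v)) ∈ Bo K := by
  constructor
  · rintro ⟨Q, hQ, hx⟩
    obtain ⟨h1, h2⟩ := (h Q).1 hQ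
    refine ⟨fun j hj => ?_, ⟨_, h2, fun v => ?_⟩⟩
    · obtain ⟨h3, h4⟩ := h1 j hj
      obtain ⟨h5, h6⟩ := hx j
      rcases ay1_cases Q j with ⟨h7, -, -⟩ | ⟨-, -, h8⟩
      · exact absurd h7 h4
      · rw [h8] at h6
        rw [h3] at h5 h6
        rw [Int.cast_zero] at h5 h6
        exact le_antisymm h6 h5
    · exact (clq_body.1 hx) (ι v)
  · rintro ⟨h1, c, hc, hx⟩
    obtain ⟨Q, hQ1, hQ2⟩ := clq_ex hι c
    refine ⟨Q, (h Q).2 ⟨hQ1, by rw [hQ2]; exact hc⟩, clq_body.2 fun j => ?_⟩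
    by_cases hj : j ∈ range ι
    · obtain ⟨v, rfl⟩ := hj
      have h2 := hx v
      rw [← hQ2] at h2
      exact h2
    · have h2 := clq_zero.2 (hQ1 j hj)
      rw [h2, h1 j hj]
      simp

end MNG
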