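import Pool.Agent.MNG.AY1
import Pool.Agent.MNG.C4

/-!
# MNG-AY2: the dictionary for subdivisions and for bijections of the coordinates

Everything is coordinatewise: `Q.InM 8 P` means that the carrier `ca1 8 (clQ Q j)` is a face of `clQ P j`.
-/

set_option autoImplicit false

noncomputable section

namespace MNG

open AGE (Cube Closed Grd Body JJ blk PP EE)
open AGM (PPf Clm Yx)
open Set Topology

variable {J J' V : Type} [LinearOrder J] [LinearOrder J']

theorem clq_inm {Q P : Cube J} : Q.InM 8 P ↔ Fa (ca 8 (clQ Q)) (clQ P) := by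
  have h : ∀ j, ((((8 : ℕ) : ℤ) * P.lo j ≤ Q.lo j ∧ Q.hi j ≤ ((8 : ℕ) : ℤ) * P.hi j) ↔
      fc (ca1 8 (clQ Q j)) (clQ P j)) := by
    intro j
    rw [clq_lo Q j, clq_lo P j, clq_hi Q j, clq_hi P j, ca1_eq]
    generalize clQ Q j = z
    generalize clQ P j = p
    unfold fc
    push_cast
    split_ifs <;> omega
  exact forall_congr' h

theorem rep_grd [Fintype V] {ι : V → J} (hι : Function.Injective ι) {T : Set (Cube J)}
    {K : Set (Cl V)} (hK : Clo K) (h : Rep ι T K) : Rep ι (Grd 8 T) (Gr 8 K) := by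
  intro Q
  constructor
  · rintro ⟨P, hP, hQP⟩
    obtain ⟨h1, h2⟩ := (h P).1 hP
    refine ⟨fun j hj => ?_, hK _ h2 _ fun v => (clq_inm.1 hQP) (ι v)⟩
    have h3 : clQ P j = 0 := clq_zero.2 (h1 j hj)
    have h4 := (clq_inm.1 hQP) j
    rw [h3] at h4
    have h5 : ca1 8 (clQ Q j) = 0 := fc_even h4 (by norm_num)
    rw [ca1_eq] at h5
    refine clq_zero.1 ?_
    split_ifs at h5 <;> omega
  · rintro ⟨h1, h2⟩
    obtain ⟨P, hP1, hP2⟩ := clq_ex hι (ca 8 (fun v => clQ Q (ι v)))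
    have hP : P ∈ T := (h P).2 ⟨hP1, by rw [hP2]; exact h2⟩
    refine ⟨P, hP, clq_inm.2 fun j => ?_⟩
    by_cases hj : j ∈ range ι
    · obtain ⟨v, rfl⟩ := hj
      left
      exact (congrFun hP2 v).symm
    · left
      have h3 : clQ P j = 0 := clq_zero.2 (hP1 j hj)
      have h4 : clQ Q j = 0 := clq_zero.2 (h1 j hj)
      change ca1 8 (clQ Q j) = clQ P j
      rw [h3, h4, ca1_eq]
      norm_num

theorem rep_equiv (φ : J' ≃ J) {ι : V → J} {T : Set (Cube J)} {T' : Set (Cube J')}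
    {K : Set (Cl V)} (h : Rep ι T K)
    (hT : ∀ Q : Cube J', Q ∈ T' ↔
      (⟨fun x => Q.lo (φ.symm x), Q.fr.map φ.toEmbedding⟩ : Cube J) ∈ T) :
    Rep (fun v => φ.symm (ι v)) T' K := by
  intro Q
  have hm : ∀ x : J, x ∈ Q.fr.map φ.toEmbedding ↔ φ.symm x ∈ Q.fr := by
    intro x
    rw [Finset.mem_map_equiv]
  have hc : clQ (⟨fun x => Q.lo (φ.symm x), Q.fr.map φ.toEmbedding⟩ : Cube J) =
      fun x => clQ Q (φ.symm x) := by
    funext x
    unfold clQ
    by_cases hx : φ.symm x ∈ Q.fr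
    · rw [if_pos ((hm x).2 hx), if_pos hx]
    · rw [if_neg (fun h1 => hx ((hm x).1 h1)), if_neg hx]
  rw [hT, h, hc]
  refine and_congr_left fun _ => ?_
  constructor
  · intro h1 j hj
    have h2 := h1 (φ j) (fun ⟨v, hv⟩ => hj ⟨v, by
      change φ.symm (ι v) = j
      rw [hv, φ.symm_apply_apply]⟩)
    refine ⟨?_, fun h3 => h2.2 ?_⟩
    · have h4 : Q.lo (φ.symm (φ j)) = 0 := h2.1
      rwa [φ.symm_apply_apply] at h4
    · rw [hm, φ.symm_apply_apply]
      exact h3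
  · intro h1 x hx
    have h2 := h1 (φ.symm x) (fun ⟨v, hv⟩ => hx ⟨v, φ.symm.injective hv⟩)
    exact ⟨h2.1, fun h3 => h2.2 ((hm x).1 h3)⟩

end MNG
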