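import Pool.Agent.MNG.AY1
import Pool.Agent.MNG.AG2

/-!
# MNG-AY3: the dictionary for the complex `PPf`

`Q ∈ PPf M n T`: all blocks `blk g Q` are faces of one cube `t ∈ T` (so they are zero outside of the
range of `ι`), the columns `k ≥ M` are zero (`Clm`), so `Q` is zero outside of the range of `ioP ι`.
With `c v = clQ Q (ioP ι v)`: `b0 c`, `bg g c` are the cells of the blocks `0`, `g` (`clq_le`, `clq_dim`,
`clq_ex` for `t`), `ep c ∈ EC N (Fin M)` iff `EE Q` (`0 ≤ lo`, `hi ≤ 1` iff `0 ≤ c ≤ 2`; `lo = 1` iff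
`c = 2`; `hi = 1` iff `c ≠ 0`, given the range; the finiteness in `EE` holds by `Clm`),
`dm c = Q.dim` (`clq_dim` for `ioP ι`).
-/

set_option autoImplicit false

noncomputable section

namespace MNG

open AGE (Cube Closed Grd Body JJ blk PP EE)
open AGM (PPf Clm Yx)
open Set Topology

variable {J V : Type} [LinearOrder J] {N M : ℕ} [NeZero N]

/-- the coordinates of the next complex -/
def ioP (ι : V → J) : IX {g : ZMod N // g ≠ 0} V N M → JJ N J
  | Sum.inl v => .a 0 (ι v)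
  | Sum.inr (Sum.inl (g, v)) => .a g.1 (ι v)
  | Sum.inr (Sum.inr (g, k)) => .e g k.1

theorem iop_inj {ι : V → J} (hι : Function.Injective ι) :
    Function.Injective (ioP (N := N) (M := M) ι) := by
  intro x y h
  rcases x with v | (⟨g, v⟩ | ⟨g, k⟩) <;> rcases y with v' | (⟨g', v'⟩ | ⟨g', k'⟩)
  · have h1 : (JJ.a 0 (ι v) : JJ N J) = JJ.a 0 (ι v') := h
    rw [JJ.a.injEq] at h1
    rw [hι h1.2]
  · have h1 : (JJ.a 0 (ι v) : JJ N J) = JJ.a g'.1 (ι v') := h
    rw [JJ.a.injEq] at h1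
    exact absurd h1.1.symm g'.2
  · have h1 : (JJ.a 0 (ι v) : JJ N J) = JJ.e g' k'.1 := h
    exact absurd h1 (by simp)
  · have h1 : (JJ.a g.1 (ι v) : JJ N J) = JJ.a 0 (ι v') := h
    rw [JJ.a.injEq] at h1
    exact absurd h1.1 g.2
  · have h1 : (JJ.a g.1 (ι v) : JJ N J) = JJ.a g'.1 (ι v') := h
    rw [JJ.a.injEq] at h1
    rw [hι h1.2, Subtype.ext h1.1]
  · have h1 : (JJ.a g.1 (ι v) : JJ N J) = JJ.e g' k'.1 := h
    exact absurd h1 (by simp)
  · have h1 : (JJ.e g k.1 : JJ N J) = JJ.a 0 (ι v') := h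
    exact absurd h1 (by simp)
  · have h1 : (JJ.e g k.1 : JJ N J) = JJ.a g'.1 (ι v') := h
    exact absurd h1 (by simp)
  · have h1 : (JJ.e g k.1 : JJ N J) = JJ.e g' k'.1 := h
    rw [JJ.e.injEq] at h1
    rw [h1.1, Fin.ext h1.2]

omit [LinearOrder J] in
private theorem ay3_ra (ι : V → J) (g : ZMod N) (j : J) :
    (JJ.a g j : JJ N J) ∈ range (ioP (N := N) (M := M) ι) ↔ j ∈ range ι := by
  constructor
  · rintro ⟨x, hx⟩
    rcases x with v | (⟨g', v⟩ | ⟨g', k⟩)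
    · have h1 : (JJ.a 0 (ι v) : JJ N J) = JJ.a g j := hx
      rw [JJ.a.injEq] at h1
      exact ⟨v, h1.2⟩
    · have h1 : (JJ.a g'.1 (ι v) : JJ N J) = JJ.a g j := hx
      rw [JJ.a.injEq] at h1
      exact ⟨v, h1.2⟩
    · have h1 : (JJ.e g' k.1 : JJ N J) = JJ.a g j := hx
      exact absurd h1 (by simp)
  · rintro ⟨v, rfl⟩
    by_cases hg : g = 0
    · exact ⟨Sum.inl v, by rw [hg]; rfl⟩
    · exact ⟨Sum.inr (Sum.inl (⟨g, hg⟩, v)), rfl⟩

omit [LinearOrder J] in
private theorem ay3_re (ι : V → J) (g : ZMod N) (k : ℕ) :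
    (JJ.e g k : JJ N J) ∈ range (ioP (N := N) (M := M) ι) ↔ k < M := by
  constructor
  · rintro ⟨x, hx⟩
    rcases x with v | (⟨g', v⟩ | ⟨g', k'⟩)
    · have h1 : (JJ.a 0 (ι v) : JJ N J) = JJ.e g k := hx
      exact absurd h1 (by simp)
    · have h1 : (JJ.a g'.1 (ι v) : JJ N J) = JJ.e g k := hx
      exact absurd h1 (by simp)
    · have h1 : (JJ.e g' k'.1 : JJ N J) = JJ.e g k := hx
      rw [JJ.e.injEq] at h1
      rw [← h1.2]
      exact k'.2
  · intro h
    exact ⟨Sum.inr (Sum.inr (g, ⟨k, h⟩)), rfl⟩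

private theorem ay3_blk (Q : Cube (JJ N J)) (g : ZMod N) (j : J) :
    clQ (blk g Q) j = clQ Q (JJ.a g j) := by
  have hf : InjOn (JJ.a g : J → JJ N J) (JJ.a g ⁻¹' ↑Q.fr) := fun _ _ _ _ h => by
    simpa using h
  have h1 : j ∈ (blk g Q).fr ↔ JJ.a g j ∈ Q.fr := Finset.mem_preimage (hf := hf)
  have h2 : (blk g Q).lo j = Q.lo (JJ.a g j) := rfl
  unfold clQ
  rw [h2]
  by_cases h : JJ.a g j ∈ Q.fr
  · rw [if_pos h, if_pos (h1.2 h)]
  · rw [if_neg h, if_neg (fun h3 => h (h1.1 h3))]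

private theorem ay3_z (Q : Cube (JJ N J)) (g : ZMod N) (j : J)
    (h : Q.lo (JJ.a g j) = 0 ∧ JJ.a g j ∉ Q.fr) : clQ (blk g Q) j = 0 := by
  rw [ay3_blk, clq_zero]
  exact h

private theorem ay3_fr {Q : Cube (JJ N J)} {g : ZMod N} {j : J}
    (h : clQ (blk g Q) j = 0) : Q.lo (JJ.a g j) = 0 ∧ JJ.a g j ∉ Q.fr := by
  rw [ay3_blk, clq_zero] at h
  exact h

theorem rep_ppf [Fintype V] {ι : V → J} (hι : Function.Injective ι) {T : Set (Cube J)}
    {K : Set (Cl V)} (hK : Clo K) (h : Rep ι T K) (n : ℕ) :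
    Rep (ioP (N := N) (M := M) ι) (PPf (N := N) M n T)
      (PG n (n + 2) K : Set (Cl (IX {g : ZMod N // g ≠ 0} V N M))) := by
  intro Q
  have hinj := iop_inj (N := N) (M := M) hι
  constructor
  · rintro ⟨⟨t, ht, hb, hE, hd⟩, hC⟩
    have htT := (h t).1 ht
    have hle : ∀ g, Fa (clQ (blk g Q)) (clQ t) := fun g => clq_le.1 (hb g).1
    have hz : ∀ g, ∀ j, j ∉ range ι → clQ (blk g Q) j = 0 := by
      intro g j hj
      have h1 := hle g j
      rw [clq_zero.2 (htT.1 j hj)] at h1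
      unfold fc at h1
      omega
    have hout : ∀ j, j ∉ range (ioP (N := N) (M := M) ι) → Q.lo j = 0 ∧ j ∉ Q.fr := by
      intro j hj
      rcases j with ⟨g, j⟩ | ⟨g, k⟩
      · rw [ay3_ra] at hj
        exact ay3_fr (hz g j hj)
      · rw [ay3_re] at hj
        exact hC g k (not_lt.1 hj)
    have hbd : ∀ g, dm (fun v => clQ (blk g Q) (ι v)) ≤ n := by
      intro g
      rw [clq_dim hι (fun j hj => (clq_zero.1 (hz g j hj)).2)]
      exact (hb g).2
    refine ⟨hout, ⟨fun v => clQ t (ι v), htT.2, fun v => ?_, fun g v => ?_⟩, ?_, fun g => ?_,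
      ⟨?_, ?_, ?_⟩, ?_⟩
    · have h1 := hle 0 (ι v)
      rw [ay3_blk] at h1
      exact h1
    · have h1 := hle g.1 (ι v)
      rw [ay3_blk] at h1
      exact h1
    · have h1 := hbd 0
      have h2 : (fun v => clQ (blk 0 Q) (ι v)) = fun v => clQ Q (JJ.a 0 (ι v)) :=
        funext fun v => ay3_blk Q 0 (ι v)
      rw [h2] at h1
      exact h1
    · have h1 := hbd g.1
      have h2 : (fun v => clQ (blk g.1 Q) (ι v)) = fun v => clQ Q (JJ.a g.1 (ι v)) :=
        funext fun v => ay3_blk Q g.1 (ι v)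
      rw [h2] at h1
      exact h1
    · rintro ⟨g, k⟩
      show 0 ≤ clQ Q (JJ.e g k.1) ∧ clQ Q (JJ.e g k.1) ≤ 2
      have h1 := hE.rng g k.1
      rw [clq_lo, clq_hi] at h1
      omega
    · obtain ⟨g, k, h1⟩ := hE.one
      have hk : k < M := by
        by_contra hk
        rw [(hC g k (not_lt.1 hk)).1] at h1
        exact absurd h1 (by norm_num)
      refine ⟨(g, ⟨k, hk⟩), ?_⟩
      show clQ Q (JJ.e g k) = 2
      have h2 := hE.rng g k
      rw [clq_hi] at h2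
      rw [clq_lo] at h1
      omega
    · intro k g g' hg
      show clQ Q (JJ.e g k.1) = 0 ∨ clQ Q (JJ.e g' k.1) = 0
      by_contra hne
      rw [not_or] at hne
      have h1 := hE.rng g k.1
      have h2 := hE.rng g' k.1
      have h3 := hE.col k.1 g g'
      rw [clq_lo, clq_hi] at h1 h2
      rw [clq_hi, clq_hi] at h3
      exact hg (h3 (by omega) (by omega))
    · rw [clq_dim hinj (fun j hj => (hout j hj).2)]
      exact hd
  · rintro ⟨hout, ⟨t', ht', hb0, hbg⟩, hd0, hdg, ⟨hE1, hE2, hE3⟩, hd⟩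
    obtain ⟨t, ht0, ht1⟩ := clq_ex hι t'
    have htT : t ∈ T := by
      rw [h t, ht1]
      exact ⟨ht0, ht'⟩
    have hz : ∀ g, ∀ j, j ∉ range ι → clQ (blk g Q) j = 0 := fun g j hj =>
      ay3_z Q g j (hout _ (by rw [ay3_ra]; exact hj))
    have hle : ∀ g, (blk g Q).Le t := by
      intro g
      rw [clq_le]
      intro j
      by_cases hj : j ∈ range ι
      · obtain ⟨v, rfl⟩ := hj
        have e1 : clQ t (ι v) = t' v := congrFun ht1 v
        rw [e1, ay3_blk]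
        by_cases hg : g = 0
        · rw [hg]
          exact hb0 v
        · exact hbg ⟨g, hg⟩ v
      · rw [hz g j hj, clq_zero.2 (ht0 j hj)]
        exact Or.inl rfl
    have hbd : ∀ g, (blk g Q).dim ≤ n := by
      intro g
      rw [← clq_dim hι (fun j hj => (clq_zero.1 (hz g j hj)).2)]
      have h2 : (fun v => clQ (blk g Q) (ι v)) = fun v => clQ Q (JJ.a g (ι v)) :=
        funext fun v => ay3_blk Q g (ι v)
      rw [h2]
      by_cases hg : g = 0
      · rw [hg]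
        exact hd0
      · exact hdg ⟨g, hg⟩
    have hcol : ∀ g k, M ≤ k → Q.lo (JJ.e g k) = 0 ∧ JJ.e g k ∉ Q.fr := fun g k hk =>
      hout _ (by rw [ay3_re]; exact not_lt.2 hk)
    have hcz : ∀ g k, M ≤ k → clQ Q (JJ.e g k) = 0 := fun g k hk => clq_zero.2 (hcol g k hk)
    have hrg : ∀ (g : ZMod N) (k : ℕ), 0 ≤ clQ Q (JJ.e g k) ∧ clQ Q (JJ.e g k) ≤ 2 := by
      intro g k
      by_cases hk : k < M
      · exact hE1 (g, ⟨k, hk⟩)
      · rw [hcz g k (not_lt.1 hk)]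
        norm_num
    refine ⟨⟨t, htT, fun g => ⟨hle g, hbd g⟩, ⟨fun g k => ?_, ?_, ?_, fun k g g' h1 h2 => ?_⟩, ?_⟩,
      hcol⟩
    · have h1 := hrg g k
      rw [clq_lo, clq_hi]
      omega
    · refine ((Set.finite_univ (α := ZMod N)).prod (Set.finite_Iio M)).subset ?_
      rintro ⟨g, k⟩ h1
      refine ⟨Set.mem_univ _, ?_⟩
      have h2 : Q.lo (JJ.e g k) = 1 := h1
      by_contra hk
      rw [(hcol g k (not_lt.1 hk)).1] at h2
      exact absurd h2 (by norm_num)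
    · obtain ⟨⟨g, k⟩, h1⟩ := hE2
      have h2 : clQ Q (JJ.e g k.1) = 2 := h1
      refine ⟨g, k.1, ?_⟩
      rw [clq_lo, h2]
      norm_num
    · by_contra hg
      rw [clq_hi] at h1 h2
      by_cases hk : k < M
      · have h3 : clQ Q (JJ.e g k) = 0 ∨ clQ Q (JJ.e g' k) = 0 := hE3 ⟨k, hk⟩ g g' hg
        omega
      · have h3 := hcz g k (not_lt.1 hk)
        omega
    · have h1 := clq_dim hinj (Q := Q) (fun j hj => (hout j hj).2)
      rw [← h1]
      exact hd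

end MNG
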