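import Pool.Agent.MNG.AY2
import Pool.Agent.MNG.AY3

/-!
# MNG-AY4: the dictionary for one step of the target tower

Composition of `rep_ppf`, `rep_grd` and `rep_equiv`, with `ι' v = φ.symm (ioP ι v)`.
-/

set_option autoImplicit false

noncomputable section

namespace MNG

open AGE (Cube Closed Grd Body JJ blk PP EE)
open AGM (PPf Clm Yx)
open Set Topology

theorem rep_next {n : ℕ} {J J' : Type} [LinearOrder J] [LinearOrder J'] {T : Set (Cube J)}
    {T' : Set (Cube J')} {e : J → J'} (hN : Nxt n T T' e) :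
    ∃ (N : ℕ) (_ : NeZero N) (M : ℕ), 2 * n + 4 ≤ M ∧ ∀ (V : Type) [Fintype V] (ι : V → J),
      Function.Injective ι → ∀ K : Set (Cl V), Cx K → Rep ι T K →
      ∃ ι' : IX {g : ZMod N // g ≠ 0} V N M → J', Function.Injective ι' ∧
        Rep ι' T' (Gr 8 (PG n (n + 2) K : Set (Cl (IX {g : ZMod N // g ≠ 0} V N M)))) ∧
        (∀ v, ι' (Sum.inl v) = e (ι v)) ∧ ∀ j, e j ∈ range ι' → j ∈ range ι := by
  obtain ⟨N, hN0, M, φ, hM, hφ, hT'⟩ := hN
  refine ⟨N, hN0, M, hM, fun V _ ι hι K hK hr => ?_⟩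
  refine ⟨fun v => φ.symm (ioP ι v), φ.symm.injective.comp (iop_inj hι), ?_, ?_, ?_⟩
  · exact rep_equiv φ (rep_grd (iop_inj hι) (pg_cx n (n + 2) hK).clo
      (rep_ppf hι hK.clo hr n)) hT'
  · intro v
    show φ.symm (ioP ι (Sum.inl v)) = e (ι v)
    rw [Equiv.symm_apply_eq, hφ]
    rfl
  · rintro j ⟨v, hv⟩
    have h1 : ioP ι v = JJ.a 0 j := by
      have h2 : φ.symm (ioP ι v) = e j := hv
      rw [Equiv.symm_apply_eq, hφ] at h2
      exact h2
    rcases v with v | ⟨g, v⟩ | ⟨g, k⟩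
    · have h3 : (JJ.a 0 (ι v) : JJ N J) = JJ.a 0 j := h1
      injection h3 with _ h4
      exact ⟨v, h4⟩
    · have h3 : (JJ.a g.1 (ι v) : JJ N J) = JJ.a 0 j := h1
      injection h3 with h4 _
      exact absurd h4 g.2
    · have h3 : (JJ.e g k.1 : JJ N J) = JJ.a 0 j := h1
      exact absurd h3 (fun h => by injection h)

end MNG
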