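import Pool.Agent.MNG.AY4
import Pool.Agent.MNG.AG11

/-!
# MNG-AY5: the target tower of AGM is the tower of a datum

`choose N hN M hM hr using fun k => rep_next (hNxt k)`; `A := ⟨n + 2, N, fun b => {g : ZMod (N b) // g ≠ 0}, M, hN,
inferInstance, hM, _⟩` (`2 n ≤ n + 2`). The injections `ι k : A.I k → J k` by recursion on `k`, as
elements of the subtype of the injective `ι` with `Rep ι (T k) (A.K k)`: start `Empty.elim`, step `hr k`
(closedness: `dta_cx`); `A.I (k + 1)` is `IX (A.G k) (A.I k) (A.N k) (A.M k)` and `A.K (k + 1)` is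
`Gr 8 (PG n A.D (A.K k))` by definition (`stg`, `nxS`).
-/

set_option autoImplicit false

noncomputable section

namespace MNG

open AGE (Cube Closed Grd Body JJ blk PP EE)
open AGM (PPf Clm Yx)
open Set Topology

theorem ay_seq {n : ℕ} (hn : n ≤ 2) {J : ℕ → Type} [∀ k, LinearOrder (J k)]
    {T : ∀ k, Set (Cube (J k))} {e : ∀ k, J k → J (k + 1)} (h0 : IsEmpty (J 0))
    (hT : ∀ Q : Cube (J 0), Q ∈ T 0) (hN : ∀ k, Nxt n (T k) (T (k + 1)) (e k)) :
    ∃ (A : Dta n) (ι : ∀ k, A.I k → J k), (∀ k, Function.Injective (ι k)) ∧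
      (∀ k, Rep (ι k) (T k) (A.K k)) ∧ (∀ k v, ι (k + 1) (A.i0 k v) = e k (ι k v)) ∧
      ∀ k j, e k j ∈ range (ι (k + 1)) → j ∈ range (ι k) := by
  choose N iN M hM hr using fun k => rep_next (hN k)
  let A : Dta n := ⟨n + 2, N, fun b => {g : ZMod (N b) // g ≠ 0}, M, iN,
    fun b => haveI := iN b; inferInstance, hM, by omega⟩
  have step : ∀ (k : ℕ) (ι : {ι : A.I k → J k // Function.Injective ι ∧ Rep ι (T k) (A.K k)}),
      ∃ ι' : {ι : A.I (k + 1) → J (k + 1) // Function.Injective ι ∧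
        Rep ι (T (k + 1)) (A.K (k + 1))},
        (∀ v, ι'.1 (A.i0 k v) = e k (ι.1 v)) ∧ ∀ j, e k j ∈ range ι'.1 → j ∈ range ι.1 := by
    intro k ι
    obtain ⟨ι', h1, h2, h3, h4⟩ := hr k (A.I k) ι.1 ι.2.1 (A.K k) (dta_cx A k).1 ι.2.2
    exact ⟨⟨ι', h1, h2⟩, h3, h4⟩
  choose nx hx1 hx2 using step
  have e0 : ∀ x : A.I 0, False := fun x => Empty.elim x
  let ι0 : {ι : A.I 0 → J 0 // Function.Injective ι ∧ Rep ι (T 0) (A.K 0)} :=
    ⟨fun x => (e0 x).elim, fun x => (e0 x).elim, fun Q =>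
      ⟨fun _ => ⟨fun j => (h0.false j).elim, Set.mem_univ _⟩, fun _ => hT Q⟩⟩
  let ιs : ∀ k, {ι : A.I k → J k // Function.Injective ι ∧ Rep ι (T k) (A.K k)} := fun k =>
    Nat.rec ι0 (fun k ι => nx k ι) k
  exact ⟨A, fun k => (ιs k).1, fun k => (ιs k).2.1, fun k => (ιs k).2.2,
    fun k v => hx1 k (ιs k) v, fun k j hj => hx2 k (ιs k) j hj⟩

end MNG
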