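import Pool.Agent.AGM.Defs
import Pool.Agent.AGM.BIG
import Pool.Agent.AGM.LFT
import Pool.Agent.AGE.ASMF
import Pool.Agent.MNG.AGD

/-!
# MNG-SQ: the sequence of states of AGM-SEQ, with the step exposed (helper79)

The module `AGM.SEQ` with a stronger conclusion: the first complex is the point over the empty type, and
for every `k` the complex `T (k + 1)` is, up to a bijection of the coordinates, the complex
`Grd 8 (PPf M n (T k))` over `JJ N (J k)` with `N = p ^ q k` and `2 * n + 4 ≤ M`.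
-/

set_option autoImplicit false

noncomputable section

namespace MNG

open AGE AGM Set Topology

/-- the same state with a larger target -/
private def sqxBig {p n : ℕ} {X : Type} [TopologicalSpace X] {τX : X → X} {q : ℕ} {J : Type}
    [LinearOrder J] {τJ : Equiv.Perm J} (A : St p n X τX q J τJ) (T : Set (Cube J))
    (h1 : T.Finite) (h2 : Closed T) (h3 : Inv τJ T) (h4 : ∀ Q ∈ T, Q.dim ≤ n + 2)
    (h5 : A.T ⊆ T) : St p n X τX q J τJ where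
  V := A.V
  fV := A.fV
  oV := A.oV
  τV := A.τV
  col := A.col
  S := A.S
  hcol := A.hcol
  Ms := A.Ms
  hMs := A.hMs
  κ := A.κ
  hκc := A.hκc
  hκe := A.hκe
  hκb := A.hκb
  hJ := A.hJ
  T := T
  Tfin := h1
  Tclo := h2
  Tinv := h3
  Tdim := h4
  f := A.f
  hf := A.hf
  s := A.s
  sT c hc := h5 (A.sT c hc)
  smon := A.smon
  sequ := A.sequ
  shas := A.shas
  φ := A.φ
  lam := A.lam
  nu := A.nu
  xi := A.xi
  dat := A.dat

private theorem sqx_cnt {N : ℕ} [NeZero N] {J : Type} (h : Countable J) : Countable (JJ N J) := by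
  have hi : Function.Injective (fun x : JJ N J => match x with
      | .a g j => (Sum.inl (g, j) : (ZMod N × J) ⊕ (ZMod N × ℕ))
      | .e g k => Sum.inr (g, k)) := by
    intro x y hxy
    cases x <;> cases y <;> simp_all
  exact hi.countable

private theorem sqx_col {J : Type} [LinearOrder J] {N : ℕ} [NeZero N] (n : ℕ)
    (T : Set (Cube (JJ N J))) (hf : T.Finite) (hT : ∀ Q ∈ T, EE Q) :
    ∃ M : ℕ, 2 * n + 4 ≤ M ∧ ∀ Q ∈ T, Clm M Q := by
  classical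
  have h1 : ∀ Q ∈ T, ∃ M : ℕ, ∀ (g : ZMod N) (k : ℕ), M ≤ k → Q.lo (.e g k) = 0 ∧ JJ.e g k ∉ Q.fr := by
    intro Q hQ
    have h2 : {x : ZMod N × ℕ | JJ.e x.1 x.2 ∈ Q.fr}.Finite := by
      refine Set.Finite.preimage ?_ Q.fr.finite_toSet
      rintro ⟨g, k⟩ _ ⟨g', k'⟩ _ h
      have h' : (JJ.e g k : JJ N J) = JJ.e g' k' := h
      rw [JJ.e.injEq] at h'
      rw [h'.1, h'.2]
    have h3 := ((hT Q hQ).fin.union h2).image Prod.snd
    obtain ⟨M, hM⟩ := h3.bddAbove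
    refine ⟨M + 1, fun g k hk => ?_⟩
    have h4 : ∀ x : ZMod N × ℕ, x ∈ {x : ZMod N × ℕ | Q.lo (.e x.1 x.2) = 1} ∪
        {x : ZMod N × ℕ | JJ.e x.1 x.2 ∈ Q.fr} → x.2 ≤ M := fun x hx => hM ⟨x, hx, rfl⟩
    have h5 : (JJ.e g k : JJ N J) ∉ Q.fr := by
      intro h
      have := h4 (g, k) (Or.inr h)
      omega
    have h6 : Q.lo (.e g k) ≠ 1 := by
      intro h
      have := h4 (g, k) (Or.inl h)
      omega
    have h7 := (hT Q hQ).rng g k
    have h8 : Q.hi (.e g k) = Q.lo (.e g k) := by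
      unfold Cube.hi
      rw [if_neg h5]
    refine ⟨?_, h5⟩
    omega
  choose! m hm using h1
  obtain ⟨M, hM⟩ := (hf.image m).bddAbove
  refine ⟨max (2 * n + 4) M, le_max_left _ _, fun Q hQ g k hk => ?_⟩
  have h9 : m Q ≤ M := hM ⟨Q, hQ, rfl⟩
  exact hm Q hQ g k (le_trans h9 (le_trans (le_max_right _ _) hk))

private theorem sqx_clm {J : Type} [LinearOrder J] {N : ℕ} [NeZero N] (M : ℕ) (τ : Equiv.Perm J)
    (Q : Cube (JJ N J)) : Clm M Q ↔ Clm M (Q.act (jjp N τ)) := by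
  have hlo : ∀ (g : ZMod N) (k : ℕ), (Q.act (jjp N τ)).lo (.e g k) = Q.lo (.e (g - 1) k) :=
    fun g k => rfl
  have hfr : ∀ (g : ZMod N) (k : ℕ), (JJ.e g k : JJ N J) ∈ (Q.act (jjp N τ)).fr ↔
      JJ.e (g - 1) k ∈ Q.fr := by
    intro g k
    simp only [Cube.act, Finset.mem_map_equiv]
    rfl
  constructor
  · intro h g k hk
    rw [hlo, hfr]
    exact h (g - 1) k hk
  · intro h g k hk
    have := h (g + 1) k hk
    rw [hlo, hfr, add_sub_cancel_right] at this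
    exact this

private theorem sqx_inv {J : Type} [LinearOrder J] {N : ℕ} [NeZero N] (M n : ℕ)
    (τ : Equiv.Perm J) (T : Set (Cube J)) (hT : Inv τ T) :
    Inv (jjp N τ) (PPf (N := N) M n T) := by
  intro Q
  constructor
  · rintro ⟨⟨t, ht, hQ⟩, hC⟩
    exact ⟨⟨t.act τ, (hT t).1 ht, (pp_act n τ t Q).1 hQ⟩, (sqx_clm M τ Q).1 hC⟩
  · rintro ⟨⟨t, ht, hQ⟩, hC⟩
    have e : (t.act τ⁻¹).act τ = t := by
      rw [← Cube.act_mul, mul_inv_cancel, Cube.act_one']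
    refine ⟨⟨t.act τ⁻¹, (hT _).2 (by rw [e]; exact ht), ?_⟩, (sqx_clm M τ Q).2 hC⟩
    rw [pp_act n τ, e]
    exact hQ

/-- separation of the translates of a point -/
private theorem sqx_sep {J : Type} [LinearOrder J] (T : Set (Cube J)) (τ : Equiv.Perm J)
    (N m : ℕ) (h : Sep T τ N m) (hN : τ ^ N = 1) (hN0 : 0 < N) (a : ℕ) (ha : ¬ N ∣ a) (z : J → ℝ)
    (hz : z ∈ Body T) : ∃ j, (m : ℝ) ≤ |z ((τ ^ a).symm j) - z j| := by
  obtain ⟨Q, hQ, hzQ⟩ := hz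
  obtain ⟨j, hj1, hj2⟩ := h Q hQ
  have hab : a + (N - 1) * a = N * a := by
    obtain ⟨N', rfl⟩ : ∃ N', N = N' + 1 := ⟨N - 1, by omega⟩
    rw [Nat.add_sub_cancel]
    ring
  have h1 : (τ ^ a).symm = τ ^ ((N - 1) * a) := by
    have h2 : τ ^ a * τ ^ ((N - 1) * a) = 1 := by
      rw [← pow_add, hab, pow_mul, hN, one_pow]
    exact (eq_inv_of_mul_eq_one_right h2).symm
  have h3 : ¬ N ∣ (N - 1) * a := by
    intro h4
    have h5 : N ∣ a + (N - 1) * a := by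
      rw [hab]
      exact Nat.dvd_mul_right N a
    exact ha ((Nat.dvd_add_left h4).1 h5)
  have h6 := hj2 _ h3
  have h7 := (hzQ j).1
  have h8 := (hzQ ((τ ^ ((N - 1) * a)) j)).2
  refine ⟨j, ?_⟩
  rw [h1, abs_sub_comm]
  refine le_trans ?_ (le_abs_self _)
  have h9 : ((m : ℤ) : ℝ) ≤ (Q.lo j : ℝ) := by exact_mod_cast hj1
  have h10 : (Q.hi ((τ ^ ((N - 1) * a)) j) : ℝ) ≤ 0 := by exact_mod_cast h6
  push_cast at h9
  linarith

private theorem sqx_blk {J : Type} [LinearOrder J] {N : ℕ} [NeZero N] (M n : ℕ)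
    (τ : Equiv.Perm J) (T : Set (Cube J)) (z : JJ N J → ℝ)
    (hz : z ∈ Body (Grd 8 (PPf (N := N) M n T))) :
    ∃ t ∈ T, ∀ g : ℕ,
      (fun j => z ((jjp N τ ^ g) (JJ.a 0 ((τ ^ g).symm j))) / 8) ∈ t.body := by
  obtain ⟨Q', ⟨Q, ⟨⟨t, ht, hQ⟩, _⟩, hQ'⟩, hzQ⟩ := hz
  refine ⟨t, ht, fun g j => ?_⟩
  have h1 : (jjp N τ ^ g) (JJ.a 0 ((τ ^ g).symm j)) = JJ.a (g : ZMod N) j := by
    rw [jjp_pow_a, zero_add, Equiv.apply_symm_apply]
  have h2 := (hQ.1 (g : ZMod N)).1 j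
  rw [blk_lo, blk_hi] at h2
  have h3 := hQ' (.a (g : ZMod N) j)
  have h4 := hzQ (.a (g : ZMod N) j)
  show (t.lo j : ℝ) ≤ z ((jjp N τ ^ g) (JJ.a 0 ((τ ^ g).symm j))) / 8 ∧
    z ((jjp N τ ^ g) (JJ.a 0 ((τ ^ g).symm j))) / 8 ≤ (t.hi j : ℝ)
  rw [h1]
  have h5 : (8 : ℝ) * (t.lo j : ℝ) ≤ (Q'.lo (.a (g : ZMod N) j) : ℝ) := by
    have : (8 : ℤ) * t.lo j ≤ Q'.lo (.a (g : ZMod N) j) := by
      have := h3.1
      push_cast at this
      linarith [h2.1]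
    exact_mod_cast this
  have h6 : (Q'.hi (.a (g : ZMod N) j) : ℝ) ≤ (8 : ℝ) * (t.hi j : ℝ) := by
    have : Q'.hi (.a (g : ZMod N) j) ≤ (8 : ℤ) * t.hi j := by
      have := h3.2
      push_cast at this
      linarith [h2.2]
    exact_mod_cast this
  constructor
  · rw [le_div_iff₀ (by norm_num)]
    linarith [h4.1]
  · rw [div_le_iff₀ (by norm_num)]
    linarith [h4.2]

private theorem sqx_prj {J : Type} [LinearOrder J] {N : ℕ} [NeZero N] (M n : ℕ)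
    (T : Set (Cube J)) (hc : Closed T) (Q' : Cube (JJ N J))
    (hQ' : Q' ∈ Grd 8 (PPf (N := N) M n T)) : ∃ Q ∈ T, Q.dim ≤ n ∧ ∀ j,
      8 * Q.lo j ≤ Q'.lo (.a 0 j) ∧ Q'.hi (.a 0 j) ≤ 8 * Q.hi j := by
  obtain ⟨P, ⟨⟨t, ht, hP⟩, _⟩, hQP⟩ := hQ'
  refine ⟨blk 0 P, hc t ht _ (hP.1 0).1, (hP.1 0).2, fun j => ?_⟩
  rw [blk_lo, blk_hi]
  have := hQP (.a 0 j)
  push_cast at this
  exact this

/-- the complex `PPf M n T` contains a cube of dimension `n` in the join direction -/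
private theorem sqx_big {J : Type} [LinearOrder J] {N : ℕ} [NeZero N] (M n : ℕ) (hM : n + 3 ≤ M)
    (T : Set (Cube J)) (hT : T.Nonempty) :
    ∃ R : Cube (JJ N J), R.dim = n ∧ R ∈ PPf (N := N) M n T := by
  classical
  obtain ⟨t, ht⟩ := hT
  obtain ⟨r, hr⟩ : ∃ r : Finset (ZMod N × ℕ),
      r = (Finset.Icc 1 n).image (fun k => ((0 : ZMod N), k)) := ⟨_, rfl⟩
  have hmr : ∀ g k, (g, k) ∈ r ↔ g = 0 ∧ 1 ≤ k ∧ k ≤ n := by
    intro g k
    rw [hr, Finset.mem_image]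
    constructor
    · rintro ⟨l, hl, h⟩
      rw [Prod.mk.injEq] at h
      rw [Finset.mem_Icc] at hl
      exact ⟨h.1.symm, h.2 ▸ hl⟩
    · rintro ⟨h1, h2⟩
      exact ⟨k, Finset.mem_Icc.2 h2, by rw [h1]⟩
  obtain ⟨R, hR⟩ : ∃ R : Cube (JJ N J),
      R = mkC (fun _ => pt t.lo) (fun g k => if g = 0 ∧ k = 0 then 1 else 0) r := ⟨_, rfl⟩
  have hlo : ∀ g k, R.lo (.e g k) = if g = 0 ∧ k = 0 then 1 else 0 := fun g k => by rw [hR]; rfl
  have hhi : ∀ g k, R.hi (.e g k) = if (g, k) ∈ r then (if g = 0 ∧ k = 0 then 1 else 0) + 1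
      else (if g = 0 ∧ k = 0 then 1 else 0) := by
    intro g k
    rw [hR, mkC_hi_e]
  have hfr : R.fr = r.image (fun x => (JJ.e x.1 x.2 : JJ N J)) := by
    ext x
    cases x with
    | a g j =>
      rw [hR, mkC_mem_a, Finset.mem_image]
      constructor
      · intro h
        exact absurd h (Finset.notMem_empty _)
      · rintro ⟨y, _, hy⟩
        cases hy
    | e g k =>
      rw [hR, mkC_mem_e, Finset.mem_image]
      constructor
      · intro h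
        exact ⟨(g, k), h, rfl⟩
      · rintro ⟨y, hy, hyx⟩
        rw [JJ.e.injEq] at hyx
        rw [← hyx.1, ← hyx.2]
        exact hy
  have hdim : R.dim = n := by
    unfold Cube.dim
    rw [hfr, Finset.card_image_of_injective _ (by
      rintro ⟨g, k⟩ ⟨g', k'⟩ h
      have h' : (JJ.e g k : JJ N J) = JJ.e g' k' := h
      rw [JJ.e.injEq] at h'
      rw [h'.1, h'.2]), hr, Finset.card_image_of_injective _ (by
      intro k k' h
      exact (Prod.mk.inj h).2), Nat.card_Icc, Nat.add_sub_cancel]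
  have hblk : ∀ g, blk g R = pt t.lo := fun g => by rw [hR]; exact blk_mkC _ _ _ g
  refine ⟨R, hdim, ⟨t, ht, fun g => ?_, ?_, ?_⟩, fun g k hk => ?_⟩
  · rw [hblk]
    exact ⟨Cube.pt_le.2 (Cube.has_lo t), Nat.zero_le _⟩
  · refine ⟨fun g k => ?_, ?_, ⟨0, 0, by rw [hlo, if_pos ⟨rfl, rfl⟩]⟩, fun k g g' h h' => ?_⟩
    · rw [hlo, hhi]
      by_cases h1 : g = 0 ∧ k = 0
      · have h2 : (g, k) ∉ r := by
          rw [hmr]
          omega
        rw [if_neg h2, if_pos h1]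
        norm_num
      · rw [if_neg h1]
        split_ifs <;> norm_num
    · refine (Set.finite_singleton ((0 : ZMod N), 0)).subset ?_
      rintro ⟨g, k⟩ h
      have h1 : R.lo (.e g k) = 1 := h
      rw [hlo] at h1
      by_cases h2 : g = 0 ∧ k = 0
      · rw [h2.1, h2.2]
        exact Set.mem_singleton _
      · rw [if_neg h2] at h1
        omega
    · have key : ∀ g : ZMod N, R.hi (.e g k) = 1 → g = 0 := by
        intro g hg
        rw [hhi] at hg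
        by_cases h1 : (g, k) ∈ r
        · exact ((hmr g k).1 h1).1
        · rw [if_neg h1] at hg
          by_cases h2 : g = 0 ∧ k = 0
          · exact h2.1
          · rw [if_neg h2] at hg
            omega
      rw [key g h, key g' h']
  · rw [hdim]
    omega
  · have h1 : (g, k) ∉ r := by
      rw [hmr]
      omega
    refine ⟨?_, ?_⟩
    · rw [hlo, if_neg (by omega)]
    · rw [hR, mkC_mem_e]
      exact h1

/-- what is needed of a level -/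
private structure SqxG {p n : ℕ} {X : Type} [TopologicalSpace X] {τX : X → X}
    (P : Pack p n X τX) : Prop where
  cnt : Countable P.J
  spt : Spt P.A.T
  ne : P.A.T.Nonempty

/-- what is needed of two consecutive levels -/
private structure SqxN {p n : ℕ} {X : Type} [TopologicalSpace X] {τX : X → X}
    (P P' : Pack p n X τX) (e : P.J → P'.J) : Prop where
  q : P.q < P'.q
  inj : Function.Injective e
  prj : ∀ Q' ∈ P'.A.T, ∃ Q ∈ P.A.T, Q.dim ≤ n ∧ ∀ j,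
    8 * Q.lo j ≤ Q'.lo (e j) ∧ Q'.hi (e j) ≤ 8 * Q.hi j
  lft : Lft n P.A.T P'.A.T e
  dsj : Dsj n P.A.T P'.A.T e
  blk : ∀ z ∈ Body P'.A.T, ∃ t ∈ P.A.T, ∀ g : ℕ,
    (fun j => z ((P'.τJ ^ g) (e ((P.τJ ^ g).symm j))) / 8) ∈ t.body
  sep : ∀ a : ℕ, ¬ p ^ P.q ∣ a → ∀ z ∈ Body P'.A.T, ∃ j,
    8 ≤ |z ((P'.τJ ^ a).symm j) - z j|
  dst : ∀ x j, |P'.A.F x (e j) / 8 - P.A.F x j| ≤ 3
  big : ∃ R : Cube P'.J, R.dim = n ∧ ∀ Q : Cube P'.J, Q.InM 8 R → Q ∈ P'.A.T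
  nxt : ∃ (N : ℕ) (_ : NeZero N) (M : ℕ) (φ : P'.J ≃ JJ N P.J), N = p ^ P.q ∧ 2 * n + 4 ≤ M ∧
    (∀ j, φ (e j) = JJ.a 0 j) ∧ (∀ i, φ (P'.τJ i) = jjp N P.τJ (φ i)) ∧
    ∀ Q : Cube P'.J, Q ∈ P'.A.T ↔
      (⟨fun x => Q.lo (φ.symm x), Q.fr.map φ.toEmbedding⟩ : Cube (JJ N P.J)) ∈
        Grd 8 (PPf (N := N) M n P.A.T)

private theorem sqx_next (p : ℕ) [Fact p.Prime] (n : ℕ) (hn : 2 ≤ n) {X : Type}
    [TopologicalSpace X] [CompactSpace X] [TopologicalSpace.MetrizableSpace X]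
    [MulAction (Multiplicative ℤ_[p]) X] [ContinuousSMul (Multiplicative ℤ_[p]) X]
    (hfree : ∀ (g : Multiplicative ℤ_[p]) (x : X), g • x = x → g = 1)
    (hdim : CovDimLE (Quotient (MulAction.orbitRel (Multiplicative ℤ_[p]) X)) (n + 1))
    (P : Pack p n X (fun x => Multiplicative.ofAdd (1 : ℤ_[p]) • x)) (hP : SqxG P) :
    ∃ (P' : Pack p n X (fun x => Multiplicative.ofAdd (1 : ℤ_[p]) • x)) (e : P.J → P'.J),
      SqxG P' ∧ SqxN P P' e := by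
  haveI : NeZero (p ^ P.q) := ⟨pow_ne_zero _ (Fact.out : p.Prime).ne_zero⟩
  obtain ⟨q', hq1, hq2, B, hBT, hBS, hBF⟩ := stepA_pp p n hn hfree hdim P.A (P.q + 1)
  have hEE : ∀ Q ∈ B.T, EE Q := by
    intro Q hQ
    obtain ⟨t, _, h⟩ := hBT Q hQ
    exact h.2.1
  obtain ⟨M, hM2, hC⟩ := sqx_col n B.T B.Tfin hEE
  have hM : n + 3 ≤ M := by omega
  have hbas := ppf_basic (N := p ^ P.q) n M P.A.T P.A.Tfin P.A.Tclo hP.spt
  have hdm : ∀ Q ∈ PPf (N := p ^ P.q) M n P.A.T, Q.dim ≤ n + 2 := by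
    rintro Q ⟨⟨t, _, h⟩, _⟩
    exact h.2.2
  have hiv := sqx_inv (N := p ^ P.q) M n P.τJ P.A.T P.A.Tinv
  have hsub : B.T ⊆ PPf (N := p ^ P.q) M n P.A.T := fun Q hQ => ⟨hBT Q hQ, hC Q hQ⟩
  obtain ⟨C, hCT, hCF⟩ := stepB p n hn (sqxBig B _ hbas.1 hbas.2.1 hiv hdm hsub) 8 (by norm_num)
  have hg1 : (Grd 8 (PPf (N := p ^ P.q) M n P.A.T)).Finite := hbas.2.2.2.1
  have hg2 : Closed (Grd 8 (PPf (N := p ^ P.q) M n P.A.T)) := closed_grd 8 _
  have hg3 : Inv (jjp (p ^ P.q) P.τJ) (Grd 8 (PPf (N := p ^ P.q) M n P.A.T)) :=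
    inv_grd _ 8 _ hiv
  have hg4 : ∀ Q ∈ Grd 8 (PPf (N := p ^ P.q) M n P.A.T), Q.dim ≤ n + 2 := by
    intro Q hQ
    obtain ⟨R, hR, _, h⟩ := grd_dim (by norm_num) hQ
    exact le_trans h (hdm R hR)
  have hsep1 : Sep (PPf (N := p ^ P.q) M n P.A.T) (jjp (p ^ P.q) P.τJ) (p ^ P.q) 1 := by
    refine sep_pp _ ?_ P.τJ
    rintro Q ⟨⟨t, _, h⟩, _⟩
    exact h.2.1
  have hsep := sep_grd _ (Grd 8 (PPf (N := p ^ P.q) M n P.A.T)) (jjp (p ^ P.q) P.τJ)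
    (p ^ P.q) 1 8 hsep1 (fun _ h => h)
  refine ⟨⟨q', JJ (p ^ P.q) P.J, inferInstance, jjp (p ^ P.q) P.τJ,
    sqxBig C (Grd 8 (PPf (N := p ^ P.q) M n P.A.T)) hg1 hg2 hg3 hg4 hCT⟩, JJ.a 0,
    ⟨sqx_cnt hP.cnt, hbas.2.2.2.2, ?_⟩, ⟨hq1, ?_, ?_, ?_, ?_, ?_, ?_, ?_, ?_, ?_⟩⟩
  · obtain ⟨R, _, hR⟩ := sqx_big (N := p ^ P.q) M n hM P.A.T hP.ne
    exact ⟨⟨fun i => ((8 : ℕ) : ℤ) * R.lo i, ∅⟩, R, hR, fun i =>
      ⟨le_refl _, mul_le_mul_of_nonneg_left (Cube.has_hi R i).1 (by norm_num)⟩⟩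
  · intro i j h
    have h' : (JJ.a 0 i : JJ (p ^ P.q) P.J) = JJ.a 0 j := h
    rw [JJ.a.injEq] at h'
    exact h'.2
  · exact fun Q' hQ' => sqx_prj M n P.A.T P.A.Tclo Q' hQ'
  · exact tgt_lft n M hM P.A.T P.A.Tfin P.A.Tclo hP.spt
  · exact tgt_dsj n M hM P.A.T P.A.Tfin P.A.Tclo hP.spt
  · exact fun z hz => sqx_blk M n P.τJ P.A.T z hz
  · intro a ha z hz
    obtain ⟨j, hj⟩ := sqx_sep _ (jjp (p ^ P.q) P.τJ) (p ^ P.q) (8 * 1) hsep
      (jjp_pow P.τJ P.A.hJ) (Nat.pos_of_ne_zero (NeZero.ne _)) a ha z hz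
    refine ⟨j, ?_⟩
    push_cast at hj
    linarith
  · intro x j
    have h1 : |C.F x (.a 0 j) / ((8 : ℕ) : ℝ) - B.F x (.a 0 j)| ≤ 1 := hCF x (.a 0 j)
    have h2 := hBF x j
    rw [abs_le] at h1 h2 ⊢
    push_cast at h1
    constructor
    · have := h1.1
      have := h2.1
      show -3 ≤ C.F x (.a 0 j) / 8 - P.A.F x j
      linarith
    · have := h1.2
      have := h2.2
      show C.F x (.a 0 j) / 8 - P.A.F x j ≤ 3
      linarith
  · obtain ⟨R, hRd, hR⟩ := sqx_big (N := p ^ P.q) M n hM P.A.T hP.ne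
    exact ⟨R, hRd, fun Q hQ => ⟨R, hR, hQ⟩⟩
  · refine ⟨p ^ P.q, inferInstance, M, Equiv.refl _, rfl, hM2, fun j => rfl, fun i => rfl,
      fun Q => ?_⟩
    have hQ : (⟨fun x => Q.lo ((Equiv.refl (JJ (p ^ P.q) P.J)).symm x),
        Q.fr.map (Equiv.refl (JJ (p ^ P.q) P.J)).toEmbedding⟩ : Cube (JJ (p ^ P.q) P.J)) = Q := by
      cases Q with
      | mk lo fr =>
        simp only [Equiv.refl_symm, Equiv.refl_apply]
        congr 1
        ext x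
        simp
    exact (iff_of_eq (congrArg (fun R => R ∈ Grd 8 (PPf (N := p ^ P.q) M n P.A.T)) hQ)).symm

/-- the conclusion of `AGM.seq_exists`, the base `J 0`, `T 0`, and the form of every step -/
theorem seq_full (p : ℕ) [Fact p.Prime] (n : ℕ) (hn : 2 ≤ n) {X : Type} [TopologicalSpace X]
    [CompactSpace X] [TopologicalSpace.MetrizableSpace X] [MulAction (Multiplicative ℤ_[p]) X]
    [ContinuousSMul (Multiplicative ℤ_[p]) X]
    (hfree : ∀ (g : Multiplicative ℤ_[p]) (x : X), g • x = x → g = 1)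
    (hdim : CovDimLE (Quotient (MulAction.orbitRel (Multiplicative ℤ_[p]) X)) (n + 1)) :
    ∃ (J : ℕ → Type) (_ : ∀ k, LinearOrder (J k)) (T : ∀ k, Set (Cube (J k)))
      (e : ∀ k, J k → J (k + 1)) (τ : ∀ k, Equiv.Perm (J k)) (q : ℕ → ℕ)
      (F : ∀ k, X → J k → ℝ),
      Tow n J T e ∧ Big n J T ∧ StrictMono q ∧ (∀ k, τ k ^ (p ^ q k) = 1) ∧ (∀ k, Inv (τ k) (T k)) ∧
      (∀ k, ∀ Q' ∈ T (k + 1), ∃ Q ∈ T k, Q.dim ≤ n ∧ ∀ j,
        8 * Q.lo j ≤ Q'.lo (e k j) ∧ Q'.hi (e k j) ≤ 8 * Q.hi j) ∧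
      (∀ k, ∀ z ∈ Body (T (k + 1)), ∃ t ∈ T k, ∀ g : ℕ,
        (fun j => z ((τ (k + 1) ^ g) (e k ((τ k ^ g).symm j))) / 8) ∈ t.body) ∧
      (∀ k, ∀ a : ℕ, ¬ p ^ q k ∣ a → ∀ z ∈ Body (T (k + 1)), ∃ j,
        8 ≤ |z ((τ (k + 1) ^ a).symm j) - z j|) ∧
      (∀ k, Continuous (F k)) ∧
      (∀ k x, F k (Multiplicative.ofAdd (1 : ℤ_[p]) • x) = actP (τ k) (F k x)) ∧
      (∀ k x, F k x ∈ Body (T k)) ∧
      (∀ k x j, |F (k + 1) x (e k j) / 8 - F k x j| ≤ 3) ∧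
      IsEmpty (J 0) ∧ T 0 = {pt fun _ => 0} ∧
      (∀ k, Nxt n (T k) (T (k + 1)) (e k)) ∧
      ∀ k, ∃ (N : ℕ) (_ : NeZero N) (M : ℕ) (φ : J (k + 1) ≃ JJ N (J k)), N = p ^ q k ∧
        2 * n + 4 ≤ M ∧ (∀ j, φ (e k j) = JJ.a 0 j) ∧
        (∀ i, φ (τ (k + 1) i) = jjp N (τ k) (φ i)) ∧
        ∀ Q : Cube (J (k + 1)), Q ∈ T (k + 1) ↔
          (⟨fun x => Q.lo (φ.symm x), Q.fr.map φ.toEmbedding⟩ : Cube (JJ N (J k))) ∈
            Grd 8 (PPf (N := N) M n (T k)) := by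
  classical
  obtain ⟨P₀, hP₀, hT₀⟩ := base_empty p n hfree hdim
  have hG₀ : SqxG P₀ := ⟨inferInstance, ⟨∅, fun Q _ j => (hP₀.false j).elim⟩, hT₀⟩
  choose nx e hG hN using fun (P : {P : Pack p n X
    (fun x => Multiplicative.ofAdd (1 : ℤ_[p]) • x) // SqxG P}) =>
    sqx_next p n hn hfree hdim P.1 P.2
  obtain ⟨P, e, hP0, hPG, hP⟩ : ∃ (P : ℕ → Pack p n X (fun x => Multiplicative.ofAdd (1 : ℤ_[p]) • x))
      (e : ∀ k, (P k).J → (P (k + 1)).J), P 0 = P₀ ∧ (∀ k, SqxG (P k)) ∧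
        ∀ k, SqxN (P k) (P (k + 1)) (e k) :=
    ⟨fun k => (Nat.rec (⟨P₀, hG₀⟩ : {P : Pack p n X
        (fun x => Multiplicative.ofAdd (1 : ℤ_[p]) • x) // SqxG P}) (fun _ Q => ⟨nx Q, hG Q⟩) k :
        {P : Pack p n X (fun x => Multiplicative.ofAdd (1 : ℤ_[p]) • x) // SqxG P}).1,
      fun k => e _, rfl, fun k => Subtype.property _, fun k => hN _⟩
  have hF1 : ∀ k : ℕ, Continuous (P k).A.F := fun k => (P k).A.F_cont
  have hF2 : ∀ (k : ℕ) (x : X), (P k).A.F (Multiplicative.ofAdd (1 : ℤ_[p]) • x) =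
      actP (P k).τJ ((P k).A.F x) := fun k x => (P k).A.F_equi x
  have hF3 : ∀ (k : ℕ) (x : X), (P k).A.F x ∈ Body (P k).A.T := by
    intro k x
    obtain ⟨c, hc, hx⟩ := (P k).A.hκb x
    exact ⟨(P k).A.s c, (P k).A.sT c hc, (P k).A.F_body x c hc hx⟩
  have hpt : ∃ x, Body (P 0).A.T = {x} := by
    rw [hP0]
    obtain ⟨Q, hQ⟩ := hT₀
    refine ⟨fun j => (hP₀.false j).elim, ?_⟩
    ext x
    constructor
    · intro _
      exact funext fun j => (hP₀.false j).elim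
    · intro _
      exact ⟨Q, hQ, fun j => (hP₀.false j).elim⟩
  refine ⟨fun k => (P k).J, fun k => (P k).oJ, fun k => (P k).A.T, e, fun k => (P k).τJ,
    fun k => (P k).q, fun k => (P k).A.F, ?_, ⟨0, (hP 0).big⟩, strictMono_nat_of_lt_succ fun k => (hP k).q,
    fun k => (P k).A.hJ, fun k => (P k).A.Tinv, fun k => (hP k).prj, fun k => (hP k).blk,
    fun k => (hP k).sep, hF1, hF2, hF3, fun k => (hP k).dst, ?_, ?_, fun k => ?_,
    fun k => (hP k).nxt⟩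
  rotate_left
  · show IsEmpty (P 0).J
    rw [hP0]
    exact hP₀
  · show (P 0).A.T = {pt fun _ => 0}
    rw [hP0]
    obtain ⟨Q, hQ⟩ := hT₀
    have hsub : ∀ R : Cube P₀.J, R = pt fun _ => 0 := by
      intro R
      cases R with
      | mk lo fr =>
        unfold pt
        congr 1
        · exact funext fun j => (hP₀.false j).elim
        · exact Finset.eq_empty_of_isEmpty fr
    refine Set.Subset.antisymm (fun R _ => hsub R) (fun R hR => ?_)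
    rw [Set.mem_singleton_iff] at hR
    rw [hR, ← hsub Q]
    exact hQ
  · obtain ⟨N, hN', M, φ, -, h1, h2, -, h3⟩ := (hP k).nxt
    exact ⟨N, hN', M, φ, h1, h2, h3⟩
  exact
    { cnt := fun k => (hPG k).cnt
      fin := fun k => (P k).A.Tfin
      clo := fun k => (P k).A.Tclo
      spt := fun k => (hPG k).spt
      inj := fun k => (hP k).inj
      prj := fun k Q' hQ' => by
        obtain ⟨Q, h1, _, h2⟩ := (hP k).prj Q' hQ'
        exact ⟨Q, h1, h2⟩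
      pt0 := hpt
      lft := fun k => (hP k).lft
      dsj := fun k => (hP k).dsj }

end MNG
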