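import Pool.Agent.MNG.AY
import Pool.Agent.MNG.AGT
import Pool.Agent.MNG.SQ
import Pool.Agent.AGM.LIM2

/-!
# MNG-AYT: the target space is the limit of the tower of a datum
-/

set_option autoImplicit false

noncomputable section

namespace MNG

open Set Topology

theorem y_sp (p : ℕ) [Fact p.Prime] : YSp p := by
  intro X _ _ _ _ _ hfree hdim
  obtain ⟨J, iJ, T, e, τ, q, F, hT, hB, hq, hτ, hinv, hd, hblk, hsep, hF1, hF2, hF3, hF4, h0, hT0,
    hx, -⟩ := seq_full p 2 le_rfl hfree hdim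
  obtain ⟨Y, i1, i2, i3, i4, i5, hfreeY, hdimY, ⟨h⟩, hmap⟩ :=
    AGM.lim2 p 2 J T e hT τ q hq hτ hinv hd hblk hsep
  have hQ : ∀ Q : AGE.Cube (J 0), Q ∈ T 0 := by
    intro Q
    rw [hT0, Set.mem_singleton_iff]
    refine AGE.Cube.ext (funext fun j => (h0.false j).elim) ?_
    exact Finset.eq_empty_of_forall_notMem fun j _ => (h0.false j).elim
  obtain ⟨A, ⟨k⟩⟩ := ay le_rfl h0 hQ hx
  exact ⟨A, Y, i1, i4, i5, ⟨h.trans k.symm⟩, hfreeY, hmap X F hF1 hF2 hF3 hF4⟩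

end MNG
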