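import Pool.Agent.MNG.T1a

/-!
# MNG-C1: the relation `Ex`: basic lemmas

`ex_map` is the main tool: the cells `E c`, `c ∈ A \ A'`, are added to `N` in the order in which
the cells `c` are added to `A'`.  `ex_cells`: induction on the number of cells of `K \ K'`, a cell
of maximal dimension is removed.
-/

set_option autoImplicit false

noncomputable section

namespace MNG

open Set

variable {J V W : Type} [Fintype J] [Fintype V] [Fintype W]

private theorem c1_dm_le {d t : Cl J} (h : Fa d t) : dm d ≤ dm t := by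
  refine Finset.card_le_card fun j hj => ?_
  rw [Finset.mem_filter] at hj ⊢
  refine ⟨hj.1, ?_⟩
  rcases h j with h1 | ⟨h1, h2⟩
  · rw [← h1]
    exact hj.2
  · exact h1

theorem ft_fa {r t : Cl J} (h : Ft r t) : Fa r t ∧ r ≠ t ∧ dm t = dm r + 1 := by
  classical
  obtain ⟨i, hi, hr, hj⟩ := h
  refine ⟨fun j => ?_, ?_, ?_⟩
  · by_cases hji : j = i
    · rw [hji]
      exact Or.inr ⟨hi, hr⟩
    · exact Or.inl (hj j hji)
  · intro h
    rw [h] at hr
    omega
  · have h1 : (Finset.univ.filter (fun j => r j % 2 = 1)) =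
        (Finset.univ.filter (fun j => t j % 2 = 1)).erase i := by
      ext j
      rw [Finset.mem_erase, Finset.mem_filter, Finset.mem_filter]
      by_cases hji : j = i
      · rw [hji]
        constructor
        · rintro ⟨-, h2⟩
          omega
        · rintro ⟨h2, -⟩
          exact absurd rfl h2
      · rw [hj j hji]
        constructor
        · rintro ⟨h2, h3⟩
          exact ⟨hji, h2, h3⟩
        · rintro ⟨-, h2, h3⟩
          exact ⟨h2, h3⟩
    have h2 : i ∈ Finset.univ.filter (fun j => t j % 2 = 1) :=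
      Finset.mem_filter.2 ⟨Finset.mem_univ i, hi⟩
    have h3 := Finset.card_erase_add_one h2
    unfold dm
    rw [h1, h3]

/-- a proper face is a face of a facet -/
theorem fa_ft {d t : Cl J} (h : Fa d t) (hne : d ≠ t) : ∃ r, Ft r t ∧ Fa d r := by
  classical
  obtain ⟨i, hi⟩ := Function.ne_iff.1 hne
  have h1 : t i % 2 = 1 ∧ (d i = t i - 1 ∨ d i = t i + 1) := by
    rcases h i with h1 | h1
    · exact absurd h1 hi
    · exact h1
  refine ⟨Function.update t i (d i), ⟨i, h1.1, ?_, fun j hj => ?_⟩, fun j => ?_⟩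
  · rw [Function.update_self]
    exact h1.2
  · rw [Function.update_of_ne hj]
  · by_cases hj : j = i
    · rw [hj, Function.update_self]
      exact Or.inl rfl
    · rw [Function.update_of_ne hj]
      exact h j

theorem ex_clo {j : ℕ} {K' K : Set (Cl J)} (h : Ex j K' K) (hK' : Clo K') : Clo K ∧ K' ⊆ K := by
  induction h with
  | refl => exact ⟨hK', Subset.rfl⟩
  | pair K r t _ _ _ _ hc ih =>
    exact ⟨hc, ih.2.trans ((subset_insert t K).trans (subset_insert r _))⟩
  | cell K c _ _ _ hc ih => exact ⟨hc, ih.2.trans (subset_insert c K)⟩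

theorem ex_fin {j : ℕ} {K' K : Set (Cl J)} (h : Ex j K' K) : (K \ K').Finite := by
  induction h with
  | refl =>
    rw [diff_self]
    exact finite_empty
  | pair K r t _ _ _ _ _ ih =>
    refine ((ih.insert t).insert r).subset ?_
    rintro x ⟨h1 | h1 | h1, h2⟩
    · exact Or.inl h1
    · exact Or.inr (Or.inl h1)
    · exact Or.inr (Or.inr ⟨h1, h2⟩)
  | cell K c _ _ _ _ ih =>
    refine (ih.insert c).subset ?_
    rintro x ⟨h1 | h1, h2⟩
    · exact Or.inl h1
    · exact Or.inr ⟨h1, h2⟩

theorem ex_trans {j : ℕ} {A B C : Set (Cl J)} (h : Ex j A B) (h' : Ex j B C) : Ex j A C := by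
  induction h' with
  | refl => exact h
  | pair K r t _ hr ht hft hc ih => exact Ex.pair K r t ih hr ht hft hc
  | cell K c _ hc hj hcl ih => exact Ex.cell K c ih hc hj hcl

theorem ex_le {i j : ℕ} (hij : i ≤ j) {A B : Set (Cl J)} (h : Ex j A B) : Ex i A B := by
  induction h with
  | refl => exact Ex.refl
  | pair K r t _ hr ht hft hc ih => exact Ex.pair K r t ih hr ht hft hc
  | cell K c _ hc hj hcl ih => exact Ex.cell K c ih hc (hij.trans hj) hcl

private theorem c1_clo {A : Set (Cl J)} (hA : Clo A) (E : Cl J → Cl V) {N : Set (Cl V)}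
    (hN : Clo N) (hface : ∀ c ∈ A, ∀ d, Fa d (E c) → d ∈ N ∨ ∃ c', Fa c' c ∧ d = E c') :
    Clo (N ∪ E '' A) := by
  rintro c (hc | ⟨c0, hc0, rfl⟩) d hd
  · exact Or.inl (hN c hc d hd)
  · rcases hface c0 hc0 d hd with h1 | ⟨c', h1, rfl⟩
    · exact Or.inl h1
    · exact Or.inr ⟨c', hA c0 hc0 c' h1, rfl⟩

theorem ex_map {i j : ℕ} {A' A : Set (Cl J)} (h : Ex j A' A) (hA' : Clo A')
    (E : Cl J → Cl V) (N : Set (Cl V)) (hN : Clo N) (hinj : ∀ c ∈ A, ∀ d ∈ A, E c = E d → c = d)
    (hface : ∀ c ∈ A, ∀ d, Fa d (E c) → d ∈ N ∨ ∃ c', Fa c' c ∧ d = E c')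
    (hft : ∀ r ∈ A, ∀ t ∈ A, Ft r t → Ft (E r) (E t))
    (hdim : ∀ c ∈ A, j ≤ dm c → i ≤ dm (E c)) (h0 : ∀ c ∈ A', E c ∈ N)
    (h1 : ∀ c ∈ A, c ∉ A' → E c ∉ N) : Ex i N (N ∪ E '' A) := by
  induction h with
  | refl =>
    have e : N ∪ E '' A' = N := by
      refine union_eq_left.2 ?_
      rintro _ ⟨c, hc, rfl⟩
      exact h0 c hc
    rw [e]
    exact Ex.refl
  | pair K r t hK hr ht hrt hcl ih =>
    have hsub : K ⊆ insert r (insert t K) := (subset_insert t K).trans (subset_insert r _)
    have hrA : r ∈ insert r (insert t K) := mem_insert r _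
    have htA : t ∈ insert r (insert t K) := mem_insert_of_mem r (mem_insert t K)
    have hs := (ex_clo hK hA').2
    have ih' := ih (fun c hc d hd => hinj c (hsub hc) d (hsub hd))
      (fun c hc => hface c (hsub hc)) (fun x hx y hy => hft x (hsub hx) y (hsub hy))
      (fun c hc => hdim c (hsub hc)) (fun c hc => h1 c (hsub hc))
    have e : N ∪ E '' (insert r (insert t K)) = insert (E r) (insert (E t) (N ∪ E '' K)) := by
      rw [image_insert_eq, image_insert_eq, union_insert, union_insert]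
    have hclo := c1_clo hcl E hN hface
    rw [e] at hclo ⊢
    refine Ex.pair _ _ _ ih' ?_ ?_ (hft r hrA t htA hrt) hclo
    · rintro (h2 | ⟨c, hc, h2⟩)
      · exact h1 r hrA (fun h3 => hr (hs h3)) h2
      · exact hr (hinj c (hsub hc) r hrA h2 ▸ hc)
    · rintro (h2 | ⟨c, hc, h2⟩)
      · exact h1 t htA (fun h3 => ht (hs h3)) h2
      · exact ht (hinj c (hsub hc) t htA h2 ▸ hc)
  | cell K t hK ht hj hcl ih =>
    have hsub : K ⊆ insert t K := subset_insert t K
    have htA : t ∈ insert t K := mem_insert t K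
    have hs := (ex_clo hK hA').2
    have ih' := ih (fun c hc d hd => hinj c (hsub hc) d (hsub hd))
      (fun c hc => hface c (hsub hc)) (fun x hx y hy => hft x (hsub hx) y (hsub hy))
      (fun c hc => hdim c (hsub hc)) (fun c hc => h1 c (hsub hc))
    have e : N ∪ E '' (insert t K) = insert (E t) (N ∪ E '' K) := by
      rw [image_insert_eq, union_insert]
    have hclo := c1_clo hcl E hN hface
    rw [e] at hclo ⊢
    refine Ex.cell _ _ ih' ?_ (hdim t htA hj) hclo
    rintro (h2 | ⟨c, hc, h2⟩)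
    · exact h1 t htA (fun h3 => ht (hs h3)) h2
    · exact ht (hinj c (hsub hc) t htA h2 ▸ hc)

/-- excision -/
theorem ex_exc {j : ℕ} {A' A N : Set (Cl J)} (h : Ex j A' A) (hN : Clo N) (hA' : Clo A')
    (hi : N ∩ A = A') : Ex j N (N ∪ A) := by
  have h2 := ex_map (i := j) h hA' (fun c => c) N hN (fun c _ d _ hcd => hcd)
    (fun c _ d hd => Or.inr ⟨d, hd, rfl⟩) (fun r _ t _ hrt => hrt) (fun c _ hc => hc)
    (fun c hc => (hi.symm ▸ hc : c ∈ N ∩ A).1)
    (fun c hc hc' hcN => hc' (hi ▸ (⟨hcN, hc⟩ : c ∈ N ∩ A)))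
  rwa [image_id'] at h2

theorem ex_cells {j : ℕ} {K' K : Set (Cl J)} (hK' : Clo K') (hK : Clo K) (hs : K' ⊆ K)
    (hf : (K \ K').Finite) (hd : ∀ c ∈ K, c ∉ K' → j ≤ dm c) : Ex j K' K := by
  have main : ∀ n : ℕ, ∀ K : Set (Cl J), Clo K → K' ⊆ K → (K \ K').Finite →
      (K \ K').ncard = n → (∀ c ∈ K, c ∉ K' → j ≤ dm c) → Ex j K' K := by
    intro n
    induction n with
    | zero =>
      intro K hK hs hf hn hd
      have h1 : K \ K' = ∅ := (ncard_eq_zero hf).1 hn
      have h2 : K = K' := Subset.antisymm (diff_eq_empty.1 h1) hs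
      rw [h2]
      exact Ex.refl
    | succ n ih =>
      intro K hK hs hf hn hd
      have hne : (K \ K').Nonempty := by
        rw [nonempty_iff_ne_empty]
        intro h1
        rw [h1, ncard_empty] at hn
        omega
      obtain ⟨t, ht, hmax⟩ := exists_max_image (K \ K') (fun c => dm c) hf hne
      have hcl : Clo (K \ {t}) := by
        rintro c ⟨hc, hct⟩ d hdc
        refine ⟨hK c hc d hdc, ?_⟩
        intro hdt
        have hdt' : d = t := hdt
        rw [hdt'] at hdc
        have hcK : c ∉ K' := fun h1 => ht.2 (hK' c h1 t hdc)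
        have hne2 : t ≠ c := fun h1 => hct h1.symm
        obtain ⟨r, h2, h3⟩ := fa_ft hdc hne2
        have h4 := (ft_fa h2).2.2
        have h5 := c1_dm_le h3
        have h6 : dm c ≤ dm t := hmax c ⟨hc, hcK⟩
        omega
      have hs' : K' ⊆ K \ {t} := by
        intro x hx
        refine ⟨hs hx, fun hxt => ?_⟩
        have hxt' : x = t := hxt
        rw [hxt'] at hx
        exact ht.2 hx
      have e1 : (K \ {t}) \ K' = (K \ K') \ {t} := by
        ext x
        constructor
        · rintro ⟨⟨h1, h2⟩, h3⟩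
          exact ⟨⟨h1, h3⟩, h2⟩
        · rintro ⟨⟨h1, h3⟩, h2⟩
          exact ⟨⟨h1, h2⟩, h3⟩
      have h1 : Ex j K' (K \ {t}) := by
        refine ih _ hcl hs' ?_ ?_ ?_
        · rw [e1]
          exact hf.subset diff_subset
        · rw [e1]
          have h2 := ncard_diff_singleton_add_one ht hf
          omega
        · intro c hc hc'
          exact hd c hc.1 hc'
      have e2 : insert t (K \ {t}) = K := by
        rw [insert_diff_singleton, insert_eq_of_mem ht.1]
      have h2 := Ex.cell (K \ {t}) t h1 (fun h => h.2 rfl) (hd t ht.1 ht.2)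
        (by rw [e2]; exact hK)
      rwa [e2] at h2
  exact main _ K hK hs hf rfl hd

end MNG
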