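import Pool.Agent.MNG.C2

/-!
# MNG-C3: star-closed sets

A cell `c` has a far corner `x` (`x_j` the end of `c_j` farther from `p_j`; `p_j` is an integer) and lies in the block `B_x = {c | ∀ j, c_j = 2 x_j ∨ (x_j ≠ p_j ∧ c_j = 2 x_j + stp p_j x_j)}`. Closed star-closed sets are unions of blocks. The faces of a cell of `B_x` are in `B_x` or have a far corner nearer to `p` (`Σ |x_j - p_j|` smaller). If `U` is nonempty then `p ∈ U`. So add the blocks of the vertices of `U' \ U` by increasing `Σ |x_j - p_j|`; one block, `x ≠ p`, coordinate `i` with `x_i ≠ p_i`: `ex_pairs` with `A = {c | c` is a face of the largest cell of `B_x`, `c_i = 2 x_i}`, `E₁ c = c`, `E₂ c = update c i (2 x_i + stp ..)`, `A'` the cells of `A` not in `B_x`.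
-/

set_option autoImplicit false

noncomputable section

namespace MNG

open Set

variable {J V W : Type} [Fintype J] [Fintype V] [Fintype W]

/-- the block of the vertex `x` -/
private def C3_B (p x : J → ℤ) : Set (Cl J) :=
  {c | ∀ j, c j = 2 * x j ∨ (x j ≠ p j ∧ c j = 2 * x j + stp (p j) (x j))}

/-- the far corner -/
private def C3_cn (p : J → ℤ) (c : Cl J) : J → ℤ := fun j =>
  if c j % 2 = 0 then c j / 2 else if c j / 2 < p j then c j / 2 else c j / 2 + 1

/-- the distance -/
private def C3_dl (p x : J → ℤ) : ℕ := ∑ j, (x j - p j).natAbs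

omit [Fintype J] in
private theorem C3_mem {p x : J → ℤ} {c : Cl J} : c ∈ C3_B p x ↔ C3_cn p c = x := by
  constructor
  · intro h
    funext j
    have hj := h j
    unfold C3_cn
    unfold stp at hj
    split_ifs at hj ⊢ <;> omega
  · intro h j
    have hj := congrFun h j
    unfold C3_cn at hj
    unfold stp
    split_ifs at hj ⊢ <;> omega

omit [Fintype J] in
private theorem C3_cn_vx (p x : J → ℤ) : C3_cn p (fun j => 2 * x j) = x := by
  rw [← C3_mem]
  exact fun j => Or.inl rfl

omit [Fintype J] in
private theorem C3_fa_cn (p : J → ℤ) (c : Cl J) : Fa (fun j => 2 * C3_cn p c j) c := by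
  intro j
  show fc (2 * C3_cn p c j) (c j)
  unfold C3_cn fc
  split_ifs <;> omega

private theorem C3_lt {p : J → ℤ} {c d : Cl J} (h : Fa d c) :
    C3_cn p d = C3_cn p c ∨ C3_dl p (C3_cn p d) < C3_dl p (C3_cn p c) := by
  have h1 : ∀ j, C3_cn p d j = C3_cn p c j ∨
      (C3_cn p d j - p j).natAbs < (C3_cn p c j - p j).natAbs := by
    intro j
    have hj := h j
    unfold fc at hj
    unfold C3_cn
    split_ifs <;> omega
  by_cases h2 : ∀ j, C3_cn p d j = C3_cn p c j
  · exact Or.inl (funext h2)
  · right
    push Not at h2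
    obtain ⟨j0, hj0⟩ := h2
    refine Finset.sum_lt_sum (fun j _ => ?_)
      ⟨j0, Finset.mem_univ _, (h1 j0).resolve_left hj0⟩
    rcases h1 j with h3 | h3
    · rw [h3]
    · exact h3.le

omit [Fintype J] in
/-- membership is decided by the far corner -/
private theorem C3_iff {p : J → ℤ} {U : Set (Cl J)} (hU : Clo U) (h : Sta p U) (c : Cl J) :
    c ∈ U ↔ (fun j => 2 * C3_cn p c j) ∈ U := by
  constructor
  · intro hc
    exact hU c hc _ (C3_fa_cn p c)
  · intro hc
    exact h _ hc c (C3_mem.2 rfl)

private theorem C3_desc {p : J → ℤ} {U : Set (Cl J)} (hU : Clo U) (h : Sta p U) (n : ℕ) :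
    ∀ x : J → ℤ, C3_dl p x = n → (fun j => 2 * x j) ∈ U → (fun j => 2 * p j) ∈ U := by
  classical
  induction n using Nat.strong_induction_on with
  | _ n ih =>
    intro x hx hxU
    by_cases hxp : x = p
    · rw [← hxp]
      exact hxU
    · obtain ⟨i, hi⟩ := Function.ne_iff.1 hxp
      have h1 : Function.update (fun j => 2 * x j) i (2 * x i + stp (p i) (x i)) ∈ U := by
        refine h x hxU _ fun j => ?_
        by_cases hj : j = i
        · subst hj
          right
          exact ⟨hi, by rw [Function.update_self]⟩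
        · left
          rw [Function.update_of_ne hj]
      have h2 : (fun j => 2 * Function.update x i (x i + stp (p i) (x i)) j) ∈ U := by
        refine hU _ h1 _ fun j => ?_
        by_cases hj : j = i
        · subst hj
          simp only [Function.update_self]
          unfold fc stp
          split_ifs <;> omega
        · simp only [Function.update_of_ne hj]
          exact Or.inl rfl
      refine ih (C3_dl p (Function.update x i (x i + stp (p i) (x i)))) ?_ _ rfl h2
      rw [← hx]
      refine Finset.sum_lt_sum (fun j _ => ?_) ⟨i, Finset.mem_univ _, ?_⟩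
      · by_cases hj : j = i
        · subst hj
          rw [Function.update_self]
          unfold stp
          split_ifs <;> omega
        · rw [Function.update_of_ne hj]
      · rw [Function.update_self]
        unfold stp
        split_ifs <;> omega

/-- adding one block -/
private theorem C3_step {p x : J → ℤ} {U' : Set (Cl J)} (hU' : Cx U') (h' : Sta p U')
    (hx : (fun j => 2 * x j) ∈ U') (hxp : x ≠ p) (hcl : Clo (U' \ C3_B p x)) (m : ℕ) :
    Ex m (U' \ C3_B p x) U' := by
  classical
  obtain ⟨i, hi⟩ := Function.ne_iff.1 hxp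
  obtain ⟨t, ht⟩ : ∃ t : Cl J, t = fun j => if x j = p j then 2 * x j else
    2 * x j + stp (p j) (x j) := ⟨_, rfl⟩
  have htB : t ∈ C3_B p x := by
    intro j
    rw [ht]
    by_cases hj : x j = p j
    · left
      simp [hj]
    · right
      exact ⟨hj, by simp [hj]⟩
  have htU : t ∈ U' := h' x hx t htB
  have hti : t i = 2 * x i + stp (p i) (x i) := by
    rw [ht]
    simp [hi]
  have hstp : stp (p i) (x i) = 1 ∨ stp (p i) (x i) = -1 := by
    unfold stp
    split_ifs
    · exact Or.inl rfl
    · exact Or.inr rfl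
  -- the cells of the block are faces of `t`
  have hBt : ∀ c ∈ C3_B p x, Fa c t := by
    intro c hc j
    have h1 := hc j
    rw [ht]
    by_cases hj : x j = p j
    · simp only [hj, if_true]
      rcases h1 with h1 | h1
      · left
        rw [h1, hj]
      · exact absurd hj h1.1
    · simp only [hj, if_false]
      rcases h1 with h1 | h1
      · right
        rw [h1]
        unfold stp
        split_ifs <;> omega
      · left
        rw [h1.2]
  obtain ⟨A, hA⟩ : ∃ A : Set (Cl J), A = {c | Fa c t ∧ c i = 2 * x i} := ⟨_, rfl⟩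
  have hAm : ∀ c, c ∈ A ↔ Fa c t ∧ c i = 2 * x i := by
    intro c
    rw [hA]
    exact Iff.rfl
  obtain ⟨E, hE⟩ : ∃ E : Cl J → Cl J, E = fun c =>
    Function.update c i (2 * x i + stp (p i) (x i)) := ⟨_, rfl⟩
  have hEi : ∀ c, E c i = 2 * x i + stp (p i) (x i) := by
    intro c
    rw [hE]
    exact Function.update_self _ _ _
  have hEj : ∀ c j, j ≠ i → E c j = c j := by
    intro c j hj
    rw [hE]
    exact Function.update_of_ne hj _ _
  have hAU : ∀ c ∈ A, c ∈ U' := fun c hc => hU'.clo t htU c ((hAm c).1 hc).1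
  have hEt : ∀ c ∈ A, Fa (E c) t := by
    intro c hc j
    by_cases hj : j = i
    · subst hj
      rw [hEi, hti]
      exact Or.inl rfl
    · rw [hEj c j hj]
      exact ((hAm c).1 hc).1 j
  have hEU : ∀ c ∈ A, E c ∈ U' := fun c hc => hU'.clo t htU _ (hEt c hc)
  have hEB : ∀ c ∈ A, (E c ∈ C3_B p x ↔ c ∈ C3_B p x) := by
    intro c hc
    constructor
    · intro h j
      by_cases hj : j = i
      · subst hj
        exact Or.inl ((hAm c).1 hc).2
      · have h1 := h j
        rw [hEj c j hj] at h1
        exact h1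
    · intro h j
      by_cases hj : j = i
      · subst hj
        exact Or.inr ⟨hi, hEi c⟩
      · have h1 := h j
        rw [hEj c j hj]
        exact h1
  have hcA : Clo A := by
    intro c hc d hd
    obtain ⟨h1, h2⟩ := (hAm c).1 hc
    refine (hAm d).2 ⟨fa_trans hd h1, ?_⟩
    have h3 := hd i
    rw [h2] at h3
    unfold fc at h3
    omega
  have hcA' : Clo (A \ C3_B p x) := by
    intro c hc d hd
    refine ⟨hcA c hc.1 d hd, fun hdB => hc.2 ?_⟩
    have h1 := C3_mem.1 hdB
    have h2 := C3_mem.1 htB
    rcases C3_lt (p := p) hd with h3 | h3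
    · exact C3_mem.2 (h3.symm.trans h1)
    · rcases C3_lt (p := p) ((hAm c).1 hc.1).1 with h4 | h4
      · exact C3_mem.2 (h4.trans h2)
      · rw [h1] at h3
        rw [h2] at h4
        omega
  have hun : (U' \ C3_B p x) ∪ (fun c => c) '' A ∪ E '' A = U' := by
    ext c
    constructor
    · rintro ((h | ⟨d, hd, rfl⟩) | ⟨d, hd, rfl⟩)
      · exact h.1
      · exact hAU d hd
      · exact hEU d hd
    · intro hc
      by_cases hcB : c ∈ C3_B p x
      · rcases hcB i with h1 | h1
        · exact Or.inl (Or.inr ⟨c, (hAm c).2 ⟨hBt c hcB, h1⟩, rfl⟩)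
        · have h2 : Function.update c i (2 * x i) ∈ C3_B p x := by
            intro j
            by_cases hj : j = i
            · subst hj
              left
              exact Function.update_self _ _ _
            · rw [Function.update_of_ne hj]
              exact hcB j
          refine Or.inr ⟨Function.update c i (2 * x i),
            (hAm _).2 ⟨hBt _ h2, Function.update_self _ _ _⟩, ?_⟩
          funext j
          by_cases hj : j = i
          · subst hj
            rw [hEi, h1.2]
          · rw [hEj _ j hj, Function.update_of_ne hj]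
      · exact Or.inl (Or.inl ⟨hc, hcB⟩)
  have key := ex_pairs (i := m) hcA' hcA Set.sdiff_subset
    (((fc_finite t).subset fun c hc => ((hAm c).1 hc).1).subset Set.sdiff_subset)
    (fun c => c) E (U' \ C3_B p x) hcl
    (fun c _ d _ h => h)
    (fun c hc d hd h => by
      funext j
      by_cases hj : j = i
      · subst hj
        rw [((hAm c).1 hc).2, ((hAm d).1 hd).2]
      · have h1 := congrFun h j
        rwa [hEj c j hj, hEj d j hj] at h1)
    (fun c hc d _ h => by
      have h1 := congrFun h i
      rw [hEi] at h1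
      have h2 := ((hAm c).1 hc).2
      have h3 : c i = 2 * x i + stp (p i) (x i) := h1
      rw [h2] at h3
      rcases hstp with h4 | h4 <;> rw [h4] at h3 <;> omega)
    (fun c _ d hd => Or.inr ⟨d, hd, rfl⟩)
    (fun c hc d hd => by
      have h1 := hd i
      rw [hEi] at h1
      have h2 := ((hAm c).1 hc).2
      have hdj : ∀ j, j ≠ i → fc (d j) (c j) := by
        intro j hj
        have h3 := hd j
        rwa [hEj c j hj] at h3
      by_cases e1 : d i = 2 * x i + stp (p i) (x i)
      · right
        refine ⟨Function.update d i (2 * x i), fun j => ?_, Or.inr ?_⟩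
        · by_cases hj : j = i
          · subst hj
            rw [Function.update_self, h2]
            exact Or.inl rfl
          · rw [Function.update_of_ne hj]
            exact hdj j hj
        · funext j
          by_cases hj : j = i
          · subst hj
            rw [hEi, e1]
          · rw [hEj _ j hj, Function.update_of_ne hj]
      · by_cases e2 : d i = 2 * x i
        · right
          refine ⟨d, fun j => ?_, Or.inl rfl⟩
          by_cases hj : j = i
          · subst hj
            rw [e2, h2]
            exact Or.inl rfl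
          · exact hdj j hj
        · left
          refine ⟨hU'.clo t htU d (fa_trans hd (hEt c hc)), fun hdB => ?_⟩
          rcases hdB i with h3 | h3
          · exact e2 h3
          · exact e1 h3.2)
    (fun c hc => by
      refine ⟨i, ?_, ?_, fun j hj => ?_⟩
      · rw [hEi]
        rcases hstp with h4 | h4 <;> rw [h4] <;> omega
      · rw [hEi]
        have h2 := ((hAm c).1 hc).2
        show c i = _ ∨ c i = _
        rw [h2]
        rcases hstp with h4 | h4 <;> rw [h4]
        · left
          ring
        · right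
          ring
      · exact (hEj c j hj).symm)
    (fun c hc => ⟨⟨hAU c hc.1, hc.2⟩, hEU c hc.1, fun h => hc.2 ((hEB c hc.1).1 h)⟩)
    (fun c hc hc' => by
      have h1 : c ∈ C3_B p x := by
        by_contra h2
        exact hc' ⟨hc, h2⟩
      exact ⟨fun h => h.2 h1, fun h => h.2 ((hEB c hc).2 h1)⟩)
  rw [hun] at key
  exact key

private theorem C3_ex {p : J → ℤ} {U : Set (Cl J)} (hU : Cx U) (hn : U.Nonempty) (h : Sta p U)
    (m n : ℕ) : ∀ U' : Set (Cl J), Cx U' → U ⊆ U' → Sta p U' → (U' \ U).ncard = n → Ex m U U' := by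
  classical
  have hpU : (fun j => 2 * p j) ∈ U := by
    obtain ⟨c, hc⟩ := hn
    exact C3_desc hU.clo h _ (C3_cn p c) rfl ((C3_iff hU.clo h c).1 hc)
  induction n using Nat.strong_induction_on with
  | _ n ih =>
    intro U' hU' hs h' hcard
    by_cases he : U' ⊆ U
    · have h1 : U = U' := Set.Subset.antisymm hs he
      rw [h1]
      exact Ex.refl
    · obtain ⟨c, hc, hcU⟩ := Set.not_subset.1 he
      have hfin : (U' \ U).Finite := hU'.fin.subset Set.sdiff_subset
      have hne : (hfin.toFinset.filter fun c => ∃ x : J → ℤ, c = fun j => 2 * x j).Nonempty := by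
        refine ⟨fun j => 2 * C3_cn p c j, ?_⟩
        rw [Finset.mem_filter, Set.Finite.mem_toFinset]
        exact ⟨⟨(C3_iff hU'.clo h' c).1 hc, fun h1 => hcU ((C3_iff hU.clo h c).2 h1)⟩, _, rfl⟩
      obtain ⟨v, hv, hmax⟩ := Finset.exists_max_image _ (fun c => C3_dl p (C3_cn p c)) hne
      rw [Finset.mem_filter, Set.Finite.mem_toFinset] at hv
      obtain ⟨⟨hvU', hvU⟩, x, rfl⟩ := hv
      have hmax' : ∀ y : J → ℤ, (fun j => 2 * y j) ∈ U' → (fun j => 2 * y j) ∉ U →
          C3_dl p y ≤ C3_dl p x := by
        intro y h1 h2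
        have h3 := hmax (fun j => 2 * y j) (by
          rw [Finset.mem_filter, Set.Finite.mem_toFinset]
          exact ⟨⟨h1, h2⟩, y, rfl⟩)
        simp only [C3_cn_vx] at h3
        exact h3
      have hxp : x ≠ p := by
        rintro rfl
        exact hvU hpU
      have hxB : (fun j => 2 * x j) ∈ C3_B p x := fun j => Or.inl rfl
      have hBU : ∀ c ∈ U, c ∉ C3_B p x := by
        intro c hc hcB
        apply hvU
        have h1 := (C3_iff hU.clo h c).1 hc
        rwa [C3_mem.1 hcB] at h1
      have hcl : Clo (U' \ C3_B p x) := by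
        intro c hc d hd
        refine ⟨hU'.clo c hc.1 d hd, fun hdB => ?_⟩
        have h1 := C3_mem.1 hdB
        rcases C3_lt (p := p) hd with h2 | h2
        · exact hc.2 (C3_mem.2 (h2.symm.trans h1))
        · rw [h1] at h2
          have h3 := hmax' (C3_cn p c) ((C3_iff hU'.clo h' c).1 hc.1) (fun h4 => by
            have h5 : c ∈ U := (C3_iff hU.clo h c).2 h4
            exact hBU d (hU.clo c h5 d hd) hdB)
          omega
      have hsta : Sta p (U' \ C3_B p x) := by
        intro y hy c hc
        refine ⟨h' y hy.1 c hc, fun hcB => hy.2 ?_⟩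
        have h1 : C3_cn p c = y := C3_mem.1 hc
        have h2 : C3_cn p c = x := C3_mem.1 hcB
        rw [← h1, h2]
        exact hxB
      have hs' : U ⊆ U' \ C3_B p x := fun c hc => ⟨hs hc, hBU c hc⟩
      have hlt : ((U' \ C3_B p x) \ U).ncard < n := by
        rw [← hcard]
        refine Set.ncard_lt_ncard ?_ hfin
        refine ⟨fun c hc => ⟨hc.1.1, hc.2⟩, fun h1 => ?_⟩
        exact (h1 ⟨hvU', hvU⟩).1.2 hxB
      exact ex_trans (ih _ hlt _ ⟨hU'.fin.subset Set.sdiff_subset, hcl⟩ hs' hsta rfl)
        (C3_step hU' h' hvU' hxp hcl m)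

theorem sta_ex {p : J → ℤ} {U U' : Set (Cl J)} (hU : Cx U) (hU' : Cx U') (hs : U ⊆ U')
    (hn : U.Nonempty) (h : Sta p U) (h' : Sta p U') (j : ℕ) : Ex j U U' := by
  exact C3_ex hU hn h j _ U' hU' hs h' rfl

theorem sta_mem {p : J → ℤ} {U : Set (Cl J)} (hU : Cx U) (hn : U.Nonempty) (h : Sta p U) :
    (fun j => 2 * p j) ∈ U := by
  obtain ⟨c, hc⟩ := hn
  exact C3_desc hU.clo h _ (C3_cn p c) rfl ((C3_iff hU.clo h c).1 hc)

theorem sta_pt (p : J → ℤ) : Sta p {fun j => 2 * p j} := by
  intro x hx c hc
  have h1 : ∀ j, x j = p j := by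
    intro j
    have h2 := congrFun (Set.mem_singleton_iff.1 hx) j
    have h3 : 2 * x j = 2 * p j := h2
    omega
  refine Set.mem_singleton_iff.2 (funext fun j => ?_)
  rcases hc j with h2 | h2
  · rw [h2, h1 j]
  · exact absurd (h1 j) h2.1

/-- a nonempty star-closed complex is obtained from the empty set with one critical vertex -/
theorem sta_ex0 {p : J → ℤ} {U : Set (Cl J)} (hU : Cx U) (hn : U.Nonempty) (h : Sta p U) :
    Ex 0 ∅ U := by
  have h1 : Cx ({fun j => 2 * p j} : Set (Cl J)) := by
    refine ⟨Set.finite_singleton _, fun c hc d hd => ?_⟩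
    rw [Set.mem_singleton_iff] at hc ⊢
    funext j
    have h2 := hd j
    rw [hc] at h2
    have h3 : fc (d j) (2 * p j) := h2
    unfold fc at h3
    show d j = 2 * p j
    omega
  have h2 : Ex 0 (∅ : Set (Cl J)) {fun j => 2 * p j} := by
    have h3 := Ex.cell (j := 0) (K' := (∅ : Set (Cl J))) ∅ (fun j => 2 * p j) Ex.refl
      (Set.notMem_empty _) (Nat.zero_le _) (by
        rw [insert_empty_eq]
        exact h1.clo)
    rwa [insert_empty_eq] at h3
  exact ex_trans h2 (sta_ex h1 hU (Set.singleton_subset_iff.2 (sta_mem hU hn h))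
    (Set.singleton_nonempty _) (sta_pt p) h 0)

theorem sta_fc {p : J → ℤ} {c : Cl J} (h : Fa (fun j => 2 * p j) c) : Sta p (Fc c) := by
  intro x hx d hd j
  have h1 := h j
  have h2 : fc (2 * x j) (c j) := hx j
  have h3 := hd j
  have h1' : fc (2 * p j) (c j) := h1
  unfold fc at h1' h2 ⊢
  unfold stp at h3
  split_ifs at h3 <;> omega

theorem sta_union {p : J → ℤ} {ι : Type} (S : Set ι) (U : ι → Set (Cl J))
    (h : ∀ i ∈ S, Sta p (U i)) : Sta p (⋃ i ∈ S, U i) := by
  intro x hx c hc
  rw [Set.mem_iUnion₂] at hx ⊢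
  obtain ⟨i, hi, hxi⟩ := hx
  exact ⟨i, hi, h i hi x hxi c hc⟩

theorem sta_inter {p : J → ℤ} {U U' : Set (Cl J)} (h : Sta p U) (h' : Sta p U') :
    Sta p (U ∩ U') := by
  intro x hx c hc
  exact ⟨h x hx.1 c hc, h' x hx.2 c hc⟩

theorem sta_bx {p a b : J → ℤ} (h : ∀ j, a j ≤ p j ∧ p j ≤ b j) : Sta p (Bx a b) := by
  intro x hx c hc j
  have h1 := h j
  have h2 : 2 * a j ≤ 2 * x j ∧ 2 * x j ≤ 2 * b j := hx j
  have h3 := hc j
  unfold stp at h3
  split_ifs at h3 <;> omega

/-- a box collapses to a nonempty sub-box -/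
theorem bx_ex {a b a' b' : J → ℤ} (h : ∀ j, a j ≤ a' j ∧ a' j ≤ b' j ∧ b' j ≤ b j) (j : ℕ) :
    Ex j (Bx a' b') (Bx a b) := by
  refine sta_ex (p := a') (cx_bx a' b') (cx_bx a b) ?_ ?_ ?_ ?_ j
  · intro c hc j
    have h1 := h j
    have h2 : 2 * a' j ≤ c j ∧ c j ≤ 2 * b' j := hc j
    omega
  · refine ⟨fun j => 2 * a' j, fun j => ?_⟩
    have h1 := h j
    show 2 * a' j ≤ 2 * a' j ∧ 2 * a' j ≤ 2 * b' j
    omega
  · exact sta_bx fun j => ⟨le_rfl, (h j).2.1⟩
  · exact sta_bx fun j => ⟨(h j).1, (h j).2.1.trans (h j).2.2⟩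

end MNG
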