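import Pool.Agent.MNG.C2

/-!
# MNG-C5: truncation; the interval

`ex_trunc`: induction on `Ex j T F`, the sets `T ∪ sk (k - 1) K`: a pair `(r, t)` with `dm t ≤ k - 1` gives a pair, with `dm t = k` the single cell `r` of dimension `k - 1`, with `dm t > k` nothing; a single cell `c` gives `c` or nothing.
`ex_rel`: `ex_map` with `E c = mk c 1` (the cell `c × [0,1]`).
`ex_fin1`: with `F1 = F × 1`: (1) pairs `(Q × 0, Q × I)`, `Q ∈ T`: `F × 1 ∪ T × I`; (2) `Q × 0`, `Q ∈ Om`: `ex_map` from `Ex (k+1) T Om`; (3) `Q × I`, `Q ∈ F \ T`: `ex_map` from `Ex k T F`; (4) pairs `(Q × 1, Q × I)`, `Q ∈ Om \ F`.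
In `Cl (V ⊕ Unit)` the last coordinate is `0` (start), `1` (interval) or `2` (end).
-/

set_option autoImplicit false

noncomputable section

namespace MNG

open Set

variable {J V W : Type} [Fintype J] [Fintype V] [Fintype W]

private theorem C5_clo_sk {K : Set (Cl V)} (hK : Clo K) (n : ℕ) : Clo (sk n K) :=
  fun c hc d hd => ⟨hK c hc.1 d hd, (dm_mono hd).trans hc.2⟩

private theorem C5_clo_union {K L : Set (Cl V)} (hK : Clo K) (hL : Clo L) : Clo (K ∪ L) := by
  intro c hc d hd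
  rcases hc with hc | hc
  · exact Or.inl (hK c hc d hd)
  · exact Or.inr (hL c hc d hd)

theorem ex_trunc {j k : ℕ} (hk : 1 ≤ k) {T F : Set (Cl V)} (hT : Clo T) (h : Ex j T F) :
    Ex (min j (k - 1)) T (T ∪ sk (k - 1) F) := by
  induction h with
  | refl =>
    have h1 : T ∪ sk (k - 1) T = T := Set.union_eq_left.2 fun c hc => hc.1
    rw [h1]
    exact Ex.refl
  | pair K r t hK hr ht hft hclo ih =>
    obtain ⟨hKc, hTK⟩ := ex_clo hK hT
    obtain ⟨-, -, hdm⟩ := ft_fa hft
    have hrT : r ∉ T := fun h => hr (hTK h)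
    have htT : t ∉ T := fun h => ht (hTK h)
    have hclo2 : Clo (T ∪ sk (k - 1) (insert r (insert t K))) :=
      C5_clo_union hT (C5_clo_sk hclo _)
    by_cases h1 : dm t ≤ k - 1
    · have h2 : T ∪ sk (k - 1) (insert r (insert t K)) =
          insert r (insert t (T ∪ sk (k - 1) K)) := by
        ext c
        constructor
        · rintro (hc | ⟨hc, hd⟩)
          · exact Or.inr (Or.inr (Or.inl hc))
          · rcases hc with hc | hc | hc
            · exact Or.inl hc
            · exact Or.inr (Or.inl hc)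
            · exact Or.inr (Or.inr (Or.inr ⟨hc, hd⟩))
        · rintro (hc | hc | hc | ⟨hc, hd⟩)
          · right
            refine ⟨Or.inl hc, ?_⟩
            rw [hc]
            omega
          · right
            refine ⟨Or.inr (Or.inl hc), ?_⟩
            rw [hc]
            exact h1
          · exact Or.inl hc
          · exact Or.inr ⟨Or.inr (Or.inr hc), hd⟩
      rw [h2] at hclo2 ⊢
      refine Ex.pair _ r t ih ?_ ?_ hft hclo2
      · rintro (h | h)
        · exact hrT h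
        · exact hr h.1
      · rintro (h | h)
        · exact htT h
        · exact ht h.1
    · by_cases h3 : dm r ≤ k - 1
      · have h2 : T ∪ sk (k - 1) (insert r (insert t K)) = insert r (T ∪ sk (k - 1) K) := by
          ext c
          constructor
          · rintro (hc | ⟨hc, hd⟩)
            · exact Or.inr (Or.inl hc)
            · rcases hc with hc | hc | hc
              · exact Or.inl hc
              · exfalso
                rw [hc] at hd
                exact h1 hd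
              · exact Or.inr (Or.inr ⟨hc, hd⟩)
          · rintro (hc | hc | ⟨hc, hd⟩)
            · right
              refine ⟨Or.inl hc, ?_⟩
              rw [hc]
              exact h3
            · exact Or.inl hc
            · exact Or.inr ⟨Or.inr (Or.inr hc), hd⟩
        rw [h2] at hclo2 ⊢
        refine Ex.cell _ r ih ?_ ?_ hclo2
        · rintro (h | h)
          · exact hrT h
          · exact hr h.1
        · have h4 := min_le_right j (k - 1)
          omega
      · have h2 : T ∪ sk (k - 1) (insert r (insert t K)) = T ∪ sk (k - 1) K := by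
          ext c
          constructor
          · rintro (hc | ⟨hc, hd⟩)
            · exact Or.inl hc
            · rcases hc with hc | hc | hc
              · exfalso
                rw [hc] at hd
                exact h3 hd
              · exfalso
                rw [hc] at hd
                exact h1 hd
              · exact Or.inr ⟨hc, hd⟩
          · rintro (hc | ⟨hc, hd⟩)
            · exact Or.inl hc
            · exact Or.inr ⟨Or.inr (Or.inr hc), hd⟩
        rw [h2]
        exact ih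
  | cell K r hK hr hj hclo ih =>
    obtain ⟨hKc, hTK⟩ := ex_clo hK hT
    have hrT : r ∉ T := fun h => hr (hTK h)
    have hclo2 : Clo (T ∪ sk (k - 1) (insert r K)) :=
      C5_clo_union hT (C5_clo_sk hclo _)
    by_cases h3 : dm r ≤ k - 1
    · have h2 : T ∪ sk (k - 1) (insert r K) = insert r (T ∪ sk (k - 1) K) := by
        ext c
        constructor
        · rintro (hc | ⟨hc, hd⟩)
          · exact Or.inr (Or.inl hc)
          · rcases hc with hc | hc
            · exact Or.inl hc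
            · exact Or.inr (Or.inr ⟨hc, hd⟩)
        · rintro (hc | hc | ⟨hc, hd⟩)
          · right
            refine ⟨Or.inl hc, ?_⟩
            rw [hc]
            exact h3
          · exact Or.inl hc
          · exact Or.inr ⟨Or.inr hc, hd⟩
      rw [h2] at hclo2 ⊢
      refine Ex.cell _ r ih ?_ ((min_le_left _ _).trans hj) hclo2
      rintro (h | h)
      · exact hrT h
      · exact hr h.1
    · have h2 : T ∪ sk (k - 1) (insert r K) = T ∪ sk (k - 1) K := by
        ext c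
        constructor
        · rintro (hc | ⟨hc, hd⟩)
          · exact Or.inl hc
          · rcases hc with hc | hc
            · exfalso
              rw [hc] at hd
              exact h3 hd
            · exact Or.inr ⟨hc, hd⟩
        · rintro (hc | ⟨hc, hd⟩)
          · exact Or.inl hc
          · exact Or.inr ⟨Or.inr hc, hd⟩
      rw [h2]
      exact ih

/-- the cell `c × a` -/
private def C5_E (a : ℤ) (c : Cl V) : Cl (V ⊕ Unit) := mk c fun _ => a

private theorem C5_fs (a : ℤ) (c : Cl V) : fs (C5_E a c) = c := rfl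

private theorem C5_sn (a : ℤ) (c : Cl V) : sn (C5_E a c) () = a := rfl

private theorem C5_eq {z : Cl (V ⊕ Unit)} {a : ℤ} (h : sn z () = a) : z = C5_E a (fs z) := by
  funext x
  rcases x with v | u
  · rfl
  · exact h

private theorem C5_inj {a b : ℤ} {c d : Cl V} (h : C5_E a c = C5_E b d) : c = d := by
  have h1 : fs (C5_E a c) = fs (C5_E b d) := by rw [h]
  exact h1

private theorem C5_inj2 {a b : ℤ} {c d : Cl V} (h : C5_E a c = C5_E b d) : a = b := by
  have h1 : sn (C5_E a c) () = sn (C5_E b d) () := by rw [h]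
  exact h1

private theorem C5_im (a : ℤ) (A : Set (Cl V)) :
    C5_E a '' A = {z : Cl (V ⊕ Unit) | fs z ∈ A ∧ sn z () = a} := by
  ext z
  constructor
  · rintro ⟨c, hc, rfl⟩
    exact ⟨hc, rfl⟩
  · rintro ⟨h1, h2⟩
    exact ⟨fs z, h1, (C5_eq h2).symm⟩

private theorem C5_fa1 {d z : Cl (V ⊕ Unit)} (h : Fa d z) : Fa (fs d) (fs z) :=
  fun v => h (Sum.inl v)

private theorem C5_fa2 {d z : Cl (V ⊕ Unit)} (h : Fa d z) : fc (sn d ()) (sn z ()) :=
  h (Sum.inr ())

private theorem C5_ft {a : ℤ} {r t : Cl V} (h : Ft r t) : Ft (C5_E a r) (C5_E a t) := by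
  obtain ⟨i, h1, h2, h3⟩ := h
  refine ⟨Sum.inl i, h1, h2, ?_⟩
  intro x hx
  rcases x with v | u
  · exact h3 v fun hv => hx (congrArg Sum.inl hv)
  · rfl

private theorem C5_ft1 {a b : ℤ} (hb : b % 2 = 1) (hab : a = b - 1 ∨ a = b + 1) (c : Cl V) :
    Ft (C5_E a c) (C5_E b c) := by
  refine ⟨Sum.inr (), hb, hab, ?_⟩
  intro x hx
  rcases x with v | u
  · rfl
  · exact absurd rfl hx

private theorem C5_dm (a : ℤ) (c : Cl V) :
    dm (C5_E a c) = dm c + if a % 2 = 1 then 1 else 0 := by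
  unfold dm
  rw [Finset.card_filter, Finset.card_filter, Fintype.sum_sum_type]
  rfl

private theorem C5_in (z : Cl (V ⊕ Unit)) :
    sn z ∈ In 1 ↔ sn z () = 0 ∨ sn z () = 1 ∨ sn z () = 2 := by
  unfold In
  rw [Set.mem_ofPred_eq]
  push_cast
  omega

/-- relative product with the interval -/
theorem ex_rel {j : ℕ} {T F : Set (Cl V)} (hT : Clo T) (h : Ex j T F) :
    Ex (j + 1) {z : Cl (V ⊕ Unit) | sn z ∈ In 1 ∧ (fs z ∈ T ∨ (fs z ∈ F ∧ sn z () ≠ 1))}
      (Px F (In 1)) := by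
  obtain ⟨hF, hTF⟩ := ex_clo h hT
  have hN : Clo {z : Cl (V ⊕ Unit) | sn z ∈ In 1 ∧ (fs z ∈ T ∨ (fs z ∈ F ∧ sn z () ≠ 1))} := by
    rintro z ⟨h1, h2⟩ d hd
    refine ⟨(cx_in 1).clo _ h1 _ fun v => hd (Sum.inr v), ?_⟩
    rcases h2 with h2 | ⟨h2, h3⟩
    · exact Or.inl (hT _ h2 _ (C5_fa1 hd))
    · right
      refine ⟨hF _ h2 _ (C5_fa1 hd), ?_⟩
      have h4 := C5_fa2 hd
      rw [C5_in] at h1
      unfold fc at h4
      omega
  have hres : Px F (In 1) = {z : Cl (V ⊕ Unit) | sn z ∈ In 1 ∧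
      (fs z ∈ T ∨ (fs z ∈ F ∧ sn z () ≠ 1))} ∪ C5_E 1 '' F := by
    rw [C5_im]
    ext z
    constructor
    · rintro ⟨h1, h2⟩
      by_cases h3 : sn z () = 1
      · exact Or.inr ⟨h1, h3⟩
      · exact Or.inl ⟨h2, Or.inr ⟨h1, h3⟩⟩
    · rintro (⟨h1, h2⟩ | ⟨h1, h2⟩)
      · rcases h2 with h2 | ⟨h2, h3⟩
        · exact ⟨hTF h2, h1⟩
        · exact ⟨h2, h1⟩
      · exact ⟨h1, (C5_in z).2 (Or.inr (Or.inl h2))⟩
  rw [hres]
  refine ex_map h hT (C5_E 1) _ hN ?_ ?_ ?_ ?_ ?_ ?_
  · intro c _ d _ hcd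
    exact C5_inj hcd
  · intro c hc d hd
    have h1 := C5_fa1 hd
    have h2 := C5_fa2 hd
    rw [C5_fs] at h1
    rw [C5_sn] at h2
    by_cases h3 : sn d () = 1
    · exact Or.inr ⟨fs d, h1, C5_eq h3⟩
    · left
      refine ⟨(C5_in d).2 ?_, Or.inr ⟨hF _ hc _ h1, h3⟩⟩
      unfold fc at h2
      omega
  · intro r _ t _ hrt
    exact C5_ft hrt
  · intro c _ hc
    rw [C5_dm]
    norm_num
    exact hc
  · intro c hc
    exact ⟨(C5_in _).2 (Or.inr (Or.inl rfl)), Or.inl hc⟩
  · rintro c hc hcT ⟨-, h2⟩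
    rcases h2 with h2 | ⟨-, h3⟩
    · exact hcT h2
    · exact h3 rfl

theorem ex_fin1 {k : ℕ} {T F Om : Set (Cl V)} (hT : Cx T) (hF : Cx F) (hO : Cx Om)
    (hTF : T ⊆ F) (hFO : F ⊆ Om) (h1 : Ex (k + 1) T Om) (h2 : Ex k T F) :
    Ex (k + 1) {z : Cl (V ⊕ Unit) | fs z ∈ F ∧ sn z () = 2} (Px Om (In 1)) := by
  have c0 : Clo {z : Cl (V ⊕ Unit) | fs z ∈ F ∧ sn z () = 2} := by
    rintro z ⟨h3, h4⟩ d hd
    refine ⟨hF.clo _ h3 _ (C5_fa1 hd), ?_⟩
    have h5 := C5_fa2 hd
    unfold fc at h5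
    omega
  -- step 1
  have s1 : Ex (k + 1) {z : Cl (V ⊕ Unit) | fs z ∈ F ∧ sn z () = 2}
      ({z : Cl (V ⊕ Unit) | fs z ∈ F ∧ sn z () = 2} ∪ C5_E 0 '' T ∪ C5_E 1 '' T) := by
    refine ex_pairs (A' := ∅) (fun c hc => absurd hc (Set.notMem_empty c)) hT.clo
      (Set.empty_subset _) (hT.fin.subset Set.sdiff_subset) (C5_E 0) (C5_E 1) _ c0
      (fun c _ d _ h => C5_inj h) (fun c _ d _ h => C5_inj h) ?_ ?_ ?_ ?_ ?_ ?_
    · intro c _ d _ h
      have h3 := C5_inj2 h
      omega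
    · intro c hc d hd
      have h3 := C5_fa1 hd
      have h4 := C5_fa2 hd
      rw [C5_fs] at h3
      rw [C5_sn] at h4
      right
      refine ⟨fs d, h3, C5_eq ?_⟩
      unfold fc at h4
      omega
    · intro c hc d hd
      have h3 := C5_fa1 hd
      have h4 := C5_fa2 hd
      rw [C5_fs] at h3
      rw [C5_sn] at h4
      have h5 : sn d () = 0 ∨ sn d () = 1 ∨ sn d () = 2 := by
        unfold fc at h4
        omega
      rcases h5 with h5 | h5 | h5
      · exact Or.inr ⟨fs d, h3, Or.inl (C5_eq h5)⟩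
      · exact Or.inr ⟨fs d, h3, Or.inr (C5_eq h5)⟩
      · exact Or.inl ⟨hTF (hT.clo _ hc _ h3), h5⟩
    · intro c _
      exact C5_ft1 (by norm_num) (Or.inl (by norm_num)) c
    · intro c hc
      exact absurd hc (Set.notMem_empty c)
    · intro c hc _
      constructor
      · rintro ⟨-, h3⟩
        rw [C5_sn] at h3
        omega
      · rintro ⟨-, h3⟩
        rw [C5_sn] at h3
        omega
  have c1 := (ex_clo s1 c0).1
  -- step 2
  have s2 : Ex (k + 1) ({z : Cl (V ⊕ Unit) | fs z ∈ F ∧ sn z () = 2} ∪ C5_E 0 '' T ∪ C5_E 1 '' T)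
      (({z : Cl (V ⊕ Unit) | fs z ∈ F ∧ sn z () = 2} ∪ C5_E 0 '' T ∪ C5_E 1 '' T) ∪
        C5_E 0 '' Om) := by
    refine ex_map h1 hT.clo (C5_E 0) _ c1 (fun c _ d _ h => C5_inj h) ?_
      (fun r _ t _ h => C5_ft h) ?_ ?_ ?_
    · intro c hc d hd
      have h3 := C5_fa1 hd
      have h4 := C5_fa2 hd
      rw [C5_fs] at h3
      rw [C5_sn] at h4
      right
      refine ⟨fs d, h3, C5_eq ?_⟩
      unfold fc at h4
      omega
    · intro c _ hc
      rw [C5_dm]
      norm_num
      exact hc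
    · intro c hc
      exact Or.inl (Or.inr ⟨c, hc, rfl⟩)
    · rintro c hc hcT ((h | ⟨d, hd, h⟩) | ⟨d, hd, h⟩)
      · have h3 := h.2
        rw [C5_sn] at h3
        omega
      · rw [C5_inj h] at hd
        exact hcT hd
      · have h3 := C5_inj2 h
        omega
  have c2 := (ex_clo s2 c1).1
  -- step 3
  have s3 : Ex (k + 1) (({z : Cl (V ⊕ Unit) | fs z ∈ F ∧ sn z () = 2} ∪ C5_E 0 '' T ∪
      C5_E 1 '' T) ∪ C5_E 0 '' Om)
      ((({z : Cl (V ⊕ Unit) | fs z ∈ F ∧ sn z () = 2} ∪ C5_E 0 '' T ∪ C5_E 1 '' T) ∪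
        C5_E 0 '' Om) ∪ C5_E 1 '' F) := by
    refine ex_map h2 hT.clo (C5_E 1) _ c2 (fun c _ d _ h => C5_inj h) ?_
      (fun r _ t _ h => C5_ft h) ?_ ?_ ?_
    · intro c hc d hd
      have h3 := C5_fa1 hd
      have h4 := C5_fa2 hd
      rw [C5_fs] at h3
      rw [C5_sn] at h4
      have h5 : sn d () = 0 ∨ sn d () = 1 ∨ sn d () = 2 := by
        unfold fc at h4
        omega
      have h6 : fs d ∈ F := hF.clo _ hc _ h3
      rcases h5 with h5 | h5 | h5
      · exact Or.inl (Or.inr ⟨fs d, hFO h6, (C5_eq h5).symm⟩)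
      · exact Or.inr ⟨fs d, h3, C5_eq h5⟩
      · exact Or.inl (Or.inl (Or.inl (Or.inl ⟨h6, h5⟩)))
    · intro c _ hc
      rw [C5_dm]
      norm_num
      exact hc
    · intro c hc
      exact Or.inl (Or.inr ⟨c, hc, rfl⟩)
    · rintro c hc hcT (((h | ⟨d, hd, h⟩) | ⟨d, hd, h⟩) | ⟨d, hd, h⟩)
      · have h3 := h.2
        rw [C5_sn] at h3
        omega
      · have h3 := C5_inj2 h
        omega
      · rw [C5_inj h] at hd
        exact hcT hd
      · have h3 := C5_inj2 h
        omega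
  have c3 := (ex_clo s3 c2).1
  -- step 4
  have s4 : Ex (k + 1) ((({z : Cl (V ⊕ Unit) | fs z ∈ F ∧ sn z () = 2} ∪ C5_E 0 '' T ∪
        C5_E 1 '' T) ∪ C5_E 0 '' Om) ∪ C5_E 1 '' F)
      (((({z : Cl (V ⊕ Unit) | fs z ∈ F ∧ sn z () = 2} ∪ C5_E 0 '' T ∪ C5_E 1 '' T) ∪
        C5_E 0 '' Om) ∪ C5_E 1 '' F) ∪ C5_E 2 '' Om ∪ C5_E 1 '' Om) := by
    refine ex_pairs hF.clo hO.clo hFO (hO.fin.subset Set.sdiff_subset) (C5_E 2) (C5_E 1) _ c3
      (fun c _ d _ h => C5_inj h) (fun c _ d _ h => C5_inj h) ?_ ?_ ?_ ?_ ?_ ?_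
    · intro c _ d _ h
      have h3 := C5_inj2 h
      omega
    · intro c hc d hd
      have h3 := C5_fa1 hd
      have h4 := C5_fa2 hd
      rw [C5_fs] at h3
      rw [C5_sn] at h4
      right
      refine ⟨fs d, h3, C5_eq ?_⟩
      unfold fc at h4
      omega
    · intro c hc d hd
      have h3 := C5_fa1 hd
      have h4 := C5_fa2 hd
      rw [C5_fs] at h3
      rw [C5_sn] at h4
      have h5 : sn d () = 0 ∨ sn d () = 1 ∨ sn d () = 2 := by
        unfold fc at h4
        omega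
      have h6 : fs d ∈ Om := hO.clo _ hc _ h3
      rcases h5 with h5 | h5 | h5
      · exact Or.inl (Or.inl (Or.inr ⟨fs d, h6, (C5_eq h5).symm⟩))
      · exact Or.inr ⟨fs d, h3, Or.inr (C5_eq h5)⟩
      · exact Or.inr ⟨fs d, h3, Or.inl (C5_eq h5)⟩
    · intro c _
      exact C5_ft1 (by norm_num) (Or.inr (by norm_num)) c
    · intro c hc
      exact ⟨Or.inl (Or.inl (Or.inl (Or.inl ⟨hc, rfl⟩))), Or.inr ⟨c, hc, rfl⟩⟩
    · intro c hc hcF
      constructor
      · rintro ((((h | ⟨d, hd, h⟩) | ⟨d, hd, h⟩) | ⟨d, hd, h⟩) | ⟨d, hd, h⟩)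
        · exact hcF h.1
        · have h3 := C5_inj2 h
          omega
        · have h3 := C5_inj2 h
          omega
        · have h3 := C5_inj2 h
          omega
        · have h3 := C5_inj2 h
          omega
      · rintro ((((h | ⟨d, hd, h⟩) | ⟨d, hd, h⟩) | ⟨d, hd, h⟩) | ⟨d, hd, h⟩)
        · have h3 := h.2
          rw [C5_sn] at h3
          omega
        · have h3 := C5_inj2 h
          omega
        · rw [C5_inj h] at hd
          exact hcF (hTF hd)
        · have h3 := C5_inj2 h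
          omega
        · rw [C5_inj h] at hd
          exact hcF hd
  have hfin : (((({z : Cl (V ⊕ Unit) | fs z ∈ F ∧ sn z () = 2} ∪ C5_E 0 '' T ∪ C5_E 1 '' T) ∪
        C5_E 0 '' Om) ∪ C5_E 1 '' F) ∪ C5_E 2 '' Om ∪ C5_E 1 '' Om) = Px Om (In 1) := by
    simp only [C5_im]
    ext z
    constructor
    · rintro ((((((h | h) | h) | h) | h) | h) | h)
      · exact ⟨hFO h.1, (C5_in z).2 (Or.inr (Or.inr h.2))⟩
      · exact ⟨hFO (hTF h.1), (C5_in z).2 (Or.inl h.2)⟩
      · exact ⟨hFO (hTF h.1), (C5_in z).2 (Or.inr (Or.inl h.2))⟩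
      · exact ⟨h.1, (C5_in z).2 (Or.inl h.2)⟩
      · exact ⟨hFO h.1, (C5_in z).2 (Or.inr (Or.inl h.2))⟩
      · exact ⟨h.1, (C5_in z).2 (Or.inr (Or.inr h.2))⟩
      · exact ⟨h.1, (C5_in z).2 (Or.inr (Or.inl h.2))⟩
    · rintro ⟨h3, h4⟩
      rcases (C5_in z).1 h4 with h5 | h5 | h5
      · exact Or.inl (Or.inl (Or.inl (Or.inr ⟨h3, h5⟩)))
      · exact Or.inr ⟨h3, h5⟩
      · exact Or.inl (Or.inr ⟨h3, h5⟩)
  rw [hfin] at s4
  exact ex_trans s1 (ex_trans s2 (ex_trans s3 s4))

end MNG
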