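import Pool.Agent.AGM.Defs

/-!
# Project MNG (MP_b5674c_gt, frozen S13800): definitions

Uniqueness of the inverse limits of cubical towers; blueprint /team-store/menger_h18.md.
Cells are points of `ℤ^J` in DOUBLED coordinates: an even coordinate `2 n` is the lattice point `n`,
an odd coordinate `2 n + 1` is the unit interval `[n, n + 1]`. The barycentre of `c` is `c / 2`.
-/

set_option autoImplicit false

noncomputable section

namespace MNG

open AGM (Ei Bl Sp)
open Set Topology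

/-! ## cells and complexes -/

/-- cells in doubled coordinates -/
abbrev Cl (J : Type) : Type := J → ℤ

/-- faces in one coordinate -/
def fc (a b : ℤ) : Prop := a = b ∨ (b % 2 = 1 ∧ (a = b - 1 ∨ a = b + 1))

/-- `c` is a face of `d` -/
def Fa {J : Type} (c d : Cl J) : Prop := ∀ j, fc (c j) (d j)

/-- the dimension -/
def dm {J : Type} [Fintype J] (c : Cl J) : ℕ := (Finset.univ.filter (fun j => c j % 2 = 1)).card

/-- the geometric cell -/
def bo {J : Type} (c : Cl J) : Set (J → ℝ) :=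
  {x | ∀ j, |2 * x j - (c j : ℝ)| ≤ ((c j % 2 : ℤ) : ℝ)}

/-- the body of a set of cells -/
def Bo {J : Type} (K : Set (Cl J)) : Set (J → ℝ) := {x | ∃ c ∈ K, x ∈ bo c}

/-- closed under faces -/
def Clo {J : Type} (K : Set (Cl J)) : Prop := ∀ c ∈ K, ∀ d, Fa d c → d ∈ K

/-- finite complexes -/
structure Cx {J : Type} (K : Set (Cl J)) : Prop where
  fin : K.Finite
  clo : Clo K

/-- the `k`-skeleton -/
def sk {J : Type} [Fintype J] (k : ℕ) (K : Set (Cl J)) : Set (Cl J) := {c | c ∈ K ∧ dm c ≤ k}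

/-- all faces of a cell -/
def Fc {J : Type} (c : Cl J) : Set (Cl J) := {d | Fa d c}

/-- the box with the lowest vertex `a` and the highest vertex `b` (lattice points) -/
def Bx {J : Type} (a b : J → ℤ) : Set (Cl J) := {c | ∀ j, 2 * a j ≤ c j ∧ c j ≤ 2 * b j}

/-- the carrier of a coordinate of the `R`-grid -/
def ca1 (R : ℕ) (z : ℤ) : ℤ := if 2 * (R : ℤ) ∣ z then z / (R : ℤ) else 2 * (z / (2 * (R : ℤ))) + 1

/-- the carrier of a cell of the `R`-grid in the coarse lattice -/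
def ca {J : Type} (R : ℕ) (c : Cl J) : Cl J := fun j => ca1 R (c j)

/-- the subdivision of `R` times `K` -/
def Gr {J : Type} (R : ℕ) (K : Set (Cl J)) : Set (Cl J) := {c | ca R c ∈ K}

/-- first part of a cell of a product -/
def fs {J V : Type} (c : Cl (J ⊕ V)) : Cl J := fun j => c (Sum.inl j)

/-- second part of a cell of a product -/
def sn {J V : Type} (c : Cl (J ⊕ V)) : Cl V := fun v => c (Sum.inr v)

/-- the product of two complexes -/
def Px {J V : Type} (K : Set (Cl J)) (L : Set (Cl V)) : Set (Cl (J ⊕ V)) :=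
  {c | fs c ∈ K ∧ sn c ∈ L}

/-- the interval `[0, N]` -/
def In (N : ℕ) : Set (Cl Unit) := {c | 0 ≤ c () ∧ c () ≤ 2 * (N : ℤ)}

/-! ## maps -/

/-- carriers: monotone maps of cells -/
structure Mon {J V : Type} (K : Set (Cl J)) (T : Set (Cl V)) (f : Cl J → Cl V) : Prop where
  map : ∀ c ∈ K, f c ∈ T
  mono : ∀ c ∈ K, ∀ d, Fa d c → Fa (f d) (f c)

/-- cube maps: monotone and the dimension does not increase -/
structure Cub {J V : Type} [Fintype J] [Fintype V] (K : Set (Cl J)) (T : Set (Cl V))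
    (f : Cl J → Cl V) : Prop extends Mon K T f where
  dim : ∀ c ∈ K, dm (f c) ≤ dm c

/-- the fibre over the closed cell `S` -/
def Fb {J V : Type} (f : Cl J → Cl V) (K : Set (Cl J)) (S : Cl V) : Set (Cl J) :=
  {c | c ∈ K ∧ Fa (f c) S}

/-- `B` is nonempty and every map of the sphere of dimension `i - 1`, `1 ≤ i ≤ k`, into `B` extends
to the ball -/
def Cs (k : ℕ) {X : Type} [TopologicalSpace X] (B : Set X) : Prop :=
  B.Nonempty ∧ ∀ i : ℕ, 1 ≤ i → i ≤ k → ∀ φ : Ei i → X, ContinuousOn φ (Sp i) →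
    MapsTo φ (Sp i) B → ∃ Φ : Ei i → X, ContinuousOn Φ (Bl i) ∧ MapsTo Φ (Bl i) B ∧ EqOn Φ φ (Sp i)

/-- soft maps: the fibres over all closed cells are `(k-1)`-connected -/
def Soft {J V : Type} (k : ℕ) (K : Set (Cl J)) (T : Set (Cl V)) (f : Cl J → Cl V) : Prop :=
  ∀ S ∈ T, Cs k (Bo (Fb f K S))

/-- the face of the carrier of `x` at level `s` -/
def Fx {J : Type} (s : ℝ) (x : J → ℝ) : Cl J :=
  fun j => if |x j - round (x j)| ≤ s / 2 then 2 * round (x j) else 2 * ⌊x j⌋ + 1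

/-- the carrier of a point -/
def cr {J : Type} (x : J → ℝ) : Cl J := Fx 0 x

/-- the realization of a monotone map -/
def rl {J V : Type} (f : Cl J → Cl V) (x : J → ℝ) : V → ℝ :=
  fun v => (∫ s in (0 : ℝ)..1, ((f (Fx s x) v : ℤ) : ℝ)) / 2

/-! ## expansions -/

/-- `r` is a facet of `t` -/
def Ft {J : Type} (r t : Cl J) : Prop :=
  ∃ i, t i % 2 = 1 ∧ (r i = t i - 1 ∨ r i = t i + 1) ∧ ∀ j, j ≠ i → r j = t j

/-- `Ex j K' K`: `K` is obtained from `K'` by adding pairs (facet, cell) and single cells of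
dimension at least `j`, all intermediate sets being closed under faces. `K` collapses to `K'` if
`Ex j K' K` for all `j`. -/
inductive Ex {J : Type} [Fintype J] (j : ℕ) (K' : Set (Cl J)) : Set (Cl J) → Prop
  | refl : Ex j K' K'
  | pair (K : Set (Cl J)) (r t : Cl J) : Ex j K' K → r ∉ K → t ∉ K → Ft r t →
      Clo (insert r (insert t K)) → Ex j K' (insert r (insert t K))
  | cell (K : Set (Cl J)) (c : Cl J) : Ex j K' K → c ∉ K → j ≤ dm c → Clo (insert c K) →
      Ex j K' (insert c K)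

/-- the vertices of the cell `c` (lattice points, not doubled) -/
def Vx {J : Type} (c : Cl J) : Set (J → ℤ) := {v | Fa (fun j => 2 * v j) c}

/-- one step from `x` towards `p` -/
def stp (p x : ℤ) : ℤ := if x < p then 1 else -1

/-- `U` is star-closed with respect to the lattice point `p`: for every vertex `x` of `U` all cells
`c` with `c_i = x_i` or, if `x_i ≠ p_i`, `c_i` the unit edge at `x_i` towards `p_i`, belong
to `U` -/
def Sta {J : Type} (p : J → ℤ) (U : Set (Cl J)) : Prop :=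
  ∀ x : J → ℤ, (fun j => 2 * x j) ∈ U → ∀ c : Cl J,
    (∀ j, c j = 2 * x j ∨ (x j ≠ p j ∧ c j = 2 * x j + stp (p j) (x j))) → c ∈ U

/-! ## towers -/

/-- towers of finite complexes -/
structure Tw (k : ℕ) where
  J : ℕ → Type
  [fJ : ∀ b, Fintype (J b)]
  M : ∀ b, Set (Cl (J b))
  cx : ∀ b, Cx (M b)
  ne : ∀ b, (M b).Nonempty
  D : ℕ
  dmM : ∀ b, ∀ c ∈ M b, dm c ≤ D
  /-- geometric carriers -/
  ka : ∀ b, Cl (J (b + 1)) → Cl (J b)
  kam : ∀ b, Mon (M (b + 1)) (M b) (ka b)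
  /-- geometric projections -/
  pr : ∀ b, (J (b + 1) → ℝ) → (J b → ℝ)
  prL : ∀ b x y, dist (pr b x) (pr b y) ≤ dist x y / 2
  prk : ∀ b, ∀ c ∈ M (b + 1), ∀ x ∈ bo c, pr b x ∈ bo (ka b c)
  /-- rounding maps -/
  r : ∀ b, Cl (J (b + 1)) → Cl (J b)
  rm : ∀ b, Cub (M (b + 1)) (sk k (M b)) (r b)
  rk : ∀ b, ∀ c ∈ M (b + 1), Fa (r b c) (ka b c)
  /-- the maps of property (B) -/
  g : ∀ b, Cl (J (b + 1)) → Cl (J b ⊕ Unit)
  gm : ∀ b, Cub (sk k (M (b + 1))) (sk k (Px (Gr 8 (sk k (M b))) (In 1))) (g b)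
  gs : ∀ b, Soft k (sk k (M (b + 1))) (sk k (Px (Gr 8 (sk k (M b))) (In 1))) (g b)
  gk : ∀ b, ∀ c ∈ sk k (M (b + 1)), Fa (ca 8 (fs (g b c))) (ka b c)

attribute [instance] Tw.fJ

variable {k : ℕ}

/-- the complexes of dimension at most `k` of the tower -/
def Tw.X (T : Tw k) (b : ℕ) : Set (Cl (T.J b)) := sk k (T.M b)

/-- composition of the carriers -/
def Tw.kk (T : Tw k) (b : ℕ) : ∀ n, Cl (T.J (b + n)) → Cl (T.J b)
  | 0 => fun c => c
  | n + 1 => fun c => Tw.kk T b n (T.ka (b + n) c)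

/-- the inverse limit -/
def Tw.Lim (T : Tw k) : Set (∀ b, T.J b → ℝ) :=
  {x | ∀ b, x b ∈ Bo (T.M b) ∧ T.pr b (x (b + 1)) = x b}

/-- `W` with the carrier `κ` is dominated by a soft map of a complex of the tower -/
def Ab (T : Tw k) (b : ℕ) {V : Type} [Fintype V] (W : Set (Cl V)) (κ : Cl V → Cl (T.J b)) : Prop :=
  ∃ n : ℕ, ∃ f : Cl (T.J (b + n)) → Cl V, Cub (T.X (b + n)) (sk k W) f ∧
    Soft k (T.X (b + n)) (sk k W) f ∧ ∀ c ∈ T.X (b + n), Fa (κ (f c)) (T.kk b n c)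

/-- generic towers -/
def Gen (T : Tw k) : Prop :=
  ∀ (b : ℕ) (V : Type) [Fintype V] (F : Set (Cl V)) (a : Cl V → Cl (T.J b)), Cx F →
    (∀ c ∈ F, dm c ≤ k) → Cub F (T.X b) a → Soft k F (T.X b) a →
    ∃ n : ℕ, 1 ≤ n ∧ ∃ f : Cl (T.J (b + n)) → Cl V, Cub (T.X (b + n)) F f ∧
      Soft k (T.X (b + n)) F f ∧ ∀ c ∈ T.X (b + n), Fa (a (f c)) (T.kk b n c)

end MNG
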