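import Pool.Agent.MNG.A3

/-!
# MNG-F1: the two homotopies of FIB, coordinatewise

`mu_iff`, `ca_iff`: `omega` (`ca1_eq`). With `le_cr`, `cr_le` (file A3): `Fa p (mu (cr y))` says that for
all `j`: `y_j ∈ [4 p_j - 4, 4 p_j + 4]` if `p_j` is even, `y_j = 4 p_j` if `p_j` is odd;
`Fa (ca 8 (cr y)) s` says `y_j ∈ [8 lo, 8 hi]`, `lo = s_j / 2`, `hi = (s_j + 1) / 2` (integer division).
`cl_mu`, `cl_ca`: `p_j` is a face of `s_j`. If `p_j` is odd, `y_j = 4 p_j` is in the interval of the clamp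
and does not move. If `p_j = 2 m` then `8 m` is in the interval of the clamp, so the
clamped value is between `y_j` and `8 m` and the point moves towards `8 m` without
crossing it, inside `[8 m - 4, 8 m + 4]`.
`ce_mu`, `ce_ca`: now `y_j` is in `[8 lo, 8 hi]`, the point moves to the centre `4 s_j`.
-/

set_option autoImplicit false

noncomputable section

namespace MNG

open AGM (Ei Bl Sp)
open Set Topology

variable {J : Type}

theorem mu_iff (p d : ℤ) : fc p (mu1 d) ↔
    (p % 2 = 0 ∧ 8 * p - 8 ≤ d ∧ d ≤ 8 * p + 8) ∨ (p % 2 = 1 ∧ d = 8 * p) := by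
  unfold fc mu1
  split_ifs <;> omega

theorem ca_iff (d s : ℤ) : fc (ca1 8 d) s ↔ 16 * (s / 2) ≤ d ∧ d ≤ 16 * ((s + 1) / 2) := by
  rw [ca1_eq]
  unfold fc
  split_ifs <;> omega

/-- the clamp to the `8`-fold of a cell in one coordinate -/
def cl1 (s : ℤ) (y : ℝ) : ℝ :=
  max (8 * ((s / 2 : ℤ) : ℝ)) (min (8 * (((s + 1) / 2 : ℤ) : ℝ)) y)

/-- first homotopy -/
def h1 (s : Cl J) (t : ℝ) (y : J → ℝ) : J → ℝ := fun j => (1 - t) * y j + t * cl1 (s j) (y j)

/-- second homotopy -/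
def h2 (s : Cl J) (t : ℝ) (y : J → ℝ) : J → ℝ := fun j => (1 - t) * y j + t * (4 * (s j : ℝ))

theorem h1_cont (s : Cl J) : Continuous (fun z : ℝ × (J → ℝ) => h1 s z.1 z.2) := by
  refine continuous_pi fun j => ?_
  change Continuous fun z : ℝ × (J → ℝ) => (1 - z.1) * z.2 j + z.1 *
    (max (8 * ((s j / 2 : ℤ) : ℝ)) (min (8 * (((s j + 1) / 2 : ℤ) : ℝ)) (z.2 j)))
  have e1 : Continuous fun z : ℝ × (J → ℝ) => z.2 j := (continuous_apply j).comp continuous_snd
  exact ((continuous_const.sub continuous_fst).mul e1).add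
    (continuous_fst.mul (continuous_const.max (continuous_const.min e1)))

theorem h2_cont (s : Cl J) : Continuous (fun z : ℝ × (J → ℝ) => h2 s z.1 z.2) := by
  refine continuous_pi fun j => ?_
  change Continuous fun z : ℝ × (J → ℝ) => (1 - z.1) * z.2 j + z.1 * (4 * (s j : ℝ))
  have e1 : Continuous fun z : ℝ × (J → ℝ) => z.2 j := (continuous_apply j).comp continuous_snd
  exact ((continuous_const.sub continuous_fst).mul e1).add (continuous_fst.mul continuous_const)

private def f1MU (p : ℤ) (x : ℝ) : Prop :=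
  (p % 2 = 0 ∧ 4 * (p : ℝ) - 4 ≤ x ∧ x ≤ 4 * p + 4) ∨ (p % 2 = 1 ∧ x = 4 * p)

private def f1CA (x : ℝ) (s : ℤ) : Prop :=
  8 * ((s / 2 : ℤ) : ℝ) ≤ x ∧ x ≤ 8 * (((s + 1) / 2 : ℤ) : ℝ)

private theorem f1_mu (p : Cl J) (y : J → ℝ) : Fa p (mu (cr y)) ↔ ∀ j, f1MU (p j) (y j) := by
  unfold Fa mu
  refine forall_congr' fun j => ?_
  rw [mu_iff]
  unfold f1MU
  have e1 := le_cr y j (4 * p j - 4)
  have e2 := cr_le y j (4 * p j + 4)
  have e3 := le_cr y j (4 * p j)
  have e4 := cr_le y j (4 * p j)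
  push_cast at e1 e2 e3 e4
  rw [← e1, ← e2]
  have e5 : y j = 4 * (p j : ℝ) ↔ cr y j = 8 * p j := by
    constructor
    · intro h
      have a1 := e3.2 h.ge
      have a2 := e4.2 h.le
      omega
    · intro h
      exact le_antisymm (e4.1 (by omega)) (e3.1 (by omega))
  rw [e5]
  constructor
  · rintro (h | h)
    · left
      omega
    · right
      exact h
  · rintro (h | h)
    · left
      omega
    · right
      exact h

private theorem f1_ca (y : J → ℝ) (s : Cl J) : Fa (ca 8 (cr y)) s ↔ ∀ j, f1CA (y j) (s j) := by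
  unfold Fa ca
  refine forall_congr' fun j => ?_
  rw [ca_iff]
  unfold f1CA
  have e1 := le_cr y j (8 * (s j / 2))
  have e2 := cr_le y j (8 * ((s j + 1) / 2))
  push_cast at e1 e2
  rw [← e1, ← e2]
  omega

private theorem f1_cell (s : ℤ) : (s % 2 = 0 ∧ 8 * ((s / 2 : ℤ) : ℝ) = 4 * s ∧
    8 * (((s + 1) / 2 : ℤ) : ℝ) = 4 * s) ∨ (s % 2 = 1 ∧ 8 * ((s / 2 : ℤ) : ℝ) = 4 * s - 4 ∧
    8 * (((s + 1) / 2 : ℤ) : ℝ) = 4 * s + 4) := by
  rcases Int.emod_two_eq_zero_or_one s with h | h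
  · left
    have e1 : 8 * (s / 2) = 4 * s := by omega
    have e2 : 8 * ((s + 1) / 2) = 4 * s := by omega
    refine ⟨h, ?_, ?_⟩
    · exact_mod_cast e1
    · exact_mod_cast e2
  · right
    have e1 : 8 * (s / 2) = 4 * s - 4 := by omega
    have e2 : 8 * ((s + 1) / 2) = 4 * s + 4 := by omega
    refine ⟨h, ?_, ?_⟩
    · exact_mod_cast e1
    · exact_mod_cast e2

/-- the three positions of a face -/
private theorem f1_face {p s : ℤ} (h : fc p s) :
    (p % 2 = 1 ∧ p = s ∧ 8 * ((s / 2 : ℤ) : ℝ) = 4 * p - 4 ∧ 8 * (((s + 1) / 2 : ℤ) : ℝ) = 4 * p + 4) ∨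
    (p % 2 = 0 ∧ (s : ℝ) = p ∧ 8 * ((s / 2 : ℤ) : ℝ) = 4 * p ∧ 8 * (((s + 1) / 2 : ℤ) : ℝ) = 4 * p) ∨
    (p % 2 = 0 ∧ (s : ℝ) = p + 1 ∧ 8 * ((s / 2 : ℤ) : ℝ) = 4 * p ∧
      8 * (((s + 1) / 2 : ℤ) : ℝ) = 4 * p + 8) ∨
    (p % 2 = 0 ∧ (s : ℝ) = p - 1 ∧ 8 * ((s / 2 : ℤ) : ℝ) = 4 * p - 8 ∧
      8 * (((s + 1) / 2 : ℤ) : ℝ) = 4 * p) := by
  rcases h with h | ⟨h, h | h⟩
  · rcases f1_cell s with ⟨a, b, c⟩ | ⟨a, b, c⟩
    · right
      left
      subst h
      exact ⟨a, rfl, b, c⟩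
    · left
      subst h
      exact ⟨a, rfl, b, c⟩
  · rcases f1_cell s with ⟨a, b, c⟩ | ⟨a, b, c⟩
    · omega
    · right
      right
      left
      have e1 : (p : ℝ) = s - 1 := by exact_mod_cast h
      rw [b, c, e1]
      refine ⟨by omega, by ring, by ring, by ring⟩
  · rcases f1_cell s with ⟨a, b, c⟩ | ⟨a, b, c⟩
    · omega
    · right
      right
      right
      have e1 : (p : ℝ) = s + 1 := by exact_mod_cast h
      rw [b, c, e1]
      refine ⟨by omega, by ring, by ring, by ring⟩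

private theorem f1_cl {a b y : ℝ} (hab : a ≤ b) : (y ≤ a ∧ max a (min b y) = a) ∨
    (a ≤ y ∧ y ≤ b ∧ max a (min b y) = y) ∨ (b ≤ y ∧ max a (min b y) = b) := by
  rcases le_total y a with h | h
  · left
    exact ⟨h, by rw [min_eq_right (h.trans hab), max_eq_left h]⟩
  · right
    rcases le_total y b with h3 | h3
    · left
      exact ⟨h, h3, by rw [min_eq_right h3, max_eq_right h]⟩
    · right
      exact ⟨h3, by rw [min_eq_left h3, max_eq_right hab]⟩

/-- the movement of a point under the first homotopy: it is fixed or moves towards `4 p` -/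
private theorem f1_move {p s : ℤ} (hps : fc p s) {t : ℝ} (t0 : 0 ≤ t) (t1 : t ≤ 1) {y : ℝ}
    (hy : f1MU p y) : (1 - t) * y + t * cl1 s y = y ∨ (p % 2 = 0 ∧
      ((4 * (p : ℝ) ≤ (1 - t) * y + t * cl1 s y ∧ (1 - t) * y + t * cl1 s y ≤ y) ∨
       ((1 - t) * y + t * cl1 s y ≤ 4 * (p : ℝ) ∧ y ≤ (1 - t) * y + t * cl1 s y))) := by
  rcases f1_face hps with ⟨h1, h2, h3, h4⟩ | ⟨h1, h2, h3, h4⟩ | ⟨h1, h2, h3, h4⟩ | ⟨h1, h2, h3, h4⟩
  · left
    rcases hy with hy | hy
    · omega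
    · unfold cl1
      rw [h3, h4, hy.2]
      rw [min_eq_right (by linarith), max_eq_right (by linarith)]
      ring
  · right
    refine ⟨h1, ?_⟩
    unfold cl1
    rw [h3, h4]
    have e : max (4 * (p : ℝ)) (min (4 * p) y) = 4 * p := max_eq_left (min_le_left _ _)
    rw [e]
    rcases le_total y (4 * (p : ℝ)) with h | h
    · right
      constructor <;> nlinarith
    · left
      constructor <;> nlinarith
  · unfold cl1
    rw [h3, h4]
    rcases f1_cl (a := 4 * (p : ℝ)) (b := 4 * p + 8) (y := y) (by linarith) with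
      ⟨a, b⟩ | ⟨a, b, c⟩ | ⟨a, b⟩
    · right
      refine ⟨h1, Or.inr ?_⟩
      rw [b]
      constructor <;> nlinarith
    · left
      rw [c]
      ring
    · exfalso
      rcases hy with hy | hy
      · linarith [hy.2.2]
      · omega
  · unfold cl1
    rw [h3, h4]
    rcases f1_cl (a := 4 * (p : ℝ) - 8) (b := 4 * p) (y := y) (by linarith) with
      ⟨a, b⟩ | ⟨a, b, c⟩ | ⟨a, b⟩
    · exfalso
      rcases hy with hy | hy
      · linarith [hy.2.1]
      · omega
    · left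
      rw [c]
      ring
    · right
      refine ⟨h1, Or.inl ?_⟩
      rw [b]
      constructor <;> nlinarith

theorem h1_mu {p s : Cl J} (hps : Fa p s) {t : ℝ} (t0 : 0 ≤ t) (t1 : t ≤ 1) {y : J → ℝ}
    (hy : Fa p (mu (cr y))) : Fa p (mu (cr (h1 s t y))) := by
  rw [f1_mu] at hy ⊢
  intro j
  have e := hy j
  change f1MU (p j) ((1 - t) * y j + t * cl1 (s j) (y j))
  rcases f1_move (hps j) t0 t1 e with h | ⟨h, h3 | h3⟩
  · rw [h]
    exact e
  · left
    rcases e with e | e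
    · exact ⟨h, by linarith [e.2.1, h3.1], by linarith [e.2.2, h3.2]⟩
    · omega
  · left
    rcases e with e | e
    · exact ⟨h, by linarith [e.2.1, h3.2], by linarith [e.2.2, h3.1]⟩
    · omega

private theorem f1_carrier (y : J → ℝ) (j : J) : ∃ m : ℤ,
    (y j = 8 * m ∧ ca 8 (cr y) j = 2 * m) ∨
      (8 * (m : ℝ) < y j ∧ y j < 8 * m + 8 ∧ ca 8 (cr y) j = 2 * m + 1) := by
  have e : ca 8 (cr y) j = ca1 8 (cr y j) := rfl
  rw [e, ca1_eq]
  refine ⟨cr y j / 16, ?_⟩
  split_ifs with h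
  · left
    refine ⟨?_, rfl⟩
    have a1 := (le_cr y j (8 * (cr y j / 16))).1 (by omega)
    have a2 := (cr_le y j (8 * (cr y j / 16))).1 (by omega)
    push_cast at a1 a2
    exact le_antisymm a2 a1
  · right
    refine ⟨?_, ?_, rfl⟩
    · have a1 : ¬ cr y j ≤ 2 * (8 * (cr y j / 16)) := by omega
      rw [cr_le] at a1
      push_cast at a1
      exact not_le.1 a1
    · have a1 : ¬ 2 * (8 * (cr y j / 16) + 8) ≤ cr y j := by omega
      rw [le_cr] at a1
      push_cast at a1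
      exact not_le.1 a1

theorem h1_ca {p s : Cl J} (hps : Fa p s) {t : ℝ} (t0 : 0 ≤ t) (t1 : t ≤ 1) {y : J → ℝ}
    (hy : Fa p (mu (cr y))) : Fa (ca 8 (cr (h1 s t y))) (ca 8 (cr y)) := by
  rw [f1_mu] at hy
  rw [f1_ca]
  intro j
  have e := hy j
  change f1CA ((1 - t) * y j + t * cl1 (s j) (y j)) (ca 8 (cr y) j)
  have hm := f1_move (hps j) t0 t1 e
  set x : ℝ := (1 - t) * y j + t * cl1 (s j) (y j) with hx
  obtain ⟨m, ⟨a, b⟩ | ⟨a, b, c⟩⟩ := f1_carrier y j
  · rw [b]
    unfold f1CA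
    have e1 : (2 * m) / 2 = m := by omega
    have e2 : (2 * m + 1) / 2 = m := by omega
    rw [e1, e2]
    rcases hm with h | ⟨h, h3⟩
    · rw [h, a]
      exact ⟨le_refl _, le_refl _⟩
    · have hp : (4 : ℝ) * p j = 8 * m := by
        rcases e with e | e
        · obtain ⟨q, hq⟩ : ∃ q : ℤ, p j = 2 * q := ⟨p j / 2, by omega⟩
          have e3 := e.2.1
          have e4 := e.2.2
          rw [a] at e3 e4
          have e5 : p j ≤ 2 * m + 1 := by
            have : (p j : ℝ) ≤ 2 * m + 1 := by linarith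
            exact_mod_cast this
          have e6 : 2 * m ≤ p j + 1 := by
            have : (2 : ℝ) * m ≤ p j + 1 := by linarith
            exact_mod_cast this
          have e7 : p j = 2 * m := by omega
          rw [e7]
          push_cast
          ring
        · omega
      rw [a, hp] at h3
      rcases h3 with h3 | h3
      · exact ⟨h3.1, h3.2⟩
      · exact ⟨h3.2, h3.1⟩
  · rw [c]
    unfold f1CA
    have e1 : (2 * m + 1) / 2 = m := by omega
    have e2 : (2 * m + 1 + 1) / 2 = m + 1 := by omega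
    rw [e1, e2]
    push_cast
    rcases hm with h | ⟨h, h3⟩
    · rw [h]
      exact ⟨a.le, by linarith⟩
    · rcases e with e | e
      · obtain ⟨q, hq⟩ : ∃ q : ℤ, p j = 2 * q := ⟨p j / 2, by omega⟩
        have hqR : (p j : ℝ) = 2 * q := by exact_mod_cast hq
        rcases h3 with h3 | h3
        · have e5 : m ≤ q := by
            have e6 : (m : ℝ) < q + 1 := by
              have := e.2.2
              linarith
            have e7 : m < q + 1 := by exact_mod_cast e6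
            omega
          have e8 : (m : ℝ) ≤ q := by exact_mod_cast e5
          constructor
          · linarith [h3.1]
          · linarith [h3.2]
        · have e5 : q ≤ m + 1 := by
            have e6 : (q : ℝ) < m + 2 := by
              have := e.2.1
              linarith
            have e7 : q < m + 2 := by exact_mod_cast e6
            omega
          have e8 : (q : ℝ) ≤ m + 1 := by exact_mod_cast e5
          constructor
          · linarith [h3.2]
          · linarith [h3.1]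
      · omega

theorem h1_end (s : Cl J) (y : J → ℝ) : Fa (ca 8 (cr (h1 s 1 y))) s := by
  rw [f1_ca]
  intro j
  change f1CA ((1 - 1) * y j + 1 * cl1 (s j) (y j)) (s j)
  have e : (1 - 1) * y j + 1 * cl1 (s j) (y j) = cl1 (s j) (y j) := by ring
  rw [e]
  unfold f1CA cl1
  refine ⟨le_max_left _ _, max_le ?_ (min_le_left _ _)⟩
  rcases f1_cell (s j) with ⟨a, b, c⟩ | ⟨a, b, c⟩
  · rw [b, c]
  · rw [b, c]
    linarith

theorem h2_mu {p s : Cl J} (hps : Fa p s) {t : ℝ} (t0 : 0 ≤ t) (t1 : t ≤ 1) {y : J → ℝ}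
    (hy : Fa p (mu (cr y))) (hs : Fa (ca 8 (cr y)) s) : Fa p (mu (cr (h2 s t y))) := by
  rw [f1_mu] at hy ⊢
  rw [f1_ca] at hs
  intro j
  have e := hy j
  obtain ⟨k1, k2⟩ := hs j
  change f1MU (p j) ((1 - t) * y j + t * (4 * (s j : ℝ)))
  rcases f1_face (hps j) with
    ⟨h1, h2, h3, h4⟩ | ⟨h1, h2, h3, h4⟩ | ⟨h1, h2, h3, h4⟩ | ⟨h1, h2, h3, h4⟩
  · rcases e with e | e
    · omega
    · right
      refine ⟨h1, ?_⟩
      have h5 : (s j : ℝ) = p j := by exact_mod_cast h2.symm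
      rw [e.2, h5]
      ring
  · left
    rw [h3] at k1
    rw [h4] at k2
    have k3 : y j = 4 * p j := le_antisymm k2 k1
    rw [h2, k3]
    have k4 : (1 - t) * (4 * (p j : ℝ)) + t * (4 * (p j : ℝ)) = 4 * p j := by ring
    rw [k4]
    exact ⟨h1, by linarith, by linarith⟩
  · left
    rw [h3] at k1
    rcases e with e | e
    · rw [h2]
      have k3 := e.2.2
      refine ⟨h1, ?_, ?_⟩ <;> nlinarith
    · omega
  · left
    rw [h4] at k2
    rcases e with e | e
    · rw [h2]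
      have k3 := e.2.1
      refine ⟨h1, ?_, ?_⟩ <;> nlinarith
    · omega

theorem h2_ca {s : Cl J} {t : ℝ} (t0 : 0 ≤ t) (t1 : t ≤ 1) {y : J → ℝ}
    (hs : Fa (ca 8 (cr y)) s) : Fa (ca 8 (cr (h2 s t y))) s := by
  rw [f1_ca] at hs ⊢
  intro j
  obtain ⟨k1, k2⟩ := hs j
  change f1CA ((1 - t) * y j + t * (4 * (s j : ℝ))) (s j)
  unfold f1CA
  rcases f1_cell (s j) with ⟨a, b, c⟩ | ⟨a, b, c⟩
  · rw [b] at k1 ⊢
    rw [c] at k2 ⊢
    constructor <;> nlinarith
  · rw [b] at k1 ⊢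
    rw [c] at k2 ⊢
    constructor <;> nlinarith

/-- the centre -/
theorem mu_centre (s : Cl J) : mu (fun j => 8 * s j) = s := by
  funext j
  change mu1 (8 * s j) = s j
  unfold mu1
  split_ifs <;> omega

theorem ca_centre (s : Cl J) : ca 8 (fun j => 8 * s j) = s := by
  funext j
  change ca1 8 (8 * s j) = s j
  rw [ca1_eq]
  split_ifs <;> omega

end MNG
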