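import Pool.Agent.MNG.F1
import Pool.Agent.MNG.A2
import Pool.Agent.MNG.T1
import Pool.Agent.MNG.C4

/-!
# MNG-F2: the projection of the complex `F#` to `F` is soft

`fib_cs`: the set `C` of cells is closed. `cs_hom` with `h1` in the second factor and `B'` the body of
the cells with moreover `ca 8 (sn z) ≤ s := κ S`: for a point `(x, y)` of the body with carrier
`(c, d)` (`cr` of a product is taken coordinatewise), `p := κ c ≤ s`, `h1_mu` and `h1_ca` (`ca 8 d' ≤ ca 8 d ∈ L`),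
end: `h1_end`. Then `cs_hom` with `h2` (`h2_mu`, `h2_ca`, `s ∈ L`) and `B' = bo (mk S (8 s))`,
which is convex and is in the body: `κ c ≤ s = mu (8 s)` for `c ≤ S`.
`soft_sharp`: the fibre over `S ∈ F` is the set of `fib_cs`.
-/

set_option autoImplicit false

noncomputable section

namespace MNG

open AGM (Ei Bl Sp)
open Set Topology

variable {J V : Type} [Fintype J] [Fintype V] {k : ℕ}

/-- the complex `F#` -/
def Fs (κ : Cl V → Cl J) (F : Set (Cl V)) (L : Set (Cl J)) : Set (Cl (V ⊕ J)) :=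
  {z | fs z ∈ F ∧ sn z ∈ Gr 8 L ∧ Fa (κ (fs z)) (mu (sn z))}

theorem cx_sharp {κ : Cl V → Cl J} {F : Set (Cl V)} {L : Set (Cl J)} (hF : Cx F) (hL : Cx L)
    (hκ : Mon F L κ) : Cx (Fs κ F L) := by
  constructor
  · exact (cx_px hF (cx_gr (by norm_num) hL)).fin.subset fun z hz => ⟨hz.1, hz.2.1⟩
  · intro z hz d hd
    have h1 : Fa (fs d) (fs z) := fun j => hd (Sum.inl j)
    have h2 : Fa (sn d) (sn z) := fun j => hd (Sum.inr j)
    exact ⟨hF.clo _ hz.1 _ h1, clo_gr8 hL.clo _ hz.2.1 _ h2,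
      fa_trans (hκ.mono _ hz.1 _ h1) (fa_trans hz.2.2 (mu_anti h2))⟩

private theorem f2_mem {C : Set (Cl (V ⊕ J))} (hC : Clo C) (x : V ⊕ J → ℝ) :
    x ∈ Bo C ↔ cr x ∈ C :=
  ⟨fun h => cr_mem hC h, fun h => ⟨cr x, h, cr_bo x⟩⟩

private theorem f2_cont (h : ℝ → (J → ℝ) → J → ℝ)
    (hc : Continuous (fun z : ℝ × (J → ℝ) => h z.1 z.2)) :
    Continuous (fun z : ℝ × (V ⊕ J → ℝ) =>
      (Sum.elim (fun v => z.2 (Sum.inl v)) (h z.1 (fun j => z.2 (Sum.inr j))) : V ⊕ J → ℝ)) := by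
  refine continuous_pi fun i => ?_
  rcases i with v | j
  · exact (continuous_apply (Sum.inl v)).comp continuous_snd
  · have e1 : Continuous (fun z : ℝ × (V ⊕ J → ℝ) => (z.1, fun j => z.2 (Sum.inr j))) :=
      continuous_fst.prodMk (continuous_pi fun j => (continuous_apply (Sum.inr j)).comp
        continuous_snd)
    exact (continuous_apply j).comp (hc.comp e1)

theorem fib_cs {κ : Cl V → Cl J} {L : Set (Cl J)} {S : Cl V} (hL : Clo L)
    (hκ : ∀ c, Fa c S → ∀ d, Fa d c → Fa (κ d) (κ c)) (hS : κ S ∈ L) :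
    Cs k (Bo {z : Cl (V ⊕ J) | Fa (fs z) S ∧ sn z ∈ Gr 8 L ∧ Fa (κ (fs z)) (mu (sn z))}) := by
  set C : Set (Cl (V ⊕ J)) :=
    {z | Fa (fs z) S ∧ sn z ∈ Gr 8 L ∧ Fa (κ (fs z)) (mu (sn z))} with hC
  have hCc : Clo C := by
    intro z hz d hd
    have h1 : Fa (fs d) (fs z) := fun j => hd (Sum.inl j)
    have h2 : Fa (sn d) (sn z) := fun j => hd (Sum.inr j)
    exact ⟨fa_trans h1 hz.1, clo_gr8 hL _ hz.2.1 _ h2,
      fa_trans (hκ _ hz.1 _ h1) (fa_trans hz.2.2 (mu_anti h2))⟩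
  set C1 : Set (Cl (V ⊕ J)) := {z | z ∈ C ∧ Fa (ca 8 (sn z)) (κ S)} with hC1
  have hC1c : Clo C1 := by
    intro z hz d hd
    have h2 : Fa (sn d) (sn z) := fun j => hd (Sum.inr j)
    exact ⟨hCc _ hz.1 _ hd, fa_trans (ca8_fa h2) hz.2⟩
  have hm1 : ∀ t ∈ Icc (0 : ℝ) 1, ∀ x ∈ Bo C,
      (Sum.elim (fun v => x (Sum.inl v)) (h1 (κ S) t (fun j => x (Sum.inr j))) : V ⊕ J → ℝ) ∈
        Bo C := by
    intro t ht x hx
    rw [f2_mem hCc] at hx ⊢
    obtain ⟨a1, a2, a3⟩ := hx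
    have hp : Fa (κ (fs (cr x))) (κ S) := hκ S (fa_refl S) _ a1
    refine ⟨a1, ?_, ?_⟩
    · exact hL _ a2 _ (h1_ca (y := fun j => x (Sum.inr j)) hp ht.1 ht.2 a3)
    · exact h1_mu (y := fun j => x (Sum.inr j)) hp ht.1 ht.2 a3
  refine cs_hom (Bo C) (Bo C1) ?_
    (fun t x => Sum.elim (fun v => x (Sum.inl v)) (h1 (κ S) t (fun j => x (Sum.inr j))))
    (f2_cont _ (h1_cont (κ S))).continuousOn ?_ ?_ hm1 ?_
  · rintro x ⟨c, hc, hx⟩
    exact ⟨c, hc.1, hx⟩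
  · intro x _
    funext i
    rcases i with v | j
    · rfl
    · show (1 - 0) * x (Sum.inr j) + 0 * cl1 (κ S j) (x (Sum.inr j)) = x (Sum.inr j)
      ring
  · intro x hx
    have h3 := hm1 1 ⟨zero_le_one, le_rfl⟩ x hx
    rw [f2_mem hCc] at h3
    rw [f2_mem hC1c]
    exact ⟨h3, h1_end (κ S) (fun j => x (Sum.inr j))⟩
  · have hsub : bo (mk S (fun j => 8 * κ S j)) ⊆ Bo C1 := by
      intro x hx
      rw [f2_mem hC1c]
      have h3 := cr_min hx
      have h4 : Fa (fs (cr x)) S := fun v => h3 (Sum.inl v)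
      have h5 : sn (cr x) = fun j => 8 * κ S j := by
        funext j
        exact fc_even (h3 (Sum.inr j)) (by
          show 8 * κ S j % 2 = 0
          omega)
      refine ⟨⟨h4, ?_, ?_⟩, ?_⟩
      · show ca 8 (sn (cr x)) ∈ L
        rw [h5, ca_centre]
        exact hS
      · rw [h5, mu_centre]
        exact hκ S (fa_refl S) _ h4
      · rw [h5, ca_centre]
        exact fa_refl _
    refine cs_hom (Bo C1) (bo (mk S (fun j => 8 * κ S j))) hsub
      (fun t x => Sum.elim (fun v => x (Sum.inl v)) (h2 (κ S) t (fun j => x (Sum.inr j))))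
      (f2_cont _ (h2_cont (κ S))).continuousOn ?_ ?_ ?_ ?_
    · intro x _
      funext i
      rcases i with v | j
      · rfl
      · show (1 - 0) * x (Sum.inr j) + 0 * (4 * ((κ S j : ℤ) : ℝ)) = x (Sum.inr j)
        ring
    · intro x hx
      rw [f2_mem hC1c] at hx
      intro i
      rcases i with v | j
      · exact (cr_iff.2 hx.1.1 : (fun v => x (Sum.inl v)) ∈ bo S) v
      · show |2 * ((1 - 1) * x (Sum.inr j) + 1 * (4 * ((κ S j : ℤ) : ℝ))) -
          (((8 * κ S j : ℤ)) : ℝ)| ≤ ((8 * κ S j % 2 : ℤ) : ℝ)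
        have h3 : 8 * κ S j % 2 = 0 := by omega
        rw [h3, Int.cast_zero]
        have h4 : 2 * ((1 - 1) * x (Sum.inr j) + 1 * (4 * ((κ S j : ℤ) : ℝ))) -
          (((8 * κ S j : ℤ)) : ℝ) = 0 := by
          push_cast
          ring
        rw [h4, abs_zero]
    · intro t ht x hx
      rw [f2_mem hC1c] at hx ⊢
      obtain ⟨⟨a1, a2, a3⟩, a4⟩ := hx
      have hp : Fa (κ (fs (cr x))) (κ S) := hκ S (fa_refl S) _ a1
      have a5 := h2_ca (t := t) (y := fun j => x (Sum.inr j)) ht.1 ht.2 a4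
      exact ⟨⟨a1, hL _ hS _ a5, h2_mu (y := fun j => x (Sum.inr j)) hp ht.1 ht.2 a3 a4⟩, a5⟩
    · exact cs_convex _ (bo_convex _) ⟨_, bo_center _⟩

theorem soft_sharp {κ : Cl V → Cl J} {F : Set (Cl V)} {L : Set (Cl J)} (hF : Clo F) (hL : Clo L)
    (hκ : Mon F L κ) : Cub (Fs κ F L) F fs ∧ Soft k (Fs κ F L) F fs := by
  refine ⟨⟨⟨fun z hz => hz.1, fun z _ d hd j => hd (Sum.inl j)⟩, fun z _ => ?_⟩, fun S hS => ?_⟩
  · rw [dm_px z]
    exact Nat.le_add_right _ _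
  · have h1 : Fb fs (Fs κ F L) S =
        {z : Cl (V ⊕ J) | Fa (fs z) S ∧ sn z ∈ Gr 8 L ∧ Fa (κ (fs z)) (mu (sn z))} := by
      ext z
      constructor
      · rintro ⟨⟨-, a2, a3⟩, a4⟩
        exact ⟨a4, a2, a3⟩
      · rintro ⟨a1, a2, a3⟩
        exact ⟨⟨hF _ hS _ a1, a2, a3⟩, a1⟩
    rw [h1]
    exact fib_cs hL (fun c hc d hd => hκ.mono c (hF _ hS _ hc) d hd) (hκ.map S hS)

end MNG
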