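import Pool.Agent.MNG.F2
import Pool.Agent.MNG.A11
import Pool.Agent.MNG.A12

/-!
# MNG-F3: the complex `F#` is dominated by the tower

`L := T.X b`, `G := Gr 8 L`. Start: `Ab T b (Px (Bx a₀ b₀) G) (ca 8 ∘ sn)` by `ab_gr` and `ab_box`
(`cx_gr`). For an upward closed set `P` of cells of `G` let `W_P = {z | sn z ∈ G, (sn z ∉ P → fs z ∈ Bx a₀ b₀),
(sn z ∈ P → fs z ∈ Fb κ F (mu (sn z)))}`; it is closed and finite (`mu_anti`, `F ⊆ Bx a₀ b₀`). By induction on the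
number of cells of `G` not in `P`: if `Ab T b W_P` then `Ab T b W_G`, and `W_G` is `F#`. Step: `y` a cell of
`G \ P` of maximal dimension (so `P ∪ {y}` is upward closed, `dm_lt`), `ab_ex` with
`N = {z ∈ W_P | sn z ≠ y}`, `K = Bx a₀ b₀`, `K' = Fb κ F (mu y)`, `mu y ≤ ca 8 y`, so `mu y ∈ L`.
`hN`: if `mk c y ≤ z ∈ N` then `sn z ∈ P` (it is `≥ y`, not `y`: larger dimension), so
`fs z ∈ F`, `κ (fs z) ≤ mu (sn z) ≤ mu y` and `c ≤ fs z`: `c ∈ K'`.
-/

set_option autoImplicit false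

noncomputable section

namespace MNG

open AGM (Ei Bl Sp)
open Set Topology

variable {k : ℕ} (T : Tw k) {b : ℕ} {V : Type} [Fintype V]

/-- the intermediate complexes -/
private def f3W {J : Type} (κ : Cl V → Cl J) (F B : Set (Cl V)) (G P : Set (Cl J)) :
    Set (Cl (V ⊕ J)) :=
  {z | sn z ∈ G ∧ (sn z ∉ P → fs z ∈ B) ∧ (sn z ∈ P → fs z ∈ Fb κ F (mu (sn z)))}

omit [Fintype V] in
private theorem f3_clo {J : Type} {κ : Cl V → Cl J} {F B : Set (Cl V)} {G P L : Set (Cl J)}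
    (hF : Clo F) (hB : Clo B) (hFB : F ⊆ B) (hG : Clo G) (hκ : Mon F L κ)
    (hP : ∀ z ∈ P, ∀ w ∈ G, Fa z w → w ∈ P) : Clo (f3W κ F B G P) := by
  rintro z ⟨h1, h2, h3⟩ d hd
  have e1 : Fa (fs d) (fs z) := fun j => hd (Sum.inl j)
  have e2 : Fa (sn d) (sn z) := fun j => hd (Sum.inr j)
  refine ⟨hG _ h1 _ e2, fun h => ?_, fun h => ?_⟩
  · by_cases h4 : sn z ∈ P
    · exact hFB (hF _ (h3 h4).1 _ e1)
    · exact hB _ (h2 h4) _ e1
  · have h5 := h3 (hP _ h _ h1 e2)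
    refine ⟨hF _ h5.1 _ e1, ?_⟩
    exact fa_trans (hκ.mono _ h5.1 _ e1) (fa_trans h5.2 (mu_anti e2))

omit [Fintype V] in
private theorem f3_fin {J : Type} [Fintype J] {κ : Cl V → Cl J} {F B : Set (Cl V)}
    {G P : Set (Cl J)} (hFB : F ⊆ B) (hfin : (Px B G).Finite) : (f3W κ F B G P).Finite := by
  refine hfin.subset ?_
  rintro z ⟨h1, h2, h3⟩
  refine ⟨?_, h1⟩
  by_cases h4 : sn z ∈ P
  · exact hFB (h3 h4).1
  · exact h2 h4

omit [Fintype V] in
private theorem f3_split {J : Type} {κ : Cl V → Cl J} {F B : Set (Cl V)} {G P : Set (Cl J)}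
    {y : Cl J} (hy : y ∈ G) (hyP : y ∉ P) :
    f3W κ F B G P = {z | z ∈ f3W κ F B G P ∧ sn z ≠ y} ∪ (fun c => mk c y) '' B := by
  ext z
  constructor
  · intro hz
    by_cases h : sn z = y
    · right
      refine ⟨fs z, hz.2.1 (by rw [h]; exact hyP), ?_⟩
      show mk (fs z) y = z
      rw [← h]
      funext j
      rcases j with j | j <;> rfl
    · exact Or.inl ⟨hz, h⟩
  · rintro (hz | ⟨c, hc, rfl⟩)
    · exact hz.1
    · exact ⟨hy, fun _ => hc, fun h => absurd h hyP⟩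

omit [Fintype V] in
private theorem f3_split2 {J : Type} {κ : Cl V → Cl J} {F B : Set (Cl V)} {G P : Set (Cl J)}
    {y : Cl J} (hy : y ∈ G) :
    f3W κ F B G (insert y P) =
      {z | z ∈ f3W κ F B G P ∧ sn z ≠ y} ∪ (fun c => mk c y) '' Fb κ F (mu y) := by
  ext z
  constructor
  · rintro ⟨h1, h2, h3⟩
    by_cases h : sn z = y
    · right
      refine ⟨fs z, ?_, ?_⟩
      · rw [← h]
        exact h3 (Or.inl h)
      · show mk (fs z) y = z
        rw [← h]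
        funext j
        rcases j with j | j <;> rfl
    · left
      refine ⟨⟨h1, fun h4 => h2 ?_, fun h4 => h3 (Or.inr h4)⟩, h⟩
      rintro (h5 | h5)
      · exact h h5
      · exact h4 h5
  · rintro (⟨⟨h1, h2, h3⟩, h⟩ | ⟨c, hc, rfl⟩)
    · refine ⟨h1, fun h4 => h2 fun h5 => h4 (Or.inr h5), ?_⟩
      rintro (h5 | h5)
      · exact absurd h5 h
      · exact h3 h5
    · exact ⟨hy, fun h => absurd (Or.inl rfl) h, fun _ => hc⟩

theorem ab_sharp {F : Set (Cl V)} {a₀ b₀ : V → ℤ} {κ : Cl V → Cl (T.J b)} (hF : Cx F)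
    (hFB : F ⊆ Bx a₀ b₀) (hab : ∀ v, a₀ v ≤ b₀ v) (hκ : Mon F (T.X b) κ)
    (h : ∀ s ∈ T.X b, Ex (k + 1) (Fb κ F s) (Bx a₀ b₀)) :
    Ab T b (Fs κ F (T.X b)) (fun z => ca 8 (sn z)) := by
  classical
  have hX : Cx (T.X b) := cx_X T b
  have hG : Cx (Gr 8 (T.X b)) := cx_gr (by norm_num) hX
  have hB : Cx (Bx a₀ b₀) := cx_bx a₀ b₀
  have hPx : Cx (Px (Bx a₀ b₀) (Gr 8 (T.X b))) := cx_px hB hG
  have key : ∀ m : ℕ, ∀ P : Set (Cl (T.J b)), P ⊆ Gr 8 (T.X b) →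
      (∀ z ∈ P, ∀ w ∈ Gr 8 (T.X b), Fa z w → w ∈ P) → (Gr 8 (T.X b) \ P).ncard = m →
      Ab T b (f3W κ F (Bx a₀ b₀) (Gr 8 (T.X b)) P) (fun z => ca 8 (sn z)) →
      Ab T b (f3W κ F (Bx a₀ b₀) (Gr 8 (T.X b)) (Gr 8 (T.X b))) (fun z => ca 8 (sn z)) := by
    intro m
    induction m with
    | zero =>
      intro P hPG _ hc hab'
      have hf : (Gr 8 (T.X b) \ P).Finite := hG.fin.subset sdiff_subset
      have h1 : Gr 8 (T.X b) \ P = ∅ := (Set.ncard_eq_zero hf).1 hc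
      have h2 : P = Gr 8 (T.X b) := Subset.antisymm hPG (sdiff_eq_empty.1 h1)
      rw [h2] at hab'
      exact hab'
    | succ m ih =>
      intro P hPG hup hc hab'
      have hf : (Gr 8 (T.X b) \ P).Finite := hG.fin.subset sdiff_subset
      have hne : (Gr 8 (T.X b) \ P).Nonempty := by
        rw [← Set.ncard_pos hf, hc]
        omega
      obtain ⟨y, hyG, hym⟩ := Set.exists_max_image (Gr 8 (T.X b) \ P) dm hf hne
      have hmax : ∀ w ∈ Gr 8 (T.X b), Fa y w → w ≠ y → w ∈ P := by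
        intro w hw hyw hwy
        by_contra hwP
        have h1 := hym w ⟨hw, hwP⟩
        have h2 := dm_lt hyw (Ne.symm hwy)
        omega
      have hup' : ∀ z ∈ insert y P, ∀ w ∈ Gr 8 (T.X b), Fa z w → w ∈ insert y P := by
        rintro z (rfl | hz) w hw hzw
        · by_cases hwz : w = z
          · exact Or.inl hwz
          · exact Or.inr (hmax w hw hzw hwz)
        · exact Or.inr (hup z hz w hw hzw)
      refine ih (insert y P) (insert_subset hyG.1 hPG) hup' ?_ ?_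
      · have h1 : Gr 8 (T.X b) \ insert y P = (Gr 8 (T.X b) \ P) \ {y} := by
          ext w
          simp only [mem_sdiff, mem_insert_iff, mem_singleton_iff]
          tauto
        rw [h1, Set.ncard_sdiff_singleton_of_mem hyG, hc]
        rfl
      · rw [f3_split2 hyG.1]
        have hmu : mu y ∈ T.X b := by
          have h1 : ca 8 y ∈ T.X b := hyG.1
          exact hX.clo _ h1 _ (mu_ca y)
        have hK' : Clo (Fb κ F (mu y)) := by
          rintro c ⟨h1, h2⟩ d hd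
          exact ⟨hF.clo _ h1 _ hd, fa_trans (hκ.mono _ h1 _ hd) h2⟩
        have hW : Cx (f3W κ F (Bx a₀ b₀) (Gr 8 (T.X b)) P) :=
          ⟨f3_fin hFB hPx.fin, f3_clo hF.clo hB.clo hFB hG.clo hκ hup⟩
        rw [f3_split hyG.1 hyG.2] at hW hab'
        refine ab_ex (κ := ca 8) hK' (h (mu y) hmu) hW ?_ hab'
        rintro z ⟨hz, hzy⟩ c hc hcK hcz
        have e1 : Fa c (fs z) := fun j => hcz (Sum.inl j)
        have e2 : Fa y (sn z) := fun j => hcz (Sum.inr j)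
        have h3 : sn z ∈ P := hmax _ hz.1 e2 hzy
        have h4 := hz.2.2 h3
        refine hcK ⟨hF.clo _ h4.1 _ e1, ?_⟩
        exact fa_trans (hκ.mono _ h4.1 _ e1) (fa_trans h4.2 (mu_anti e2))
  have h0 : f3W κ F (Bx a₀ b₀) (Gr 8 (T.X b)) ∅ = Px (Bx a₀ b₀) (Gr 8 (T.X b)) := by
    ext z
    constructor
    · rintro ⟨h1, h2, -⟩
      exact ⟨h2 (notMem_empty _), h1⟩
    · rintro ⟨h1, h2⟩
      exact ⟨h2, fun _ => h1, fun h3 => absurd h3 (notMem_empty _)⟩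
  have h9 : f3W κ F (Bx a₀ b₀) (Gr 8 (T.X b)) (Gr 8 (T.X b)) = Fs κ F (T.X b) := by
    ext z
    constructor
    · rintro ⟨h1, -, h3⟩
      exact ⟨(h3 h1).1, h1, (h3 h1).2⟩
    · rintro ⟨h1, h2, h3⟩
      exact ⟨h2, fun h4 => absurd h2 h4, fun _ => ⟨h1, h3⟩⟩
  rw [← h9]
  refine key _ ∅ (empty_subset _) (fun z hz => absurd hz (notMem_empty _)) rfl ?_
  rw [h0]
  exact ab_box (T := T) (b := b) (κ := ca 8) hG (ab_gr T b) a₀ b₀ hab

end MNG
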