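import Pool.Agent.AGM.BST

/-!
# MNG-FE: the negation of the conjecture from two spaces homeomorphic to Menger compacta
-/

set_option autoImplicit false

noncomputable section

namespace MNG

open Set Topology

theorem fin_end {X Y : Type} [TopologicalSpace X] [TopologicalSpace Y]
    [MulAction (Multiplicative ℤ_[2]) X] [MulAction (Multiplicative ℤ_[2]) Y]
    [ContinuousSMul (Multiplicative ℤ_[2]) X] [ContinuousSMul (Multiplicative ℤ_[2]) Y]
    (hfX : ∀ (g : Multiplicative ℤ_[2]) (x : X), g • x = x → g = 1)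
    (hfY : ∀ (g : Multiplicative ℤ_[2]) (y : Y), g • y = y → g = 1)
    (f : X → Y) (hf : Continuous f)
    (hfe : ∀ (g : Multiplicative ℤ_[2]) (x : X), f (g • x) = g • f x)
    (hX : Nonempty (X ≃ₜ AGM.MC (1 + 2))) (hY : Nonempty (Y ≃ₜ AGM.MC 2)) :
    ¬ (∀ (m n : ℕ), 0 < m → 0 < n →
    ∀ (G : Type) [Group G] [TopologicalSpace G] [IsTopologicalGroup G] [CompactSpace G]
      [TopologicalSpace.MetrizableSpace G] [TotallyDisconnectedSpace G] [Nontrivial G]
      [A : MulAction G (AGM.MC (m + n))] [B : MulAction G (AGM.MC n)],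
      ContinuousSMul G (AGM.MC (m + n)) → ContinuousSMul G (AGM.MC n) →
      (∀ (g : G) (x : AGM.MC (m + n)), g • x = x → g = 1) →
      (∀ (g : G) (y : AGM.MC n), g • y = y → g = 1) →
      ¬ ∃ f : AGM.MC (m + n) → AGM.MC n, Continuous f ∧ ∀ (g : G) x, f (g • x) = g • f x) := by
  intro hcon
  obtain ⟨h⟩ := hX
  obtain ⟨k⟩ := hY
  obtain ⟨A, hA, hA'⟩ := AGM.act_homeo (Multiplicative ℤ_[2]) h
  obtain ⟨B, hB, hB'⟩ := AGM.act_homeo (Multiplicative ℤ_[2]) k
  refine hcon 1 2 (by norm_num) (by norm_num) (Multiplicative ℤ_[2]) (A := A) (B := B) hA hB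
    (fun g x hx => ?_) (fun g y hy => ?_) ⟨fun x => k (f (h.symm x)),
      k.continuous.comp (hf.comp h.symm.continuous), fun g x => ?_⟩
  · rw [hA'] at hx
    exact hfX g (h.symm x) (h.injective (by rw [hx, h.apply_symm_apply]))
  · rw [hB'] at hy
    exact hfY g (k.symm y) (k.injective (by rw [hy, k.apply_symm_apply]))
  · show k (f (h.symm (g • x))) = g • k (f (h.symm x))
    rw [hA', hB', h.symm_apply_apply, hfe, k.symm_apply_apply]

end MNG
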