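import Pool.Agent.MNG.F3

/-!
# MNG-FIB: complexes with collapsible fibres are dominated by the tower
-/

set_option autoImplicit false

noncomputable section

namespace MNG

open AGM (Ei Bl Sp)
open Set Topology

variable {k : ℕ}

theorem fib (T : Tw k) (b : ℕ) {V : Type} [Fintype V] (F : Set (Cl V)) (a₀ b₀ : V → ℤ)
    (κ : Cl V → Cl (T.J b)) (hF : Cx F) (hFB : F ⊆ Bx a₀ b₀) (hab : ∀ v, a₀ v ≤ b₀ v)
    (hκ : Mon F (T.X b) κ) (h : ∀ s ∈ T.X b, Ex (k + 1) (Fb κ F s) (Bx a₀ b₀)) :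
    Ab T b F κ := by
  have hX := cx_X T b
  obtain ⟨h1, h2⟩ := soft_sharp (k := k) hF.clo hX.clo hκ
  exact ab_soft' (cx_sharp hF hX hκ) (ab_sharp T hF hFB hab hκ h) fs h1 h2
    fun z hz => fa_trans hz.2.2 (mu_ca _)

end MNG
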