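import Pool.Agent.MNG.T1b
import Pool.Agent.MNG.T3

/-!
# MNG-G1: the graph complex (GRAPH in section 4 of the blueprint)

`a : F → L` soft. `gF = {(q, P) : ∃ P₁ ≥ P in F with q ≤ a P₁}` (cells `z` of `J ⊕ V`, `q = fs z`, `P = sn z`), `gk (q, P)` = smallest cell containing `q` and `a P` (both are faces of `a P₁`).
Soft: the fibre of `sn` over `S` is `{(q, P) : P ≤ S, ..}`; homotopy: the `J`-part `x` of a point `(x, y)` goes on a straight line to `rl a y`; both are in `|a P₁|` (`P` the carrier of `y`, `rl a y ∈ |a P| ⊆ |a P₁|`), at the end the graph over `|S|`: `cs_dom` with the cube `bo S` (maps `y ↦ (rl a y, y)` and `(x, y) ↦ y`). The same for `Fb gk gF s`, `s ∈ L`: end = graph over `Bo (Fb a F s)`.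
-/

set_option autoImplicit false

noncomputable section

namespace MNG

open AGM (Ei Bl Sp)
open Set Topology

variable {J V : Type} [Fintype J] [Fintype V]

/-- join of two coordinates which are faces of a common one -/
def jn1 (a b : ℤ) : ℤ := if a % 2 = 1 then a else if b % 2 = 1 then b else (a + b) / 2

/-- the smallest cell containing two faces of a common cell -/
def jn {J : Type} (c d : Cl J) : Cl J := fun j => jn1 (c j) (d j)

theorem jn_fa {c d s : Cl J} (h : Fa c s) (h' : Fa d s) :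
    Fa c (jn c d) ∧ Fa d (jn c d) ∧ Fa (jn c d) s := by
  have key : ∀ j, fc (c j) (jn1 (c j) (d j)) ∧ fc (d j) (jn1 (c j) (d j)) ∧
      fc (jn1 (c j) (d j)) (s j) := by
    intro j
    have h1 := h j
    have h2 := h' j
    unfold fc at h1 h2
    unfold jn1 fc
    split_ifs <;> omega
  exact ⟨fun j => (key j).1, fun j => (key j).2.1, fun j => (key j).2.2⟩

/-- the graph complex -/
def gF (F : Set (Cl V)) (a : Cl V → Cl J) : Set (Cl (J ⊕ V)) :=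
  {z | sn z ∈ F ∧ ∃ P₁ ∈ F, Fa (sn z) P₁ ∧ Fa (fs z) (a P₁)}

/-- the carrier of the graph complex -/
def gk (a : Cl V → Cl J) (z : Cl (J ⊕ V)) : Cl J := jn (fs z) (a (sn z))

theorem gF_cx {F : Set (Cl V)} {L : Set (Cl J)} {a : Cl V → Cl J} (hF : Cx F) (hL : Cx L)
    (ha : Cub F L a) : Cx (gF F a) ∧ Mon (gF F a) L (gk a) ∧
      (∀ z ∈ gF F a, fs z ∈ L ∧ Fa (fs z) (gk a z) ∧ Fa (a (sn z)) (gk a z)) ∧
      Cub (gF F a) F sn := by
  have hsn : ∀ {c d : Cl (J ⊕ V)}, Fa c d → Fa (sn c) (sn d) := fun h v => h (Sum.inr v)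
  have hfs : ∀ {c d : Cl (J ⊕ V)}, Fa c d → Fa (fs c) (fs d) := fun h v => h (Sum.inl v)
  have hL' : ∀ z ∈ gF F a, fs z ∈ L := by
    rintro z ⟨_, P₁, hP₁, _, h2⟩
    exact hL.clo _ (ha.map P₁ hP₁) _ h2
  have hcl : Clo (gF F a) := by
    rintro z ⟨h0, P₁, hP₁, h1, h2⟩ d hd
    exact ⟨hF.clo _ h0 _ (hsn hd), P₁, hP₁, fa_trans (hsn hd) h1, fa_trans (hfs hd) h2⟩
  have hg : ∀ z ∈ gF F a, Fa (fs z) (gk a z) ∧ Fa (a (sn z)) (gk a z) := by
    rintro z ⟨h0, P₁, hP₁, h1, h2⟩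
    have h3 := jn_fa h2 (ha.mono P₁ hP₁ _ h1)
    exact ⟨h3.1, h3.2.1⟩
  refine ⟨⟨?_, hcl⟩, ⟨?_, ?_⟩, ?_, ⟨?_, ?_⟩, ?_⟩
  · exact (cx_px hL hF).fin.subset fun z hz => ⟨hL' z hz, hz.1⟩
  · rintro z ⟨h0, P₁, hP₁, h1, h2⟩
    exact hL.clo _ (ha.map P₁ hP₁) _ (jn_fa h2 (ha.mono P₁ hP₁ _ h1)).2.2
  · intro z hz d hd
    have h1 := hg z hz
    exact (jn_fa (fa_trans (hfs hd) h1.1) (fa_trans (ha.mono _ hz.1 _ (hsn hd)) h1.2)).2.2
  · exact fun z hz => ⟨hL' z hz, hg z hz⟩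
  · exact fun z hz => hz.1
  · exact fun z _ d hd => hsn hd
  · intro z _
    unfold dm
    refine Finset.card_le_card_of_injOn Sum.inr ?_ fun _ _ _ _ h => Sum.inr_injective h
    intro v hv
    have h1 := (Finset.mem_filter.1 hv).2
    exact Finset.mem_filter.2 ⟨Finset.mem_univ _, h1⟩

private theorem G1_cs {k : ℕ} (A : Set (V → ℝ)) (B : Set (J ⊕ V → ℝ)) (ρ : (V → ℝ) → J → ℝ)
    (hρ : ContinuousOn ρ A) (hA : Cs k A) (h1 : ∀ X ∈ B, (fun v => X (Sum.inr v)) ∈ A)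
    (h2 : ∀ y ∈ A, (Sum.elim (ρ y) y : J ⊕ V → ℝ) ∈ B)
    (h3 : ∀ X ∈ B, ∀ t ∈ Icc (0 : ℝ) 1,
      (Sum.elim ((1 - t) • (fun j => X (Sum.inl j)) + t • ρ (fun v => X (Sum.inr v)))
        (fun v => X (Sum.inr v)) : J ⊕ V → ℝ) ∈ B) : Cs k B := by
  have hsec : Continuous (fun X : J ⊕ V → ℝ => fun v => X (Sum.inr v)) :=
    continuous_pi fun v => continuous_apply (Sum.inr v)
  have hfst : Continuous (fun X : J ⊕ V → ℝ => fun j => X (Sum.inl j)) :=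
    continuous_pi fun v => continuous_apply (Sum.inl v)
  have helim : Continuous (fun z : (J → ℝ) × (V → ℝ) => (Sum.elim z.1 z.2 : J ⊕ V → ℝ)) := by
    refine continuous_pi fun j => ?_
    cases j with
    | inl j => exact (continuous_apply j).comp continuous_fst
    | inr v => exact (continuous_apply v).comp continuous_snd
  refine cs_hom B ((fun y => (Sum.elim (ρ y) y : J ⊕ V → ℝ)) '' A) ?_
    (fun t X => Sum.elim ((1 - t) • (fun j => X (Sum.inl j)) + t • ρ (fun v => X (Sum.inr v)))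
      (fun v => X (Sum.inr v))) ?_ ?_ ?_ (fun t ht X hX => h3 X hX t ht) ?_
  · rintro _ ⟨y, hy, rfl⟩
    exact h2 y hy
  · have e1 : ContinuousOn (fun z : ℝ × (J ⊕ V → ℝ) => ρ (fun v => z.2 (Sum.inr v)))
        (Icc (0 : ℝ) 1 ×ˢ B) :=
      hρ.comp (hsec.comp continuous_snd).continuousOn fun z hz => h1 z.2 hz.2
    have e2 : ContinuousOn (fun z : ℝ × (J ⊕ V → ℝ) =>
        (1 - z.1) • (fun j => z.2 (Sum.inl j)) + z.1 • ρ (fun v => z.2 (Sum.inr v)))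
        (Icc (0 : ℝ) 1 ×ˢ B) := by
      refine ContinuousOn.add ?_ ?_
      · exact ((continuous_const.sub continuous_fst).smul
          (hfst.comp continuous_snd)).continuousOn
      · exact continuous_fst.continuousOn.smul e1
    exact helim.comp_continuousOn (e2.prodMk (hsec.comp continuous_snd).continuousOn)
  · intro X _
    funext j
    cases j with
    | inl j => simp
    | inr v => rfl
  · intro X hX
    refine ⟨_, h1 X hX, ?_⟩
    funext j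
    cases j with
    | inl j => simp
    | inr v => rfl
  · refine cs_dom A _ (fun y => (Sum.elim (ρ y) y : J ⊕ V → ℝ)) (fun X v => X (Sum.inr v)) ?_
      hsec.continuousOn ?_ ?_ ?_ hA
    · exact helim.comp_continuousOn (hρ.prodMk continuousOn_id)
    · exact fun y hy => ⟨y, hy, rfl⟩
    · rintro _ ⟨y, hy, rfl⟩
      exact hy
    · rintro _ ⟨y, hy, rfl⟩
      rfl

private theorem G1_bo {c : Cl J} {d : Cl V} {x : J → ℝ} {y : V → ℝ} (hx : x ∈ bo c)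
    (hy : y ∈ bo d) : (Sum.elim x y : J ⊕ V → ℝ) ∈ bo (Sum.elim c d : Cl (J ⊕ V)) := by
  intro j
  cases j with
  | inl j => exact hx j
  | inr v => exact hy v

private theorem G1_seg {c : Cl J} {x y : J → ℝ} (hx : x ∈ bo c) (hy : y ∈ bo c) {t : ℝ}
    (ht : t ∈ Icc (0 : ℝ) 1) : (1 - t) • x + t • y ∈ bo c :=
  bo_convex c hx hy (sub_nonneg.2 ht.2) ht.1 (by ring)

private theorem G1_rl {F : Set (Cl V)} {L : Set (Cl J)} {a : Cl V → Cl J} (hF : Cx F)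
    (ha : Cub F L a) {P : Cl V} (hP : P ∈ F) {y : V → ℝ} (hy : y ∈ bo P) :
    rl a y ∈ bo (a P) :=
  bo_mono (ha.mono P hP _ (cr_min hy)) (rl_mem hF ha.toMon ⟨P, hP, hy⟩)

theorem gF_soft {k : ℕ} {F : Set (Cl V)} {L : Set (Cl J)} {a : Cl V → Cl J} (hF : Cx F)
    (hL : Cx L) (ha : Cub F L a) : Soft k (gF F a) F sn := by
  intro S hS
  refine G1_cs (bo S) _ (rl a) ?_ (cs_convex _ (bo_convex S) ⟨_, bo_center S⟩) ?_ ?_ ?_
  · exact (rl_cont hF ha.toMon).mono fun y hy => ⟨S, hS, hy⟩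
  · rintro X ⟨z, ⟨_, h2⟩, h3⟩
    exact bo_mono h2 fun v => h3 (Sum.inr v)
  · intro y hy
    exact ⟨Sum.elim (a S) S, ⟨⟨hS, S, hS, fa_refl S, fa_refl (a S)⟩, fa_refl S⟩,
      G1_bo (G1_rl hF ha hS hy) hy⟩
  · rintro X ⟨z, ⟨⟨h0, P₁, hP₁, h1, h2⟩, h3⟩, h4⟩ t ht
    have hy : (fun v => X (Sum.inr v)) ∈ bo (sn z) := fun v => h4 (Sum.inr v)
    have hx : (fun j => X (Sum.inl j)) ∈ bo (fs z) := fun j => h4 (Sum.inl j)
    refine ⟨Sum.elim (a P₁) (sn z), ⟨⟨h0, P₁, hP₁, h1, fa_refl _⟩, h3⟩, G1_bo ?_ hy⟩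
    exact G1_seg (bo_mono h2 hx) (bo_mono (ha.mono P₁ hP₁ _ h1) (G1_rl hF ha h0 hy)) ht

theorem gF_cs {k : ℕ} {F : Set (Cl V)} {L : Set (Cl J)} {a : Cl V → Cl J} (hF : Cx F)
    (hL : Cx L) (ha : Cub F L a) (hs : Soft k F L a) :
    ∀ s ∈ L, Cs k (Bo (Fb (gk a) (gF F a) s)) := by
  intro s hsL
  have hG := (gF_cx hF hL ha).2.2.1
  refine G1_cs (Bo (Fb a F s)) _ (rl a) ?_ (hs s hsL) ?_ ?_ ?_
  · refine (rl_cont hF ha.toMon).mono ?_
    rintro y ⟨P, hP, hy⟩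
    exact ⟨P, hP.1, hy⟩
  · rintro X ⟨z, ⟨h1, h2⟩, h3⟩
    exact ⟨sn z, ⟨h1.1, fa_trans (hG z h1).2.2 h2⟩, fun v => h3 (Sum.inr v)⟩
  · rintro y ⟨P, ⟨hP, hPs⟩, hy⟩
    exact ⟨Sum.elim (a P) P, ⟨⟨hP, P, hP, fa_refl P, fa_refl (a P)⟩,
      (jn_fa hPs hPs).2.2⟩, G1_bo (G1_rl hF ha hP hy) hy⟩
  · rintro X ⟨z, ⟨hz, h3⟩, h4⟩ t ht
    obtain ⟨-, hg1, hg2⟩ := hG z hz
    obtain ⟨h0, P₁, hP₁, h1, h2⟩ := hz
    have hy : (fun v => X (Sum.inr v)) ∈ bo (sn z) := fun v => h4 (Sum.inr v)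
    have hx : (fun j => X (Sum.inl j)) ∈ bo (fs z) := fun j => h4 (Sum.inl j)
    refine ⟨Sum.elim (gk a z) (sn z), ⟨⟨h0, P₁, hP₁, h1, ?_⟩, ?_⟩, G1_bo ?_ hy⟩
    · exact (jn_fa h2 (ha.mono P₁ hP₁ _ h1)).2.2
    · exact (jn_fa h3 (fa_trans hg2 h3)).2.2
    · exact G1_seg (bo_mono hg1 hx) (bo_mono hg2 (G1_rl hF ha h0 hy)) ht

end MNG
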