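import Pool.Agent.MNG.T1b

/-!
# MNG-T6: rounding and spans

`spn W`: the smallest cell containing the vertices `W`: coordinatewise minimum plus maximum (`n + n = 2 n`, `n + (n + 1) = 2 n + 1`).
-/

set_option autoImplicit false

noncomputable section

namespace MNG

open AGM (Ei Bl Sp)
open Set Topology

/-- the cell spanned by a set of lattice points -/
def spn {J : Type} (W : Set (J → ℤ)) : Cl J :=
  fun j => sInf ((fun v : J → ℤ => v j) '' W) + sSup ((fun v : J → ℤ => v j) '' W)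

private theorem T6_one {A : Set ℤ} (hA : A.Nonempty) {c : ℤ} (h : ∀ a ∈ A, fc (2 * a) c) :
    sInf A ∈ A ∧ sSup A ∈ A ∧ ∀ a ∈ A, sInf A ≤ a ∧ a ≤ sSup A := by
  have h1 : ∀ a ∈ A, c - 1 ≤ 2 * a ∧ 2 * a ≤ c + 1 := fun a ha => by
    rcases h a ha with h2 | ⟨_, h2 | h2⟩ <;> omega
  have hb : BddBelow A := ⟨(c - 1) / 2, fun a ha => by
    have := (h1 a ha).1
    omega⟩
  have ha : BddAbove A := ⟨(c + 1) / 2, fun a ha => by
    have := (h1 a ha).2
    omega⟩
  exact ⟨Int.csInf_mem hA hb, Int.csSup_mem hA ha, fun a haA => ⟨csInf_le hb haA, le_csSup ha haA⟩⟩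

private theorem T6_fa {A : Set ℤ} (hA : A.Nonempty) {c : ℤ} (h : ∀ a ∈ A, fc (2 * a) c) :
    fc (sInf A + sSup A) c := by
  obtain ⟨h1, h2, h3⟩ := T6_one hA h
  have h4 := h _ h1
  have h5 := h _ h2
  have h6 := (h3 _ h1).2
  unfold fc at h4 h5 ⊢
  omega

private theorem T6_mem {A : Set ℤ} (hA : A.Nonempty) {c : ℤ} (h : ∀ a ∈ A, fc (2 * a) c) :
    ∀ a ∈ A, fc (2 * a) (sInf A + sSup A) := by
  intro a ha
  obtain ⟨h1, h2, h3⟩ := T6_one hA h
  have h4 := h _ h1
  have h5 := h _ h2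
  have h6 := h3 a ha
  unfold fc at h4 h5 ⊢
  omega

private theorem T6_mono {A A' : Set ℤ} (hA : A.Nonempty) (hs : A ⊆ A') {c : ℤ}
    (h : ∀ a ∈ A', fc (2 * a) c) : fc (sInf A + sSup A) (sInf A' + sSup A') := by
  obtain ⟨h1, h2, h3⟩ := T6_one hA fun a ha => h a (hs ha)
  obtain ⟨h1', h2', h3'⟩ := T6_one (hA.mono hs) h
  have h4 := h _ h1'
  have h5 := h _ h2'
  have h6 := h3' _ (hs h1)
  have h7 := h3' _ (hs h2)
  have h8 := (h3 _ h1).2
  unfold fc at h4 h5 ⊢
  omega

private theorem T6_ex (c : ℤ) : fc (2 * (c / 2)) c := by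
  unfold fc
  omega

private theorem T6_vx (c : ℤ) : sInf {a : ℤ | fc (2 * a) c} + sSup {a : ℤ | fc (2 * a) c} = c := by
  obtain ⟨h1, h2, h3⟩ := T6_one (A := {a : ℤ | fc (2 * a) c}) ⟨c / 2, T6_ex c⟩ fun a ha => ha
  have h4 : c / 2 ∈ {a : ℤ | fc (2 * a) c} := T6_ex c
  have h5 : (c + 1) / 2 ∈ {a : ℤ | fc (2 * a) c} := by
    show fc (2 * ((c + 1) / 2)) c
    unfold fc
    omega
  have h6 := h3 _ h4
  have h7 := h3 _ h5
  have h8 : fc (2 * sInf {a : ℤ | fc (2 * a) c}) c := h1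
  have h9 : fc (2 * sSup {a : ℤ | fc (2 * a) c}) c := h2
  generalize sInf {a : ℤ | fc (2 * a) c} = m at *
  generalize sSup {a : ℤ | fc (2 * a) c} = M at *
  unfold fc at h8 h9
  omega

private theorem T6_im {J : Type} {W : Set (J → ℤ)} {c : Cl J} (h : ∀ v ∈ W, Fa (fun j => 2 * v j) c) (j : J) :
    ∀ a ∈ (fun v : J → ℤ => v j) '' W, fc (2 * a) (c j) := by
  rintro a ⟨v, hv, rfl⟩
  exact h v hv j

theorem spn_fa {J : Type} (W : Set (J → ℤ)) (hW : W.Nonempty) (c : Cl J)
    (h : ∀ v ∈ W, Fa (fun j => 2 * v j) c) : Fa (spn W) c := by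
  intro j
  exact T6_fa (hW.image _) (T6_im h j)

theorem spn_mem {J : Type} (W : Set (J → ℤ)) (hW : W.Nonempty) (c : Cl J)
    (h : ∀ v ∈ W, Fa (fun j => 2 * v j) c) : ∀ v ∈ W, Fa (fun j => 2 * v j) (spn W) := by
  intro v hv j
  exact T6_mem (hW.image _) (T6_im h j) (v j) ⟨v, hv, rfl⟩

theorem spn_mono {J : Type} (W W' : Set (J → ℤ)) (hW : W.Nonempty) (hs : W ⊆ W') (c : Cl J)
    (h : ∀ v ∈ W', Fa (fun j => 2 * v j) c) : Fa (spn W) (spn W') := by
  intro j
  exact T6_mono (hW.image _) (Set.image_mono hs) (T6_im h j)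

/-- a cell is spanned by its vertices -/
theorem spn_vx {J : Type} (c : Cl J) : spn (Vx c) = c := by
  classical
  funext j
  have h : (fun v : J → ℤ => v j) '' Vx c = {a : ℤ | fc (2 * a) (c j)} := by
    ext a
    constructor
    · rintro ⟨v, hv, rfl⟩
      exact hv j
    · intro ha
      refine ⟨Function.update (fun j => c j / 2) j a, fun i => ?_, Function.update_self _ _ _⟩
      by_cases hi : i = j
      · subst hi
        show fc (2 * Function.update (fun j => c j / 2) i a i) (c i)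
        rw [Function.update_self]
        exact ha
      · show fc (2 * Function.update (fun j => c j / 2) j a i) (c i)
        rw [Function.update_of_ne hi]
        exact T6_ex (c i)
  unfold spn
  rw [h]
  exact T6_vx (c j)

theorem vx_nonempty {J : Type} (c : Cl J) : (Vx c).Nonempty :=
  ⟨fun j => c j / 2, fun j => T6_ex (c j)⟩

/-- if all points of `Y` are pairwise at distance `< 1/2` then the rounding of every point of `Y`
is a vertex of the carrier of every point of `Y` -/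
theorem rnd_cr {J : Type} (y y' : J → ℝ) (h : ∀ j, |y j - y' j| < 1 / 2) :
    Fa (fun j => 2 * round (y' j)) (cr y) := by
  intro j
  have hj := abs_lt.1 (h j)
  have h1 : cr y j = if |y j - round (y j)| ≤ 0 / 2 then 2 * round (y j) else 2 * ⌊y j⌋ + 1 := rfl
  rw [h1]
  have h2 := abs_le.1 (abs_sub_round (y' j))
  split_ifs with h3
  · left
    have h4 : y j = round (y j) := by
      have h5 : |y j - round (y j)| = 0 := le_antisymm (by rwa [zero_div] at h3) (abs_nonneg _)
      exact sub_eq_zero.1 (abs_eq_zero.1 h5)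
    have h5 : round (y' j) < round (y j) + 1 := by
      have : (round (y' j) : ℝ) < (round (y j) : ℝ) + 1 := by
        rw [← h4]
        linarith [h2.1, h2.2, hj.1, hj.2]
      exact_mod_cast this
    have h6 : round (y j) < round (y' j) + 1 := by
      have : (round (y j) : ℝ) < (round (y' j) : ℝ) + 1 := by
        rw [← h4]
        linarith [h2.1, h2.2, hj.1, hj.2]
      exact_mod_cast this
    have h7 : round (y' j) = round (y j) := by omega
    show 2 * round (y' j) = 2 * round (y j)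
    rw [h7]
  · right
    have h4 := Int.floor_le (y j)
    have h5 := Int.lt_floor_add_one (y j)
    have h6 : round (y' j) < ⌊y j⌋ + 2 := by
      have : (round (y' j) : ℝ) < (⌊y j⌋ : ℝ) + 2 := by linarith [h2.1, h2.2, hj.1, hj.2]
      exact_mod_cast this
    have h7 : ⌊y j⌋ < round (y' j) + 1 := by
      have : (⌊y j⌋ : ℝ) < (round (y' j) : ℝ) + 1 := by linarith [h2.1, h2.2, hj.1, hj.2]
      exact_mod_cast this
    show (2 * ⌊y j⌋ + 1) % 2 = 1 ∧ (2 * round (y' j) = 2 * ⌊y j⌋ + 1 - 1 ∨ 2 * round (y' j) = 2 * ⌊y j⌋ + 1 + 1)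
    omega

end MNG
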