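import Pool.Agent.MNG.C2
import Pool.Agent.MNG.T6

/-!
# MNG-GD: definitions for GEN (section 4 of the blueprint)

`L` is the complex `X_b`. `co ι c` is the `L`-coordinate of a cell `c` of `F ⊆ Cl V`.
-/

set_option autoImplicit false

noncomputable section

namespace MNG

open AGM (Ei Bl Sp)
open Set Topology

/-- the `L`-coordinate -/
def co {J V : Type} (ι : J → V) (c : Cl V) : Cl J := fun j => c (ι j)

/-- the box over the closed cell `s` of `L` -/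
def Om {J V : Type} (ι : J → V) (a b : V → ℤ) (s : Cl J) : Set (Cl V) :=
  {c | c ∈ Bx a b ∧ Fa (co ι c) s}

/-- basic data: a complex `F` over `L` in a box -/
structure Gd {J V : Type} [Fintype J] [Fintype V] (k : ℕ) (L : Set (Cl J)) (ι : J → V)
    (a b : V → ℤ) (F : Set (Cl V)) (κ : Cl V → Cl J) : Prop where
  cL : Cx L
  dL : ∀ c ∈ L, dm c ≤ k
  cx : Cx F
  bx : F ⊆ Bx a b
  km : Mon F L κ
  ki : ∀ c ∈ F, Fa (co ι c) (κ c)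
  cs : ∀ s ∈ L, Cs k (Bo (Fb κ F s))
  ab : ∀ v, a v ≤ b v
  ob : ∀ s ∈ L, ∃ a' b' : V → ℤ, (∀ v, a' v ≤ b' v) ∧ Om ι a b s = Bx a' b'

/-- `(F, T)` is `j`-good -/
structure Go {J V : Type} [Fintype J] [Fintype V] (k : ℕ) (L : Set (Cl J)) (ι : J → V)
    (a b : V → ℤ) (F T : Set (Cl V)) (κ : Cl V → Cl J) (j : ℕ) : Prop
    extends Gd k L ι a b F κ where
  TF : T ⊆ F
  cT : Clo T
  eT : ∀ s ∈ L, ∀ i, Ex i (Fb κ T s) (Om ι a b s)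
  eF : ∀ s ∈ L, Ex j (Fb κ T s) (Fb κ F s)

/-- a complex `Tp` over `L`, its subdivision by `r` and a vertex map `ρ` from `Gr r Tp` to `F` over
`L`, fine in the sense that the span of the values on a cell `q` lies over the carrier of EVERY
vertex of `q` -/
structure Mc {J V W : Type} [Fintype J] [Fintype V] [Fintype W] (L : Set (Cl J))
    (F : Set (Cl V)) (κ : Cl V → Cl J) (Tp : Set (Cl W)) (κT : Cl W → Cl J) (r : ℕ)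
    (ρ : (W → ℤ) → V → ℤ) : Prop where
  hr : 1 ≤ r
  cx : Cx Tp
  km : Mon Tp L κT
  sF : ∀ q ∈ Gr r Tp, spn (ρ '' Vx q) ∈ F
  sp : ∀ q ∈ Gr r Tp, ∀ v ∈ Vx q, Fa (κ (spn (ρ '' Vx q))) (κT (ca r (fun w => 2 * v w)))
  vx : ∀ q ∈ Gr r Tp, ∀ v ∈ Vx q, Fa (fun j => 2 * ρ v j) (spn (ρ '' Vx q))

/-- the thick graph -/
def Ga {V W : Type} (Tp : Set (Cl W)) (r : ℕ) (ρ : (W → ℤ) → V → ℤ) : Set (Cl (W ⊕ V)) :=
  {z | fs z ∈ Gr r Tp ∧ ∃ q ∈ Gr r Tp, Fa (fs z) q ∧ Fa (sn z) (spn (ρ '' Vx q))}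

/-- the new complex `F' = B₁ × F × 0 ∪ Ga × [0,1]`, cells `(q, P, u)` -/
def Fp {V W : Type} (a₁ b₁ : W → ℤ) (F : Set (Cl V)) (Tp : Set (Cl W)) (r : ℕ)
    (ρ : (W → ℤ) → V → ℤ) : Set (Cl (W ⊕ (V ⊕ Unit))) :=
  {z | fs z ∈ Bx a₁ b₁ ∧ fs (sn z) ∈ F ∧ sn (sn z) ∈ In 1 ∧
    (sn (sn z) () = 0 ∨ mk (fs z) (fs (sn z)) ∈ Ga Tp r ρ)}

/-- the carrier of the new complex -/
def kp {J V W : Type} (κ : Cl V → Cl J) (κT : Cl W → Cl J) (r : ℕ)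
    (z : Cl (W ⊕ (V ⊕ Unit))) : Cl J :=
  if sn (sn z) () = 0 then κ (fs (sn z)) else κT (ca r (fs z))

/-- the new coordinates -/
def ip {J V : Type} (W : Type) (ι : J → V) : J → W ⊕ (V ⊕ Unit) :=
  fun j => Sum.inr (Sum.inl (ι j))

/-- lowest vertex of the new box -/
def ap {V W : Type} (a₁ : W → ℤ) (a : V → ℤ) : W ⊕ (V ⊕ Unit) → ℤ :=
  Sum.elim a₁ (Sum.elim a (fun _ => 0))

/-- highest vertex of the new box -/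
def bp {V W : Type} (b₁ : W → ℤ) (b : V → ℤ) : W ⊕ (V ⊕ Unit) → ℤ :=
  Sum.elim b₁ (Sum.elim b (fun _ => 1))

/-- cells of the thick graph over a set of cells -/
def GaQ {V W : Type} (Tp : Set (Cl W)) (r : ℕ) (ρ : (W → ℤ) → V → ℤ) (Q : Set (Cl W)) :
    Set (Cl (W ⊕ V)) := {z | z ∈ Ga Tp r ρ ∧ fs z ∈ Q}

/-! ## the step -/

/-- `A = T ∪ sk (k - 1) F` -/
def Aa {V : Type} [Fintype V] (k : ℕ) (F T : Set (Cl V)) : Set (Cl V) := T ∪ sk (k - 1) F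

/-- `T' = Om × 2 ∪ A × [0, 2]` -/
def Tq {J V : Type} [Fintype V] (k : ℕ) (L : Set (Cl J)) (ι : J → V) (a b : V → ℤ)
    (F T : Set (Cl V)) : Set (Cl (V ⊕ Unit)) :=
  {z | (sn z () = 4 ∧ fs z ∈ Bx a b ∧ co ι (fs z) ∈ L) ∨ (sn z ∈ In 2 ∧ fs z ∈ Aa k F T)}

/-- its carrier -/
def kq {J V : Type} (ι : J → V) (κ : Cl V → Cl J) (z : Cl (V ⊕ Unit)) : Cl J :=
  if sn z () = 4 then co ι (fs z) else κ (fs z)

/-- the new `T`: `B₁ × A × 0 ∪ Ga₀ × [0,1] ∪ Ga × 1`, where `Ga₀` lies over `A × 0` -/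
def T2p {J V : Type} [Fintype V] (k : ℕ) (L : Set (Cl J)) (ι : J → V) (a b : V → ℤ)
    (F T : Set (Cl V)) (a₁ b₁ : V ⊕ Unit → ℤ) (r : ℕ) (ρ : (V ⊕ Unit → ℤ) → V → ℤ) :
    Set (Cl ((V ⊕ Unit) ⊕ (V ⊕ Unit))) :=
  {z | fs z ∈ Bx a₁ b₁ ∧
    ((sn (sn z) () = 0 ∧ fs (sn z) ∈ Aa k F T) ∨
      (sn (sn z) () = 2 ∧ mk (fs z) (fs (sn z)) ∈ Ga (Tq k L ι a b F T) r ρ) ∨
      (sn (sn z) () = 1 ∧ sn (fs z) () = 0 ∧
        mk (fs z) (fs (sn z)) ∈ Ga (Tq k L ι a b F T) r ρ))}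

/-- the data of the step: `ρ` is the rounding of `x / r` on the part `A × [0, 1]` of the
subdivision -/
structure Ms {J V : Type} [Fintype J] [Fintype V] (k : ℕ) (L : Set (Cl J)) (ι : J → V)
    (a b : V → ℤ) (F T : Set (Cl V)) (κ : Cl V → Cl J) (a₁ b₁ : V ⊕ Unit → ℤ) (m : ℕ)
    (ρ : (V ⊕ Unit → ℤ) → V → ℤ) : Prop
    extends Mc L F κ (Tq k L ι a b F T) (kq ι κ) (2 * m + 1) ρ where
  m1 : 1 ≤ m
  ab1 : ∀ w, a₁ w ≤ b₁ w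
  gb : Gr (2 * m + 1) (Tq k L ι a b F T) ⊆ Bx a₁ b₁
  ob1 : ∀ x : V, a₁ (Sum.inl x) ≤ (2 * m + 1) * a x ∧ (2 * m + 1) * b x ≤ b₁ (Sum.inl x)
  ob2 : a₁ (Sum.inr ()) ≤ 0 ∧ (2 * m + 1) * 2 ≤ b₁ (Sum.inr ())
  rd : ∀ v : V ⊕ Unit → ℤ, (fun w => 2 * v w) ∈ Gr (2 * m + 1) (Tq k L ι a b F T) →
    v (Sum.inr ()) ≤ 2 * m + 1 → ρ v = fun x => (v (Sum.inl x) + m) / (2 * m + 1)

end MNG
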