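import Pool.Agent.MNG.M1
import Pool.Agent.MNG.C3

/-!
# MNG-M3: thickening of expansions

`ga_ex` (THICK): induction on `Ex i Q' Q`. Single cell `q` (dimension `≥ i`): the cells over `q` are added, `ex_map` with `E = mk q` from `Ex 0 ∅ (fibre)` (`sta_ex0`, `ga_sta`, `vx_nonempty`). Pair `(q, t)`: the fibre over `t` is contained in the fibre over `q` (a coface of `t` is a coface of `q`): first `ex_pairs` with `E₁ = mk q`, `E₂ = mk t` on the fibre over `t`, then `ex_map` with `E = mk q` from `Ex i (fibre over t) (fibre over q)` (`sta_ex` with `p = ρ v`, `v` a vertex of `q`, hence of `t`).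
`ga_col`: `Ex i (Ga over Q) (Px Q O)` by `ex_fib1` and `sta_ex` (box `O` is star-closed, `sta_bx`; for `q ∉ Q` both fibres are empty), then `ex_px_l`.
-/

set_option autoImplicit false

noncomputable section

namespace MNG

open AGM (Ei Bl Sp)
open Set Topology

variable {J V W : Type} [Fintype J] [Fintype V] [Fintype W] {k : ℕ} {L : Set (Cl J)}
  {F : Set (Cl V)} {κ : Cl V → Cl J} {Tp : Set (Cl W)} {κT : Cl W → Cl J} {r : ℕ}
  {ρ : (W → ℤ) → V → ℤ}

private theorem m3_eta {A B : Type} (z : Cl (A ⊕ B)) : mk (fs z) (sn z) = z := by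
  funext x
  cases x <;> rfl

private theorem m3_fs {A B : Type} (c : Cl A) (d : Cl B) : fs (mk c d) = c := rfl

private theorem m3_sn {A B : Type} (c : Cl A) (d : Cl B) : sn (mk c d) = d := rfl

private theorem m3_fa {A B : Type} {z : Cl (A ⊕ B)} {c : Cl A} {d : Cl B} (h : Fa z (mk c d)) :
    Fa (fs z) c ∧ Fa (sn z) d := ⟨fun j => h (Sum.inl j), fun j => h (Sum.inr j)⟩

private theorem m3_mk {A B : Type} {c c' : Cl A} {d d' : Cl B} (h : Fa c c') (h' : Fa d d') :
    Fa (mk c d) (mk c' d') := by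
  intro x
  cases x with
  | inl a => exact h a
  | inr b => exact h' b

private theorem m3_ftr {A B : Type} {c : Cl A} {d d' : Cl B} (h : Ft d d') :
    Ft (mk c d) (mk c d') := by
  obtain ⟨i, h1, h2, h3⟩ := h
  refine ⟨Sum.inr i, h1, h2, fun x hx => ?_⟩
  cases x with
  | inl a => rfl
  | inr b => exact h3 b fun hb => hx (by rw [hb])

private theorem m3_ftl {A B : Type} {c c' : Cl A} {d : Cl B} (h : Ft c c') :
    Ft (mk c d) (mk c' d) := by
  obtain ⟨i, h1, h2, h3⟩ := h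
  refine ⟨Sum.inl i, h1, h2, fun x hx => ?_⟩
  cases x with
  | inl a => exact h3 a fun ha => hx (by rw [ha])
  | inr b => rfl

private theorem m3_dm (c : Cl W) (d : Cl V) : dm c ≤ dm (mk c d) := by
  unfold dm
  refine Finset.card_le_card_of_injOn Sum.inl (fun j hj => ?_) (fun a _ b _ h => Sum.inl.inj h)
  simp only [Finset.coe_filter, Finset.mem_univ, true_and, Set.mem_ofPred_eq] at hj ⊢
  exact hj

private theorem m3_ucx (h : Mc L F κ Tp κT r ρ) (hF : Cx F) (q : Cl W) :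
    Cx {P : Cl V | mk q P ∈ Ga Tp r ρ} := by
  constructor
  · exact hF.fin.subset fun P hP => ga_F h hF.clo hP
  · intro P hP d hd
    exact ga_clo h _ hP _ (m3_mk (fa_refl q) hd)

private theorem m3_qclo (h : Mc L F κ Tp κT r ρ) {K : Set (Cl W)} (hK : Clo K) :
    Clo (GaQ Tp r ρ K) := by
  rintro z ⟨hz, hzK⟩ d hd
  exact ⟨ga_clo h z hz d hd, hK _ hzK _ fun j => hd (Sum.inl j)⟩

theorem ga_ex (h : Mc L F κ Tp κT r ρ) (hF : Cx F) (Q' Q : Set (Cl W)) (hQ' : Clo Q')
    (hQ : Q ⊆ Gr r Tp) {i : ℕ} (he : Ex i Q' Q) :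
    Ex i (GaQ Tp r ρ Q') (GaQ Tp r ρ Q) := by
  induction he with
  | refl => exact Ex.refl
  | pair K q t hK hq ht hft hcl ih =>
    have hKT : K ⊆ Gr r Tp := fun x hx => hQ (Or.inr (Or.inr hx))
    have hKc : Clo K := (ex_clo hK hQ').1
    have hqT : q ∈ Gr r Tp := hQ (Or.inl rfl)
    have htT : t ∈ Gr r Tp := hQ (Or.inr (Or.inl rfl))
    obtain ⟨hqt, hne, hdm⟩ := ft_fa hft
    have hsub : {P : Cl V | mk t P ∈ Ga Tp r ρ} ⊆ {P : Cl V | mk q P ∈ Ga Tp r ρ} := by
      intro P hP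
      exact ga_clo h _ hP _ (m3_mk hqt (fa_refl P))
    have hfq : ∀ e, Fa e q → e = q ∨ e ∈ K := by
      intro e he
      rcases hcl q (Or.inl rfl) e he with h1 | h1 | h1
      · exact Or.inl h1
      · exfalso
        have h2 := dm_mono he
        rw [h1] at h2
        omega
      · exact Or.inr h1
    have hfT : ∀ e, Fa e t → e = t ∨ e = q ∨ e ∈ K := by
      intro e he
      rcases hcl t (Or.inr (Or.inl rfl)) e he with h1 | h1 | h1
      · exact Or.inr (Or.inl h1)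
      · exact Or.inl h1
      · exact Or.inr (Or.inr h1)
    have e1 : Ex i (GaQ Tp r ρ K) (GaQ Tp r ρ K ∪ mk q '' {P : Cl V | mk t P ∈ Ga Tp r ρ} ∪
        mk t '' {P : Cl V | mk t P ∈ Ga Tp r ρ}) := by
      refine ex_pairs (A' := ∅) (A := {P : Cl V | mk t P ∈ Ga Tp r ρ}) ?_ (m3_ucx h hF t).clo
        (Set.empty_subset _) ((m3_ucx h hF t).fin.subset Set.sdiff_subset) (mk q) (mk t) _
        (m3_qclo h hKc) ?_ ?_ ?_ ?_ ?_ ?_ ?_ ?_
      · intro c hc
        exact absurd hc (Set.notMem_empty c)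
      · intro P _ P' _ hPP
        exact congrArg sn hPP
      · intro P _ P' _ hPP
        exact congrArg sn hPP
      · intro P _ P' _ hPP
        exact hne (congrArg fs hPP)
      · intro P hP d hd
        obtain ⟨h1, h2⟩ := m3_fa hd
        rcases hfq _ h1 with h3 | h3
        · refine Or.inr ⟨sn d, h2, ?_⟩
          rw [← h3, m3_eta]
        · exact Or.inl ⟨ga_clo h _ (hsub hP) _ hd, h3⟩
      · intro P hP d hd
        obtain ⟨h1, h2⟩ := m3_fa hd
        rcases hfT _ h1 with h3 | h3 | h3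
        · refine Or.inr ⟨sn d, h2, Or.inr ?_⟩
          rw [← h3, m3_eta]
        · refine Or.inr ⟨sn d, h2, Or.inl ?_⟩
          rw [← h3, m3_eta]
        · exact Or.inl ⟨ga_clo h _ hP _ hd, h3⟩
      · intro P _
        exact m3_ftl hft
      · intro c hc
        exact absurd hc (Set.notMem_empty c)
      · intro P _ _
        exact ⟨fun hx => hq hx.2, fun hx => ht hx.2⟩
    obtain ⟨v, hv⟩ := vx_nonempty q
    have hvt : v ∈ Vx t := fa_trans hv hqt
    have e2 : Ex i {P : Cl V | mk t P ∈ Ga Tp r ρ} {P : Cl V | mk q P ∈ Ga Tp r ρ} :=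
      sta_ex (m3_ucx h hF t) (m3_ucx h hF q) hsub ⟨_, (ga_sta h htT hvt).2⟩
        (ga_sta h htT hvt).1 (ga_sta h hqT hv).1 i
    have hcN := (ex_clo e1 (m3_qclo h hKc)).1
    have e3 := ex_map (i := i) e2 (m3_ucx h hF t).clo (mk q) _ hcN
      (fun P _ P' _ hPP => congrArg sn hPP)
      (by
        intro P hP d hd
        obtain ⟨h1, h2⟩ := m3_fa hd
        rcases hfq _ h1 with h3 | h3
        · refine Or.inr ⟨sn d, h2, ?_⟩
          rw [← h3, m3_eta]
        · exact Or.inl (Or.inl (Or.inl ⟨ga_clo h _ hP _ hd, h3⟩)))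
      (fun P _ P' _ hPP => m3_ftr hPP)
      (by
        intro P _ hP
        refine le_trans hP ?_
        unfold dm
        refine Finset.card_le_card_of_injOn Sum.inr (fun j hj => ?_)
          (fun a _ b _ h => Sum.inr.inj h)
        simp only [Finset.coe_filter, Finset.mem_univ, true_and, Set.mem_ofPred_eq] at hj ⊢
        exact hj)
      (fun P hP => Or.inl (Or.inr ⟨P, hP, rfl⟩))
      (by
        rintro P _ hP ((hx | ⟨P', hP', hx⟩) | ⟨P', hP', hx⟩)
        · exact hq hx.2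
        · have h1 : P' = P := congrArg sn hx
          exact hP (h1 ▸ hP')
        · exact hne (congrArg fs hx).symm)
    have hfin : GaQ Tp r ρ K ∪ mk q '' {P : Cl V | mk t P ∈ Ga Tp r ρ} ∪
        mk t '' {P : Cl V | mk t P ∈ Ga Tp r ρ} ∪ mk q '' {P : Cl V | mk q P ∈ Ga Tp r ρ} =
        GaQ Tp r ρ (insert q (insert t K)) := by
      ext z
      constructor
      · rintro (((hz | ⟨P, hP, rfl⟩) | ⟨P, hP, rfl⟩) | ⟨P, hP, rfl⟩)
        · exact ⟨hz.1, Or.inr (Or.inr hz.2)⟩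
        · exact ⟨hsub hP, Or.inl rfl⟩
        · exact ⟨hP, Or.inr (Or.inl rfl)⟩
        · exact ⟨hP, Or.inl rfl⟩
      · rintro ⟨hz, h1 | h1 | h1⟩
        · refine Or.inr ⟨sn z, ?_, ?_⟩
          · show mk q (sn z) ∈ Ga Tp r ρ
            rw [← h1, m3_eta]
            exact hz
          · rw [← h1, m3_eta]
        · refine Or.inl (Or.inr ⟨sn z, ?_, ?_⟩)
          · show mk t (sn z) ∈ Ga Tp r ρ
            rw [← h1, m3_eta]
            exact hz
          · rw [← h1, m3_eta]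
        · exact Or.inl (Or.inl (Or.inl ⟨hz, h1⟩))
    rw [hfin] at e3
    exact ex_trans (ih hKT) (ex_trans e1 e3)
  | cell K q hK hq hd hcl ih =>
    have hKT : K ⊆ Gr r Tp := fun x hx => hQ (Or.inr hx)
    have hKc : Clo K := (ex_clo hK hQ').1
    have hqT : q ∈ Gr r Tp := hQ (Or.inl rfl)
    obtain ⟨v, hv⟩ := vx_nonempty q
    have e2 : Ex 0 ∅ {P : Cl V | mk q P ∈ Ga Tp r ρ} :=
      sta_ex0 (m3_ucx h hF q) ⟨_, (ga_sta h hqT hv).2⟩ (ga_sta h hqT hv).1
    have e3 := ex_map (i := i) e2 (fun c hc => absurd hc (Set.notMem_empty c)) (mk q) _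
      (m3_qclo h hKc)
      (fun P _ P' _ hPP => congrArg sn hPP)
      (by
        intro P hP d hd
        obtain ⟨h1, h2⟩ := m3_fa hd
        rcases hcl q (Or.inl rfl) _ h1 with h3 | h3
        · refine Or.inr ⟨sn d, h2, ?_⟩
          rw [← h3, m3_eta]
        · exact Or.inl ⟨ga_clo h _ hP _ hd, h3⟩)
      (fun P _ P' _ hPP => m3_ftr hPP)
      (fun P _ _ => hd.trans (m3_dm q P))
      (fun P hP => absurd hP (Set.notMem_empty P))
      (fun P _ _ hx => hq hx.2)
    have hfin : GaQ Tp r ρ K ∪ mk q '' {P : Cl V | mk q P ∈ Ga Tp r ρ} =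
        GaQ Tp r ρ (insert q K) := by
      ext z
      constructor
      · rintro (hz | ⟨P, hP, rfl⟩)
        · exact ⟨hz.1, Or.inr hz.2⟩
        · exact ⟨hP, Or.inl rfl⟩
      · rintro ⟨hz, h1 | h1⟩
        · refine Or.inr ⟨sn z, ?_, ?_⟩
          · show mk q (sn z) ∈ Ga Tp r ρ
            rw [← h1, m3_eta]
            exact hz
          · rw [← h1, m3_eta]
        · exact Or.inl ⟨hz, h1⟩
    rw [hfin] at e3
    exact ex_trans (ih hKT) e3

theorem ga_col (h : Mc L F κ Tp κT r ρ) (hF : Cx F) (Q : Set (Cl W)) (hQ : Cx Q)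
    (hQT : Q ⊆ Gr r Tp) (a' b' : V → ℤ) (hab : ∀ v, a' v ≤ b' v)
    (hO : ∀ z ∈ GaQ Tp r ρ Q, sn z ∈ Bx a' b') (a₁ b₁ : W → ℤ) {i : ℕ}
    (he : Ex i Q (Bx a₁ b₁)) :
    Ex i (GaQ Tp r ρ Q) (Px (Bx a₁ b₁) (Bx a' b')) := by
  have _ := hab
  refine ex_trans ?_ (ex_px_l hQ.clo he (cx_bx a' b'))
  have hPx := cx_px hQ (cx_bx a' b')
  refine ex_fib1 (m3_qclo h hQ.clo) hPx.clo (fun z hz => ⟨hz.2, hO z hz⟩)
    (hPx.fin.subset Set.sdiff_subset) fun q => ?_
  by_cases hq : q ∈ Q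
  · have h1 : {P : Cl V | mk q P ∈ GaQ Tp r ρ Q} = {P : Cl V | mk q P ∈ Ga Tp r ρ} := by
      ext P
      exact ⟨fun hP => hP.1, fun hP => ⟨hP, hq⟩⟩
    have h2 : {P : Cl V | mk q P ∈ Px Q (Bx a' b')} = Bx a' b' := by
      ext P
      exact ⟨fun hP => hP.2, fun hP => ⟨hq, hP⟩⟩
    rw [h1, h2]
    obtain ⟨v, hv⟩ := vx_nonempty q
    have hsub : {P : Cl V | mk q P ∈ Ga Tp r ρ} ⊆ Bx a' b' := fun P hP => hO _ ⟨hP, hq⟩
    have h3 := ga_sta h (hQT hq) hv
    refine sta_ex (m3_ucx h hF q) (cx_bx a' b') hsub ⟨_, h3.2⟩ h3.1 (sta_bx fun j => ?_) _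
    have h4 := hsub h3.2 j
    constructor
    · have := h4.1
      omega
    · have := h4.2
      omega
  · have h1 : {P : Cl V | mk q P ∈ GaQ Tp r ρ Q} = ∅ := by
      ext P
      exact ⟨fun hP => absurd hP.2 hq, fun hP => absurd hP (Set.notMem_empty P)⟩
    have h2 : {P : Cl V | mk q P ∈ Px Q (Bx a' b')} = ∅ := by
      ext P
      exact ⟨fun hP => absurd hP.1 hq, fun hP => absurd hP (Set.notMem_empty P)⟩
    rw [h1, h2]
    exact Ex.refl

end MNG
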