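import Pool.Agent.MNG.GS0
import Pool.Agent.MNG.M3

/-!
# MNG-GS3: STEP: the thick graph over `A × 0`

`Q₀ s = {q | q ∈ Gr r T', last coordinate 0, κ (ca r (fs q)) ≤ s}` (`= Gr r (A^s × 0)`). `ga0_A`: if `(q, P) ∈ Ga` and the last coordinate of `q` is `0` then `P ∈ A`: a coface `q₁` of `q` in `Gr r T'` has last coordinate `0` or `1`, `ρ v` is the rounding of `v / r` for all its vertices (`Ms.rd`), these roundings are vertices of `ca r (fs q₁) ∈ A`, so the span is a face of it.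
`ga0_sta`: for `P ∈ A` the set `U = {q ∈ Q₀ s | (q, P) ∈ Ga}` is star-closed with respect to `p_i = r n` if `P_i = 2 n`, `p_i = r n + m` if `P_i = 2 n + 1`, and `0` in the last coordinate, and (for `P ∈ Fb κ A s`) nonempty (`2 p ∈ U`). Let `x` be a vertex of `U`, `q₁ ≥ x` in `Gr r T'` with `P ≤ span (ρ '' Vx q₁)`, `c` a cell of the block of `x`. First `|x_i - r n| ≤ m + 1` if `P_i = 2 n` and `x_i ∈ {r n + m, r n + m + 1}` if `P_i = 2 n + 1`; moving towards `p` does not leave the carrier (here `m ≥ 1` is used, `Ms.m1`: `r n + m + 1 < r (n + 1)`): `ca r c ≤ ca r (2 x)`. New coface `q₂` of `c`: `(q₂)_i = 2 (r n + m) + 1` if `P_i = 2 n + 1`;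
if `P_i = 2 n` then `(q₂)_i = c_i` if `c_i` has a vertex rounding to `n`, else `(q₁)_i`; last coordinate `0`; `ca r q₂ ≤ ca r q₁`, so `q₂ ∈ Gr r T'`; `P ≤ span (ρ '' Vx q₂)` (all values are roundings).
-/

set_option autoImplicit false

noncomputable section

namespace MNG

open AGM (Ei Bl Sp)
open Set Topology

variable {J V : Type} [Fintype J] [Fintype V] {k j : ℕ} {L : Set (Cl J)}
  {F T : Set (Cl V)} {κ : Cl V → Cl J} {ι : J → V} {a b : V → ℤ} {a₁ b₁ : V ⊕ Unit → ℤ} {m : ℕ}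
  {ρ : (V ⊕ Unit → ℤ) → V → ℤ}

/-- the cells of the subdivision of `A^s × 0` -/
def Q0 {J V : Type} [Fintype V] (k : ℕ) (F T : Set (Cl V)) (κ : Cl V → Cl J) (m : ℕ)
    (s : Cl J) : Set (Cl (V ⊕ Unit)) :=
  {q | sn q () = 0 ∧ ca (2 * m + 1) (fs q) ∈ Fb κ (Aa k F T) s}

/-! ### integers -/

/-- the cell spanned by the roundings of the vertices of `z` -/
private def gs3_rr (m : ℕ) (z : ℤ) : ℤ :=
  (z / 2 + m) / (2 * m + 1) + ((z + 1) / 2 + m) / (2 * m + 1)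

private theorem gs3_div {r n t : ℤ} (h0 : 0 ≤ t) (h1 : t < r) : (r * n + t) / r = n := by
  have hr : 0 < r := lt_of_le_of_lt h0 h1
  rw [add_comm, Int.add_mul_ediv_left _ _ hr.ne', Int.ediv_eq_zero_of_lt h0 h1, zero_add]

private theorem gs3_ca {m : ℕ} {n u : ℤ} (h0 : 0 ≤ u) (h1 : u < 2 * (2 * m + 1)) :
    ca1 (2 * m + 1) (2 * ((2 * m + 1) * n) + u) = if u = 0 then 2 * n else 2 * n + 1 := by
  have hc : (((2 * m + 1 : ℕ) : ℕ) : ℤ) = 2 * (m : ℤ) + 1 := by push_cast; ring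
  unfold ca1
  rw [hc]
  have e1 : 2 * ((2 * (m : ℤ) + 1) * n) + u = 2 * (2 * (m : ℤ) + 1) * n + u := by ring
  by_cases hu : u = 0
  · subst hu
    rw [if_pos rfl, if_pos ⟨n, by ring⟩]
    have e2 : 2 * ((2 * (m : ℤ) + 1) * n) + 0 = (2 * (m : ℤ) + 1) * (2 * n) + 0 := by ring
    rw [e2]
    exact gs3_div le_rfl (by omega)
  · rw [if_neg hu, if_neg, e1, gs3_div h0 h1]
    rintro ⟨t, ht⟩
    have h2 : u = 2 * (2 * (m : ℤ) + 1) * (t - n) := by
      rw [e1] at ht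
      linear_combination ht
    have h3 : (2 * (2 * (m : ℤ) + 1)) ∣ u := ⟨t - n, h2⟩
    exact hu (Int.eq_zero_of_dvd_of_nonneg_of_lt h0 h1 h3)

private theorem gs3_ex {r : ℤ} (hr : 0 < r) (z : ℤ) : ∃ n u : ℤ, 0 ≤ u ∧ u < 2 * r ∧
    z = 2 * (r * n) + u := by
  refine ⟨z / (2 * r), z % (2 * r), Int.emod_nonneg _ (by omega),
    Int.emod_lt_of_pos _ (by omega), ?_⟩
  have h := Int.mul_ediv_add_emod z (2 * r)
  linear_combination -h

private theorem gs3_ca_even {m : ℕ} {n z : ℤ} :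
    ca1 (2 * m + 1) z = 2 * n ↔ z = 2 * ((2 * m + 1) * n) := by
  obtain ⟨t, u, h0, h1, rfl⟩ := gs3_ex (r := 2 * (m : ℤ) + 1) (by omega) z
  constructor
  · intro h
    rw [gs3_ca h0 h1] at h
    split_ifs at h with hu
    · have h2 : t = n := by omega
      rw [h2, hu, add_zero]
    · omega
  · intro h
    have h2 := gs3_ca (m := m) (n := n) (u := 0) le_rfl (by omega)
    rw [if_pos rfl, add_zero] at h2
    rw [h, h2]

private theorem gs3_ca_odd {m : ℕ} {n z : ℤ} :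
    ca1 (2 * m + 1) z = 2 * n + 1 ↔
      2 * ((2 * m + 1) * n) < z ∧ z < 2 * ((2 * m + 1) * n) + 2 * (2 * m + 1) := by
  constructor
  · intro h
    obtain ⟨t, u, h0, h1, rfl⟩ := gs3_ex (r := 2 * (m : ℤ) + 1) (by omega) z
    rw [gs3_ca h0 h1] at h
    split_ifs at h with hu
    · omega
    · have h2 : t = n := by omega
      rw [h2]
      constructor <;> omega
  · rintro ⟨h1, h2⟩
    have h3 := gs3_ca (m := m) (n := n) (u := z - 2 * ((2 * m + 1) * n)) (by omega) (by omega)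
    rw [if_neg (by omega)] at h3
    rw [← h3]
    congr 1
    ring

private theorem gs3_rr_val {m : ℕ} {n u : ℤ} (h0 : 0 ≤ u) (h1 : u ≤ 4 * m + 1) :
    gs3_rr m (2 * ((2 * m + 1) * n) + u - 2 * m) = if u = 4 * m + 1 then 2 * n + 1 else 2 * n := by
  unfold gs3_rr
  obtain ⟨N, hN⟩ : ∃ N, N = (2 * (m : ℤ) + 1) * n := ⟨_, rfl⟩
  have e1 : (2 * ((2 * (m : ℤ) + 1) * n) + u - 2 * m) / 2 + m = (2 * (m : ℤ) + 1) * n + u / 2 := by
    rw [← hN]
    omega
  have e2 : (2 * ((2 * (m : ℤ) + 1) * n) + u - 2 * m + 1) / 2 + m =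
      (2 * (m : ℤ) + 1) * n + (u + 1) / 2 := by
    rw [← hN]
    omega
  rw [e1, e2, gs3_div (by omega) (by omega)]
  split_ifs with hu
  · have e3 : (2 * (m : ℤ) + 1) * n + (u + 1) / 2 = (2 * (m : ℤ) + 1) * (n + 1) + 0 := by
      have h2 : (u + 1) / 2 = 2 * (m : ℤ) + 1 := by omega
      rw [h2]
      ring
    rw [e3, gs3_div le_rfl (by omega)]
    ring
  · rw [gs3_div (by omega) (by omega)]
    ring

private theorem gs3_rr_even {m : ℕ} {n z : ℤ} : gs3_rr m z = 2 * n ↔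
    2 * ((2 * m + 1) * n) - 2 * m ≤ z ∧ z ≤ 2 * ((2 * m + 1) * n) + 2 * m := by
  constructor
  · intro h
    obtain ⟨t, u, h0, h1, h2⟩ := gs3_ex (r := 2 * (m : ℤ) + 1) (by omega) (z + 2 * m)
    have h3 : z = 2 * ((2 * m + 1) * t) + u - 2 * m := by omega
    rw [h3, gs3_rr_val h0 (by omega)] at h
    split_ifs at h with hu
    · omega
    · have h4 : t = n := by omega
      rw [h3, h4]
      constructor <;> omega
  · rintro ⟨h1, h2⟩
    have h3 := gs3_rr_val (m := m) (n := n) (u := z + 2 * m - 2 * ((2 * m + 1) * n)) (by omega)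
      (by omega)
    rw [if_neg (by omega)] at h3
    rw [← h3]
    congr 1
    ring

private theorem gs3_rr_odd {m : ℕ} {n z : ℤ} : gs3_rr m z = 2 * n + 1 ↔
    z = 2 * ((2 * m + 1) * n) + 2 * m + 1 := by
  constructor
  · intro h
    obtain ⟨t, u, h0, h1, h2⟩ := gs3_ex (r := 2 * (m : ℤ) + 1) (by omega) (z + 2 * m)
    have h3 : z = 2 * ((2 * m + 1) * t) + u - 2 * m := by omega
    rw [h3, gs3_rr_val h0 (by omega)] at h
    split_ifs at h with hu
    · have h4 : t = n := by omega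
      rw [h3, h4]
      omega
    · omega
  · intro h
    have h3 := gs3_rr_val (m := m) (n := n) (u := 4 * m + 1) (by omega) le_rfl
    rw [if_pos rfl] at h3
    rw [← h3, h]
    congr 1
    ring

private theorem gs3_fe {m : ℕ} {n z : ℤ} : fc (2 * n) (gs3_rr m z) ↔
    2 * ((2 * m + 1) * n) - 2 * m - 1 ≤ z ∧ z ≤ 2 * ((2 * m + 1) * n) + 2 * m + 1 := by
  have e1 : gs3_rr m z = 2 * n ↔ _ := gs3_rr_even
  have e2 : gs3_rr m z = 2 * n + 1 ↔ _ := gs3_rr_odd
  have e3 : gs3_rr m z = 2 * (n - 1) + 1 ↔ _ := gs3_rr_odd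
  have e4 : (2 * (m : ℤ) + 1) * (n - 1) = (2 * m + 1) * n - (2 * m + 1) := by ring
  rw [e4] at e3
  obtain ⟨N, hN⟩ : ∃ N, N = (2 * (m : ℤ) + 1) * n := ⟨_, rfl⟩
  rw [← hN] at e1 e2 e3 ⊢
  constructor
  · intro h
    unfold fc at h
    rcases h with h | ⟨-, h | h⟩
    · have := e1.1 h.symm
      omega
    · have := e2.1 (by omega)
      omega
    · have := e3.1 (by omega)
      omega
  · rintro ⟨h1, h2⟩
    unfold fc
    by_cases h3 : z = 2 * N - 2 * m - 1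
    · have := e3.2 (by omega)
      omega
    · by_cases h4 : z = 2 * N + 2 * m + 1
      · have := e2.2 h4
        omega
      · have := e1.2 (by omega)
        omega

private theorem gs3_fo {m : ℕ} {n z : ℤ} : fc (2 * n + 1) (gs3_rr m z) ↔
    z = 2 * ((2 * m + 1) * n) + 2 * m + 1 := by
  rw [← gs3_rr_odd]
  unfold fc
  constructor
  · intro h
    omega
  · intro h
    omega

/-- the rounding lies in the carrier -/
private theorem gs3_rr_ca (m : ℕ) (z : ℤ) : fc (gs3_rr m z) (ca1 (2 * m + 1) z) := by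
  obtain ⟨n, hn⟩ : ∃ n, ca1 (2 * m + 1) z = 2 * n ∨ ca1 (2 * m + 1) z = 2 * n + 1 :=
    ⟨ca1 (2 * m + 1) z / 2, by omega⟩
  have e1 : gs3_rr m z = 2 * n ↔ _ := gs3_rr_even
  have e2 : gs3_rr m z = 2 * n + 1 ↔ _ := gs3_rr_odd
  have e3 : gs3_rr m z = 2 * (n + 1) ↔ _ := gs3_rr_even
  have e4 : (2 * (m : ℤ) + 1) * (n + 1) = (2 * m + 1) * n + (2 * m + 1) := by ring
  rw [e4] at e3
  rcases hn with hn | hn
  · have h1 := gs3_ca_even.1 hn
    rw [hn]
    obtain ⟨N, hN⟩ : ∃ N, N = (2 * (m : ℤ) + 1) * n := ⟨_, rfl⟩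
    rw [← hN] at e1 h1
    exact Or.inl (e1.2 (by omega))
  · have h1 := gs3_ca_odd.1 hn
    rw [hn]
    obtain ⟨N, hN⟩ : ∃ N, N = (2 * (m : ℤ) + 1) * n := ⟨_, rfl⟩
    rw [← hN] at e1 e2 e3 h1
    unfold fc
    by_cases h3 : z = 2 * N + 2 * m + 1
    · have := e2.2 h3
      omega
    · by_cases h4 : z ≤ 2 * N + 2 * m
      · have := e1.2 (by omega)
        omega
      · have := e3.2 (by omega)
        omega

/-- the centre of the fibre -/
private def gs3_p (m : ℕ) (P : ℤ) : ℤ := (2 * m + 1) * (P / 2) + if P % 2 = 1 then (m : ℤ) else 0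

private theorem gs3_base {m : ℕ} (hm : 1 ≤ m) (P : ℤ) : ∃ e : ℤ, fc (2 * gs3_p m P) e ∧
    ca1 (2 * m + 1) (2 * gs3_p m P) = P ∧ ca1 (2 * m + 1) e = P ∧ fc P (gs3_rr m e) := by
  unfold gs3_p
  obtain ⟨n, hn⟩ : ∃ n, P = 2 * n ∨ P = 2 * n + 1 := ⟨P / 2, by omega⟩
  obtain ⟨N, hN⟩ : ∃ N, N = (2 * (m : ℤ) + 1) * n := ⟨_, rfl⟩
  rcases hn with hn | hn
  · have h1 : P / 2 = n := by omega
    have h2 : ¬ P % 2 = 1 := by omega
    rw [h1, if_neg h2, add_zero, hn]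
    refine ⟨2 * ((2 * m + 1) * n), Or.inl rfl, gs3_ca_even.2 rfl, gs3_ca_even.2 rfl, ?_⟩
    rw [gs3_fe, ← hN]
    omega
  · have h1 : P / 2 = n := by omega
    have h2 : P % 2 = 1 := by omega
    rw [h1, if_pos h2, hn]
    refine ⟨2 * ((2 * m + 1) * n) + 2 * m + 1, ?_, gs3_ca_odd.2 ?_, gs3_ca_odd.2 ?_,
      gs3_fo.2 rfl⟩
    · rw [← hN]
      unfold fc
      omega
    · rw [← hN]
      omega
    · rw [← hN]
      omega

open Classical in
private theorem gs3_step {m : ℕ} (hm : 1 ≤ m) {P q X c : ℤ} (hP : fc P (gs3_rr m q))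
    (hX : fc (2 * X) q)
    (hc : c = 2 * X ∨ (X ≠ gs3_p m P ∧ c = 2 * X + stp (gs3_p m P) X)) :
    ca1 (2 * m + 1) c = ca1 (2 * m + 1) (2 * X) ∧
      fc c (if fc P (gs3_rr m c) then c else q) ∧
      fc (ca1 (2 * m + 1) (if fc P (gs3_rr m c) then c else q)) (ca1 (2 * m + 1) q) ∧
      fc P (gs3_rr m (if fc P (gs3_rr m c) then c else q)) := by
  have hr : 1 ≤ 2 * m + 1 := by omega
  have key : ca1 (2 * m + 1) c = ca1 (2 * m + 1) (2 * X) ∧
      (¬ fc P (gs3_rr m c) → fc c q) := by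
    unfold gs3_p stp at hc
    obtain ⟨n, hn⟩ : ∃ n, P = 2 * n ∨ P = 2 * n + 1 := ⟨P / 2, by omega⟩
    obtain ⟨N, hN⟩ : ∃ N, N = (2 * (m : ℤ) + 1) * n := ⟨_, rfl⟩
    rcases hn with hn | hn
    · have h1 : P / 2 = n := by omega
      have h2 : ¬ P % 2 = 1 := by omega
      rw [h1, if_neg h2, add_zero] at hc
      rw [hn] at hP ⊢
      rw [gs3_fe] at hP ⊢
      have e4 : (2 * (m : ℤ) + 1) * (n - 1) = (2 * m + 1) * n - (2 * m + 1) := by ring
      rw [← hN] at hP hc e4 ⊢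
      have hX' : q - 1 ≤ 2 * X ∧ 2 * X ≤ q + 1 := by
        unfold fc at hX
        omega
      rcases hc with hc | ⟨h3, hc⟩
      · rw [hc]
        exact ⟨rfl, fun _ => hX⟩
      · by_cases h4 : X < N
        · rw [if_pos h4] at hc
          constructor
          · have h5 : ca1 (2 * m + 1) c = 2 * (n - 1) + 1 := by
              rw [gs3_ca_odd, e4]
              omega
            have h6 : ca1 (2 * m + 1) (2 * X) = 2 * (n - 1) + 1 := by
              rw [gs3_ca_odd, e4]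
              omega
            rw [h5, h6]
          · intro h5
            exfalso
            apply h5
            omega
        · rw [if_neg h4] at hc
          constructor
          · have h5 : ca1 (2 * m + 1) c = 2 * n + 1 := by
              rw [gs3_ca_odd, ← hN]
              omega
            have h6 : ca1 (2 * m + 1) (2 * X) = 2 * n + 1 := by
              rw [gs3_ca_odd, ← hN]
              omega
            rw [h5, h6]
          · intro h5
            exfalso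
            apply h5
            omega
    · have h1 : P / 2 = n := by omega
      have h2 : P % 2 = 1 := by omega
      rw [h1, if_pos h2] at hc
      rw [hn] at hP ⊢
      rw [gs3_fo] at hP ⊢
      rw [← hN] at hP hc ⊢
      have hX' : q - 1 ≤ 2 * X ∧ 2 * X ≤ q + 1 := by
        unfold fc at hX
        omega
      rcases hc with hc | ⟨h3, hc⟩
      · rw [hc]
        exact ⟨rfl, fun _ => hX⟩
      · have h4 : ¬ X < N + m := by omega
        rw [if_neg h4] at hc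
        constructor
        · have h5 : ca1 (2 * m + 1) c = 2 * n + 1 := by
            rw [gs3_ca_odd, ← hN]
            omega
          have h6 : ca1 (2 * m + 1) (2 * X) = 2 * n + 1 := by
            rw [gs3_ca_odd, ← hN]
            omega
          rw [h5, h6]
        · intro h5
          exfalso
          apply h5
          omega
  refine ⟨key.1, ?_⟩
  split_ifs with h1
  · refine ⟨Or.inl rfl, ?_, h1⟩
    rw [key.1]
    exact ca1_fc hr hX
  · exact ⟨key.2 h1, Or.inl rfl, hP⟩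

/-! ### cells -/

private theorem gs3_ca0 {m : ℕ} {z : ℤ} : ca1 (2 * m + 1) z = 0 ↔ z = 0 := by
  have h : ca1 (2 * m + 1) z = 2 * 0 ↔ z = 2 * ((2 * (m : ℤ) + 1) * 0) := gs3_ca_even
  rw [mul_zero, mul_zero, mul_zero] at h
  exact h

private theorem gs3_fs {A B : Type} {z z' : Cl (A ⊕ B)} (h : Fa z z') : Fa (fs z) (fs z') :=
  fun j => h (Sum.inl j)

private theorem gs3_fa {A : Type} {c c' : Cl (A ⊕ Unit)} (h : Fa (fs c) (fs c'))
    (h' : fc (sn c ()) (sn c' ())) : Fa c c' := by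
  rintro (j | j)
  · exact h j
  · exact h'

/-- the rounding of a cell -/
private def gs3_rc (m : ℕ) (q : Cl (V ⊕ Unit)) : Cl V := fun x => gs3_rr m (q (Sum.inl x))

private theorem gs3_vert {z v : ℤ} (h : fc (2 * v) z) : v = z / 2 ∨ v = (z + 1) / 2 := by
  unfold fc at h
  omega

private theorem gs3_rr1 (m : ℕ) {z v : ℤ} (h : fc (2 * v) z) :
    fc (2 * ((v + m) / (2 * m + 1))) (gs3_rr m z) := by
  have hr : (0 : ℤ) < 2 * m + 1 := by omega
  have h1 : (z / 2 + m) / (2 * (m : ℤ) + 1) ≤ ((z + 1) / 2 + m) / (2 * m + 1) :=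
    Int.ediv_le_ediv hr (by omega)
  have h2 : ((z + 1) / 2 + m) / (2 * (m : ℤ) + 1) ≤ (z / 2 + m) / (2 * m + 1) + 1 := by
    have h3 : ((z + 1) / 2 + m) / (2 * (m : ℤ) + 1) ≤
        (z / 2 + m + (2 * m + 1)) / (2 * m + 1) := Int.ediv_le_ediv hr (by omega)
    rw [Int.add_ediv_of_dvd_right (dvd_refl _), Int.ediv_self hr.ne'] at h3
    exact h3
  unfold gs3_rr
  unfold fc
  rcases gs3_vert h with h3 | h3
  · rw [h3]
    omega
  · rw [h3]
    omega

private theorem gs3_rr2 (m : ℕ) {z w : ℤ} (h : fc (2 * w) (gs3_rr m z)) :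
    ∃ v, fc (2 * v) z ∧ (v + m) / (2 * m + 1) = w := by
  have hr : (0 : ℤ) < 2 * m + 1 := by omega
  have e1 : fc (2 * (z / 2)) z := by
    unfold fc
    omega
  have e2 : fc (2 * ((z + 1) / 2)) z := by
    unfold fc
    omega
  have h1 := gs3_rr1 m e1
  have h2 := gs3_rr1 m e2
  unfold gs3_rr at h h1 h2
  obtain ⟨A, hA⟩ : ∃ A, A = (z / 2 + m) / (2 * (m : ℤ) + 1) := ⟨_, rfl⟩
  obtain ⟨B, hB⟩ : ∃ B, B = ((z + 1) / 2 + m) / (2 * (m : ℤ) + 1) := ⟨_, rfl⟩
  rw [← hA, ← hB] at h h1 h2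
  unfold fc at h h1 h2
  have h3 : w = A ∨ w = B := by omega
  rcases h3 with h3 | h3
  · exact ⟨_, e1, by rw [h3, hA]⟩
  · exact ⟨_, e2, by rw [h3, hB]⟩

omit [Fintype V] in
private theorem gs3_spn {m : ℕ} {ρ : (V ⊕ Unit → ℤ) → V → ℤ} {q : Cl (V ⊕ Unit)}
    (h : ∀ v ∈ Vx q, ρ v = fun x => (v (Sum.inl x) + m) / (2 * m + 1)) :
    spn (ρ '' Vx q) = gs3_rc m q := by
  have h1 : ∀ v ∈ ρ '' Vx q, Fa (fun j => 2 * v j) (gs3_rc m q) := by
    rintro _ ⟨v, hv, rfl⟩ x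
    rw [h v hv]
    exact gs3_rr1 m (hv (Sum.inl x))
  have hn : (ρ '' Vx q).Nonempty := (vx_nonempty q).image ρ
  refine fa_antisymm (spn_fa _ hn _ h1) ?_
  have h2 : Vx (gs3_rc m q) ⊆ ρ '' Vx q := by
    intro w hw
    choose v hv1 hv2 using fun x => gs3_rr2 m (hw x)
    refine ⟨Sum.elim v (fun _ => q (Sum.inr ()) / 2), ?_, ?_⟩
    · rintro (x | x)
      · exact hv1 x
      · show fc (2 * (q (Sum.inr ()) / 2)) (q (Sum.inr ()))
        unfold fc
        omega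
    · rw [h]
      · funext x
        exact hv2 x
      · rintro (x | x)
        · exact hv1 x
        · show fc (2 * (q (Sum.inr ()) / 2)) (q (Sum.inr ()))
          unfold fc
          omega
  have h3 := spn_mono _ _ (vx_nonempty (gs3_rc m q)) h2 _ h1
  rwa [spn_vx] at h3

/-- cells of the subdivision of `T'` with last coordinate at most `1` -/
private theorem gs3_low (hm : Ms k L ι a b F T κ a₁ b₁ m ρ)
    {q : Cl (V ⊕ Unit)} (hq : q ∈ Gr (2 * m + 1) (Tq k L ι a b F T)) (h0 : sn q () ≤ 1) :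
    0 ≤ sn q () ∧ ca (2 * m + 1) (fs q) ∈ Aa k F T ∧ spn (ρ '' Vx q) = gs3_rc m q := by
  have h1 : ca1 (2 * m + 1) (sn q ()) ≠ 4 := by
    intro h1
    have h2 := (gs3_ca_even (m := m) (n := 2) (z := sn q ())).1 (by rw [h1]; norm_num)
    omega
  have h2 : sn (ca (2 * m + 1) q) ∈ In 2 ∧ fs (ca (2 * m + 1) q) ∈ Aa k F T := by
    rcases hq with ⟨h2, -⟩ | h2
    · exact absurd h2 h1
    · exact h2
  have h3 : 0 ≤ sn q () := by
    by_contra h3
    have h4 : 0 ≤ ca1 (2 * m + 1) (sn q ()) := h2.1.1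
    obtain ⟨n, hn⟩ : ∃ n, ca1 (2 * m + 1) (sn q ()) = 2 * n ∨
        ca1 (2 * m + 1) (sn q ()) = 2 * n + 1 := ⟨ca1 (2 * m + 1) (sn q ()) / 2, by omega⟩
    have hn0 : 0 ≤ n := by omega
    have hN : 0 ≤ (2 * (m : ℤ) + 1) * n := mul_nonneg (by omega) hn0
    rcases hn with hn | hn
    · have := gs3_ca_even.1 hn
      omega
    · have := gs3_ca_odd.1 hn
      omega
  refine ⟨h3, h2.2, gs3_spn ?_⟩
  intro v hv
  refine hm.rd v (clo_gr hm.hr hm.cx.clo _ hq _ hv) ?_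
  have h4 : fc (2 * v (Sum.inr ())) (sn q ()) := hv (Sum.inr ())
  unfold fc at h4
  omega

private theorem gs3_up {u v : ℤ} (h : fc u v) (h0 : u = 0) : v ≤ 1 := by
  unfold fc at h
  omega

theorem q0_eq (h : Go k L ι a b F T κ j) (s : Cl J) (hs : s ∈ L) (m : ℕ) :
    Q0 k F T κ m s =
      Gr (2 * m + 1) {z : Cl (V ⊕ Unit) | sn z () = 0 ∧ fs z ∈ Fb κ (Aa k F T) s} ∧
    Q0 k F T κ m s ⊆ Gr (2 * m + 1) (Tq k L ι a b F T) ∧ Cx (Q0 k F T κ m s) := by
  have _ := hs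
  obtain ⟨hA, hAF, -, -⟩ := aa_cx h
  have e : Q0 k F T κ m s =
      Gr (2 * m + 1) {z : Cl (V ⊕ Unit) | sn z () = 0 ∧ fs z ∈ Fb κ (Aa k F T) s} := by
    ext q
    exact and_congr_left fun _ => gs3_ca0.symm
  have hFb : Cx (Fb κ (Aa k F T) s) := by
    refine ⟨hA.fin.subset fun c hc => hc.1, ?_⟩
    rintro c ⟨hc, hcs⟩ d hd
    exact ⟨hA.clo c hc d hd, fa_trans (h.km.mono c (hAF hc) d hd) hcs⟩
  refine ⟨e, ?_, ?_⟩
  · rintro q ⟨h1, h2⟩
    refine Or.inr ⟨?_, h2.1⟩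
    have h3 : sn (ca (2 * m + 1) q) () = 0 := gs3_ca0.2 h1
    constructor
    · rw [h3]
    · rw [h3]
      norm_num
  · rw [e]
    refine cx_gr (by omega) ⟨?_, ?_⟩
    · refine (cx_px hFb (cx_in 2)).fin.subset ?_
      rintro z ⟨h1, h2⟩
      refine ⟨h2, ?_, ?_⟩
      · rw [h1]
      · rw [h1]
        norm_num
    · rintro z ⟨h1, h2⟩ d hd
      refine ⟨?_, hFb.clo _ h2 _ (gs3_fs hd)⟩
      have h3 : fc (sn d ()) (sn z ()) := hd (Sum.inr ())
      unfold fc at h3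
      omega

theorem ga0_A (h : Go k L ι a b F T κ j) (hm : Ms k L ι a b F T κ a₁ b₁ m ρ)
    {z : Cl ((V ⊕ Unit) ⊕ V)} (hz : z ∈ Ga (Tq k L ι a b F T) (2 * m + 1) ρ)
    (h0 : sn (fs z) () = 0) : sn z ∈ Aa k F T := by
  obtain ⟨-, q, hq, h1, h2⟩ := hz
  obtain ⟨-, h3, h4⟩ := gs3_low hm hq (gs3_up (h1 (Sum.inr ())) h0)
  rw [h4] at h2
  refine (aa_cx h).1.clo _ h3 _ (fa_trans h2 ?_)
  intro x
  exact gs3_rr_ca m (q (Sum.inl x))

theorem ga0_sta (h : Go k L ι a b F T κ j) (hm : Ms k L ι a b F T κ a₁ b₁ m ρ) (s : Cl J)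
    (hs : s ∈ L) (P : Cl V) (hP : P ∈ Fb κ (Aa k F T) s) :
    ∃ p : V ⊕ Unit → ℤ, (∀ w, a₁ w ≤ p w ∧ p w ≤ b₁ w) ∧
      (fun w => 2 * p w) ∈ {q | mk q P ∈ GaQ (Tq k L ι a b F T) (2 * m + 1) ρ
        (Q0 k F T κ m s)} ∧
      Sta p {q | mk q P ∈ GaQ (Tq k L ι a b F T) (2 * m + 1) ρ (Q0 k F T κ m s)} := by
  classical
  obtain ⟨hA, hAF, -, -⟩ := aa_cx h
  obtain ⟨hQe, hQT, hQc⟩ := q0_eq h s hs m
  choose e he1 he2 he3 he4 using fun x => gs3_base hm.m1 (P x)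
  have hPb := h.bx (hAF hP.1)
  have hin : ∀ z : Cl Unit, z () = 0 → z ∈ In 2 := by
    intro z hz
    constructor
    · rw [hz]
    · rw [hz]
      norm_num
  have hFc : Clo (Fb κ (Aa k F T) s) := by
    rintro c ⟨hc, hcs⟩ d hd
    exact ⟨hA.clo c hc d hd, fa_trans (h.km.mono c (hAF hc) d hd) hcs⟩
  refine ⟨Sum.elim (fun x => gs3_p m (P x)) (fun _ => 0), ?_, ⟨⟨?_, ?_⟩, ?_⟩, ?_⟩
  · rintro (x | x)
    · have h1 := hPb x
      have h2 := hm.ob1 x
      show a₁ (Sum.inl x) ≤ gs3_p m (P x) ∧ gs3_p m (P x) ≤ b₁ (Sum.inl x)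
      unfold gs3_p
      obtain ⟨n, hn⟩ : ∃ n, P x = 2 * n ∨ P x = 2 * n + 1 := ⟨P x / 2, by omega⟩
      rcases hn with hn | hn
      · have h3 : P x / 2 = n := by omega
        have h4 : ¬ P x % 2 = 1 := by omega
        rw [h3, if_neg h4, add_zero]
        have h5 : (2 * (m : ℤ) + 1) * a x ≤ (2 * m + 1) * n :=
          mul_le_mul_of_nonneg_left (by omega) (by omega)
        have h6 : (2 * (m : ℤ) + 1) * n ≤ (2 * m + 1) * b x :=
          mul_le_mul_of_nonneg_left (by omega) (by omega)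
        exact ⟨h2.1.trans h5, h6.trans h2.2⟩
      · have h3 : P x / 2 = n := by omega
        have h4 : P x % 2 = 1 := by omega
        rw [h3, if_pos h4]
        have h5 : (2 * (m : ℤ) + 1) * a x ≤ (2 * m + 1) * n :=
          mul_le_mul_of_nonneg_left (by omega) (by omega)
        have h6 : (2 * (m : ℤ) + 1) * (n + 1) ≤ (2 * m + 1) * b x :=
          mul_le_mul_of_nonneg_left (by omega) (by omega)
        have h7 : (2 * (m : ℤ) + 1) * (n + 1) = (2 * m + 1) * n + (2 * m + 1) := by ring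
        rw [h7] at h6
        constructor
        · have := h2.1.trans h5
          omega
        · have := h6.trans h2.2
          omega
    · have h1 := hm.ob2
      have h2 : a₁ (Sum.inr ()) ≤ 0 ∧ 0 ≤ b₁ (Sum.inr ()) := ⟨h1.1, by omega⟩
      exact h2
  · refine Or.inr ⟨hin _ (gs3_ca0.2 rfl), ?_⟩
    have h1 : fs (ca (2 * m + 1) (fs (mk (fun w => 2 * (Sum.elim (fun x => gs3_p m (P x))
        (fun _ => 0) : V ⊕ Unit → ℤ) w) P))) = P := by
      funext x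
      exact he2 x
    rw [h1]
    exact hP.1
  · have hq : (Sum.elim e (fun _ => 0) : Cl (V ⊕ Unit)) ∈
        Gr (2 * m + 1) (Tq k L ι a b F T) := by
      refine Or.inr ⟨hin _ (gs3_ca0.2 rfl), ?_⟩
      have h1 : fs (ca (2 * m + 1) (Sum.elim e (fun _ => 0) : Cl (V ⊕ Unit))) = P := by
        funext x
        exact he3 x
      rw [h1]
      exact hP.1
    refine ⟨_, hq, ?_, ?_⟩
    · rintro (x | x)
      · exact he1 x
      · exact Or.inl rfl
    · rw [(gs3_low hm hq (show (0 : ℤ) ≤ 1 by norm_num)).2.2]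
      intro x
      exact he4 x
  · refine ⟨rfl, ?_⟩
    have h1 : ca (2 * m + 1) (fs (fs (mk (fun w => 2 * (Sum.elim (fun x => gs3_p m (P x))
        (fun _ => 0) : V ⊕ Unit → ℤ) w) P))) = P := by
      funext x
      exact he2 x
    rw [h1]
    exact hP
  · rintro X ⟨⟨hX1, q, hq, hXq, hPq⟩, hX2, hX3⟩ c hc
    have hX2' : 2 * X (Sum.inr ()) = 0 := hX2
    have hXq' : ∀ w, fc (2 * X w) (q w) := hXq
    have hq1 := gs3_up (hXq' (Sum.inr ())) hX2'
    obtain ⟨hq0, hqA, hqs⟩ := gs3_low hm hq hq1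
    have hPq' : ∀ x, fc (P x) (gs3_rr m (q (Sum.inl x))) := by
      rw [hqs] at hPq
      exact hPq
    have hst := fun x => gs3_step hm.m1 (hPq' x) (hXq' (Sum.inl x)) (hc (Sum.inl x))
    have hc0 : c (Sum.inr ()) = 0 := by
      rcases hc (Sum.inr ()) with h1 | ⟨h1, -⟩
      · rw [h1, hX2']
      · exfalso
        apply h1
        show X (Sum.inr ()) = 0
        omega
    have hcQ : c ∈ Q0 k F T κ m s := by
      refine ⟨hc0, ?_⟩
      have h1 : ca (2 * m + 1) (fs c) = ca (2 * m + 1) (fs (fun w => 2 * X w)) := by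
        funext x
        exact (hst x).1
      rw [h1]
      exact hX3
    obtain ⟨q₂, hq₂⟩ : ∃ q₂ : Cl (V ⊕ Unit), q₂ = Sum.elim (fun x =>
      if fc (P x) (gs3_rr m (c (Sum.inl x))) then c (Sum.inl x) else q (Sum.inl x))
        (fun _ => 0) := ⟨_, rfl⟩
    have hq₂T : q₂ ∈ Gr (2 * m + 1) (Tq k L ι a b F T) := by
      refine hm.cx.clo _ hq _ (gs3_fa ?_ ?_)
      · intro x
        rw [hq₂]
        exact (hst x).2.2.1
      · show fc (ca1 (2 * m + 1) (q₂ (Sum.inr ()))) (ca1 (2 * m + 1) (q (Sum.inr ())))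
        refine ca1_fc (by omega) ?_
        rw [hq₂]
        show fc 0 (q (Sum.inr ()))
        have hq0' : 0 ≤ q (Sum.inr ()) := hq0
        have hq1' : q (Sum.inr ()) ≤ 1 := hq1
        unfold fc
        omega
    have hq₂0 : sn q₂ () = 0 := by rw [hq₂]; rfl
    refine ⟨⟨hQT hcQ, q₂, hq₂T, ?_, ?_⟩, hcQ⟩
    · refine gs3_fa ?_ ?_
      · intro x
        rw [hq₂]
        exact (hst x).2.1
      · rw [hq₂0]
        exact Or.inl hc0
    · rw [(gs3_low hm hq₂T (by rw [hq₂0]; norm_num)).2.2]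
      intro x
      rw [hq₂]
      exact (hst x).2.2.2

/-- `B₁ × A^s` collapses to the thick graph over `A^s × 0` -/
theorem ga0_ex (h : Go k L ι a b F T κ j) (hm : Ms k L ι a b F T κ a₁ b₁ m ρ) (s : Cl J)
    (hs : s ∈ L) (i : ℕ) : Ex i (GaQ (Tq k L ι a b F T) (2 * m + 1) ρ (Q0 k F T κ m s))
      (Px (Bx a₁ b₁) (Fb κ (Aa k F T) s)) := by
  obtain ⟨hA, hAF, -, -⟩ := aa_cx h
  obtain ⟨hQe, hQT, hQc⟩ := q0_eq h s hs m
  have hFb : Cx (Fb κ (Aa k F T) s) := by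
    refine ⟨hA.fin.subset fun c hc => hc.1, ?_⟩
    rintro c ⟨hc, hcs⟩ d hd
    exact ⟨hA.clo c hc d hd, fa_trans (h.km.mono c (hAF hc) d hd) hcs⟩
  have hPx := cx_px (cx_bx a₁ b₁) hFb
  have hGc : Clo (GaQ (Tq k L ι a b F T) (2 * m + 1) ρ (Q0 k F T κ m s)) := by
    rintro z ⟨hz, hzQ⟩ d hd
    exact ⟨ga_clo hm.toMc z hz d hd, hQc.clo _ hzQ _ (gs3_fs hd)⟩
  have hsub : GaQ (Tq k L ι a b F T) (2 * m + 1) ρ (Q0 k F T κ m s) ⊆
      Px (Bx a₁ b₁) (Fb κ (Aa k F T) s) := by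
    rintro z ⟨hz, hzQ⟩
    refine ⟨hm.gb hz.1, ga0_A h hm hz hzQ.1, ?_⟩
    have h1 := ga_ka hm.toMc h.cx.clo h.km hz
    have h2 : kq ι κ (ca (2 * m + 1) (fs z)) = κ (ca (2 * m + 1) (fs (fs z))) := by
      unfold kq
      rw [if_neg]
      · rfl
      · have h3 : sn (ca (2 * m + 1) (fs z)) () = 0 := gs3_ca0.2 hzQ.1
        rw [h3]
        norm_num
    rw [h2] at h1
    exact fa_trans h1 hzQ.2.2
  refine ex_fib2 hGc hPx.clo hsub (hPx.fin.subset Set.sdiff_subset) fun P => ?_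
  by_cases hP : P ∈ Fb κ (Aa k F T) s
  · obtain ⟨p, hp1, hp2, hp3⟩ := ga0_sta h hm s hs P hP
    have h2 : {q | mk q P ∈ Px (Bx a₁ b₁) (Fb κ (Aa k F T) s)} = Bx a₁ b₁ := by
      ext q
      exact ⟨fun hq => hq.1, fun hq => ⟨hq, hP⟩⟩
    have h3 : {q | mk q P ∈ GaQ (Tq k L ι a b F T) (2 * m + 1) ρ (Q0 k F T κ m s)} ⊆
        Bx a₁ b₁ := fun q hq => hm.gb hq.1.1
    rw [h2]
    refine sta_ex ⟨(cx_bx a₁ b₁).fin.subset h3, ?_⟩ (cx_bx a₁ b₁) h3 ⟨_, hp2⟩ hp3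
      (sta_bx hp1) _
    intro q hq d hd
    refine hGc _ hq _ ?_
    rintro (x | x)
    · exact hd x
    · exact Or.inl rfl
  · have h1 : {q | mk q P ∈ GaQ (Tq k L ι a b F T) (2 * m + 1) ρ (Q0 k F T κ m s)} = ∅ := by
      ext q
      exact ⟨fun hq => absurd (hsub hq).2 hP, fun hq => absurd hq (Set.notMem_empty q)⟩
    have h2 : {q | mk q P ∈ Px (Bx a₁ b₁) (Fb κ (Aa k F T) s)} = ∅ := by
      ext q
      exact ⟨fun hq => absurd hq.2 hP, fun hq => absurd hq (Set.notMem_empty q)⟩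
    rw [h1, h2]
    exact Ex.refl

end MNG
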