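import Pool.Agent.MNG.M1
import Pool.Agent.MNG.T1b

/-!
# MNG-M2: the new complex: softness, connectivity, `Gd`

`fp_soft`: fibre over `S`: `{z | P ≤ S, q ∈ Bx a₁ b₁, (u = 0 or (q, P) ∈ Ga)}`; homotopy `u ↦ (1 - t) u` (`cs_hom`) to `Bx a₁ b₁ × Fc S × 0`, a box (`cs_convex` or `cs_px`). `fp_cs`: the same for `{z | kp z ≤ s}`: if `u ≠ 0` then also `κ P ≤ kp z ≤ s`; end `Bx a₁ b₁ × Fb κ F s × 0`.
-/

set_option autoImplicit false

noncomputable section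

namespace MNG

open AGM (Ei Bl Sp)
open Set Topology

variable {J V W : Type} [Fintype J] [Fintype V] [Fintype W] {k : ℕ} {L : Set (Cl J)}
  {F : Set (Cl V)} {κ : Cl V → Cl J} {Tp : Set (Cl W)} {κT : Cl W → Cl J} {r : ℕ}
  {ρ : (W → ℤ) → V → ℤ}

/-! ### boxes -/

private theorem M2_in (N : ℕ) : In N = Bx (fun _ => 0) (fun _ => (N : ℤ)) := by
  ext c
  constructor
  · rintro ⟨h1, h2⟩ j
    rw [mul_zero]
    exact ⟨h1, h2⟩
  · intro h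
    have h1 := h ()
    rw [mul_zero] at h1
    exact h1

private theorem M2_csbx {U : Type} [Fintype U] (k : ℕ) (a b : U → ℤ) (h : ∀ j, a j ≤ b j) :
    Cs k (Bo (Bx a b)) := by
  rw [Bo_bx a b h]
  have hab : ∀ j, (a j : ℝ) ≤ (b j : ℝ) := fun j => by exact_mod_cast h j
  refine cs_convex _ ?_ ⟨fun j => (a j : ℝ), fun j => ⟨le_rfl, hab j⟩⟩
  have e : {x : U → ℝ | ∀ j, (a j : ℝ) ≤ x j ∧ x j ≤ (b j : ℝ)} =
      Set.pi univ (fun j => Icc (a j : ℝ) (b j : ℝ)) := by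
    ext x
    constructor
    · intro hx j _
      exact hx j
    · intro hx j
      exact hx j (Set.mem_univ j)
  rw [e]
  exact convex_pi fun j _ => convex_Icc _ _

/-- the cell `(q, P, u)` -/
private def M2_mk (q : Cl W) (P : Cl V) (u : ℤ) : Cl (W ⊕ (V ⊕ Unit)) :=
  Sum.elim q (Sum.elim P (fun _ => u))

/-- the homotopy -/
private def M2_H (t : ℝ) (x : W ⊕ (V ⊕ Unit) → ℝ) : W ⊕ (V ⊕ Unit) → ℝ :=
  Sum.elim (fun w => x (Sum.inl w)) (Sum.elim (fun v => x (Sum.inr (Sum.inl v)))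
    (fun u => (1 - t) * x (Sum.inr (Sum.inr u))))

private theorem M2_bo {q : Cl W} {P : Cl V} {u : ℤ} {z : Cl (W ⊕ (V ⊕ Unit))}
    {x : W ⊕ (V ⊕ Unit) → ℝ} {t : ℝ} (hx : x ∈ bo z) (hq : fs z = q) (hP : fs (sn z) = P)
    (hu : |2 * ((1 - t) * x (Sum.inr (Sum.inr ()))) - (u : ℝ)| ≤ ((u % 2 : ℤ) : ℝ)) :
    M2_H t x ∈ bo (M2_mk q P u) := by
  subst hq
  subst hP
  intro j
  rcases j with w | v | o
  · exact hx (Sum.inl w)
  · exact hx (Sum.inr (Sum.inl v))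
  · exact hu

/-- the deformation of the coordinate `u` to `0` -/
private theorem M2_main {K : Set (Cl (W ⊕ (V ⊕ Unit)))} {K0 : Set (Cl V)} {a₁ b₁ : W → ℤ}
    (hab : ∀ w, a₁ w ≤ b₁ w) (k : ℕ)
    (h1 : ∀ z ∈ K, fs z ∈ Bx a₁ b₁ ∧ fs (sn z) ∈ K0 ∧ 0 ≤ sn (sn z) () ∧ sn (sn z) () ≤ 2)
    (h2 : ∀ q ∈ Bx a₁ b₁, ∀ P ∈ K0, M2_mk q P 0 ∈ K)
    (h3 : ∀ z ∈ K, sn (sn z) () ≠ 0 → M2_mk (fs z) (fs (sn z)) 1 ∈ K)
    (h0 : Cs k (Bo K0)) : Cs k (Bo K) := by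
  have hB' : Cs k (Bo (Px (Bx a₁ b₁) (Px K0 (In 0)))) := by
    refine cs_px (M2_csbx k a₁ b₁ hab) (cs_px h0 ?_)
    rw [M2_in]
    exact M2_csbx k _ _ (fun _ => le_rfl)
  have hmem : ∀ q ∈ Bx a₁ b₁, ∀ P ∈ K0, M2_mk q P 0 ∈ Px (Bx a₁ b₁) (Px K0 (In 0)) :=
    fun q hq P hP => ⟨hq, hP, le_rfl, le_rfl⟩
  have hsub : Px (Bx a₁ b₁) (Px K0 (In 0)) ⊆ K := by
    rintro z ⟨hq, hP, hu1, hu2⟩
    have hu : z (Sum.inr (Sum.inr ())) = 0 := le_antisymm hu2 hu1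
    have hz : z = M2_mk (fs z) (fs (sn z)) 0 := by
      funext j
      rcases j with w | v | o
      · rfl
      · rfl
      · exact hu
    rw [hz]
    exact h2 _ hq _ hP
  refine cs_hom (Bo K) (Bo (Px (Bx a₁ b₁) (Px K0 (In 0)))) ?_ M2_H ?_ ?_ ?_ ?_ hB'
  · rintro x ⟨c, hc, hx⟩
    exact ⟨c, hsub hc, hx⟩
  · apply Continuous.continuousOn
    refine continuous_pi fun j => ?_
    rcases j with w | v | o
    · show Continuous fun z : ℝ × (W ⊕ (V ⊕ Unit) → ℝ) => z.2 (Sum.inl w)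
      exact (continuous_apply (Sum.inl w)).comp continuous_snd
    · show Continuous fun z : ℝ × (W ⊕ (V ⊕ Unit) → ℝ) => z.2 (Sum.inr (Sum.inl v))
      exact (continuous_apply (Sum.inr (Sum.inl v))).comp continuous_snd
    · exact (continuous_const.sub continuous_fst).mul
        ((continuous_apply (Sum.inr (Sum.inr o))).comp continuous_snd)
  · intro x _
    funext j
    rcases j with w | v | o
    · rfl
    · rfl
    · show (1 - 0) * x (Sum.inr (Sum.inr o)) = x (Sum.inr (Sum.inr o))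
      rw [sub_zero, one_mul]
  · rintro x ⟨z, hz, hx⟩
    obtain ⟨hq, hP, _, _⟩ := h1 z hz
    refine ⟨M2_mk (fs z) (fs (sn z)) 0, hmem _ hq _ hP, M2_bo hx rfl rfl ?_⟩
    norm_num
  · rintro t ⟨ht0, ht1⟩ x ⟨z, hz, hx⟩
    obtain ⟨hq, hP, hu0, hu2⟩ := h1 z hz
    have hxu : |2 * x (Sum.inr (Sum.inr ())) - ((sn (sn z) () : ℤ) : ℝ)| ≤
        ((sn (sn z) () % 2 : ℤ) : ℝ) := hx (Sum.inr (Sum.inr ()))
    by_cases hu : sn (sn z) () = 0
    · rw [hu] at hxu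
      have h4 : x (Sum.inr (Sum.inr ())) = 0 := by
        have h5 : |2 * x (Sum.inr (Sum.inr ())) - ((0 : ℤ) : ℝ)| ≤ 0 := by
          refine hxu.trans (le_of_eq ?_)
          norm_num
        rw [Int.cast_zero, sub_zero] at h5
        have h6 := abs_nonpos_iff.1 h5
        linarith
      refine ⟨M2_mk (fs z) (fs (sn z)) 0, h2 _ hq _ hP, M2_bo hx rfl rfl ?_⟩
      rw [h4]
      norm_num
    · refine ⟨M2_mk (fs z) (fs (sn z)) 1, h3 z hz hu, M2_bo hx rfl rfl ?_⟩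
      have h4 : 0 ≤ x (Sum.inr (Sum.inr ())) ∧ x (Sum.inr (Sum.inr ())) ≤ 1 := by
        have h5 : sn (sn z) () = 1 ∨ sn (sn z) () = 2 := by omega
        rcases h5 with h5 | h5
        · rw [h5] at hxu
          norm_num at hxu
          rw [abs_le] at hxu
          constructor <;> linarith [hxu.1, hxu.2]
        · rw [h5] at hxu
          have h6 : |2 * x (Sum.inr (Sum.inr ())) - ((2 : ℤ) : ℝ)| ≤ 0 := by
            refine hxu.trans (le_of_eq ?_)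
            norm_num
          have h7 := abs_nonpos_iff.1 h6
          push_cast at h7
          constructor <;> linarith
      have h6 : 0 ≤ (1 - t) * x (Sum.inr (Sum.inr ())) := mul_nonneg (by linarith) h4.1
      have h7 : (1 - t) * x (Sum.inr (Sum.inr ())) ≤ 1 := by
        have h8 : (1 - t) * x (Sum.inr (Sum.inr ())) ≤ 1 * 1 :=
          mul_le_mul (by linarith) h4.2 h4.1 zero_le_one
        linarith
      norm_num
      rw [abs_le]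
      constructor <;> linarith

theorem fp_soft (h : Mc L F κ Tp κT r ρ) (hF : Cx F) (hκ : Mon F L κ) (a₁ b₁ : W → ℤ)
    (hab : ∀ w, a₁ w ≤ b₁ w) (k : ℕ) : Soft k (Fp a₁ b₁ F Tp r ρ) F (fun z => fs (sn z)) := by
  intro S hS
  refine M2_main hab k (K0 := Fc S) ?_ ?_ ?_ (cs_fc k S)
  · rintro z ⟨⟨h1, _, h3, _⟩, h5⟩
    refine ⟨h1, h5, h3.1, ?_⟩
    have h6 := h3.2
    push_cast at h6
    linarith
  · intro q hq P hP
    refine ⟨⟨hq, hF.clo S hS P hP, ?_, Or.inl rfl⟩, hP⟩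
    exact (⟨le_rfl, by norm_num⟩ : (0 : ℤ) ≤ 0 ∧ (0 : ℤ) ≤ 2 * ((1 : ℕ) : ℤ))
  · rintro z ⟨⟨h1, h2, _, h4⟩, h5⟩ hu
    refine ⟨⟨h1, h2, ?_, Or.inr (h4.resolve_left hu)⟩, h5⟩
    exact (⟨by norm_num, by norm_num⟩ : (0 : ℤ) ≤ 1 ∧ (1 : ℤ) ≤ 2 * ((1 : ℕ) : ℤ))

theorem fp_cs (h : Mc L F κ Tp κT r ρ) (hF : Cx F) (hκ : Mon F L κ) (a₁ b₁ : W → ℤ)
    (hab : ∀ w, a₁ w ≤ b₁ w) (k : ℕ) (s : Cl J) (hs : s ∈ L) (hc : Cs k (Bo (Fb κ F s))) :
    Cs k (Bo (Fb (kp κ κT r) (Fp a₁ b₁ F Tp r ρ) s)) := by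
  refine M2_main hab k (K0 := Fb κ F s) ?_ ?_ ?_ hc
  · rintro z ⟨⟨h1, h2, h3, h4⟩, h5⟩
    refine ⟨h1, ⟨h2, ?_⟩, h3.1, ?_⟩
    · by_cases hu : sn (sn z) () = 0
      · rw [kp, if_pos hu] at h5
        exact h5
      · rw [kp, if_neg hu] at h5
        exact fa_trans (ga_ka h hF.clo hκ (h4.resolve_left hu)) h5
    · have h6 := h3.2
      push_cast at h6
      linarith
  · rintro q hq P ⟨hP, hPs⟩
    refine ⟨⟨hq, hP, ?_, Or.inl rfl⟩, ?_⟩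
    · exact (⟨le_rfl, by norm_num⟩ : (0 : ℤ) ≤ 0 ∧ (0 : ℤ) ≤ 2 * ((1 : ℕ) : ℤ))
    · have h6 : kp κ κT r (M2_mk q P 0) = κ P := if_pos rfl
      rw [h6]
      exact hPs
  · rintro z ⟨⟨h1, h2, _, h4⟩, h5⟩ hu
    refine ⟨⟨h1, h2, ?_, Or.inr (h4.resolve_left hu)⟩, ?_⟩
    · exact (⟨by norm_num, by norm_num⟩ : (0 : ℤ) ≤ 1 ∧ (1 : ℤ) ≤ 2 * ((1 : ℕ) : ℤ))
    · have h6 : kp κ κT r (M2_mk (fs z) (fs (sn z)) 1) = κT (ca r (fs z)) := if_neg one_ne_zero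
      rw [kp, if_neg hu] at h5
      rw [h6]
      exact h5

theorem om_fp {ι : J → V} {a b : V → ℤ} (a₁ b₁ : W → ℤ) (s : Cl J) :
    Om (ip W ι) (ap a₁ a) (bp b₁ b) s = Px (Bx a₁ b₁) (Px (Om ι a b s) (In 1)) := by
  rw [M2_in]
  ext c
  constructor
  · rintro ⟨h1, h2⟩
    exact ⟨fun w => h1 (Sum.inl w), ⟨fun v => h1 (Sum.inr (Sum.inl v)), h2⟩,
      fun o => h1 (Sum.inr (Sum.inr o))⟩
  · rintro ⟨h1, ⟨h2, h3⟩, h4⟩
    refine ⟨fun j => ?_, h3⟩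
    rcases j with w | v | o
    · exact h1 w
    · exact h2 v
    · exact h4 o

theorem gd_fp {ι : J → V} {a b : V → ℤ} (hG : Gd k L ι a b F κ) (h : Mc L F κ Tp κT r ρ)
    (a₁ b₁ : W → ℤ) (hab : ∀ w, a₁ w ≤ b₁ w) :
    Gd k L (ip W ι) (ap a₁ a) (bp b₁ b) (Fp a₁ b₁ F Tp r ρ) (kp κ κT r) := by
  obtain ⟨hcx, hmon, _, hka⟩ := fp_cx h hG.cx hG.km a₁ b₁
  refine ⟨hG.cL, hG.dL, hcx, ?_, hmon, ?_, ?_, ?_, ?_⟩
  · rintro z ⟨h1, h2, h3, _⟩ j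
    rw [M2_in] at h3
    rcases j with w | v | o
    · exact h1 w
    · exact hG.bx h2 v
    · exact h3 o
  · intro z hz
    exact fa_trans (hG.ki _ hz.2.1) (hka z hz)
  · intro s hs
    exact fp_cs h hG.cx hG.km a₁ b₁ hab k s hs (hG.cs s hs)
  · intro j
    rcases j with w | v | o
    · exact hab w
    · exact hG.ab v
    · exact zero_le_one
  · intro s hs
    obtain ⟨a', b', hab', hO⟩ := hG.ob s hs
    refine ⟨ap a₁ a', bp b₁ b', ?_, ?_⟩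
    · intro j
      rcases j with w | v | o
      · exact hab w
      · exact hab' v
      · exact zero_le_one
    · rw [om_fp, hO, M2_in]
      ext c
      constructor
      · rintro ⟨h1, h2, h3⟩ j
        rcases j with w | v | o
        · exact h1 w
        · exact h2 v
        · exact h3 o
      · intro h1
        exact ⟨fun w => h1 (Sum.inl w), fun v => h1 (Sum.inr (Sum.inl v)),
          fun o => h1 (Sum.inr (Sum.inr o))⟩

end MNG
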