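import Pool.Agent.MNG.GS2
import Pool.Agent.MNG.GS3
import Pool.Agent.MNG.M2

/-!
# MNG-GS4: STEP (ii), (iv): thick graphs over `s`, collapse of the new box to the new `T`

`ga_s1`, `ga_s2`: the thick graphs over the fibres of the subdivision; `t2p_fb`, `t2p_clo`: the new
`T`; `step_iv`: the new box over `s` collapses to the new `T` over `s` (level `2`, then level `1`
over `A`, then pairs of levels `0`, `1`).
-/

set_option autoImplicit false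

noncomputable section

namespace MNG

open AGM (Ei Bl Sp)
open Set Topology

variable {J V : Type} [Fintype J] [Fintype V] {k j : ℕ} {L : Set (Cl J)}
  {F T : Set (Cl V)} {κ : Cl V → Cl J} {ι : J → V} {a b : V → ℤ} {a₁ b₁ : V ⊕ Unit → ℤ} {m : ℕ}
  {ρ : (V ⊕ Unit → ℤ) → V → ℤ}

/-- the cells of the subdivision of `T'` over `s` -/
def Qs {J V : Type} [Fintype V] (k : ℕ) (L : Set (Cl J)) (ι : J → V) (a b : V → ℤ)
    (F T : Set (Cl V)) (κ : Cl V → Cl J) (m : ℕ) (s : Cl J) : Set (Cl (V ⊕ Unit)) :=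
  {q | ca (2 * m + 1) q ∈ Fb (kq ι κ) (Tq k L ι a b F T) s}

/-! ### cells at a level -/

/-- the cell `x` at the level `n` -/
private def gs4L {W V : Type} (n : ℤ) (x : Cl (W ⊕ V)) : Cl (W ⊕ (V ⊕ Unit)) :=
  mk (fs x) (mk (sn x) (fun _ => n))

private theorem gs4_eta {W V : Type} (z : Cl (W ⊕ (V ⊕ Unit))) :
    gs4L (sn (sn z) ()) (mk (fs z) (fs (sn z))) = z := by
  funext x
  rcases x with x | x | x
  · rfl
  · rfl
  · cases x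
    rfl

private theorem gs4_eta2 {W V : Type} (x : Cl (W ⊕ V)) : mk (fs x) (sn x) = x := by
  funext y
  rcases y with y | y <;> rfl

private theorem gs4_back {W V : Type} (n : ℤ) (x : Cl (W ⊕ V)) :
    mk (fs (gs4L n x)) (fs (sn (gs4L n x))) = x := gs4_eta2 x

private theorem gs4_mem {W V : Type} (n : ℤ) (A : Set (Cl (W ⊕ V)))
    (z : Cl (W ⊕ (V ⊕ Unit))) :
    z ∈ gs4L n '' A ↔ sn (sn z) () = n ∧ mk (fs z) (fs (sn z)) ∈ A := by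
  constructor
  · rintro ⟨c, hc, rfl⟩
    refine ⟨rfl, ?_⟩
    rw [gs4_back]
    exact hc
  · rintro ⟨h1, h2⟩
    exact ⟨_, h2, by rw [← h1, gs4_eta]⟩

private theorem gs4_inj {W V : Type} {n m : ℤ} {c d : Cl (W ⊕ V)} (h : gs4L n c = gs4L m d) :
    n = m ∧ c = d := by
  have h1 : sn (sn (gs4L n c)) () = sn (sn (gs4L m d)) () := by rw [h]
  have h2 : mk (fs (gs4L n c)) (fs (sn (gs4L n c))) =
      mk (fs (gs4L m d)) (fs (sn (gs4L m d))) := by rw [h]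
  rw [gs4_back, gs4_back] at h2
  exact ⟨h1, h2⟩

private theorem gs4_fa {W V : Type} {n : ℤ} {c : Cl (W ⊕ V)} {d : Cl (W ⊕ (V ⊕ Unit))}
    (h : Fa d (gs4L n c)) :
    Fa (mk (fs d) (fs (sn d))) c ∧ fc (sn (sn d) ()) n := by
  refine ⟨?_, h (Sum.inr (Sum.inr ()))⟩
  rintro (x | x)
  · exact h (Sum.inl x)
  · exact h (Sum.inr (Sum.inl x))

private theorem gs4_ft {W V : Type} (n : ℤ) {r t : Cl (W ⊕ V)} (h : Ft r t) :
    Ft (gs4L n r) (gs4L n t) := by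
  obtain ⟨i, h1, h2, h3⟩ := h
  rcases i with i | i
  · refine ⟨Sum.inl i, h1, h2, fun x hx => ?_⟩
    rcases x with x | x | x
    · exact h3 (Sum.inl x) fun ha => hx (by rw [Sum.inl.inj ha])
    · exact h3 (Sum.inr x) (by simp)
    · rfl
  · refine ⟨Sum.inr (Sum.inl i), h1, h2, fun x hx => ?_⟩
    rcases x with x | x | x
    · exact h3 (Sum.inl x) (by simp)
    · exact h3 (Sum.inr x) fun ha => hx (by rw [Sum.inr.inj ha])
    · rfl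

private theorem gs4_ft2 {W V : Type} {n m : ℤ} (hm : m % 2 = 1) (hn : n = m - 1 ∨ n = m + 1)
    (c : Cl (W ⊕ V)) : Ft (gs4L n c) (gs4L m c) := by
  refine ⟨Sum.inr (Sum.inr ()), hm, hn, fun x hx => ?_⟩
  rcases x with x | x | x
  · rfl
  · rfl
  · exact absurd rfl hx

private theorem gs4_dm {W V : Type} [Fintype W] [Fintype V] (n : ℤ) (c : Cl (W ⊕ V)) :
    dm c ≤ dm (gs4L n c) := by
  unfold dm
  refine Finset.card_le_card_of_injOn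
    (fun x => Sum.elim (fun w => (Sum.inl w : W ⊕ (V ⊕ Unit)))
      (fun v => Sum.inr (Sum.inl v)) x) (fun j hj => ?_) ?_
  · simp only [Finset.coe_filter, Finset.mem_univ, true_and, Set.mem_ofPred_eq] at hj ⊢
    rcases j with j | j
    · exact hj
    · exact hj
  · intro x _ y _ hxy
    rcases x with x | x <;> rcases y with y | y
    · exact congrArg Sum.inl (Sum.inl.inj hxy)
    · exact absurd hxy (by simp)
    · exact absurd hxy (by simp)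
    · exact congrArg Sum.inr (Sum.inl.inj (Sum.inr.inj hxy))

private theorem gs4_in (z : Cl Unit) : z ∈ In 1 ↔ 0 ≤ z () ∧ z () ≤ 2 := by
  show 0 ≤ z () ∧ z () ≤ 2 * ((1 : ℕ) : ℤ) ↔ _
  norm_num

private theorem gs4_zero {u v : ℤ} (h : fc u v) (hv : v = 0) : u = 0 := by
  unfold fc at h
  omega

private theorem gs4_two {u v : ℤ} (h : fc u v) (hv : v = 2) : u = 2 := by
  unfold fc at h
  omega

private theorem gs4_one {u v : ℤ} (h : fc u v) (hv : v = 1) : u = 0 ∨ u = 1 ∨ u = 2 := by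
  unfold fc at h
  omega

/-- the facts about the fibres -/
private theorem gs4_fb (h : Go k L ι a b F T κ j) (s : Cl J) (hs : s ∈ L) :
    Clo (Fb κ (Aa k F T) s) ∧ Cx (Om ι a b s) ∧ Fb κ (Aa k F T) s ⊆ Om ι a b s := by
  obtain ⟨h1, h2, -, -⟩ := aa_cx h
  refine ⟨?_, ?_, ?_⟩
  · rintro c ⟨hc, hcs⟩ d hd
    exact ⟨h1.clo c hc d hd, fa_trans (h.km.mono c (h2 hc) d hd) hcs⟩
  · obtain ⟨a', b', -, h4⟩ := h.ob s hs
    rw [h4]
    exact cx_bx a' b'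
  · rintro c ⟨hc, hcs⟩
    exact ⟨h.bx (h2 hc), fa_trans (h.ki c (h2 hc)) hcs⟩

private theorem gs4_r (m : ℕ) : 1 ≤ 2 * m + 1 := by omega

/-- the values on the cells over `s` are in `Om` over `s` -/
private theorem gs4_val (h : Go k L ι a b F T κ j) (hm : Ms k L ι a b F T κ a₁ b₁ m ρ)
    (s : Cl J) (z : Cl ((V ⊕ Unit) ⊕ V))
    (hz : z ∈ GaQ (Tq k L ι a b F T) (2 * m + 1) ρ (Qs k L ι a b F T κ m s)) :
    sn z ∈ Om ι a b s := by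
  obtain ⟨h1, h2⟩ := hz
  have h3 : sn z ∈ F := ga_F hm.toMc h.cx.clo h1
  have h4 := ga_ka hm.toMc h.cx.clo h.km h1
  have h5 : Fa (kq ι κ (ca (2 * m + 1) (fs z))) s := h2.2
  exact ⟨h.bx h3, fa_trans (h.ki _ h3) (fa_trans h4 h5)⟩

private theorem gs4_qcx (h : Go k L ι a b F T κ j) (s : Cl J) (m : ℕ) :
    Clo (Fb (kq ι κ) (Tq k L ι a b F T) s) ∧ Cx (Qs k L ι a b F T κ m s) ∧
      Qs k L ι a b F T κ m s ⊆ Gr (2 * m + 1) (Tq k L ι a b F T) := by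
  obtain ⟨h1, h2⟩ := tq_cx h
  have h3 := cx_fb h1 h2 s
  exact ⟨h3.clo, cx_gr (gs4_r m) h3, fun q hq => hq.1⟩

theorem ga_s1 (hk : 1 ≤ k) (h : Go k L ι a b F T κ j) (hm : Ms k L ι a b F T κ a₁ b₁ m ρ)
    (s : Cl J) (hs : s ∈ L) :
    Ex (min (j + 1) k) (GaQ (Tq k L ι a b F T) (2 * m + 1) ρ (Q0 k F T κ m s))
      (GaQ (Tq k L ι a b F T) (2 * m + 1) ρ (Qs k L ι a b F T κ m s)) := by
  obtain ⟨q1, -, q3⟩ := q0_eq h s hs m
  obtain ⟨-, -, q4⟩ := gs4_qcx h s m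
  refine ga_ex hm.toMc h.cx _ _ q3.clo q4 ?_
  have hc : Clo {z : Cl (V ⊕ Unit) | sn z () = 0 ∧ fs z ∈ Fb κ (Aa k F T) s} := by
    rintro z ⟨h1, h2⟩ d hd
    exact ⟨gs4_zero (hd (Sum.inr ())) h1, (gs4_fb h s hs).1 _ h2 _ fun v => hd (Sum.inl v)⟩
  rw [q1]
  exact ex_gr (gs4_r m) hc (step_i hk h s hs)

theorem ga_s2 (h : Go k L ι a b F T κ j) (hm : Ms k L ι a b F T κ a₁ b₁ m ρ)
    (s : Cl J) (hs : s ∈ L) (i : ℕ) :
    Ex i (GaQ (Tq k L ι a b F T) (2 * m + 1) ρ (Qs k L ι a b F T κ m s))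
      (Px (Bx a₁ b₁) (Om ι a b s)) := by
  obtain ⟨q1, q2, q3⟩ := gs4_qcx h s m
  obtain ⟨a', b', hab, hO⟩ := h.ob s hs
  have hval : ∀ z ∈ GaQ (Tq k L ι a b F T) (2 * m + 1) ρ (Qs k L ι a b F T κ m s),
      sn z ∈ Bx a' b' := by
    intro z hz
    rw [← hO]
    exact gs4_val h hm s z hz
  have hb : ∀ v, a v ≤ a' v ∧ b' v ≤ b v := by
    intro v
    have h1 : (fun v => 2 * a' v) ∈ Bx a' b' := fun v => ⟨le_refl _, by
      have h5 := hab v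
      show 2 * a' v ≤ 2 * b' v
      omega⟩
    have h2 : (fun v => 2 * b' v) ∈ Bx a' b' := fun v => ⟨by
      have h5 := hab v
      show 2 * a' v ≤ 2 * b' v
      omega, le_refl _⟩
    rw [← hO] at h1 h2
    have h3 : 2 * a v ≤ 2 * a' v := (h1.1 v).1
    have h4 : 2 * b' v ≤ 2 * b v := (h2.1 v).2
    omega
  rw [hO]
  refine ga_col hm.toMc h.cx _ q2 q3 a' b' hab hval a₁ b₁ ?_
  have e1 : Ex i (Qs k L ι a b F T κ m s) (Gr (2 * m + 1) (Px (Om ι a b s) (In 2))) :=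
    ex_gr (gs4_r m) q1 (step_i2 h s hs i)
  refine ex_trans e1 ?_
  have e2 : Px (Om ι a b s) (In 2) = Bx (Sum.elim a' (fun _ => 0)) (Sum.elim b' (fun _ => 2)) := by
    rw [hO]
    ext c
    constructor
    · rintro ⟨h1, h2, h3⟩ x
      rcases x with x | x
      · exact h1 x
      · exact ⟨h2, h3⟩
    · intro h1
      exact ⟨fun x => h1 (Sum.inl x), (h1 (Sum.inr ())).1, (h1 (Sum.inr ())).2⟩
  rw [e2, gr_bx (gs4_r m)]
  refine bx_ex (fun w => ?_) i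
  have hr : (((2 * m + 1 : ℕ) : ℤ)) = 2 * (m : ℤ) + 1 := by push_cast; ring
  rcases w with w | w
  · have h1 := hm.ob1 w
    have h2 := hb w
    have h3 := hab w
    have h0 : (0 : ℤ) ≤ 2 * (m : ℤ) + 1 := by omega
    show a₁ (Sum.inl w) ≤ ((2 * m + 1 : ℕ) : ℤ) * a' w ∧
      ((2 * m + 1 : ℕ) : ℤ) * a' w ≤ ((2 * m + 1 : ℕ) : ℤ) * b' w ∧
      ((2 * m + 1 : ℕ) : ℤ) * b' w ≤ b₁ (Sum.inl w)
    rw [hr]
    exact ⟨h1.1.trans (mul_le_mul_of_nonneg_left h2.1 h0), mul_le_mul_of_nonneg_left h3 h0,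
      (mul_le_mul_of_nonneg_left h2.2 h0).trans h1.2⟩
  · have h1 := hm.ob2
    show a₁ (Sum.inr w) ≤ ((2 * m + 1 : ℕ) : ℤ) * 0 ∧
      ((2 * m + 1 : ℕ) : ℤ) * 0 ≤ ((2 * m + 1 : ℕ) : ℤ) * 2 ∧
      ((2 * m + 1 : ℕ) : ℤ) * 2 ≤ b₁ (Sum.inr w)
    rw [hr]
    cases w
    refine ⟨?_, ?_, ?_⟩
    · rw [mul_zero]
      exact h1.1
    · omega
    · exact h1.2

theorem t2p_fb (h : Go k L ι a b F T κ j) (hm : Ms k L ι a b F T κ a₁ b₁ m ρ) (s : Cl J)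
    (hs : s ∈ L) (z : Cl ((V ⊕ Unit) ⊕ (V ⊕ Unit))) :
    z ∈ Fb (kp κ (kq ι κ) (2 * m + 1)) (T2p k L ι a b F T a₁ b₁ (2 * m + 1) ρ) s ↔
      (sn (sn z) () = 0 ∧ fs z ∈ Bx a₁ b₁ ∧ fs (sn z) ∈ Fb κ (Aa k F T) s) ∨
      (sn (sn z) () = 1 ∧ mk (fs z) (fs (sn z)) ∈
        GaQ (Tq k L ι a b F T) (2 * m + 1) ρ (Q0 k F T κ m s)) ∨
      (sn (sn z) () = 2 ∧ mk (fs z) (fs (sn z)) ∈
        GaQ (Tq k L ι a b F T) (2 * m + 1) ρ (Qs k L ι a b F T κ m s)) := by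
  have hT : ∀ q : Cl (V ⊕ Unit), q ∈ Gr (2 * m + 1) (Tq k L ι a b F T) → sn q () = 0 →
      ca (2 * m + 1) (fs q) ∈ Aa k F T ∧
        kq ι κ (ca (2 * m + 1) q) = κ (ca (2 * m + 1) (fs q)) := by
    intro q hq h0
    have h1 : sn (ca (2 * m + 1) q) () = 0 := by
      show ca1 (2 * m + 1) (sn q ()) = 0
      rw [h0]
      unfold ca1
      rw [if_pos (dvd_zero _)]
      exact Int.zero_ediv _
    have hne : sn (ca (2 * m + 1) q) () ≠ 4 := by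
      rw [h1]
      norm_num
    have hq' : ca (2 * m + 1) q ∈ Tq k L ι a b F T := hq
    refine ⟨?_, ?_⟩
    · rcases hq' with ⟨h2, -⟩ | ⟨-, h2⟩
      · exact absurd h2 hne
      · exact h2
    · unfold kq
      rw [if_neg hne]
      rfl
  constructor
  · rintro ⟨⟨h1, h2⟩, h3⟩
    unfold kp at h3
    rcases h2 with ⟨h2, h4⟩ | ⟨h2, h4⟩ | ⟨h2, h5, h4⟩
    · rw [if_pos h2] at h3
      exact Or.inl ⟨h2, h1, h4, h3⟩
    · have hne : ¬ sn (sn z) () = 0 := by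
        rw [h2]
        norm_num
      rw [if_neg hne] at h3
      exact Or.inr (Or.inr ⟨h2, h4, h4.1, h3⟩)
    · have hne : ¬ sn (sn z) () = 0 := by
        rw [h2]
        norm_num
      rw [if_neg hne] at h3
      obtain ⟨h6, h7⟩ := hT (fs z) h4.1 h5
      rw [h7] at h3
      exact Or.inr (Or.inl ⟨h2, h4, h5, h6, h3⟩)
  · rintro (⟨h2, h1, h4, h3⟩ | ⟨h2, h4, h5, h6, h3⟩ | ⟨h2, h4, h5, h3⟩)
    · refine ⟨⟨h1, Or.inl ⟨h2, h4⟩⟩, ?_⟩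
      unfold kp
      rw [if_pos h2]
      exact h3
    · have h5' : sn (fs z) () = 0 := h5
      have h3' : Fa (κ (ca (2 * m + 1) (fs (fs z)))) s := h3
      refine ⟨⟨hm.gb h4.1, Or.inr (Or.inr ⟨h2, h5', h4⟩)⟩, ?_⟩
      have hne : ¬ sn (sn z) () = 0 := by
        rw [h2]
        norm_num
      unfold kp
      rw [if_neg hne, (hT (fs z) h4.1 h5').2]
      exact h3'
    · have h3' : Fa (kq ι κ (ca (2 * m + 1) (fs z))) s := h3
      refine ⟨⟨hm.gb h4.1, Or.inr (Or.inl ⟨h2, h4⟩)⟩, ?_⟩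
      have hne : ¬ sn (sn z) () = 0 := by
        rw [h2]
        norm_num
      unfold kp
      rw [if_neg hne]
      exact h3'

theorem t2p_clo (h : Go k L ι a b F T κ j) (hm : Ms k L ι a b F T κ a₁ b₁ m ρ) :
    Clo (T2p k L ι a b F T a₁ b₁ (2 * m + 1) ρ) ∧
      T2p k L ι a b F T a₁ b₁ (2 * m + 1) ρ ⊆
        Fp a₁ b₁ F (Tq k L ι a b F T) (2 * m + 1) ρ := by
  obtain ⟨hA, hAF, -, -⟩ := aa_cx h
  have hg := ga_clo hm.toMc
  have hmk : ∀ z d : Cl ((V ⊕ Unit) ⊕ (V ⊕ Unit)), Fa d z →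
      Fa (mk (fs d) (fs (sn d))) (mk (fs z) (fs (sn z))) := by
    intro z d hd
    rintro (x | x)
    · exact hd (Sum.inl x)
    · exact hd (Sum.inr (Sum.inl x))
  constructor
  · rintro z ⟨h1, h2⟩ d hd
    have hu : fc (sn (sn d) ()) (sn (sn z) ()) := hd (Sum.inr (Sum.inr ()))
    refine ⟨(cx_bx a₁ b₁).clo _ h1 _ fun x => hd (Sum.inl x), ?_⟩
    rcases h2 with ⟨h2, h4⟩ | ⟨h2, h4⟩ | ⟨h2, h5, h4⟩
    · exact Or.inl ⟨gs4_zero hu h2, hA.clo _ h4 _ fun x => hd (Sum.inr (Sum.inl x))⟩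
    · exact Or.inr (Or.inl ⟨gs4_two hu h2, hg _ h4 _ (hmk z d hd)⟩)
    · have h6 : sn (fs d) () = 0 := gs4_zero (hd (Sum.inl (Sum.inr ()))) h5
      have h7 := hg _ h4 _ (hmk z d hd)
      rcases gs4_one hu h2 with h8 | h8 | h8
      · exact Or.inl ⟨h8, ga0_A h hm h7 h6⟩
      · exact Or.inr (Or.inr ⟨h8, h6, h7⟩)
      · exact Or.inr (Or.inl ⟨h8, h7⟩)
  · rintro z ⟨h1, h2⟩
    rcases h2 with ⟨h2, h4⟩ | ⟨h2, h4⟩ | ⟨h2, h5, h4⟩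
    · refine ⟨h1, hAF h4, ?_, Or.inl h2⟩
      rw [gs4_in, h2]
      norm_num
    · refine ⟨h1, ga_F hm.toMc h.cx.clo h4, ?_, Or.inr h4⟩
      rw [gs4_in, h2]
      norm_num
    · refine ⟨h1, ga_F hm.toMc h.cx.clo h4, ?_, Or.inr h4⟩
      rw [gs4_in, h2]
      norm_num

theorem step_iv (h : Go k L ι a b F T κ j) (hm : Ms k L ι a b F T κ a₁ b₁ m ρ) (s : Cl J)
    (hs : s ∈ L) (i : ℕ) :
    Ex i (Fb (kp κ (kq ι κ) (2 * m + 1)) (T2p k L ι a b F T a₁ b₁ (2 * m + 1) ρ) s)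
      (Om (ip (V ⊕ Unit) ι) (ap a₁ a) (bp b₁ b) s) := by
  obtain ⟨hA, hO, hAO⟩ := gs4_fb h s hs
  have hmfb := t2p_fb h hm s hs
  have e1 := ga_s2 h hm s hs i
  have e2 := ga0_ex h hm s hs i
  have hc0 : Clo (Fb (kp κ (kq ι κ) (2 * m + 1)) (T2p k L ι a b F T a₁ b₁ (2 * m + 1) ρ) s) := by
    obtain ⟨h1, h2⟩ := t2p_clo h hm
    have h3 := (fp_cx hm.toMc h.cx h.km a₁ b₁).2.1
    rintro c ⟨hc, hcs⟩ d hd
    exact ⟨h1 c hc d hd, fa_trans (h3.mono c (h2 hc) d hd) hcs⟩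
  have hcQs : Clo (GaQ (Tq k L ι a b F T) (2 * m + 1) ρ (Qs k L ι a b F T κ m s)) := by
    rintro z ⟨hz, hzK⟩ d hd
    exact ⟨ga_clo hm.toMc z hz d hd, (gs4_qcx h s m).2.1.clo _ hzK _ fun x => hd (Sum.inl x)⟩
  have hcQ0 : Clo (GaQ (Tq k L ι a b F T) (2 * m + 1) ρ (Q0 k F T κ m s)) := by
    rintro z ⟨hz, hzK⟩ d hd
    exact ⟨ga_clo hm.toMc z hz d hd,
      (q0_eq h s hs m).2.2.clo _ hzK _ fun x => hd (Sum.inl x)⟩
  rw [om_fp]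
  obtain ⟨N, hN⟩ : ∃ N, N = Fb (kp κ (kq ι κ) (2 * m + 1))
    (T2p k L ι a b F T a₁ b₁ (2 * m + 1) ρ) s := ⟨_, rfl⟩
  rw [← hN] at hmfb hc0 ⊢
  obtain ⟨A, hAdef⟩ : ∃ A, A = Fb κ (Aa k F T) s := ⟨_, rfl⟩
  obtain ⟨O, hOdef⟩ : ∃ O, O = Om ι a b s := ⟨_, rfl⟩
  obtain ⟨G, hG⟩ : ∃ G, G = GaQ (Tq k L ι a b F T) (2 * m + 1) ρ (Qs k L ι a b F T κ m s) :=
    ⟨_, rfl⟩
  obtain ⟨G0, hG0⟩ : ∃ G0, G0 = GaQ (Tq k L ι a b F T) (2 * m + 1) ρ (Q0 k F T κ m s) :=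
    ⟨_, rfl⟩
  rw [← hG, ← hG0, ← hAdef] at hmfb
  rw [← hG] at hcQs
  rw [← hG0] at hcQ0
  rw [← hG, ← hOdef] at e1
  rw [← hG0, ← hAdef] at e2
  rw [← hAdef, ← hOdef] at hAO
  rw [← hAdef] at hA
  rw [← hOdef] at hO ⊢
  have hB := cx_bx a₁ b₁
  have hPO : Clo (Px (Bx a₁ b₁) O) := (cx_px hB hO).clo
  have hPA : Clo (Px (Bx a₁ b₁) A) := by
    rintro z ⟨h1, h2⟩ d hd
    exact ⟨hB.clo _ h1 _ fun x => hd (Sum.inl x), hA _ h2 _ fun x => hd (Sum.inr x)⟩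
  have hGO : G ⊆ Px (Bx a₁ b₁) O := (ex_clo e1 hcQs).2
  have hG0A : G0 ⊆ Px (Bx a₁ b₁) A := (ex_clo e2 hcQ0).2
  -- level 2
  have s1 : Ex i N (N ∪ gs4L 2 '' Px (Bx a₁ b₁) O) := by
    refine ex_map e1 hcQs (gs4L 2) N hc0 (fun c _ d _ hcd => (gs4_inj hcd).2) ?_
      (fun r _ t _ hrt => gs4_ft 2 hrt) (fun c _ hc => hc.trans (gs4_dm 2 c)) ?_ ?_
    · intro c _ d hd
      obtain ⟨h2, h3⟩ := gs4_fa hd
      refine Or.inr ⟨_, h2, ?_⟩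
      rw [← gs4_two h3 rfl, gs4_eta]
    · intro c hc
      rw [hmfb]
      refine Or.inr (Or.inr ⟨rfl, ?_⟩)
      rw [gs4_back]
      exact hc
    · intro c _ hc
      rw [hmfb]
      rintro (⟨h1, -⟩ | ⟨h1, -⟩ | ⟨-, h1⟩)
      · have h1 : (2 : ℤ) = 0 := h1
        omega
      · have h1 : (2 : ℤ) = 1 := h1
        omega
      · rw [gs4_back] at h1
        exact hc h1
  have c1 := (ex_clo s1 hc0).1
  obtain ⟨N1, hN1⟩ : ∃ N1, N1 = N ∪ gs4L 2 '' Px (Bx a₁ b₁) O := ⟨_, rfl⟩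
  rw [← hN1] at s1 c1
  have m1 : ∀ z, z ∈ N1 ↔ (sn (sn z) () = 0 ∧ mk (fs z) (fs (sn z)) ∈ Px (Bx a₁ b₁) A) ∨
      (sn (sn z) () = 1 ∧ mk (fs z) (fs (sn z)) ∈ G0) ∨
      (sn (sn z) () = 2 ∧ mk (fs z) (fs (sn z)) ∈ Px (Bx a₁ b₁) O) := by
    intro z
    rw [hN1, mem_union, gs4_mem, hmfb]
    constructor
    · rintro ((⟨h1, h2, h3⟩ | h1 | ⟨h1, h2⟩) | h1)
      · exact Or.inl ⟨h1, h2, h3⟩
      · exact Or.inr (Or.inl h1)
      · exact Or.inr (Or.inr ⟨h1, hGO h2⟩)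
      · exact Or.inr (Or.inr h1)
    · rintro (⟨h1, h2, h3⟩ | h1 | h1)
      · exact Or.inl (Or.inl ⟨h1, h2, h3⟩)
      · exact Or.inl (Or.inr (Or.inl h1))
      · exact Or.inr h1
  have hPAO : Px (Bx a₁ b₁) A ⊆ Px (Bx a₁ b₁) O := fun z hz => ⟨hz.1, hAO hz.2⟩
  -- level 1 over `A`
  have s2 : Ex i N1 (N1 ∪ gs4L 1 '' Px (Bx a₁ b₁) A) := by
    refine ex_map e2 hcQ0 (gs4L 1) N1 c1 (fun c _ d _ hcd => (gs4_inj hcd).2) ?_
      (fun r _ t _ hrt => gs4_ft 1 hrt) (fun c _ hc => hc.trans (gs4_dm 1 c)) ?_ ?_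
    · intro c hc d hd
      obtain ⟨h2, h3⟩ := gs4_fa hd
      have h4 := hPA c hc _ h2
      rcases gs4_one h3 rfl with h5 | h5 | h5
      · left
        rw [m1]
        exact Or.inl ⟨h5, h4⟩
      · refine Or.inr ⟨_, h2, ?_⟩
        rw [← h5, gs4_eta]
      · left
        rw [m1]
        exact Or.inr (Or.inr ⟨h5, hPAO h4⟩)
    · intro c hc
      rw [m1]
      refine Or.inr (Or.inl ⟨rfl, ?_⟩)
      rw [gs4_back]
      exact hc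
    · intro c _ hc
      rw [m1]
      rintro (⟨h1, -⟩ | ⟨-, h1⟩ | ⟨h1, -⟩)
      · have h1 : (1 : ℤ) = 0 := h1
        omega
      · rw [gs4_back] at h1
        exact hc h1
      · have h1 : (1 : ℤ) = 2 := h1
        omega
  have c2 := (ex_clo s2 c1).1
  obtain ⟨N2, hN2⟩ : ∃ N2, N2 = N1 ∪ gs4L 1 '' Px (Bx a₁ b₁) A := ⟨_, rfl⟩
  rw [← hN2] at s2 c2
  have m2 : ∀ z, z ∈ N2 ↔ ((sn (sn z) () = 0 ∨ sn (sn z) () = 1) ∧
      mk (fs z) (fs (sn z)) ∈ Px (Bx a₁ b₁) A) ∨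
      (sn (sn z) () = 2 ∧ mk (fs z) (fs (sn z)) ∈ Px (Bx a₁ b₁) O) := by
    intro z
    rw [hN2, mem_union, gs4_mem, m1]
    constructor
    · rintro ((⟨h1, h2⟩ | ⟨h1, h2⟩ | h1) | ⟨h1, h2⟩)
      · exact Or.inl ⟨Or.inl h1, h2⟩
      · exact Or.inl ⟨Or.inr h1, hG0A h2⟩
      · exact Or.inr h1
      · exact Or.inl ⟨Or.inr h1, h2⟩
    · rintro (⟨h1 | h1, h2⟩ | h1)
      · exact Or.inl (Or.inl ⟨h1, h2⟩)
      · exact Or.inr ⟨h1, h2⟩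
      · exact Or.inl (Or.inr (Or.inr h1))
  -- pairs of levels 0 and 1
  have s3 : Ex i N2 (N2 ∪ gs4L 0 '' Px (Bx a₁ b₁) O ∪ gs4L 1 '' Px (Bx a₁ b₁) O) := by
    refine ex_pairs hPA hPO hPAO ((cx_px hB hO).fin.subset Set.sdiff_subset) (gs4L 0) (gs4L 1)
      N2 c2 (fun c _ d _ hcd => (gs4_inj hcd).2) (fun c _ d _ hcd => (gs4_inj hcd).2) ?_ ?_ ?_
      (fun c _ => gs4_ft2 (by norm_num) (Or.inl (by norm_num)) c) ?_ ?_
    · intro c _ d _ hcd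
      have h2 := (gs4_inj hcd).1
      omega
    · intro c _ d hd
      obtain ⟨h2, h3⟩ := gs4_fa hd
      refine Or.inr ⟨_, h2, ?_⟩
      rw [← gs4_zero h3 rfl, gs4_eta]
    · intro c hc d hd
      obtain ⟨h2, h3⟩ := gs4_fa hd
      rcases gs4_one h3 rfl with h5 | h5 | h5
      · refine Or.inr ⟨_, h2, Or.inl ?_⟩
        rw [← h5, gs4_eta]
      · refine Or.inr ⟨_, h2, Or.inr ?_⟩
        rw [← h5, gs4_eta]
      · left
        rw [m2]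
        exact Or.inr ⟨h5, hPO c hc _ h2⟩
    · intro c hc
      rw [m2, m2]
      constructor
      · refine Or.inl ⟨Or.inl rfl, ?_⟩
        rw [gs4_back]
        exact hc
      · refine Or.inl ⟨Or.inr rfl, ?_⟩
        rw [gs4_back]
        exact hc
    · intro c _ hc
      rw [m2, m2, gs4_back, gs4_back]
      constructor
      · rintro (⟨-, h1⟩ | ⟨h1, -⟩)
        · exact hc h1
        · have h1 : (0 : ℤ) = 2 := h1
          omega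
      · rintro (⟨-, h1⟩ | ⟨h1, -⟩)
        · exact hc h1
        · have h1 : (1 : ℤ) = 2 := h1
          omega
  have hfin : N2 ∪ gs4L 0 '' Px (Bx a₁ b₁) O ∪ gs4L 1 '' Px (Bx a₁ b₁) O =
      Px (Bx a₁ b₁) (Px O (In 1)) := by
    ext z
    rw [mem_union, mem_union, gs4_mem, gs4_mem, m2]
    have h0 : z ∈ Px (Bx a₁ b₁) (Px O (In 1)) ↔
        mk (fs z) (fs (sn z)) ∈ Px (Bx a₁ b₁) O ∧ (0 ≤ sn (sn z) () ∧ sn (sn z) () ≤ 2) := by
      rw [← gs4_in]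
      exact and_assoc.symm
    rw [h0]
    constructor
    · rintro (((⟨h1, h2⟩ | ⟨h1, h2⟩) | ⟨h1, h2⟩) | ⟨h1, h2⟩)
      · exact ⟨hPAO h2, by omega⟩
      · exact ⟨h2, by omega⟩
      · exact ⟨h2, by omega⟩
      · exact ⟨h2, by omega⟩
    · rintro ⟨h1, h2⟩
      have h3 : sn (sn z) () = 0 ∨ sn (sn z) () = 1 ∨ sn (sn z) () = 2 := by omega
      rcases h3 with h3 | h3 | h3
      · exact Or.inl (Or.inr ⟨h3, h1⟩)
      · exact Or.inr ⟨h3, h1⟩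
      · exact Or.inl (Or.inl (Or.inr ⟨h3, h1⟩))
  rw [hfin] at s3
  exact ex_trans s1 (ex_trans s2 s3)

end MNG
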