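import Pool.Agent.MNG.GS1
import Pool.Agent.MNG.GS4

/-!
# MNG-GS5: STEP (iii) and the theorem

`step_iii`: `Fb kp F' s = {u = 0, q ∈ Bx, P ∈ F^s} ∪ {u = 1, 2, (q, P) ∈ Ga over Qs s}`. From `Fb kp T2p s` (`t2p_fb`): (1) the cells `(q, P, 0)`, `q ∈ Bx`, `P ∈ F^s \ A^s` have dimension `≥ k`: `ex_cells`. (2) `(q, P, 1)`, `(q, P) ∈ Ga over Qs s`: `ex_map` with `E x = mk (fs x) (mk (sn x) 1)` from `ga_s1` (dimension `+ 1`: `min (j + 1) k + 1 ≥ min (j + 2) k`).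
`step`: `step_ms`, then `F' = Fp ..`, `T' = T2p ..`, `gd_fp`, `fp_cx`, `fp_soft`, `t2p_clo`, `step_iv`, `step_iii`.
-/

set_option autoImplicit false

noncomputable section

namespace MNG

open AGM (Ei Bl Sp)
open Set Topology

variable {J V : Type} [Fintype J] [Fintype V] {k j : ℕ} {L : Set (Cl J)}
  {F T : Set (Cl V)} {κ : Cl V → Cl J} {ι : J → V} {a b : V → ℤ} {a₁ b₁ : V ⊕ Unit → ℤ} {m : ℕ}
  {ρ : (V ⊕ Unit → ℤ) → V → ℤ}

private theorem GS5_dm {A B : Type} [Fintype A] [Fintype B] (c : Cl (A ⊕ B)) :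
    dm c = dm (fs c) + dm (sn c) := by
  unfold dm
  rw [Finset.card_filter, Finset.card_filter, Finset.card_filter, Fintype.sum_sum_type]
  rfl

private theorem GS5_fs {A B : Type} {c d : Cl (A ⊕ B)} (h : Fa d c) : Fa (fs d) (fs c) :=
  fun j => h (Sum.inl j)

private theorem GS5_sn {A B : Type} {c d : Cl (A ⊕ B)} (h : Fa d c) : Fa (sn d) (sn c) :=
  fun j => h (Sum.inr j)

private theorem GS5_mk {A B : Type} {a c : Cl A} {b d : Cl B} (h : Fa a c) (h' : Fa b d) :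
    Fa (mk a b) (mk c d) := by
  rintro (j | j)
  · exact h j
  · exact h' j

private theorem GS5_gaq {V W : Type} [Fintype V] [Fintype W] {J : Type} [Fintype J]
    {L : Set (Cl J)} {F : Set (Cl V)} {κ : Cl V → Cl J} {Tp : Set (Cl W)} {κT : Cl W → Cl J}
    {r : ℕ} {ρ : (W → ℤ) → V → ℤ} (h : Mc L F κ Tp κT r ρ) {Q : Set (Cl W)} (hQ : Clo Q) :
    Clo (GaQ Tp r ρ Q) := by
  rintro z ⟨h1, h2⟩ d hd
  exact ⟨ga_clo h z h1 d hd, hQ _ h2 _ (GS5_fs hd)⟩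

/-- the cells `(q, P, 1)` -/
private def GS5_E {V W : Type} (x : Cl (W ⊕ V)) : Cl (W ⊕ (V ⊕ Unit)) :=
  mk (fs x) (mk (sn x) (fun _ => 1))

private theorem GS5_inj {V W : Type} {x y : Cl (W ⊕ V)} (h : GS5_E x = GS5_E y) : x = y := by
  funext j
  rcases j with j | j
  · exact congrFun h (Sum.inl j)
  · exact congrFun h (Sum.inr (Sum.inl j))

private theorem GS5_eta {V W : Type} {z : Cl (W ⊕ (V ⊕ Unit))} (h : sn (sn z) () = 1) :
    z = GS5_E (mk (fs z) (fs (sn z))) := by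
  funext j
  rcases j with j | j | j
  · rfl
  · rfl
  · exact h

private theorem GS5_ft {V W : Type} {x y : Cl (W ⊕ V)} (h : Ft x y) : Ft (GS5_E x) (GS5_E y) := by
  obtain ⟨i, h1, h2, h3⟩ := h
  rcases i with i | i
  · refine ⟨Sum.inl i, h1, h2, ?_⟩
    rintro (j | j | j) hj
    · exact h3 (Sum.inl j) (fun e => hj (by rw [Sum.inl.inj e]))
    · exact h3 (Sum.inr j) (fun e => by cases e)
    · rfl
  · refine ⟨Sum.inr (Sum.inl i), h1, h2, ?_⟩
    rintro (j | j | j) hj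
    · exact h3 (Sum.inl j) (fun e => by cases e)
    · exact h3 (Sum.inr j) (fun e => hj (by rw [Sum.inr.inj e]))
    · rfl

private theorem GS5_dmE {V W : Type} [Fintype V] [Fintype W] (x : Cl (W ⊕ V)) :
    dm (GS5_E x) = dm x + 1 := by
  rw [GS5_dm (GS5_E x), GS5_dm (sn (GS5_E x)), GS5_dm x]
  have e1 : fs (GS5_E x) = fs x := rfl
  have e2 : fs (sn (GS5_E x)) = sn x := rfl
  have e3 : dm (sn (sn (GS5_E x))) = 1 := by
    unfold dm
    rw [Finset.filter_true_of_mem]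
    · rfl
    · intro j _
      rfl
  rw [e1, e2, e3]
  omega

theorem step_iii (hk : 1 ≤ k) (h : Go k L ι a b F T κ j)
    (hm : Ms k L ι a b F T κ a₁ b₁ m ρ) (s : Cl J) (hs : s ∈ L) :
    Ex (min (j + 2) k)
      (Fb (kp κ (kq ι κ) (2 * m + 1)) (T2p k L ι a b F T a₁ b₁ (2 * m + 1) ρ) s)
      (Fb (kp κ (kq ι κ) (2 * m + 1)) (Fp a₁ b₁ F (Tq k L ι a b F T) (2 * m + 1) ρ) s) := by
  have hMc := hm.toMc
  obtain ⟨hFcx, hFmon, -, -⟩ := fp_cx hMc h.cx h.km a₁ b₁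
  obtain ⟨hTclo, hTsub⟩ := t2p_clo h hm
  have hTcx : Cx (T2p k L ι a b F T a₁ b₁ (2 * m + 1) ρ) := ⟨hFcx.fin.subset hTsub, hTclo⟩
  have hTmon : Mon (T2p k L ι a b F T a₁ b₁ (2 * m + 1) ρ) L (kp κ (kq ι κ) (2 * m + 1)) :=
    ⟨fun c hc => hFmon.map c (hTsub hc), fun c hc => hFmon.mono c (hTsub hc)⟩
  have hA0 := cx_fb hTcx hTmon s
  have hA2 := cx_fb hFcx hFmon s
  have hQ0 := (q0_eq h s hs m).2.2
  have hQs : Clo (Qs k L ι a b F T κ m s) := by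
    intro q hq d hd
    exact (cx_fb (tq_cx h).1 (tq_cx h).2 s).clo _ hq _ (ca_fa hMc.hr hd)
  have hFb := cx_fb h.cx h.km s
  have hG0 := GS5_gaq hMc hQ0.clo
  have hGs := GS5_gaq hMc hQs
  -- the description of the target
  have hmem : ∀ z : Cl ((V ⊕ Unit) ⊕ (V ⊕ Unit)),
      z ∈ Fb (kp κ (kq ι κ) (2 * m + 1)) (Fp a₁ b₁ F (Tq k L ι a b F T) (2 * m + 1) ρ) s ↔
      (sn (sn z) () = 0 ∧ fs z ∈ Bx a₁ b₁ ∧ fs (sn z) ∈ Fb κ F s) ∨
      ((sn (sn z) () = 1 ∨ sn (sn z) () = 2) ∧ mk (fs z) (fs (sn z)) ∈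
        GaQ (Tq k L ι a b F T) (2 * m + 1) ρ (Qs k L ι a b F T κ m s)) := by
    intro z
    constructor
    · rintro ⟨⟨h1, h2, h3, h4⟩, h5⟩
      by_cases hu : sn (sn z) () = 0
      · rw [kp, if_pos hu] at h5
        exact Or.inl ⟨hu, h1, h2, h5⟩
      · rw [kp, if_neg hu] at h5
        have h6 := h4.resolve_left hu
        have h7 := h3.1
        have h8 := h3.2
        push_cast at h8
        exact Or.inr ⟨by omega, h6, h6.1, h5⟩
    · rintro (⟨hu, h1, h2, h3⟩ | ⟨hu, h1, h2, h3⟩)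
      · refine ⟨⟨h1, h2, ?_, Or.inl hu⟩, ?_⟩
        · show 0 ≤ sn (sn z) () ∧ sn (sn z) () ≤ 2 * ((1 : ℕ) : ℤ)
          rw [hu]
          norm_num
        · rw [kp, if_pos hu]
          exact h3
      · have hu0 : sn (sn z) () ≠ 0 := by omega
        refine ⟨⟨hm.gb h1.1, ga_F hMc h.cx.clo h1, ?_, Or.inr h1⟩, ?_⟩
        · show 0 ≤ sn (sn z) () ∧ sn (sn z) () ≤ 2 * ((1 : ℕ) : ℤ)
          push_cast
          omega
        · rw [kp, if_neg hu0]
          exact h3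
  -- the intermediate complex
  set A0 := Fb (kp κ (kq ι κ) (2 * m + 1)) (T2p k L ι a b F T a₁ b₁ (2 * m + 1) ρ) s with hA0d
  set A2 := Fb (kp κ (kq ι κ) (2 * m + 1)) (Fp a₁ b₁ F (Tq k L ι a b F T) (2 * m + 1) ρ) s
    with hA2d
  set B : Set (Cl ((V ⊕ Unit) ⊕ (V ⊕ Unit))) :=
    {z | sn (sn z) () = 0 ∧ fs z ∈ Bx a₁ b₁ ∧ fs (sn z) ∈ Fb κ F s} with hB
  have hBclo : Clo B := by
    rintro z ⟨h1, h2, h3⟩ d hd
    refine ⟨?_, (cx_bx a₁ b₁).clo _ h2 _ (GS5_fs hd), hFb.clo _ h3 _ (GS5_fs (GS5_sn hd))⟩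
    have h4 : fc (sn (sn d) ()) (sn (sn z) ()) := hd (Sum.inr (Sum.inr ()))
    unfold fc at h4
    omega
  have hA1clo : Clo (A0 ∪ B) := by
    rintro z (hz | hz) d hd
    · exact Or.inl (hA0.clo z hz d hd)
    · exact Or.inr (hBclo z hz d hd)
  have hA0A2 : A0 ⊆ A2 := fun z hz => ⟨hTsub hz.1, hz.2⟩
  have hBA2 : B ⊆ A2 := fun z hz => (hmem z).2 (Or.inl hz)
  have e1 : Ex (min (j + 2) k) A0 (A0 ∪ B) := by
    refine ex_cells hA0.clo hA1clo subset_union_left ?_ ?_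
    · refine hA2.fin.subset ?_
      rintro z ⟨hz | hz, -⟩
      · exact hA0A2 hz
      · exact hBA2 hz
    · rintro z hz hz0
      obtain ⟨hu, hq, hP⟩ := hz.resolve_left hz0
      have h1 : fs (sn z) ∉ Aa k F T := by
        intro h2
        exact hz0 ((t2p_fb h hm s hs z).2 (Or.inl ⟨hu, hq, h2, hP.2⟩))
      have h2 : ¬ dm (fs (sn z)) ≤ k - 1 := fun h3 => h1 (Or.inr ⟨hP.1, h3⟩)
      have h3 := GS5_dm z
      have h4 := GS5_dm (sn z)
      have h5 : min (j + 2) k ≤ k := min_le_right _ _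
      omega
  have e2 : Ex (min (j + 2) k) (A0 ∪ B) (A0 ∪ B ∪ GS5_E ''
      GaQ (Tq k L ι a b F T) (2 * m + 1) ρ (Qs k L ι a b F T κ m s)) := by
    refine ex_map (ga_s1 hk h hm s hs) hG0 GS5_E (A0 ∪ B) hA1clo
      (fun x _ y _ hxy => GS5_inj hxy) ?_ (fun x _ y _ hxy => GS5_ft hxy) ?_ ?_ ?_
    · intro x hx d hd
      have hqd : Fa (fs d) (fs x) := GS5_fs hd
      have hPd : Fa (fs (sn d)) (sn x) := GS5_fs (GS5_sn hd)
      have hmkd : Fa (mk (fs d) (fs (sn d))) x := by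
        rintro (i | i)
        · exact hqd i
        · exact hPd i
      have hu : fc (sn (sn d) ()) 1 := hd (Sum.inr (Sum.inr ()))
      have hu' : sn (sn d) () = 0 ∨ sn (sn d) () = 1 ∨ sn (sn d) () = 2 := by
        unfold fc at hu
        omega
      rcases hu' with hu' | hu' | hu'
      · refine Or.inl (Or.inr ⟨hu', hm.gb (ga_clo hMc _ hx.1 _ hmkd).1, ?_⟩)
        refine hFb.clo (sn x) ⟨ga_F hMc h.cx.clo hx.1, ?_⟩ _ hPd
        exact fa_trans (ga_ka hMc h.cx.clo h.km hx.1) hx.2.2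
      · exact Or.inr ⟨_, hmkd, GS5_eta hu'⟩
      · refine Or.inl (Or.inl ((t2p_fb h hm s hs d).2 (Or.inr (Or.inr ⟨hu', ?_⟩))))
        exact hGs x hx _ hmkd
    · intro x _ hx
      rw [GS5_dmE]
      omega
    · intro x hx
      refine Or.inl ((t2p_fb h hm s hs _).2 (Or.inr (Or.inl ⟨rfl, ?_⟩)))
      have h1 : mk (fs (GS5_E x)) (fs (sn (GS5_E x))) = x := by
        funext i
        rcases i with i | i <;> rfl
      rw [h1]
      exact hx
    · rintro x _ hx (h1 | h1)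
      · rcases (t2p_fb h hm s hs _).1 h1 with h2 | h2 | h2
        · exact one_ne_zero h2.1
        · apply hx
          have h3 : mk (fs (GS5_E x)) (fs (sn (GS5_E x))) = x := by
            funext i
            rcases i with i | i <;> rfl
          rw [← h3]
          exact h2.2
        · have h3 : (1 : ℤ) = 2 := h2.1
          omega
      · exact one_ne_zero h1.1
  have e3 : A0 ∪ B ∪ GS5_E '' GaQ (Tq k L ι a b F T) (2 * m + 1) ρ (Qs k L ι a b F T κ m s) =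
      A2 := by
    ext z
    constructor
    · rintro ((hz | hz) | ⟨x, hx, rfl⟩)
      · exact hA0A2 hz
      · exact hBA2 hz
      · refine (hmem _).2 (Or.inr ⟨Or.inl rfl, ?_⟩)
        have h3 : mk (fs (GS5_E x)) (fs (sn (GS5_E x))) = x := by
          funext i
          rcases i with i | i <;> rfl
        rw [h3]
        exact hx
    · intro hz
      rcases (hmem z).1 hz with h1 | ⟨h1 | h1, h2⟩
      · exact Or.inl (Or.inr h1)
      · exact Or.inr ⟨_, h2, (GS5_eta h1).symm⟩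
      · exact Or.inl (Or.inl ((t2p_fb h hm s hs z).2 (Or.inr (Or.inr ⟨h1, h2⟩))))
  rw [e3] at e2
  exact ex_trans e1 e2

theorem step (hk : 1 ≤ k) (h : Go k L ι a b F T κ j) :
    ∃ (V' : Type) (_ : Fintype V') (ι' : J → V') (a' b' : V' → ℤ) (F' T' : Set (Cl V'))
      (κ' : Cl V' → Cl J) (π : Cl V' → Cl V),
      Go k L ι' a' b' F' T' κ' (min (j + 2) k) ∧ Cub F' F π ∧ Soft k F' F π ∧
      ∀ z ∈ F', Fa (κ (π z)) (κ' z) := by
  obtain ⟨m, ρ, a₁, b₁, hm⟩ := step_ms hk h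
  have hMc := hm.toMc
  obtain ⟨-, -, h3, h4⟩ := fp_cx hMc h.cx h.km a₁ b₁
  obtain ⟨h5, h6⟩ := t2p_clo h hm
  refine ⟨(V ⊕ Unit) ⊕ (V ⊕ Unit), inferInstance, ip (V ⊕ Unit) ι, ap a₁ a, bp b₁ b,
    Fp a₁ b₁ F (Tq k L ι a b F T) (2 * m + 1) ρ, T2p k L ι a b F T a₁ b₁ (2 * m + 1) ρ,
    kp κ (kq ι κ) (2 * m + 1), fun z => fs (sn z), ?_, h3, fp_soft hMc h.cx h.km a₁ b₁ hm.ab1 k,
    h4⟩
  exact { toGd := gd_fp h.toGd hMc a₁ b₁ hm.ab1
          TF := h6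
          cT := h5
          eT := fun s hs i => step_iv h hm s hs i
          eF := fun s hs => step_iii hk h hm s hs }

end MNG
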