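import Pool.Agent.MNG.GD
import Pool.Agent.MNG.C4
import Pool.Agent.MNG.T1b

/-!
# MNG-M4: fine vertex maps from continuous maps

`Bo Tp` is compact, so `c` is uniformly continuous: `∃ δ > 0`, `dist x x' < δ → dist (c x) (c x') < 1/2` on `Bo Tp`. Take `1 / (2 m + 1) < δ`. For `q ∈ Gr r Tp` and vertices `v, v'` of `q` the points `v / r`, `v' / r` are in `Bo Tp` at distance `≤ 1 / r`. `y = c (v / r)` is in `Bo (Fb κ F (κT e))`, `e = ca r (2 v) = cr (v / r)`, so `cr y ∈ Fb κ F (κT e)` (closed); by `rnd_cr` all roundings are vertices of `cr y`; `spn_fa`, `spn_mem`.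
-/

set_option autoImplicit false

noncomputable section

namespace MNG

open AGM (Ei Bl Sp)
open Set Topology

variable {J V W : Type} [Fintype J] [Fintype V] [Fintype W] {k : ℕ} {L : Set (Cl J)}
  {F : Set (Cl V)} {κ : Cl V → Cl J} {Tp : Set (Cl W)} {κT : Cl W → Cl J}

private theorem m4_cr (v : W → ℤ) : cr (fun w => (v w : ℝ)) = fun w => 2 * v w := by
  funext w
  show (if |(v w : ℝ) - round ((v w : ℝ))| ≤ 0 / 2 then 2 * round ((v w : ℝ))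
    else 2 * ⌊(v w : ℝ)⌋ + 1) = 2 * v w
  rw [round_intCast, if_pos (by simp)]

private theorem m4_key (hF : Cx F) (hκ : Mon F L κ) (hT : Cx Tp)
    (c : (W → ℝ) → V → ℝ)
    (hm : ∀ e ∈ Tp, MapsTo c (bo e) (Bo (Fb κ F (κT e)))) {r : ℕ} (hr : 1 ≤ r) {δ : ℝ}
    (hu : ∀ x ∈ Bo Tp, ∀ y ∈ Bo Tp, dist x y < δ → dist (c x) (c y) < 1 / 2)
    (hrδ : 1 / (r : ℝ) < δ) (q : Cl W) (hq : q ∈ Gr r Tp) (v : W → ℤ) (hv : v ∈ Vx q) :
    cr (c (fun w => (v w : ℝ) / (r : ℝ))) ∈ F ∧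
    Fa (κ (cr (c (fun w => (v w : ℝ) / (r : ℝ))))) (κT (ca r (fun w => 2 * v w))) ∧
    ∀ u ∈ (fun (v : W → ℤ) (x : V) => round (c (fun w => (v w : ℝ) / (r : ℝ)) x)) '' Vx q,
      Fa (fun j => 2 * u j) (cr (c (fun w => (v w : ℝ) / (r : ℝ)))) := by
  have hr0 : (0 : ℝ) < (r : ℝ) := by exact_mod_cast hr
  have hδ : 0 < δ := lt_trans (by positivity) hrδ
  have hca : ∀ v : W → ℤ, v ∈ Vx q → ca r (fun w => 2 * v w) ∈ Tp ∧
      (fun w => (v w : ℝ) / (r : ℝ)) ∈ bo (ca r (fun w => 2 * v w)) := by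
    intro v hv
    constructor
    · exact hT.clo _ hq _ (ca_fa hr hv)
    · have h1 := ca_cr hr (fun w => (v w : ℝ))
      rw [m4_cr] at h1
      rw [h1]
      exact cr_bo _
  have h1 := hca v hv
  have h2 := hm _ h1.1 h1.2
  have h3 : Clo (Fb κ F (κT (ca r (fun w => 2 * v w)))) := by
    intro a ha b hb
    exact ⟨hF.clo _ ha.1 _ hb, fa_trans (hκ.mono _ ha.1 _ hb) ha.2⟩
  have h4 := cr_mem h3 h2
  refine ⟨h4.1, h4.2, ?_⟩
  rintro u ⟨v', hv', rfl⟩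
  have h5 := hca v' hv'
  have h6 : dist (fun w => (v w : ℝ) / (r : ℝ)) (fun w => (v' w : ℝ) / (r : ℝ)) < δ := by
    refine (dist_pi_lt_iff hδ).2 fun w => lt_of_le_of_lt ?_ hrδ
    rw [Real.dist_eq, ← sub_div, abs_div, abs_of_pos hr0]
    refine div_le_div_of_nonneg_right ?_ hr0.le
    have h7 := hv w
    have h8 := hv' w
    have h9 : |v w - v' w| ≤ 1 := by
      simp only [fc] at h7 h8
      rw [abs_le]
      omega
    exact_mod_cast h9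
  have h7 := hu _ ⟨_, h1.1, h1.2⟩ _ ⟨_, h5.1, h5.2⟩ h6
  refine rnd_cr _ _ fun j => ?_
  have h8 := (dist_pi_lt_iff (by norm_num : (0 : ℝ) < 1 / 2)).1 h7 j
  rw [Real.dist_eq] at h8
  exact h8

theorem mc_of (hF : Cx F) (hκ : Mon F L κ) (hT : Cx Tp) (hκT : Mon Tp L κT)
    (c : (W → ℝ) → V → ℝ) (hc : ContinuousOn c (Bo Tp))
    (hm : ∀ e ∈ Tp, MapsTo c (bo e) (Bo (Fb κ F (κT e)))) :
    ∃ m₀ : ℕ, ∀ m ≥ m₀, Mc L F κ Tp κT (2 * m + 1)
      (fun v x => round (c (fun w => (v w : ℝ) / ((2 * m + 1 : ℕ) : ℝ)) x)) := by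
  have hu := (Bo_compact hT.fin).uniformContinuousOn_of_continuous hc
  obtain ⟨δ, hδ, hu⟩ := Metric.uniformContinuousOn_iff.1 hu (1 / 2) (by norm_num)
  obtain ⟨m₀, hm₀⟩ := exists_nat_gt (1 / δ)
  refine ⟨m₀, fun m hmm => ?_⟩
  have hr : 1 ≤ 2 * m + 1 := by omega
  have hr0 : (0 : ℝ) < ((2 * m + 1 : ℕ) : ℝ) := by exact_mod_cast hr
  have hrδ : 1 / ((2 * m + 1 : ℕ) : ℝ) < δ := by
    rw [div_lt_iff₀ hr0]
    rw [div_lt_iff₀ hδ] at hm₀
    have h1 : (m₀ : ℝ) ≤ ((2 * m + 1 : ℕ) : ℝ) := by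
      exact_mod_cast (by omega : m₀ ≤ 2 * m + 1)
    nlinarith
  have key := m4_key hF hκ hT c hm hr hu hrδ
  refine ⟨hr, hT, hκT, fun q hq => ?_, fun q hq v hv => ?_, fun q hq v hv => ?_⟩
  · obtain ⟨v, hv⟩ := vx_nonempty q
    obtain ⟨h1, h2, h3⟩ := key q hq v hv
    exact hF.clo _ h1 _ (spn_fa _ ((vx_nonempty q).image _) _ h3)
  · obtain ⟨h1, h2, h3⟩ := key q hq v hv
    exact fa_trans (hκ.mono _ h1 _ (spn_fa _ ((vx_nonempty q).image _) _ h3)) h2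
  · obtain ⟨h1, h2, h3⟩ := key q hq v hv
    exact spn_mem _ ((vx_nonempty q).image _) _ h3 _ ⟨v, hv, rfl⟩

/-- a finite set of cells is contained in a box -/
theorem exists_bx (K : Set (Cl W)) (hK : K.Finite) (a₀ b₀ : W → ℤ) :
    ∃ a₁ b₁ : W → ℤ, (∀ w, a₁ w ≤ b₁ w) ∧ K ⊆ Bx a₁ b₁ ∧ ∀ w, a₁ w ≤ a₀ w ∧ b₀ w ≤ b₁ w := by
  classical
  have hN : ∀ w, ∃ N : ℤ, 0 ≤ N ∧ (∀ c ∈ K, |c w| ≤ N) ∧ -N ≤ a₀ w ∧ b₀ w ≤ N := by
    intro w
    refine ⟨∑ c ∈ hK.toFinset, |c w| + |a₀ w| + |b₀ w|, ?_, ?_, ?_, ?_⟩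
    · have := Finset.sum_nonneg (s := hK.toFinset) (f := fun c : Cl W => |c w|)
        fun c _ => abs_nonneg _
      have h2 := abs_nonneg (a₀ w)
      have h3 := abs_nonneg (b₀ w)
      omega
    · intro c hc
      have := Finset.single_le_sum (s := hK.toFinset) (f := fun c : Cl W => |c w|)
        (fun c _ => abs_nonneg _) (hK.mem_toFinset.2 hc)
      have h2 := abs_nonneg (a₀ w)
      have h3 := abs_nonneg (b₀ w)
      omega
    · have := Finset.sum_nonneg (s := hK.toFinset) (f := fun c : Cl W => |c w|)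
        fun c _ => abs_nonneg _
      have h2 := neg_abs_le (a₀ w)
      have h3 := abs_nonneg (b₀ w)
      omega
    · have := Finset.sum_nonneg (s := hK.toFinset) (f := fun c : Cl W => |c w|)
        fun c _ => abs_nonneg _
      have h2 := abs_nonneg (a₀ w)
      have h3 := le_abs_self (b₀ w)
      omega
  choose N hN0 hN1 hN2 hN3 using hN
  refine ⟨fun w => -N w, fun w => N w, fun w => ?_, fun c hc w => ?_, fun w => ⟨hN2 w, hN3 w⟩⟩
  · have := hN0 w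
    show -N w ≤ N w
    omega
  · have h1 := abs_le.1 (hN1 w c hc)
    have h2 := hN0 w
    show 2 * -N w ≤ c w ∧ c w ≤ 2 * N w
    omega

end MNG
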