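import Pool.Agent.MNG.T2

/-!
# MNG-T7: extension cell by cell

Induction over the cells outside `B` in increasing dimension (finite set). One cell `e` of dimension `d`: chart `Ei d → J → ℝ` onto `bo e` (linear isomorphism of `[0,1]^d`), `ae` with `i = k = d`.
-/

set_option autoImplicit false

noncomputable section

namespace MNG

open AGM (Ei Bl Sp)
open Set Topology

private theorem t7_bo_mono {J : Type} {K L : Set (Cl J)} (h : K ⊆ L) : Bo K ⊆ Bo L := by
  rintro x ⟨c, hc, hx⟩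
  exact ⟨c, h hc, hx⟩

private theorem t7_aux {J V : Type} [Fintype J] [Fintype V] {B : Set (Cl J)}
    (hB : Cx B) (C : Cl J → Set (Cl V)) (c₀ : (J → ℝ) → V → ℝ)
    (h0 : ContinuousOn c₀ (Bo B)) (h1 : ∀ e ∈ B, MapsTo c₀ (bo e) (Bo (C e))) (n : ℕ) :
    ∀ T' : Set (Cl J), (T' \ B).ncard = n → Cx T' → B ⊆ T' →
      (∀ e ∈ T', ∀ d, Fa d e → C d ⊆ C e) →
      (∀ e ∈ T', e ∉ B → Cs (dm e) (Bo (C e))) →
      ∃ c : (J → ℝ) → V → ℝ, ContinuousOn c (Bo T') ∧ EqOn c c₀ (Bo B) ∧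
        ∀ e ∈ T', MapsTo c (bo e) (Bo (C e)) := by
  induction n with
  | zero =>
    intro T' hn hT hBT hm hc
    have hfin : (T' \ B).Finite := hT.fin.subset Set.sdiff_subset
    have h2 : T' \ B = ∅ := (Set.ncard_eq_zero hfin).1 hn
    have h3 : T' = B := Set.Subset.antisymm (Set.sdiff_eq_empty.1 h2) hBT
    rw [h3]
    exact ⟨c₀, h0, fun _ _ => rfl, h1⟩
  | succ n ih =>
    intro T' hn hT hBT hm hc
    have hfin : (T' \ B).Finite := hT.fin.subset Set.sdiff_subset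
    have hne : (T' \ B).Nonempty := by
      rw [← Set.ncard_pos hfin]
      omega
    obtain ⟨e, ⟨heT, heB⟩, hmax⟩ := Set.exists_max_image (T' \ B) (fun c => dm c) hfin hne
    have hK : Cx (T' \ {e}) := by
      refine ⟨hT.fin.subset Set.sdiff_subset, ?_⟩
      rintro c ⟨hcT, hce⟩ d hd
      refine ⟨hT.clo c hcT d hd, ?_⟩
      intro hde
      rw [Set.mem_singleton_iff] at hde hce
      rw [hde] at hd
      by_cases hcB : c ∈ B
      · exact heB (hB.clo c hcB e hd)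
      · have h2 : dm c ≤ dm e := hmax c ⟨hcT, hcB⟩
        have h3 : dm e < dm c := dm_lt hd (fun h => hce h.symm)
        omega
    have hBK : B ⊆ T' \ {e} := by
      intro c hcB
      refine ⟨hBT hcB, ?_⟩
      intro hce
      rw [Set.mem_singleton_iff] at hce
      exact heB (hce ▸ hcB)
    have hins : insert e (T' \ {e}) = T' := by
      rw [Set.insert_sdiff_singleton, Set.insert_eq_of_mem heT]
    have hcard : ((T' \ {e}) \ B).ncard = n := by
      have h2 : (T' \ {e}) \ B = (T' \ B) \ {e} := by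
        ext c
        simp only [Set.mem_sdiff, Set.mem_singleton_iff]
        tauto
      rw [h2, Set.ncard_sdiff_singleton_of_mem (show e ∈ T' \ B from ⟨heT, heB⟩), hn]
      rfl
    obtain ⟨c₁, hc1, hc2, hc3⟩ := ih (T' \ {e}) hcard hK hBK
      (fun f hf d hd => hm f hf.1 d hd) (fun f hf hfB => hc f hf.1 hfB)
    have hmap : MapsTo c₁ (Bo (T' \ {e}) ∩ bo e) (Bo (C e)) := by
      rintro x ⟨hx1, hx2⟩
      exact t7_bo_mono (hm e heT (cr x) (cr_min hx2)) (hc3 (cr x) (cr_mem hK.clo hx1) (cr_bo x))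
    obtain ⟨c, hc4, hc5, hc6⟩ := cell_step (k := dm e) (Bo (C e)) (hc e heT heB) hK e
      (fun h => h.2 rfl) (by rw [hins]; exact hT.clo) le_rfl c₁ hc1 hmap
    rw [hins] at hc4
    refine ⟨c, hc4, ?_, ?_⟩
    · intro x hx
      rw [hc5 (t7_bo_mono hBK hx)]
      exact hc2 hx
    · intro f hf
      by_cases hfe : f = e
      · rw [hfe]
        exact hc6
      · intro x hx
        have h2 : f ∈ T' \ {e} := ⟨hf, hfe⟩
        rw [hc5 ⟨f, h2, hx⟩]
        exact hc3 f h2 hx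

theorem ext_cells {J V : Type} [Fintype J] [Fintype V] {T' B : Set (Cl J)} (hT : Cx T')
    (hB : Cx B) (hBT : B ⊆ T') (C : Cl J → Set (Cl V)) (hC : ∀ e ∈ T', Cx (C e))
    (hm : ∀ e ∈ T', ∀ d, Fa d e → C d ⊆ C e)
    (hc : ∀ e ∈ T', e ∉ B → Cs (dm e) (Bo (C e))) (c₀ : (J → ℝ) → V → ℝ)
    (h0 : ContinuousOn c₀ (Bo B)) (h1 : ∀ e ∈ B, MapsTo c₀ (bo e) (Bo (C e))) :
    ∃ c : (J → ℝ) → V → ℝ, ContinuousOn c (Bo T') ∧ EqOn c c₀ (Bo B) ∧
      ∀ e ∈ T', MapsTo c (bo e) (Bo (C e)) :=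
  t7_aux hB C c₀ h0 h1 _ T' rfl hT hBT hm hc

end MNG
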