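import Pool.Agent.MNG.M2
import Pool.Agent.MNG.M3
import Pool.Agent.MNG.M4
import Pool.Agent.MNG.C5
import Pool.Agent.MNG.T7

/-!
# MNG-ST: START (section 4 of the blueprint)

`T' = L`, `κT = id`. Section `c`: `ext_cells` with `B = ∅` and targets `C e = Fb κ F e` (`Cs (dm e)` from `Cs k`, `dm e ≤ k`, `cs_le`). `mc_of` gives `r = 2 m + 1` and `ρ`; `exists_bx` (with `K = Gr r L`) gives `a₁, b₁`.
`T'' = {z ∈ Fp | u = 2}`. `eF`: `ex_cells` with `j = 0`. `eT`, for `s ∈ L`: `Q = Gr r (Fc s)`; `Fb (kp ..) T'' s = {z | (q, P) ∈ GaQ .. Q, u = 2}`; `Ex i Q (Bx a₁ b₁)`: `Fc s` is a box, `Gr r` of a box is a box (`gr_bx`), `bx_ex`. `ga_col` with the box `O = Om ι a b s` (`Gd.ob`; `Fb κ F s ⊆ Om ι a b s` by `ki`, `bx`; `ga_ka`), carried to the level `u = 2` by `ex_map`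
(`E x = ` the cell `(q, P, 2)`), then `Ex i {u = 2} (In 1)` by `bx_ex` or directly (pair `(0, 1)`), product `ex_px_r`; `om_fp`; `ex_trans`.
-/

set_option autoImplicit false

noncomputable section

namespace MNG

open AGM (Ei Bl Sp)
open Set Topology

variable {J V W : Type} [Fintype J] [Fintype V] [Fintype W] {k : ℕ} {L : Set (Cl J)}
  {F : Set (Cl V)} {κ : Cl V → Cl J} {ι : J → V} {a b : V → ℤ}

theorem start_map (h : Gd k L ι a b F κ) : ∃ (m : ℕ) (ρ : (J → ℤ) → V → ℤ) (a₁ b₁ : J → ℤ),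
    Mc L F κ L (fun c => c) (2 * m + 1) ρ ∧ (∀ w, a₁ w ≤ b₁ w) ∧
    Gr (2 * m + 1) L ⊆ Bx a₁ b₁ := by
  have hB : Cx (∅ : Set (Cl J)) := ⟨Set.finite_empty, fun c hc => absurd hc (Set.notMem_empty c)⟩
  have hBo : Bo (∅ : Set (Cl J)) = ∅ := by
    ext x
    constructor
    · rintro ⟨c, hc, -⟩
      exact absurd hc (Set.notMem_empty c)
    · intro hx
      exact absurd hx (Set.notMem_empty x)
  obtain ⟨c, hc, -, hm⟩ := ext_cells h.cL hB (Set.empty_subset L) (fun e => Fb κ F e)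
    (fun e _ => cx_fb h.cx h.km e)
    (fun e _ d hd x hx => ⟨hx.1, fa_trans hx.2 hd⟩)
    (fun e he _ => cs_le (h.dL e he) (h.cs e he)) (fun _ _ => 0)
    (by rw [hBo]; exact continuousOn_empty _)
    (fun e he => absurd he (Set.notMem_empty e))
  obtain ⟨m₀, hm₀⟩ := mc_of h.cx h.km h.cL (κT := fun c => c)
    ⟨fun c hc => hc, fun _ _ _ hd => hd⟩ c hc hm
  obtain ⟨a₁, b₁, h1, h2, -⟩ := exists_bx (Gr (2 * m₀ + 1) L)
    (cx_gr (by omega : 1 ≤ 2 * m₀ + 1) h.cL).fin (fun _ => 0) (fun _ => 0)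
  exact ⟨m₀, _, a₁, b₁, hm₀ m₀ le_rfl, h1, h2⟩

/-- the cells `(q, P, e)` of the level `e` over the cells `(q, P)` -/
def lev {V W : Type} (e : ℤ) (x : Cl (W ⊕ V)) : Cl (W ⊕ (V ⊕ Unit)) :=
  mk (fs x) (mk (sn x) (fun _ => e))

omit [Fintype V] [Fintype W] in
private theorem st_inj {x y : Cl (W ⊕ V)} (h : lev 2 x = lev 2 y) : x = y := by
  funext j
  rcases j with w | v
  · exact congrFun h (Sum.inl w)
  · exact congrFun h (Sum.inr (Sum.inl v))

private theorem st_two {u : ℤ} (h : fc u 2) : u = 2 := by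
  unfold fc at h
  omega

omit [Fintype V] [Fintype W] in
private theorem st_face {x : Cl (W ⊕ V)} {d : Cl (W ⊕ (V ⊕ Unit))} (h : Fa d (lev 2 x)) :
    ∃ c', Fa c' x ∧ d = lev 2 c' := by
  refine ⟨mk (fs d) (fs (sn d)), ?_, ?_⟩
  · rintro (w | v)
    · exact h (Sum.inl w)
    · exact h (Sum.inr (Sum.inl v))
  · funext j
    rcases j with w | v | o
    · rfl
    · rfl
    · exact st_two (h (Sum.inr (Sum.inr o)))

omit [Fintype V] [Fintype W] in
private theorem st_ft {r t : Cl (W ⊕ V)} (h : Ft r t) : Ft (lev 2 r) (lev 2 t) := by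
  obtain ⟨i, h1, h2, h3⟩ := h
  rcases i with i | i
  · refine ⟨Sum.inl i, h1, h2, ?_⟩
    rintro (w | v | o) hj
    · exact h3 (Sum.inl w) fun e => hj (by rw [Sum.inl.inj e])
    · exact h3 (Sum.inr v) fun e => by simp at e
    · rfl
  · refine ⟨Sum.inr (Sum.inl i), h1, h2, ?_⟩
    rintro (w | v | o) hj
    · exact h3 (Sum.inl w) fun e => by simp at e
    · exact h3 (Sum.inr v) fun e => hj (by rw [Sum.inr.inj e])
    · rfl

private theorem st_dm (c : Cl (W ⊕ V)) : dm c ≤ dm (lev 2 c) := by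
  unfold dm
  refine Finset.card_le_card_of_injOn (Sum.elim Sum.inl (fun v => Sum.inr (Sum.inl v))) ?_ ?_
  · intro j hj
    have h1 := (Finset.mem_filter.1 (Finset.mem_coe.1 hj)).2
    refine Finset.mem_coe.2 (Finset.mem_filter.2 ⟨Finset.mem_univ _, ?_⟩)
    rcases j with w | v
    · exact h1
    · exact h1
  · rintro (w | v) _ (w' | v') _ h
    · simp only [Sum.elim_inl] at h
      rw [Sum.inl.inj h]
    · simp at h
    · simp at h
    · simp only [Sum.elim_inr] at h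
      rw [Sum.inl.inj (Sum.inr.inj h)]

/-- an expansion of sets of cells `(q, P)` carried to the level `2` -/
theorem lev_ex {i : ℕ} {R' R : Set (Cl (W ⊕ V))} (hR' : Clo R') (h : Ex i R' R) :
    Ex i (lev 2 '' R') (lev 2 '' R) := by
  have h0 := ex_clo h hR'
  have h1 : lev 2 '' R' ∪ lev 2 '' R = lev 2 '' R :=
    Set.union_eq_self_of_subset_left (Set.image_mono h0.2)
  rw [← h1]
  refine ex_map h hR' (lev 2) _ ?_ ?_ ?_ ?_ ?_ ?_ ?_
  · rintro _ ⟨c, hc, rfl⟩ d hd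
    obtain ⟨c', h2, rfl⟩ := st_face hd
    exact ⟨c', hR' c hc c' h2, rfl⟩
  · intro c _ d _ hcd
    exact st_inj hcd
  · intro c _ d hd
    exact Or.inr (st_face hd)
  · intro r _ t _ hrt
    exact st_ft hrt
  · intro c _ hc
    exact hc.trans (st_dm c)
  · intro c hc
    exact ⟨c, hc, rfl⟩
  · rintro c _ hc ⟨c', hc', he⟩
    exact hc (st_inj he ▸ hc')

/-- from the level `2` to the product with the interval -/
theorem lev_in {i : ℕ} (A : Set (Cl W)) (B : Set (Cl V)) (hA : Cx A) (hB : Cx B) :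
    Ex i (lev 2 '' (Px A B)) (Px A (Px B (In 1))) := by
  have h0 : In 1 = Bx (fun _ : Unit => 0) (fun _ => 1) := by
    ext c
    constructor
    · rintro ⟨h1, h2⟩ j
      have h3 : 0 ≤ c j := h1
      have h4 : c j ≤ 2 * ((1 : ℕ) : ℤ) := h2
      push_cast at h4
      change 2 * 0 ≤ c j ∧ c j ≤ 2 * 1
      omega
    · intro h
      have h1 : 2 * 0 ≤ c () ∧ c () ≤ 2 * 1 := h ()
      refine ⟨?_, ?_⟩
      · omega
      · push_cast
        omega
  have h1 : Ex i (Bx (fun _ : Unit => 1) (fun _ => 1)) (In 1) := by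
    rw [h0]
    exact bx_ex (fun _ => ⟨by norm_num, le_rfl, le_rfl⟩) i
  have hc : Cx (Bx (fun _ : Unit => 1) (fun _ => 1)) := cx_bx _ _
  have h2 := ex_px_r (cx_px hB hc).clo (ex_px_r hc.clo h1 hB) hA
  have h3 : lev 2 '' (Px A B) = Px A (Px B (Bx (fun _ : Unit => 1) (fun _ => 1))) := by
    ext z
    constructor
    · rintro ⟨x, ⟨hx1, hx2⟩, rfl⟩
      refine ⟨hx1, hx2, fun j => ?_⟩
      change 2 * 1 ≤ (2 : ℤ) ∧ (2 : ℤ) ≤ 2 * 1
      norm_num
    · rintro ⟨h4, h5, h6⟩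
      refine ⟨mk (fs z) (fs (sn z)), ⟨h4, h5⟩, ?_⟩
      funext j
      rcases j with w | v | o
      · rfl
      · rfl
      · have h7 : 2 * 1 ≤ sn (sn z) o ∧ sn (sn z) o ≤ 2 * 1 := h6 o
        have h8 : sn (sn z) o = 2 := by omega
        exact h8.symm
  rw [h3]
  exact h2

omit [Fintype J] in
private theorem st_fc (s : Cl J) : Fc s = Bx (fun j => s j / 2) (fun j => (s j + 1) / 2) := by
  ext d
  refine forall_congr' fun j => ?_
  change fc (d j) (s j) ↔ 2 * (s j / 2) ≤ d j ∧ d j ≤ 2 * ((s j + 1) / 2)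
  unfold fc
  omega

theorem start (h : Gd k L ι a b F κ) : ∃ (V' : Type) (_ : Fintype V') (ι' : J → V')
    (a' b' : V' → ℤ) (F' T' : Set (Cl V')) (κ' : Cl V' → Cl J) (π : Cl V' → Cl V),
    Go k L ι' a' b' F' T' κ' 0 ∧ Cub F' F π ∧ Soft k F' F π ∧
      ∀ z ∈ F', Fa (κ (π z)) (κ' z) := by
  obtain ⟨m, ρ, a₁, b₁, hM, hab, hgb⟩ := start_map h
  have hr : 1 ≤ 2 * m + 1 := by omega
  obtain ⟨hcx, hkm, hcub, hka⟩ := fp_cx hM h.cx h.km a₁ b₁
  have hTclo : Clo {z | z ∈ Fp a₁ b₁ F L (2 * m + 1) ρ ∧ sn (sn z) () = 2} := by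
    rintro z ⟨hz, hu⟩ d hd
    refine ⟨hcx.clo z hz d hd, ?_⟩
    have h1 : fc (sn (sn d) ()) (sn (sn z) ()) := hd (Sum.inr (Sum.inr ()))
    rw [hu] at h1
    exact st_two h1
  refine ⟨J ⊕ (V ⊕ Unit), inferInstance, ip J ι, ap a₁ a, bp b₁ b,
    Fp a₁ b₁ F L (2 * m + 1) ρ, {z | z ∈ Fp a₁ b₁ F L (2 * m + 1) ρ ∧ sn (sn z) () = 2},
    kp κ (fun c => c) (2 * m + 1), fun z => fs (sn z), ?_, hcub,
    fp_soft hM h.cx h.km a₁ b₁ hab k, hka⟩
  refine ⟨gd_fp h hM a₁ b₁ hab, fun z hz => hz.1, hTclo, ?_, ?_⟩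
  · intro s hs i
    obtain ⟨a'', b'', hab'', hOm⟩ := h.ob s hs
    have hsub : Gr (2 * m + 1) (Fc s) ⊆ Gr (2 * m + 1) L := fun q hq => h.cL.clo s hs _ hq
    have hQ : Cx (Gr (2 * m + 1) (Fc s)) := cx_gr hr (cx_fc s)
    have hbox : Ex i (Gr (2 * m + 1) (Fc s)) (Bx a₁ b₁) := by
      have e1 : Gr (2 * m + 1) (Fc s) = Bx (fun j => ((2 * m + 1 : ℕ) : ℤ) * (s j / 2))
          (fun j => ((2 * m + 1 : ℕ) : ℤ) * ((s j + 1) / 2)) := by
        rw [st_fc, gr_bx hr]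
      have e2 : ∀ j, ((2 * m + 1 : ℕ) : ℤ) * (s j / 2) ≤ ((2 * m + 1 : ℕ) : ℤ) * ((s j + 1) / 2) :=
        fun j => mul_le_mul_of_nonneg_left (by omega) (by positivity)
      have e3 : (fun j => 2 * (((2 * m + 1 : ℕ) : ℤ) * (s j / 2))) ∈ Bx a₁ b₁ := by
        refine hgb (hsub ?_)
        rw [e1]
        intro j
        exact ⟨le_rfl, mul_le_mul_of_nonneg_left (e2 j) (by norm_num)⟩
      have e4 : (fun j => 2 * (((2 * m + 1 : ℕ) : ℤ) * ((s j + 1) / 2))) ∈ Bx a₁ b₁ := by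
        refine hgb (hsub ?_)
        rw [e1]
        intro j
        exact ⟨mul_le_mul_of_nonneg_left (e2 j) (by norm_num), le_rfl⟩
      rw [e1]
      refine bx_ex (fun j => ⟨?_, e2 j, ?_⟩) i
      · have e5 := (e3 j).1
        exact le_of_mul_le_mul_left e5 (by norm_num)
      · have e5 := (e4 j).2
        exact le_of_mul_le_mul_left e5 (by norm_num)
    have hcol := ga_col (i := i) hM h.cx (Gr (2 * m + 1) (Fc s)) hQ hsub a'' b'' hab''
      (by
        rintro z ⟨hz, hzQ⟩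
        rw [← hOm]
        refine ⟨h.bx (ga_F hM h.cx.clo hz), ?_⟩
        exact fa_trans (h.ki _ (ga_F hM h.cx.clo hz))
          (fa_trans (ga_ka hM h.cx.clo h.km hz) hzQ)) a₁ b₁ hbox
    have hgclo : Clo (GaQ L (2 * m + 1) ρ (Gr (2 * m + 1) (Fc s))) := by
      rintro z ⟨hz, hzQ⟩ d hd
      exact ⟨ga_clo hM z hz d hd, hQ.clo _ hzQ _ fun j => hd (Sum.inl j)⟩
    have hlev := ex_trans (lev_ex hgclo hcol)
      (lev_in (i := i) (Bx a₁ b₁) (Bx a'' b'') (cx_bx _ _) (cx_bx _ _))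
    rw [om_fp, hOm]
    have hset : Fb (kp κ (fun c => c) (2 * m + 1))
        {z | z ∈ Fp a₁ b₁ F L (2 * m + 1) ρ ∧ sn (sn z) () = 2} s =
        lev 2 '' (GaQ L (2 * m + 1) ρ (Gr (2 * m + 1) (Fc s))) := by
      ext z
      constructor
      · rintro ⟨⟨hz, hu⟩, hk⟩
        have hu0 : sn (sn z) () ≠ 0 := by
          rw [hu]
          norm_num
        have hga := hz.2.2.2.resolve_left hu0
        unfold kp at hk
        rw [if_neg hu0] at hk
        refine ⟨mk (fs z) (fs (sn z)), ⟨hga, hk⟩, ?_⟩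
        funext j
        rcases j with w | v | o
        · rfl
        · rfl
        · exact hu.symm
      · rintro ⟨x, ⟨hx, hxQ⟩, rfl⟩
        have hu0 : sn (sn (lev 2 x)) () ≠ 0 := by
          change (2 : ℤ) ≠ 0
          norm_num
        have hmk : mk (fs (lev 2 x)) (fs (sn (lev 2 x))) = x := by
          funext j
          rcases j with w | v <;> rfl
        refine ⟨⟨⟨hgb hx.1, ga_F hM h.cx.clo hx, ?_, Or.inr ?_⟩, rfl⟩, ?_⟩
        · exact (⟨by norm_num, by norm_num⟩ : (0 : ℤ) ≤ 2 ∧ (2 : ℤ) ≤ 2 * ((1 : ℕ) : ℤ))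
        · rw [hmk]
          exact hx
        · unfold kp
          rw [if_neg hu0]
          exact hxQ
    rw [hset]
    exact hlev
  · intro s hs
    have h1 : Fb (kp κ (fun c => c) (2 * m + 1))
        {z | z ∈ Fp a₁ b₁ F L (2 * m + 1) ρ ∧ sn (sn z) () = 2} s ⊆
        Fb (kp κ (fun c => c) (2 * m + 1)) (Fp a₁ b₁ F L (2 * m + 1) ρ) s :=
      fun z hz => ⟨hz.1.1, hz.2⟩
    have h2 := cx_fb hcx hkm s
    refine ex_cells ?_ h2.clo h1 (h2.fin.subset Set.sdiff_subset) (fun _ _ _ => Nat.zero_le _)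
    rintro z ⟨hz, hk⟩ d hd
    exact ⟨hTclo z hz d hd, fa_trans (hkm.mono z hz.1 d hd) hk⟩

end MNG
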