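import Pool.Agent.MNG.G1
import Pool.Agent.MNG.ST
import Pool.Agent.MNG.GS5
import Pool.Agent.MNG.T4

/-!
# MNG-GN: from soft maps to complexes to which FIB applies

`go_iter`: iterate `step` (composition of soft maps: `soft_comp`; `Cub` compose; carriers: transitivity). `go_fin`: `Go .. k` gives for `F × {2} ⊆ Cl (V ⊕ Unit)`: for all `s ∈ L`: `Ex (k + 1) (Fb κ' (F × {2}) s) (Bx a' b')`, where the box is `Bx a b × In 1`: `ex_fin1` for `Fb κ T s ⊆ Fb κ F s ⊆ Om ι a b s` gives `Px (Om ι a b s) (In 1)`, a sub-box of `Bx a b × In 1` (`Gd.ob`, `bx_ex`).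
`gen_pre`: for `a : F → L` soft the graph complex `gF F a` is `Gd` (coordinates `J ⊕ V`, `ι = Sum.inl`, box containing `gF`, `exists_bx` for the cells of `Px L F`; `ob`: coordinates of `s` and of the box of `F`): `start`, `go_iter` until `j = k` (`k + 1` steps are enough), `go_fin`.
-/

set_option autoImplicit false

noncomputable section

namespace MNG

open AGM (Ei Bl Sp)
open Set Topology

variable {J V : Type} [Fintype J] [Fintype V] {k j : ℕ} {L : Set (Cl J)}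
  {F T : Set (Cl V)} {κ : Cl V → Cl J} {ι : J → V} {a b : V → ℤ}

private theorem gn_comp {A B C : Type} [Fintype A] [Fintype B] [Fintype C] {k : ℕ}
    {F₃ : Set (Cl A)} {F₂ : Set (Cl B)} {F₁ : Set (Cl C)} (h3 : Cx F₃) (h2 : Cx F₂)
    {f : Cl A → Cl B} {g : Cl B → Cl C} (hf : Cub F₃ F₂ f) (hg : Cub F₂ F₁ g)
    (sf : Soft k F₃ F₂ f) (sg : Soft k F₂ F₁ g) :
    Cub F₃ F₁ (fun c => g (f c)) ∧ Soft k F₃ F₁ (fun c => g (f c)) := by
  refine ⟨⟨⟨fun c hc => hg.map _ (hf.map c hc), fun c hc d hd => ?_⟩, fun c hc => ?_⟩, ?_⟩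
  · exact hg.mono _ (hf.map c hc) _ (hf.mono c hc d hd)
  · exact (hg.dim _ (hf.map c hc)).trans (hf.dim c hc)
  · exact soft_comp h3 h2 hf.toMon hg.toMon sf sg

private theorem gn_fc (s : Cl J) : Fc s = Bx (fun j => s j / 2) (fun j => (s j + 1) / 2) := by
  ext d
  refine forall_congr' fun j => ?_
  change fc (d j) (s j) ↔ 2 * (s j / 2) ≤ d j ∧ d j ≤ 2 * ((s j + 1) / 2)
  unfold fc
  omega

private theorem gn_two {u : ℤ} (h : fc u 2) : u = 2 := by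
  unfold fc at h
  omega

theorem go_iter (hk : 1 ≤ k) (h : Go k L ι a b F T κ j) (n : ℕ) :
    ∃ (V' : Type) (_ : Fintype V') (ι' : J → V') (a' b' : V' → ℤ) (F' T' : Set (Cl V'))
      (κ' : Cl V' → Cl J) (π : Cl V' → Cl V),
      Go k L ι' a' b' F' T' κ' (min (j + 2 * n) k) ∧ Cub F' F π ∧ Soft k F' F π ∧
      ∀ z ∈ F', Fa (κ (π z)) (κ' z) := by
  induction n with
  | zero =>
    have h0 : min (j + 2 * 0) k ≤ j := by
      rw [Nat.mul_zero, Nat.add_zero]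
      exact min_le_left _ _
    refine ⟨V, inferInstance, ι, a, b, F, T, κ, fun c => c, ?_, ?_, ?_, ?_⟩
    · exact { toGd := h.toGd
              TF := h.TF
              cT := h.cT
              eT := h.eT
              eF := fun s hs => ex_le h0 (h.eF s hs) }
    · exact ⟨⟨fun c hc => hc, fun _ _ _ hd => hd⟩, fun _ _ => le_rfl⟩
    · intro S hS
      have h1 : Fb (fun c : Cl V => c) F S = Fc S := by
        ext c
        constructor
        · rintro ⟨_, h2⟩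
          exact h2
        · intro h2
          exact ⟨h.cx.clo S hS c h2, h2⟩
      rw [h1]
      exact cs_fc k S
    · exact fun z _ => fa_refl _
  | succ n ih =>
    obtain ⟨V₁, iV₁, ι₁, a₁, b₁, F₁, T₁, κ₁, π₁, hG₁, hC₁, hS₁, hK₁⟩ := ih
    obtain ⟨V₂, iV₂, ι₂, a₂, b₂, F₂, T₂, κ₂, π₂, hG₂, hC₂, hS₂, hK₂⟩ := step hk hG₁
    have h1 : min (min (j + 2 * n) k + 2) k = min (j + 2 * (n + 1)) k := by omega
    rw [h1] at hG₂
    obtain ⟨hc, hs⟩ := gn_comp hG₂.cx hG₁.cx hC₂ hC₁ hS₂ hS₁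
    exact ⟨V₂, iV₂, ι₂, a₂, b₂, F₂, T₂, κ₂, fun c => π₁ (π₂ c), hG₂, hc, hs,
      fun z hz => fa_trans (hK₁ _ (hC₂.map z hz)) (hK₂ z hz)⟩

theorem go_fin (h : Go k L ι a b F T κ k) :
    ∃ (V' : Type) (_ : Fintype V') (a' b' : V' → ℤ) (F' : Set (Cl V'))
      (κ' : Cl V' → Cl J) (π : Cl V' → Cl V), Cx F' ∧ F' ⊆ Bx a' b' ∧ (∀ v, a' v ≤ b' v) ∧
      Mon F' L κ' ∧ (∀ s ∈ L, Ex (k + 1) (Fb κ' F' s) (Bx a' b')) ∧ Cub F' F π ∧
      Soft k F' F π ∧ ∀ z ∈ F', Fa (κ (π z)) (κ' z) := by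
  have hfs : ∀ {c d : Cl (V ⊕ Unit)}, Fa c d → Fa (fs c) (fs d) := fun h v => h (Sum.inl v)
  have hclo : Clo {z : Cl (V ⊕ Unit) | fs z ∈ F ∧ sn z () = 2} := by
    rintro z ⟨h1, h2⟩ d hd
    refine ⟨h.cx.clo _ h1 _ (hfs hd), ?_⟩
    have h3 : fc (sn d ()) (sn z ()) := hd (Sum.inr ())
    rw [h2] at h3
    exact gn_two h3
  have hcx : Cx {z : Cl (V ⊕ Unit) | fs z ∈ F ∧ sn z () = 2} := by
    refine ⟨(cx_px h.cx (cx_in 1)).fin.subset ?_, hclo⟩
    rintro z ⟨h1, h2⟩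
    refine ⟨h1, ?_⟩
    show 0 ≤ sn z () ∧ sn z () ≤ 2 * ((1 : ℕ) : ℤ)
    rw [h2]
    norm_num
  refine ⟨V ⊕ Unit, inferInstance, Sum.elim a (fun _ => 0), Sum.elim b (fun _ => 1),
    {z : Cl (V ⊕ Unit) | fs z ∈ F ∧ sn z () = 2}, fun z => κ (fs z), fun z => fs z, hcx,
    ?_, ?_, ?_, ?_, ?_, ?_, ?_⟩
  · rintro z ⟨h1, h2⟩
    rintro (v | v)
    · exact h.bx h1 v
    · have h3 : sn z v = 2 := h2
      change 2 * 0 ≤ sn z v ∧ sn z v ≤ 2 * 1
      rw [h3]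
      norm_num
  · rintro (v | v)
    · exact h.ab v
    · exact zero_le_one
  · exact ⟨fun z hz => h.km.map _ hz.1, fun z hz d hd => h.km.mono _ hz.1 _ (hfs hd)⟩
  · intro s hs
    have hTs : Cx (Fb κ T s) := by
      refine ⟨h.cx.fin.subset fun z hz => h.TF hz.1, ?_⟩
      rintro z ⟨h1, h2⟩ d hd
      exact ⟨h.cT z h1 d hd, fa_trans (h.km.mono z (h.TF h1) d hd) h2⟩
    obtain ⟨a'', b'', hab'', hOm⟩ := h.ob s hs
    have hO : Cx (Om ι a b s) := by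
      rw [hOm]
      exact cx_bx _ _
    have h1 := ex_fin1 hTs (cx_fb h.cx h.km s) hO (fun z hz => ⟨h.TF hz.1, hz.2⟩)
      (fun z hz => ⟨h.bx hz.1, fa_trans (h.ki z hz.1) hz.2⟩) (h.eT s hs (k + 1)) (h.eF s hs)
    have h2 : Fb (fun z : Cl (V ⊕ Unit) => κ (fs z)) {z : Cl (V ⊕ Unit) | fs z ∈ F ∧ sn z () = 2} s
        = {z : Cl (V ⊕ Unit) | fs z ∈ Fb κ F s ∧ sn z () = 2} := by
      ext z
      constructor
      · rintro ⟨⟨h3, h4⟩, h5⟩
        exact ⟨⟨h3, h5⟩, h4⟩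
      · rintro ⟨⟨h3, h5⟩, h4⟩
        exact ⟨⟨h3, h4⟩, h5⟩
    have h3 : Px (Om ι a b s) (In 1) =
        Bx (Sum.elim a'' (fun _ : Unit => 0)) (Sum.elim b'' (fun _ : Unit => 1)) := by
      rw [hOm]
      ext z
      constructor
      · rintro ⟨h4, h5⟩
        rintro (v | v)
        · exact h4 v
        · have h6 : 0 ≤ sn z v := h5.1
          have h7 : sn z v ≤ 2 * ((1 : ℕ) : ℤ) := h5.2
          push_cast at h7
          change 2 * 0 ≤ sn z v ∧ sn z v ≤ 2 * 1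
          omega
      · intro h4
        refine ⟨fun v => h4 (Sum.inl v), ?_⟩
        have h5 : 2 * 0 ≤ sn z () ∧ sn z () ≤ 2 * 1 := h4 (Sum.inr ())
        show 0 ≤ sn z () ∧ sn z () ≤ 2 * ((1 : ℕ) : ℤ)
        push_cast
        omega
    have h4 : ∀ v, a v ≤ a'' v ∧ b'' v ≤ b v := by
      intro v
      have e1 : (fun w => 2 * a'' w) ∈ Om ι a b s := by
        rw [hOm]
        exact fun w => ⟨le_rfl, mul_le_mul_of_nonneg_left (hab'' w) (by norm_num)⟩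
      have e2 : (fun w => 2 * b'' w) ∈ Om ι a b s := by
        rw [hOm]
        exact fun w => ⟨mul_le_mul_of_nonneg_left (hab'' w) (by norm_num), le_rfl⟩
      have e3 : 2 * a v ≤ 2 * a'' v := (e1.1 v).1
      have e4 : 2 * b'' v ≤ 2 * b v := (e2.1 v).2
      omega
    rw [h2]
    rw [h3] at h1
    refine ex_trans h1 (bx_ex ?_ (k + 1))
    rintro (v | v)
    · exact ⟨(h4 v).1, hab'' v, (h4 v).2⟩
    · exact ⟨le_rfl, zero_le_one, le_rfl⟩
  · refine ⟨⟨fun z hz => hz.1, fun z _ d hd => hfs hd⟩, fun z _ => ?_⟩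
    unfold dm
    refine Finset.card_le_card_of_injOn Sum.inl ?_ fun _ _ _ _ e => Sum.inl_injective e
    intro v hv
    have h1 := (Finset.mem_filter.1 hv).2
    exact Finset.mem_filter.2 ⟨Finset.mem_univ _, h1⟩
  · intro S hS
    have h1 : Fb (fun z : Cl (V ⊕ Unit) => fs z) {z : Cl (V ⊕ Unit) | fs z ∈ F ∧ sn z () = 2} S
        = Px (Fc S) (Fc (fun _ : Unit => (2 : ℤ))) := by
      ext z
      constructor
      · rintro ⟨⟨_, h3⟩, h4⟩
        exact ⟨h4, fun _ => Or.inl h3⟩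
      · rintro ⟨h3, h4⟩
        exact ⟨⟨h.cx.clo S hS _ h3, gn_two (h4 ())⟩, h3⟩
    rw [h1]
    exact cs_px (cs_fc k S) (cs_fc k _)
  · exact fun z _ => fa_refl _

theorem gd_graph (hL : Cx L) (hLk : ∀ c ∈ L, dm c ≤ k) (hF : Cx F) (α : Cl V → Cl J)
    (hα : Cub F L α) (hs : Soft k F L α) :
    ∃ a' b' : J ⊕ V → ℤ, Gd k L (Sum.inl : J → J ⊕ V) a' b' (gF F α) (gk α) := by
  obtain ⟨h1, h2, h3, _⟩ := gF_cx hF hL hα
  obtain ⟨a', b', hab, hsub, _⟩ := exists_bx (Px L F) (cx_px hL hF).fin (fun _ => 0) (fun _ => 0)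
  refine ⟨a', b', ?_⟩
  exact { cL := hL
          dL := hLk
          cx := h1
          bx := fun z hz => hsub ⟨(h3 z hz).1, hz.1⟩
          km := h2
          ki := fun z hz => (h3 z hz).2.1
          cs := gF_cs hF hL hα hs
          ab := hab
          ob := by
            intro s hsL
            obtain ⟨_, P, hP, _⟩ := (hs s hsL).1
            have h4 : (Sum.elim s P : Cl (J ⊕ V)) ∈ Bx a' b' := hsub ⟨hsL, hP.1⟩
            refine ⟨Sum.elim (fun j => s j / 2) (fun v => a' (Sum.inr v)),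
              Sum.elim (fun j => (s j + 1) / 2) (fun v => b' (Sum.inr v)), ?_, ?_⟩
            · rintro (j | v)
              · change s j / 2 ≤ (s j + 1) / 2
                omega
              · exact hab (Sum.inr v)
            · ext c
              constructor
              · rintro ⟨h5, h6⟩
                rintro (j | v)
                · have h7 : co Sum.inl c ∈ Fc s := h6
                  rw [gn_fc] at h7
                  exact h7 j
                · exact h5 (Sum.inr v)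
              · intro h5
                constructor
                · rintro (j | v)
                  · have h7 : 2 * (s j / 2) ≤ c (Sum.inl j) ∧ c (Sum.inl j) ≤ 2 * ((s j + 1) / 2) :=
                      h5 (Sum.inl j)
                    have h8 : 2 * a' (Sum.inl j) ≤ s j ∧ s j ≤ 2 * b' (Sum.inl j) := h4 (Sum.inl j)
                    omega
                  · exact h5 (Sum.inr v)
                · have h7 : co Sum.inl c ∈ Fc s := by
                    rw [gn_fc]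
                    exact fun j => h5 (Sum.inl j)
                  exact h7 }

theorem gen_pre (hk : 1 ≤ k) (hL : Cx L) (hLk : ∀ c ∈ L, dm c ≤ k) (hF : Cx F)
    (α : Cl V → Cl J) (hα : Cub F L α) (hs : Soft k F L α) :
    ∃ (V' : Type) (_ : Fintype V') (a' b' : V' → ℤ) (F' : Set (Cl V'))
      (κ' : Cl V' → Cl J) (π : Cl V' → Cl V), Cx F' ∧ F' ⊆ Bx a' b' ∧ (∀ v, a' v ≤ b' v) ∧
      Mon F' L κ' ∧ (∀ s ∈ L, Ex (k + 1) (Fb κ' F' s) (Bx a' b')) ∧ Cub F' F π ∧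
      Soft k F' F π ∧ ∀ z ∈ F', Fa (α (π z)) (κ' z) := by
  obtain ⟨hG1, _, hG3, hG4⟩ := gF_cx hF hL hα
  obtain ⟨a₀, b₀, hGd⟩ := gd_graph hL hLk hF α hα hs
  obtain ⟨V₁, iV₁, ι₁, a₁, b₁, F₁, T₁, κ₁, π₁, hGo₁, hC₁, hS₁, hK₁⟩ := start hGd
  obtain ⟨V₂, iV₂, ι₂, a₂, b₂, F₂, T₂, κ₂, π₂, hGo₂, hC₂, hS₂, hK₂⟩ := go_iter hk hGo₁ k
  have h1 : min (0 + 2 * k) k = k := by omega
  rw [h1] at hGo₂
  obtain ⟨V₃, iV₃, a₃, b₃, F₃, κ₃, π₃, hcx₃, hbx₃, hab₃, hM₃, hE₃, hC₃, hS₃, hK₃⟩ := go_fin hGo₂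
  obtain ⟨hc1, hs1⟩ := gn_comp hGo₁.cx hG1 hC₁ hG4 hS₁ (gF_soft hF hL hα)
  obtain ⟨hc2, hs2⟩ := gn_comp hGo₂.cx hGo₁.cx hC₂ hc1 hS₂ hs1
  obtain ⟨hc3, hs3⟩ := gn_comp hcx₃ hGo₂.cx hC₃ hc2 hS₃ hs2
  refine ⟨V₃, iV₃, a₃, b₃, F₃, κ₃, _, hcx₃, hbx₃, hab₃, hM₃, hE₃, hc3, hs3, ?_⟩
  intro z hz
  have e3 := hC₃.map z hz
  have e2 := hC₂.map _ e3
  have e1 := hC₁.map _ e2
  exact fa_trans (hG3 _ e1).2.2 (fa_trans (hK₁ _ e2) (fa_trans (hK₂ _ e3) (hK₃ z hz)))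

end MNG
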