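import Pool.Agent.MNG.FIB
import Pool.Agent.MNG.GN

/-!
# MNG-GEN: towers are generic

Every soft map `F → X_b` is dominated by a soft map from a later complex of the tower.
-/

set_option autoImplicit false

noncomputable section

namespace MNG

open AGM (Ei Bl Sp)
open Set Topology

theorem gen {k : ℕ} (hk : 1 ≤ k) (T : Tw k) : Gen T := by
  intro b V _ F a hF hd ha hs
  obtain ⟨V', _, a', b', F', κ', π, hF', hB, hab, hκ, hex, hπ, hπs, hov⟩ :=
    gen_pre hk (cx_X T b) (fun c hc => hc.2) hF a ha hs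
  have h1 : Ab T b F' κ' := fib T b F' a' b' κ' hF' hB hab hκ hex
  have h2 : Ab T b F a := ab_soft' hF' h1 π hπ hπs hov
  have h3 : sk k F = F := by
    ext c
    exact ⟨fun h => h.1, fun h => ⟨h, hd c h⟩⟩
  obtain ⟨n, hn, f, h4, h5, h6⟩ := ab_pos hF h2
  rw [h3] at h4 h5
  exact ⟨n, hn, f, h4, h5, h6⟩

end MNG
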