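import Pool.Agent.MNG.T1b

/-!
# MNG-T8: a collapse gives a retraction

Take `j` larger than the number of coordinates: only the constructor `pair` occurs. One pair `(r, t)`: the cell `|t|` retracts onto the union of its facets different from `r` (project from a point above `r`), this set is contained in the body of the smaller complex; the points of `|t|` outside the union of these facets are in no other cell.
-/

set_option autoImplicit false

noncomputable section

namespace MNG

open AGM (Ei Bl Sp)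
open Set Topology

/-- a point of the cell with one coordinate at an end is in the corresponding facet -/
private theorem T8_facet {J : Type} [DecidableEq J] {t : Cl J} {y : J → ℝ} (hy : y ∈ bo t)
    {j : J} (hj : t j % 2 = 1) {η : ℤ} (hη : η = 1 ∨ η = -1) (h : 2 * y j - (t j : ℝ) = (η : ℝ)) :
    Fa (Function.update t j (t j + η)) t ∧ y ∈ bo (Function.update t j (t j + η)) := by
  constructor
  · intro l
    by_cases hl : l = j
    · subst hl
      simp only [Function.update_self]
      right
      refine ⟨hj, ?_⟩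
      rcases hη with h1 | h1
      · right; rw [h1]
      · left; rw [h1]; ring
    · left
      simp [Function.update_of_ne hl]
  · intro l
    by_cases hl : l = j
    · subst hl
      simp only [Function.update_self]
      have e1 : (t l + η) % 2 = 0 := by
        rcases hη with h1 | h1 <;> rw [h1] <;> omega
      rw [e1]
      push_cast
      have : 2 * y l - ((t l : ℝ) + (η : ℝ)) = 0 := by linarith
      rw [this]; simp
    · rw [Function.update_of_ne hl]
      exact hy l

/-- the scaling factor of the projection -/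
private def T8_a {J : Type} (t : Cl J) (i : J) (ε : ℝ) (x : J → ℝ) : ℝ :=
  (3 - ε * (2 * x i - (t i : ℝ))) / 4

open Classical in
private def T8_m {J : Type} [Fintype J] (t : Cl J) (i : J) (x : J → ℝ) : ℝ :=
  ‖(fun j => if j = i then (0 : ℝ) else 2 * x j - (t j : ℝ))‖

private def T8_mu {J : Type} [Fintype J] (t : Cl J) (i : J) (ε : ℝ) (x : J → ℝ) : ℝ :=
  max (T8_a t i ε x) (T8_m t i x)

open Classical in
private def T8_p {J : Type} (t : Cl J) (i : J) (ε : ℝ) : J → ℝ :=
  fun j => if j = i then ((t j : ℝ) + 3 * ε) / 2 else (t j : ℝ) / 2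

private def T8_s {J : Type} [Fintype J] (t : Cl J) (i : J) (ε : ℝ) (x : J → ℝ) : J → ℝ :=
  fun j => T8_p t i ε j + (T8_mu t i ε x)⁻¹ * (x j - T8_p t i ε j)

private theorem T8_a_le {J : Type} {t : Cl J} {i : J} {ε : ℝ} (hε : ε = 1 ∨ ε = -1)
    (hi : t i % 2 = 1) {x : J → ℝ} (hx : x ∈ bo t) : T8_a t i ε x ≤ 1 ∧ 1 / 2 ≤ T8_a t i ε x := by
  have h := hx i
  rw [hi] at h
  push_cast at h
  rw [abs_le] at h
  unfold T8_a
  rcases hε with h1 | h1 <;> rw [h1] <;> constructor <;> linarith [h.1, h.2]

private theorem T8_abs {J : Type} {t : Cl J} {x : J → ℝ} (hx : x ∈ bo t) (j : J) :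
    |2 * x j - (t j : ℝ)| ≤ 1 := by
  refine (hx j).trans ?_
  have : t j % 2 ≤ 1 := by omega
  exact_mod_cast this

private theorem T8_even {J : Type} {t : Cl J} {x : J → ℝ} (hx : x ∈ bo t) (j : J)
    (hj : ¬ t j % 2 = 1) : 2 * x j - (t j : ℝ) = 0 := by
  have h := hx j
  have : t j % 2 = 0 := by omega
  rw [this] at h
  push_cast at h
  exact abs_eq_zero.mp (le_antisymm h (abs_nonneg _))

private theorem T8_m_le {J : Type} [Fintype J] {t : Cl J} {i : J} {x : J → ℝ} (hx : x ∈ bo t) :
    T8_m t i x ≤ 1 := by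
  unfold T8_m
  rw [pi_norm_le_iff_of_nonneg zero_le_one]
  intro j
  by_cases hj : j = i
  · simp [hj]
  · simp only [hj, if_false, Real.norm_eq_abs]
    exact T8_abs hx j

private theorem T8_le_m {J : Type} [Fintype J] {t : Cl J} {i : J} (x : J → ℝ) {j : J}
    (hj : j ≠ i) : |2 * x j - (t j : ℝ)| ≤ T8_m t i x := by
  classical
  have h := norm_le_pi_norm (fun j => if j = i then (0 : ℝ) else 2 * x j - (t j : ℝ)) j
  simp only [hj, if_false, Real.norm_eq_abs] at h
  unfold T8_m
  exact h

private theorem T8_m_att {J : Type} [Fintype J] {t : Cl J} {i : J} (x : J → ℝ)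
    (h0 : 0 < T8_m t i x) : ∃ j, j ≠ i ∧ |2 * x j - (t j : ℝ)| = T8_m t i x := by
  classical
  by_contra hne
  push Not at hne
  have : T8_m t i x < T8_m t i x := by
    conv_lhs => unfold T8_m
    rw [pi_norm_lt_iff h0]
    intro j
    by_cases hj : j = i
    · simp only [hj, if_true, norm_zero]; exact h0
    · simp only [hj, if_false, Real.norm_eq_abs]
      exact lt_of_le_of_ne (T8_le_m x hj) (hne j hj)
  exact lt_irrefl _ this

private theorem T8_mu_pos {J : Type} [Fintype J] {t : Cl J} {i : J} {ε : ℝ}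
    (hε : ε = 1 ∨ ε = -1) (hi : t i % 2 = 1) {x : J → ℝ} (hx : x ∈ bo t) :
    1 / 2 ≤ T8_mu t i ε x := (T8_a_le hε hi hx).2.trans (le_max_left _ _)

private theorem T8_mu_le {J : Type} [Fintype J] {t : Cl J} {i : J} {ε : ℝ}
    (hε : ε = 1 ∨ ε = -1) (hi : t i % 2 = 1) {x : J → ℝ} (hx : x ∈ bo t) :
    T8_mu t i ε x ≤ 1 := max_le (T8_a_le hε hi hx).1 (T8_m_le hx)

private theorem T8_s_i {J : Type} [Fintype J] {t : Cl J} {i : J} {ε : ℝ}
    (hε : ε = 1 ∨ ε = -1) (x : J → ℝ) :
    2 * T8_s t i ε x i - (t i : ℝ) = ε * (3 - 4 * ((T8_mu t i ε x)⁻¹ * T8_a t i ε x)) := by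
  have hε2 : ε * ε = 1 := by rcases hε with h | h <;> rw [h] <;> norm_num
  unfold T8_s T8_p T8_a
  simp only [if_true]
  have : ε * (3 - 4 * ((T8_mu t i ε x)⁻¹ * ((3 - ε * (2 * x i - (t i : ℝ))) / 4))) =
      3 * ε - (T8_mu t i ε x)⁻¹ * (3 * ε - (ε * ε) * (2 * x i - (t i : ℝ))) := by ring
  rw [this, hε2]
  ring

private theorem T8_s_j {J : Type} [Fintype J] {t : Cl J} {i : J} {ε : ℝ} (x : J → ℝ) {j : J}
    (hj : j ≠ i) :
    2 * T8_s t i ε x j - (t j : ℝ) = (T8_mu t i ε x)⁻¹ * (2 * x j - (t j : ℝ)) := by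
  unfold T8_s T8_p
  simp only [hj, if_false]
  ring

private theorem T8_s_mem {J : Type} [Fintype J] {t : Cl J} {i : J} {ε : ℝ}
    (hε : ε = 1 ∨ ε = -1) (hi : t i % 2 = 1) {x : J → ℝ} (hx : x ∈ bo t) :
    T8_s t i ε x ∈ bo t := by
  have hmu := T8_mu_pos hε hi hx
  have hmu1 := T8_mu_le hε hi hx
  have hpos : 0 < T8_mu t i ε x := by linarith
  have hinv : 1 ≤ (T8_mu t i ε x)⁻¹ := (one_le_inv₀ hpos).mpr hmu1
  intro j
  by_cases hj : j = i
  · subst hj
    rw [T8_s_i hε, hi]
    have ha := T8_a_le hε hi hx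
    have h1 : (T8_mu t j ε x)⁻¹ * T8_a t j ε x ≤ 1 := by
      rw [inv_mul_le_iff₀ hpos, mul_one]
      exact le_max_left _ _
    have h2 : 1 / 2 ≤ (T8_mu t j ε x)⁻¹ * T8_a t j ε x := by
      calc (1 : ℝ) / 2 ≤ 1 * T8_a t j ε x := by linarith [ha.2]
        _ ≤ _ := mul_le_mul_of_nonneg_right hinv (by linarith [ha.2])
    push_cast
    rw [abs_mul]
    have : |ε| = 1 := by rcases hε with h | h <;> rw [h] <;> norm_num
    rw [this, one_mul, abs_le]
    constructor <;> linarith
  · rw [T8_s_j x hj]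
    by_cases hodd : t j % 2 = 1
    · rw [hodd, abs_mul, abs_of_pos (inv_pos.mpr hpos)]
      push_cast
      rw [inv_mul_le_iff₀ hpos, mul_one]
      exact (T8_le_m x hj).trans (le_max_right _ _)
    · rw [T8_even hx j hodd]
      have : t j % 2 = 0 := by omega
      rw [this]; simp

private theorem T8_cont {J : Type} [Fintype J] {t : Cl J} {i : J} {ε : ℝ}
    (hε : ε = 1 ∨ ε = -1) (hi : t i % 2 = 1) : ContinuousOn (T8_s t i ε) (bo t) := by
  classical
  have ha : Continuous (T8_a t i ε) := by
    unfold T8_a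
    fun_prop
  have hm : Continuous (T8_m t i) := by
    unfold T8_m
    apply Continuous.norm
    apply continuous_pi
    intro j
    by_cases hj : j = i
    · simp only [hj, if_true]; exact continuous_const
    · simp only [hj, if_false]; fun_prop
  have hmu : Continuous (T8_mu t i ε) := ha.max hm
  have hinv : ContinuousOn (fun x => (T8_mu t i ε x)⁻¹) (bo t) := by
    apply ContinuousOn.inv₀ hmu.continuousOn
    intro x hx
    have := T8_mu_pos hε hi hx
    intro h0
    rw [h0] at this
    norm_num at this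
  apply continuousOn_pi.mpr
  intro j
  unfold T8_s
  apply ContinuousOn.add continuousOn_const
  apply ContinuousOn.mul hinv
  apply ContinuousOn.sub _ continuousOn_const
  exact (continuous_apply j).continuousOn

private theorem T8_fix {J : Type} [Fintype J] {t : Cl J} {i : J} {ε : ℝ} {x : J → ℝ}
    (h : T8_mu t i ε x = 1) : T8_s t i ε x = x := by
  funext j
  unfold T8_s
  rw [h]
  ring

/-- the elementary retraction -/
private theorem T8_step {J : Type} [Fintype J] {K : Set (Cl J)} (hKf : K.Finite) (hKc : Clo K)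
    {r t : Cl J} (hr : r ∉ K) (ht : t ∉ K) (hf : Ft r t)
    (hc : Clo (insert r (insert t K))) :
    ∃ σ : (J → ℝ) → J → ℝ, ContinuousOn σ (Bo (insert r (insert t K))) ∧
      MapsTo σ (Bo (insert r (insert t K))) (Bo K) ∧ ∀ x ∈ Bo K, σ x = x := by
  classical
  obtain ⟨i, hi, hri, hrj⟩ := hf
  obtain ⟨η, hη, hrη⟩ : ∃ η : ℤ, (η = 1 ∨ η = -1) ∧ r i = t i + η := by
    rcases hri with h | h
    · exact ⟨-1, Or.inr rfl, by rw [h]; ring⟩
    · exact ⟨1, Or.inl rfl, h⟩
  have hε : ((η : ℝ) = 1 ∨ (η : ℝ) = -1) := by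
    rcases hη with h | h <;> rw [h] <;> norm_num
  have hD : ∀ d, Fa d t → d ≠ t → d ≠ r → d ∈ K := by
    intro d hd h1 h2
    have := hc t (by simp) d hd
    simp only [Set.mem_insert_iff] at this
    rcases this with h | h | h
    · exact absurd h h2
    · exact absurd h h1
    · exact h
  have hrt : Fa r t := by
    intro j
    by_cases hj : j = i
    · subst hj; exact Or.inr ⟨hi, hri⟩
    · exact Or.inl (hrj j hj)
  have hBo : Bo (insert r (insert t K)) = bo t ∪ Bo K := by
    ext x
    constructor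
    · rintro ⟨c, hc', hx⟩
      simp only [Set.mem_insert_iff] at hc'
      rcases hc' with h | h | h
      · left; rw [h] at hx; exact bo_mono hrt hx
      · left; rw [h] at hx; exact hx
      · right; exact ⟨c, h, hx⟩
    · rintro (hx | ⟨c, hc', hx⟩)
      · exact ⟨t, by simp, hx⟩
      · exact ⟨c, by simp [hc'], hx⟩
  have hfix : ∀ x ∈ bo t, x ∈ Bo K → T8_s t i (η : ℝ) x = x := by
    intro x hx hxK
    apply T8_fix
    have hcK := cr_mem hKc hxK
    have hct := cr_min hx
    have hxc := cr_bo x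
    set c := cr x with hcdef
    have hne : c ≠ t := fun h => ht (h ▸ hcK)
    have hner : c ≠ r := fun h => hr (h ▸ hcK)
    have hval : ∀ j, c j ≠ t j → t j % 2 = 1 ∧ (c j = t j - 1 ∨ c j = t j + 1) ∧
        2 * x j = (c j : ℝ) := by
      intro j hj
      rcases hct j with h | ⟨h1, h2⟩
      · exact absurd h hj
      · refine ⟨h1, h2, ?_⟩
        have h3 : ¬ c j % 2 = 1 := by rcases h2 with h | h <;> omega
        have := T8_even hxc j h3
        linarith
    apply le_antisymm (T8_mu_le hε hi hx)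
    by_cases hex : ∃ j, j ≠ i ∧ c j ≠ t j
    · obtain ⟨j, hji, hj⟩ := hex
      obtain ⟨-, h2, h3⟩ := hval j hj
      refine le_trans ?_ ((T8_le_m x hji).trans (le_max_right _ _))
      rw [h3]
      rcases h2 with h | h <;> rw [h] <;> push_cast <;> norm_num
    · push Not at hex
      have hci : c i ≠ t i := by
        intro h
        apply hne
        funext j
        by_cases hj : j = i
        · rw [hj]; exact h
        · exact hex j hj
      obtain ⟨-, h2, h3⟩ := hval i hci
      have hcr : c i ≠ r i := by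
        intro h
        apply hner
        funext j
        by_cases hj : j = i
        · rw [hj]; exact h
        · rw [hex j hj, hrj j hj]
      have h4 : c i = t i - η := by
        rw [hrη] at hcr
        rcases hη with h | h <;> rw [h] at hcr ⊢ <;> omega
      refine le_trans ?_ (le_max_left _ _)
      unfold T8_a
      rw [h3, h4]
      push_cast
      have hε2 : (η : ℝ) * η = 1 := by rcases hε with h | h <;> rw [h] <;> norm_num
      have : (η : ℝ) * ((t i : ℝ) - η - (t i : ℝ)) = - (η * η) := by ring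
      rw [this, hε2]
      norm_num
  have hmaps : ∀ x ∈ bo t, T8_s t i (η : ℝ) x ∈ Bo K := by
    intro x hx
    have hs := T8_s_mem hε hi hx
    have hpos : 0 < T8_mu t i (η : ℝ) x := by linarith [T8_mu_pos hε hi hx]
    by_cases hcase : T8_m t i x ≤ T8_a t i (η : ℝ) x
    · have hmu : T8_mu t i (η : ℝ) x = T8_a t i (η : ℝ) x := max_eq_left hcase
      have h1 : 2 * T8_s t i (η : ℝ) x i - (t i : ℝ) = ((-η : ℤ) : ℝ) := by
        rw [T8_s_i hε, ← hmu, inv_mul_cancel₀ hpos.ne']
        push_cast; ring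
      have h2 := T8_facet hs hi (η := -η) (by rcases hη with h | h <;> rw [h] <;> simp) h1
      refine ⟨_, hD _ h2.1 ?_ ?_, h2.2⟩
      · intro h
        have := congrFun h i
        simp only [Function.update_self] at this
        rcases hη with h' | h' <;> rw [h'] at this <;> omega
      · intro h
        have := congrFun h i
        simp only [Function.update_self] at this
        rw [hrη] at this
        rcases hη with h' | h' <;> rw [h'] at this <;> omega
    · push Not at hcase
      have hmu : T8_mu t i (η : ℝ) x = T8_m t i x := max_eq_right hcase.le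
      obtain ⟨j, hji, hj⟩ := T8_m_att x (t := t) (i := i) (by rw [← hmu]; exact hpos)
      have habs : |2 * T8_s t i (η : ℝ) x j - (t j : ℝ)| = 1 := by
        rw [T8_s_j x hji, abs_mul, abs_of_pos (inv_pos.mpr hpos), hj, ← hmu,
          inv_mul_cancel₀ hpos.ne']
      have hodd : t j % 2 = 1 := by
        by_contra hne
        have := T8_even hs j hne
        rw [this] at habs
        norm_num at habs
      obtain ⟨ζ, hζ, hζ2⟩ : ∃ ζ : ℤ, (ζ = 1 ∨ ζ = -1) ∧
          2 * T8_s t i (η : ℝ) x j - (t j : ℝ) = (ζ : ℝ) := by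
        rcases eq_or_eq_neg_of_abs_eq habs with h | h
        · exact ⟨1, Or.inl rfl, by rw [h]; norm_num⟩
        · exact ⟨-1, Or.inr rfl, by rw [h]; norm_num⟩
      have h2 := T8_facet hs hodd hζ hζ2
      refine ⟨_, hD _ h2.1 ?_ ?_, h2.2⟩
      · intro h
        have := congrFun h j
        simp only [Function.update_self] at this
        rcases hζ with h' | h' <;> rw [h'] at this <;> omega
      · intro h
        have := congrFun h i
        rw [Function.update_of_ne (Ne.symm hji), hrη] at this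
        rcases hη with h' | h' <;> rw [h'] at this <;> omega
  refine ⟨fun x => if x ∈ bo t then T8_s t i (η : ℝ) x else x, ?_, ?_, ?_⟩
  · rw [hBo]
    apply ContinuousOn.union_of_isClosed
    · refine (T8_cont hε hi).congr ?_
      intro x hx
      simp only [hx, if_true]
    · refine continuousOn_id.congr ?_
      intro x hx
      by_cases hxt : x ∈ bo t
      · simp only [hxt, if_true, id]; exact hfix x hxt hx
      · simp only [hxt, if_false, id]
    · exact bo_closed t
    · exact (Bo_compact hKf).isClosed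
  · intro x hx
    rw [hBo] at hx
    by_cases hxt : x ∈ bo t
    · simp only [hxt, if_true]; exact hmaps x hxt
    · simp only [hxt, if_false]
      exact hx.resolve_left hxt
  · intro x hx
    by_cases hxt : x ∈ bo t
    · simp only [hxt, if_true]; exact hfix x hxt hx
    · simp only [hxt, if_false]

private theorem T8_dm_le {J : Type} [Fintype J] (c : Cl J) : dm c ≤ Fintype.card J := by
  unfold dm
  exact (Finset.card_le_card (Finset.filter_subset _ _)).trans_eq Finset.card_univ

private theorem T8_ind {J : Type} [Fintype J] {K' K : Set (Cl J)} (hK' : Cx K')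
    (h : Ex (Fintype.card J + 1) K' K) : (K.Finite ∧ Clo K ∧ K' ⊆ K) ∧
      ∃ ρ : (J → ℝ) → J → ℝ, ContinuousOn ρ (Bo K) ∧
      MapsTo ρ (Bo K) (Bo K') ∧ ∀ x ∈ Bo K', ρ x = x := by
  induction h with
  | refl =>
    exact ⟨⟨hK'.fin, hK'.clo, subset_rfl⟩, id, continuousOn_id, fun x hx => hx, fun x _ => rfl⟩
  | pair K r t _ hr ht hft hclo ih =>
    obtain ⟨⟨h1, h2, h3⟩, ρ, hρ1, hρ2, hρ3⟩ := ih
    obtain ⟨σ, hσ1, hσ2, hσ3⟩ := T8_step h1 h2 hr ht hft hclo
    refine ⟨⟨(h1.insert t).insert r, hclo, ?_⟩, ρ ∘ σ, hρ1.comp hσ1 hσ2, hρ2.comp hσ2, ?_⟩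
    · intro c hc
      exact Set.mem_insert_of_mem _ (Set.mem_insert_of_mem _ (h3 hc))
    · intro x hx
      have hxK : x ∈ Bo K := by
        obtain ⟨c, hc, hxc⟩ := hx
        exact ⟨c, h3 hc, hxc⟩
      simp only [Function.comp_apply]
      rw [hσ3 x hxK, hρ3 x hx]
  | cell K c _ _ hdm _ _ =>
    exact absurd (T8_dm_le c) (by omega)

theorem ex_retract {J : Type} [Fintype J] {K' K : Set (Cl J)} (hK' : Cx K')
    (h : ∀ j, Ex j K' K) : ∃ ρ : (J → ℝ) → J → ℝ, ContinuousOn ρ (Bo K) ∧
      MapsTo ρ (Bo K) (Bo K') ∧ ∀ x ∈ Bo K', ρ x = x :=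
  (T8_ind hK' (h _)).2

theorem ex_cs {J : Type} [Fintype J] {K' K : Set (Cl J)} (hK' : Cx K')
    (h : ∀ j, Ex j K' K) (d : ℕ) (hc : Cs d (Bo K)) : Cs d (Bo K') := by
  obtain ⟨⟨-, -, h3⟩, ρ, hρ1, hρ2, hρ3⟩ := T8_ind hK' (h _)
  refine cs_dom (Bo K) (Bo K') ρ id hρ1 continuousOn_id hρ2 ?_ hρ3 hc
  rintro x ⟨c, hcc, hx⟩
  exact ⟨c, h3 hcc, hx⟩

end MNG
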