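import Pool.Agent.MNG.M1
import Pool.Agent.MNG.C5
import Pool.Agent.MNG.T8

/-!
# MNG-GS0: STEP: the complex `T' = Om × 2 ∪ A × [0, 2]`

`aa_*`: `A = T ∪ sk (k - 1) F` is a complex, cells outside `T` have dimension `≤ k - 1`. `tq_cx`: `T'` is a finite complex, `kq` is a carrier (a face `z'` with last coordinate `4` of a cell `z` with last coordinate `3`: `co ι (fs z') ≤ co ι (fs z) ≤ κ (fs z)` by `Gd.ki`). `tq_fb`: the part over `s`: last coordinate `4`: the cells of `Om ι a b s`.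
`t_cs`: `Fb κ T s` is `Cs d` for all `d`: `ex_cs` from the box `Om ι a b s` (`cs_convex`, `Bo_bx`).
-/

set_option autoImplicit false

noncomputable section

namespace MNG

open AGM (Ei Bl Sp)
open Set Topology

variable {J V : Type} [Fintype J] [Fintype V] {k j : ℕ} {L : Set (Cl J)}
  {F T : Set (Cl V)} {κ : Cl V → Cl J} {ι : J → V} {a b : V → ℤ}

omit [Fintype V] in
private theorem GS0_fs {W : Type} {d z : Cl (V ⊕ W)} (h : Fa d z) : Fa (fs d) (fs z) :=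
  fun v => h (Sum.inl v)

omit [Fintype V] in
private theorem GS0_sn {W : Type} {d z : Cl (V ⊕ W)} (h : Fa d z) : Fa (sn d) (sn z) :=
  fun v => h (Sum.inr v)

omit [Fintype J] [Fintype V] in
private theorem GS0_co {c d : Cl V} (ι : J → V) (h : Fa d c) : Fa (co ι d) (co ι c) :=
  fun j => h (ι j)

private theorem GS0_four {u v : ℤ} (h : fc u v) (hv : v = 4) : u = 4 := by
  unfold fc at h
  omega

theorem aa_cx (h : Go k L ι a b F T κ j) : Cx (Aa k F T) ∧ Aa k F T ⊆ F ∧ T ⊆ Aa k F T ∧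
    ∀ c ∈ Aa k F T, c ∉ T → dm c ≤ k - 1 := by
  have hsub : Aa k F T ⊆ F := by
    rintro c (hc | hc)
    · exact h.TF hc
    · exact hc.1
  refine ⟨⟨h.cx.fin.subset hsub, ?_⟩, hsub, fun c hc => Or.inl hc, ?_⟩
  · rintro c (hc | hc) d hd
    · exact Or.inl (h.cT c hc d hd)
    · exact Or.inr ⟨h.cx.clo c hc.1 d hd, (dm_mono hd).trans hc.2⟩
  · rintro c (hc | hc) hcT
    · exact absurd hc hcT
    · exact hc.2

theorem tq_cx (h : Go k L ι a b F T κ j) :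
    Cx (Tq k L ι a b F T) ∧ Mon (Tq k L ι a b F T) L (kq ι κ) := by
  obtain ⟨hA, hAF, -, -⟩ := aa_cx h
  refine ⟨⟨?_, ?_⟩, ⟨?_, ?_⟩⟩
  · refine (cx_px (cx_bx a b) (cx_in 2)).fin.subset ?_
    rintro z (⟨h1, h2, -⟩ | ⟨h1, h2⟩)
    · refine ⟨h2, ?_, ?_⟩
      · show 0 ≤ sn z ()
        omega
      · show sn z () ≤ 2 * ((2 : ℕ) : ℤ)
        push_cast
        omega
    · exact ⟨h.bx (hAF h2), h1⟩
  · rintro z (⟨h1, h2, h3⟩ | ⟨h1, h2⟩) d hd
    · refine Or.inl ⟨GS0_four (hd (Sum.inr ())) h1, (cx_bx a b).clo _ h2 _ (GS0_fs hd),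
        h.cL.clo _ h3 _ (GS0_co ι (GS0_fs hd))⟩
    · exact Or.inr ⟨(cx_in 2).clo _ h1 _ (GS0_sn hd), hA.clo _ h2 _ (GS0_fs hd)⟩
  · intro z hz
    unfold kq
    split_ifs with hu
    · rcases hz with ⟨-, -, h3⟩ | ⟨-, h2⟩
      · exact h3
      · exact h.cL.clo _ (h.km.map _ (hAF h2)) _ (h.ki _ (hAF h2))
    · rcases hz with ⟨h1, -, -⟩ | ⟨-, h2⟩
      · exact absurd h1 hu
      · exact h.km.map _ (hAF h2)
  · intro z hz d hd
    unfold kq
    by_cases hu : sn z () = 4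
    · have hu' : sn d () = 4 := GS0_four (hd (Sum.inr ())) hu
      rw [if_pos hu, if_pos hu']
      exact GS0_co ι (GS0_fs hd)
    · rw [if_neg hu]
      have hzF : fs z ∈ F := by
        rcases hz with ⟨h1, -, -⟩ | ⟨-, h2⟩
        · exact absurd h1 hu
        · exact hAF h2
      have h3 : Fa (κ (fs d)) (κ (fs z)) := h.km.mono _ hzF _ (GS0_fs hd)
      split_ifs with hu'
      · exact fa_trans (h.ki _ (h.cx.clo _ hzF _ (GS0_fs hd))) h3
      · exact h3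

theorem tq_fb (h : Go k L ι a b F T κ j) (s : Cl J) (hs : s ∈ L) (z : Cl (V ⊕ Unit)) :
    z ∈ Fb (kq ι κ) (Tq k L ι a b F T) s ↔
      (sn z () = 4 ∧ fs z ∈ Om ι a b s) ∨ (sn z ∈ In 2 ∧ fs z ∈ Fb κ (Aa k F T) s) := by
  obtain ⟨hA, hAF, -, -⟩ := aa_cx h
  constructor
  · rintro ⟨hz, hk⟩
    unfold kq at hk
    rcases hz with ⟨h1, h2, h3⟩ | ⟨h1, h2⟩
    · rw [if_pos h1] at hk
      exact Or.inl ⟨h1, h2, hk⟩
    · by_cases hu : sn z () = 4
      · rw [if_pos hu] at hk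
        exact Or.inl ⟨hu, h.bx (hAF h2), hk⟩
      · rw [if_neg hu] at hk
        exact Or.inr ⟨h1, h2, hk⟩
  · rintro (⟨h1, h2, h3⟩ | ⟨h1, h2, h3⟩)
    · refine ⟨Or.inl ⟨h1, h2, h.cL.clo _ hs _ h3⟩, ?_⟩
      unfold kq
      rw [if_pos h1]
      exact h3
    · refine ⟨Or.inr ⟨h1, h2⟩, ?_⟩
      unfold kq
      split_ifs with hu
      · exact fa_trans (h.ki _ (hAF h2)) h3
      · exact h3

theorem t_cs (h : Go k L ι a b F T κ j) (s : Cl J) (hs : s ∈ L) (d : ℕ) :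
    Cs d (Bo (Fb κ T s)) := by
  have hT : Cx T := ⟨h.cx.fin.subset h.TF, h.cT⟩
  have hm : Mon T L κ := ⟨fun c hc => h.km.map c (h.TF hc), fun c hc => h.km.mono c (h.TF hc)⟩
  refine ex_cs (cx_fb hT hm s) (h.eT s hs) d ?_
  obtain ⟨a', b', hab, hO⟩ := h.ob s hs
  rw [hO, Bo_bx a' b' hab]
  have hI : {x : V → ℝ | ∀ v, (a' v : ℝ) ≤ x v ∧ x v ≤ (b' v : ℝ)} =
      Set.Icc (fun v => (a' v : ℝ)) (fun v => (b' v : ℝ)) := by
    ext x
    constructor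
    · intro hx
      exact ⟨fun v => (hx v).1, fun v => (hx v).2⟩
    · intro hx v
      exact ⟨hx.1 v, hx.2 v⟩
  rw [hI]
  refine cs_convex _ (convex_Icc _ _) ⟨fun v => (a' v : ℝ), le_rfl, ?_⟩
  intro v
  show (a' v : ℝ) ≤ (b' v : ℝ)
  exact_mod_cast hab v

end MNG
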