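import Pool.Agent.MNG.GS0
import Pool.Agent.MNG.M4
import Pool.Agent.MNG.T7

/-!
# MNG-GS1: STEP: the continuous map and the fine vertex map

`step_map`: subcomplex `B = A × [0, 1]` (last coordinate in `[0, 2]`), `c₀ (x, z) = x`; targets for `ext_cells`: `C e = Fb κ T (kq e)` if the last coordinate of `e` is `4` or (`≥ 2` and `fs e ∈ T`), else `C e = Fb κ F (kq e)`. Monotone: faces of cells of the first kind with last coordinate `≥ 2`: first kind (`T` closed; `Fa (kq d) (kq e)`); faces with last coordinate `2` which are in `B`: `c₀` maps `bo (fs e)` into itself, `fs e ∈ T`; to be monotone on all of `T'` put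
`C e = Fb κ T (kq e)` for all `e` with `fs e ∈ T` or last coordinate `4`. Dimension of a cell `Q × [1, 2]`, `Q ∈ A \ T`: at most `k` (`aa_cx`; `k ≥ 1`), `Gd.cs`; first kind: `t_cs`.
`step_ms`: `mc_of` (with `hκT = (tq_cx h).2`), `m = max m₀ 1`, `ρ v = round (c (v / (2 m + 1)))`; if the last coordinate of `v` is `≤ 2 m + 1` then `c (v / r) = ` first part `/ r` and `round (x / (2 m + 1)) = (x + m) / (2 m + 1)` for integers `x`. Box: `exists_bx`.
-/

set_option autoImplicit false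

noncomputable section

namespace MNG

open AGM (Ei Bl Sp)
open Set Topology

variable {J V : Type} [Fintype J] [Fintype V] {k j : ℕ} {L : Set (Cl J)}
  {F T : Set (Cl V)} {κ : Cl V → Cl J} {ι : J → V} {a b : V → ℤ}

omit [Fintype J] in
private theorem gs1_dm (z : Cl (V ⊕ Unit)) : dm z ≤ dm (fs z) + 1 := by
  classical
  have h1 : Finset.univ.filter (fun j => z j % 2 = 1) ⊆
      insert (Sum.inr ()) ((Finset.univ.filter (fun j => fs z j % 2 = 1)).map
        ⟨Sum.inl, Sum.inl_injective⟩) := by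
    intro j hj
    rcases j with j | ⟨⟩
    · have h2 := (Finset.mem_filter.1 hj).2
      refine Finset.mem_insert_of_mem (Finset.mem_map.2 ⟨j, ?_, rfl⟩)
      exact Finset.mem_filter.2 ⟨Finset.mem_univ _, h2⟩
    · exact Finset.mem_insert_self _ _
  have h2 := (Finset.card_le_card h1).trans (Finset.card_insert_le _ _)
  rw [Finset.card_map] at h2
  exact h2

private theorem gs1_bo_mono {V : Type} {K L : Set (Cl V)} (h : K ⊆ L) : Bo K ⊆ Bo L := by
  rintro x ⟨c, hc, hx⟩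
  exact ⟨c, h hc, hx⟩

private theorem gs1_cr {V : Type} (x : V ⊕ Unit → ℝ) (hx : x (Sum.inr ()) ≤ 1) :
    sn (cr x) () ≤ 2 := by
  show (if |x (Sum.inr ()) - round (x (Sum.inr ()))| ≤ 0 / 2 then 2 * round (x (Sum.inr ()))
    else 2 * ⌊x (Sum.inr ())⌋ + 1) ≤ 2
  split_ifs with h
  · rw [zero_div, abs_nonpos_iff, sub_eq_zero] at h
    rw [h] at hx
    have h2 : round (x (Sum.inr ())) ≤ 1 := by exact_mod_cast hx
    omega
  · have h2 : ⌊x (Sum.inr ())⌋ ≤ 0 := by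
      by_contra hc
      have h3 : 1 ≤ ⌊x (Sum.inr ())⌋ := by omega
      have h4 : (1 : ℝ) ≤ x (Sum.inr ()) := by
        have h5 := Int.floor_le (x (Sum.inr ()))
        have h6 : (1 : ℝ) ≤ ((⌊x (Sum.inr ())⌋ : ℤ) : ℝ) := by exact_mod_cast h3
        linarith
      have h7 : x (Sum.inr ()) = 1 := le_antisymm hx h4
      apply h
      rw [h7]
      simp
    omega

theorem step_map (hk : 1 ≤ k) (h : Go k L ι a b F T κ j) :
    ∃ c : (V ⊕ Unit → ℝ) → V → ℝ, ContinuousOn c (Bo (Tq k L ι a b F T)) ∧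
      (∀ e ∈ Tq k L ι a b F T, MapsTo c (bo e) (Bo (Fb κ F (kq ι κ e)))) ∧
      ∀ x : V ⊕ Unit → ℝ, x (Sum.inr ()) ≤ 1 → x ∈ Bo (Tq k L ι a b F T) →
        c x = fun v => x (Sum.inl v) := by
  classical
  obtain ⟨hT', hκ'⟩ := tq_cx h
  obtain ⟨_, hAF, _, hAd⟩ := aa_cx h
  have hTc : Cx T := ⟨h.cx.fin.subset h.TF, h.cT⟩
  have hTm : Mon T L κ := ⟨fun c hc => h.km.map c (h.TF hc),
    fun c hc d hd => h.km.mono c (h.TF hc) d hd⟩
  obtain ⟨B, hBdef⟩ : ∃ B : Set (Cl (V ⊕ Unit)), B = {z | z ∈ Tq k L ι a b F T ∧ sn z () ≤ 2} :=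
    ⟨_, rfl⟩
  have hBm : ∀ z, z ∈ B ↔ z ∈ Tq k L ι a b F T ∧ sn z () ≤ 2 := by
    intro z
    rw [hBdef]
    exact Iff.rfl
  have hBT : B ⊆ Tq k L ι a b F T := fun z hz => ((hBm z).1 hz).1
  have hB : Cx B := by
    refine ⟨hT'.fin.subset hBT, fun c hc d hd => ?_⟩
    obtain ⟨h1, h2⟩ := (hBm c).1 hc
    refine (hBm d).2 ⟨hT'.clo c h1 d hd, ?_⟩
    have h3 : fc (sn d ()) (sn c ()) := hd (Sum.inr ())
    unfold fc at h3
    omega
  -- cells which are not at the end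
  have hmem : ∀ e ∈ Tq k L ι a b F T, sn e () ≠ 4 → fs e ∈ Aa k F T := by
    intro e he h4
    rcases he with he | he
    · exact absurd he.1 h4
    · exact he.2
  obtain ⟨C, hC⟩ : ∃ C : Cl (V ⊕ Unit) → Set (Cl V), ∀ e, C e =
      if sn e () = 4 ∨ fs e ∈ T then Fb κ T (kq ι κ e) else Fb κ F (kq ι κ e) :=
    ⟨_, fun e => rfl⟩
  have hCF : ∀ e, C e ⊆ Fb κ F (kq ι κ e) := by
    intro e c hc
    rw [hC] at hc
    split_ifs at hc
    · exact ⟨h.TF hc.1, hc.2⟩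
    · exact hc
  have key : ∃ c : (V ⊕ Unit → ℝ) → V → ℝ, ContinuousOn c (Bo (Tq k L ι a b F T)) ∧
      EqOn c (fun x v => x (Sum.inl v)) (Bo B) ∧
      ∀ e ∈ Tq k L ι a b F T, MapsTo c (bo e) (Bo (C e)) := by
    refine ext_cells hT' hB hBT C (fun e he => ?_) (fun e he d hd => ?_)
      (fun e he heB => ?_) (fun x v => x (Sum.inl v)) ?_ (fun e he => ?_)
    · rw [hC]
      split_ifs
      · exact cx_fb hTc hTm _
      · exact cx_fb h.cx h.km _
    · have hk1 : Fa (kq ι κ d) (kq ι κ e) := hκ'.mono e he d hd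
      by_cases h1 : sn e () = 4 ∨ fs e ∈ T
      · have h2 : sn d () = 4 ∨ fs d ∈ T := by
          rcases h1 with h1 | h1
          · left
            have h3 : fc (sn d ()) (sn e ()) := hd (Sum.inr ())
            unfold fc at h3
            omega
          · right
            exact h.cT _ h1 _ (fun v => hd (Sum.inl v))
        rw [hC, hC, if_pos h1, if_pos h2]
        rintro c ⟨h3, h4⟩
        exact ⟨h3, fa_trans h4 hk1⟩
      · intro c hc
        rw [hC e, if_neg h1]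
        have h2 := hCF d hc
        exact ⟨h2.1, fa_trans h2.2 hk1⟩
    · have hs : kq ι κ e ∈ L := hκ'.map e he
      rw [hC]
      split_ifs with h1
      · exact t_cs h _ hs _
      · obtain ⟨h2, h3⟩ := not_or.1 h1
        have h4 := hAd _ (hmem e he h2) h3
        have h5 := gs1_dm e
        exact cs_le (by omega) (h.cs _ hs)
    · apply Continuous.continuousOn
      exact continuous_pi fun v => continuous_apply (Sum.inl v)
    · obtain ⟨he1, he2⟩ := (hBm e).1 he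
      have h4 : sn e () ≠ 4 := by omega
      have h5 : kq ι κ e = κ (fs e) := if_neg h4
      intro x hx
      refine ⟨fs e, ?_, fun v => hx (Sum.inl v)⟩
      rw [hC, h5]
      split_ifs with h1
      · exact ⟨h1.resolve_left h4, fa_refl _⟩
      · exact ⟨hAF (hmem e he1 h4), fa_refl _⟩
  obtain ⟨c, hc1, hc2, hc3⟩ := key
  refine ⟨c, hc1, fun e he x hx => gs1_bo_mono (hCF e) (hc3 e he hx), fun x hx hxT => ?_⟩
  exact hc2 ⟨cr x, (hBm _).2 ⟨cr_mem hT'.clo hxT, gs1_cr x hx⟩, cr_bo x⟩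

private theorem gs1_round (n : ℤ) (m : ℕ) :
    round ((n : ℝ) / ((2 * m + 1 : ℕ) : ℝ)) = (n + m) / (2 * m + 1) := by
  rw [round_eq, Int.floor_eq_iff]
  have h0 : (0 : ℤ) < 2 * (m : ℤ) + 1 := by omega
  have h1 := Int.ediv_mul_le (n + (m : ℤ)) h0.ne'
  have h2 := Int.lt_ediv_add_one_mul_self (n + (m : ℤ)) h0
  obtain ⟨q, hq⟩ : ∃ q, q = (n + (m : ℤ)) / (2 * (m : ℤ) + 1) := ⟨_, rfl⟩
  rw [← hq] at h1 h2 ⊢
  have h3 : (q : ℝ) * (2 * (m : ℝ) + 1) ≤ (n : ℝ) + m := by exact_mod_cast h1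
  have h4 : (n + (m : ℤ)) + 1 ≤ (q + 1) * (2 * (m : ℤ) + 1) := h2
  have h5 : (n : ℝ) + m + 1 ≤ ((q : ℝ) + 1) * (2 * (m : ℝ) + 1) := by exact_mod_cast h4
  have hpos : (0 : ℝ) < 2 * (m : ℝ) + 1 := by positivity
  have hcast : ((2 * m + 1 : ℕ) : ℝ) = 2 * (m : ℝ) + 1 := by push_cast; ring
  rw [hcast]
  have h6 : (n : ℝ) / (2 * (m : ℝ) + 1) + 1 / 2 =
      ((n : ℝ) + m + 1 / 2) / (2 * (m : ℝ) + 1) := by
    field_simp
    ring
  rw [h6]
  constructor
  · rw [le_div_iff₀ hpos]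
    linarith
  · rw [div_lt_iff₀ hpos]
    linarith

private theorem gs1_crv {W : Type} (v : W → ℤ) : cr (fun w => (v w : ℝ)) = fun w => 2 * v w := by
  funext w
  show (if |(v w : ℝ) - round ((v w : ℝ))| ≤ 0 / 2 then 2 * round ((v w : ℝ))
    else 2 * ⌊(v w : ℝ)⌋ + 1) = 2 * v w
  rw [round_intCast, if_pos (by simp)]

theorem step_ms (hk : 1 ≤ k) (h : Go k L ι a b F T κ j) :
    ∃ (m : ℕ) (ρ : (V ⊕ Unit → ℤ) → V → ℤ) (a₁ b₁ : V ⊕ Unit → ℤ),
      Ms k L ι a b F T κ a₁ b₁ m ρ := by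
  obtain ⟨c, hc, hcm, hcx⟩ := step_map hk h
  obtain ⟨hT', hκ'⟩ := tq_cx h
  obtain ⟨m₀, hm₀⟩ := mc_of h.cx h.km hT' hκ' c hc hcm
  obtain ⟨m, hm, hm1⟩ : ∃ m, m₀ ≤ m ∧ 1 ≤ m := ⟨max m₀ 1, le_max_left _ _, le_max_right _ _⟩
  have hMc := hm₀ m hm
  have hr : 1 ≤ 2 * m + 1 := by omega
  obtain ⟨a₁, b₁, hab, hK, hob⟩ := exists_bx (Gr (2 * m + 1) (Tq k L ι a b F T))
    (cx_gr hr hT').fin
    (Sum.elim (fun x : V => (2 * (m : ℤ) + 1) * a x) (fun _ : Unit => 0))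
    (Sum.elim (fun x : V => (2 * (m : ℤ) + 1) * b x) (fun _ : Unit => (2 * (m : ℤ) + 1) * 2))
  refine ⟨m, _, a₁, b₁, ⟨hMc, hm1, hab, hK, fun x => ?_, ?_, fun v hv hvu => ?_⟩⟩
  · exact hob (Sum.inl x)
  · exact hob (Sum.inr ())
  · have h1 := ca_cr hr (fun w => (v w : ℝ))
    rw [gs1_crv] at h1
    have hpos : (0 : ℝ) < ((2 * m + 1 : ℕ) : ℝ) := by exact_mod_cast hr
    have h2 : (fun w => (v w : ℝ) / ((2 * m + 1 : ℕ) : ℝ)) ∈ Bo (Tq k L ι a b F T) := by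
      refine ⟨cr (fun w => (v w : ℝ) / ((2 * m + 1 : ℕ) : ℝ)), ?_, cr_bo _⟩
      rw [← h1]
      exact hv
    have h3 : (v (Sum.inr ()) : ℝ) / ((2 * m + 1 : ℕ) : ℝ) ≤ 1 := by
      rw [div_le_one hpos]
      have h4 : (v (Sum.inr ()) : ℝ) ≤ ((2 * (m : ℤ) + 1 : ℤ) : ℝ) := by exact_mod_cast hvu
      have h5 : ((2 * (m : ℤ) + 1 : ℤ) : ℝ) = ((2 * m + 1 : ℕ) : ℝ) := by push_cast; ring
      rw [← h5]
      exact h4
    have h4 := hcx _ h3 h2
    funext x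
    show round (c (fun w => (v w : ℝ) / ((2 * m + 1 : ℕ) : ℝ)) x) = _
    rw [h4]
    exact gs1_round _ _

end MNG
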