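import Pool.Agent.MNG.GS0

/-!
# MNG-GS2: STEP (i): `T'` is obtained from `A × 0`

Over `s ∈ L` (write `A^s = Fb κ A s` etc.). `A^s × 0 → A^s × [0,1]`: `ex_pairs` (pairs: last coordinate `2`, `1`). Then `T^s × [1,2]`: pairs (last coordinate `4`, `3`) for the cells of `T^s`. Then `Om^s × 2`: `ex_map` from `Ex i T^s Om^s` (level `4`). Then the cells (`Q`, last coordinate `3`), `Q ∈ A^s \ T^s`: `ex_map` from `Ex (min j (k - 1)) T^s A^s` (`ex_trunc`; `Fb κ (T ∪ sk (k-1) F) s = Fb κ T s ∪ sk (k - 1) (Fb κ F s)`); dimension `+ 1`: `min j (k - 1) + 1 = min (j + 1) k`.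
-/

set_option autoImplicit false

noncomputable section

namespace MNG

open AGM (Ei Bl Sp)
open Set Topology

variable {J V : Type} [Fintype J] [Fintype V] {k j : ℕ} {L : Set (Cl J)}
  {F T : Set (Cl V)} {κ : Cl V → Cl J} {ι : J → V} {a b : V → ℤ}

/-- the cell `c` at the level `n` -/
private def gE {V : Type} (n : ℤ) (c : Cl V) : Cl (V ⊕ Unit) := mk c (fun _ => n)

private theorem gE_eta {V : Type} (z : Cl (V ⊕ Unit)) : gE (sn z ()) (fs z) = z := by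
  funext x
  rcases x with x | x
  · rfl
  · cases x
    rfl

private theorem gE_mem {V : Type} (n : ℤ) (A : Set (Cl V)) (z : Cl (V ⊕ Unit)) :
    z ∈ gE n '' A ↔ sn z () = n ∧ fs z ∈ A := by
  constructor
  · rintro ⟨c, hc, rfl⟩
    exact ⟨rfl, hc⟩
  · rintro ⟨h1, h2⟩
    exact ⟨fs z, h2, by rw [← h1, gE_eta]⟩

private theorem gE_inj {V : Type} {n m : ℤ} {c d : Cl V} (h : gE n c = gE m d) :
    n = m ∧ c = d := by
  have h1 : sn (gE n c) () = sn (gE m d) () := by rw [h]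
  have h2 : fs (gE n c) = fs (gE m d) := by rw [h]
  exact ⟨h1, h2⟩

private theorem gE_fa {V : Type} {n : ℤ} {c : Cl V} {d : Cl (V ⊕ Unit)} (h : Fa d (gE n c)) :
    Fa (fs d) c ∧ fc (sn d ()) n := ⟨fun j => h (Sum.inl j), h (Sum.inr ())⟩

private theorem gE_ft {V : Type} (n : ℤ) {r t : Cl V} (h : Ft r t) : Ft (gE n r) (gE n t) := by
  obtain ⟨i, h1, h2, h3⟩ := h
  refine ⟨Sum.inl i, h1, h2, fun x hx => ?_⟩
  rcases x with x | x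
  · exact h3 x fun ha => hx (by rw [ha])
  · rfl

private theorem gE_ft2 {V : Type} {n m : ℤ} (hm : m % 2 = 1) (hn : n = m - 1 ∨ n = m + 1)
    (c : Cl V) : Ft (gE n c) (gE m c) := by
  refine ⟨Sum.inr (), hm, hn, fun x hx => ?_⟩
  rcases x with x | x
  · rfl
  · exact absurd rfl hx

private theorem gE_dm (n : ℤ) (c : Cl V) : dm c ≤ dm (gE n c) := by
  unfold dm
  refine Finset.card_le_card_of_injOn Sum.inl (fun j hj => ?_) (fun a _ b _ h => Sum.inl.inj h)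
  simp only [Finset.coe_filter, Finset.mem_univ, true_and, Set.mem_ofPred_eq] at hj ⊢
  exact hj

private theorem gE_dm1 {m : ℤ} (hm : m % 2 = 1) (c : Cl V) : dm c + 1 ≤ dm (gE m c) := by
  have h1 := (ft_fa (gE_ft2 (n := m - 1) hm (Or.inl rfl) c)).2.2
  have h2 := gE_dm (m - 1) c
  omega

private theorem gE_pairs {i : ℕ} {A' A : Set (Cl V)} (hA' : Clo A') (hA : Clo A) (hs : A' ⊆ A)
    (hf : (A \ A').Finite) (N : Set (Cl (V ⊕ Unit))) (hN : Clo N) {m n o : ℤ} (hm : m % 2 = 1)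
    (hno : (n = m - 1 ∧ o = m + 1) ∨ (n = m + 1 ∧ o = m - 1))
    (ho : ∀ c ∈ A, gE o c ∈ N) (h0 : ∀ c ∈ A', gE n c ∈ N ∧ gE m c ∈ N)
    (h1 : ∀ c ∈ A, c ∉ A' → gE n c ∉ N ∧ gE m c ∉ N) :
    Ex i N (N ∪ gE n '' A ∪ gE m '' A) := by
  refine ex_pairs hA' hA hs hf (gE n) (gE m) N hN (fun c _ d _ h => (gE_inj h).2)
    (fun c _ d _ h => (gE_inj h).2) ?_ ?_ ?_ ?_ h0 h1
  · intro c _ d _ h
    have h2 := (gE_inj h).1
    omega
  · intro c _ d hd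
    obtain ⟨h2, h3⟩ := gE_fa hd
    refine Or.inr ⟨fs d, h2, ?_⟩
    have h4 : sn d () = n := by
      rcases h3 with h3 | ⟨h3, -⟩
      · exact h3
      · exfalso
        omega
    rw [← h4, gE_eta]
  · intro c hc d hd
    obtain ⟨h2, h3⟩ := gE_fa hd
    have h4 : sn d () = m ∨ sn d () = n ∨ sn d () = o := by
      rcases h3 with h3 | ⟨-, h3⟩
      · exact Or.inl h3
      · right
        omega
    rcases h4 with h4 | h4 | h4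
    · refine Or.inr ⟨fs d, h2, Or.inr ?_⟩
      rw [← h4, gE_eta]
    · refine Or.inr ⟨fs d, h2, Or.inl ?_⟩
      rw [← h4, gE_eta]
    · left
      have h5 := ho _ (hA c hc _ h2)
      rwa [← h4, gE_eta] at h5
  · intro c _
    exact gE_ft2 hm (by omega) c

private theorem gs2_in (z : Cl Unit) : z ∈ In 2 ↔ 0 ≤ z () ∧ z () ≤ 4 := by
  show 0 ≤ z () ∧ z () ≤ 2 * ((2 : ℕ) : ℤ) ↔ _
  norm_num

/-- the facts about the fibres -/
private theorem gs2_fb (h : Go k L ι a b F T κ j) (s : Cl J) (hs : s ∈ L) :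
    Clo (Fb κ T s) ∧ Cx (Fb κ (Aa k F T) s) ∧ Cx (Om ι a b s) ∧
      Fb κ T s ⊆ Fb κ (Aa k F T) s ∧ Fb κ (Aa k F T) s ⊆ Om ι a b s := by
  obtain ⟨h1, h2, h3, -⟩ := aa_cx h
  refine ⟨?_, ⟨?_, ?_⟩, ?_, ?_, ?_⟩
  · rintro c ⟨hc, hcs⟩ d hd
    exact ⟨h.cT c hc d hd, fa_trans (h.km.mono c (h.TF hc) d hd) hcs⟩
  · exact h1.fin.subset fun c hc => hc.1
  · rintro c ⟨hc, hcs⟩ d hd
    exact ⟨h1.clo c hc d hd, fa_trans (h.km.mono c (h2 hc) d hd) hcs⟩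
  · obtain ⟨a', b', -, h4⟩ := h.ob s hs
    rw [h4]
    exact cx_bx a' b'
  · rintro c ⟨hc, hcs⟩
    exact ⟨h3 hc, hcs⟩
  · rintro c ⟨hc, hcs⟩
    exact ⟨h.bx (h2 hc), fa_trans (h.ki c (h2 hc)) hcs⟩

theorem step_i (hk : 1 ≤ k) (h : Go k L ι a b F T κ j) (s : Cl J) (hs : s ∈ L) :
    Ex (min (j + 1) k) {z : Cl (V ⊕ Unit) | sn z () = 0 ∧ fs z ∈ Fb κ (Aa k F T) s}
      (Fb (kq ι κ) (Tq k L ι a b F T) s) := by
  obtain ⟨hTc, hA, hO, hTA, hAO⟩ := gs2_fb h s hs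
  have hTr : Ex (min j (k - 1)) (Fb κ T s) (Fb κ (Aa k F T) s) := by
    have h1 := ex_trunc hk hTc (h.eF s hs)
    have h2 : Fb κ T s ∪ sk (k - 1) (Fb κ F s) = Fb κ (Aa k F T) s := by
      ext c
      constructor
      · rintro (hc | ⟨hc, hd⟩)
        · exact ⟨Or.inl hc.1, hc.2⟩
        · exact ⟨Or.inr ⟨hc.1, hd⟩, hc.2⟩
      · rintro ⟨hc | hc, hcs⟩
        · exact Or.inl ⟨hc, hcs⟩
        · exact Or.inr ⟨⟨hc.1, hcs⟩, hc.2⟩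
    rwa [h2] at h1
  have hOx := h.eT s hs (min (j + 1) k)
  have hend : Fb (kq ι κ) (Tq k L ι a b F T) s = {z : Cl (V ⊕ Unit) |
      (sn z () = 4 ∧ fs z ∈ Om ι a b s) ∨
        ((0 ≤ sn z () ∧ sn z () ≤ 4) ∧ fs z ∈ Fb κ (Aa k F T) s)} := by
    ext z
    rw [tq_fb h s hs z, gs2_in]
    exact Iff.rfl
  rw [hend]
  obtain ⟨A, hAdef⟩ : ∃ A, A = Fb κ (Aa k F T) s := ⟨_, rfl⟩
  obtain ⟨O, hOdef⟩ : ∃ O, O = Om ι a b s := ⟨_, rfl⟩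
  obtain ⟨Ts, hTdef⟩ : ∃ Ts, Ts = Fb κ T s := ⟨_, rfl⟩
  rw [← hAdef] at hA hTA hAO hTr ⊢
  rw [← hOdef] at hO hAO hOx ⊢
  rw [← hTdef] at hTc hTA hTr hOx
  -- step 1
  have c0 : Clo {z : Cl (V ⊕ Unit) | sn z () = 0 ∧ fs z ∈ A} := by
    rintro z ⟨h1, h2⟩ d hd
    refine ⟨?_, hA.clo _ h2 _ fun v => hd (Sum.inl v)⟩
    have h3 : fc (sn d ()) (sn z ()) := hd (Sum.inr ())
    rw [h1] at h3
    rcases h3 with h3 | ⟨h3, -⟩
    · exact h3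
    · exfalso
      omega
  have s1 : Ex (min (j + 1) k) {z : Cl (V ⊕ Unit) | sn z () = 0 ∧ fs z ∈ A}
      ({z : Cl (V ⊕ Unit) | sn z () = 0 ∧ fs z ∈ A} ∪ gE 2 '' A ∪ gE 1 '' A) := by
    refine gE_pairs (A' := ∅) (o := 0) (fun c hc => absurd hc (Set.notMem_empty c)) hA.clo
      (Set.empty_subset _) (hA.fin.subset Set.sdiff_subset) _ c0 (by norm_num)
      (Or.inr ⟨by norm_num, by norm_num⟩) (fun c hc => ⟨rfl, hc⟩)
      (fun c hc => absurd hc (Set.notMem_empty c)) ?_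
    intro c _ _
    constructor
    · rintro ⟨h1, -⟩
      have h1 : (2 : ℤ) = 0 := h1
      omega
    · rintro ⟨h1, -⟩
      have h1 : (1 : ℤ) = 0 := h1
      omega
  have c1 := (ex_clo s1 c0).1
  obtain ⟨N1, hN1⟩ : ∃ N1, N1 = {z : Cl (V ⊕ Unit) | sn z () = 0 ∧ fs z ∈ A} ∪ gE 2 '' A ∪
      gE 1 '' A := ⟨_, rfl⟩
  rw [← hN1] at s1 c1
  have m1 : ∀ z, z ∈ N1 ↔ (0 ≤ sn z () ∧ sn z () ≤ 2) ∧ fs z ∈ A := by
    intro z
    rw [hN1, mem_union, mem_union, gE_mem, gE_mem, Set.mem_ofPred_eq]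
    constructor
    · rintro ((⟨h1, h2⟩ | ⟨h1, h2⟩) | ⟨h1, h2⟩)
      · exact ⟨by omega, h2⟩
      · exact ⟨by omega, h2⟩
      · exact ⟨by omega, h2⟩
    · rintro ⟨h1, h2⟩
      have h3 : sn z () = 0 ∨ sn z () = 2 ∨ sn z () = 1 := by omega
      rcases h3 with h3 | h3 | h3
      · exact Or.inl (Or.inl ⟨h3, h2⟩)
      · exact Or.inl (Or.inr ⟨h3, h2⟩)
      · exact Or.inr ⟨h3, h2⟩
  -- step 2
  have s2 : Ex (min (j + 1) k) N1 (N1 ∪ gE 4 '' Ts ∪ gE 3 '' Ts) := by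
    refine gE_pairs (A' := ∅) (o := 2) (fun c hc => absurd hc (Set.notMem_empty c)) hTc
      (Set.empty_subset _) ((hA.fin.subset hTA).subset Set.sdiff_subset) _ c1 (by norm_num)
      (Or.inr ⟨by norm_num, by norm_num⟩) ?_
      (fun c hc => absurd hc (Set.notMem_empty c)) ?_
    · intro c hc
      rw [m1]
      exact ⟨⟨show (0 : ℤ) ≤ 2 by norm_num, show (2 : ℤ) ≤ 2 by norm_num⟩, hTA hc⟩
    · intro c _ _
      rw [m1, m1]
      constructor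
      · rintro ⟨⟨-, h1⟩, -⟩
        have h1 : (4 : ℤ) ≤ 2 := h1
        omega
      · rintro ⟨⟨-, h1⟩, -⟩
        have h1 : (3 : ℤ) ≤ 2 := h1
        omega
  have c2 := (ex_clo s2 c1).1
  obtain ⟨N2, hN2⟩ : ∃ N2, N2 = N1 ∪ gE 4 '' Ts ∪ gE 3 '' Ts := ⟨_, rfl⟩
  rw [← hN2] at s2 c2
  have m2 : ∀ z, z ∈ N2 ↔ ((0 ≤ sn z () ∧ sn z () ≤ 2) ∧ fs z ∈ A) ∨
      ((sn z () = 3 ∨ sn z () = 4) ∧ fs z ∈ Ts) := by
    intro z
    rw [hN2, mem_union, mem_union, gE_mem, gE_mem, m1]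
    tauto
  -- step 3
  have s3 : Ex (min (j + 1) k) N2 (N2 ∪ gE 4 '' O) := by
    refine ex_map hOx hTc (gE 4) N2 c2 (fun c _ d _ h => (gE_inj h).2) ?_
      (fun r _ t _ hrt => gE_ft 4 hrt) (fun c _ hc => hc.trans (gE_dm 4 c)) ?_ ?_
    · intro c _ d hd
      obtain ⟨h2, h3⟩ := gE_fa hd
      refine Or.inr ⟨fs d, h2, ?_⟩
      have h4 : sn d () = 4 := by
        rcases h3 with h3 | ⟨h3, -⟩
        · exact h3
        · exfalso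
          omega
      rw [← h4, gE_eta]
    · intro c hc
      rw [m2]
      exact Or.inr ⟨Or.inr rfl, hc⟩
    · intro c _ hc
      rw [m2]
      rintro (⟨⟨-, h1⟩, -⟩ | ⟨-, h1⟩)
      · have h1 : (4 : ℤ) ≤ 2 := h1
        omega
      · exact hc h1
  have c3 := (ex_clo s3 c2).1
  obtain ⟨N3, hN3⟩ : ∃ N3, N3 = N2 ∪ gE 4 '' O := ⟨_, rfl⟩
  rw [← hN3] at s3 c3
  have m3 : ∀ z, z ∈ N3 ↔ ((0 ≤ sn z () ∧ sn z () ≤ 2) ∧ fs z ∈ A) ∨
      ((sn z () = 3 ∨ sn z () = 4) ∧ fs z ∈ Ts) ∨ (sn z () = 4 ∧ fs z ∈ O) := by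
    intro z
    rw [hN3, mem_union, gE_mem, m2]
    tauto
  -- step 4
  have s4 : Ex (min (j + 1) k) N3 (N3 ∪ gE 3 '' A) := by
    refine ex_map hTr hTc (gE 3) N3 c3 (fun c _ d _ h => (gE_inj h).2) ?_
      (fun r _ t _ hrt => gE_ft 3 hrt) ?_ ?_ ?_
    · intro c hc d hd
      obtain ⟨h2, h3⟩ := gE_fa hd
      have h5 := hA.clo _ hc _ h2
      rcases h3 with h3 | ⟨-, h3 | h3⟩
      · refine Or.inr ⟨fs d, h2, ?_⟩
        rw [← h3, gE_eta]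
      · left
        rw [m3]
        exact Or.inl ⟨by omega, h5⟩
      · left
        rw [m3]
        exact Or.inr (Or.inr ⟨by omega, hAO h5⟩)
    · intro c _ hc
      have h1 := gE_dm1 (m := 3) (by norm_num) c
      omega
    · intro c hc
      rw [m3]
      exact Or.inr (Or.inl ⟨Or.inl rfl, hc⟩)
    · intro c _ hc
      rw [m3]
      rintro (⟨⟨-, h1⟩, -⟩ | ⟨-, h1⟩ | ⟨h1, -⟩)
      · have h1 : (3 : ℤ) ≤ 2 := h1
        omega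
      · exact hc h1
      · have h1 : (3 : ℤ) = 4 := h1
        omega
  have hfin : N3 ∪ gE 3 '' A = {z : Cl (V ⊕ Unit) | (sn z () = 4 ∧ fs z ∈ O) ∨
        ((0 ≤ sn z () ∧ sn z () ≤ 4) ∧ fs z ∈ A)} := by
    ext z
    rw [mem_union, gE_mem, m3, Set.mem_ofPred_eq]
    constructor
    · rintro ((⟨h1, h2⟩ | ⟨h1, h2⟩ | h1) | ⟨h1, h2⟩)
      · exact Or.inr ⟨by omega, h2⟩
      · exact Or.inr ⟨by omega, hTA h2⟩
      · exact Or.inl h1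
      · exact Or.inr ⟨by omega, h2⟩
    · rintro (h1 | ⟨h1, h2⟩)
      · exact Or.inl (Or.inr (Or.inr h1))
      · have h3 : (0 ≤ sn z () ∧ sn z () ≤ 2) ∨ sn z () = 3 ∨ sn z () = 4 := by omega
        rcases h3 with h3 | h3 | h3
        · exact Or.inl (Or.inl ⟨h3, h2⟩)
        · exact Or.inr ⟨h3, h2⟩
        · exact Or.inl (Or.inr (Or.inr ⟨h3, hAO h2⟩))
  rw [hfin] at s4
  exact ex_trans s1 (ex_trans s2 (ex_trans s3 s4))

/-- `Om^s × [0, 2]` collapses to `T'` over `s` -/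
theorem step_i2 (h : Go k L ι a b F T κ j) (s : Cl J) (hs : s ∈ L) (i : ℕ) :
    Ex i (Fb (kq ι κ) (Tq k L ι a b F T) s) (Px (Om ι a b s) (In 2)) := by
  obtain ⟨-, hA, hO, -, hAO⟩ := gs2_fb h s hs
  have hc0 : Clo (Fb (kq ι κ) (Tq k L ι a b F T) s) := by
    obtain ⟨h1, h2⟩ := tq_cx h
    rintro c ⟨hc, hcs⟩ d hd
    exact ⟨h1.clo c hc d hd, fa_trans (h2.mono c hc d hd) hcs⟩
  have m0 : ∀ z, z ∈ Fb (kq ι κ) (Tq k L ι a b F T) s ↔ (sn z () = 4 ∧ fs z ∈ Om ι a b s) ∨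
        ((0 ≤ sn z () ∧ sn z () ≤ 4) ∧ fs z ∈ Fb κ (Aa k F T) s) := by
    intro z
    rw [tq_fb h s hs z, gs2_in]
  obtain ⟨N, hN⟩ : ∃ N, N = Fb (kq ι κ) (Tq k L ι a b F T) s := ⟨_, rfl⟩
  rw [← hN] at hc0 m0 ⊢
  obtain ⟨A, hAdef⟩ : ∃ A, A = Fb κ (Aa k F T) s := ⟨_, rfl⟩
  obtain ⟨O, hOdef⟩ : ∃ O, O = Om ι a b s := ⟨_, rfl⟩
  rw [← hAdef] at hA hAO m0
  rw [← hOdef] at hO hAO m0 ⊢
  have s1 : Ex i N (N ∪ gE 2 '' O ∪ gE 3 '' O) := by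
    refine gE_pairs (A' := A) (o := 4) hA.clo hO.clo hAO (hO.fin.subset Set.sdiff_subset) _ hc0
      (by norm_num) (Or.inl ⟨by norm_num, by norm_num⟩) ?_ ?_ ?_
    · intro c hc
      rw [m0]
      exact Or.inl ⟨rfl, hc⟩
    · intro c hc
      rw [m0, m0]
      exact ⟨Or.inr ⟨⟨show (0 : ℤ) ≤ 2 by norm_num, show (2 : ℤ) ≤ 4 by norm_num⟩, hc⟩,
        Or.inr ⟨⟨show (0 : ℤ) ≤ 3 by norm_num, show (3 : ℤ) ≤ 4 by norm_num⟩, hc⟩⟩
    · intro c _ hc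
      rw [m0, m0]
      constructor
      · rintro (⟨h1, -⟩ | ⟨-, h1⟩)
        · have h1 : (2 : ℤ) = 4 := h1
          omega
        · exact hc h1
      · rintro (⟨h1, -⟩ | ⟨-, h1⟩)
        · have h1 : (3 : ℤ) = 4 := h1
          omega
        · exact hc h1
  have c1 := (ex_clo s1 hc0).1
  obtain ⟨N1, hN1⟩ : ∃ N1, N1 = N ∪ gE 2 '' O ∪ gE 3 '' O := ⟨_, rfl⟩
  rw [← hN1] at s1 c1
  have m1 : ∀ z, z ∈ N1 ↔ ((0 ≤ sn z () ∧ sn z () ≤ 4) ∧ fs z ∈ A) ∨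
      ((2 ≤ sn z () ∧ sn z () ≤ 4) ∧ fs z ∈ O) := by
    intro z
    rw [hN1, mem_union, mem_union, gE_mem, gE_mem, m0]
    constructor
    · rintro (((⟨h1, h2⟩ | h1) | ⟨h1, h2⟩) | ⟨h1, h2⟩)
      · exact Or.inr ⟨by omega, h2⟩
      · exact Or.inl h1
      · exact Or.inr ⟨by omega, h2⟩
      · exact Or.inr ⟨by omega, h2⟩
    · rintro (h1 | ⟨h1, h2⟩)
      · exact Or.inl (Or.inl (Or.inr h1))
      · have h3 : sn z () = 2 ∨ sn z () = 3 ∨ sn z () = 4 := by omega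
        rcases h3 with h3 | h3 | h3
        · exact Or.inl (Or.inr ⟨h3, h2⟩)
        · exact Or.inr ⟨h3, h2⟩
        · exact Or.inl (Or.inl (Or.inl ⟨h3, h2⟩))
  have s2 : Ex i N1 (N1 ∪ gE 0 '' O ∪ gE 1 '' O) := by
    refine gE_pairs (A' := A) (o := 2) hA.clo hO.clo hAO (hO.fin.subset Set.sdiff_subset) _ c1
      (by norm_num) (Or.inl ⟨by norm_num, by norm_num⟩) ?_ ?_ ?_
    · intro c hc
      rw [m1]
      exact Or.inr ⟨⟨show (2 : ℤ) ≤ 2 by norm_num, show (2 : ℤ) ≤ 4 by norm_num⟩, hc⟩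
    · intro c hc
      rw [m1, m1]
      exact ⟨Or.inl ⟨⟨show (0 : ℤ) ≤ 0 by norm_num, show (0 : ℤ) ≤ 4 by norm_num⟩, hc⟩,
        Or.inl ⟨⟨show (0 : ℤ) ≤ 1 by norm_num, show (1 : ℤ) ≤ 4 by norm_num⟩, hc⟩⟩
    · intro c _ hc
      rw [m1, m1]
      constructor
      · rintro (⟨-, h1⟩ | ⟨⟨h1, -⟩, -⟩)
        · exact hc h1
        · have h1 : (2 : ℤ) ≤ 0 := h1
          omega
      · rintro (⟨-, h1⟩ | ⟨⟨h1, -⟩, -⟩)
        · exact hc h1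
        · have h1 : (2 : ℤ) ≤ 1 := h1
          omega
  have hfin : N1 ∪ gE 0 '' O ∪ gE 1 '' O = Px O (In 2) := by
    ext z
    rw [mem_union, mem_union, gE_mem, gE_mem, m1]
    have h0 : z ∈ Px O (In 2) ↔ fs z ∈ O ∧ (0 ≤ sn z () ∧ sn z () ≤ 4) := by
      rw [← gs2_in]
      exact Iff.rfl
    rw [h0]
    constructor
    · rintro (((⟨h1, h2⟩ | ⟨h1, h2⟩) | ⟨h1, h2⟩) | ⟨h1, h2⟩)
      · exact ⟨hAO h2, h1⟩
      · exact ⟨h2, by omega⟩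
      · exact ⟨h2, by omega⟩
      · exact ⟨h2, by omega⟩
    · rintro ⟨h2, h1⟩
      have h3 : (2 ≤ sn z () ∧ sn z () ≤ 4) ∨ sn z () = 0 ∨ sn z () = 1 := by omega
      rcases h3 with h3 | h3 | h3
      · exact Or.inl (Or.inl (Or.inr ⟨h3, h2⟩))
      · exact Or.inl (Or.inr ⟨h3, h2⟩)
      · exact Or.inr ⟨h3, h2⟩
  rw [hfin] at s2
  exact ex_trans s1 s2

end MNG
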