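import Pool.Agent.MNG.LD3

/-!
# Project MNG, layer LADDER: the final statement
-/

set_option autoImplicit false

noncomputable section

namespace MNG

open Set Topology

/-- **Ladder**: two generic towers have homeomorphic limits if the first complex of one of them is
a point and the first complex of the other one is `(k-1)`-connected -/
theorem ladder {k : ℕ} (hk : 1 ≤ k) (X Y : Tw k) (hX : Gen X) (hY : Gen Y)
    (h0 : ∃ v, Y.M 0 = {v}) (h1 : Cs k (Bo (X.X 0))) : Nonempty (X.Lim ≃ₜ Y.Lim) := by
  obtain ⟨v, hv⟩ := h0
  exact LD.ladder hk X Y hX hY h1 v hv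

end MNG
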