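import Pool.Agent.MNG.Defs

/-!
# Project MNG, layer LADDER, part 1: cells, descending maps, towers with rounding maps
-/

set_option autoImplicit false

noncomputable section

namespace MNG.LD

open MNG
open Set Topology

/-! ## elementary facts on cells -/

theorem fc_refl (a : ℤ) : fc a a := Or.inl rfl

theorem fc_trans {a b c : ℤ} (h1 : fc a b) (h2 : fc b c) : fc a c := by
  unfold fc at *
  omega

theorem Fa_refl {J : Type} (c : Cl J) : Fa c c := fun _ => fc_refl _

theorem Fa_trans {J : Type} {a b c : Cl J} (h1 : Fa a b) (h2 : Fa b c) : Fa a c :=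
  fun j => fc_trans (h1 j) (h2 j)

theorem dm_le_of_Fa {J : Type} [Fintype J] {c d : Cl J} (h : Fa c d) : dm c ≤ dm d := by
  unfold dm
  apply Finset.card_le_card
  intro j hj
  rw [Finset.mem_filter] at hj ⊢
  refine ⟨hj.1, ?_⟩
  have h1 := h j
  have h2 := hj.2
  unfold fc at h1
  omega

theorem bo_mono {J : Type} {c d : Cl J} (h : Fa c d) : bo c ⊆ bo d := by
  intro x hx j
  have h1 := h j
  have h2 := hx j
  rcases h1 with h1 | ⟨h3, h4⟩
  · rw [← h1]; exact h2
  · have h5 : c j % 2 = 0 := by omega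
    rw [h5] at h2
    rw [h3]
    simp only [Int.cast_zero, Int.cast_one] at h2 ⊢
    have h6 : 2 * x j = (c j : ℝ) := by
      have := abs_nonpos_iff.mp h2
      linarith
    rw [h6]
    rcases h4 with h4 | h4
    · rw [h4]; push_cast; norm_num
    · rw [h4]; push_cast; norm_num

theorem dist_le_one {J : Type} [Fintype J] {c : Cl J} {x y : J → ℝ} (hx : x ∈ bo c) (hy : y ∈ bo c) :
    dist x y ≤ 1 := by
  rw [dist_pi_le_iff zero_le_one]
  intro j
  have h1 := hx j
  have h2 := hy j
  have h3 : ((c j % 2 : ℤ) : ℝ) ≤ 1 := by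
    have : c j % 2 ≤ 1 := by omega
    exact_mod_cast this
  rw [Real.dist_eq]
  rw [abs_le] at h1 h2 ⊢
  constructor <;> linarith [h1.1, h1.2, h2.1, h2.2]

/-- the barycentre -/
def ba {J : Type} (c : Cl J) : J → ℝ := fun j => (c j : ℝ) / 2

theorem ba_mem {J : Type} (c : Cl J) : ba c ∈ bo c := by
  intro j
  have h : 2 * ba c j - (c j : ℝ) = 0 := by unfold ba; ring
  rw [h, abs_zero]
  have : (0 : ℤ) ≤ c j % 2 := by omega
  exact_mod_cast this

/-- a vertex -/
def vt {J : Type} (c : Cl J) : Cl J := fun j => c j - c j % 2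

theorem vt_Fa {J : Type} (c : Cl J) : Fa (vt c) c := by
  intro j
  unfold vt fc
  omega

theorem vt_even {J : Type} (c : Cl J) (j : J) : vt c j % 2 = 0 := by
  unfold vt
  omega

theorem dm_vt {J : Type} [Fintype J] (c : Cl J) : dm (vt c) = 0 := by
  unfold dm
  rw [Finset.card_eq_zero, Finset.filter_eq_empty_iff]
  intro j _
  rw [vt_even]
  omega

theorem bo_closed {J : Type} (c : Cl J) : IsClosed (bo c) := by
  have : bo c = ⋂ j, {x : J → ℝ | |2 * x j - (c j : ℝ)| ≤ ((c j % 2 : ℤ) : ℝ)} := by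
    ext x; simp only [mem_iInter, mem_ofPred_eq]; rfl
  rw [this]
  apply isClosed_iInter
  intro j
  exact isClosed_le (by fun_prop) continuous_const

theorem Bo_closed {J : Type} {K : Set (Cl J)} (hK : K.Finite) : IsClosed (Bo K) := by
  have : Bo K = ⋃ c ∈ K, bo c := by
    ext x; simp only [mem_iUnion, exists_prop]; rfl
  rw [this]
  exact hK.isClosed_biUnion (fun c _ => bo_closed c)

theorem sk_sub {J : Type} [Fintype J] {k : ℕ} {K : Set (Cl J)} : sk k K ⊆ K := fun _ h => h.1

theorem sk_Clo {J : Type} [Fintype J] {k : ℕ} {K : Set (Cl J)} (h : Clo K) : Clo (sk k K) :=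
  fun c hc d hd => ⟨h c hc.1 d hd, (dm_le_of_Fa hd).trans hc.2⟩

theorem sk_Cx {J : Type} [Fintype J] {k : ℕ} {K : Set (Cl J)} (h : Cx K) : Cx (sk k K) :=
  ⟨h.fin.subset sk_sub, sk_Clo h.clo⟩

theorem Bo_mono {J : Type} {K L : Set (Cl J)} (h : K ⊆ L) : Bo K ⊆ Bo L :=
  fun _ ⟨c, hc, hx⟩ => ⟨c, h hc, hx⟩

/-! ## the path lemma -/

theorem path_aux {J V : Type} [Fintype J] [Fintype V] {k : ℕ} (hk : 1 ≤ k) {N : Set (Cl J)}
    (hN : Clo N) {T : Set (Cl V)} {f : Cl J → Cl V} (hf : Mon (sk k N) T f) {K : Cl J} (hK : K ∈ N)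
    {w : Cl J} (hw : Fa w K) (hwe : ∀ j, w j % 2 = 0) :
    ∀ n : ℕ, ∀ v : Cl J, Fa v K → (∀ j, v j % 2 = 0) →
      (Finset.univ.filter (fun j => v j ≠ w j)).card = n → dist (ba (f v)) (ba (f w)) ≤ n := by
  intro n
  induction n with
  | zero =>
    intro v _ _ h
    rw [Finset.card_eq_zero, Finset.filter_eq_empty_iff] at h
    have : v = w := by
      funext j
      have := h (Finset.mem_univ j)
      exact not_not.mp this
    rw [this, dist_self]
    simp
  | succ n ih =>
    intro v hv hve h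
    have hne : (Finset.univ.filter (fun j => v j ≠ w j)).Nonempty := by
      rw [← Finset.card_pos, h]; omega
    obtain ⟨i, hi⟩ := hne
    rw [Finset.mem_filter] at hi
    have hi2 := hi.2
    classical
    have hKi : K i % 2 = 1 := by
      have h1 := hv i
      have h2 := hw i
      unfold fc at h1 h2
      omega
    set v' : Cl J := Function.update v i (w i) with hv'
    set e : Cl J := Function.update v i (K i) with he
    have hv'K : Fa v' K := by
      intro j
      by_cases hj : j = i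
      · subst hj; simp only [hv', Function.update_self]; exact hw j
      · simp only [hv', Function.update_of_ne hj]; exact hv j
    have heK : Fa e K := by
      intro j
      by_cases hj : j = i
      · subst hj; simp only [he, Function.update_self]; exact fc_refl _
      · simp only [he, Function.update_of_ne hj]; exact hv j
    have hve' : Fa v e := by
      intro j
      by_cases hj : j = i
      · subst hj; simp only [he, Function.update_self]; exact hv j
      · simp only [he, Function.update_of_ne hj]; exact fc_refl _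
    have hv'e : Fa v' e := by
      intro j
      by_cases hj : j = i
      · subst hj; simp only [hv', he, Function.update_self]; exact hw j
      · simp only [hv', he, Function.update_of_ne hj]; exact fc_refl _
    have hedm : dm e ≤ 1 := by
      unfold dm
      rw [Finset.card_le_one]
      intro a ha b hb
      rw [Finset.mem_filter] at ha hb
      have haa : a = i := by
        by_contra hne
        have h3 := ha.2
        simp only [he, Function.update_of_ne hne] at h3
        have h4 := hve a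
        omega
      have hbb : b = i := by
        by_contra hne
        have h3 := hb.2
        simp only [he, Function.update_of_ne hne] at h3
        have h4 := hve b
        omega
      rw [haa, hbb]
    have heN : e ∈ sk k N := ⟨hN K hK e heK, hedm.trans hk⟩
    have hev' : ∀ j, v' j % 2 = 0 := by
      intro j
      by_cases hj : j = i
      · subst hj; simp only [hv', Function.update_self]; exact hwe j
      · simp only [hv', Function.update_of_ne hj]; exact hve j
    have hcard : (Finset.univ.filter (fun j => v' j ≠ w j)).card = n := by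
      have h5 : Finset.univ.filter (fun j => v' j ≠ w j)
          = (Finset.univ.filter (fun j => v j ≠ w j)).erase i := by
        ext j
        simp only [Finset.mem_filter, Finset.mem_univ, true_and, Finset.mem_erase]
        by_cases hj : j = i
        · subst hj; simp only [hv', Function.update_self]; simp
        · simp only [hv', Function.update_of_ne hj]; simp [hj]
      rw [h5, Finset.card_erase_of_mem (by rw [Finset.mem_filter]; exact hi), h]
      omega
    have h6 := ih v' hv'K hev' hcard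
    have h7 : dist (ba (f v)) (ba (f v')) ≤ 1 :=
      dist_le_one (bo_mono (hf.mono e heN v hve') (ba_mem _))
        (bo_mono (hf.mono e heN v' hv'e) (ba_mem _))
    have h8 := dist_triangle (ba (f v)) (ba (f v')) (ba (f w))
    push_cast
    linarith

theorem path {J V : Type} [Fintype J] [Fintype V] {k : ℕ} (hk : 1 ≤ k) {N : Set (Cl J)}
    (hN : Clo N) {T : Set (Cl V)} {f : Cl J → Cl V} (hf : Mon (sk k N) T f) {K : Cl J} (hK : K ∈ N)
    {D : ℕ} (hD : dm K ≤ D) {p q : Cl J} (hp : p ∈ sk k N) (hq : q ∈ sk k N) (hpK : Fa p K)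
    (hqK : Fa q K) {u w : V → ℝ} (hu : u ∈ bo (f p)) (hw : w ∈ bo (f q)) :
    dist u w ≤ (D : ℝ) + 2 := by
  have h1 : dist u (ba (f (vt p))) ≤ 1 :=
    dist_le_one hu (bo_mono (hf.mono p hp _ (vt_Fa p)) (ba_mem _))
  have h2 : dist (ba (f (vt q))) w ≤ 1 :=
    dist_le_one (bo_mono (hf.mono q hq _ (vt_Fa q)) (ba_mem _)) hw
  have h3 := path_aux hk hN hf hK (Fa_trans (vt_Fa q) hqK) (vt_even q) _ (vt p)
    (Fa_trans (vt_Fa p) hpK) (vt_even p) rfl
  have h4 : (Finset.univ.filter (fun j => vt p j ≠ vt q j)).card ≤ dm K := by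
    unfold dm
    apply Finset.card_le_card
    intro j hj
    rw [Finset.mem_filter] at hj ⊢
    refine ⟨hj.1, ?_⟩
    have h5 := (Fa_trans (vt_Fa p) hpK) j
    have h6 := (Fa_trans (vt_Fa q) hqK) j
    have h7 := hj.2
    unfold fc at h5 h6
    omega
  have h5 : ((Finset.univ.filter (fun j => vt p j ≠ vt q j)).card : ℝ) ≤ (D : ℝ) := by
    exact_mod_cast h4.trans hD
  have h6 := dist_triangle u (ba (f (vt p))) w
  have h7 := dist_triangle (ba (f (vt p))) (ba (f (vt q))) w
  linarith

/-! ## descending maps -/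

/-- iterated descending maps -/
def dn {A : ℕ → Type} [∀ b, Inhabited (A b)] (d : ∀ b, A (b + 1) → A b) : ∀ l, A l → ∀ b, A b
  | 0 => fun z b => if h : 0 = b then h ▸ z else default
  | l + 1 => fun z b => if h : l + 1 = b then h ▸ z else dn d l (d l z) b

section dn

variable {A B : ℕ → Type} [∀ b, Inhabited (A b)] [∀ b, Inhabited (B b)]
  (d : ∀ b, A (b + 1) → A b) (d' : ∀ b, B (b + 1) → B b)

theorem dn_self (l : ℕ) (z : A l) : dn d l z l = z := by
  cases l <;> simp [dn]

theorem dn_succ (l : ℕ) (z : A (l + 1)) {b : ℕ} (hb : b ≤ l) :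
    dn d (l + 1) z b = dn d l (d l z) b := by
  have h : ¬ (l + 1 = b) := by omega
  simp only [dn, dif_neg h]

theorem dn_rel (R : ∀ b, A b → B b → Prop) (hR : ∀ b a a', R (b + 1) a a' → R b (d b a) (d' b a')) :
    ∀ (l : ℕ) (z : A l) (z' : B l), R l z z' → ∀ b ≤ l, R b (dn d l z b) (dn d' l z' b) := by
  intro l
  induction l with
  | zero =>
    intro z z' h b hb
    obtain rfl : b = 0 := by omega
    rw [dn_self, dn_self]; exact h
  | succ l ih =>
    intro z z' h b hb
    rcases Nat.lt_or_ge l b with h1 | h1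
    · obtain rfl : b = l + 1 := by omega
      rw [dn_self, dn_self]; exact h
    · rw [dn_succ _ _ _ h1, dn_succ _ _ _ h1]
      exact ih _ _ (hR _ _ _ h) b h1

theorem dn_step : ∀ (l : ℕ) (z : A l) (b : ℕ), b < l → d b (dn d l z (b + 1)) = dn d l z b := by
  intro l
  induction l with
  | zero => intro z b hb; omega
  | succ l ih =>
    intro z b hb
    rcases Nat.lt_or_ge b l with h1 | h1
    · rw [dn_succ _ _ _ (by omega : b + 1 ≤ l), dn_succ _ _ _ (by omega : b ≤ l)]
      exact ih _ b h1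
    · obtain rfl : b = l := by omega
      rw [dn_self, dn_succ _ _ _ le_rfl, dn_self]

theorem dn_trans : ∀ (l : ℕ) (z : A l) (m b : ℕ), b ≤ m → m ≤ l →
    dn d m (dn d l z m) b = dn d l z b := by
  intro l
  induction l with
  | zero =>
    intro z m b h1 h2
    obtain rfl : m = 0 := by omega
    rw [dn_self]
  | succ l ih =>
    intro z m b h1 h2
    rcases Nat.lt_or_ge l m with h3 | h3
    · obtain rfl : m = l + 1 := by omega
      rw [dn_self]
    · rw [dn_succ _ _ _ h3, dn_succ _ _ _ (by omega : b ≤ l)]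
      exact ih _ m b h1 h3

end dn

/-! ## towers with rounding maps -/

/-- towers with carriers, projections and rounding maps -/
structure To (k : ℕ) where
  J : ℕ → Type
  [fJ : ∀ b, Fintype (J b)]
  M : ∀ b, Set (Cl (J b))
  cx : ∀ b, Cx (M b)
  D : ℕ
  dmM : ∀ b, ∀ c ∈ M b, dm c ≤ D
  ka : ∀ b, Cl (J (b + 1)) → Cl (J b)
  kam : ∀ b, Mon (M (b + 1)) (M b) (ka b)
  pr : ∀ b, (J (b + 1) → ℝ) → (J b → ℝ)
  prL : ∀ b x y, dist (pr b x) (pr b y) ≤ dist x y / 2
  prk : ∀ b, ∀ c ∈ M (b + 1), ∀ x ∈ bo c, pr b x ∈ bo (ka b c)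
  r : ∀ b, Cl (J (b + 1)) → Cl (J b)
  rm : ∀ b, Mon (M (b + 1)) (sk k (M b)) (r b)
  rk : ∀ b, ∀ c ∈ M (b + 1), Fa (r b c) (ka b c)

attribute [instance] To.fJ

variable {k : ℕ}

/-- the skeleta -/
def To.X (T : To k) (b : ℕ) : Set (Cl (T.J b)) := sk k (T.M b)

/-- descending points -/
def To.P (T : To k) : ∀ l, (T.J l → ℝ) → ∀ b, (T.J b → ℝ) := dn (A := fun b => T.J b → ℝ) T.pr

/-- descending cells -/
def To.C (T : To k) : ∀ l, Cl (T.J l) → ∀ b, Cl (T.J b) := dn (A := fun b => Cl (T.J b)) T.ka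

/-- threads -/
def To.Lim (T : To k) : Set (∀ b, T.J b → ℝ) :=
  {x | ∀ b, x b ∈ Bo (T.M b) ∧ T.pr b (x (b + 1)) = x b}

theorem To.C_mem (T : To k) {l : ℕ} {c : Cl (T.J l)} (hc : c ∈ T.M l) {b : ℕ} (hb : b ≤ l) :
    T.C l c b ∈ T.M b :=
  dn_rel (A := fun b => Cl (T.J b)) (B := fun b => Cl (T.J b)) T.ka T.ka (fun b a _ => a ∈ T.M b) (fun b a _ h => (T.kam b).map a h) l c c hc b hb

theorem To.C_mono (T : To k) {l : ℕ} {c d : Cl (T.J l)} (hd : d ∈ T.M l) (h : Fa c d) {b : ℕ}
    (hb : b ≤ l) : Fa (T.C l c b) (T.C l d b) :=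
  (dn_rel (A := fun b => Cl (T.J b)) (B := fun b => Cl (T.J b)) T.ka T.ka (fun b a a' => a' ∈ T.M b ∧ Fa a a')
    (fun b a a' h => ⟨(T.kam b).map a' h.1, (T.kam b).mono a' h.1 a h.2⟩) l c d ⟨hd, h⟩ b hb).2

theorem To.P_bo (T : To k) {l : ℕ} {c : Cl (T.J l)} (hc : c ∈ T.M l) {x : T.J l → ℝ} (hx : x ∈ bo c)
    {b : ℕ} (hb : b ≤ l) : T.P l x b ∈ bo (T.C l c b) :=
  (dn_rel (A := fun b => T.J b → ℝ) (B := fun b => Cl (T.J b)) T.pr T.ka (fun b x c => c ∈ T.M b ∧ x ∈ bo c)
    (fun b x c h => ⟨(T.kam b).map c h.1, T.prk b c h.1 x h.2⟩) l x c ⟨hc, hx⟩ b hb).2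

theorem To.pr_Bo (T : To k) {b : ℕ} {x : T.J (b + 1) → ℝ} (hx : x ∈ Bo (T.M (b + 1))) :
    T.pr b x ∈ Bo (T.M b) := by
  obtain ⟨c, hc, h⟩ := hx
  exact ⟨T.ka b c, (T.kam b).map c hc, T.prk b c hc x h⟩

theorem To.P_Bo (T : To k) {l : ℕ} {x : T.J l → ℝ} (hx : x ∈ Bo (T.M l)) {b : ℕ} (hb : b ≤ l) :
    T.P l x b ∈ Bo (T.M b) :=
  dn_rel (A := fun b => T.J b → ℝ) (B := fun b => T.J b → ℝ) T.pr T.pr (fun b x _ => x ∈ Bo (T.M b)) (fun _ _ _ h => T.pr_Bo h) l x x hx b hb

theorem To.P_dist (T : To k) {l : ℕ} (x y : T.J l → ℝ) {b : ℕ} (hb : b ≤ l) :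
    dist (T.P l x b) (T.P l y b) ≤ dist x y / 2 ^ (l - b) := by
  have h := dn_rel (A := fun b => T.J b → ℝ) (B := fun b => T.J b → ℝ) T.pr T.pr (fun b x' y' => dist x' y' ≤ dist x y / 2 ^ l * 2 ^ b)
    (fun b x' y' h => by
      have := T.prL b x' y'
      rw [pow_succ] at h
      linarith) l x y (by
        rw [div_mul_cancel₀ _ (by positivity)]) b hb
  refine h.trans (le_of_eq ?_)
  obtain ⟨n, rfl⟩ := Nat.exists_eq_add_of_le hb
  rw [Nat.add_sub_cancel_left, pow_add]
  field_simp

theorem To.P_cont (T : To k) (l : ℕ) {b : ℕ} (hb : b ≤ l) : Continuous (fun x => T.P l x b) := by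
  apply LipschitzWith.continuous (K := 1)
  apply LipschitzWith.of_dist_le_mul
  intro x y
  have h := T.P_dist x y hb
  have h1 : dist x y / 2 ^ (l - b) ≤ dist x y := div_le_self dist_nonneg (one_le_pow₀ (by norm_num))
  simpa using h.trans h1

theorem To.pr_cont (T : To k) (b : ℕ) : Continuous (T.pr b) := by
  apply LipschitzWith.continuous (K := 1)
  apply LipschitzWith.of_dist_le_mul
  intro x y
  have h := T.prL b x y
  have h1 : dist x y / 2 ≤ dist x y := div_le_self dist_nonneg (by norm_num)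
  simpa using h.trans h1

theorem To.P_thread (T : To k) {x : ∀ b, T.J b → ℝ} (hx : x ∈ T.Lim) {l b : ℕ} (hb : b ≤ l) :
    T.P l (x l) b = x b :=
  dn_rel (A := fun b => T.J b → ℝ) (B := fun b => T.J b → ℝ) T.pr T.pr (fun b a _ => a = x b) (fun b a _ h => by rw [h]; exact (hx b).2) l (x l) (x l)
    rfl b hb

/-- two threads at bounded distance are equal -/
theorem To.uniq (T : To k) {x y : ∀ b, T.J b → ℝ} (hx : x ∈ T.Lim) (hy : y ∈ T.Lim) {C : ℝ}
    (h : ∀ b, dist (x b) (y b) ≤ C) : x = y := by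
  funext b
  apply eq_of_dist_eq_zero
  apply le_antisymm _ dist_nonneg
  have h1 : ∀ n : ℕ, dist (x b) (y b) ≤ C / 2 ^ n := by
    intro n
    have h2 := T.P_dist (x (b + n)) (y (b + n)) (Nat.le_add_right b n)
    rw [T.P_thread hx (Nat.le_add_right b n), T.P_thread hy (Nat.le_add_right b n),
      Nat.add_sub_cancel_left] at h2
    exact h2.trans (div_le_div_of_nonneg_right (h _) (by positivity))
  have h3 : Filter.Tendsto (fun n : ℕ => C / 2 ^ n) Filter.atTop (𝓝 0) := by
    have := (tendsto_pow_atTop_nhds_zero_of_lt_one (r := (1 / 2 : ℝ)) (by norm_num)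
      (by norm_num)).const_mul C
    simp only [mul_zero] at this
    refine this.congr (fun n => ?_)
    rw [one_div, inv_pow]
    rfl
  exact ge_of_tendsto' h3 h1

end MNG.LD
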