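import Pool.Agent.MNG.LD1
import Pool.Agent.MNG.T3

/-!
# Project MNG, layer LADDER: the facts on realizations
-/

set_option autoImplicit false

noncomputable section

namespace MNG.LD

open MNG
open Set Topology

theorem rl_cont {J V : Type} [Fintype J] [Fintype V] {K : Set (Cl J)} {T : Set (Cl V)}
    {f : Cl J → Cl V} (hK : Cx K) (hf : Mon K T f) : ContinuousOn (rl f) (Bo K) :=
  MNG.rl_cont hK hf

theorem rl_mem {J V : Type} [Fintype J] [Fintype V] {K : Set (Cl J)} {T : Set (Cl V)}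
    {f : Cl J → Cl V} (hK : Cx K) (hf : Mon K T f) {c : Cl J} (hc : c ∈ K) {x : J → ℝ}
    (hx : x ∈ bo c) : rl f x ∈ bo (f c) :=
  (MNG.rl_iff hK hf ⟨c, hc, hx⟩ (f c)).2 (hf.mono c hc _ (cr_min hx))

end MNG.LD
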