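import Pool.Agent.MNG.LD1
import Pool.Agent.MNG.LDT

/-!
# Project MNG, layer LADDER, part 2: ladders of monotone maps give homeomorphisms of the limits
-/

set_option autoImplicit false

noncomputable section

namespace MNG.LD

open MNG
open Set Topology Filter

variable {k : ℕ}

/-! ## limits of approximating maps -/

theorem phi (T : To k) {X : Type*} [TopologicalSpace X] (y : ∀ l, X → (T.J l → ℝ))
    (hy : ∀ l, Continuous (y l)) (hm : ∀ l x, y l x ∈ Bo (T.M l)) {C : ℝ}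
    (hC : ∀ l x, dist (T.pr l (y (l + 1) x)) (y l x) ≤ C) :
    ∃ Φ : X → ∀ b, T.J b → ℝ, Continuous Φ ∧ (∀ x, Φ x ∈ T.Lim) ∧
      (∀ x b, dist (y b x) (Φ x b) ≤ 2 * C) ∧
      ∀ x b, Tendsto (fun n => T.P (b + n) (y (b + n) x) b) atTop (𝓝 (Φ x b)) := by
  have h1 : ∀ (x : X) (b n : ℕ), dist (T.P (b + n) (y (b + n) x) b)
      (T.P (b + (n + 1)) (y (b + (n + 1)) x) b) ≤ (2 * C) / 2 / 2 ^ n := by
    intro x b n
    have h2 : T.P (b + (n + 1)) (y (b + (n + 1)) x) b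
        = T.P (b + n) (T.pr (b + n) (y (b + n + 1) x)) b :=
      dn_succ (A := fun b => T.J b → ℝ) T.pr (b + n) (y (b + n + 1) x) (Nat.le_add_right b n)
    rw [h2]
    have h3 := T.P_dist (y (b + n) x) (T.pr (b + n) (y (b + n + 1) x)) (Nat.le_add_right b n)
    rw [Nat.add_sub_cancel_left] at h3
    refine h3.trans ?_
    have h4 := hC (b + n) x
    rw [dist_comm] at h4
    have h5 : (2 * C) / 2 / 2 ^ n = C / 2 ^ n := by ring
    rw [h5]
    exact div_le_div_of_nonneg_right h4 (by positivity)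
  have h2 : ∀ (x : X) (b : ℕ), ∃ z, Tendsto (fun n => T.P (b + n) (y (b + n) x) b) atTop (𝓝 z) :=
    fun x b => cauchySeq_tendsto_of_complete (cauchySeq_of_le_geometric_two (h1 x b))
  choose Φ hΦ using h2
  have h3 : ∀ (x : X) (b n : ℕ), dist (T.P (b + n) (y (b + n) x) b) (Φ x b) ≤ (2 * C) / 2 ^ n :=
    fun x b n => dist_le_of_le_geometric_two_of_tendsto (h1 x b) (hΦ x b) n
  refine ⟨Φ, ?_, ?_, ?_, hΦ⟩
  · apply continuous_pi
    intro b
    apply continuous_of_uniform_approx_of_continuous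
    intro u hu
    obtain ⟨ε, hε, hu⟩ := Metric.mem_uniformity_dist.mp hu
    have h4 : Tendsto (fun n : ℕ => (2 * C) / 2 ^ n) atTop (𝓝 0) := by
      have := (tendsto_pow_atTop_nhds_zero_of_lt_one (r := (1 / 2 : ℝ)) (by norm_num)
        (by norm_num)).const_mul (2 * C)
      simp only [mul_zero] at this
      refine this.congr (fun n => ?_)
      rw [one_div, inv_pow]
      rfl
    obtain ⟨n, hn⟩ := (h4.eventually (gt_mem_nhds hε)).exists
    refine ⟨fun x => T.P (b + n) (y (b + n) x) b, ?_, ?_⟩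
    · exact (T.P_cont (b + n) (Nat.le_add_right b n)).comp (hy (b + n))
    · intro x
      apply hu
      rw [dist_comm]
      exact (h3 x b n).trans_lt hn
  · intro x b
    constructor
    · apply (Bo_closed (T.cx b).fin).mem_of_tendsto (hΦ x b)
      exact Eventually.of_forall (fun n => T.P_Bo (hm _ x) (Nat.le_add_right b n))
    · have h5 := ((T.pr_cont b).tendsto _).comp (hΦ x (b + 1))
      have h6 : Tendsto (fun n => T.P (b + (n + 1)) (y (b + (n + 1)) x) b) atTop (𝓝 (Φ x b)) :=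
        (hΦ x b).comp (tendsto_add_atTop_nat 1)
      refine tendsto_nhds_unique h5 (h6.congr ?_)
      intro n
      have h7 : b + (n + 1) = b + 1 + n := by omega
      have h8 := dn_step (A := fun b => T.J b → ℝ) T.pr (b + 1 + n) (y (b + 1 + n) x) b (by omega)
      rw [h7]
      exact h8.symm
  · intro x b
    have h4 := h3 x b 0
    have h5 : T.P (b + 0) (y (b + 0) x) b = y b x := dn_self (A := fun b => T.J b → ℝ) T.pr b (y b x)
    rw [h5] at h4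
    simpa using h4

/-! ## ladders -/

/-- ladders -/
structure Lad (S T : To k) where
  f : ∀ i, Cl (S.J i) → Cl (T.J i)
  g : ∀ i, Cl (T.J (i + 1)) → Cl (S.J i)
  fC : ∀ i, Mon (S.X i) (T.X i) (f i)
  gC : ∀ i, Mon (T.X (i + 1)) (S.X i) (g i)
  fg : ∀ i, ∀ d ∈ T.X (i + 1), Fa (f i (g i d)) (T.ka i d)
  gf : ∀ i, ∀ c ∈ S.X (i + 1), Fa (g i (f (i + 1) c)) (S.ka i c)

/-- the shifted tower -/
def To.sh (T : To k) : To k where
  J := fun b => T.J (b + 1)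
  M := fun b => T.M (b + 1)
  cx := fun b => T.cx (b + 1)
  D := T.D
  dmM := fun b => T.dmM (b + 1)
  ka := fun b => T.ka (b + 1)
  kam := fun b => T.kam (b + 1)
  pr := fun b => T.pr (b + 1)
  prL := fun b => T.prL (b + 1)
  prk := fun b => T.prk (b + 1)
  r := fun b => T.r (b + 1)
  rm := fun b => T.rm (b + 1)
  rk := fun b => T.rk (b + 1)

/-- the swapped ladder -/
def Lad.sw {S T : To k} (L : Lad S T) : Lad T.sh S where
  f := fun i => L.g i
  g := fun i => L.f (i + 1)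
  fC := fun i => L.gC i
  gC := fun i => L.fC (i + 1)
  fg := fun i => L.gf i
  gf := fun i => L.fg (i + 1)

/-- shifting threads -/
def To.shL (T : To k) (x : T.Lim) : T.sh.Lim := ⟨fun b => x.1 (b + 1), fun b => x.2 (b + 1)⟩

theorem To.shL_cont (T : To k) : Continuous T.shL := by
  apply Continuous.subtype_mk
  apply continuous_pi
  intro b
  exact (continuous_apply (b + 1)).comp continuous_subtype_val

theorem To.shL_inj (T : To k) : Function.Injective T.shL := by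
  intro x y h
  apply Subtype.ext
  funext b
  have h1 : x.1 (b + 1) = y.1 (b + 1) := congrFun (congrArg Subtype.val h) b
  rw [← (x.2 b).2, ← (y.2 b).2, h1]

/-- the approximations -/
def Lad.y {S T : To k} (L : Lad S T) (i : ℕ) (x : ∀ b, S.J b → ℝ) : T.J i → ℝ :=
  rl (L.f i) (rl (S.r i) (x (i + 1)))

theorem To.rb {S : To k} {i : ℕ} {c : Cl (S.J (i + 1))} (hc : c ∈ S.M (i + 1))
    {x : S.J (i + 1) → ℝ} (hx : x ∈ bo c) : rl (S.r i) x ∈ bo (S.r i c) :=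
  rl_mem (S.cx (i + 1)) (S.rm i) hc hx

theorem Lad.fb {S T : To k} (L : Lad S T) {i : ℕ} {c : Cl (S.J i)} (hc : c ∈ S.X i)
    {x : S.J i → ℝ} (hx : x ∈ bo c) : rl (L.f i) x ∈ bo (L.f i c) :=
  rl_mem (sk_Cx (S.cx i)) (L.fC i) hc hx

theorem Lad.gb {S T : To k} (L : Lad S T) {i : ℕ} {c : Cl (T.J (i + 1))} (hc : c ∈ T.X (i + 1))
    {x : T.J (i + 1) → ℝ} (hx : x ∈ bo c) : rl (L.g i) x ∈ bo (L.g i c) :=
  rl_mem (sk_Cx (T.cx (i + 1))) (L.gC i) hc hx

theorem Lad.y_cont {S T : To k} (L : Lad S T) (i : ℕ) :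
    Continuous (fun x : S.Lim => L.y i x.1) := by
  have h1 : ContinuousOn (fun z => rl (L.f i) (rl (S.r i) z)) (Bo (S.M (i + 1))) := by
    apply ContinuousOn.comp (rl_cont (sk_Cx (S.cx i)) (L.fC i)) (rl_cont (S.cx (i + 1)) (S.rm i))
    rintro z ⟨c, hc, hz⟩
    exact ⟨S.r i c, (S.rm i).map c hc, To.rb hc hz⟩
  have h2 : Continuous (fun x : S.Lim => x.1 (i + 1)) :=
    (continuous_apply (i + 1)).comp continuous_subtype_val
  exact h1.comp_continuous h2 (fun x => (x.2 (i + 1)).1)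

theorem Lad.y_mem {S T : To k} (L : Lad S T) (i : ℕ) {x : ∀ b, S.J b → ℝ} {c : Cl (S.J (i + 1))}
    (hc : c ∈ S.M (i + 1)) (hx : x (i + 1) ∈ bo c) : L.y i x ∈ bo (L.f i (S.r i c)) :=
  L.fb ((S.rm i).map c hc) (To.rb hc hx)

theorem Lad.drift {S T : To k} (hk : 1 ≤ k) (L : Lad S T) (i : ℕ) (x : S.Lim) :
    dist (T.pr i (L.y (i + 1) x.1)) (L.y i x.1) ≤ (S.D : ℝ) + 3 := by
  obtain ⟨c, hc, hx⟩ := (x.2 (i + 2)).1
  have hc1 : S.ka (i + 1) c ∈ S.M (i + 1) := (S.kam (i + 1)).map c hc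
  have hx1 : x.1 (i + 1) ∈ bo (S.ka (i + 1) c) := by
    rw [← (x.2 (i + 1)).2]
    exact S.prk (i + 1) c hc _ hx
  have hrc : S.r (i + 1) c ∈ S.X (i + 1) := (S.rm (i + 1)).map c hc
  have h1 : L.y (i + 1) x.1 ∈ bo (L.f (i + 1) (S.r (i + 1) c)) := L.y_mem (i + 1) hc hx
  have h2 : L.y i x.1 ∈ bo (L.f i (S.r i (S.ka (i + 1) c))) := L.y_mem i hc1 hx1
  have hd : L.f (i + 1) (S.r (i + 1) c) ∈ T.X (i + 1) := (L.fC (i + 1)).map _ hrc
  have h3 : T.pr i (L.y (i + 1) x.1) ∈ bo (T.ka i (L.f (i + 1) (S.r (i + 1) c))) :=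
    T.prk i _ hd.1 _ h1
  have h4 := L.fg i _ hd
  have hp : L.g i (L.f (i + 1) (S.r (i + 1) c)) ∈ S.X i := (L.gC i).map _ hd
  have hq : S.r i (S.ka (i + 1) c) ∈ S.X i := (S.rm i).map _ hc1
  have hK : S.ka i (S.ka (i + 1) c) ∈ S.M i := (S.kam i).map _ hc1
  have hpK : Fa (L.g i (L.f (i + 1) (S.r (i + 1) c))) (S.ka i (S.ka (i + 1) c)) :=
    Fa_trans (L.gf i _ hrc) ((S.kam i).mono _ hc1 _ (S.rk (i + 1) c hc))
  have hqK : Fa (S.r i (S.ka (i + 1) c)) (S.ka i (S.ka (i + 1) c)) := S.rk i _ hc1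
  have h5 := path hk (S.cx i).clo (L.fC i) hK (S.dmM i _ hK) hp hq hpK hqK (ba_mem _) h2
  have h6 := dist_le_one h3 (bo_mono h4 (ba_mem _))
  have h7 := dist_triangle (T.pr i (L.y (i + 1) x.1))
    (ba (L.f i (L.g i (L.f (i + 1) (S.r (i + 1) c))))) (L.y i x.1)
  linarith

theorem Lad.ex {S T : To k} (hk : 1 ≤ k) (L : Lad S T) :
    ∃ Φ : S.Lim → T.Lim, Continuous Φ ∧
      (∀ x b, dist (L.y b x.1) ((Φ x).1 b) ≤ 2 * ((S.D : ℝ) + 3)) ∧
      ∀ x b, Tendsto (fun n => T.P (b + n) (L.y (b + n) x.1) b) atTop (𝓝 ((Φ x).1 b)) := by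
  obtain ⟨Φ, h1, h2, h3, h4⟩ := phi T (X := S.Lim) (fun i x => L.y i x.1) (fun i => L.y_cont i)
    (by
      intro i x
      obtain ⟨c, hc, hx⟩ := (x.2 (i + 1)).1
      exact ⟨_, ((L.fC i).map _ ((S.rm i).map c hc)).1, L.y_mem i hc hx⟩)
    (fun i x => L.drift hk i x)
  exact ⟨fun x => ⟨Φ x, h2 x⟩, h1.subtype_mk _, h3, h4⟩

/-- the limit map -/
def Lad.Phi {S T : To k} (hk : 1 ≤ k) (L : Lad S T) : S.Lim → T.Lim := Classical.choose (L.ex hk)

theorem Lad.Phi_cont {S T : To k} (hk : 1 ≤ k) (L : Lad S T) : Continuous (L.Phi hk) :=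
  (Classical.choose_spec (L.ex hk)).1

theorem Lad.Phi_dist {S T : To k} (hk : 1 ≤ k) (L : Lad S T) (x : S.Lim) (b : ℕ) :
    dist (L.y b x.1) ((L.Phi hk x).1 b) ≤ 2 * ((S.D : ℝ) + 3) :=
  (Classical.choose_spec (L.ex hk)).2.1 x b

theorem Lad.Phi_lim {S T : To k} (hk : 1 ≤ k) (L : Lad S T) (x : S.Lim) (b : ℕ) :
    Tendsto (fun n => T.P (b + n) (L.y (b + n) x.1) b) atTop (𝓝 ((L.Phi hk x).1 b)) :=
  (Classical.choose_spec (L.ex hk)).2.2 x b

theorem Lad.Phi_uniq {S T : To k} (hk : 1 ≤ k) (L : Lad S T) (x : S.Lim) (z : T.Lim) {C : ℝ}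
    (h : ∀ b, dist (L.y b x.1) (z.1 b) ≤ C) : L.Phi hk x = z := by
  apply Subtype.ext
  apply T.uniq (L.Phi hk x).2 z.2 (C := 2 * ((S.D : ℝ) + 3) + C)
  intro b
  have h1 := dist_triangle ((L.Phi hk x).1 b) (L.y b x.1) (z.1 b)
  have h2 := L.Phi_dist hk x b
  rw [dist_comm] at h2
  linarith [h b]

theorem Lad.chain {S T : To k} (L : Lad S T) (i : ℕ) : ∀ (l : ℕ), i ≤ l → ∀ d ∈ T.X (l + 1),
    ∀ C ∈ S.M l, Fa (L.g l d) C →
      ∃ e ∈ T.X (i + 1), Fa e (T.C (l + 1) d (i + 1)) ∧ Fa (L.g i e) (S.C l C i) := by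
  intro l
  induction l with
  | zero =>
    intro hi d hd C hC h
    obtain rfl : i = 0 := by omega
    refine ⟨d, hd, ?_, ?_⟩
    · rw [show T.C (0 + 1) d (0 + 1) = d from dn_self (A := fun b => Cl (T.J b)) T.ka (0 + 1) d]
      exact Fa_refl d
    · rw [show S.C 0 C 0 = C from dn_self (A := fun b => Cl (S.J b)) S.ka 0 C]
      exact h
  | succ l ih =>
    intro hi d hd C hC h
    rcases Nat.lt_or_ge l i with h1 | h1
    · obtain rfl : i = l + 1 := by omega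
      refine ⟨d, hd, ?_, ?_⟩
      · rw [show T.C (l + 1 + 1) d (l + 1 + 1) = d from
          dn_self (A := fun b => Cl (T.J b)) T.ka (l + 1 + 1) d]
        exact Fa_refl d
      · rw [show S.C (l + 1) C (l + 1) = C from
          dn_self (A := fun b => Cl (S.J b)) S.ka (l + 1) C]
        exact h
    · have hg : L.g (l + 1) d ∈ S.X (l + 1) := (L.gC (l + 1)).map d hd
      have hd' : L.f (l + 1) (L.g (l + 1) d) ∈ T.X (l + 1) := (L.fC (l + 1)).map _ hg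
      have h2 : Fa (L.f (l + 1) (L.g (l + 1) d)) (T.ka (l + 1) d) := L.fg (l + 1) d hd
      have h3 : Fa (L.g l (L.f (l + 1) (L.g (l + 1) d))) (S.ka l C) :=
        Fa_trans (L.gf l _ hg) ((S.kam l).mono C hC _ h)
      obtain ⟨e, he, h4, h5⟩ := ih h1 _ hd' (S.ka l C) ((S.kam l).map C hC) h3
      refine ⟨e, he, ?_, ?_⟩
      · refine Fa_trans h4 ?_
        rw [show T.C (l + 1 + 1) d (i + 1) = T.C (l + 1) (T.ka (l + 1) d) (i + 1) from
          dn_succ (A := fun b => Cl (T.J b)) T.ka (l + 1) d (by omega)]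
        exact T.C_mono ((T.kam (l + 1)).map d hd.1) h2 (by omega)
      · rw [show S.C (l + 1) C i = S.C l (S.ka l C) i from
          dn_succ (A := fun b => Cl (S.J b)) S.ka l C h1]
        exact h5

theorem Lad.back_aux {S T : To k} (hk : 1 ≤ k) (L : Lad S T) (x : S.Lim) (i n : ℕ) :
    dist (rl (L.g i) (rl (T.r (i + 1)) (T.P (i + 2 + n) (L.y (i + 2 + n) x.1) (i + 2)))) (x.1 i) ≤
      (T.D : ℝ) + 3 := by
  set l : ℕ := i + 1 + n with hl
  have hl2 : i + 2 + n = l + 1 := by omega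
  rw [hl2]
  obtain ⟨c, hc, hx⟩ := (x.2 (l + 2)).1
  have hc1 : S.ka (l + 1) c ∈ S.M (l + 1) := (S.kam (l + 1)).map c hc
  have hc0 : S.ka l (S.ka (l + 1) c) ∈ S.M l := (S.kam l).map _ hc1
  have hx1 : x.1 (l + 1) ∈ bo (S.ka (l + 1) c) := by
    rw [← (x.2 (l + 1)).2]
    exact S.prk (l + 1) c hc _ hx
  have hx0 : x.1 l ∈ bo (S.ka l (S.ka (l + 1) c)) := by
    rw [← (x.2 l).2]
    exact S.prk l _ hc1 _ hx1
  have hrc : S.r (l + 1) c ∈ S.X (l + 1) := (S.rm (l + 1)).map c hc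
  have hd : L.f (l + 1) (S.r (l + 1) c) ∈ T.X (l + 1) := (L.fC (l + 1)).map _ hrc
  have h1 : L.y (l + 1) x.1 ∈ bo (L.f (l + 1) (S.r (l + 1) c)) := L.y_mem (l + 1) hc hx
  have h2 : Fa (L.g l (L.f (l + 1) (S.r (l + 1) c))) (S.ka l (S.ka (l + 1) c)) :=
    Fa_trans (L.gf l _ hrc) ((S.kam l).mono _ hc1 _ (S.rk (l + 1) c hc))
  have hil : i ≤ l := by omega
  obtain ⟨e, he, h3, h4⟩ := L.chain i l hil _ hd _ hc0 h2
  have h5 : T.P (l + 1) (L.y (l + 1) x.1) (i + 2) ∈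
      bo (T.C (l + 1) (L.f (l + 1) (S.r (l + 1) c)) (i + 2)) := T.P_bo hd.1 h1 (by omega)
  have hE : T.C (l + 1) (L.f (l + 1) (S.r (l + 1) c)) (i + 2) ∈ T.M (i + 2) :=
    T.C_mem hd.1 (by omega)
  have h6 := To.rb (i := i + 1) hE h5
  have hrE := (T.rm (i + 1)).map _ hE
  have h7 := L.gb (i := i) hrE h6
  have h8 : Fa (T.r (i + 1) (T.C (l + 1) (L.f (l + 1) (S.r (l + 1) c)) (i + 2)))
      (T.C (l + 1) (L.f (l + 1) (S.r (l + 1) c)) (i + 1)) := by
    have h9 := T.rk (i + 1) _ hE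
    rwa [show T.ka (i + 1) (T.C (l + 1) (L.f (l + 1) (S.r (l + 1) c)) (i + 2))
      = T.C (l + 1) (L.f (l + 1) (S.r (l + 1) c)) (i + 1) from
      dn_step (A := fun b => Cl (T.J b)) T.ka (l + 1) _ (i + 1) (by omega)] at h9
  have hK : T.C (l + 1) (L.f (l + 1) (S.r (l + 1) c)) (i + 1) ∈ T.M (i + 1) :=
    T.C_mem hd.1 (by omega)
  have h9 := path hk (T.cx (i + 1)).clo (L.gC i) hK (T.dmM (i + 1) _ hK) hrE he h8 h3 h7 (ba_mem _)
  have h10 : x.1 i ∈ bo (S.C l (S.ka l (S.ka (l + 1) c)) i) := by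
    have h11 := S.P_bo hc0 hx0 hil
    rwa [S.P_thread x.2 hil] at h11
  have h11 := dist_le_one (bo_mono h4 (ba_mem (L.g i e))) h10
  have h12 := dist_triangle (rl (L.g i) (rl (T.r (i + 1)) (T.P (l + 1) (L.y (l + 1) x.1) (i + 2))))
    (ba (L.g i e)) (x.1 i)
  linarith

theorem Lad.back {S T : To k} (hk : 1 ≤ k) (L : Lad S T) (x : S.Lim) (i : ℕ) :
    dist (L.sw.y i (T.shL (L.Phi hk x)).1) (x.1 i) ≤ (T.D : ℝ) + 3 := by
  have h1 : ContinuousOn (fun z => rl (L.g i) (rl (T.r (i + 1)) z)) (Bo (T.M (i + 2))) := by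
    apply ContinuousOn.comp (rl_cont (sk_Cx (T.cx (i + 1))) (L.gC i))
      (rl_cont (T.cx (i + 2)) (T.rm (i + 1)))
    rintro z ⟨c, hc, hz⟩
    exact ⟨T.r (i + 1) c, (T.rm (i + 1)).map c hc, To.rb hc hz⟩
  have h2 := h1 _ ((L.Phi hk x).2 (i + 2)).1
  have h3 : Tendsto (fun n => T.P (i + 2 + n) (L.y (i + 2 + n) x.1) (i + 2)) atTop
      (𝓝[Bo (T.M (i + 2))] ((L.Phi hk x).1 (i + 2))) := by
    rw [tendsto_nhdsWithin_iff]
    refine ⟨L.Phi_lim hk x (i + 2), Eventually.of_forall (fun n => ?_)⟩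
    apply T.P_Bo _ (Nat.le_add_right (i + 2) n)
    obtain ⟨c, hc, hx⟩ := (x.2 (i + 2 + n + 1)).1
    exact ⟨_, ((L.fC (i + 2 + n)).map _ ((S.rm (i + 2 + n)).map c hc)).1,
      L.y_mem (i + 2 + n) hc hx⟩
  have h4 := (h2.tendsto.comp h3).dist (tendsto_const_nhds (x := x.1 i))
  exact le_of_tendsto' h4 (fun n => L.back_aux hk x i n)

theorem Lad.left {S T : To k} (hk : 1 ≤ k) (L : Lad S T) (x : S.Lim) :
    L.sw.Phi hk (T.shL (L.Phi hk x)) = x :=
  L.sw.Phi_uniq hk _ x (fun b => L.back hk x b)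

theorem Lad.shift {S T : To k} (hk : 1 ≤ k) (L : Lad S T) (x : S.Lim) :
    L.sw.sw.Phi hk (S.shL x) = T.shL (L.Phi hk x) :=
  L.sw.sw.Phi_uniq hk _ _ (fun b => L.Phi_dist hk x (b + 1))

theorem Lad.right {S T : To k} (hk : 1 ≤ k) (L : Lad S T) (z : T.Lim) :
    L.Phi hk (L.sw.Phi hk (T.shL z)) = z := by
  apply T.shL_inj
  rw [← L.shift hk]
  exact L.sw.left hk (T.shL z)

/-- the homeomorphism -/
def Lad.homeo {S T : To k} (hk : 1 ≤ k) (L : Lad S T) : S.Lim ≃ₜ T.Lim where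
  toFun := L.Phi hk
  invFun := fun z => L.sw.Phi hk (T.shL z)
  left_inv := L.left hk
  right_inv := L.right hk
  continuous_toFun := L.Phi_cont hk
  continuous_invFun := (L.sw.Phi_cont hk).comp T.shL_cont

end MNG.LD
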