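import Pool.Agent.MNG.GD
import Pool.Agent.MNG.C4
import Pool.Agent.MNG.C3

/-!
# MNG-M1: the construction MAPC: the new complex and its carrier

`Ga` is closed (a face of `fs z` is a face of the same `q`). `Mon`: for `u ≠ 0` the cell `q = fs z` is in `Gr r Tp`, `P = fs (sn z)` is a face of the span of the values on some `q₁ ≥ q`; take a vertex `v` of `q`, it is a vertex of `q₁`, `κ P ≤ κ (span) ≤ κT (ca r (2 v)) ≤ κT (ca r q)` (`Mc.sp`, `ca_fa`). Closed: if `u(z) = 0` then `u(z') = 0` for faces `z'`.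
-/

set_option autoImplicit false

noncomputable section

namespace MNG

open AGM (Ei Bl Sp)
open Set Topology

variable {J V W : Type} [Fintype J] [Fintype V] [Fintype W] {k : ℕ} {L : Set (Cl J)}
  {F : Set (Cl V)} {κ : Cl V → Cl J} {Tp : Set (Cl W)} {κT : Cl W → Cl J} {r : ℕ}
  {ρ : (W → ℤ) → V → ℤ}

private theorem M1_vx {J : Type} (c : Cl J) : (fun j => c j / 2) ∈ Vx c := by
  intro j
  show fc (2 * (c j / 2)) (c j)
  unfold fc
  omega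

private theorem M1_fs {c d : Cl (W ⊕ V)} (h : Fa d c) : Fa (fs d) (fs c) := fun j => h (Sum.inl j)

private theorem M1_sn {c d : Cl (W ⊕ V)} (h : Fa d c) : Fa (sn d) (sn c) := fun j => h (Sum.inr j)

private theorem M1_mk {a c : Cl W} {b d : Cl V} (h : Fa a c) (h' : Fa b d) :
    Fa (mk a b) (mk c d) := by
  rintro (j | j)
  · exact h j
  · exact h' j

theorem ga_clo (h : Mc L F κ Tp κT r ρ) : Clo (Ga Tp r ρ) := by
  rintro z ⟨h1, q, hq, h2, h3⟩ d hd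
  exact ⟨clo_gr h.hr h.cx.clo _ h1 _ (fun j => hd (Sum.inl j)), q, hq,
    fa_trans (fun j => hd (Sum.inl j)) h2, fa_trans (fun j => hd (Sum.inr j)) h3⟩

theorem ga_F (h : Mc L F κ Tp κT r ρ) (hF : Clo F) {z : Cl (W ⊕ V)} (hz : z ∈ Ga Tp r ρ) :
    sn z ∈ F := by
  obtain ⟨-, q, hq, -, h3⟩ := hz
  exact hF _ (h.sF q hq) _ h3

theorem ga_ka (h : Mc L F κ Tp κT r ρ) (hF : Clo F) (hκ : Mon F L κ) {z : Cl (W ⊕ V)}
    (hz : z ∈ Ga Tp r ρ) : Fa (κ (sn z)) (κT (ca r (fs z))) := by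
  obtain ⟨h1, q, hq, h2, h3⟩ := hz
  have hv : (fun j => fs z j / 2) ∈ Vx (fs z) := M1_vx (fs z)
  have hv' : (fun j => fs z j / 2) ∈ Vx q := fa_trans hv h2
  have h4 := hκ.mono _ (h.sF q hq) _ h3
  have h5 := h.sp q hq _ hv'
  have h6 := h.km.mono (ca r (fs z)) h1 _ (ca_fa h.hr hv)
  exact fa_trans h4 (fa_trans h5 h6)

/-- the fibres of the thick graph are star-closed with respect to the value at every vertex -/
theorem ga_sta (h : Mc L F κ Tp κT r ρ) {q : Cl W} (hq : q ∈ Gr r Tp) {v : W → ℤ}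
    (hv : v ∈ Vx q) : Sta (ρ v) {P | mk q P ∈ Ga Tp r ρ} ∧
      (fun j => 2 * ρ v j) ∈ {P | mk q P ∈ Ga Tp r ρ} := by
  constructor
  · rintro x ⟨h1, q₁, hq₁, h2, h3⟩ c hc
    have h2' : Fa q q₁ := h2
    have h3' : Fa (fun j => 2 * x j) (spn (ρ '' Vx q₁)) := h3
    have h4 : c ∈ Fc (spn (ρ '' Vx q₁)) :=
      sta_fc (h.vx q₁ hq₁ v (fa_trans hv h2')) x h3' c hc
    exact ⟨h1, q₁, hq₁, h2', h4⟩
  · exact ⟨hq, q, hq, fa_refl q, h.vx q hq v hv⟩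

private theorem M1_u {u v : ℤ} (h : fc u v) (hv : v = 0) : u = 0 := by
  unfold fc at h
  omega

theorem fp_cx (h : Mc L F κ Tp κT r ρ) (hF : Cx F) (hκ : Mon F L κ) (a₁ b₁ : W → ℤ) :
    Cx (Fp a₁ b₁ F Tp r ρ) ∧ Mon (Fp a₁ b₁ F Tp r ρ) L (kp κ κT r) ∧
      Cub (Fp a₁ b₁ F Tp r ρ) F (fun z => fs (sn z)) ∧
      ∀ z ∈ Fp a₁ b₁ F Tp r ρ, Fa (κ (fs (sn z))) (kp κ κT r z) := by
  have hka : ∀ z ∈ Fp a₁ b₁ F Tp r ρ, sn (sn z) () ≠ 0 →
      ca r (fs z) ∈ Tp ∧ Fa (κ (fs (sn z))) (κT (ca r (fs z))) := by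
    rintro z ⟨-, -, -, h4⟩ hu
    have h5 := h4.resolve_left hu
    exact ⟨h5.1, ga_ka h hF.clo hκ h5⟩
  refine ⟨⟨?_, ?_⟩, ⟨?_, ?_⟩, ⟨⟨?_, ?_⟩, ?_⟩, ?_⟩
  · refine (cx_px (cx_bx a₁ b₁) (cx_px hF (cx_in 1))).fin.subset ?_
    rintro z ⟨h1, h2, h3, -⟩
    exact ⟨h1, h2, h3⟩
  · rintro z ⟨h1, h2, h3, h4⟩ d hd
    refine ⟨(cx_bx a₁ b₁).clo _ h1 _ (M1_fs hd), hF.clo _ h2 _ (M1_fs (M1_sn hd)),
      (cx_in 1).clo _ h3 _ (M1_sn (M1_sn hd)), ?_⟩
    rcases h4 with h4 | h4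
    · exact Or.inl (M1_u (hd (Sum.inr (Sum.inr ()))) h4)
    · exact Or.inr (ga_clo h _ h4 _ (M1_mk (M1_fs hd) (M1_fs (M1_sn hd))))
  · intro z hz
    unfold kp
    split_ifs with hu
    · exact hκ.map _ hz.2.1
    · exact h.km.map _ (hka z hz hu).1
  · intro z hz d hd
    unfold kp
    by_cases hu : sn (sn z) () = 0
    · have hu' : sn (sn d) () = 0 := M1_u (hd (Sum.inr (Sum.inr ()))) hu
      rw [if_pos hu, if_pos hu']
      exact hκ.mono _ hz.2.1 _ (M1_fs (M1_sn hd))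
    · rw [if_neg hu]
      split_ifs with hu'
      · exact fa_trans (hκ.mono _ hz.2.1 _ (M1_fs (M1_sn hd))) (hka z hz hu).2
      · exact h.km.mono _ (hka z hz hu).1 _ (ca_fa h.hr (M1_fs hd))
  · intro z hz
    exact hz.2.1
  · intro z _ d hd
    exact M1_fs (M1_sn hd)
  · intro z _
    unfold dm
    refine Finset.card_le_card_of_injOn (fun v => Sum.inr (Sum.inl v)) ?_ ?_
    · intro v hv
      have h1 := (Finset.mem_filter.1 (Finset.mem_coe.1 hv)).2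
      exact Finset.mem_coe.2 (Finset.mem_filter.2 ⟨Finset.mem_univ _, h1⟩)
    · intro v _ w _ hvw
      exact Sum.inl_injective (Sum.inr_injective hvw)
  · intro z hz
    unfold kp
    split_ifs with hu
    · exact fa_refl _
    · exact (hka z hz hu).2

end MNG
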