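import Pool.Agent.MNG.SPD

/-!
# MNG-SP1: arithmetic of carriers and subdivisions

`sp_ca_comp`: if `2 S ∣ z`, `z = 2 S q`, then `ca1 S z = 2 q` and both sides are decided by `R ∣ q`; otherwise
`ca1 S z = 2 (z / (2 S)) + 1` is odd, use `Int.ediv_ediv_eq_ediv_mul` (`Int.ediv_ediv_of_nonneg`).
`sp_fc_ca1`: if `a` is even `b = a ± 1` odd, `b` is never divisible by `2 R`; compare `a / (2 R)` and `b / (2 R)`.
`sp_cr_even`, `sp_cr_odd`: unfold `cr`, `Fx` (`s = 0`): `|x j - round (x j)| ≤ 0` iff `x j` is an integer.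
`sp_cr_div`: coordinatewise from `sp_cr_even`, `sp_cr_odd`: if `x j = m` then `x j / R` is an integer iff `R ∣ m`.
-/

set_option autoImplicit false

noncomputable section

namespace MNG

open AGM (Ei Bl Sp)
open Set Topology

private theorem sp1_even {R : ℕ} (hR : 0 < R) {z m : ℤ} (h : z = 2 * (R : ℤ) * m) :
    ca1 R z = 2 * m := by
  have hR' : (R : ℤ) ≠ 0 := by exact_mod_cast hR.ne'
  unfold ca1
  rw [if_pos ⟨m, h⟩, h]
  exact Int.ediv_eq_of_eq_mul_left hR' (by ring)

private theorem sp1_odd {R : ℕ} (hR : 0 < R) {z m : ℤ} (h1 : 2 * (R : ℤ) * m < z)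
    (h2 : z < 2 * (R : ℤ) * (m + 1)) : ca1 R z = 2 * m + 1 := by
  have hR' : (0 : ℤ) < 2 * (R : ℤ) := by
    have : (0 : ℤ) < (R : ℤ) := by exact_mod_cast hR
    linarith
  have hn : ¬ 2 * (R : ℤ) ∣ z := by
    rintro ⟨q, hq⟩
    rw [hq] at h1 h2
    have h3 := lt_of_mul_lt_mul_left h1 hR'.le
    have h4 := lt_of_mul_lt_mul_left h2 hR'.le
    omega
  unfold ca1
  rw [if_neg hn]
  have h5 : z / (2 * (R : ℤ)) = m := by
    apply le_antisymm
    · have h6 : z / (2 * (R : ℤ)) < m + 1 := Int.ediv_lt_of_lt_mul hR' (by rw [mul_comm]; exact h2)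
      omega
    · exact Int.le_ediv_of_mul_le hR' (by rw [mul_comm]; exact h1.le)
  rw [h5]

private theorem sp1_cases {R : ℕ} (hR : 0 < R) (z : ℤ) :
    (∃ m : ℤ, z = 2 * (R : ℤ) * m ∧ ca1 R z = 2 * m) ∨
      ∃ m : ℤ, 2 * (R : ℤ) * m < z ∧ z < 2 * (R : ℤ) * (m + 1) ∧ ca1 R z = 2 * m + 1 := by
  have hR' : (0 : ℤ) < 2 * (R : ℤ) := by
    have : (0 : ℤ) < (R : ℤ) := by exact_mod_cast hR
    linarith
  by_cases h : 2 * (R : ℤ) ∣ z
  · obtain ⟨m, hm⟩ := h
    exact Or.inl ⟨m, hm, sp1_even hR hm⟩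
  · right
    have h1 : 2 * (R : ℤ) * (z / (2 * (R : ℤ))) ≤ z := Int.mul_ediv_self_le hR'.ne'
    have h2 : z < 2 * (R : ℤ) * (z / (2 * (R : ℤ)) + 1) := by
      have h3 := Int.lt_ediv_add_one_mul_self z hR'
      rw [mul_comm]
      exact h3
    have h4 : 2 * (R : ℤ) * (z / (2 * (R : ℤ))) < z := by
      refine lt_of_le_of_ne h1 fun h5 => h ⟨_, h5.symm⟩
    exact ⟨_, h4, h2, sp1_odd hR h4 h2⟩

private theorem sp1_cr {J : Type} (x : J → ℝ) (j : J) :
    (∃ m : ℤ, x j = m ∧ cr x j = 2 * m) ∨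
      ∃ m : ℤ, (m : ℝ) < x j ∧ x j < m + 1 ∧ cr x j = 2 * m + 1 := by
  have e : cr x j = if |x j - round (x j)| ≤ 0 / 2 then 2 * round (x j) else 2 * ⌊x j⌋ + 1 := rfl
  by_cases h : |x j - round (x j)| ≤ 0 / 2
  · left
    refine ⟨round (x j), ?_, ?_⟩
    · rw [zero_div, abs_nonpos_iff, sub_eq_zero] at h
      exact h
    · rw [e, if_pos h]
  · right
    refine ⟨⌊x j⌋, ?_, Int.lt_floor_add_one (x j), ?_⟩
    · rcases lt_or_eq_of_le (Int.floor_le (x j)) with h1 | h1
      · exact h1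
      · exfalso
        apply h
        rw [zero_div, abs_nonpos_iff, sub_eq_zero]
        have h2 : round (x j) = ⌊x j⌋ := by
          conv_lhs => rw [← h1]
          exact round_intCast _
        rw [h2, h1]
    · rw [e, if_neg h]

theorem sp_ca_comp {J : Type} (R S : ℕ) (hR : 0 < R) (hS : 0 < S) (c : Cl J) :
    ca R (ca S c) = ca (R * S) c := by
  funext j
  show ca1 R (ca1 S (c j)) = ca1 (R * S) (c j)
  generalize c j = z
  have hS' : (0 : ℤ) < (S : ℤ) := by exact_mod_cast hS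
  have hR' : (0 : ℤ) < (R : ℤ) := by exact_mod_cast hR
  have hRS : 0 < R * S := Nat.mul_pos hR hS
  rcases sp1_cases hS z with ⟨m, h1, h2⟩ | ⟨m, h1, h2, h3⟩
  · rw [h2]
    rcases sp1_cases hR (2 * m) with ⟨n, h4, h5⟩ | ⟨n, h4, h5, h6⟩
    · rw [h5]
      symm
      refine sp1_even hRS ?_
      push_cast
      have h6 : m = R * n := by
        have : 2 * m = 2 * (R * n) := by rw [h4]; ring
        linarith
      rw [h1, h6]
      ring
    · rw [h6]
      symm
      have h7 : (R : ℤ) * n < m := by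
        have : 2 * ((R : ℤ) * n) < 2 * m := by
          calc 2 * ((R : ℤ) * n) = 2 * (R : ℤ) * n := by ring
            _ < 2 * m := h4
        linarith
      have h8 : m < (R : ℤ) * (n + 1) := by
        have : 2 * m < 2 * ((R : ℤ) * (n + 1)) := by
          calc 2 * m < 2 * (R : ℤ) * (n + 1) := h5
            _ = 2 * ((R : ℤ) * (n + 1)) := by ring
        linarith
      refine sp1_odd hRS ?_ ?_
      · push_cast
        rw [h1]
        calc 2 * ((R : ℤ) * S) * n = 2 * S * ((R : ℤ) * n) := by ring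
          _ < 2 * S * m := mul_lt_mul_of_pos_left h7 (by linarith)
      · push_cast
        rw [h1]
        calc 2 * (S : ℤ) * m < 2 * S * ((R : ℤ) * (n + 1)) := mul_lt_mul_of_pos_left h8 (by linarith)
          _ = 2 * ((R : ℤ) * S) * (n + 1) := by ring
  · rw [h3]
    rcases sp1_cases hR (2 * m + 1) with ⟨n, h4, h5⟩ | ⟨n, h4, h5, h6⟩
    · exfalso
      have h6 : 2 * m + 1 = 2 * ((R : ℤ) * n) := by rw [h4]; ring
      generalize (R : ℤ) * n = t at h6
      omega
    · rw [h6]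
      symm
      have h7 : (R : ℤ) * n ≤ m := by
        have : 2 * ((R : ℤ) * n) < 2 * m + 1 := by
          calc 2 * ((R : ℤ) * n) = 2 * (R : ℤ) * n := by ring
            _ < 2 * m + 1 := h4
        generalize (R : ℤ) * n = t at this ⊢
        omega
      have h8 : m + 1 ≤ (R : ℤ) * (n + 1) := by
        have : 2 * m + 1 < 2 * ((R : ℤ) * (n + 1)) := by
          calc 2 * m + 1 < 2 * (R : ℤ) * (n + 1) := h5
            _ = 2 * ((R : ℤ) * (n + 1)) := by ring
        generalize (R : ℤ) * (n + 1) = t at this ⊢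
        omega
      refine sp1_odd hRS ?_ ?_
      · push_cast
        calc 2 * ((R : ℤ) * S) * n = 2 * S * ((R : ℤ) * n) := by ring
          _ ≤ 2 * S * m := mul_le_mul_of_nonneg_left h7 (by linarith)
          _ < z := h1
      · push_cast
        calc z < 2 * (S : ℤ) * (m + 1) := h2
          _ ≤ 2 * S * ((R : ℤ) * (n + 1)) := mul_le_mul_of_nonneg_left h8 (by linarith)
          _ = 2 * ((R : ℤ) * S) * (n + 1) := by ring

theorem sp_fc_ca1 (R : ℕ) (hR : 0 < R) {a b : ℤ} (h : fc a b) : fc (ca1 R a) (ca1 R b) := by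
  rcases h with h | ⟨h0, h⟩
  · left
    rw [h]
  · rcases sp1_cases hR b with ⟨m, h1, h2⟩ | ⟨m, h1, h2, h3⟩
    · exfalso
      have h6 : b = 2 * ((R : ℤ) * m) := by rw [h1]; ring
      generalize (R : ℤ) * m = t at h6
      omega
    · have e1 : 2 * (R : ℤ) * m = 2 * ((R : ℤ) * m) := by ring
      have e2 : 2 * (R : ℤ) * (m + 1) = 2 * ((R : ℤ) * (m + 1)) := by ring
      have h4 : 2 * (R : ℤ) * m ≤ a := by
        rw [e1] at h1 ⊢
        generalize (R : ℤ) * m = t at h1 ⊢
        omega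
      have h5 : a ≤ 2 * (R : ℤ) * (m + 1) := by
        rw [e2] at h2 ⊢
        generalize (R : ℤ) * (m + 1) = t at h2 ⊢
        omega
      rw [h3]
      rcases h4.eq_or_lt with h6 | h6
      · right
        rw [sp1_even hR h6.symm]
        omega
      · rcases h5.eq_or_lt with h7 | h7
        · right
          rw [sp1_even hR h7]
          omega
        · left
          exact sp1_odd hR h6 h7

theorem sp_fa_ca {J : Type} (R : ℕ) (hR : 0 < R) {a b : Cl J} (h : Fa a b) :
    Fa (ca R a) (ca R b) := fun j => sp_fc_ca1 R hR (h j)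

theorem sp_dm_ca {J : Type} [Fintype J] (R : ℕ) (hR : 0 < R) (c : Cl J) : dm c ≤ dm (ca R c) := by
  unfold dm
  refine Finset.card_le_card fun j hj => ?_
  rw [Finset.mem_filter] at hj ⊢
  refine ⟨hj.1, ?_⟩
  show ca1 R (c j) % 2 = 1
  rcases sp1_cases hR (c j) with ⟨m, h1, h2⟩ | ⟨m, h1, h2, h3⟩
  · exfalso
    have h6 : c j = 2 * ((R : ℤ) * m) := by rw [h1]; ring
    have h7 := hj.2
    rw [h6] at h7
    generalize (R : ℤ) * m = t at h7
    omega
  · rw [h3]
    omega

private theorem sp1_clo {J : Type} {R : ℕ} (hR : 0 < R) {K : Set (Cl J)} (hK : Clo K) :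
    Clo (Gr R K) := fun c hc d hd => hK (ca R c) hc (ca R d) (sp_fa_ca R hR hd)

/-- subdivisions of finite complexes -/
theorem sp_cx_gr {J : Type} [Fintype J] (R : ℕ) (hR : 0 < R) {K : Set (Cl J)} (hK : Cx K) :
    Cx (Gr R K) := by
  refine ⟨?_, sp1_clo hR hK.clo⟩
  have hR' : (0 : ℤ) < (R : ℤ) := by exact_mod_cast hR
  have hfin : (⋃ d ∈ K, Set.pi univ (fun j : J =>
      Icc ((R : ℤ) * (d j - 1)) ((R : ℤ) * (d j + 1)))).Finite :=
    hK.fin.biUnion fun d _ => Set.Finite.pi fun j => Set.finite_Icc _ _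
  refine hfin.subset fun c hc => ?_
  rw [Set.mem_iUnion₂]
  refine ⟨ca R c, hc, fun j _ => ?_⟩
  show c j ∈ Icc ((R : ℤ) * (ca1 R (c j) - 1)) ((R : ℤ) * (ca1 R (c j) + 1))
  rcases sp1_cases hR (c j) with ⟨m, h1, h2⟩ | ⟨m, h1, h2, h3⟩
  · rw [h2]
    constructor
    · rw [h1]
      linarith [show (R : ℤ) * (2 * m - 1) = 2 * R * m - R by ring]
    · rw [h1]
      linarith [show (R : ℤ) * (2 * m + 1) = 2 * R * m + R by ring]
  · rw [h3]
    constructor
    · linarith [show (R : ℤ) * (2 * m + 1 - 1) = 2 * R * m by ring]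
    · linarith [show (R : ℤ) * (2 * m + 1 + 1) = 2 * R * (m + 1) by ring]

theorem sp_gr_gr {J : Type} (R S : ℕ) (hR : 0 < R) (hS : 0 < S) (K : Set (Cl J)) :
    Gr S (Gr R K) = Gr (R * S) K := by
  ext c
  show ca R (ca S c) ∈ K ↔ ca (R * S) c ∈ K
  rw [sp_ca_comp R S hR hS]

theorem sp_cr_even {J : Type} (x : J → ℝ) (j : J) (m : ℤ) : cr x j = 2 * m ↔ x j = m := by
  rcases sp1_cr x j with ⟨n, h1, h2⟩ | ⟨n, h1, h2, h3⟩
  · rw [h2, h1]
    constructor
    · intro h
      have h4 : n = m := by omega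
      rw [h4]
    · intro h
      have h4 : n = m := by exact_mod_cast h
      rw [h4]
  · rw [h3]
    constructor
    · intro h
      omega
    · intro h
      exfalso
      rw [h] at h1 h2
      have h4 : n < m := by exact_mod_cast h1
      have h5 : m < n + 1 := by exact_mod_cast h2
      omega

theorem sp_cr_odd {J : Type} (x : J → ℝ) (j : J) (m : ℤ) :
    cr x j = 2 * m + 1 ↔ (m : ℝ) < x j ∧ x j < m + 1 := by
  rcases sp1_cr x j with ⟨n, h1, h2⟩ | ⟨n, h1, h2, h3⟩
  · rw [h2, h1]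
    constructor
    · intro h
      omega
    · rintro ⟨h3, h4⟩
      exfalso
      have h5 : m < n := by exact_mod_cast h3
      have h6 : n < m + 1 := by exact_mod_cast h4
      omega
  · rw [h3]
    constructor
    · intro h
      have h4 : n = m := by omega
      rw [← h4]
      exact ⟨h1, h2⟩
    · rintro ⟨h4, h5⟩
      have h6 : (m : ℝ) < n + 1 := lt_trans h4 h2
      have h7 : (n : ℝ) < m + 1 := lt_trans h1 h5
      have h8 : m < n + 1 := by exact_mod_cast h6
      have h9 : n < m + 1 := by exact_mod_cast h7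
      omega

theorem sp_cr_le {J : Type} (x : J → ℝ) (j : J) (m : ℤ) : cr x j ≤ 2 * m ↔ x j ≤ m := by
  rcases sp1_cr x j with ⟨n, h1, h2⟩ | ⟨n, h1, h2, h3⟩
  · rw [h2, h1]
    constructor
    · intro h
      have h4 : n ≤ m := by omega
      exact_mod_cast h4
    · intro h
      have h4 : n ≤ m := by exact_mod_cast h
      omega
  · rw [h3]
    constructor
    · intro h
      have h4 : n + 1 ≤ m := by omega
      have h5 : ((n : ℝ) + 1) ≤ m := by exact_mod_cast h4
      linarith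
    · intro h
      have h4 : (n : ℝ) < m := lt_of_lt_of_le h1 h
      have h5 : n < m := by exact_mod_cast h4
      omega

theorem sp_le_cr {J : Type} (x : J → ℝ) (j : J) (m : ℤ) : 2 * m ≤ cr x j ↔ (m : ℝ) ≤ x j := by
  rcases sp1_cr x j with ⟨n, h1, h2⟩ | ⟨n, h1, h2, h3⟩
  · rw [h2, h1]
    constructor
    · intro h
      have h4 : m ≤ n := by omega
      exact_mod_cast h4
    · intro h
      have h4 : m ≤ n := by exact_mod_cast h
      omega
  · rw [h3]
    constructor
    · intro h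
      have h4 : m ≤ n := by omega
      have h5 : (m : ℝ) ≤ n := by exact_mod_cast h4
      linarith
    · intro h
      have h4 : (m : ℝ) < n + 1 := lt_of_le_of_lt h h2
      have h5 : m < n + 1 := by exact_mod_cast h4
      omega

theorem sp_cr_div {J : Type} (R : ℕ) (hR : 0 < R) (x : J → ℝ) :
    cr (fun j => x j / (R : ℝ)) = ca R (cr x) := by
  have hRr : (0 : ℝ) < (R : ℝ) := by exact_mod_cast hR
  funext j
  show cr (fun j => x j / (R : ℝ)) j = ca1 R (cr x j)
  rcases sp1_cr x j with ⟨n, h1, h2⟩ | ⟨n, h1, h2, h3⟩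
  · rw [h2]
    rcases sp1_cases hR (2 * n) with ⟨m, h4, h5⟩ | ⟨m, h4, h5, h6⟩
    · rw [h5, sp_cr_even]
      have h6 : n = R * m := by
        have : 2 * n = 2 * (R * m) := by rw [h4]; ring
        linarith
      show x j / (R : ℝ) = m
      rw [h1, h6]
      push_cast
      field_simp
    · rw [h6, sp_cr_odd]
      have h7 : (R : ℤ) * m < n := by
        have : 2 * ((R : ℤ) * m) < 2 * n := by
          calc 2 * ((R : ℤ) * m) = 2 * (R : ℤ) * m := by ring
            _ < 2 * n := h4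
        linarith
      have h8 : n < (R : ℤ) * (m + 1) := by
        have : 2 * n < 2 * ((R : ℤ) * (m + 1)) := by
          calc 2 * n < 2 * (R : ℤ) * (m + 1) := h5
            _ = 2 * ((R : ℤ) * (m + 1)) := by ring
        linarith
      have h7' : (R : ℝ) * m < n := by exact_mod_cast h7
      have h8' : (n : ℝ) < R * (m + 1) := by exact_mod_cast h8
      show (m : ℝ) < x j / (R : ℝ) ∧ x j / (R : ℝ) < m + 1
      rw [h1, lt_div_iff₀ hRr, div_lt_iff₀ hRr]
      constructor
      · linarith [mul_comm (R : ℝ) m]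
      · linarith [mul_comm (R : ℝ) (m + 1)]
  · rw [h3]
    rcases sp1_cases hR (2 * n + 1) with ⟨m, h4, h5⟩ | ⟨m, h4, h5, h6⟩
    · exfalso
      have h6 : 2 * n + 1 = 2 * ((R : ℤ) * m) := by rw [h4]; ring
      generalize (R : ℤ) * m = t at h6
      omega
    · rw [h6, sp_cr_odd]
      have h7 : (R : ℤ) * m ≤ n := by
        have : 2 * ((R : ℤ) * m) < 2 * n + 1 := by
          calc 2 * ((R : ℤ) * m) = 2 * (R : ℤ) * m := by ring
            _ < 2 * n + 1 := h4
        generalize (R : ℤ) * m = t at this ⊢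
        omega
      have h8 : n + 1 ≤ (R : ℤ) * (m + 1) := by
        have : 2 * n + 1 < 2 * ((R : ℤ) * (m + 1)) := by
          calc 2 * n + 1 < 2 * (R : ℤ) * (m + 1) := h5
            _ = 2 * ((R : ℤ) * (m + 1)) := by ring
        generalize (R : ℤ) * (m + 1) = t at this ⊢
        omega
      have h7' : (R : ℝ) * m ≤ n := by exact_mod_cast h7
      have h8' : (n : ℝ) + 1 ≤ R * (m + 1) := by exact_mod_cast h8
      show (m : ℝ) < x j / (R : ℝ) ∧ x j / (R : ℝ) < m + 1
      rw [lt_div_iff₀ hRr, div_lt_iff₀ hRr]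
      constructor
      · linarith [mul_comm (R : ℝ) m]
      · linarith [mul_comm (R : ℝ) (m + 1)]

theorem sp_Bo_cr {J : Type} {K : Set (Cl J)} (hK : Clo K) (x : J → ℝ) : x ∈ Bo K ↔ cr x ∈ K :=
  ⟨fun h => cr_mem hK h, fun h => ⟨_, h, cr_bo x⟩⟩

theorem sp_Bo_gr {J : Type} [Fintype J] (R : ℕ) (hR : 0 < R) {K : Set (Cl J)} (hK : Clo K)
    (x : J → ℝ) : x ∈ Bo (Gr R K) ↔ (fun j => x j / (R : ℝ)) ∈ Bo K := by
  rw [sp_Bo_cr (sp1_clo hR hK), sp_Bo_cr hK, sp_cr_div R hR]
  exact Iff.rfl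

end MNG
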