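import Pool.Agent.MNG.SP1

/-!
# MNG-SP2: the stages of the sponge

The sets `Nn k b` are finite complexes; the carrier `ca 3` maps `Nn k (b + 1)` to `Nn k b` and the
rounding `rh` maps it to the `k`-skeleton of `Nn k b`; the iterates over four stages; the first stage is
a cube. Everything is checked coordinatewise by integer arithmetic modulo `6`.
-/

set_option autoImplicit false

noncomputable section

namespace MNG

open AGM (Ei Bl Sp)
open Set Topology

private theorem sp2_ca3 (z : ℤ) : ca1 3 z = if z % 6 = 0 then z / 3 else 2 * (z / 6) + 1 := by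
  have h1 : (2 * ((3 : ℕ) : ℤ)) = 6 := by norm_num
  have h2 : ((3 : ℕ) : ℤ) = 3 := by norm_num
  unfold ca1
  rw [h1, h2]
  by_cases h : z % 6 = 0
  · rw [if_pos h, if_pos (Int.dvd_of_emod_eq_zero h)]
  · rw [if_neg h, if_neg (fun h' => h (Int.emod_eq_zero_of_dvd h'))]

private theorem sp2_fc_trans {a b c : ℤ} (h : fc a b) (h' : fc b c) : fc a c := by
  unfold fc at *
  omega

private theorem sp2_fa_trans {J : Type} {a b c : Cl J} (h : Fa a b) (h' : Fa b c) : Fa a c :=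
  fun j => sp2_fc_trans (h j) (h' j)

private theorem sp2_rh1_fc {a b : ℤ} (h : fc a b) : fc (rh1 a) (rh1 b) := by
  unfold fc rh1 at *
  split_ifs <;> omega

private theorem sp2_rh_fa {J : Type} {a b : Cl J} (h : Fa a b) : Fa (rh a) (rh b) :=
  fun j => sp2_rh1_fc (h j)

private theorem sp2_rh1_odd {z : ℤ} (h : rh1 z % 2 = 1) : z % 6 = 3 := by
  unfold rh1 at h
  split_ifs at h <;> omega

private theorem sp2_rh_dm {J : Type} [Fintype J] (c : Cl J) : dm (rh c) ≤ dm c := by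
  refine Finset.card_le_card (fun j hj => ?_)
  rw [Finset.mem_filter] at hj ⊢
  have := sp2_rh1_odd hj.2
  exact ⟨Finset.mem_univ j, by omega⟩

theorem sp_nn_range (k b : ℕ) (c : Cl (Fin (2 * k + 1))) (hc : c ∈ Nn k b) (j : Fin (2 * k + 1)) :
    0 ≤ c j ∧ c j ≤ 2 * 3 ^ b := by
  induction b generalizing c with
  | zero =>
    have := hc j
    simpa using this
  | succ b ih =>
    have h := ih _ hc.1
    have h' : 0 ≤ ca1 3 (c j) ∧ ca1 3 (c j) ≤ 2 * 3 ^ b := h
    rw [sp2_ca3] at h'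
    have e : (3 : ℤ) ^ (b + 1) = 3 * 3 ^ b := by ring
    rw [e]
    generalize (3 : ℤ) ^ b = N at h' ⊢
    split_ifs at h' <;> omega

theorem sp_nn_cx (k b : ℕ) : Cx (Nn k b) := by
  constructor
  · refine (Set.finite_Icc (0 : Cl (Fin (2 * k + 1))) (fun _ => 2 * 3 ^ b)).subset ?_
    intro c hc
    exact ⟨fun j => (sp_nn_range k b c hc j).1, fun j => (sp_nn_range k b c hc j).2⟩
  · induction b with
    | zero =>
      intro c hc d hd j
      have h1 := hc j
      have h2 := hd j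
      unfold fc at h2
      omega
    | succ b ih =>
      intro c hc d hd
      refine ⟨ih _ hc.1 _ (sp_fa_ca 3 (by norm_num) hd), le_trans (Finset.card_le_card ?_) hc.2⟩
      intro j hj
      rw [Finset.mem_filter] at hj ⊢
      have h2 := hd j
      have h3 := hj.2
      unfold fc at h2
      exact ⟨Finset.mem_univ j, by omega⟩

theorem sp_nn_zero (k b : ℕ) : (fun _ => 0) ∈ Nn k b := by
  induction b with
  | zero =>
    intro j
    constructor <;> norm_num
  | succ b ih =>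
    refine ⟨?_, ?_⟩
    · have : ca 3 (fun _ => (0 : ℤ)) = (fun _ : Fin (2 * k + 1) => (0 : ℤ)) := by
        funext j
        change ca1 3 0 = 0
        rw [sp2_ca3]
        norm_num
      rw [this]
      exact ih
    · have : (Finset.univ.filter (fun _ : Fin (2 * k + 1) => (0 : ℤ) % 6 = 3)) = ∅ := by
        refine Finset.filter_eq_empty_iff.mpr ?_
        intro j _
        norm_num
      rw [this]
      exact Nat.zero_le _

theorem sp_dm_le (k : ℕ) (c : Cl (Fin (2 * k + 1))) : dm c ≤ 2 * k + 1 := by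
  refine le_trans (Finset.card_le_univ _) ?_
  simp

theorem sp_nn_ka (k b : ℕ) : Mon (Nn k (b + 1)) (Nn k b) (ca 3) :=
  ⟨fun _ hc => hc.1, fun _ _ _ hd => sp_fa_ca 3 (by norm_num) hd⟩

private theorem sp2_ca81 {J : Type} (c : Cl J) : ca 81 c = ca 3 (ca 3 (ca 3 (ca 3 c))) := by
  rw [sp_ca_comp 3 3 (by norm_num) (by norm_num) c,
    sp_ca_comp 3 (3 * 3) (by norm_num) (by norm_num) c,
    sp_ca_comp 3 (3 * (3 * 3)) (by norm_num) (by norm_num) c]

/-- the carrier over four stages -/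
theorem sp_nn_ka4 (k b : ℕ) : Mon (Nn k (b + 4)) (Nn k b) (ca 81) := by
  refine ⟨fun c hc => ?_, fun _ _ _ hd => sp_fa_ca 81 (by norm_num) hd⟩
  rw [sp2_ca81]
  exact (sp_nn_ka k b).map _ ((sp_nn_ka k (b + 1)).map _ ((sp_nn_ka k (b + 2)).map _
    ((sp_nn_ka k (b + 3)).map _ hc)))

theorem sp_rh_ca {J : Type} (c : Cl J) : Fa (rh c) (ca 3 c) := by
  intro j
  change fc (rh1 (c j)) (ca1 3 (c j))
  rw [sp2_ca3]
  unfold fc rh1
  split_ifs <;> omega

theorem sp_nn_rh (k b : ℕ) : Cub (Nn k (b + 1)) (sk k (Nn k b)) rh := by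
  refine ⟨⟨fun c hc => ⟨?_, ?_⟩, fun _ _ _ hd => sp2_rh_fa hd⟩, fun c _ => sp2_rh_dm c⟩
  · exact (sp_nn_cx k b).clo _ hc.1 _ (sp_rh_ca c)
  · refine le_trans (Finset.card_le_card ?_) hc.2
    intro j hj
    rw [Finset.mem_filter] at hj ⊢
    exact ⟨Finset.mem_univ j, sp2_rh1_odd hj.2⟩

/-- the rounding over four stages -/
theorem sp_nn_rh4 (k b : ℕ) :
    Cub (Nn k (b + 4)) (sk k (Nn k b)) (fun c => rh (rh (rh (rh c)))) := by
  refine ⟨⟨fun c hc => ?_, fun _ _ _ hd => sp2_rh_fa (sp2_rh_fa (sp2_rh_fa (sp2_rh_fa hd)))⟩,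
    fun c _ => ?_⟩
  · exact (sp_nn_rh k b).map _ ((sp_nn_rh k (b + 1)).map _ ((sp_nn_rh k (b + 2)).map _
      ((sp_nn_rh k (b + 3)).map _ hc).1).1).1
  · exact le_trans (sp2_rh_dm _) (le_trans (sp2_rh_dm _) (le_trans (sp2_rh_dm _) (sp2_rh_dm _)))

theorem sp_rh4_ca {J : Type} (c : Cl J) : Fa (rh (rh (rh (rh c)))) (ca 81 c) := by
  rw [sp2_ca81]
  have h3 : 0 < 3 := by norm_num
  have h1 := sp_rh_ca c
  have h2 := sp2_fa_trans (sp_rh_ca (rh c)) (sp_fa_ca 3 h3 h1)
  have h4 := sp2_fa_trans (sp_rh_ca (rh (rh c))) (sp_fa_ca 3 h3 h2)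
  exact sp2_fa_trans (sp_rh_ca (rh (rh (rh c)))) (sp_fa_ca 3 h3 h4)

private theorem sp2_bo_start (k : ℕ) : Bo (Nn k 0) = Icc (0 : Fin (2 * k + 1) → ℝ) 1 := by
  ext x
  constructor
  · rintro ⟨c, hc, hx⟩
    have key : ∀ j, 0 ≤ x j ∧ x j ≤ 1 := by
      intro j
      have h1 := hc j
      have h2 : |2 * x j - (c j : ℝ)| ≤ ((c j % 2 : ℤ) : ℝ) := hx j
      have h3 : c j = 0 ∨ c j = 1 ∨ c j = 2 := by omega
      rcases h3 with h3 | h3 | h3
      · rw [h3, abs_le] at h2
        norm_num at h2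
        constructor <;> linarith [h2.1, h2.2]
      · rw [h3, abs_le] at h2
        norm_num at h2
        constructor <;> linarith [h2.1, h2.2]
      · rw [h3, abs_le] at h2
        norm_num at h2
        constructor <;> linarith [h2.1, h2.2]
    exact ⟨fun j => (key j).1, fun j => (key j).2⟩
  · rintro ⟨h0, h1⟩
    refine ⟨fun _ => 1, fun _ => ⟨by norm_num, by norm_num⟩, fun j => ?_⟩
    have h0j : 0 ≤ x j := h0 j
    have h1j : x j ≤ 1 := h1 j
    rw [abs_le]
    norm_num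
    constructor <;> linarith

/-- `X_0` -/
theorem sp_nn_start (k : ℕ) : Cx (Nn k 0) ∧ Convex ℝ (Bo (Nn k 0)) ∧ (Bo (Nn k 0)).Nonempty := by
  refine ⟨sp_nn_cx k 0, ?_, ?_⟩
  · rw [sp2_bo_start]
    exact convex_Icc _ _
  · rw [sp2_bo_start]
    exact ⟨0, le_refl _, fun _ => zero_le_one⟩

end MNG
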