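import Pool.Agent.MNG.SP2

/-!
# MNG-SP3: the limit of the stages is the standard Menger compactum

`x ∈ MC k → cr (3 ^ b x) ∈ Nn k b` by induction on `b`: `b = 0`: `0 ≤ x j ≤ 1`; step: `ca 3 (cr (3 ^ (b+1) x)) = cr (3 ^ b x)`
(`sp_cr_div`), and `cr (3 ^ (b+1) x) j % 6 = 3` iff `3 m + 1 < 3 ^ (b+1) x j < 3 m + 2` for an integer `m` (`sp_cr_odd`), iff
`1/3 < fract (3 ^ b x j) < 2/3`; the cardinality of the `Finset.filter` is the `ncard` of the set. Conversely the same equivalence for all `b`.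
-/

set_option autoImplicit false

noncomputable section

namespace MNG

open AGM (Ei Bl Sp)
open Set Topology

/-- the middle thirds -/
theorem sp_mid (k b : ℕ) (x : Fin (2 * k + 1) → ℝ) (j : Fin (2 * k + 1)) :
    cr (fun j => (3 : ℝ) ^ (b + 1) * x j) j % 6 = 3 ↔
      1 / 3 < Int.fract ((3 : ℝ) ^ b * x j) ∧ Int.fract ((3 : ℝ) ^ b * x j) < 2 / 3 := by
  have hy : (3 : ℝ) ^ (b + 1) * x j = 3 * ((3 : ℝ) ^ b * x j) := by
    rw [pow_succ]
    ring
  have key : ∀ n : ℤ, cr (fun j => (3 : ℝ) ^ (b + 1) * x j) j = 2 * (3 * n + 1) + 1 ↔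
      (3 * (n : ℝ) + 1 < 3 * ((3 : ℝ) ^ b * x j) ∧ 3 * ((3 : ℝ) ^ b * x j) < 3 * (n : ℝ) + 2) := fun n => by
    rw [sp_cr_odd, hy]
    push_cast
    constructor
    · rintro ⟨h1, h2⟩
      exact ⟨h1, by linarith⟩
    · rintro ⟨h1, h2⟩
      exact ⟨h1, by linarith⟩
  generalize (3 : ℝ) ^ b * x j = z at key
  generalize cr (fun j => (3 : ℝ) ^ (b + 1) * x j) j = c at key
  constructor
  · intro h
    have h1 : c = 2 * (3 * (c / 6) + 1) + 1 := by omega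
    have h2 := (key (c / 6)).1 h1
    have h3 : ⌊z⌋ = c / 6 := by
      rw [Int.floor_eq_iff]
      exact ⟨by linarith [h2.1], by linarith [h2.2]⟩
    have h4 : Int.fract z = z - ((c / 6 : ℤ) : ℝ) := by
      rw [← h3]
      rfl
    rw [h4]
    exact ⟨by linarith [h2.1], by linarith [h2.2]⟩
  · rintro ⟨h1, h2⟩
    have h3 : Int.fract z = z - (⌊z⌋ : ℝ) := rfl
    rw [h3] at h1 h2
    have h4 := (key ⌊z⌋).2 ⟨by linarith, by linarith⟩
    omega

private theorem SP3_card (k b : ℕ) (x : Fin (2 * k + 1) → ℝ) :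
    (Finset.univ.filter (fun j => cr (fun j => (3 : ℝ) ^ (b + 1) * x j) j % 6 = 3)).card =
      {i | 1 / 3 < Int.fract ((3 : ℝ) ^ b * x i) ∧ Int.fract ((3 : ℝ) ^ b * x i) < 2 / 3}.ncard := by
  rw [← Set.ncard_coe_finset]
  congr 1
  ext i
  simp only [Finset.coe_filter, Finset.mem_univ, true_and, Set.mem_ofPred_eq]
  exact sp_mid k b x i

private theorem SP3_ca (k b : ℕ) (x : Fin (2 * k + 1) → ℝ) :
    ca 3 (cr fun j => (3 : ℝ) ^ (b + 1) * x j) = cr fun j => (3 : ℝ) ^ b * x j := by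
  rw [← sp_cr_div 3 (by norm_num)]
  congr 1
  funext j
  push_cast
  rw [pow_succ]
  ring

private theorem SP3_zero (k : ℕ) (x : Fin (2 * k + 1) → ℝ) :
    (cr fun j => (3 : ℝ) ^ 0 * x j) ∈ Nn k 0 ↔ ∀ i, x i ∈ Set.Icc (0 : ℝ) 1 := by
  have h0 : (fun j => (3 : ℝ) ^ 0 * x j) = x := by
    funext j
    rw [pow_zero, one_mul]
  rw [h0]
  refine forall_congr' fun j => ?_
  have h1 := sp_le_cr x j 0
  have h2 := sp_cr_le x j 1
  rw [mul_zero, Int.cast_zero] at h1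
  rw [mul_one, Int.cast_one] at h2
  rw [h1, h2]
  exact Iff.rfl

private theorem SP3_succ (k b : ℕ) (x : Fin (2 * k + 1) → ℝ) :
    (cr fun j => (3 : ℝ) ^ (b + 1) * x j) ∈ Nn k (b + 1) ↔ (cr fun j => (3 : ℝ) ^ b * x j) ∈ Nn k b ∧
      {i | 1 / 3 < Int.fract ((3 : ℝ) ^ b * x i) ∧ Int.fract ((3 : ℝ) ^ b * x i) < 2 / 3}.ncard ≤ k := by
  rw [← SP3_card]
  show (ca 3 (cr fun j => (3 : ℝ) ^ (b + 1) * x j) ∈ Nn k b ∧ _) ↔ _
  rw [SP3_ca]

private theorem SP3_bo (k b : ℕ) (x : Fin (2 * k + 1) → ℝ) :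
    (fun j => (3 : ℝ) ^ b * x j) ∈ Bo (Nn k b) ↔ (cr fun j => (3 : ℝ) ^ b * x j) ∈ Nn k b :=
  sp_Bo_cr (sp_nn_cx k b).clo _

theorem sp_mc (k : ℕ) (x : Fin (2 * k + 1) → ℝ) :
    x ∈ AGM.MC k ↔ ∀ b : ℕ, (fun j => (3 : ℝ) ^ b * x j) ∈ Bo (Nn k b) := by
  constructor
  · rintro ⟨h1, h2⟩ b
    rw [SP3_bo]
    induction b with
    | zero => exact (SP3_zero k x).2 h1
    | succ b ih => exact (SP3_succ k b x).2 ⟨ih, h2 b⟩
  · intro h
    refine ⟨(SP3_zero k x).1 ((SP3_bo k 0 x).1 (h 0)), fun b => ?_⟩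
    exact ((SP3_succ k b x).1 ((SP3_bo k (b + 1) x).1 (h (b + 1)))).2

private theorem SP3_down (k b m : ℕ) (x : Fin (2 * k + 1) → ℝ)
    (h : (cr fun j => (3 : ℝ) ^ (b + m) * x j) ∈ Nn k (b + m)) : (cr fun j => (3 : ℝ) ^ b * x j) ∈ Nn k b := by
  induction m with
  | zero => exact h
  | succ m ih => exact ih ((SP3_succ k (b + m) x).1 h).1

theorem sp_mc4 (k : ℕ) (x : Fin (2 * k + 1) → ℝ) :
    x ∈ AGM.MC k ↔ ∀ b : ℕ, (fun j => (3 : ℝ) ^ (4 * b) * x j) ∈ Bo (Nn k (4 * b)) := by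
  rw [sp_mc]
  constructor
  · exact fun h b => h (4 * b)
  · intro h b
    have h1 := (SP3_bo k (4 * b) x).1 (h b)
    have h2 : 4 * b = b + 3 * b := by omega
    rw [h2] at h1
    exact (SP3_bo k b x).2 (SP3_down k b (3 * b) x h1)

/-- the inverse limit of the stages `Nn k (4 b)` -/
theorem sp_lim (k : ℕ) :
    Nonempty ({x : ℕ → Fin (2 * k + 1) → ℝ | ∀ b, x b ∈ Bo (Nn k (4 * b)) ∧
      (fun j => x (b + 1) j / 81) = x b} ≃ₜ AGM.MC k) := by
  have h1 : ∀ x : ℕ → Fin (2 * k + 1) → ℝ, (∀ b, x b ∈ Bo (Nn k (4 * b)) ∧ (fun j => x (b + 1) j / 81) = x b) →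
      ∀ b, (fun j => (3 : ℝ) ^ (4 * b) * x 0 j) = x b := by
    intro x hx b
    induction b with
    | zero =>
      funext j
      rw [mul_zero, pow_zero, one_mul]
    | succ b ih =>
      funext j
      have h2 := congrFun (hx b).2 j
      have h3 := congrFun ih j
      have h4 : 4 * (b + 1) = 4 * b + 4 := by ring
      rw [h4, pow_add]
      linarith
  refine ⟨{
    toFun := fun x => ⟨x.1 0, ?_⟩
    invFun := fun y => ⟨fun b j => (3 : ℝ) ^ (4 * b) * y.1 j, ?_⟩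
    left_inv := ?_
    right_inv := ?_
    continuous_toFun := ?_
    continuous_invFun := ?_ }⟩
  · rw [sp_mc4]
    intro b
    rw [h1 x.1 x.2 b]
    exact (x.2 b).1
  · intro b
    refine ⟨(sp_mc4 k y.1).1 y.2 b, ?_⟩
    funext j
    have h4 : 4 * (b + 1) = 4 * b + 4 := by ring
    show (3 : ℝ) ^ (4 * (b + 1)) * y.1 j / 81 = (3 : ℝ) ^ (4 * b) * y.1 j
    rw [h4, pow_add]
    ring
  · intro x
    refine Subtype.ext (funext fun b => ?_)
    exact h1 x.1 x.2 b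
  · intro y
    refine Subtype.ext (funext fun j => ?_)
    show (3 : ℝ) ^ (4 * 0) * y.1 j = y.1 j
    rw [mul_zero, pow_zero, one_mul]
  · exact ((continuous_apply 0).comp continuous_subtype_val).subtype_mk _
  · refine Continuous.subtype_mk (continuous_pi fun b => continuous_pi fun j => ?_) _
    exact continuous_const.mul ((continuous_apply j).comp continuous_subtype_val)

end MNG
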