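import Pool.Agent.MNG.SP2

/-!
# MNG-SP4: the collapse `Ct t` of the middle thirds, `t = 1, 2, 4`

Everything is linear arithmetic with the concrete numbers `t = 1, 2, 4`.
-/

set_option autoImplicit false

noncomputable section

namespace MNG

open AGM (Ei Bl Sp)
open Set Topology

private lemma SP4_C1 (z : ℤ) : Ct1 1 z = 4 * (z / 6) +
    (if z % 6 ≤ 2 then z % 6 else if z % 6 ≤ 4 then 2 else z % 6 - 2) := by
  unfold Ct1
  norm_num

private lemma SP4_C2 (z : ℤ) : Ct1 2 z = 8 * (z / 12) +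
    (if z % 12 ≤ 4 then z % 12 else if z % 12 ≤ 8 then 4 else z % 12 - 4) := by
  unfold Ct1
  norm_num

private lemma SP4_C4 (z : ℤ) : Ct1 4 z = 16 * (z / 24) +
    (if z % 24 ≤ 8 then z % 24 else if z % 24 ≤ 16 then 8 else z % 24 - 8) := by
  unfold Ct1
  norm_num

private lemma SP4_ca (R : ℕ) (z D E : ℤ) (hE : (R : ℤ) = E) (hD : 2 * E = D) :
    ca1 R z = if z % D = 0 then z / E else 2 * (z / D) + 1 := by
  subst hD
  subst hE
  unfold ca1
  simp only [Int.dvd_iff_emod_eq_zero]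

private lemma SP4_a1 (z : ℤ) : ca1 1 z = if z % 2 = 0 then z / 1 else 2 * (z / 2) + 1 :=
  SP4_ca 1 z 2 1 (by norm_num) (by norm_num)

private lemma SP4_a2 (z : ℤ) : ca1 2 z = if z % 4 = 0 then z / 2 else 2 * (z / 4) + 1 :=
  SP4_ca 2 z 4 2 (by norm_num) (by norm_num)

private lemma SP4_a3 (z : ℤ) : ca1 3 z = if z % 6 = 0 then z / 3 else 2 * (z / 6) + 1 :=
  SP4_ca 3 z 6 3 (by norm_num) (by norm_num)

private lemma SP4_a4 (z : ℤ) : ca1 4 z = if z % 8 = 0 then z / 4 else 2 * (z / 8) + 1 :=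
  SP4_ca 4 z 8 4 (by norm_num) (by norm_num)

private lemma SP4_a6 (z : ℤ) : ca1 6 z = if z % 12 = 0 then z / 6 else 2 * (z / 12) + 1 :=
  SP4_ca 6 z 12 6 (by norm_num) (by norm_num)

private lemma SP4_a8 (z : ℤ) : ca1 8 z = if z % 16 = 0 then z / 8 else 2 * (z / 16) + 1 :=
  SP4_ca 8 z 16 8 (by norm_num) (by norm_num)

private lemma SP4_a12 (z : ℤ) : ca1 12 z = if z % 24 = 0 then z / 12 else 2 * (z / 24) + 1 :=
  SP4_ca 12 z 24 12 (by norm_num) (by norm_num)

theorem sp_Ct_fc (t : ℕ) (ht : t = 1 ∨ t = 2 ∨ t = 4) {a b : ℤ} (h : fc a b) :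
    fc (Ct1 t a) (Ct1 t b) := by
  unfold fc at h ⊢
  rcases ht with rfl | rfl | rfl
  · have ha := SP4_C1 a
    have hb := SP4_C1 b
    generalize Ct1 1 a = a' at ha ⊢
    generalize Ct1 1 b = b' at hb ⊢
    split_ifs at ha hb <;> omega
  · have ha := SP4_C2 a
    have hb := SP4_C2 b
    generalize Ct1 2 a = a' at ha ⊢
    generalize Ct1 2 b = b' at hb ⊢
    split_ifs at ha hb <;> omega
  · have ha := SP4_C4 a
    have hb := SP4_C4 b
    generalize Ct1 4 a = a' at ha ⊢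
    generalize Ct1 4 b = b' at hb ⊢
    split_ifs at ha hb <;> omega

theorem sp_Ct_odd (t : ℕ) (ht : t = 1 ∨ t = 2 ∨ t = 4) (z : ℤ) (h : Ct1 t z % 2 = 1) :
    z % 2 = 1 := by
  rcases ht with rfl | rfl | rfl
  · have ha := SP4_C1 z
    generalize Ct1 1 z = a' at ha h
    split_ifs at ha <;> omega
  · have ha := SP4_C2 z
    generalize Ct1 2 z = a' at ha h
    split_ifs at ha <;> omega
  · have ha := SP4_C4 z
    generalize Ct1 4 z = a' at ha h
    split_ifs at ha <;> omega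

theorem sp_Ct_ca {J : Type} (t : ℕ) (ht : t = 1 ∨ t = 2 ∨ t = 4) (c : Cl J) :
    ca (2 * t) (Ct t c) = ca (3 * t) c := by
  funext j
  show ca1 (2 * t) (Ct1 t (c j)) = ca1 (3 * t) (c j)
  generalize c j = z
  rcases ht with rfl | rfl | rfl
  · have ha := SP4_C1 z
    generalize Ct1 1 z = w at ha ⊢
    show ca1 2 w = ca1 3 z
    rw [SP4_a2, SP4_a3]
    split_ifs at ha ⊢ <;> omega
  · have ha := SP4_C2 z
    generalize Ct1 2 z = w at ha ⊢
    show ca1 4 w = ca1 6 z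
    rw [SP4_a4, SP4_a6]
    split_ifs at ha ⊢ <;> omega
  · have ha := SP4_C4 z
    generalize Ct1 4 z = w at ha ⊢
    show ca1 8 w = ca1 12 z
    rw [SP4_a8, SP4_a12]
    split_ifs at ha ⊢ <;> omega

/-- the open middle thirds -/
theorem sp_ca_mid (t : ℕ) (ht : t = 1 ∨ t = 2 ∨ t = 4) (z : ℤ) :
    ca1 t z % 6 = 3 ↔ 2 * (t : ℤ) < z % (6 * (t : ℤ)) ∧ z % (6 * (t : ℤ)) < 4 * (t : ℤ) := by
  rcases ht with rfl | rfl | rfl
  · rw [SP4_a1]
    norm_num only
    split_ifs <;> omega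
  · rw [SP4_a2]
    norm_num only
    split_ifs <;> omega
  · rw [SP4_a4]
    norm_num only
    split_ifs <;> omega

theorem sp_Ct_cub (k b t : ℕ) (ht : t = 1 ∨ t = 2 ∨ t = 4) :
    Cub (Gr t (Nn k (b + 1))) (Gr (2 * t) (Nn k b)) (Ct t) := by
  refine ⟨⟨?_, ?_⟩, ?_⟩
  · intro c hc
    show ca (2 * t) (Ct t c) ∈ Nn k b
    rw [sp_Ct_ca t ht c, ← sp_ca_comp 3 t (by norm_num) (by omega) c]
    exact hc.1
  · intro c _ d hd j
    exact sp_Ct_fc t ht (hd j)
  · intro c _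
    refine Finset.card_le_card ?_
    intro j hj
    rw [Finset.mem_filter] at hj ⊢
    exact ⟨hj.1, sp_Ct_odd t ht (c j) hj.2⟩

/-- the fibre of `Ct1 t` over a closed cell: an interval `[l, u]` (lattice points, not doubled) which either
contains a middle third `[3 t m + t, 3 t m + 2 t]` and meets no other open middle third (case `inl`), or meets no
open middle third (case `inr`) -/
theorem sp_Ct_fib (t : ℕ) (ht : t = 1 ∨ t = 2 ∨ t = 4) (s : ℤ) :
    ∃ l u : ℤ, l ≤ u ∧ (∀ z : ℤ, fc (Ct1 t z) s ↔ 2 * l ≤ z ∧ z ≤ 2 * u) ∧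
      ((∃ m : ℤ, l ≤ 3 * t * m + t ∧ 3 * t * m + 2 * t ≤ u ∧ 3 * t * m ≤ l ∧
          u ≤ 3 * t * m + 3 * t ∧ ∀ z : ℤ, 2 * l ≤ z → z ≤ 2 * u →
            (ca1 t z % 6 = 3 ↔ 2 * (3 * t * m + t) < z ∧ z < 2 * (3 * t * m + 2 * t))) ∨
        ∀ z : ℤ, 2 * l ≤ z → z ≤ 2 * u → ca1 t z % 6 ≠ 3) := by
  have hmid := sp_ca_mid t ht
  simp only [ne_eq, hmid]
  clear hmid
  unfold fc
  rcases ht with rfl | rfl | rfl
  · obtain ⟨q, r, h0, h1, rfl⟩ : ∃ q r : ℤ, 0 ≤ r ∧ r < 4 ∧ s = 4 * q + r :=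
      ⟨s / 4, s % 4, by omega, by omega, by omega⟩
    simp only [SP4_C1]
    norm_num only
    by_cases h : 1 ≤ r ∧ r ≤ 3
    · refine ⟨3 * q + (if r / 2 ≤ 1 then r / 2 else r / 2 + 1),
        3 * q + (if (r + 1) / 2 < 1 then (r + 1) / 2 else (r + 1) / 2 + 1), ?_, ?_,
        Or.inl ⟨q, ?_, ?_, ?_, ?_, ?_⟩⟩
      · split_ifs <;> omega
      · intro z
        split_ifs <;> omega
      · split_ifs <;> omega
      · split_ifs <;> omega
      · split_ifs <;> omega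
      · split_ifs <;> omega
      · intro z
        split_ifs <;> omega
    · refine ⟨3 * q + (if r / 2 ≤ 1 then r / 2 else r / 2 + 1),
        3 * q + (if (r + 1) / 2 < 1 then (r + 1) / 2 else (r + 1) / 2 + 1), ?_, ?_, Or.inr ?_⟩
      · split_ifs <;> omega
      · intro z
        split_ifs <;> omega
      · intro z
        split_ifs <;> omega
  · obtain ⟨q, r, h0, h1, rfl⟩ : ∃ q r : ℤ, 0 ≤ r ∧ r < 8 ∧ s = 8 * q + r :=
      ⟨s / 8, s % 8, by omega, by omega, by omega⟩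
    simp only [SP4_C2]
    norm_num only
    by_cases h : 3 ≤ r ∧ r ≤ 5
    · refine ⟨6 * q + (if r / 2 ≤ 2 then r / 2 else r / 2 + 2),
        6 * q + (if (r + 1) / 2 < 2 then (r + 1) / 2 else (r + 1) / 2 + 2), ?_, ?_,
        Or.inl ⟨q, ?_, ?_, ?_, ?_, ?_⟩⟩
      · split_ifs <;> omega
      · intro z
        split_ifs <;> omega
      · split_ifs <;> omega
      · split_ifs <;> omega
      · split_ifs <;> omega
      · split_ifs <;> omega
      · intro z
        split_ifs <;> omega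
    · refine ⟨6 * q + (if r / 2 ≤ 2 then r / 2 else r / 2 + 2),
        6 * q + (if (r + 1) / 2 < 2 then (r + 1) / 2 else (r + 1) / 2 + 2), ?_, ?_, Or.inr ?_⟩
      · split_ifs <;> omega
      · intro z
        split_ifs <;> omega
      · intro z
        split_ifs <;> omega
  · obtain ⟨q, r, h0, h1, rfl⟩ : ∃ q r : ℤ, 0 ≤ r ∧ r < 16 ∧ s = 16 * q + r :=
      ⟨s / 16, s % 16, by omega, by omega, by omega⟩
    simp only [SP4_C4]
    norm_num only
    by_cases h : 7 ≤ r ∧ r ≤ 9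
    · refine ⟨12 * q + (if r / 2 ≤ 4 then r / 2 else r / 2 + 4),
        12 * q + (if (r + 1) / 2 < 4 then (r + 1) / 2 else (r + 1) / 2 + 4), ?_, ?_,
        Or.inl ⟨q, ?_, ?_, ?_, ?_, ?_⟩⟩
      · split_ifs <;> omega
      · intro z
        split_ifs <;> omega
      · split_ifs <;> omega
      · split_ifs <;> omega
      · split_ifs <;> omega
      · split_ifs <;> omega
      · intro z
        split_ifs <;> omega
    · refine ⟨12 * q + (if r / 2 ≤ 4 then r / 2 else r / 2 + 4),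
        12 * q + (if (r + 1) / 2 < 4 then (r + 1) / 2 else (r + 1) / 2 + 4), ?_, ?_, Or.inr ?_⟩
      · split_ifs <;> omega
      · intro z
        split_ifs <;> omega
      · intro z
        split_ifs <;> omega

end MNG
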