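import Pool.Agent.MNG.SP1
import Pool.Agent.MNG.T5

/-!
# MNG-SP5: coordinatewise homotopies, skeleta of cubes

`sp_cs_box`: `cs_hom` with `H s x j = (1 - s) * x j + s * ψ j (x j)`, which is in `uIcc (x j) (ψ j (x j))`.
`sp_cs_cube`: `skel` for the box `Bx 0 (if j ∈ A then 1 else 0)` whose body is convex (`Bo_bx`, `cs_convex`).
`sp_cs_mid`: `cs_dom` with `x j = M j + t * y j` (`j ∈ A`), `x j = M j` (`j ∉ A`). A point `y` of the box is in the body of the
`k`-skeleton iff `dm (cr y) ≤ k` iff `0 < y j < 1` for at most `k` coordinates (`sp_Bo_cr`, `sp_cr_odd`, `cx_sk`, `cx_bx`).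
-/

set_option autoImplicit false

noncomputable section

namespace MNG

open AGM (Ei Bl Sp)
open Set Topology

theorem sp_cs_box {J : Type} [Fintype J] {k : ℕ} (B B' : Set (J → ℝ)) (ψ : J → ℝ → ℝ)
    (hψ : ∀ j, Continuous (ψ j))
    (h : ∀ x ∈ B, ∀ y : J → ℝ, (∀ j, y j ∈ Set.uIcc (x j) (ψ j (x j))) → y ∈ B)
    (h' : ∀ x ∈ B, (fun j => ψ j (x j)) ∈ B') (hs : B' ⊆ B) (hB' : Cs k B') : Cs k B := by
  refine cs_hom B B' hs (fun s x j => (1 - s) * x j + s * ψ j (x j)) ?_ ?_ ?_ ?_ hB'
  · apply Continuous.continuousOn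
    refine continuous_pi fun j => ?_
    have e1 : Continuous fun z : ℝ × (J → ℝ) => z.2 j := (continuous_apply j).comp continuous_snd
    have e2 : Continuous fun z : ℝ × (J → ℝ) => ψ j (z.2 j) := (hψ j).comp e1
    exact ((continuous_const.sub continuous_fst).mul e1).add (continuous_fst.mul e2)
  · intro x _
    funext j
    simp
  · intro x hx
    have e : (fun j => (1 - (1 : ℝ)) * x j + 1 * ψ j (x j)) = fun j => ψ j (x j) := by
      funext j
      ring
    rw [e]
    exact h' x hx
  · intro t ht x hx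
    refine h x hx _ fun j => ?_
    rw [← segment_eq_uIcc]
    exact ⟨1 - t, t, by linarith [ht.2], ht.1, by ring, by simp [smul_eq_mul]⟩

theorem sp_cs_pt {J : Type} [Fintype J] (k : ℕ) (p : J → ℝ) : Cs k {p} :=
  cs_convex _ (convex_singleton p) (Set.singleton_nonempty p)

open Classical in
/-- the `k`-skeleton of a cube -/
theorem sp_cs_cube {J : Type} [Fintype J] (k : ℕ) (A : Finset J) :
    Cs k (Bo (sk k (Bx (J := J) (fun _ => 0) (fun j => if j ∈ A then 1 else 0)))) := by
  refine (skel (cx_bx _ _)).1 ?_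
  rw [Bo_bx _ _ (by intro j; split <;> norm_num)]
  refine cs_convex _ ?_ ?_
  · intro x hx y hy a b ha hb hab j
    have h1 := hx j
    have h2 := hy j
    generalize ((if j ∈ A then 1 else 0 : ℤ) : ℝ) = B at h1 h2 ⊢
    simp only [Pi.add_apply, Pi.smul_apply, smul_eq_mul]
    rw [Int.cast_zero] at h1 h2 ⊢
    constructor
    · have e1 := mul_nonneg ha h1.1
      have e2 := mul_nonneg hb h2.1
      linarith
    · have e1 := mul_le_mul_of_nonneg_left h1.2 ha
      have e2 := mul_le_mul_of_nonneg_left h2.2 hb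
      have e3 : a * B + b * B = B := by rw [← add_mul, hab, one_mul]
      linarith
  · refine ⟨fun _ => 0, fun j => ⟨?_, ?_⟩⟩
    · simp
    · split <;> simp

open Classical in
theorem sp_cube_mem {J : Type} [Fintype J] (k : ℕ) (A : Finset J) (y : J → ℝ) :
    y ∈ Bo (sk k (Bx (J := J) (fun _ => 0) (fun j => if j ∈ A then 1 else 0))) ↔
      (∀ j ∈ A, 0 ≤ y j ∧ y j ≤ 1) ∧ (∀ j, j ∉ A → y j = 0) ∧
        (Finset.univ.filter (fun j => 0 < y j ∧ y j < 1)).card ≤ k := by
  rw [sp_Bo_cr (cx_sk (cx_bx _ _)).clo]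
  have hbox : cr y ∈ Bx (J := J) (fun _ => 0) (fun j => if j ∈ A then 1 else 0) ↔
      (∀ j ∈ A, 0 ≤ y j ∧ y j ≤ 1) ∧ (∀ j, j ∉ A → y j = 0) := by
    constructor
    · intro h
      refine ⟨fun j hj => ?_, fun j hj => ?_⟩
      · have h1 := h j
        dsimp only at h1
        rw [sp_le_cr, sp_cr_le, if_pos hj] at h1
        exact ⟨by simpa using h1.1, by simpa using h1.2⟩
      · have h1 := h j
        dsimp only at h1
        rw [sp_le_cr, sp_cr_le, if_neg hj] at h1
        exact le_antisymm (by simpa using h1.2) (by simpa using h1.1)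
    · rintro ⟨h1, h2⟩ j
      dsimp only
      rw [sp_le_cr, sp_cr_le]
      by_cases hj : j ∈ A
      · rw [if_pos hj]
        exact ⟨by simpa using (h1 j hj).1, by simpa using (h1 j hj).2⟩
      · rw [if_neg hj, h2 j hj]
        simp
  have hcard : cr y ∈ Bx (J := J) (fun _ => 0) (fun j => if j ∈ A then 1 else 0) →
      dm (cr y) = (Finset.univ.filter (fun j => 0 < y j ∧ y j < 1)).card := by
    intro h
    have h0 := hbox.1 h
    unfold dm
    congr 1
    refine Finset.filter_congr fun j _ => ?_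
    have hj : 0 ≤ y j ∧ y j ≤ 1 := by
      by_cases hj : j ∈ A
      · exact h0.1 j hj
      · rw [h0.2 j hj]
        simp
    constructor
    · intro h1
      have h2 : cr y j = 2 * (cr y j / 2) + 1 := by omega
      rw [sp_cr_odd] at h2
      have h3 : cr y j / 2 < 1 := by
        have : ((cr y j / 2 : ℤ) : ℝ) < 1 := lt_of_lt_of_le h2.1 hj.2
        exact_mod_cast this
      have h4 : 0 < cr y j / 2 + 1 := by
        have : (0 : ℝ) < ((cr y j / 2 : ℤ) : ℝ) + 1 := lt_of_le_of_lt hj.1 h2.2
        exact_mod_cast this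
      have h5 : cr y j / 2 = 0 := by omega
      rw [h5] at h2
      simpa using h2
    · intro h1
      have h2 : cr y j = 2 * 0 + 1 := (sp_cr_odd y j 0).2 (by simpa using h1)
      omega
  constructor
  · rintro ⟨h1, h2⟩
    exact ⟨(hbox.1 h1).1, (hbox.1 h1).2, by rw [← hcard h1]; exact h2⟩
  · rintro ⟨h1, h2, h3⟩
    have h4 := hbox.2 ⟨h1, h2⟩
    exact ⟨h4, by rw [hcard h4]; exact h3⟩

open Classical in
theorem sp_cs_mid {J : Type} [Fintype J] (k : ℕ) (A : Finset J) (M : J → ℝ) (t : ℝ) (ht : 0 < t) :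
    Cs k {x : J → ℝ | (∀ j ∈ A, M j ≤ x j ∧ x j ≤ M j + t) ∧ (∀ j, j ∉ A → x j = M j) ∧
      (Finset.univ.filter (fun j => j ∈ A ∧ M j < x j ∧ x j < M j + t)).card ≤ k} := by
  refine cs_dom (Bo (sk k (Bx (J := J) (fun _ => 0) (fun j => if j ∈ A then 1 else 0)))) _
    (fun y j => M j + t * y j) (fun x j => (x j - M j) / t) ?_ ?_ ?_ ?_ ?_ (sp_cs_cube k A)
  · apply Continuous.continuousOn
    fun_prop
  · apply Continuous.continuousOn
    fun_prop
  · intro y hy
    rw [sp_cube_mem] at hy
    obtain ⟨h1, h2, h3⟩ := hy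
    refine ⟨fun j hj => ?_, fun j hj => ?_, ?_⟩
    · have h4 := h1 j hj
      have h5 := mul_nonneg ht.le h4.1
      have h6 := mul_le_mul_of_nonneg_left h4.2 ht.le
      constructor
      · change M j ≤ M j + t * y j
        linarith
      · change M j + t * y j ≤ M j + t
        linarith
    · change M j + t * y j = M j
      rw [h2 j hj]
      ring
    · refine le_trans (Finset.card_le_card ?_) h3
      intro j hj
      rw [Finset.mem_filter] at hj ⊢
      obtain ⟨-, -, h4, h5⟩ := hj
      have h6 : 0 < t * y j := by linarith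
      have h7 : t * y j < t * 1 := by linarith
      exact ⟨Finset.mem_univ _, pos_of_mul_pos_right h6 ht.le, lt_of_mul_lt_mul_left h7 ht.le⟩
  · intro x hx
    rw [sp_cube_mem]
    obtain ⟨h1, h2, h3⟩ := hx
    refine ⟨fun j hj => ?_, fun j hj => ?_, ?_⟩
    · have h4 := h1 j hj
      exact ⟨div_nonneg (by linarith) ht.le, (div_le_one ht).2 (by linarith)⟩
    · change (x j - M j) / t = 0
      rw [h2 j hj, sub_self, zero_div]
    · refine le_trans (Finset.card_le_card ?_) h3
      intro j hj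
      rw [Finset.mem_filter] at hj ⊢
      obtain ⟨-, h4, h5⟩ := hj
      have h6 : 0 < x j - M j := by
        by_contra hc
        exact absurd h4 (not_lt.2 (div_nonpos_of_nonpos_of_nonneg (not_lt.1 hc) ht.le))
      have h7 : x j - M j < t := (div_lt_one ht).1 h5
      refine ⟨Finset.mem_univ _, ?_, by linarith, by linarith⟩
      by_contra hc
      rw [h2 j hc, sub_self] at h6
      exact absurd h6 (lt_irrefl _)
  · intro x _
    funext j
    change M j + t * ((x j - M j) / t) = x j
    rw [mul_div_cancel₀ _ ht.ne']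
    ring

end MNG
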