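import Pool.Agent.MNG.SP4
import Pool.Agent.MNG.SP5

/-!
# MNG-SP6: the collapse of the middle thirds is soft

Fix `S` in the target; choose `l j, u j` for `S j` by `sp_Ct_fib` and let `A` be the set of the coordinates of the first case (with `m j`).
The fibre is closed under faces (`cx_fb`, `sp_cx_gr`), so by `sp_Bo_cr` its body is
`B = {x | ∀ j, l j ≤ x j ≤ u j, and #{j | j ∈ A, 3 t m j + t < x j < 3 t m j + 2 t} ≤ k}`:
`cr x` is in the fibre iff `ca t (cr x) ∈ Nn k (b + 1)` and `2 l j ≤ cr x j ≤ 2 u j` (`sp_cr_le`, `sp_le_cr`);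
`ca 3 (ca t (cr x)) = ca (3 t) (cr x) = ca (2 t) (Ct t (cr x))` is a face of `ca (2 t) S ∈ Nn k b`: automatic.
`sp_cs_box` with `ψ j` = clamp to `[3 t m j + t, 3 t m j + 2 t]` for `j ∈ A` and `ψ j = l j` (constant) for `j ∉ A`; `B'` = the set of `sp_cs_mid`
(`M j = 3 t m j + t` resp. `l j`). Between `x j` and its clamp the coordinate is in the open middle third only if `x j` is.
-/

set_option autoImplicit false

noncomputable section

namespace MNG

open AGM (Ei Bl Sp)
open Set Topology

private theorem sp6_fib (t : ℕ) (ht : t = 1 ∨ t = 2 ∨ t = 4) (s : ℤ) :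
    ∃ (l u M : ℤ) (a : Prop), (∀ z : ℤ, fc (Ct1 t z) s ↔ 2 * l ≤ z ∧ z ≤ 2 * u) ∧ l ≤ u ∧
      (a → l ≤ M ∧ M + (t : ℤ) ≤ u) ∧ (¬ a → M = l) ∧
      ∀ z : ℤ, 2 * l ≤ z → z ≤ 2 * u →
        (ca1 t z % 6 = 3 ↔ a ∧ 2 * M < z ∧ z < 2 * (M + (t : ℤ))) := by
  obtain ⟨l, u, hlu, h1, h2 | h2⟩ := sp_Ct_fib t ht s
  · obtain ⟨m, h3, h4, h5, h6, h7⟩ := h2
    refine ⟨l, u, 3 * t * m + t, True, h1, hlu, fun _ => ⟨h3, ?_⟩, fun h => absurd trivial h, ?_⟩
    · have e : 3 * (t : ℤ) * m + t + t = 3 * t * m + 2 * t := by ring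
      rw [e]
      exact h4
    · intro z hz1 hz2
      have e : 3 * (t : ℤ) * m + t + t = 3 * t * m + 2 * t := by ring
      rw [h7 z hz1 hz2, e]
      simp
  · refine ⟨l, u, l, False, h1, hlu, fun h => h.elim, fun _ => rfl, ?_⟩
    intro z hz1 hz2
    have h3 := h2 z hz1 hz2
    constructor
    · intro h
      exact absurd h h3
    · rintro ⟨h, _⟩
      exact h.elim

theorem sp_Ct_soft (k b t : ℕ) (ht : t = 1 ∨ t = 2 ∨ t = 4) :
    Soft k (Gr t (Nn k (b + 1))) (Gr (2 * t) (Nn k b)) (Ct t) := by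
  classical
  intro S hS
  have ht0 : 0 < t := by rcases ht with rfl | rfl | rfl <;> norm_num
  have htR : (0 : ℝ) < (t : ℝ) := by exact_mod_cast ht0
  choose l u M a h1 h2 h3 h4 h5 using fun j => sp6_fib t ht (S j)
  have hclo : Clo (Fb (Ct t) (Gr t (Nn k (b + 1))) S) :=
    (cx_fb (sp_cx_gr t ht0 (sp_nn_cx k (b + 1))) (sp_Ct_cub k b t ht).toMon S).clo
  have hlR : ∀ j, a j → (l j : ℝ) ≤ M j ∧ (M j : ℝ) + t ≤ u j := by
    intro j hj
    obtain ⟨h6, h7⟩ := h3 j hj
    exact ⟨by exact_mod_cast h6, by exact_mod_cast h7⟩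
  have hB : Bo (Fb (Ct t) (Gr t (Nn k (b + 1))) S) =
      {x : Fin (2 * k + 1) → ℝ | (∀ j, (l j : ℝ) ≤ x j ∧ x j ≤ u j) ∧
        (Finset.univ.filter (fun j => a j ∧ (M j : ℝ) < x j ∧ x j < M j + t)).card ≤ k} := by
    ext x
    rw [sp_Bo_cr hclo]
    have hF : Fa (Ct t (cr x)) S ↔ ∀ j, (l j : ℝ) ≤ x j ∧ x j ≤ u j := by
      refine forall_congr' fun j => ?_
      exact (h1 j (cr x j)).trans (and_congr (sp_le_cr x j (l j)) (sp_cr_le x j (u j)))
    have hcard : Fa (Ct t (cr x)) S →
        Finset.univ.filter (fun j => ca t (cr x) j % 6 = 3) =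
          Finset.univ.filter (fun j => a j ∧ (M j : ℝ) < x j ∧ x j < M j + t) := by
      intro hfa
      ext j
      rw [Finset.mem_filter, Finset.mem_filter]
      obtain ⟨h6, h7⟩ := (h1 j (cr x j)).1 (hfa j)
      have h8 := h5 j (cr x j) h6 h7
      have h9 : 2 * M j < cr x j ↔ (M j : ℝ) < x j := by
        rw [← not_le, ← not_le, sp_cr_le]
      have h10 : cr x j < 2 * (M j + (t : ℤ)) ↔ x j < (M j : ℝ) + t := by
        rw [← not_le, ← not_le, sp_le_cr]
        push_cast
        exact Iff.rfl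
      rw [h9, h10] at h8
      exact and_congr_right fun _ => h8
    have hmem : Fa (Ct t (cr x)) S → ca 3 (ca t (cr x)) ∈ Nn k b := by
      intro hfa
      rw [sp_ca_comp 3 t (by norm_num) ht0, ← sp_Ct_ca t ht]
      exact (sp_nn_cx k b).clo _ hS _ (sp_fa_ca (2 * t) (by omega) hfa)
    constructor
    · rintro ⟨hx1, hx2⟩
      refine ⟨hF.1 hx2, ?_⟩
      have h6 : (Finset.univ.filter (fun j => ca t (cr x) j % 6 = 3)).card ≤ k := hx1.2
      rw [hcard hx2] at h6
      exact h6
    · rintro ⟨hx1, hx2⟩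
      have hfa := hF.2 hx1
      refine ⟨⟨hmem hfa, ?_⟩, hfa⟩
      rw [hcard hfa]
      exact hx2
  rw [hB]
  refine sp_cs_box _ _ (fun j y => if a j then max (M j : ℝ) (min y (M j + t)) else (l j : ℝ))
    ?_ ?_ ?_ ?_ (sp_cs_mid k (Finset.univ.filter (fun j => a j)) (fun j => (M j : ℝ)) t htR)
  · intro j
    by_cases haj : a j
    · simp only [if_pos haj]
      fun_prop
    · simp only [if_neg haj]
      fun_prop
  · rintro x ⟨hx1, hx2⟩ y hy
    have hy' : ∀ j, (a j → ((l j : ℝ) ≤ y j ∧ y j ≤ u j) ∧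
        ((M j : ℝ) < y j → y j < M j + t → (M j : ℝ) < x j ∧ x j < M j + t)) ∧
        (¬ a j → (l j : ℝ) ≤ y j ∧ y j ≤ u j) := by
      intro j
      have h6 := hy j
      obtain ⟨h7, h8⟩ := hx1 j
      rw [Set.mem_uIcc] at h6
      constructor
      · intro haj
        obtain ⟨h9, h10⟩ := hlR j haj
        simp only [if_pos haj] at h6
        rcases le_total (x j) (M j : ℝ) with h11 | h11
        · have e : max (M j : ℝ) (min (x j) (M j + t)) = M j := by
            rw [min_eq_left (by linarith), max_eq_left h11]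
          rw [e] at h6
          rcases h6 with h6 | h6
          · exact ⟨⟨by linarith [h6.1], by linarith [h6.2]⟩, fun h12 _ => by linarith [h6.2]⟩
          · exact ⟨⟨by linarith [h6.1], by linarith [h6.2]⟩, fun h12 _ => by linarith [h6.2]⟩
        · rcases le_total (x j) ((M j : ℝ) + t) with h12 | h12
          · have e : max (M j : ℝ) (min (x j) (M j + t)) = x j := by
              rw [min_eq_left h12, max_eq_right h11]
            rw [e] at h6
            have h13 : y j = x j := by
              rcases h6 with h6 | h6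
              · exact le_antisymm h6.2 h6.1
              · exact le_antisymm h6.2 h6.1
            rw [h13]
            exact ⟨⟨h7, h8⟩, fun h14 h15 => ⟨h14, h15⟩⟩
          · have e : max (M j : ℝ) (min (x j) (M j + t)) = M j + t := by
              rw [min_eq_right h12, max_eq_right (by linarith)]
            rw [e] at h6
            rcases h6 with h6 | h6
            · exact ⟨⟨by linarith [h6.1], by linarith [h6.2]⟩, fun _ h13 => by linarith [h6.1]⟩
            · exact ⟨⟨by linarith [h6.1], by linarith [h6.2]⟩, fun _ h13 => by linarith [h6.1]⟩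
      · intro haj
        simp only [if_neg haj] at h6
        rcases h6 with h6 | h6
        · exact ⟨by linarith [h6.1], by linarith [h6.2]⟩
        · exact ⟨by linarith [h6.1], by linarith [h6.2]⟩
    refine ⟨fun j => ?_, ?_⟩
    · by_cases haj : a j
      · exact ((hy' j).1 haj).1
      · exact (hy' j).2 haj
    · refine le_trans (Finset.card_le_card ?_) hx2
      intro j hj
      rw [Finset.mem_filter] at hj ⊢
      obtain ⟨_, haj, h7, h8⟩ := hj
      exact ⟨Finset.mem_univ _, haj, ((hy' j).1 haj).2 h7 h8⟩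
  · rintro x ⟨hx1, hx2⟩
    refine ⟨?_, ?_, ?_⟩
    · intro j hj
      rw [Finset.mem_filter] at hj
      simp only [if_pos hj.2]
      exact ⟨le_max_left _ _, max_le (by linarith) (min_le_right _ _)⟩
    · intro j hj
      rw [Finset.mem_filter] at hj
      have haj : ¬ a j := fun h => hj ⟨Finset.mem_univ _, h⟩
      simp only [if_neg haj]
      rw [h4 j haj]
    · refine le_trans (Finset.card_le_card ?_) hx2
      intro j hj
      simp only [Finset.mem_filter, Finset.mem_univ, true_and] at hj ⊢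
      obtain ⟨haj, h7, h8⟩ := hj
      simp only [if_pos haj] at h7 h8
      refine ⟨haj, ?_, ?_⟩
      · by_contra h9
        rw [not_lt] at h9
        have e : max (M j : ℝ) (min (x j) (M j + t)) = M j := by
          rw [min_eq_left (by linarith), max_eq_left h9]
        rw [e] at h7
        exact lt_irrefl _ h7
      · by_contra h9
        rw [not_lt] at h9
        have e : max (M j : ℝ) (min (x j) (M j + t)) = M j + t := by
          rw [min_eq_right h9, max_eq_right (by linarith)]
        rw [e] at h8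
        exact lt_irrefl _ h8
  · rintro x ⟨hx1, hx2, hx3⟩
    refine ⟨fun j => ?_, ?_⟩
    · by_cases haj : a j
      · have hjA : j ∈ Finset.univ.filter (fun j => a j) := by
          rw [Finset.mem_filter]
          exact ⟨Finset.mem_univ _, haj⟩
        obtain ⟨h6, h7⟩ := hx1 j hjA
        obtain ⟨h8, h9⟩ := hlR j haj
        exact ⟨by linarith, by linarith⟩
      · have hjA : j ∉ Finset.univ.filter (fun j => a j) := by
          rw [Finset.mem_filter]
          exact fun h => haj h.2
        have h6 := hx2 j hjA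
        rw [h4 j haj] at h6
        rw [h6]
        exact ⟨le_rfl, by exact_mod_cast h2 j⟩
    · refine le_trans (Finset.card_le_card ?_) hx3
      intro j hj
      simp only [Finset.mem_filter, Finset.mem_univ, true_and] at hj ⊢
      exact hj

end MNG
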