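import Pool.Agent.MNG.SP2

/-!
# MNG-SP7: the map `(th, La)`

The rounding with factor `3` of the blocks of `16` (doubled coordinates) together with the counting function `lac` is a cube map
of the subdivided stage `b + 1` to the product of the subdivided `k`-skeleton of the stage `b` with an interval. A face has at least
as many coordinates in `8 .. 40` (mod 48) and at most as many in `7 .. 41`; if `lac k c = 1` some coordinate is `7` or `41`
(mod 48), it is odd and its image is even.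
-/

set_option autoImplicit false

noncomputable section

namespace MNG

open AGM (Ei Bl Sp)
open Set Topology

theorem sp_th_fc {a b : ℤ} (h : fc a b) : fc (th1 a) (th1 b) := by
  unfold fc at h ⊢
  unfold th1
  rcases h with h | ⟨h1, h2 | h2⟩
  · left
    rw [h]
  · split_ifs <;> omega
  · split_ifs <;> omega

private theorem sp7_ca1 (z : ℤ) : ca1 8 (th1 z) = rh1 (ca1 8 z) := by
  have e : ∀ w : ℤ, ca1 8 w = if w % 16 = 0 then w / 8 else 2 * (w / 16) + 1 := by
    intro w
    unfold ca1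
    have h1 : (2 * ((8 : ℕ) : ℤ)) = 16 := by norm_num
    have h2 : ((8 : ℕ) : ℤ) = 8 := by norm_num
    rw [h1, h2]
    by_cases h : w % 16 = 0
    · rw [if_pos h, if_pos (Int.dvd_of_emod_eq_zero h)]
    · rw [if_neg h, if_neg (fun h3 => h (Int.emod_eq_zero_of_dvd h3))]
  rw [e, e]
  obtain ⟨q, r, h1, h2, h3⟩ : ∃ q r : ℤ, z = 48 * q + r ∧ 0 ≤ r ∧ r < 48 :=
    ⟨z / 48, z % 48, by omega, by omega, by omega⟩
  have h4 : th1 z = 16 * q + (if r ≤ 16 then 0 else if r ≤ 32 then r - 16 else 16) := by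
    unfold th1
    have h5 : z / 48 = q := by omega
    have h6 : z % 48 = r := by omega
    rw [h5, h6]
  have h5 : rh1 (if z % 16 = 0 then z / 8 else 2 * (z / 16) + 1)
      = if r ≤ 16 then 2 * q else if r < 32 then 2 * q + 1 else 2 * q + 2 := by
    unfold rh1
    split_ifs <;> omega
  rw [h5, h4]
  split_ifs <;> omega

theorem sp_th_ca {J : Type} (c : Cl J) : ca 8 (thc c) = rh (ca 8 c) :=
  funext fun j => sp7_ca1 (c j)

theorem sp_la_range (k : ℕ) (c : Cl (Fin (2 * k + 1))) :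
    lac k c = 0 ∨ lac k c = 1 ∨ lac k c = 2 := by
  unfold lac
  split_ifs
  · right; right; rfl
  · left; rfl
  · right; left; rfl

private theorem sp7_A (k : ℕ) (c d : Cl (Fin (2 * k + 1))) (h : Fa d c) :
    (Finset.univ.filter (fun j => 8 ≤ c j % 48 ∧ c j % 48 ≤ 40)).card ≤
      (Finset.univ.filter (fun j => 8 ≤ d j % 48 ∧ d j % 48 ≤ 40)).card := by
  refine Finset.card_le_card fun j hj => ?_
  rw [Finset.mem_filter] at hj ⊢
  refine ⟨Finset.mem_univ _, ?_⟩
  have h1 := hj.2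
  have h2 : d j = c j ∨ (c j % 2 = 1 ∧ (d j = c j - 1 ∨ d j = c j + 1)) := h j
  omega

private theorem sp7_B (k : ℕ) (c d : Cl (Fin (2 * k + 1))) (h : Fa d c) :
    (Finset.univ.filter (fun j => 7 ≤ d j % 48 ∧ d j % 48 ≤ 41)).card ≤
      (Finset.univ.filter (fun j => 7 ≤ c j % 48 ∧ c j % 48 ≤ 41)).card := by
  refine Finset.card_le_card fun j hj => ?_
  rw [Finset.mem_filter] at hj ⊢
  refine ⟨Finset.mem_univ _, ?_⟩
  have h1 := hj.2
  have h2 : d j = c j ∨ (c j % 2 = 1 ∧ (d j = c j - 1 ∨ d j = c j + 1)) := h j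
  omega

private theorem sp7_AB (k : ℕ) (d : Cl (Fin (2 * k + 1))) :
    (Finset.univ.filter (fun j => 8 ≤ d j % 48 ∧ d j % 48 ≤ 40)).card ≤
      (Finset.univ.filter (fun j => 7 ≤ d j % 48 ∧ d j % 48 ≤ 41)).card := by
  refine Finset.card_le_card fun j hj => ?_
  rw [Finset.mem_filter] at hj ⊢
  refine ⟨Finset.mem_univ _, ?_⟩
  have h1 := hj.2
  omega

theorem sp_la_mono (k : ℕ) (c d : Cl (Fin (2 * k + 1))) (h : Fa d c) : fc (lac k d) (lac k c) := by
  have h1 := sp7_A k c d h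
  have h2 := sp7_B k c d h
  have h3 := sp7_AB k d
  unfold fc lac
  split_ifs <;> omega

private theorem sp7_dm (k : ℕ) (c : Cl (Fin (2 * k + 1))) :
    dm (tl k c) = dm (thc c) + if lac k c % 2 = 1 then 1 else 0 := by
  unfold dm
  rw [Finset.card_filter, Finset.card_filter, Fintype.sum_sum_type]
  congr 1

private theorem sp7_th_odd {z : ℤ} (h : th1 z % 2 = 1) : z % 2 = 1 := by
  unfold th1 at h
  split_ifs at h <;> omega

theorem sp_tl_dm (k : ℕ) (c : Cl (Fin (2 * k + 1))) : dm (tl k c) ≤ dm c := by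
  rw [sp7_dm]
  have h0 : (Finset.univ.filter (fun j => thc c j % 2 = 1)) ⊆
      (Finset.univ.filter (fun j => c j % 2 = 1)) := by
    intro j hj
    rw [Finset.mem_filter] at hj ⊢
    exact ⟨Finset.mem_univ _, sp7_th_odd hj.2⟩
  by_cases h : lac k c % 2 = 1
  · rw [if_pos h]
    have h1 : lac k c = 1 := by
      rcases sp_la_range k c with h1 | h1 | h1
      · omega
      · exact h1
      · omega
    have h2 : (Finset.univ.filter (fun j => 8 ≤ c j % 48 ∧ c j % 48 ≤ 40)).card <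
        (Finset.univ.filter (fun j => 7 ≤ c j % 48 ∧ c j % 48 ≤ 41)).card := by
      unfold lac at h1
      split_ifs at h1 <;> omega
    obtain ⟨j, hj, hj'⟩ : ∃ j ∈ (Finset.univ.filter (fun j => 7 ≤ c j % 48 ∧ c j % 48 ≤ 41)),
        j ∉ (Finset.univ.filter (fun j => 8 ≤ c j % 48 ∧ c j % 48 ≤ 40)) :=
      Finset.exists_mem_notMem_of_card_lt_card h2
    have h3 : 7 ≤ c j % 48 ∧ c j % 48 ≤ 41 := (Finset.mem_filter.1 hj).2
    have h4 : ¬ (8 ≤ c j % 48 ∧ c j % 48 ≤ 40) := fun h4 =>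
      hj' (Finset.mem_filter.2 ⟨Finset.mem_univ _, h4⟩)
    have h5 : c j % 2 = 1 := by omega
    have h6 : ¬ thc c j % 2 = 1 := by
      show ¬ th1 (c j) % 2 = 1
      unfold th1
      split_ifs <;> omega
    have h7 : (Finset.univ.filter (fun j => thc c j % 2 = 1)) ⊂
        (Finset.univ.filter (fun j => c j % 2 = 1)) := by
      refine (Finset.ssubset_iff_of_subset h0).2 ⟨j, Finset.mem_filter.2 ⟨Finset.mem_univ _, h5⟩,
        fun h8 => h6 (Finset.mem_filter.1 h8).2⟩
    exact Finset.card_lt_card h7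
  · rw [if_neg h]
    exact Finset.card_le_card h0

theorem sp_tl_cub (k b : ℕ) :
    Cub (Gr 8 (Nn k (b + 1))) (Px (Gr 8 (sk k (Nn k b))) (In 1)) (tl k) where
  map := by
    intro c hc
    refine ⟨?_, ?_⟩
    · show ca 8 (thc c) ∈ sk k (Nn k b)
      rw [sp_th_ca]
      exact (sp_nn_rh k b).map _ hc
    · show 0 ≤ lac k c ∧ lac k c ≤ 2 * ((1 : ℕ) : ℤ)
      rcases sp_la_range k c with h | h | h <;> rw [h] <;> constructor <;> norm_num
  mono := by
    intro c _ d hd j
    rcases j with j | j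
    · exact sp_th_fc (hd j)
    · exact sp_la_mono k c d hd
  dim := fun c _ => sp_tl_dm k c

theorem sp_tl_ca (k : ℕ) (c : Cl (Fin (2 * k + 1))) : Fa (ca 8 (fs (tl k c))) (ca 24 c) := by
  have h1 : ca 8 (fs (tl k c)) = rh (ca 8 c) := sp_th_ca c
  have h2 : ca 24 c = ca 3 (ca 8 c) := by
    rw [sp_ca_comp 3 8 (by norm_num) (by norm_num)]
  rw [h1, h2]
  exact sp_rh_ca (ca 8 c)

end MNG
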