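import Pool.Agent.MNG.T1b
import Pool.Agent.AGM.BST

/-!
# MNG-SPD: the sponge, definitions (section 6 of the blueprint)

`Nn k b`: the `b`-th stage of the sponge in `ℝ ^ (2 k + 1)`, scaled by `3 ^ b` (doubled coordinates).
In the complex `Gr t (Nn k (b + 1))` the cells of `Nn k b` are blocks of `6 t` (doubled), the middle thirds
are the blocks `2 t .. 4 t`.
-/

set_option autoImplicit false

noncomputable section

namespace MNG

open AGM (Ei Bl Sp)
open Set Topology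

/-- the `b`-th stage of the sponge, scaled by `3 ^ b` -/
def Nn (k : ℕ) : ℕ → Set (Cl (Fin (2 * k + 1)))
  | 0 => {c | ∀ j, 0 ≤ c j ∧ c j ≤ 2}
  | b + 1 => {c | ca 3 c ∈ Nn k b ∧ (Finset.univ.filter (fun j => c j % 6 = 3)).card ≤ k}

/-- rounding with factor `3`: `[0,1] ↦ 0`, `[1,2] ↦ [0,1]`, `[2,3] ↦ 1` (here in doubled coordinates) -/
def rh1 (z : ℤ) : ℤ := 2 * (z / 6) + (if z % 6 ≤ 2 then 0 else if z % 6 = 3 then 1 else 2)

/-- rounding with factor `3` -/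
def rh {J : Type} (c : Cl J) : Cl J := fun j => rh1 (c j)

/-- collapse of the middle thirds: `[0,t]` identity, `[t,2t] ↦ t`, `[2t,3t] ↦ [t,2t]` -/
def Ct1 (t : ℕ) (z : ℤ) : ℤ :=
  4 * (t : ℤ) * (z / (6 * (t : ℤ))) + (if z % (6 * (t : ℤ)) ≤ 2 * (t : ℤ) then z % (6 * (t : ℤ))
    else if z % (6 * (t : ℤ)) ≤ 4 * (t : ℤ) then 2 * (t : ℤ) else z % (6 * (t : ℤ)) - 2 * (t : ℤ))

/-- collapse of the middle thirds -/
def Ct {J : Type} (t : ℕ) (c : Cl J) : Cl J := fun j => Ct1 t (c j)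

/-- `[0,8] ↦ 0`, `[8,16] ↦ [0,8]`, `[16,24] ↦ 8` -/
def th1 (z : ℤ) : ℤ :=
  16 * (z / 48) + (if z % 48 ≤ 16 then 0 else if z % 48 ≤ 32 then z % 48 - 16 else 16)

/-- the first part of the map (S2) -/
def thc {J : Type} (c : Cl J) : Cl J := fun j => th1 (c j)

/-- the second part of the map (S2): `1` (doubled: `2`) if at least `k + 1` coordinates are at distance
`≥ 4` from `24 ℤ`, `0` if at most `k` coordinates are not within distance `3` of `24 ℤ`, else the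
interval -/
def lac (k : ℕ) (c : Cl (Fin (2 * k + 1))) : ℤ :=
  if k + 1 ≤ (Finset.univ.filter (fun j => 8 ≤ c j % 48 ∧ c j % 48 ≤ 40)).card then 2
  else if (Finset.univ.filter (fun j => 7 ≤ c j % 48 ∧ c j % 48 ≤ 41)).card ≤ k then 0 else 1

/-- the map (S2) -/
def tl (k : ℕ) (c : Cl (Fin (2 * k + 1))) : Cl (Fin (2 * k + 1) ⊕ Unit) :=
  Sum.elim (thc c) (fun _ => lac k c)

/-- the map of property (B) -/
def spg (k : ℕ) (c : Cl (Fin (2 * k + 1))) : Cl (Fin (2 * k + 1) ⊕ Unit) :=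
  tl k (Ct 4 (Ct 2 (Ct 1 c)))

end MNG
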