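import Pool.Agent.MNG.T2b

/-!
# MNG-T2c: extension over a finite complex of dimension at most `k`

Induction on the number of cells of `T` outside `P`: if `P ≠ T` choose `e ∈ T \ P` with `dm e` minimal; then `insert e P` is closed
(a proper face of `e` has smaller dimension, `dm_lt`, so it is in `P`) and `cell_step` applies.
-/

set_option autoImplicit false

noncomputable section

namespace MNG

open AGM (Ei Bl Sp)
open Set Topology

private theorem t2c_clo {J : Type} [Fintype J] {P T : Set (Cl J)} (hP : Cx P) (hT : Cx T)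
    {e : Cl J} (he : e ∈ T) (hm : ∀ d ∈ T \ P, dm e ≤ dm d) : Clo (insert e P) := by
  intro c hc d hd
  rcases hc with rfl | hc
  · by_cases hdc : d = c
    · exact Or.inl hdc
    · right
      by_contra hdP
      have h1 := hm d ⟨hT.clo c he d hd, hdP⟩
      have h2 := dm_lt hd hdc
      omega
  · exact Or.inr (hP.clo c hc d hd)

private theorem t2c_aux {J : Type} [Fintype J] {k : ℕ} {X : Type} [TopologicalSpace X] (B : Set X)
    (h : Cs k B) {T : Set (Cl J)} (hT : Cx T) (hd : ∀ e ∈ T, dm e ≤ k) (n : ℕ) :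
    ∀ P : Set (Cl J), Cx P → P ⊆ T → (T \ P).ncard = n → ∀ c₀ : (J → ℝ) → X,
      ContinuousOn c₀ (Bo P) → MapsTo c₀ (Bo P) B →
      ∃ c : (J → ℝ) → X, ContinuousOn c (Bo T) ∧ MapsTo c (Bo T) B ∧ EqOn c c₀ (Bo P) := by
  induction n with
  | zero =>
    intro P hP hPT hn c₀ h0 h1
    have h2 : T \ P = ∅ := (Set.ncard_eq_zero (hT.fin.subset Set.diff_subset)).1 hn
    have h3 : P = T := Set.Subset.antisymm hPT (Set.diff_eq_empty.1 h2)
    subst h3
    exact ⟨c₀, h0, h1, fun x _ => rfl⟩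
  | succ n ih =>
    intro P hP hPT hn c₀ h0 h1
    have hfin : (T \ P).Finite := hT.fin.subset Set.diff_subset
    have hne : (T \ P).Nonempty := by
      rw [Set.nonempty_iff_ne_empty]
      intro h2
      rw [h2, Set.ncard_empty] at hn
      omega
    obtain ⟨e, he, hm⟩ := Set.exists_min_image (T \ P) dm hfin hne
    have hclo := t2c_clo hP hT he.1 hm
    obtain ⟨c, hc1, hc2, hc3⟩ := cell_step B h hP e he.2 hclo (hd e he.1) c₀ h0
      (fun x hx => h1 hx.1)
    have hP' : Cx (insert e P) := ⟨hP.fin.insert e, hclo⟩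
    have hmaps : MapsTo c (Bo (insert e P)) B := by
      rintro x ⟨d, hdm, hx⟩
      rcases hdm with rfl | hdm
      · exact hc3 hx
      · have hxP : x ∈ Bo P := ⟨d, hdm, hx⟩
        rw [hc2 hxP]
        exact h1 hxP
    have hcard : (T \ insert e P).ncard = n := by
      have h2 : T \ insert e P = (T \ P) \ {e} := by
        ext x
        constructor
        · rintro ⟨hx, hxn⟩
          exact ⟨⟨hx, fun hxP => hxn (Or.inr hxP)⟩, fun hxe => hxn (Or.inl hxe)⟩
        · rintro ⟨⟨hx, hxP⟩, hxe⟩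
          refine ⟨hx, fun hxn => ?_⟩
          rcases hxn with hxn | hxn
          · exact hxe hxn
          · exact hxP hxn
      rw [h2, Set.ncard_diff_singleton_of_mem he, hn]
      rfl
    obtain ⟨c', h2, h3, h4⟩ := ih (insert e P) hP' (Set.insert_subset he.1 hPT) hcard c hc1 hmaps
    refine ⟨c', h2, h3, fun x hx => ?_⟩
    obtain ⟨d, hdm, hxd⟩ := hx
    rw [h4 ⟨d, Or.inr hdm, hxd⟩]
    exact hc2 ⟨d, hdm, hxd⟩

theorem ext_one {J : Type} [Fintype J] {k : ℕ} {X : Type} [TopologicalSpace X] (B : Set X)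
    (h : Cs k B) {P T : Set (Cl J)} (hP : Cx P) (hT : Cx T) (hPT : P ⊆ T)
    (hd : ∀ e ∈ T, dm e ≤ k) (c₀ : (J → ℝ) → X) (h0 : ContinuousOn c₀ (Bo P))
    (h1 : MapsTo c₀ (Bo P) B) :
    ∃ c : (J → ℝ) → X, ContinuousOn c (Bo T) ∧ MapsTo c (Bo T) B ∧ EqOn c c₀ (Bo P) :=
  t2c_aux B h hT hd _ P hP hPT rfl c₀ h0 h1

end MNG
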