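import Pool.Agent.MNG.T2a
import Pool.Agent.MNG.T2c

/-!
# MNG-T2: finite complexes with `Cs k` are absolute extensors for compact subsets of `ℝ^i`, `i ≤ k`

Tietze extension, a fine grid near `A`, the neighbourhood retraction `nbhd_ret` and the extension over cells `ext_one`.
-/

set_option autoImplicit false

noncomputable section

namespace MNG

open AGM (Ei Bl Sp)
open Set Topology

private lemma t2_diff {J : Type} {c : Cl J} {x y : J → ℝ} (hx : x ∈ bo c) (hy : y ∈ bo c) (j : J) :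
    |x j - y j| ≤ 1 := by
  have h1 : |2 * x j - (c j : ℝ)| ≤ ((c j % 2 : ℤ) : ℝ) := hx j
  have h2 : |2 * y j - (c j : ℝ)| ≤ ((c j % 2 : ℤ) : ℝ) := hy j
  have h3 : ((c j % 2 : ℤ) : ℝ) ≤ 1 := by
    have h4 : c j % 2 ≤ 1 := by omega
    exact_mod_cast h4
  have h5 := abs_le.1 (h1.trans h3)
  have h6 := abs_le.1 (h2.trans h3)
  rw [abs_le]
  constructor <;> linarith [h5.1, h5.2, h6.1, h6.2]

private lemma t2_dist {i m : ℕ} (hm : 0 < m) (y : Fin i → ℝ) (x : Ei i)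
    (h : ∀ j, |y j - (m : ℝ) * x j| ≤ 1) :
    dist (WithLp.toLp 2 (fun j => y j / (m : ℝ)) : Ei i) x ≤ (i : ℝ) / (m : ℝ) := by
  have hm' : (0 : ℝ) < m := by exact_mod_cast hm
  rw [EuclideanSpace.dist_eq]
  apply Real.sqrt_le_iff.2
  refine ⟨by positivity, ?_⟩
  have h1 : ∀ j ∈ (Finset.univ : Finset (Fin i)),
      dist ((WithLp.toLp 2 (fun j => y j / (m : ℝ)) : Ei i) j) (x j) ^ 2 ≤ (1 / (m : ℝ)) ^ 2 := by
    intro j _
    have h2 : dist ((WithLp.toLp 2 (fun j => y j / (m : ℝ)) : Ei i) j) (x j) ≤ 1 / (m : ℝ) := by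
      change |y j / (m : ℝ) - x j| ≤ 1 / (m : ℝ)
      have h3 : y j / (m : ℝ) - x j = (y j - (m : ℝ) * x j) / (m : ℝ) := by
        field_simp
      rw [h3, abs_div, abs_of_pos hm']
      exact div_le_div_of_nonneg_right (h j) hm'.le
    exact pow_le_pow_left₀ dist_nonneg h2 2
  have h4 := Finset.sum_le_sum h1
  rw [Finset.sum_const, Finset.card_univ, Fintype.card_fin, nsmul_eq_mul] at h4
  refine h4.trans ?_
  rw [div_pow, div_pow, one_pow, mul_one_div]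
  apply div_le_div_of_nonneg_right _ (by positivity)
  rcases Nat.eq_zero_or_pos i with h5 | h5
  · rw [h5]
    norm_num
  · have h6 : (1 : ℝ) ≤ i := by exact_mod_cast h5
    nlinarith

theorem ae {J : Type} [Fintype J] {k : ℕ} {C : Set (Cl J)} (hC : Cx C) (h : Cs k (Bo C)) {i : ℕ}
    (hi : i ≤ k) (Z A : Set (Ei i)) (hZ : IsCompact Z) (hA : IsClosed A) (hAZ : A ⊆ Z)
    (φ : Ei i → J → ℝ) (hφ : ContinuousOn φ A) (hφm : MapsTo φ A (Bo C)) :
    ∃ Φ : Ei i → J → ℝ, ContinuousOn Φ Z ∧ MapsTo Φ Z (Bo C) ∧ EqOn Φ φ A := by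
  obtain ⟨ρ, hρ, hρ1, hρ2⟩ := nbhd_ret hC h.1
  obtain ⟨φ', hφ'⟩ := ContinuousMap.exists_restrict_eq hA
    (⟨A.domRestrict φ, continuousOn_iff_continuous_domRestrict.1 hφ⟩ : C(A, J → ℝ))
  have hφA : ∀ x ∈ A, φ' x = φ x := fun x hx =>
    congrArg (fun g : C(A, J → ℝ) => g ⟨x, hx⟩) hφ'
  have hU : IsOpen {x : Ei i | Metric.infDist (φ' x) (Bo C) < 1 / 4} :=
    isOpen_lt ((Metric.continuous_infDist_pt _).comp φ'.continuous) continuous_const
  have hAU : A ⊆ {x : Ei i | Metric.infDist (φ' x) (Bo C) < 1 / 4} := by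
    intro x hx
    change Metric.infDist (φ' x) (Bo C) < 1 / 4
    rw [hφA x hx, Metric.infDist_zero_of_mem (hφm hx)]
    norm_num
  obtain ⟨δ, hδ, hδU⟩ := (hZ.of_isClosed_subset hA hAZ).exists_thickening_subset_open hU hAU
  obtain ⟨m₀, hm₀⟩ := exists_nat_gt ((i : ℝ) / δ)
  obtain ⟨m, hm, hmδ⟩ : ∃ m : ℕ, 0 < m ∧ (i : ℝ) / (m : ℝ) < δ := by
    refine ⟨m₀ + 1, Nat.succ_pos _, ?_⟩
    have h1 : (0 : ℝ) < ((m₀ + 1 : ℕ) : ℝ) := by positivity
    rw [div_lt_iff₀ h1]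
    rw [div_lt_iff₀ hδ] at hm₀
    push_cast
    nlinarith
  have hm' : (m : ℝ) ≠ 0 := by
    have h1 : (0 : ℝ) < m := by exact_mod_cast hm
    exact h1.ne'
  let σ : Ei i → Fin i → ℝ := fun x j => (m : ℝ) * x j
  let τ : (Fin i → ℝ) → Ei i := fun y => WithLp.toLp 2 (fun j => y j / (m : ℝ))
  have hσ : Continuous σ := by
    refine continuous_pi fun j => ?_
    exact continuous_const.mul (by fun_prop)
  have hτ : Continuous τ := by
    refine (PiLp.continuous_toLp 2 _).comp (continuous_pi fun j => ?_)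
    exact (continuous_apply j).div_const _
  have hτσ : ∀ x, τ (σ x) = x := by
    intro x
    ext j
    exact mul_div_cancel_left₀ (x j) hm'
  obtain ⟨N, hN⟩ : ∃ N : ℕ, ∀ x ∈ Z, ∀ j, |σ x j| ≤ (N : ℝ) := by
    obtain ⟨R, hR⟩ := (hZ.image hσ).isBounded.exists_norm_le
    obtain ⟨N, hN⟩ := exists_nat_ge R
    refine ⟨N, fun x hx j => ?_⟩
    exact (norm_le_pi_norm (σ x) j).trans ((hR _ (mem_image_of_mem σ hx)).trans hN)
  have hT : Cx (Bx (fun _ : Fin i => -(N : ℤ)) (fun _ => (N : ℤ))) := cx_bx _ _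
  have hσT : ∀ x ∈ Z, σ x ∈ Bo (Bx (fun _ : Fin i => -(N : ℤ)) (fun _ => (N : ℤ))) := by
    intro x hx
    rw [Bo_bx _ _ (fun _ => by omega)]
    intro j
    have h1 := abs_le.1 (hN x hx j)
    push_cast
    exact h1
  let P : Set (Cl (Fin i)) := {d | ∃ e ∈ Bx (fun _ : Fin i => -(N : ℤ)) (fun _ => (N : ℤ)),
    Fa d e ∧ ∃ x ∈ A, σ x ∈ bo e}
  have hPT : P ⊆ Bx (fun _ : Fin i => -(N : ℤ)) (fun _ => (N : ℤ)) := by
    rintro d ⟨e, he, hd, -⟩
    exact hT.clo e he d hd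
  have hP : Cx P := by
    refine ⟨hT.fin.subset hPT, ?_⟩
    rintro c ⟨e, he, hc, hx⟩ d hd
    exact ⟨e, he, fa_trans hd hc, hx⟩
  have hd : ∀ e ∈ Bx (fun _ : Fin i => -(N : ℤ)) (fun _ => (N : ℤ)), dm e ≤ k := by
    intro e _
    refine le_trans ?_ hi
    have h1 := Finset.card_le_univ (Finset.univ.filter (fun j : Fin i => e j % 2 = 1))
    rw [Fintype.card_fin] at h1
    exact h1
  have h1 : MapsTo (fun y => ρ (φ' (τ y))) (Bo P) (Bo C) := by
    rintro y ⟨d, ⟨e, he, hde, x, hx, hxe⟩, hy⟩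
    have hye : y ∈ bo e := bo_mono hde hy
    have h2 : dist (τ y) x ≤ (i : ℝ) / (m : ℝ) := t2_dist hm y x fun j => t2_diff hye hxe j
    have h3 : τ y ∈ Metric.thickening δ A :=
      Metric.mem_thickening_iff.2 ⟨x, hx, lt_of_le_of_lt h2 hmδ⟩
    have h4 : Metric.infDist (φ' (τ y)) (Bo C) < 1 / 4 := hδU h3
    exact hρ1 _ h4.le
  obtain ⟨c, hc, hcm, hce⟩ := ext_one (Bo C) h hP hT hPT hd (fun y => ρ (φ' (τ y)))
    ((hρ.comp (φ'.continuous.comp hτ)).continuousOn) h1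
  refine ⟨fun x => c (σ x), hc.comp hσ.continuousOn hσT, fun x hx => hcm (hσT x hx), ?_⟩
  intro x hx
  obtain ⟨e, he, hxe⟩ := hσT x (hAZ hx)
  have h5 : σ x ∈ Bo P := ⟨e, ⟨e, he, fa_refl e, x, hx, hxe⟩, hxe⟩
  have h6 : c (σ x) = ρ (φ' (τ (σ x))) := hce h5
  change c (σ x) = φ x
  rw [h6, hτσ, hφA x hx]
  exact hρ2 _ (hφm hx)

end MNG
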