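import Pool.Agent.MNG.T1b

/-!
# MNG-T2a: the neighbourhood retraction of a finite complex

`s y = min (infDist y (Bo C)) (1/4)` (sup distance), `R` a natural number such that all coordinates of all cells of `C` are
between `-2 R` and `2 R`. The retraction is
`ρ y j = -R + ∑ i ∈ range (2 * R), max 0 (min 1 ((y j + R - i - s y) / (1 - 2 * s y)))`: in every coordinate it sends the
`s`-neighbourhood of an integer `n` to `n`, and the points within `s` of the interval `[n, n + 1]` to this interval.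
-/

set_option autoImplicit false

noncomputable section

namespace MNG

open AGM (Ei Bl Sp)
open Set Topology

private theorem t2a_up {s t : ℝ} {N m : ℕ} (hs4 : s ≤ 1 / 4) (ht : t ≤ m + s) :
    ∑ i ∈ Finset.range N, max 0 (min 1 ((t - i - s) / (1 - 2 * s))) ≤ (m : ℝ) := by
  have hd : 0 < 1 - 2 * s := by linarith
  have h : ∀ i ∈ Finset.range N, max 0 (min 1 ((t - i - s) / (1 - 2 * s))) ≤ if i < m then (1 : ℝ) else 0 := by
    intro i _
    split_ifs with h
    · exact max_le zero_le_one (min_le_left _ _)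
    · refine max_le le_rfl ((min_le_right _ _).trans ?_)
      refine div_nonpos_of_nonpos_of_nonneg ?_ hd.le
      have h1 : (m : ℝ) ≤ i := by exact_mod_cast not_lt.1 h
      linarith
  refine (Finset.sum_le_sum h).trans ?_
  rw [← Finset.sum_filter, Finset.sum_const, nsmul_eq_mul, mul_one]
  have h2 : ((Finset.range N).filter (fun i => i < m)).card ≤ m := by
    have h3 : (Finset.range N).filter (fun i => i < m) ⊆ Finset.range m := by
      intro i hi
      rw [Finset.mem_filter] at hi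
      exact Finset.mem_range.2 hi.2
    have h4 := Finset.card_le_card h3
    rwa [Finset.card_range] at h4
  exact_mod_cast h2

private theorem t2a_dn {s t : ℝ} {N m : ℕ} (hs4 : s ≤ 1 / 4) (hm : m ≤ N) (ht : m - s ≤ t) :
    (m : ℝ) ≤ ∑ i ∈ Finset.range N, max 0 (min 1 ((t - i - s) / (1 - 2 * s))) := by
  have hd : 0 < 1 - 2 * s := by linarith
  have h1 : ∑ i ∈ Finset.range m, max 0 (min 1 ((t - i - s) / (1 - 2 * s))) ≤
      ∑ i ∈ Finset.range N, max 0 (min 1 ((t - i - s) / (1 - 2 * s))) :=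
    Finset.sum_le_sum_of_subset_of_nonneg (Finset.range_subset_range.2 hm) fun i _ _ => le_max_left _ _
  refine le_trans ?_ h1
  have h2 : ∀ i ∈ Finset.range m, (1 : ℝ) ≤ max 0 (min 1 ((t - i - s) / (1 - 2 * s))) := by
    intro i hi
    have h3 : (i : ℝ) + 1 ≤ m := by exact_mod_cast Finset.mem_range.1 hi
    refine le_max_of_le_right (le_min le_rfl ?_)
    rw [le_div_iff₀ hd]
    linarith
  have h4 : ∑ i ∈ Finset.range m, (1 : ℝ) = m := by
    rw [Finset.sum_const, nsmul_eq_mul, mul_one, Finset.card_range]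
  rw [← h4]
  exact Finset.sum_le_sum h2

private theorem t2a_zero (t : ℝ) (N : ℕ) :
    ∑ i ∈ Finset.range N, max 0 (min 1 ((t - i - 0) / (1 - 2 * 0))) = max 0 (min t (N : ℝ)) := by
  induction N with
  | zero =>
    rw [Finset.range_zero, Finset.sum_empty, Nat.cast_zero]
    exact (max_eq_left (min_le_right t 0)).symm
  | succ N ih =>
    rw [Finset.sum_range_succ, ih]
    have h0 : (0 : ℝ) ≤ N := Nat.cast_nonneg N
    have e : (t - N - 0) / (1 - 2 * 0) = t - N := by norm_num
    rw [e]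
    push_cast
    rcases le_total t N with h | h
    · rw [min_eq_left h, min_eq_right (by linarith : t - N ≤ 1), max_eq_left (by linarith : t - N ≤ 0),
        min_eq_left (by linarith : t ≤ (N : ℝ) + 1), add_zero]
    · rw [min_eq_right h, max_eq_right h0]
      rcases le_total t (N + 1) with h1 | h1
      · rw [min_eq_right (by linarith : t - N ≤ 1), max_eq_right (by linarith : 0 ≤ t - N), min_eq_left h1,
          max_eq_right (by linarith : 0 ≤ t)]
        ring
      · rw [min_eq_left (by linarith : 1 ≤ t - N), max_eq_right zero_le_one, min_eq_right h1,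
          max_eq_right (by linarith : (0 : ℝ) ≤ N + 1)]

private theorem t2a_one {t : ℝ} {c : ℤ} (h0 : |2 * t - (c : ℝ)| ≤ ((c % 2 : ℤ) : ℝ)) :
    (∃ m : ℤ, c = 2 * m ∧ t = m) ∨ ∃ m : ℤ, c = 2 * m + 1 ∧ (m : ℝ) ≤ t ∧ t ≤ m + 1 := by
  rcases Int.emod_two_eq_zero_or_one c with h | h
  · obtain ⟨m, hm⟩ : ∃ m : ℤ, c = 2 * m := ⟨c / 2, by omega⟩
    left
    refine ⟨m, hm, ?_⟩
    rw [h, Int.cast_zero, abs_nonpos_iff, hm] at h0
    push_cast at h0
    linarith
  · obtain ⟨m, hm⟩ : ∃ m : ℤ, c = 2 * m + 1 := ⟨c / 2, by omega⟩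
    right
    refine ⟨m, hm, ?_⟩
    rw [h, Int.cast_one, abs_le, hm] at h0
    push_cast at h0
    constructor <;> linarith [h0.1, h0.2]

private theorem t2a_bd {J : Type} [Fintype J] {C : Set (Cl J)} (hC : C.Finite) :
    ∃ R : ℕ, ∀ c ∈ C, ∀ j, -(2 * (R : ℤ)) ≤ c j ∧ c j ≤ 2 * (R : ℤ) := by
  refine ⟨∑ c ∈ hC.toFinset, ∑ j, (c j).natAbs, fun c hc j => ?_⟩
  have h1 : (c j).natAbs ≤ ∑ j, (c j).natAbs :=
    Finset.single_le_sum (f := fun j => (c j).natAbs) (fun _ _ => Nat.zero_le _) (Finset.mem_univ j)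
  have h2 : ∑ j, (c j).natAbs ≤ ∑ c ∈ hC.toFinset, ∑ j, (c j).natAbs :=
    Finset.single_le_sum (f := fun c : Cl J => ∑ j, (c j).natAbs) (fun _ _ => Nat.zero_le _)
      (hC.mem_toFinset.2 hc)
  omega

theorem nbhd_ret {J : Type} [Fintype J] {C : Set (Cl J)} (hC : Cx C) (hn : (Bo C).Nonempty) :
    ∃ ρ : (J → ℝ) → J → ℝ, Continuous ρ ∧
      (∀ y, Metric.infDist y (Bo C) ≤ 1 / 4 → ρ y ∈ Bo C) ∧ ∀ y ∈ Bo C, ρ y = y := by
  obtain ⟨R, hR⟩ := t2a_bd hC.fin
  obtain ⟨s, hs⟩ : ∃ s : (J → ℝ) → ℝ, s = fun y => min (Metric.infDist y (Bo C)) (1 / 4) := ⟨_, rfl⟩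
  have hsc : Continuous s := by
    rw [hs]
    exact (Metric.continuous_infDist_pt (Bo C)).min continuous_const
  have hs4 : ∀ y, s y ≤ 1 / 4 := by
    intro y
    rw [hs]
    exact min_le_right _ _
  have hd : ∀ y, 1 - 2 * s y ≠ 0 := by
    intro y h
    linarith [hs4 y]
  obtain ⟨ρ, hρ⟩ : ∃ ρ : (J → ℝ) → J → ℝ, ρ = fun y j => -(R : ℝ) +
      ∑ i ∈ Finset.range (2 * R), max 0 (min 1 ((y j + R - i - s y) / (1 - 2 * s y))) := ⟨_, rfl⟩
  refine ⟨ρ, ?_, ?_, ?_⟩
  · rw [hρ]
    refine continuous_pi fun j => continuous_const.add (continuous_finsetSum _ fun i _ => ?_)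
    refine continuous_const.max (continuous_const.min (Continuous.div ?_ ?_ hd))
    · exact (((continuous_apply j).add continuous_const).sub continuous_const).sub hsc
    · exact continuous_const.sub (continuous_const.mul hsc)
  · intro y hy
    obtain ⟨x, hx, hxy⟩ := (Bo_compact hC.fin).exists_infDist_eq_dist hn y
    have hsy : s y = dist y x := by
      rw [hs, ← hxy]
      exact min_eq_left hy
    obtain ⟨c, hc, hxc⟩ := hx
    refine ⟨c, hc, fun j => ?_⟩
    have hj : |y j - x j| ≤ s y := by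
      rw [hsy, ← Real.dist_eq]
      exact dist_le_pi_dist y x j
    rw [abs_le] at hj
    have hcj := hR c hc j
    have h0 : |2 * x j - (c j : ℝ)| ≤ ((c j % 2 : ℤ) : ℝ) := hxc j
    have hρj : ρ y j = -(R : ℝ) +
      ∑ i ∈ Finset.range (2 * R), max 0 (min 1 ((y j + R - i - s y) / (1 - 2 * s y))) := by rw [hρ]
    rcases t2a_one h0 with ⟨m, h1, h2⟩ | ⟨m, h1, h2, h3⟩
    · obtain ⟨M, hM⟩ : ∃ M : ℕ, (M : ℤ) = m + R := ⟨(m + R).toNat, by omega⟩
      have hM2 : M ≤ 2 * R := by omega
      have hM3 : (M : ℝ) = m + R := by exact_mod_cast hM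
      have h4 := t2a_up (s := s y) (t := y j + R) (N := 2 * R) (m := M) (hs4 y) (by rw [hM3]; linarith [hj.1, hj.2])
      have h5 := t2a_dn (s := s y) (t := y j + R) (N := 2 * R) (m := M) (hs4 y) hM2
        (by rw [hM3]; linarith [hj.1, hj.2])
      have h6 : ρ y j = m := by
        rw [hρj]
        linarith
      have h7 : c j % 2 = 0 := by omega
      rw [h6, h7, h1]
      push_cast
      rw [sub_self, abs_zero]
    · obtain ⟨M, hM⟩ : ∃ M : ℕ, (M : ℤ) = m + R := ⟨(m + R).toNat, by omega⟩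
      have hM2 : M + 1 ≤ 2 * R := by omega
      have hM3 : (M : ℝ) = m + R := by exact_mod_cast hM
      have h4 := t2a_up (s := s y) (t := y j + R) (N := 2 * R) (m := M + 1) (hs4 y)
        (by push_cast; rw [hM3]; linarith [hj.1, hj.2])
      have h5 := t2a_dn (s := s y) (t := y j + R) (N := 2 * R) (m := M) (hs4 y) (by omega)
        (by rw [hM3]; linarith [hj.1, hj.2])
      push_cast at h4
      have h7 : c j % 2 = 1 := by omega
      rw [hρj, h7, h1, abs_le]
      push_cast
      constructor <;> linarith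
  · intro y hy
    have hsy : s y = 0 := by
      have h1 : Metric.infDist y (Bo C) = 0 := Metric.infDist_zero_of_mem hy
      rw [hs]
      show min (Metric.infDist y (Bo C)) (1 / 4) = 0
      rw [h1]
      exact min_eq_left (by norm_num)
    obtain ⟨c, hc, hyc⟩ := hy
    funext j
    have hρj : ρ y j = -(R : ℝ) +
      ∑ i ∈ Finset.range (2 * R), max 0 (min 1 ((y j + R - i - s y) / (1 - 2 * s y))) := by rw [hρ]
    rw [hρj, hsy, t2a_zero]
    have hcj := hR c hc j
    have h0 : |2 * y j - (c j : ℝ)| ≤ ((c j % 2 : ℤ) : ℝ) := hyc j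
    have hb : -(R : ℝ) ≤ y j ∧ y j ≤ R := by
      rcases t2a_one h0 with ⟨m, h1, h2⟩ | ⟨m, h1, h2, h3⟩
      · have h4 : -(R : ℤ) ≤ m := by omega
        have h5 : m ≤ R := by omega
        rw [h2]
        exact ⟨by exact_mod_cast h4, by exact_mod_cast h5⟩
      · have h4 : -(R : ℤ) ≤ m := by omega
        have h5 : m + 1 ≤ R := by omega
        have h6 : -(R : ℝ) ≤ m := by exact_mod_cast h4
        have h7 : (m : ℝ) + 1 ≤ R := by exact_mod_cast h5
        exact ⟨by linarith, by linarith⟩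
    push_cast
    rw [min_eq_left (by linarith [hb.2]), max_eq_right (by linarith [hb.1])]
    ring

end MNG
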