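import Pool.Agent.MNG.T1b

/-!
# MNG-T2b: extension of a map over one cell

If `dm e = 0` the body of `e` is one point, which is not in `Bo K`. Otherwise `bo e ∩ Bo K` is the boundary of `bo e`; use a chart
`Ei (dm e) → J → ℝ` and the homeomorphism of the cube and the ball
`exists_homeomorph_image_interior_closure_frontier_eq_unitBall`.
-/

set_option autoImplicit false

noncomputable section

namespace MNG

open AGM (Ei Bl Sp)
open Set Topology

/-- the cube of side 1 -/
private def t2bS (d : ℕ) : Set (Ei d) := {z | ∀ i, |z i| ≤ 1 / 2}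

private theorem t2b_coord {d : ℕ} (i : Fin d) : Continuous fun z : Ei d => z i := by
  fun_prop

private theorem t2bS_closed (d : ℕ) : IsClosed (t2bS d) := by
  have h : t2bS d = ⋂ i, {z : Ei d | |z i| ≤ 1 / 2} := by
    ext z
    simp only [t2bS, Set.mem_iInter, Set.mem_setOf_eq]
  rw [h]
  exact isClosed_iInter fun i => isClosed_le (t2b_coord i).abs continuous_const

private theorem t2bS_open (d : ℕ) : IsOpen {z : Ei d | ∀ i, |z i| < 1 / 2} := by
  have h : {z : Ei d | ∀ i, |z i| < 1 / 2} = ⋂ i, {z : Ei d | |z i| < 1 / 2} := by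
    ext z
    simp only [Set.mem_iInter, Set.mem_setOf_eq]
  rw [h]
  exact isOpen_iInter_of_finite fun i => isOpen_lt (t2b_coord i).abs continuous_const

private theorem t2bS_convex (d : ℕ) : Convex ℝ (t2bS d) := by
  intro x hx y hy a b ha hb hab i
  have h1 := hx i
  have h2 := hy i
  have h3 : (a • x + b • y) i = a * x i + b * y i := by simp
  rw [h3]
  rw [abs_le] at h1 h2 ⊢
  constructor <;> nlinarith

private theorem t2bS_bdd (d : ℕ) : Bornology.IsBounded (t2bS d) := by
  rw [Metric.isBounded_iff_subset_closedBall 0]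
  refine ⟨Real.sqrt d, fun z hz => ?_⟩
  rw [mem_closedBall_zero_iff, EuclideanSpace.norm_eq]
  refine Real.sqrt_le_sqrt ?_
  calc ∑ i, ‖z i‖ ^ 2 ≤ ∑ _i : Fin d, (1 : ℝ) := by
        refine Finset.sum_le_sum fun i _ => ?_
        have h := hz i
        rw [Real.norm_eq_abs]
        nlinarith [abs_nonneg (z i)]
    _ = (d : ℝ) := by simp

private theorem t2bS_int (d : ℕ) : (interior (t2bS d)).Nonempty := by
  refine ⟨0, ?_⟩
  have h : {z : Ei d | ∀ i, |z i| < 1 / 2} ⊆ interior (t2bS d) :=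
    interior_maximal (fun z hz i => (hz i).le) (t2bS_open d)
  exact h fun i => by simp

private theorem t2bS_fr {d : ℕ} {z : Ei d} (hz : z ∈ frontier (t2bS d)) :
    z ∈ t2bS d ∧ ∃ i, |z i| = 1 / 2 := by
  rw [frontier, (t2bS_closed d).closure_eq] at hz
  refine ⟨hz.1, ?_⟩
  by_contra hcon
  push Not at hcon
  have h : {z : Ei d | ∀ i, |z i| < 1 / 2} ⊆ interior (t2bS d) :=
    interior_maximal (fun z hz i => (hz i).le) (t2bS_open d)
  exact hz.2 (h fun i => lt_of_le_of_ne (hz.1 i) (hcon i))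

private theorem t2bS_fr' {d : ℕ} {z : Ei d} (hz : z ∈ t2bS d) {i : Fin d} (hi : |z i| = 1 / 2) :
    z ∈ frontier (t2bS d) := by
  rw [frontier, (t2bS_closed d).closure_eq]
  refine ⟨hz, fun hint => ?_⟩
  rw [mem_interior_iff_mem_nhds, Metric.mem_nhds_iff] at hint
  obtain ⟨ε, hε, hb⟩ := hint
  have h1 : ∀ a : ℝ, |a| < ε → |z i + a| ≤ 1 / 2 := by
    intro a ha
    have h2 : z + EuclideanSpace.single i a ∈ Metric.ball z ε := by
      rw [Metric.mem_ball, dist_eq_norm, add_sub_cancel_left, EuclideanSpace.norm_single,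
        Real.norm_eq_abs]
      exact ha
    have h3 := hb h2 i
    simpa using h3
  rcases abs_eq (by norm_num : (0:ℝ) ≤ 1 / 2) |>.1 hi with h2 | h2
  · have h3 := h1 (ε / 2) (by rw [abs_of_pos (by linarith)]; linarith)
    rw [h2, abs_le] at h3
    linarith [h3.2]
  · have h3 := h1 (-(ε / 2)) (by rw [abs_neg, abs_of_pos (by linarith)]; linarith)
    rw [h2, abs_le] at h3
    linarith [h3.1]

private theorem t2b_par (a : ℤ) : a % 2 = 0 ∨ a % 2 = 1 := by omega

theorem cell_step {J : Type} [Fintype J] {k : ℕ} {X : Type} [TopologicalSpace X] (B : Set X)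
    (h : Cs k B) {K : Set (Cl J)} (hK : Cx K) (e : Cl J) (he : e ∉ K)
    (hce : Clo (insert e K)) (hd : dm e ≤ k) (c₀ : (J → ℝ) → X) (h0 : ContinuousOn c₀ (Bo K))
    (h1 : MapsTo c₀ (Bo K ∩ bo e) B) :
    ∃ c : (J → ℝ) → X, ContinuousOn c (Bo (insert e K)) ∧ EqOn c c₀ (Bo K) ∧
      MapsTo c (bo e) B := by
  classical
  suffices hg : ∃ g : (J → ℝ) → X, ContinuousOn g (bo e) ∧ EqOn g c₀ (Bo K ∩ bo e) ∧
      MapsTo g (bo e) B by
    obtain ⟨g, g1, g2, g3⟩ := hg
    have e1 : EqOn (fun x => if x ∈ Bo K then c₀ x else g x) c₀ (Bo K) := by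
      intro x hx
      exact if_pos hx
    have e2 : EqOn (fun x => if x ∈ Bo K then c₀ x else g x) g (bo e) := by
      intro x hx
      by_cases hxK : x ∈ Bo K
      · exact (if_pos hxK).trans (g2 ⟨hxK, hx⟩).symm
      · exact if_neg hxK
    have hB : Bo (insert e K) = Bo K ∪ bo e := by
      ext x
      constructor
      · rintro ⟨c, hc, hx⟩
        rcases hc with rfl | hc
        · exact Or.inr hx
        · exact Or.inl ⟨c, hc, hx⟩
      · rintro (⟨c, hc, hx⟩ | hx)
        · exact ⟨c, Or.inr hc, hx⟩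
        · exact ⟨e, Or.inl rfl, hx⟩
    refine ⟨fun x => if x ∈ Bo K then c₀ x else g x, ?_, e1, fun x hx => ?_⟩
    · rw [hB]
      exact (h0.congr e1).union_of_isClosed (g1.congr e2) (Bo_compact hK.fin).isClosed
        (bo_closed e)
    · rw [e2 hx]
      exact g3 hx
  -- the chart
  have hcard : Fintype.card {j // e j % 2 = 1} = dm e := Fintype.card_subtype _
  let ι : {j // e j % 2 = 1} ≃ Fin (dm e) := Fintype.equivFinOfCardEq hcard
  let χ : Ei (dm e) → J → ℝ := fun z j =>
    if hj : e j % 2 = 1 then (e j : ℝ) / 2 + z (ι ⟨j, hj⟩) else (e j : ℝ) / 2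
  let p : (J → ℝ) → Ei (dm e) := fun x =>
    WithLp.toLp 2 (fun i => x (ι.symm i).1 - (e (ι.symm i).1 : ℝ) / 2)
  have hp : ∀ x i, p x i = x (ι.symm i).1 - (e (ι.symm i).1 : ℝ) / 2 := fun x i => rfl
  have hχc : Continuous χ := by
    refine continuous_pi fun j => ?_
    by_cases hj : e j % 2 = 1
    · simp only [χ, hj, dif_pos]
      exact continuous_const.add (t2b_coord _)
    · simp only [χ, hj]
      exact continuous_const
  have hpc : Continuous p := by
    have : Continuous fun (x : J → ℝ) (i : Fin (dm e)) =>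
        x (ι.symm i).1 - (e (ι.symm i).1 : ℝ) / 2 :=
      continuous_pi fun i => (continuous_apply _).sub continuous_const
    exact (PiLp.continuous_toLp 2 _).comp this
  have hχm : ∀ z ∈ t2bS (dm e), χ z ∈ bo e := by
    intro z hz j
    by_cases hj : e j % 2 = 1
    · have h2 := hz (ι ⟨j, hj⟩)
      have h3 : χ z j = (e j : ℝ) / 2 + z (ι ⟨j, hj⟩) := by simp only [χ, hj, dif_pos]
      rw [h3, hj]
      have h4 : 2 * ((e j : ℝ) / 2 + z (ι ⟨j, hj⟩)) - (e j : ℝ) = 2 * z (ι ⟨j, hj⟩) := by ring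
      rw [h4, abs_mul, abs_of_pos (by norm_num : (0:ℝ) < 2)]
      push_cast
      linarith
    · have h3 : χ z j = (e j : ℝ) / 2 := by simp only [χ, hj, dif_neg, not_false_iff]
      have h4 : e j % 2 = 0 := by omega
      rw [h3, h4]
      have h5 : 2 * ((e j : ℝ) / 2) - (e j : ℝ) = 0 := by ring
      rw [h5]
      simp
  have hpm : ∀ x ∈ bo e, p x ∈ t2bS (dm e) := by
    intro x hx i
    have h2 := hx (ι.symm i).1
    rw [(ι.symm i).2] at h2
    rw [hp]
    rw [abs_le] at h2 ⊢
    push_cast at h2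
    constructor <;> linarith [h2.1, h2.2]
  have hχp : ∀ x ∈ bo e, χ (p x) = x := by
    intro x hx
    funext j
    by_cases hj : e j % 2 = 1
    · have h3 : χ (p x) j = (e j : ℝ) / 2 + p x (ι ⟨j, hj⟩) := by simp only [χ, hj, dif_pos]
      rw [h3, hp, ι.symm_apply_apply]
      ring
    · have h3 : χ (p x) j = (e j : ℝ) / 2 := by simp only [χ, hj, dif_neg, not_false_iff]
      have h4 : e j % 2 = 0 := by omega
      have h5 := hx j
      rw [h4] at h5
      rw [h3]
      have h6 : 2 * x j - (e j : ℝ) = 0 := by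
        have h7 : |2 * x j - (e j : ℝ)| ≤ 0 := by simpa using h5
        exact abs_nonpos_iff.1 h7
      linarith
  -- boundary points of the chart are in the complex
  have hb1 : ∀ z ∈ t2bS (dm e), (∃ i, |z i| = 1 / 2) → χ z ∈ Bo K := by
    rintro z hz ⟨i, hi⟩
    obtain ⟨j, hj⟩ : ∃ j : {j // e j % 2 = 1}, ι j = i := ⟨ι.symm i, ι.apply_symm_apply i⟩
    obtain ⟨s, hs, hs'⟩ : ∃ s : ℤ, (s = 1 ∨ s = -1) ∧ z i = (s : ℝ) / 2 := by
      rcases abs_eq (by norm_num : (0:ℝ) ≤ 1 / 2) |>.1 hi with h2 | h2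
      · exact ⟨1, Or.inl rfl, by rw [h2]; norm_num⟩
      · exact ⟨-1, Or.inr rfl, by rw [h2]; norm_num⟩
    let c : Cl J := Function.update e j.1 (e j.1 + s)
    have hc1 : c j.1 = e j.1 + s := Function.update_self _ _ _
    have hc2 : ∀ j', j' ≠ j.1 → c j' = e j' := fun j' hj' => Function.update_of_ne hj' _ _
    have hje := j.2
    have hFa : Fa c e := by
      intro j'
      by_cases hj' : j' = j.1
      · subst hj'
        right
        refine ⟨hje, ?_⟩
        rw [hc1]
        rcases hs with rfl | rfl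
        · right; rfl
        · left; rfl
      · left
        exact hc2 j' hj'
    have hcK : c ∈ K := by
      rcases hce e (Or.inl rfl) c hFa with h2 | h2
      · exfalso
        have h3 : c j.1 = e j.1 := by rw [h2]
        rw [hc1] at h3
        rcases hs with rfl | rfl <;> omega
      · exact h2
    refine ⟨c, hcK, fun j' => ?_⟩
    by_cases hj' : j' = j.1
    · subst hj'
      have h3 : χ z j.1 = (e j.1 : ℝ) / 2 + z (ι ⟨j.1, hje⟩) := by
        simp only [χ, hje, dif_pos]
      have h4 : z (ι ⟨j.1, hje⟩) = (s : ℝ) / 2 := by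
        rw [← hs', ← hj]
      rw [h3, h4, hc1]
      have h5 : 2 * ((e j.1 : ℝ) / 2 + (s : ℝ) / 2) - ((e j.1 + s : ℤ) : ℝ) = 0 := by
        push_cast
        ring
      rw [h5, abs_zero]
      have h6 : 0 ≤ (e j.1 + s) % 2 := by omega
      exact_mod_cast h6
    · have h3 := hχm z hz j'
      rw [hc2 j' hj']
      exact h3
  have hb2 : ∀ x ∈ Bo K ∩ bo e, ∃ i, |p x i| = 1 / 2 := by
    rintro x ⟨hxK, hxe⟩
    have h2 : cr x ∈ K := cr_mem hK.clo hxK
    have h3 : Fa (cr x) e := cr_min hxe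
    have h4 : ∃ j, cr x j ≠ e j := by
      by_contra hcon
      push Not at hcon
      exact he ((funext hcon : cr x = e) ▸ h2)
    obtain ⟨j, hj⟩ := h4
    rcases h3 j with h5 | ⟨h5, h6⟩
    · exact absurd h5 hj
    · refine ⟨ι ⟨j, h5⟩, ?_⟩
      rw [hp, ι.symm_apply_apply]
      have h7 := cr_bo x j
      have h8 : cr x j % 2 = 0 := by omega
      rw [h8] at h7
      have h9 : 2 * x j - (cr x j : ℝ) = 0 := by
        have h7' : |2 * x j - (cr x j : ℝ)| ≤ 0 := by simpa using h7
        exact abs_nonpos_iff.1 h7'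
      show |x j - (e j : ℝ) / 2| = 1 / 2
      rcases h6 with h6 | h6
      · rw [h6] at h9
        push_cast at h9
        have h10 : x j - (e j : ℝ) / 2 = -(1 / 2) := by linarith
        rw [h10, abs_neg, abs_of_pos (by norm_num)]
      · rw [h6] at h9
        push_cast at h9
        have h10 : x j - (e j : ℝ) / 2 = 1 / 2 := by linarith
        rw [h10, abs_of_pos (by norm_num)]
  -- the two cases
  obtain ⟨b, hb⟩ := h.1
  rcases Nat.eq_zero_or_pos (dm e) with h2 | h2
  · refine ⟨fun _ => b, continuousOn_const, fun x hx => ?_, fun x hx => hb⟩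
    obtain ⟨i, -⟩ := hb2 x hx
    exact absurd i.2 (by omega)
  · obtain ⟨H, -, H2, H3⟩ := exists_homeomorph_image_interior_closure_frontier_eq_unitBall
      (t2bS_convex (dm e)) (t2bS_int (dm e)) (t2bS_bdd (dm e))
    rw [(t2bS_closed (dm e)).closure_eq] at H2
    have hS : ∀ y ∈ Sp (dm e), χ (H.symm y) ∈ Bo K ∩ bo e := by
      intro y hy
      have h3 : y ∈ H '' frontier (t2bS (dm e)) := by rw [H3]; exact hy
      obtain ⟨z, hz, rfl⟩ := h3
      rw [H.symm_apply_apply]
      obtain ⟨h4, h5⟩ := t2bS_fr hz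
      exact ⟨hb1 z h4 h5, hχm z h4⟩
    obtain ⟨Φ, Φ1, Φ2, Φ3⟩ := h.2 (dm e) h2 hd (fun y => c₀ (χ (H.symm y)))
      (h0.comp (hχc.comp H.symm.continuous).continuousOn fun y hy => (hS y hy).1)
      (fun y hy => h1 (hS y hy))
    have hBl : ∀ x ∈ bo e, H (p x) ∈ Bl (dm e) := by
      intro x hx
      show H (p x) ∈ Metric.closedBall (0 : Ei (dm e)) 1
      rw [← H2]
      exact mem_image_of_mem _ (hpm x hx)
    refine ⟨fun x => Φ (H (p x)), Φ1.comp (H.continuous.comp hpc).continuousOn hBl,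
      fun x hx => ?_, fun x hx => Φ2 (hBl x hx)⟩
    have h3 : H (p x) ∈ Sp (dm e) := by
      show H (p x) ∈ Metric.sphere (0 : Ei (dm e)) 1
      rw [← H3]
      obtain ⟨i, hi⟩ := hb2 x hx
      exact mem_image_of_mem _ (t2bS_fr' (hpm x hx.2) hi)
    show Φ (H (p x)) = c₀ x
    rw [Φ3 h3]
    show c₀ (χ (H.symm (H (p x)))) = c₀ x
    rw [H.symm_apply_apply, hχp x hx.2]

end MNG
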