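import Pool.Agent.MNG.T1b

/-!
# MNG-X0: the source tower, definitions

`J 0 = Fin 0`, `T 0` a point, `J (b + 1) = J b ⊕ (ZMod (p ^ (b + 1)) × Fin (2 * (m + 2)))` and
`T (b + 1) = sk m (Gr 8 (Px (T b) XE))`, `XE` the cubical join of the columns (`m + 2` columns of the first
group, `m + 2` columns of the second group, `N = p ^ (b + 1)` points in each column).
-/

set_option autoImplicit false

noncomputable section

namespace MNG

open AGM (Ei Bl Sp)
open Set Topology

/-- the cubical join of `R` copies of `ZMod N` -/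
def XE (N R : ℕ) : Set (Cl (ZMod N × Fin R)) :=
  {c | (∀ a, 0 ≤ c a ∧ c a ≤ 2) ∧ (∃ a, c a = 2) ∧
    ∀ k g g', g ≠ g' → c (g, k) = 0 ∨ c (g', k) = 0}

/-- the geometric join, scaled by `8`, of the columns `s ≤ k < s + r` -/
def ES (N R s r : ℕ) : Set (ZMod N × Fin R → ℝ) :=
  {x | (∀ a, 0 ≤ x a ∧ x a ≤ 8) ∧ (∃ a, x a = 8) ∧
    (∀ k g g', g ≠ g' → x (g, k) = 0 ∨ x (g', k) = 0) ∧
    ∀ a, (a.2.val < s ∨ s + r ≤ a.2.val) → x a = 0}

/-- `1` (that is `2` in doubled coordinates) if a coordinate of the second group is `8`, `0` if no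
coordinate of the second group reaches `8`, else the unit interval -/
def xla (N h R : ℕ) (c : Cl (ZMod N × Fin R)) : ℤ :=
  open Classical in
  if ∃ a : ZMod N × Fin R, h ≤ a.2.val ∧ c a = 16 then 2
  else if ∃ a : ZMod N × Fin R, h ≤ a.2.val ∧ c a = 15 then 1 else 0

/-- the map of property (B) -/
def xg {J : Type} (N h R : ℕ) (c : Cl (J ⊕ ZMod N × Fin R)) : Cl (J ⊕ Unit) :=
  Sum.elim (fs c) (fun _ => xla N h R (sn c))

/-- the cells of the `8`-grid of the join with `xla` a face of `z` -/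
def XEz (N h R : ℕ) (z : ℤ) : Set (Cl (ZMod N × Fin R)) :=
  {c | ca 8 c ∈ XE N R ∧ fc (xla N h R c) z}

/-- one step of the tower -/
def XT {J : Type} [Fintype J] (N m : ℕ) [NeZero N] (T : Set (Cl J)) :
    Set (Cl (J ⊕ ZMod N × Fin (2 * (m + 2)))) :=
  sk m (Gr 8 (Px T (XE N (2 * (m + 2)))))

end MNG
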