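import Pool.Agent.MNG.T1
import Pool.Agent.MNG.X0
import Pool.Agent.AGM.TOP

/-!
# MNG-X1: the join of at least `m + 2` columns is `(m - 1)`-connected

`cs_dom` from `AGM.EM N r` (`AGM.em_ext`).
-/

set_option autoImplicit false

noncomputable section

namespace MNG

open AGM (Ei Bl Sp)
open Set Topology

private theorem x1_em (N : ℕ) [NeZero N] (m r : ℕ) (hr : m + 2 ≤ r) : Cs m (AGM.EM N r) := by
  refine ⟨⟨fun a => if a = (0, 0) then 1 else 0, ?_, ⟨(0, 0), if_pos rfl⟩, ?_, ?_⟩, ?_⟩
  · intro a
    dsimp only
    split_ifs <;> norm_num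
  · intro k g g' hg
    by_cases h : g = 0
    · right
      refine if_neg fun h' => hg ?_
      rw [h]
      exact (congrArg Prod.fst h').symm
    · left
      exact if_neg fun h' => h (congrArg Prod.fst h')
  · intro a ha
    refine if_neg fun h => ?_
    rw [h] at ha
    have h2 : r ≤ 0 := ha
    omega
  · intro i _ hi φ hφ hφm
    exact AGM.em_ext N i r (by omega) φ hφ hφm

theorem cs_es {N : ℕ} [NeZero N] {R s r m : ℕ} (hr : m + 2 ≤ r) (hs : s + r ≤ R) :
    Cs m (ES N R s r) := by
  classical
  refine cs_dom (AGM.EM N r) (ES N R s r)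
    (fun (x : ZMod N × ℕ → ℝ) (a : ZMod N × Fin R) =>
      if s ≤ a.2.val ∧ a.2.val < s + r then 8 * x (a.1, a.2.val - s) else 0)
    (fun (x : ZMod N × Fin R → ℝ) (a : ZMod N × ℕ) =>
      if h : a.2 < r then x (a.1, ⟨s + a.2, by omega⟩) / 8 else 0) ?_ ?_ ?_ ?_ ?_
    (x1_em N m r hr)
  · apply Continuous.continuousOn
    refine continuous_pi fun a => ?_
    by_cases h : s ≤ a.2.val ∧ a.2.val < s + r
    · simp only [if_pos h]
      exact continuous_const.mul (continuous_apply _)
    · simp only [if_neg h]
      exact continuous_const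
  · apply Continuous.continuousOn
    refine continuous_pi fun a => ?_
    by_cases h : a.2 < r
    · simp only [dif_pos h]
      exact (continuous_apply _).div_const _
    · simp only [dif_neg h]
      exact continuous_const
  · rintro x ⟨h1, ⟨⟨g, k⟩, h2⟩, h3, h4⟩
    have hk : k < r := by
      by_contra hk
      have h5 := h4 (g, k) (not_lt.1 hk)
      rw [h5] at h2
      exact zero_ne_one h2
    refine ⟨fun a => ?_, ⟨(g, ⟨s + k, by omega⟩), ?_⟩, fun c g g' hg => ?_, fun a ha => ?_⟩
    · dsimp only
      split_ifs
      · have h5 := h1 (a.1, a.2.val - s)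
        constructor <;> linarith [h5.1, h5.2]
      · norm_num
    · dsimp only
      rw [if_pos ⟨by omega, by omega⟩, Nat.add_sub_cancel_left, h2]
      norm_num
    · dsimp only
      split_ifs
      · rcases h3 (c.val - s) g g' hg with h5 | h5
        · left
          rw [h5, mul_zero]
        · right
          rw [h5, mul_zero]
      · exact Or.inl rfl
    · dsimp only
      rw [if_neg]
      omega
  · rintro x ⟨h1, ⟨⟨g, k⟩, h2⟩, h3, h4⟩
    have hk : s ≤ k.val ∧ k.val < s + r := by
      by_contra hk
      have h5 := h4 (g, k) (by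
        show k.val < s ∨ s + r ≤ k.val
        omega)
      rw [h5] at h2
      norm_num at h2
    refine ⟨fun a => ?_, ⟨(g, k.val - s), ?_⟩, fun c g g' hg => ?_, fun a ha => ?_⟩
    · dsimp only
      split_ifs with h5
      · have h6 := h1 (a.1, ⟨s + a.2, by omega⟩)
        constructor <;> linarith [h6.1, h6.2]
      · norm_num
    · dsimp only
      rw [dif_pos (by omega : k.val - s < r)]
      have h6 : (⟨s + (k.val - s), by omega⟩ : Fin R) = k := Fin.ext (by
        show s + (k.val - s) = k.val
        omega)
      rw [h6, h2]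
      norm_num
    · dsimp only
      split_ifs with h5
      · rcases h3 ⟨s + c, by omega⟩ g g' hg with h6 | h6
        · left
          rw [h6, zero_div]
        · right
          rw [h6, zero_div]
      · exact Or.inl rfl
    · dsimp only
      rw [dif_neg]
      omega
  · rintro x ⟨h1, h2, h3, h4⟩
    funext a
    obtain ⟨g, k⟩ := a
    dsimp only
    by_cases h5 : s ≤ k.val ∧ k.val < s + r
    · rw [if_pos h5, dif_pos (by omega : k.val - s < r)]
      have h6 : (⟨s + (k.val - s), by omega⟩ : Fin R) = k := Fin.ext (by
        show s + (k.val - s) = k.val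
        omega)
      rw [h6]
      ring
    · rw [if_neg h5]
      exact (h4 (g, k) (by
        show k.val < s ∨ s + r ≤ k.val
        omega)).symm

end MNG
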