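import Pool.Agent.MNG.X0

/-!
# MNG-X2: the bodies of the complexes `XEz`
-/

set_option autoImplicit false

noncomputable section

namespace MNG

open AGM (Ei Bl Sp)
open Set Topology

/-- coordinates of the carrier of a point -/
theorem cr_coord {J : Type} (x : J → ℝ) (j : J) :
    (∃ m : ℤ, x j = m ∧ cr x j = 2 * m) ∨
      ∃ m : ℤ, (m : ℝ) < x j ∧ x j < m + 1 ∧ cr x j = 2 * m + 1 := by
  have e : cr x j = if |x j - round (x j)| ≤ 0 / 2 then 2 * round (x j) else 2 * ⌊x j⌋ + 1 := rfl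
  by_cases h : |x j - round (x j)| ≤ 0 / 2
  · left
    refine ⟨round (x j), ?_, ?_⟩
    · rw [zero_div, abs_nonpos_iff, sub_eq_zero] at h
      exact h
    · rw [e, if_pos h]
  · right
    refine ⟨⌊x j⌋, ?_, Int.lt_floor_add_one _, ?_⟩
    · refine lt_of_le_of_ne (Int.floor_le _) fun h2 => h ?_
      rw [← h2, round_intCast, sub_self, abs_zero, zero_div]
    · rw [e, if_neg h]

theorem ca8_rng (z : ℤ) : (0 ≤ ca1 8 z ∧ ca1 8 z ≤ 2) ↔ 0 ≤ z ∧ z ≤ 16 := by
  unfold ca1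
  push_cast
  split_ifs with h
  · omega
  · omega

theorem ca8_two (z : ℤ) : ca1 8 z = 2 ↔ z = 16 := by
  unfold ca1
  push_cast
  split_ifs with h
  · omega
  · omega

theorem ca8_zero (z : ℤ) : ca1 8 z = 0 ↔ z = 0 := by
  unfold ca1
  push_cast
  split_ifs with h
  · omega
  · omega

/-- the `8`-grid of the join -/
theorem mem_ca_xe {N R : ℕ} (c : Cl (ZMod N × Fin R)) : ca 8 c ∈ XE N R ↔
    (∀ a, 0 ≤ c a ∧ c a ≤ 16) ∧ (∃ a, c a = 16) ∧
      ∀ k g g', g ≠ g' → c (g, k) = 0 ∨ c (g', k) = 0 := by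
  constructor
  · rintro ⟨h1, ⟨a, h2⟩, h3⟩
    refine ⟨fun a => (ca8_rng _).1 (h1 a), ⟨a, (ca8_two _).1 h2⟩, fun k g g' hg => ?_⟩
    rcases h3 k g g' hg with h | h
    · exact Or.inl ((ca8_zero _).1 h)
    · exact Or.inr ((ca8_zero _).1 h)
  · rintro ⟨h1, ⟨a, h2⟩, h3⟩
    refine ⟨fun a => (ca8_rng _).2 (h1 a), ⟨a, (ca8_two _).2 h2⟩, fun k g g' hg => ?_⟩
    rcases h3 k g g' hg with h | h
    · exact Or.inl ((ca8_zero _).2 h)
    · exact Or.inr ((ca8_zero _).2 h)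

theorem xla_two {N h R : ℕ} (c : Cl (ZMod N × Fin R)) :
    xla N h R c = 2 ↔ ∃ a : ZMod N × Fin R, h ≤ a.2.val ∧ c a = 16 := by
  unfold xla
  split_ifs with h1 h2
  · exact ⟨fun _ => h1, fun _ => rfl⟩
  · exact ⟨fun h3 => by omega, fun h3 => absurd h3 h1⟩
  · exact ⟨fun h3 => by omega, fun h3 => absurd h3 h1⟩

theorem xla_zero {N h R : ℕ} (c : Cl (ZMod N × Fin R)) :
    xla N h R c = 0 ↔ ∀ a : ZMod N × Fin R, h ≤ a.2.val → c a ≠ 16 ∧ c a ≠ 15 := by
  unfold xla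
  split_ifs with h1 h2
  · obtain ⟨a, h3, h4⟩ := h1
    exact ⟨fun h5 => by omega, fun h5 => absurd h4 (h5 a h3).1⟩
  · obtain ⟨a, h3, h4⟩ := h2
    exact ⟨fun h5 => by omega, fun h5 => absurd h4 (h5 a h3).2⟩
  · refine ⟨fun _ a ha => ⟨fun h4 => h1 ⟨a, ha, h4⟩, fun h4 => h2 ⟨a, ha, h4⟩⟩, fun _ => rfl⟩

theorem xla_rng {N h R : ℕ} (c : Cl (ZMod N × Fin R)) :
    xla N h R c = 0 ∨ xla N h R c = 1 ∨ xla N h R c = 2 := by
  unfold xla
  split_ifs
  · exact Or.inr (Or.inr rfl)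
  · exact Or.inr (Or.inl rfl)
  · exact Or.inl rfl

private theorem x2_bo {J : Type} {c : Cl J} {x : J → ℝ} (hx : x ∈ bo c) (j : J) :
    (∃ m : ℤ, c j = 2 * m ∧ x j = m) ∨
      ∃ m : ℤ, c j = 2 * m + 1 ∧ (m : ℝ) ≤ x j ∧ x j ≤ m + 1 := by
  have h0 : |2 * x j - (c j : ℝ)| ≤ ((c j % 2 : ℤ) : ℝ) := hx j
  rcases Int.emod_two_eq_zero_or_one (c j) with h | h
  · left
    obtain ⟨m, hm⟩ : ∃ m : ℤ, c j = 2 * m := ⟨c j / 2, by omega⟩
    refine ⟨m, hm, ?_⟩
    rw [h, Int.cast_zero, abs_nonpos_iff, hm] at h0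
    push_cast at h0
    linarith
  · right
    obtain ⟨m, hm⟩ : ∃ m : ℤ, c j = 2 * m + 1 := ⟨c j / 2, by omega⟩
    refine ⟨m, hm, ?_⟩
    rw [h, hm, abs_le] at h0
    push_cast at h0
    constructor <;> linarith [h0.1, h0.2]

/-- from cells to points -/
private theorem x2_to {J : Type} {c : Cl J} {x : J → ℝ} (hx : x ∈ bo c) (j : J) (z : ℤ) :
    (2 * z ≤ c j → (z : ℝ) ≤ x j) ∧ (c j ≤ 2 * z → x j ≤ z) := by
  rcases x2_bo hx j with ⟨m, h1, h2⟩ | ⟨m, h1, h2, h3⟩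
  · rw [h1, h2]
    constructor
    · intro h
      have h4 : z ≤ m := by omega
      exact_mod_cast h4
    · intro h
      have h4 : m ≤ z := by omega
      exact_mod_cast h4
  · rw [h1]
    constructor
    · intro h
      have h4 : z ≤ m := by omega
      have h5 : (z : ℝ) ≤ m := by exact_mod_cast h4
      linarith
    · intro h
      have h4 : m + 1 ≤ z := by omega
      have h5 : (m : ℝ) + 1 ≤ z := by exact_mod_cast h4
      linarith

/-- from points to carriers -/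
private theorem x2_cr {J : Type} (x : J → ℝ) (j : J) (z : ℤ) :
    ((z : ℝ) ≤ x j → 2 * z ≤ cr x j) ∧ (x j ≤ z → cr x j ≤ 2 * z) := by
  rcases cr_coord x j with ⟨m, h1, h2⟩ | ⟨m, h1, h2, h3⟩
  · rw [h1, h2]
    constructor
    · intro h
      have h4 : z ≤ m := by exact_mod_cast h
      omega
    · intro h
      have h4 : m ≤ z := by exact_mod_cast h
      omega
  · rw [h3]
    constructor
    · intro h
      have h5 : (z : ℝ) < m + 1 := by linarith
      have h6 : z < m + 1 := by exact_mod_cast h5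
      omega
    · intro h
      have h5 : (m : ℝ) < z := by linarith
      have h6 : m < z := by exact_mod_cast h5
      omega

private theorem x2_fwd {N R : ℕ} {c : Cl (ZMod N × Fin R)} (hc : ca 8 c ∈ XE N R)
    {x : ZMod N × Fin R → ℝ} (hx : x ∈ bo c) : x ∈ ES N R 0 R := by
  obtain ⟨h1, ⟨a, h2⟩, h3⟩ := (mem_ca_xe c).1 hc
  have e0 : ∀ a, c a = 0 → x a = 0 := by
    intro a ha
    have h4 := (x2_to hx a 0).1 (by omega)
    have h5 := (x2_to hx a 0).2 (by omega)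
    push_cast at h4 h5
    linarith
  refine ⟨fun a => ⟨?_, ?_⟩, ⟨a, ?_⟩, fun k g g' hg => ?_, fun a ha => ?_⟩
  · have h4 := (x2_to hx a 0).1 (by have := (h1 a).1; omega)
    push_cast at h4
    exact h4
  · have h4 := (x2_to hx a 8).2 (by have := (h1 a).2; omega)
    push_cast at h4
    exact h4
  · have h4 := (x2_to hx a 8).1 (by omega)
    have h5 := (x2_to hx a 8).2 (by omega)
    push_cast at h4 h5
    linarith
  · rcases h3 k g g' hg with h | h
    · exact Or.inl (e0 _ h)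
    · exact Or.inr (e0 _ h)
  · have h4 := a.2.isLt
    omega

private theorem x2_bwd {N R : ℕ} {x : ZMod N × Fin R → ℝ} (hx : x ∈ ES N R 0 R) :
    ca 8 (cr x) ∈ XE N R := by
  obtain ⟨h1, ⟨a, h2⟩, h3, -⟩ := hx
  refine (mem_ca_xe _).2 ⟨fun a => ⟨?_, ?_⟩, ⟨a, ?_⟩, fun k g g' hg => ?_⟩
  · have h4 := (x2_cr x a 0).1 (by
      push_cast
      exact (h1 a).1)
    omega
  · have h4 := (x2_cr x a 8).2 (by
      push_cast
      exact (h1 a).2)
    omega
  · have h4 := (x2_cr x a 8).1 (by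
      push_cast
      linarith)
    have h5 := (x2_cr x a 8).2 (by
      push_cast
      linarith)
    omega
  · have e0 : ∀ a, x a = 0 → cr x a = 0 := by
      intro a ha
      have h4 := (x2_cr x a 0).1 (by
        push_cast
        linarith)
      have h5 := (x2_cr x a 0).2 (by
        push_cast
        linarith)
      omega
    rcases h3 k g g' hg with h | h
    · exact Or.inl (e0 _ h)
    · exact Or.inr (e0 _ h)

theorem mem_xez_one {N h R : ℕ} (x : ZMod N × Fin R → ℝ) :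
    x ∈ Bo (XEz N h R 1) ↔ x ∈ ES N R 0 R := by
  constructor
  · rintro ⟨c, hc, hx⟩
    exact x2_fwd hc.1 hx
  · intro hx
    refine ⟨cr x, ⟨x2_bwd hx, ?_⟩, cr_bo x⟩
    rcases xla_rng (h := h) (cr x) with h1 | h1 | h1
    · rw [h1]
      right
      exact ⟨by norm_num, Or.inl (by norm_num)⟩
    · rw [h1]
      left
      rfl
    · rw [h1]
      right
      exact ⟨by norm_num, Or.inr (by norm_num)⟩

theorem mem_xez_zero {N h R : ℕ} (x : ZMod N × Fin R → ℝ) :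
    x ∈ Bo (XEz N h R 0) ↔ x ∈ ES N R 0 R ∧ ∀ a : ZMod N × Fin R, h ≤ a.2.val → x a ≤ 7 := by
  constructor
  · rintro ⟨c, hc, hx⟩
    refine ⟨x2_fwd hc.1 hx, fun a ha => ?_⟩
    have h1 : xla N h R c = 0 := by
      rcases hc.2 with h1 | h1
      · exact h1
      · have h2 := h1.1
        norm_num at h2
    have h2 := (xla_zero c).1 h1 a ha
    have h3 := (((mem_ca_xe c).1 hc.1).1 a).2
    have h4 := (x2_to hx a 7).2 (by omega)
    push_cast at h4
    exact h4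
  · rintro ⟨hx, h1⟩
    refine ⟨cr x, ⟨x2_bwd hx, Or.inl ?_⟩, cr_bo x⟩
    rw [xla_zero]
    intro a ha
    have h2 := (x2_cr x a 7).2 (by
      push_cast
      exact h1 a ha)
    omega

theorem mem_xez_two {N h R : ℕ} (x : ZMod N × Fin R → ℝ) :
    x ∈ Bo (XEz N h R 2) ↔ x ∈ ES N R 0 R ∧ ∃ a : ZMod N × Fin R, h ≤ a.2.val ∧ x a = 8 := by
  constructor
  · rintro ⟨c, hc, hx⟩
    refine ⟨x2_fwd hc.1 hx, ?_⟩
    have h1 : xla N h R c = 2 := by
      rcases hc.2 with h1 | h1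
      · exact h1
      · have h2 := h1.1
        norm_num at h2
    obtain ⟨a, ha, h2⟩ := (xla_two c).1 h1
    refine ⟨a, ha, ?_⟩
    have h4 := (x2_to hx a 8).1 (by omega)
    have h5 := (x2_to hx a 8).2 (by omega)
    push_cast at h4 h5
    linarith
  · rintro ⟨hx, a, ha, h1⟩
    refine ⟨cr x, ⟨x2_bwd hx, Or.inl ?_⟩, cr_bo x⟩
    rw [xla_two]
    refine ⟨a, ha, ?_⟩
    have h4 := (x2_cr x a 8).1 (by
      push_cast
      linarith)
    have h5 := (x2_cr x a 8).2 (by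
      push_cast
      linarith)
    omega

end MNG
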